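import Pool.Agent.Lib.CI.BlueB

open MvPolynomial Set Matrix WithZero Pool.Agent.Lib.MP_e39d36_ag Pool.Agent.Lib.MP_e39d36_ag.Var
  Pool.Agent.Lib.MP_cc3443_ag Pool.Agent.Lib.MV Pool.Agent.Lib.MV.End Pool.Agent.Lib.MV.Fb
  Pool.Agent.Lib.DU

noncomputable section

namespace Pool.Agent.Lib.CI

open Pool.Agent.Lib.CI.Dat

theorem st_ACT (T : Tools) (hU : St_UNIQ) (hP : St_PERM) : St_ACT := by
  intro D F hF K _ _ M u hc hb hg hv
  obtain ⟨φ, μ, h0, h1⟩ := hU D F hF K M u hc hb hg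
  have j : Fin D.m := by
    refine ⟨0, ?_⟩
    obtain ⟨s, hs⟩ := D.small
    omega
  have r0 : ∀ σ : D.Sl, σ.elim 1 μ ≠ 0 := fun σ => by
    cases σ with
    | none => exact one_ne_zero
    | some s => exact h0 s
  have ag : Agr (ts (D := D) none) (sc (fun σ => σ.elim 1 μ) (φ ∘ M.u)) u := fun a ha => by
    cases a with
    | inl j => exact absurd rfl ha
    | inr a => rw [T.sc.sc_inr, h1]; rfl
  have nz : NZ (sc (fun σ => σ.elim 1 μ) (φ ∘ M.u)) := fun σ => by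
    cases σ with
    | none => exact ⟨.inl j, rfl, fun z => one_ne_zero
        (φ.map_eq_zero_iff.1 ((T.sc.sc_zero _ _ _ r0).1 z))⟩
    | some s => exact ⟨.inr ⟨s, 0⟩, rfl, fun z => M.hyp.1 _
        (φ.map_eq_zero_iff.1 ((T.sc.sc_zero _ _ _ r0).1 z))⟩
  obtain ⟨e, he⟩ := hP D F hF K M φ fun v c => (hv v c).trans
    (Iff.trans ⟨T.nrm.big_agr none _ _ _ (fun a ha => (ag a ha).symm) nz,
      T.nrm.big_agr none _ _ _ ag hc.1⟩ (T.nrm.big_sc none _ _ _ r0))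
  refine ⟨φ, μ, e, h0, h1, ⟨_, he.ps⟩, fun s => ?_⟩
  have e1 : M.SD u (some s) = sd M.X (μ s • (φ ∘ fun p => M.x ⟨s, p⟩)) := Finsupp.ext fun E => by
    rw [Mod.SD, sd_apply, sd_apply, T.nrm.nu_some]
    exact congrArg (fun y => log (nm (val E) y)) (funext fun p => h1 ⟨s, p⟩)
  rw [e1, Mod.st, he.push_sd]
  exact (LE_sd_smul (h0 s) fun z => M.hyp.1 _ (φ.map_eq_zero_iff.1 (congrFun z 0))).symm

end Pool.Agent.Lib.CI
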