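import Pool.Agent.Lib.CI.BlueB
import Pool.Agent.Lib.MV.Sch
import Pool.Agent.Lib.MV.B_SM

open MvPolynomial Set AlgebraicGeometry CategoryTheory Pool.Agent.Lib.MP_e39d36_ag
  Pool.Agent.Lib.MV

set_option linter.unusedSectionVars false
set_option linter.style.haveILetI false
set_option linter.unusedVariables false

noncomputable section

namespace Pool.Agent.Lib.CI

open Pool.Agent.Lib.CI.Dat

theorem asm_gen (T : Tools) (h1 : St_GCNT) (h2 : St_GJAC) (h3 : St_GCK) (h4 : St_GRD)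
    (h5 : St_GTL) (h6 : St_GSG) (h7 : St_GIO1) (h8 : St_GIO2) (D : Dat) : D.Gn Gen :=
  T.sl.gn_mono (T.sl.gn_and (T.sl.gn_and (T.sl.gn_and (h1 D) (h2 D)) (T.sl.gn_and (h3 D) (h4 D)))
    (T.sl.gn_and (T.sl.gn_and (h5 D) (h6 D)) (T.sl.gn_and (h7 D) (h8 D)))) fun F hF h =>
      ⟨hF, h.1.1.1, h.1.1.2, h.1.2.1, h.1.2.2, h.2.1.1, h.2.1.2, h.2.2.1, h.2.2.2⟩

theorem asm_inp (hL : St_LL) (hF : St_FC) (hP : St_PAIR) (hI : St_INEQ) (hV : St_LEV)
    (hS : St_SEC) (hT : St_TSEC) (hO : St_OM) (hG : St_GMOV) (hσ : St_SMOV) (hι : St_IMOV)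
    (D : Dat) (F : D.Fm) (h : Gen F) (K : Type) [Field K] [Algebra ℂ K] (M : Mod F K) :
    M.Inp where
  lef := hL D F h.hom h.jac K M
  pos :=
    { fc := hF D F h K M
      pair := hP D F h K M
      ineq := fun l f hf x ⟨W, h0, hW⟩ => by
        obtain ⟨u, lam, hu⟩ := (hV D F h K M l).1
        exact hI D F h K M l u lam hu none f hf W x h0 hW (Or.inl rfl) }
  lev l := by
    obtain ⟨u, lam, hu⟩ := (hV D F h K M l).1
    obtain ⟨-, h1, h2, -⟩ := hS D F h K M l u lam hu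
    refine ⟨M.LD u, h1, h2, fun i E hE => ?_, fun j f E hf hE W ξ h0 hW hξ =>
      hI D F h K M l u lam hu (some j) f hf W ξ h0 hξ (Or.inr ⟨j, E, rfl, hE, hW⟩)⟩
    split_ifs with hm
    · exact hO D F h hm K M l u lam hu i E hE
    · exact hT D F h K M l u lam hu i E hE
  g := hG D F h K M
  σ i := by
    obtain ⟨-, -, -, -, e, -, -, -, he⟩ := hσ D F h K M i
    exact ⟨e, he⟩
  ι hm l i := by
    obtain ⟨u, lam, hu⟩ := (hV D F h K M l).1
    obtain ⟨e, he, -⟩ := hι D F h hm K M l i u lam hu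
    exact ⟨e, he⟩

lemma asm_rat {D : Dat} {K : Type} [Field K] {x : D.Hx → K} (h : ∀ a, x a ≠ 0) :
    D.rat (fun a => x a / x ⟨a.1, 0⟩) = D.rat x := by
  funext τ a
  exact div_div_div_cancel_right₀ (h _) _ _

theorem asm_sch {Y : Scheme.{0}} [IsIntegral Y] [IsLocallyNoetherian Y] (s : Y ⟶ Spec (.of ℂ))
    (D : Dat) (F : D.Fm) (H : ∀ (K : Type) [Field K] [Algebra ℂ K] (M : Mod F K), End.Cone M.Γ)
    [Smooth s] (hY : IsProjective s) (x : D.Hx → Y.functionField)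
    (h : letI := algK s; D.IsCI x F OX) :
    ∃ S : Set (CDiv Y), S.Finite ∧ Covers s (cone S) ∧ ∀ φ L, IsPull s φ L → L ≠ 1 →
      interior (cone S) ∩ L '' interior (cone S) = ∅ := by
  letI := algK s
  have hu := UFD.stalk_ufd s
  obtain ⟨c⟩ := exists_coord' hY (algK_spec _) fun y => by haveI := hu y; infer_instance
  have hf := SchB.fs s c
  have h' : D.IsCI (fun a => x a / x ⟨a.1, 0⟩) F OX := by
    simp only [IsCI, Dat.B, asm_rat h.1]
    exact ⟨fun a => div_ne_zero (h.1 _) (h.1 _), h.2⟩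
  obtain ⟨S, h1, h2, h3⟩ := H _ ⟨c.var, c.prj, c.curves, _, h', fun t => div_self (h.1 _),
    st_sm _ _ hf fun z => (eqO z).toMulEquiv.uniqueFactorizationMonoid (hu z)⟩
  simp only [Var.Curves.Covers, c.isPull_iff] at h2 h3
  exact ⟨S, h1, h2, h3⟩

end Pool.Agent.Lib.CI
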