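import Pool.Agent.Lib.CI.BlueB

open MvPolynomial Set Matrix WithZero Pool.Agent.Lib.MP_e39d36_ag Pool.Agent.Lib.MP_e39d36_ag.Var
  Pool.Agent.Lib.MP_cc3443_ag Pool.Agent.Lib.MV Pool.Agent.Lib.MV.End Pool.Agent.Lib.MV.Fb
  Pool.Agent.Lib.DU

set_option linter.unusedSectionVars false
set_option linter.unusedVariables false

noncomputable section

namespace Pool.Agent.Lib.CI

open Pool.Agent.Lib.CI.Dat
open Pool.Agent.Lib.MV.G3 (acl Ov)

namespace BAD

variable {D : Dat} {κ : Type} [Field κ] [Algebra ℂ κ]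

lemma xp_mem {m : ℕ} (k : IntermediateField ℂ κ) (A : Matrix (Fin m) (Fin (m + 1)) κ)
    (h : ∀ p q, A p q ∈ k) (q : Fin (m + 1)) : xp A q ∈ k := by
  rw [xp, Matrix.det_apply']
  exact mul_mem (pow_mem (neg_mem (one_mem k)) _) (sum_mem fun σ _ =>
    mul_mem (intCast_mem k _) (prod_mem fun i _ => h _ _))

lemma mem_off {l : D.I0} {a : D.Vr} : a ∈ off (some l) ↔ sl a ≠ some l.1 := by
  simp only [off, Finset.mem_filter, Finset.mem_univ, true_and]; rfl

lemma mem_of2 {l : D.I0} {i : D.I1} {a : D.Vr} :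
    a ∈ of2 l i ↔ sl a ≠ some l.1 ∧ sl a ≠ some i.1 := by
  simp only [of2, Finset.mem_filter, Finset.mem_univ, true_and]

lemma ne_l (l : D.I0) (i : D.I1) : i.1 ≠ l.1 := fun h => by
  have h1 := l.2
  have h2 := i.2
  rw [h] at h2
  omega

open Classical in
/-- A slot without the distinguished variable. -/
def Zs (s : Fin D.k) : Finset D.Vr :=
  Finset.univ.filter fun a => sl a = some s ∧ ∀ i : D.I1, a ≠ cw i 0

lemma mem_Zs {s : Fin D.k} {a : D.Vr} : a ∈ Zs s ↔ sl a = some s ∧ ∀ i : D.I1, a ≠ cw i 0 := by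
  simp only [Zs, Finset.mem_filter, Finset.mem_univ, true_and]

lemma card_Zs (T : Tools) (s : Fin D.k) :
    D.m ≤ (Zs s).card ∧ (D.m < D.n s → D.m + 2 ≤ (Zs s).card) := by
  have h0 : (Finset.univ.filter fun a : D.Vr => sl a = some s).card = D.n s + 1 :=
    T.sl.card_sl (some s)
  have h1 := D.m_le s
  by_cases h : D.n s = D.m
  · have h2 : (Finset.univ.filter fun a : D.Vr => sl a = some s) ⊆ insert (cw ⟨s, h⟩ 0) (Zs s) := by
      intro a ha
      have h3 := (Finset.mem_filter.1 ha).2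
      by_cases h4 : a = cw ⟨s, h⟩ 0
      · exact h4 ▸ Finset.mem_insert_self _ _
      · refine Finset.mem_insert_of_mem (mem_Zs.2 ⟨h3, fun i hi => h4 ?_⟩)
        obtain rfl : i = ⟨s, h⟩ := Subtype.ext (Option.some.inj (by rw [← h3, hi, T.sl.sl_cw]))
        exact hi
    have h3 := (Finset.card_le_card h2).trans (Finset.card_insert_le _ _)
    omega
  · have h2 : (Finset.univ.filter fun a : D.Vr => sl a = some s) ⊆ Zs s := by
      intro a ha
      have h3 := (Finset.mem_filter.1 ha).2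
      refine mem_Zs.2 ⟨h3, fun i hi => h ?_⟩
      obtain rfl : i.1 = s := Option.some.inj (by rw [← h3, hi, T.sl.sl_cw])
      exact i.2
    have h3 := Finset.card_le_card h2
    omega

variable {F : D.Fm} {l : D.I0} {u : D.Vr → κ} {t : D.I1 → κ}

lemma t_mem (T : Tools) (hF : D.Hom F) {i : D.I1} (ht : IsT F l i u (t i))
    (k : IntermediateField ℂ κ) (hk : ∀ a ∈ off (some l), u a ∈ k) {q} (hq : u (cw i q) ≠ 0) :
    t i ∈ k := by
  rw [eq_div_of_mul_eq hq (ht q)]
  refine div_mem (xp_mem k _ (fun p q => ?_) q) (hk _ (mem_off.2 ?_))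
  · exact T.pi.mem k (off (some l)) u _ hk fun u' h =>
      congrFun (congrFun (T.pi.nx_agr hF l i u u' fun a ha => h a (mem_off.2 ha)) p) q
  · rw [T.sl.sl_cw]
    exact fun h => ne_l l i (Option.some.inj h)

/-- The count of zeros. -/
lemma cnt (T : Tools) (hF : D.Hom F) (ht : ∀ i, IsT F l i u (t i)) (J : D.I1 → Prop)
    (hI : ∀ i, ¬J i → ∃ q, u (cw i q) ≠ 0)
    (hJ : ∀ k : IntermediateField ℂ κ, (∀ a ∈ off (some l), (∀ i, J i → sl a ≠ some i.1) → u a ∈ k) →
      (∀ i, J i → t i ∈ k) → ∀ a ∈ off (some l), u a ∈ k)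
    (Y : Finset (Fin D.m)) (R : Finset (Fin D.k)) (hY : ∀ j ∈ Y, u (.inl j) = 0) (hl : l.1 ∉ R)
    (hR : ∀ s ∈ R, (∀ a, sl a = some s → u a = 0) ∨ ∃ i, J i ∧ s = i.1) :
    rk (u '' off (some l) ∪ range t) + (Y.card + ∑ s ∈ R, (Zs s).card) ≤ ∑ s, (D.n s + 1) := by
  classical
  set g : D.Vr → κ := fun a =>
    if ∃ i, J i ∧ sl a = some i.1 then ∑ i, if a = cw i 0 then t i else 0 else u a with hg
  have g1 : ∀ i, J i → t i ∈ acl (g '' off (some l)) := fun i hi => by
    refine G3.subset_acl _ ⟨cw i 0, mem_off.2 ?_, ?_⟩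
    · rw [T.sl.sl_cw]
      exact fun h => ne_l l i (Option.some.inj h)
    · rw [hg]
      beta_reduce
      rw [if_pos ⟨i, hi, T.sl.sl_cw i 0⟩, Finset.sum_eq_single i, if_pos rfl]
      · refine fun i' _ h => if_neg fun h' => h (Subtype.ext (Option.some.inj ?_))
        rw [← T.sl.sl_cw i' 0, ← h', T.sl.sl_cw]
      · simp
  have g2 : ∀ a ∈ off (some l), u a ∈ acl (g '' off (some l)) := hJ _ (fun a ha h =>
    G3.subset_acl _ ⟨a, ha, if_neg fun ⟨i, h1, h2⟩ => h i h1 h2⟩) g1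
  have g3 : rk (u '' off (some l) ∪ range t) ≤ rk (g '' off (some l)) := by
    refine T.rk.le (toFinite _) (union_subset ?_ ?_)
    · rintro _ ⟨a, ha, rfl⟩
      exact g2 a ha
    · rintro _ ⟨i, rfl⟩
      by_cases hi : J i
      · exact g1 i hi
      · obtain ⟨q, hq⟩ := hI i hi
        exact t_mem T hF (ht i) _ g2 hq
  have g4 := T.rk.fr_add g (off (some l)) (Y.image .inl ∪ R.biUnion Zs) (fun a ha => by
    rcases Finset.mem_union.1 ha with h | h
    · obtain ⟨j, -, rfl⟩ := Finset.mem_image.1 h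
      exact mem_off.2 (by simp [sl])
    · obtain ⟨s, hs, h⟩ := Finset.mem_biUnion.1 h
      refine mem_off.2 ?_
      rw [(mem_Zs.1 h).1]
      exact fun h' => hl (Option.some.inj h' ▸ hs)) (fun a ha => Or.inl (by
    rcases Finset.mem_union.1 ha with h | h
    · obtain ⟨j, hj, rfl⟩ := Finset.mem_image.1 h
      exact (if_neg (by simp [sl])).trans (hY j hj)
    · obtain ⟨s, hs, h⟩ := Finset.mem_biUnion.1 h
      obtain ⟨h1, h2⟩ := mem_Zs.1 h
      rw [hg]
      beta_reduce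
      split_ifs with h3
      · exact Finset.sum_eq_zero fun i _ => if_neg (h2 i)
      · rcases hR s hs with h4 | ⟨i, h4, rfl⟩
        · exact h4 a h1
        · exact absurd ⟨i, h4, h1⟩ h3))
  rw [Finset.card_union_of_disjoint, Finset.card_image_of_injective _ Sum.inl_injective,
    Finset.card_biUnion, T.sl.card_off] at g4
  · have := T.rk.le_fr g (off (some l))
    omega
  · intro s _ s' _ h
    refine Finset.disjoint_left.2 fun a h1 h2 => h (Option.some.inj ?_)
    rw [← (mem_Zs.1 h1).1, (mem_Zs.1 h2).1]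
  · refine Finset.disjoint_left.2 fun a h1 h2 => ?_
    obtain ⟨j, -, rfl⟩ := Finset.mem_image.1 h1
    obtain ⟨s, -, h⟩ := Finset.mem_biUnion.1 h2
    simpa [sl] using (mem_Zs.1 h).1

/-- The count with the vanishing slots. -/
lemma cnt0 (T : Tools) (hF : D.Hom F) (ht : ∀ i, IsT F l i u (t i))
    (Y : Finset (Fin D.m)) (R : Finset (Fin D.k)) (hY : ∀ j ∈ Y, u (.inl j) = 0) (hl : l.1 ∉ R)
    (hR : ∀ s ∈ R, ∀ a, sl a = some s → u a = 0) :
    rk (u '' off (some l) ∪ range t) + (Y.card + ∑ s ∈ R, (Zs s).card) ≤ ∑ s, (D.n s + 1) := by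
  refine cnt T hF ht (fun i => ∀ q, u (cw i q) = 0) (fun i h => not_forall.1 h)
    (fun k h1 _ a ha => ?_) Y R hY hl fun s hs => Or.inl (hR s hs)
  by_cases h : ∃ i, (∀ q, u (cw i q) = 0) ∧ sl a = some i.1
  · obtain ⟨i, h2, h3⟩ := h
    obtain ⟨q, rfl⟩ := T.sl.cw_surj i a h3
    rw [h2]
    exact zero_mem k
  · exact h1 a ha fun i h2 h3 => h ⟨i, h2, h3⟩

/-- The count when the section does not vanish. -/
lemma cnt1 (T : Tools) (hF : D.Hom F) (ht : ∀ i, IsT F l i u (t i)) (i : D.I1)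
    (hz : u (.inl (jj i)) = 0) (h0 : t i ≠ 0)
    (Y : Finset (Fin D.m)) (R : Finset (Fin D.k)) (hY : ∀ j ∈ Y, u (.inl j) = 0) (hl : l.1 ∉ R)
    (hR : ∀ s ∈ R, (∀ a, sl a = some s → u a = 0) ∨ s = i.1) :
    rk (u '' off (some l) ∪ range t) + (Y.card + ∑ s ∈ R, (Zs s).card) ≤ ∑ s, (D.n s + 1) := by
  refine cnt T hF ht (fun i' => (∀ q, u (cw i' q) = 0) ∨ i' = i)
    (fun i' h => not_forall.1 fun h' => h (Or.inl h')) (fun k h1 h2 => ?_) Y R hY hl
    fun s hs => (hR s hs).imp_right fun h => ⟨i, Or.inr rfl, h⟩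
  have a1 : ∀ a ∈ of2 l i, u a ∈ k := fun a ha => by
    obtain ⟨b1, b2⟩ := mem_of2.1 ha
    by_cases h : ∃ i', (∀ q, u (cw i' q) = 0) ∧ sl a = some i'.1
    · obtain ⟨i', h3, h4⟩ := h
      obtain ⟨q, rfl⟩ := T.sl.cw_surj i' a h4
      rw [h3]
      exact zero_mem k
    · refine h1 a (mem_off.2 b1) fun i' h3 h4 => ?_
      rcases h3 with h3 | rfl
      · exact h ⟨i', h3, h4⟩
      · exact b2 h4
  intro a ha
  by_cases h : sl a = some i.1
  · obtain ⟨q, rfl⟩ := T.sl.cw_surj i a h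
    rw [eq_div_of_mul_eq h0 ((mul_comm _ _).trans (ht i q))]
    refine div_mem (xp_mem k _ (fun p q => ?_) q) (h2 i (Or.inr rfl))
    exact T.pi.mem k (of2 l i) u _ a1 fun u' h' =>
      congrFun (congrFun (T.pi.nx_agr2 hF l i u u' (fun a ha _ => h' a ha) (Or.inl hz)
        (Or.inl ((h' _ (mem_of2.2 (by simp [sl]))).trans hz))) p) q
  · exact a1 a (mem_of2.2 ⟨mem_off.1 ha, h⟩)

lemma card_o (o : Option (Fin D.m)) : o.toFinset.card = oc o := by cases o <;> rfl

/-- Only one slot vanishes. -/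
lemma drop (T : Tools) (hF : Gen F) (ht : ∀ i, IsT F l i u (t i)) (o : Option (Fin D.m))
    (ho : ∀ j, o = some j → u (.inl j) = 0) (i : D.I1) (hi : ∀ a, sl a = some i.1 → u a = 0)
    (hs : ∀ s, s ≠ l.1 → s ≠ i.1 → ∃ a, sl a = some s ∧ u a ≠ 0) {j : Fin D.m} (hj : j ≠ jj i)
    (hz : u (.inl j) ≠ 0) :
    rk (u '' off (some l) ∪ range t) + D.m + 2 + oc o ≤ ∑ s, (D.n s + 1) := by
  classical
  set v : D.Vr → κ := fun a =>
    if a = .inl (jj i) then 0 else if sl a = some l.1 ∨ sl a = some i.1 then 1 else u a with hv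
  have v1 : ∀ a ∈ of2 l i, a ≠ .inl (jj i) → v a = u a := fun a ha h =>
    (if_neg h).trans (if_neg (not_or.2 (mem_of2.1 ha)))
  have v2 : v (.inl (jj i)) = 0 := if_pos rfl
  have v3 : ∀ j, Sum.inl j ∈ of2 l i := fun j => mem_of2.2 (by simp [sl])
  have w0 : ∀ q, u (cw i q) = 0 := fun q => hi _ (T.sl.sl_cw i q)
  have nz : NZ v := by
    rintro (_ | s)
    · exact ⟨.inl j, rfl, by rwa [v1 _ (v3 j) (by simpa using hj)]⟩
    · by_cases h : s = l.1 ∨ s = i.1
      · refine ⟨.inr ⟨s, 0⟩, rfl, ?_⟩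
        have : v (.inr ⟨s, 0⟩) = 1 := (if_neg (by simp)).trans (if_pos (by simpa [sl] using h))
        rw [this]
        exact one_ne_zero
      · obtain ⟨a, h1, h2⟩ := hs s (fun h' => h (Or.inl h')) fun h' => h (Or.inr h')
        refine ⟨a, h1, ?_⟩
        rwa [v1 a (mem_of2.2 (by simpa [h1, not_or] using h)) (by rintro rfl; simp [sl] at h1)]
  have a1 := hF.rd l i κ v nz v2 (by
    rw [T.pi.nx_agr2 hF.hom l i u v v1 (Or.inr w0) (Or.inl v2)]
    funext q
    rw [← ht i q, w0, mul_zero]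
    rfl)
  have a2 := T.rk.fr_add v (of2 l i) ((insert (jj i) o.toFinset).image .inl) (fun a ha => by
    obtain ⟨j, -, rfl⟩ := Finset.mem_image.1 ha
    exact v3 j) (fun a ha => Or.inl (by
    obtain ⟨j', h, rfl⟩ := Finset.mem_image.1 ha
    by_cases h' : j' = jj i
    · rw [h', v2]
    · rw [v1 _ (v3 j') (by simpa using h')]
      exact ho j' (by simpa [h'] using h)))
  rw [Finset.card_image_of_injective _ Sum.inl_injective] at a2
  have a3 := T.sl.card_of2 l i
  have a4 : ∀ U : Finset κ, t i ∈ U → (u (.inl (jj i)) = 0 ∨ u (.inl (jj i)) ∈ U) →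
      rk (u '' off (some l) ∪ range t) ≤ rk (v '' of2 l i) + U.card := fun U h1 h2 => by
    have b1 : ∀ a ∈ off (some l), u a ∈ acl (v '' of2 l i ∪ U) := fun a ha => by
      by_cases h : sl a = some i.1
      · rw [hi a h]
        exact zero_mem _
      by_cases h' : a = .inl (jj i)
      · rcases h2 with h2 | h2
        · rw [h', h2]
          exact zero_mem _
        · exact G3.subset_acl _ (Or.inr (h' ▸ h2))
      · have h3 := mem_of2.2 ⟨mem_off.1 ha, h⟩
        exact G3.subset_acl _ (Or.inl ⟨a, h3, v1 a h3 h'⟩)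
    have b2 := T.rk.card (id : κ → κ) U
    rw [image_id] at b2
    refine (T.rk.le (T := v '' of2 l i ∪ U) (toFinite _) (union_subset ?_ ?_)).trans
      ((T.rk.union (toFinite _) (toFinite _)).trans (Nat.add_le_add_left b2 _))
    · rintro _ ⟨a, ha, rfl⟩
      exact b1 a ha
    · rintro _ ⟨i', rfl⟩
      by_cases h : i' = i
      · exact G3.subset_acl _ (Or.inr (h ▸ h1))
      · obtain ⟨a, h3, h4⟩ := hs i'.1 (ne_l l i') fun h' => h (Subtype.ext h')
        obtain ⟨q, rfl⟩ := T.sl.cw_surj i' a h3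
        exact t_mem T hF.hom (ht i') _ b1 h4
  have a5 := card_o o
  by_cases h : o = some (jj i)
  · have b1 := a4 {t i} (Finset.mem_singleton_self _) (Or.inl (ho _ h))
    rw [Finset.insert_eq_of_mem (by simp [h])] at a2
    rw [Finset.card_singleton] at b1
    omega
  · have b1 := a4 {t i, u (.inl (jj i))} (by simp) (Or.inr (by simp))
    have b2 : ({t i, u (.inl (jj i))} : Finset κ).card ≤ 2 := Finset.card_le_two
    rw [Finset.card_insert_of_notMem (by simpa using h)] at a2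
    omega

end BAD

open BAD in
theorem st_BAD (T : Tools) : St_BAD := by
  intro D F hF l o f hV κ _ _ u t ht ho hz hs ht0 ⟨σ, hσ, hv⟩
  have hm := D.two_le_m
  have hc := card_o o
  have hY : ∀ j ∈ o.toFinset, u (.inl j) = 0 := fun j hj => ho j (by simpa using hj)
  rcases hV.alt with ⟨a1, ⟨j0, a2, a3⟩, a4⟩ | ⟨i, a1, a2, a3⟩
  · obtain _ | s := σ
    · exact absurd (hv _ rfl) (hz j0 a2 a3)
    have hl : s ≠ l.1 := fun h => hσ (congrArg _ h)
    have hf : f s ≠ 0 := fun h => (hs s hl h).elim fun p hp => hp (hv _ rfl)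
    by_cases h1 : D.m < D.n s
    · have b1 := cnt0 T hF.hom ht _ {s} hY (by simpa using hl.symm) (by simpa using hv)
      have b2 := (card_Zs T s).2 h1
      rw [Finset.sum_singleton] at b1
      omega
    have h2 : D.n s = D.m := by
      have b1 := D.m_le s
      have b2 : D.n s + 1 ≠ D.m := fun h => hf (a1 ⟨s, h⟩ fun h' => hl (congrArg Subtype.val h'))
      omega
    obtain ⟨i, rfl⟩ : ∃ i : D.I1, s = i.1 := ⟨⟨s, h2⟩, rfl⟩
    by_cases h3 : ∃ s, s ≠ l.1 ∧ s ≠ i.1 ∧ ∀ a, sl a = some s → u a = 0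
    · obtain ⟨s, b1, b2, b3⟩ := h3
      have b4 := cnt0 T hF.hom ht _ {s, i.1} hY (by simpa using ⟨b1.symm, hl.symm⟩)
        (by
          simp only [Finset.forall_mem_insert, Finset.mem_singleton]
          exact ⟨b3, fun _ h => h ▸ hv⟩)
      have b5 := (card_Zs T s).1
      have b6 := (card_Zs T i.1).1
      rw [Finset.sum_pair b2] at b4
      omega
    push Not at h3
    by_cases h4 : ∃ j, j ≠ jj i ∧ u (.inl j) ≠ 0
    · obtain ⟨j, b1, b2⟩ := h4
      exact drop T hF ht o ho i hv h3 b1 b2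
    push Not at h4
    rcases a4 i hf with ⟨j, b1, b2, b3⟩ | ⟨j, j', b1, b2, b3, b4, b5⟩
    · exact absurd (h4 j b2) (hz j b1 b3)
    · have b6 := cnt0 T hF.hom ht (insert j (insert j' o.toFinset)) {i.1} (by
        simp only [Finset.forall_mem_insert]
        exact ⟨h4 j b4, h4 j' b5, hY⟩) (by simpa using hl.symm) (by simpa using hv)
      have b7 := (card_Zs T i.1).1
      rw [Finset.sum_singleton, Finset.card_insert_of_notMem (by simpa using ⟨b1, b2.symm⟩),
        Finset.card_insert_of_notMem (by simpa using b3.symm)] at b6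
      omega
  · have h0 := ht0 i a1 a2
    have h1 : oc o = 1 := by rw [a1]; rfl
    have b6 := (card_Zs T i.1).1
    by_cases h2 : ∀ j, u (.inl j) = 0
    · have b1 := cnt1 T hF.hom ht i (ho _ a1) h0 Finset.univ {i.1} (fun j _ => h2 j)
        (by simpa using (ne_l l i).symm) (by simp)
      rw [Finset.sum_singleton, Finset.card_univ, Fintype.card_fin] at b1
      rcases a3 with a3 | ⟨j, b2, b3⟩
      · omega
      · exact absurd (h2 j) (hz j (by rw [a1]; simpa using b2) b3)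
    by_cases h3 : ∃ s, s ≠ l.1 ∧ s ≠ i.1 ∧ ∀ a, sl a = some s → u a = 0
    · obtain ⟨s, b1, b2, b3⟩ := h3
      have b4 := cnt1 T hF.hom ht i (ho _ a1) h0 _ {s, i.1} hY
        (by simpa using ⟨b1.symm, (ne_l l i).symm⟩) (by
          simp only [Finset.forall_mem_insert, Finset.mem_singleton]
          exact ⟨Or.inl b3, fun _ h => Or.inr h⟩)
      have b5 := (card_Zs T s).1
      rw [Finset.sum_pair b2] at b4
      omega
    push Not at h2 h3
    obtain ⟨j, hj⟩ := h2
    obtain _ | s := σ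
    · exact absurd (hv _ rfl) hj
    by_cases h4 : s = i.1
    · exact drop T hF ht o ho i (h4 ▸ hv) h3 (fun h : j = jj i => hj (by rw [h]; exact ho _ a1)) hj
    · obtain ⟨a, b1, b2⟩ := h3 s (fun h => hσ (congrArg _ h)) h4
      exact absurd (hv a b1) b2

end Pool.Agent.Lib.CI
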