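import Pool.Agent.Lib.CI.LDefs

open Set Submodule
open scoped NNReal

noncomputable section

namespace Pool.Agent.Lib.CI

open Dat

namespace BAS

variable {D : Dat}

/-- The functional `e_s + c e_l`. -/
def fn (l : D.I0) (s : Fin D.k) (c : ℤ) : D.Λ := Pi.single s 1 + Pi.single l.1 c

lemma fn_dot (l : D.I0) (s : Fin D.k) (c : ℤ) (γ : D.Λ) : fn l s c ⬝ᵥ γ = γ s + c * γ l.1 := by
  simp [fn, add_dotProduct]

lemma fn_pr (l : D.I0) (s : Fin D.k) (c : ℤ) (x : D.V) : pr (fn l s c) x = x s + c * x l.1 := by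
  simp [pr, fn, add_mul, Finset.sum_add_distrib, Pi.single_apply]

lemma fn_ne (l : D.I0) (s : Fin D.k) (c : ℤ) {t : Fin D.k} (h : t ≠ l.1) :
    fn l s c t = if t = s then 1 else 0 := by
  simp [fn, Pi.single_apply, h]

lemma zeta_l (l : D.I0) : zeta l l.1 = -1 := by
  simp [zeta, aa, aW, hs, l.2]

lemma zeta_s (l : D.I0) {s : Fin D.k} (h : D.n s + 1 ≠ D.m) : zeta l s = D.n s + 1 := by
  have h1 : s ≠ l.1 := fun e => h (e ▸ l.2)
  have h2 : ∑ j, (D.d j s : ℤ) = D.n s + 1 := by exact_mod_cast D.cy s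
  simp [zeta, aa, aW, hs, h, h1, h2]

lemma dot_Lam (l : D.I0) {s : Fin D.k} (h : D.n s + 1 ≠ D.m) (c : ℤ) (j : Fin D.m) :
    fn l s c ⬝ᵥ Lam l j = D.n s + 1 - c - D.d j s := by
  rw [fn_dot, Lam, Pi.sub_apply, Pi.sub_apply, zeta_l, zeta_s l h]
  simp only [aa, aW, h, l.2, if_true, if_false]
  push_cast
  ring

lemma dot_tcl (l : D.I0) {s : Fin D.k} (h : D.n s + 1 ≠ D.m) (c : ℤ) (i : D.I1) :
    fn l s c ⬝ᵥ tcl l i = D.m * (D.n s + 1 - c) - (D.m + 1) * if s = i.1 then 1 else 0 := by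
  have h1 : l.1 ≠ i.1 := fun e => by
    have h2 := l.2
    have h3 := i.2
    rw [e] at h2
    omega
  rw [fn_dot, tcl]
  simp only [Pi.sub_apply, Pi.smul_apply, Pi.add_apply, zeta_l, zeta_s l h, smul_eq_mul,
    Pi.single_apply, hs, h, h1, Finset.mem_singleton, not_true, and_false, false_and, if_false]
  ring

lemma ineq {P : Set D.V} (hP : Pos P) {x : D.V} (hx : x ∈ P) (l : D.I0) {s : Fin D.k}
    (h : D.n s + 1 ≠ D.m) {A : ℕ} (hA : ∀ j, D.d j s ≤ A) (hj : ∃ j, D.d j s = A)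
    (h2 : D.n s = D.m → 2 ≤ A ∧ 3 ≤ D.m) : 0 ≤ x s + ((D.n s : ℝ) + 1 - A) * x l.1 := by
  have h0 := hP.ineq l (fn l s (D.n s + 1 - A)) ?_ x hx
  · rw [fn_pr] at h0
    exact_mod_cast h0
  refine ⟨fun j _ => ?_, fun t ht => ?_, fun i => ?_, Or.inl ⟨fun l' hl => ?_, ?_, fun i hi => ?_⟩⟩
  · have := hA j
    rw [dot_Lam l h]
    omega
  · rw [fn_ne _ _ _ ht]
    split_ifs <;> omega
  · rw [dot_tcl l h, sub_sub_cancel]
    split_ifs with e
    · obtain ⟨h3, h4⟩ := h2 (e ▸ i.2)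
      have h5 : (2 : ℤ) ≤ A := by exact_mod_cast h3
      have h6 : (3 : ℤ) ≤ D.m := by exact_mod_cast h4
      nlinarith
    · rw [mul_zero, sub_zero]
      positivity
  · rw [fn_ne _ _ _ fun e => hl (Subtype.ext e), if_neg fun e : l'.1 = s => h (e ▸ l'.2)]
  · obtain ⟨j, e⟩ := hj
    exact ⟨j, Option.some_ne_none j, by rw [dot_Lam l h, e]; ring⟩
  · have h1 : i.1 ≠ l.1 := fun e => by
      have h2 := l.2
      have h3 := i.2
      rw [← e] at h2
      omega
    rw [fn_ne _ _ _ h1] at hi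
    have e : i.1 = s := by_contra fun e => hi (if_neg e)
    have h3 := (h2 (e ▸ i.2)).2
    have h4 : 1 < (Finset.univ.erase (jj i)).card := by
      rw [Finset.card_erase_of_mem (Finset.mem_univ _), Finset.card_univ, Fintype.card_fin]
      omega
    obtain ⟨j, h5, j', h6, h7⟩ := Finset.one_lt_card.mp h4
    exact Or.inr ⟨j, j', h7, Option.some_ne_none j, Option.some_ne_none j',
      Finset.ne_of_mem_erase h5, Finset.ne_of_mem_erase h6⟩

end BAS

theorem st_BAS : St_BAS := by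
  intro D P hP x hx
  have hm := D.two_le_m
  refine ⟨fun h3 l i => ?_, fun s hs => ⟨?_, ?_⟩⟩
  · have h := BAS.ineq hP hx l (s := i.1) (by have := i.2; omega) (A := 2)
      (fun j => by
        by_cases e : j = jj i
        · rw [e, d_jj]
        · rw [d_ne_jj i e]; omega) ⟨_, d_jj i⟩ fun _ => ⟨le_rfl, h3⟩
    rw [i.2] at h
    push_cast at h
    linarith
  · obtain ⟨α, h0, h1, h2, h3⟩ := hP.fc {s} (by simpa using hs)
    have h4 := h3 x hx
    rw [dotProduct, Finset.sum_eq_single s (fun t _ ht => by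
      rw [h2 t (by simpa using ht), zero_mul]) (fun h => absurd (Finset.mem_univ s) h)] at h4
    refine nonneg_of_mul_nonneg_right h4 (lt_of_le_of_ne (h0 s) fun e => h1 (funext fun t => ?_))
    by_cases ht : t = s
    · exact ht ▸ e.symm
    · exact h2 t (by simpa using ht)
  · obtain ⟨j, -, hj⟩ := Finset.exists_max_image Finset.univ (fun j => D.d j s)
      ⟨⟨0, by omega⟩, Finset.mem_univ _⟩
    have h1 := D.sum_pred s
    have h2 := Finset.single_le_sum (f := fun j => D.d j s - 1) (fun _ _ => Nat.zero_le _)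
      (Finset.mem_univ j)
    exact ⟨D.d j s, D.d_pos j s, by omega, fun j' => hj j' (Finset.mem_univ _), ⟨j, rfl⟩,
      fun l => BAS.ineq hP hx l (by omega) (fun j' => hj j' (Finset.mem_univ _)) ⟨j, rfl⟩
        fun e => by omega⟩

end Pool.Agent.Lib.CI
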