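import Pool.Agent.Lib.CI.Defs

open MvPolynomial Set Matrix WithZero Pool.Agent.Lib.MP_e39d36_ag Pool.Agent.Lib.MP_e39d36_ag.Var
  Pool.Agent.Lib.MP_cc3443_ag Pool.Agent.Lib.MV Pool.Agent.Lib.MV.End Pool.Agent.Lib.MV.Fb
  Pool.Agent.Lib.DU

set_option linter.unusedSectionVars false
set_option linter.unusedVariables false

noncomputable section

namespace Pool.Agent.Lib.CI

/-- The valuation is trivial on the constants. -/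
def Cv {Ω : Type} [Field Ω] [Algebra ℂ Ω] (v : Valuation Ω ℤᵐ⁰) : Prop :=
  ∀ c : ℂ, v (algebraMap ℂ Ω c) ≤ 1

/-- Iterated partial derivatives. -/
def dl {σ R : Type} [CommRing R] (L : List σ) (P : MvPolynomial σ R) : MvPolynomial σ R :=
  L.foldr (fun a Q => pderiv a Q) P

namespace Dat

variable {D : Dat}

/-- A character of the torus. -/
def chi {Ω : Type} [Field Ω] (ρ : D.Sl → Ω) (w : D.Sl → ℤ) : Ω := ∏ σ, ρ σ ^ w σ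

/-- The weight of a class, `c` times the slot of the left kernel vector being added. -/
def wc (c : ℤ) (γ : D.Λ) (σ : D.Sl) : ℤ := σ.elim c γ

/-- The weight of the section `t`. -/
def wT (l : D.I0) (i : D.I1) : D.Sl → ℤ :=
  wc D.m ((D.m : ℤ) • hs {l.1} - ((D.m : ℤ) + 1) • Pi.single i.1 1)

/-- The weight of the symmetric product. -/
def wS (i : D.I1) : D.Sl → ℤ := wc 0 (scol i i.1 + Pi.single i.1 1)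

/-- Forms with coefficients in a field. -/
def HomK {κ : Type} [Field κ] (G : Fin D.m → MvPolynomial D.Hx κ) : Prop :=
  ∀ j μ, coeff μ (G j) ≠ 0 → D.md μ = D.d j

/-- Agreement outside one slot. -/
def Agr {Ω : Type} (σ : D.Sl) (u u' : D.Vr → Ω) : Prop := ∀ a, sl a ≠ σ → u' a = u a

end Dat

open Pool.Agent.Lib.CI.Dat
open Pool.Agent.Lib.MV.G3 (acl Ov)

/-! ### Tools -/

/-- Transcendence degrees. -/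
structure St_RK : Prop where
  le : ∀ {Ω : Type} [Field Ω] [Algebra ℂ Ω] {S T : Set Ω}, T.Finite → S ⊆ acl T → rk S ≤ rk T
  mono : ∀ {Ω : Type} [Field Ω] [Algebra ℂ Ω] {S T : Set Ω}, T.Finite → S ⊆ T → rk S ≤ rk T
  union : ∀ {Ω : Type} [Field Ω] [Algebra ℂ Ω] {S T : Set Ω}, S.Finite → T.Finite →
    rk (S ∪ T) ≤ rk S + rk T
  sub : ∀ {Ω : Type} [Field Ω] [Algebra ℂ Ω] {S T U : Set Ω}, S.Finite → T.Finite → U.Finite →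
    rk (S ∪ T ∪ U) + rk S ≤ rk (S ∪ T) + rk (S ∪ U)
  card : ∀ {Ω ι : Type} [Field Ω] [Algebra ℂ Ω] (u : ι → Ω) (A : Finset ι), rk (u '' A) ≤ A.card
  le_fr : ∀ {Ω ι : Type} [Field Ω] [Algebra ℂ Ω] (u : ι → Ω) (A : Finset ι), rk (u '' A) ≤ fr u A
  fr_add : ∀ {Ω ι : Type} [Field Ω] [Algebra ℂ Ω] (u : ι → Ω) (A Z : Finset ι), Z ⊆ A →
    (∀ a ∈ Z, u a = 0 ∨ u a = 1) → fr u A + Z.card ≤ A.card
  fr_sum : ∀ {Ω ι ι' : Type} [Field Ω] [Algebra ℂ Ω] [Fintype ι] [Fintype ι'] (u : ι → Ω)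
    (u' : ι' → Ω), fr (Sum.elim u u') Finset.univ = fr u Finset.univ + fr u' Finset.univ
  fr_le : ∀ {Ω ι : Type} [Field Ω] [Algebra ℂ Ω] (u u' : ι → Ω) (A B : Finset ι),
    (∀ a ∈ A, u a ≠ 0 → u a ≠ 1 → a ∈ B ∧ u' a ≠ 0 ∧ u' a ≠ 1) → fr u A ≤ fr u' B
  ov : ∀ {Ω : Type} [Field Ω] [Algebra ℂ Ω] {S T : Set Ω} {n : ℕ}, S.Finite → Ov S T n →
    rk (S ∪ T) ≤ rk S + n
  le_iff : ∀ {Ω : Type} [Field Ω] [Algebra ℂ Ω] {S : Set Ω} {e : ℕ}, S.Finite →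
    (e ≤ rk S ↔ ∃ a : Fin e → Ω, (∀ i, a i ∈ S) ∧ AlgebraicIndependent ℂ a)
  basis : ∀ {Ω : Type} [Field Ω] [Algebra ℂ Ω] {S : Set Ω}, S.Finite →
    ∃ a : Fin (rk S) → Ω, (∀ i, a i ∈ S) ∧ AlgebraicIndependent ℂ a ∧ S ⊆ acl (range a)
  map : ∀ {Ω Ω' : Type} [Field Ω] [Algebra ℂ Ω] [Field Ω'] [Algebra ℂ Ω'] (j : Ω →ₐ[ℂ] Ω')
    (S : Set Ω), rk (j '' S) = rk S
  map_acl : ∀ {Ω Ω' : Type} [Field Ω] [Algebra ℂ Ω] [Field Ω'] [Algebra ℂ Ω'] (j : Ω →ₐ[ℂ] Ω')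
    (S : Set Ω) (z : Ω), j z ∈ acl (j '' S) ↔ z ∈ acl S
  ins : ∀ {Ω : Type} [Field Ω] [Algebra ℂ Ω] {S : Set Ω} {z : Ω}, S.Finite → z ∉ acl S →
    rk (insert z S) = rk S + 1
  acl_of : ∀ {Ω : Type} [Field Ω] [Algebra ℂ Ω] {S T : Set Ω}, S.Finite → T.Finite →
    rk (S ∪ T) ≤ rk S → T ⊆ acl S
  adj : ∀ {Ω : Type} [Field Ω] [Algebra ℂ Ω] (S : Set Ω), IntermediateField.adjoin ℂ S ≤ acl S
  root : ∀ {Ω : Type} [Field Ω] [Algebra ℂ Ω] {S : Set Ω} {z a b c : Ω}, a ∈ acl S → b ∈ acl S →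
    c ∈ acl S → a ≠ 0 → a * z ^ 2 + b * z + c = 0 → z ∈ acl S
  pow : ∀ {Ω : Type} [Field Ω] [Algebra ℂ Ω] {S : Set Ω} {z : Ω} {n : ℕ}, n ≠ 0 → z ^ n ∈ acl S →
    z ∈ acl S
  indet : ∀ {Ω V : Type} [Field Ω] [Algebra ℂ Ω] (S : Set Ω) (A : Finset V), S.Finite →
    rk (algebraMap Ω (FractionRing (MvPolynomial V Ω)) '' S ∪ (fun a => algebraMap
      (MvPolynomial V Ω) (FractionRing (MvPolynomial V Ω)) (X a)) '' A) = rk S + A.card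

/-- Residues. -/
structure St_RED : Prop where
  ex : ∀ {Ω : Type} [Field Ω] [Algebra ℂ Ω] {v : Valuation Ω ℤᵐ⁰}, Cv v →
    ∃ (κ : Type) (_ : Field κ) (_ : Algebra ℂ κ), Nonempty (Red v κ)
  triv : ∀ (Ω : Type) [Field Ω] [Algebra ℂ Ω], Cv (tv Ω) ∧ (∀ a, tv Ω a ≤ 1) ∧
    (∀ a, a ≠ 0 → tv Ω a = 1) ∧ (∃ R : Red (tv Ω) Ω, R.r = id) ∧
      ∀ (S : Set Ω) (e : ℕ), S.Finite → (IndV (tv Ω) S e ↔ e ≤ rk S)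
  hom : ∀ {Ω κ : Type} [Field Ω] [Algebra ℂ Ω] [Field κ] [Algebra ℂ κ] {v : Valuation Ω ℤᵐ⁰}
    (R : Red v κ), ∃ φ : v.valuationSubring →+* κ, ∀ a, φ a = R.r a
  one : ∀ {Ω κ : Type} [Field Ω] [Algebra ℂ Ω] [Field κ] [Algebra ℂ κ] {v : Valuation Ω ℤᵐ⁰}
    (R : Red v κ), R.r 0 = 0 ∧ R.r 1 = 1 ∧ (∀ a, v a ≤ 1 → (R.r a ≠ 0 ↔ v a = 1)) ∧
      (∀ a, v a ≤ 1 → R.r (-a) = -R.r a) ∧ (∀ a b, v a ≤ 1 → v b ≤ 1 → R.r (a - b) = R.r a - R.r b) ∧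
      ∀ a b, v a ≤ 1 → v b = 1 → R.r (a / b) = R.r a / R.r b
  aev : ∀ {Ω κ ι : Type} [Field Ω] [Algebra ℂ Ω] [Field κ] [Algebra ℂ κ] {v : Valuation Ω ℤᵐ⁰}
    (R : Red v κ) (u : ι → Ω), (∀ a, v (u a) ≤ 1) → ∀ P : MvPolynomial ι ℂ,
      v (aeval u P) ≤ 1 ∧ R.r (aeval u P) = aeval (R.r ∘ u) P
  adj : ∀ {Ω κ : Type} [Field Ω] [Algebra ℂ Ω] [Field κ] [Algebra ℂ κ] {v : Valuation Ω ℤᵐ⁰}
    (R : Red v κ) {n : ℕ} (M : Matrix (Fin n) (Fin n) Ω), (∀ p q, v (M p q) ≤ 1) → ∀ p q,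
      v (M.adjugate p q) ≤ 1 ∧ R.r (M.adjugate p q) = (M.map R.r).adjugate p q
  xp : ∀ {Ω κ : Type} [Field Ω] [Algebra ℂ Ω] [Field κ] [Algebra ℂ κ] {v : Valuation Ω ℤᵐ⁰}
    (R : Red v κ) {n : ℕ} (M : Matrix (Fin n) (Fin (n + 1)) Ω), (∀ p q, v (M p q) ≤ 1) → ∀ q,
      v (xp M q) ≤ 1 ∧ R.r (xp M q) = xp (M.map R.r) q
  dot : ∀ {Ω κ ι : Type} [Field Ω] [Algebra ℂ Ω] [Field κ] [Algebra ℂ κ] [Fintype ι]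
    {v : Valuation Ω ℤᵐ⁰} (R : Red v κ) (a b : ι → Ω), (∀ i, v (a i) ≤ 1) → (∀ i, v (b i) ≤ 1) →
      v (a ⬝ᵥ b) ≤ 1 ∧ R.r (a ⬝ᵥ b) = (R.r ∘ a) ⬝ᵥ (R.r ∘ b)
  cub : ∀ {Ω κ : Type} [Field Ω] [Algebra ℂ Ω] [Field κ] [Algebra ℂ κ] {v : Valuation Ω ℤᵐ⁰}
    (R : Red v κ) (c : Cf Ω) (a b : Fin 3 → Ω), (∀ i j l, v (c i j l) ≤ 1) → (∀ i, v (a i) ≤ 1) →
      (∀ i, v (b i) ≤ 1) → R.r (cub c a) = cub (fun i j l => R.r (c i j l)) (R.r ∘ a) ∧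
        R.r (pol c a b) = pol (fun i j l => R.r (c i j l)) (R.r ∘ a) (R.r ∘ b) ∧
        R.r ∘ (a ⨯₃ b) = (R.r ∘ a) ⨯₃ (R.r ∘ b) ∧
        R.r ∘ grad c a = grad (fun i j l => R.r (c i j l)) (R.r ∘ a) ∧
        R.r ∘ thd c a b = thd (fun i j l => R.r (c i j l)) (R.r ∘ a) (R.r ∘ b) ∧
        R.r ∘ tq c a b = tq (fun i j l => R.r (c i j l)) (R.r ∘ a) (R.r ∘ b)
  nm : ∀ {Ω κ ι : Type} [Field Ω] [Algebra ℂ Ω] [Field κ] [Algebra ℂ κ] [Fintype ι]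
    {v : Valuation Ω ℤᵐ⁰} (R : Red v κ) (a : ι → Ω), (∀ i, v (a i) ≤ 1) →
      (R.r ∘ a ≠ 0 ↔ nm v a = 1)
  ind : ∀ {Ω κ : Type} [Field Ω] [Algebra ℂ Ω] [Field κ] [Algebra ℂ κ] {v : Valuation Ω ℤᵐ⁰}
    (R : Red v κ) {S : Set Ω} {e : ℕ}, S.Finite → (∀ z ∈ S, v z ≤ 1) →
      (IndV v S e ↔ e ≤ rk (R.r '' S))
  rk_le : ∀ {Ω κ : Type} [Field Ω] [Algebra ℂ Ω] [Field κ] [Algebra ℂ κ] {v : Valuation Ω ℤᵐ⁰}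
    (R : Red v κ) {S : Set Ω}, S.Finite → (∀ z ∈ S, v z ≤ 1) → rk (R.r '' S) ≤ rk S
  abh : ∀ {Ω κ : Type} [Field Ω] [Algebra ℂ Ω] [Field κ] [Algebra ℂ κ] {v : Valuation Ω ℤᵐ⁰}
    (R : Red v κ) {S : Set Ω}, S.Finite → (∀ z ∈ S, v z ≤ 1) → rk S ≤ rk (R.r '' S) →
      ∀ g ∈ acl S, g ≠ 0 → v g = 1

/-- Linear algebra. -/
structure St_LA : Prop where
  ker2 : ∀ {κ : Type} [Field κ] {n : ℕ} (M : Matrix (Fin n) (Fin n) κ) (p : Fin n),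
    M.adjugate = 0 → ∃ w, w ≠ 0 ∧ w p = 0 ∧ M *ᵥ w = 0
  left : ∀ {κ : Type} [Field κ] {n : ℕ} (M : Matrix (Fin n) (Fin n) κ) (w : Fin n → κ), w ≠ 0 →
    M *ᵥ w = 0 → ∃ l, l ≠ 0 ∧ l ᵥ* M = 0
  adj : ∀ {κ : Type} [Field κ] {n : ℕ} (M : Matrix (Fin n) (Fin n) κ) (w l : Fin n → κ), w ≠ 0 →
    l ≠ 0 → M *ᵥ w = 0 → l ᵥ* M = 0 → ∃ c, ∀ p q, M.adjugate q p = c * w q * l p
  adj_sm : ∀ {κ : Type} [Field κ] {n : ℕ} (M : Matrix (Fin n) (Fin n) κ) (a b : Fin n → κ) p q,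
    (Matrix.of fun p q => a p * b q * M p q).adjugate q p * (a p * b q) =
      (∏ p, a p) * (∏ q, b q) * M.adjugate q p
  xp_mul : ∀ {κ : Type} [Field κ] {n : ℕ} (A : Matrix (Fin n) (Fin (n + 1)) κ), A *ᵥ xp A = 0
  xp_left : ∀ {κ : Type} [Field κ] {n : ℕ} (A : Matrix (Fin n) (Fin (n + 1)) κ),
    xp A = 0 ↔ ∃ l, l ≠ 0 ∧ l ᵥ* A = 0
  xp_ker : ∀ {κ : Type} [Field κ] {n : ℕ} (A : Matrix (Fin n) (Fin (n + 1)) κ) (p : Fin (n + 1)),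
    xp A = 0 → ∃ w, w ≠ 0 ∧ w p = 0 ∧ A *ᵥ w = 0
  xp_eq : ∀ {κ : Type} [Field κ] {n : ℕ} (A : Matrix (Fin n) (Fin (n + 1)) κ)
    (w : Fin (n + 1) → κ), w ≠ 0 → A *ᵥ w = 0 → ∃ t : κ, ∀ q, t * w q = xp A q
  xp_sm : ∀ {κ : Type} [Field κ] {n : ℕ} (A : Matrix (Fin n) (Fin (n + 1)) κ) (a : Fin n → κ),
    xp (Matrix.of fun p q => a p * A p q) = (∏ p, a p) • xp A
  line : ∀ {κ : Type} [Field κ] {n : ℕ} (A : Matrix (Fin n) (Fin (n + 1)) κ) (j : Fin n)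
    (p : Fin (n + 1)), ∃ b : Fin (n + 1) → κ, b ≠ 0 ∧ b p = 0 ∧ ∀ j', j' ≠ j → A j' ⬝ᵥ b = 0
  xp2 : ∀ {κ : Type} [Field κ] {n : ℕ} (A : Matrix (Fin n) (Fin (n + 1)) κ) (j : Fin n)
    (w b : Fin (n + 1) → κ) (r : Fin (n + 1)), w r ≠ 0 → b r = 0 → b ≠ 0 →
      (∀ j', j' ≠ j → A j' ⬝ᵥ w = 0 ∧ A j' ⬝ᵥ b = 0) → ∃ μ : κ, ∀ p,
        xp (A.updateRow j (Pi.single p 1)) = μ • (w p • b - b p • w)
  xp3 : ∀ {κ : Type} [Field κ] {n : ℕ} (A : Matrix (Fin n) (Fin (n + 1)) κ) (j : Fin n)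
    (p q : Fin (n + 1)), (∀ r, xp (A.updateRow j (Pi.single r 1)) = 0) →
      ∃ b : Fin (n + 1) → κ, b ≠ 0 ∧ b p = 0 ∧ b q = 0 ∧ ∀ j', j' ≠ j → A j' ⬝ᵥ b = 0

/-- Slots and counting. -/
structure St_SL : Prop where
  sl_co : ∀ {D : Dat} (τ : D.Ty) p, sl (co τ p) = ts τ
  co_inj : ∀ {D : Dat} (τ : D.Ty), Function.Injective (co τ)
  co_surj : ∀ {D : Dat} (τ : D.Ty) a, sl a = ts τ → ∃ p, a = co τ p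
  ts_inj : ∀ {D : Dat}, Function.Injective (ts (D := D))
  sl_cw : ∀ {D : Dat} (i : D.I1) p, sl (cw i p) = some i.1
  cw_inj : ∀ {D : Dat} (i : D.I1), Function.Injective (cw i)
  cw_surj : ∀ {D : Dat} (i : D.I1) a, sl a = some i.1 → ∃ p, a = cw i p
  ts_ne : ∀ {D : Dat} (τ : D.Ty) (i : D.I1), ts τ ≠ some i.1
  c3_surj : ∀ {D : Dat} (hm : D.m = 2) (i : D.I1) a, sl a = some i.1 → ∃ e, a = c3 hm i e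
  put_co : ∀ {D : Dat} {Ω : Type} (τ : D.Ty) (u : D.Vr → Ω) (w : Fin D.m → Ω),
    ∃ u', Agr (ts τ) u u' ∧ ∀ p, u' (co τ p) = w p
  put_cw : ∀ {D : Dat} {Ω : Type} (i : D.I1) (u : D.Vr → Ω) (w : Fin (D.m + 1) → Ω),
    ∃ u', Agr (some i.1) u u' ∧ ∀ p, u' (cw i p) = w p
  dm_add : ∀ D : Dat, D.dm + D.m = ∑ s, D.n s ∧ 3 ≤ D.dm ∧ ∑ s, (D.n s + 1) = D.dm + D.m + D.k
  card_sl : ∀ {D : Dat} (σ : D.Sl),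
    (Finset.univ.filter fun a : D.Vr => sl a = σ).card = σ.elim D.m fun s => D.n s + 1
  card_off : ∀ {D : Dat} (τ : D.Ty), (off τ).card = ∑ s, (D.n s + 1)
  card_of2 : ∀ {D : Dat} (l : D.I0) (i : D.I1), (of2 l i).card + D.m + 1 = ∑ s, (D.n s + 1)
  card_bs : ∀ {D : Dat} (l : D.I0) (i : D.I1), (bs l i).card + 2 * D.m + 1 = ∑ s, (D.n s + 1)
  fr_off : ∀ {D : Dat} {Ω : Type} [Field Ω] [Algebra ℂ Ω] (τ : D.Ty) (u : D.Vr → Ω)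
    (Z : Finset D.Vr), N1 u → Z ⊆ off τ → (∀ a ∈ Z, u a = 0) → fr u (off τ) + Z.card ≤ D.dm + D.m
  fr_bs : ∀ {D : Dat} {Ω : Type} [Field Ω] [Algebra ℂ Ω] (l : D.I0) (i : D.I1) (u : D.Vr → Ω),
    N1 u → fr u (bs l i) + D.m ≤ D.dm + 1
  homK : ∀ {D : Dat} {κ : Type} [Field κ] (j : Fin D.m)
    (G : ∀ s, MvPolynomial (Fin (D.n s + 1)) κ), (∀ s, (G s).IsHomogeneous (D.d j s)) →
      HomK (Pi.single j (∏ s, rename (Sigma.mk s) (G s)) : Fin D.m → MvPolynomial D.Hx κ)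
  gn_mono : ∀ {D : Dat} {p q : D.Fm → Prop}, D.Gn p → (∀ F, D.Hom F → p F → q F) → D.Gn q
  gn_all : ∀ {D : Dat} {ι : Type} [Finite ι] {p : ι → D.Fm → Prop}, (∀ i, D.Gn (p i)) →
    D.Gn fun F => ∀ i, p i F
  gn_and : ∀ {D : Dat} {p q : D.Fm → Prop}, D.Gn p → D.Gn q → D.Gn fun F => p F ∧ q F

/-- Identities for multihomogeneous forms. -/
structure St_PI : Prop where
  scal : ∀ {D : Dat} {F : D.Fm}, D.Hom F → ∀ {Ω : Type} [Field Ω] [Algebra ℂ Ω] (y : D.Hx → Ω)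
    (μ : Fin D.k → Ω) j, aeval (fun a => μ a.1 * y a) (F j) = (∏ s, μ s ^ D.d j s) * aeval y (F j)
  scald : ∀ {D : Dat} {F : D.Fm}, D.Hom F → ∀ {Ω : Type} [Field Ω] [Algebra ℂ Ω] (y : D.Hx → Ω)
    (μ : Fin D.k → Ω) j b, aeval (fun a => μ a.1 * y a) (pderiv b (F j)) * μ b.1 =
      (∏ s, μ s ^ D.d j s) * aeval y (pderiv b (F j))
  euler : ∀ {D : Dat} {F : D.Fm}, D.Hom F → ∀ {Ω : Type} [Field Ω] [Algebra ℂ Ω] (y : D.Hx → Ω) j s,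
    ∑ p, y ⟨s, p⟩ * aeval y (pderiv ⟨s, p⟩ (F j)) = D.d j s * aeval y (F j)
  d_inl : ∀ {D : Dat} (F : D.Fm) {Ω : Type} [Field Ω] [Algebra ℂ Ω] (u : D.Vr → Ω) j,
    aeval u (pderiv (.inl j) (FF F)) = aeval (u ∘ .inr) (F j)
  d_inr : ∀ {D : Dat} (F : D.Fm) {Ω : Type} [Field Ω] [Algebra ℂ Ω] (u : D.Vr → Ω) a,
    aeval u (pderiv (.inr a) (FF F)) = ∑ j, u (.inl j) * aeval (u ∘ .inr) (pderiv a (F j))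
  d_inl2 : ∀ {D : Dat} (F : D.Fm) {Ω : Type} [Field Ω] [Algebra ℂ Ω] (u : D.Vr → Ω) j a,
    aeval u (pderiv (.inl j) (pderiv (.inr a) (FF F))) = aeval (u ∘ .inr) (pderiv a (F j)) ∧
    aeval u (pderiv (.inr a) (pderiv (.inl j) (FF F))) = aeval (u ∘ .inr) (pderiv a (F j))
  d_inr2 : ∀ {D : Dat} (F : D.Fm) {Ω : Type} [Field Ω] [Algebra ℂ Ω] (u : D.Vr → Ω) a b,
    aeval u (pderiv (.inr a) (pderiv (.inr b) (FF F))) =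
      ∑ j, u (.inl j) * aeval (u ∘ .inr) (pderiv a (pderiv b (F j)))
  eqs_agr : ∀ {D : Dat} {F : D.Fm}, D.Hom F → ∀ {Ω : Type} [Field Ω] [Algebra ℂ Ω] (τ : D.Ty)
    (u u' : D.Vr → Ω), Agr (ts τ) u u' → ∀ p,
      aeval u' (pderiv (co τ p) (FF F)) = aeval u (pderiv (co τ p) (FF F))
  mx_mul : ∀ {D : Dat} {F : D.Fm}, D.Hom F → ∀ {Ω : Type} [Field Ω] [Algebra ℂ Ω] (τ τ' : D.Ty)
    (u : D.Vr → Ω), τ ≠ τ' → Mx F τ τ' u *ᵥ (u ∘ co τ') = fun p => aeval u (pderiv (co τ p) (FF F))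
  mx_t : ∀ {D : Dat} (F : D.Fm) {Ω : Type} [Field Ω] [Algebra ℂ Ω] (τ τ' : D.Ty) (u : D.Vr → Ω),
    Mx F τ' τ u = (Mx F τ τ' u)ᵀ
  mx_agr : ∀ {D : Dat} {F : D.Fm}, D.Hom F → ∀ {Ω : Type} [Field Ω] [Algebra ℂ Ω] (τ τ' : D.Ty)
    (u u' : D.Vr → Ω), τ ≠ τ' → (∀ a, sl a ≠ ts τ → sl a ≠ ts τ' → u' a = u a) →
      Mx F τ τ' u' = Mx F τ τ' u
  nx_eq : ∀ {D : Dat} (F : D.Fm) {Ω : Type} [Field Ω] [Algebra ℂ Ω] (l : D.I0) (i : D.I1)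
    (u : D.Vr → Ω) p q, Nx F l i u p q = ∑ j, (D.d j i.1 : ℂ)⁻¹ • (u (.inl j) * aeval (u ∘ .inr)
      (pderiv ⟨l.1, p.cast l.2.symm⟩ (pderiv ⟨i.1, q.cast (congrArg (· + 1) i.2.symm)⟩ (F j))))
  nx_mul : ∀ {D : Dat} {F : D.Fm}, D.Hom F → ∀ {Ω : Type} [Field Ω] [Algebra ℂ Ω] (l : D.I0)
    (i : D.I1) (u : D.Vr → Ω),
      Nx F l i u *ᵥ (u ∘ cw i) = fun p => aeval u (pderiv (co (some l) p) (FF F))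
  nx_agr : ∀ {D : Dat} {F : D.Fm}, D.Hom F → ∀ {Ω : Type} [Field Ω] [Algebra ℂ Ω] (l : D.I0)
    (i : D.I1) (u u' : D.Vr → Ω), Agr (some l.1) u u' → Nx F l i u' = Nx F l i u
  nx_agr2 : ∀ {D : Dat} {F : D.Fm}, D.Hom F → ∀ {Ω : Type} [Field Ω] [Algebra ℂ Ω] (l : D.I0)
    (i : D.I1) (u u' : D.Vr → Ω), (∀ a ∈ of2 l i, a ≠ .inl (jj i) → u' a = u a) →
      (u (.inl (jj i)) = 0 ∨ ∀ q, u (cw i q) = 0) → (u' (.inl (jj i)) = 0 ∨ ∀ q, u' (cw i q) = 0) →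
        Nx F l i u' = Nx F l i u
  lm_mul : ∀ {D : Dat} {F : D.Fm}, D.Hom F → ∀ {Ω : Type} [Field Ω] [Algebra ℂ Ω] (i : D.I1)
    (u : D.Vr → Ω) j, Lm F i u j ⬝ᵥ (u ∘ cw i) = D.d j i.1 * aeval (u ∘ .inr) (F j)
  lm_agr : ∀ {D : Dat} {F : D.Fm}, D.Hom F → ∀ {Ω : Type} [Field Ω] [Algebra ℂ Ω] (i : D.I1)
    (u u' : D.Vr → Ω), (∀ a, sl a ≠ none → sl a ≠ some i.1 → u' a = u a) →
      (∀ j, j ≠ jj i → Lm F i u' j = Lm F i u j) ∧ Hs F i u' = Hs F i u ∧ us F i u' = us F i u ∧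
        Sx F i u' = Sx F i u
  hs_mul : ∀ {D : Dat} {F : D.Fm}, D.Hom F → ∀ {Ω : Type} [Field Ω] [Algebra ℂ Ω] (i : D.I1)
    (u : D.Vr → Ω), (Hs F i u)ᵀ = Hs F i u ∧
      (u ∘ cw i) ⬝ᵥ Hs F i u *ᵥ (u ∘ cw i) = 2 * aeval (u ∘ .inr) (F (jj i))
  ab_eq : ∀ {D : Dat} {F : D.Fm}, D.Hom F → ∀ {Ω : Type} [Field Ω] [Algebra ℂ Ω] (hm : D.m = 2)
    (l : D.I0) (i : D.I1) (u : D.Vr → Ω) (s : Fin 2) (j : Fin D.m),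
      Mx F (some l) none u (s.cast hm.symm) j = if j = jj i then
        qd (BB F hm l i u s) (u ∘ c3 hm i) else AA F hm l i u s ⬝ᵥ (u ∘ c3 hm i)
  ab_agr : ∀ {D : Dat} {F : D.Fm}, D.Hom F → ∀ {Ω : Type} [Field Ω] [Algebra ℂ Ω] (hm : D.m = 2)
    (l : D.I0) (i : D.I1) (u u' : D.Vr → Ω), (∀ a ∈ bs l i, u' a = u a) →
      AA F hm l i u' = AA F hm l i u ∧ BB F hm l i u' = BB F hm l i u
  mem : ∀ {D : Dat} {Ω : Type} [Field Ω] [Algebra ℂ Ω] (k : IntermediateField ℂ Ω)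
    (A : Set D.Vr) (u : D.Vr → Ω) (P : MvPolynomial D.Vr ℂ), (∀ a ∈ A, u a ∈ k) →
      (∀ u' : D.Vr → Ω, (∀ a ∈ A, u' a = u a) → aeval u' P = aeval u P) → aeval u P ∈ k

/-- The torus action. -/
structure St_SC : Prop where
  sc_sc : ∀ {D : Dat} {Ω : Type} [Field Ω] (ρ ρ' : D.Sl → Ω) (u : D.Vr → Ω), (∀ σ, ρ σ ≠ 0) →
    (∀ σ, ρ' σ ≠ 0) → sc ρ (sc ρ' u) = sc (ρ * ρ') u
  sc_one : ∀ {D : Dat} {Ω : Type} [Field Ω] (u : D.Vr → Ω), sc 1 u = u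
  sc_inr : ∀ {D : Dat} {Ω : Type} [Field Ω] (ρ : D.Sl → Ω) (u : D.Vr → Ω) a,
    sc ρ u (.inr a) = ρ (some a.1) * u (.inr a)
  sc_inl : ∀ {D : Dat} {Ω : Type} [Field Ω] (ρ : D.Sl → Ω) (u : D.Vr → Ω) j,
    sc ρ u (.inl j) = ρ none * u (.inl j) / ∏ s, ρ (some s) ^ D.aW j s
  sc_zero : ∀ {D : Dat} {Ω : Type} [Field Ω] (ρ : D.Sl → Ω) (u : D.Vr → Ω) a, (∀ σ, ρ σ ≠ 0) →
    (sc ρ u a = 0 ↔ u a = 0)
  sc_agr : ∀ {D : Dat} {Ω : Type} [Field Ω] (τ : D.Ty) (ρ ρ' : D.Sl → Ω) (u u' : D.Vr → Ω),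
    (∀ σ, σ ≠ ts τ → ρ' σ = ρ σ) → Agr (ts τ) u u' → Agr (ts τ) (sc ρ u) (sc ρ' u')
  chi_add : ∀ {D : Dat} {Ω : Type} [Field Ω] (ρ : D.Sl → Ω) (w w' : D.Sl → ℤ), (∀ σ, ρ σ ≠ 0) →
    chi ρ (w + w') = chi ρ w * chi ρ w' ∧ chi ρ w ≠ 0
  log_chi : ∀ {D : Dat} {Ω : Type} [Field Ω] (v : Valuation Ω ℤᵐ⁰) (ρ : D.Sl → Ω) (w : D.Sl → ℤ),
    (∀ σ, ρ σ ≠ 0) → log (v (chi ρ w)) = ∑ σ, w σ * log (v (ρ σ))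
  nz : ∀ {D : Dat} {Ω : Type} [Field Ω] (ρ : D.Sl → Ω) (u : D.Vr → Ω), (∀ σ, ρ σ ≠ 0) →
    (NZ (sc ρ u) ↔ NZ u)
  eqs : ∀ {D : Dat} {F : D.Fm}, D.Hom F → ∀ {Ω : Type} [Field Ω] [Algebra ℂ Ω] (τ : D.Ty)
    (ρ : D.Sl → Ω) (u : D.Vr → Ω), (∀ σ, ρ σ ≠ 0) → (Eqs F τ (sc ρ u) ↔ Eqs F τ u)
  adj : ∀ {D : Dat} {F : D.Fm}, D.Hom F → ∀ {Ω : Type} [Field Ω] [Algebra ℂ Ω] (τ τ' : D.Ty)
    (ρ : D.Sl → Ω) (u : D.Vr → Ω), τ ≠ τ' → (∀ σ, ρ σ ≠ 0) → ∀ p q,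
      (Mx F τ τ' (sc ρ u)).adjugate q p = chi ρ (gam τ τ' + wt (co τ' q) + wt (co τ p)) *
        (Mx F τ τ' u).adjugate q p
  dbl : ∀ {D : Dat} {F : D.Fm}, D.Hom F → ∀ {Ω : Type} [Field Ω] [Algebra ℂ Ω] (τ τ' : D.Ty)
    (ρ : D.Sl → Ω) (u : D.Vr → Ω) (lam : Ω), τ ≠ τ' → (∀ σ, ρ σ ≠ 0) → Dbl F τ τ' u lam →
      Dbl F τ τ' (sc ρ u) (chi ρ (gam τ τ') * lam)
  isT : ∀ {D : Dat} {F : D.Fm}, D.Hom F → ∀ {Ω : Type} [Field Ω] [Algebra ℂ Ω] (l : D.I0)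
    (i : D.I1) (ρ : D.Sl → Ω) (u : D.Vr → Ω) (t : Ω), (∀ σ, ρ σ ≠ 0) → IsT F l i u t →
      IsT F l i (sc ρ u) (chi ρ (wT l i) * t)
  sx : ∀ {D : Dat} {F : D.Fm}, D.Hom F → ∀ {Ω : Type} [Field Ω] [Algebra ℂ Ω] (i : D.I1)
    (ρ : D.Sl → Ω) (u : D.Vr → Ω), (∀ σ, ρ σ ≠ 0) → ∀ p p',
      Sx F i (sc ρ u) p p' = chi ρ (wS i) * Sx F i u p p'
  ab : ∀ {D : Dat} {F : D.Fm}, D.Hom F → ∀ {Ω : Type} [Field Ω] [Algebra ℂ Ω] (hm : D.m = 2)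
    (l : D.I0) (i : D.I1) (ρ : D.Sl → Ω) (u : D.Vr → Ω), (∀ σ, ρ σ ≠ 0) →
      AA F hm l i (sc ρ u) = chi ρ (wc 0 (alp l i)) • AA F hm l i u ∧
        CC F hm l i (sc ρ u) = chi ρ (wc 0 (kap l i)) • CC F hm l i u

/-- Transport along homomorphisms and reduction. -/
structure St_MP : Prop where
  map : ∀ {D : Dat} (F : D.Fm) {Ω Ω' : Type} [Field Ω] [Algebra ℂ Ω] [Field Ω'] [Algebra ℂ Ω']
    (j : Ω →ₐ[ℂ] Ω') (u : D.Vr → Ω), (∀ ρ, j ∘ sc ρ u = sc (j ∘ ρ) (j ∘ u)) ∧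
      (NZ (j ∘ u) ↔ NZ u) ∧ (N1 (j ∘ u) ↔ N1 u) ∧ (∀ τ, Eqs F τ (j ∘ u) ↔ Eqs F τ u) ∧
      (∀ τ τ' lam, Dbl F τ τ' u lam → Dbl F τ τ' (j ∘ u) (j lam)) ∧
      (∀ l i t, IsT F l i u t → IsT F l i (j ∘ u) (j t)) ∧
      (∀ i u' lam, Sig F i u u' lam → Sig F i (j ∘ u) (j ∘ u') (j lam)) ∧
      ∀ hm l i, (∀ s, AA F hm l i (j ∘ u) s = j ∘ AA F hm l i u s) ∧
        CC F hm l i (j ∘ u) = fun a b e => j (CC F hm l i u a b e)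
  red : ∀ {D : Dat} (F : D.Fm) {Ω κ : Type} [Field Ω] [Algebra ℂ Ω] [Field κ] [Algebra ℂ κ]
    {v : Valuation Ω ℤᵐ⁰} (R : Red v κ) (u : D.Vr → Ω), (∀ a, v (u a) ≤ 1) →
      (Nw v u ↔ NZ (R.r ∘ u)) ∧ (N1 u → N1 (R.r ∘ u)) ∧ (∀ τ, Eqs F τ u → Eqs F τ (R.r ∘ u)) ∧
      (∀ τ τ' p q, v ((Mx F τ τ' u).adjugate p q) ≤ 1 ∧
        R.r ((Mx F τ τ' u).adjugate p q) = (Mx F τ τ' (R.r ∘ u)).adjugate p q) ∧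
      (∀ τ τ' lam, Nw v u → Dbl F τ τ' u lam → (Mx F τ τ' (R.r ∘ u)).adjugate ≠ 0 →
        v lam = 1 ∧ Dbl F τ τ' (R.r ∘ u) (R.r lam)) ∧
      (∀ l i q, v (xp (Nx F l i u) q) ≤ 1 ∧ R.r (xp (Nx F l i u) q) = xp (Nx F l i (R.r ∘ u)) q) ∧
      (∀ l i t, v t ≤ 1 → IsT F l i u t → IsT F l i (R.r ∘ u) (R.r t)) ∧
      (∀ l i t, Nw v u → IsT F l i u t → v t ≤ 1) ∧
      (∀ i p p', v (Sx F i u p p') ≤ 1 ∧ R.r (Sx F i u p p') = Sx F i (R.r ∘ u) p p') ∧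
      ∀ hm l i, (∀ s e, v (AA F hm l i u s e) ≤ 1) ∧ (∀ a b e, v (CC F hm l i u a b e) ≤ 1) ∧
        (∀ s, AA F hm l i (R.r ∘ u) s = R.r ∘ AA F hm l i u s) ∧
        CC F hm l i (R.r ∘ u) = fun a b e => R.r (CC F hm l i u a b e)

/-- Normalisation. -/
structure St_NRM : Prop where
  ex : ∀ {D : Dat} {Ω : Type} [Field Ω] (v : Valuation Ω ℤᵐ⁰) (u : D.Vr → Ω), NZ u →
    ∃ ρ : D.Sl → Ω, (∀ σ, ρ σ ≠ 0) ∧ Nm v (sc ρ u)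
  ex' : ∀ {D : Dat} {Ω : Type} [Field Ω] (v : Valuation Ω ℤᵐ⁰) (u u' : D.Vr → Ω) (ρ : D.Sl → Ω),
    NZ u' → (∀ σ, ρ σ ≠ 0) → Nm v (sc ρ u) → ∃ ρ' : D.Sl → Ω, (∀ σ, ρ' σ ≠ 0) ∧ Nm v (sc ρ' u') ∧
      (∀ s, (∀ p, u' (.inr ⟨s, p⟩) = u (.inr ⟨s, p⟩)) → ρ' (some s) = ρ (some s)) ∧
      ((∀ a, sl a ∉ range (ts ∘ some) → u' a = u a) → ρ' none = ρ none)
  slot : ∀ {D : Dat} {Ω : Type} [Field Ω] (v : Valuation Ω ℤᵐ⁰) (τ : D.Ty) (u : D.Vr → Ω)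
    (ρ : D.Sl → Ω), NZ u → (∀ σ, ρ σ ≠ 0) → (∀ a ∈ off τ, v (sc ρ u a) ≤ 1) →
      ∃ ρ' : D.Sl → Ω, (∀ σ, ρ' σ ≠ 0) ∧ (∀ σ, σ ≠ ts τ → ρ' σ = ρ σ) ∧
        (∀ a, v (sc ρ' u a) ≤ 1) ∧ ∃ p, sc ρ' u (co τ p) = 1
  nw : ∀ {D : Dat} {Ω : Type} [Field Ω] {v : Valuation Ω ℤᵐ⁰} {u : D.Vr → Ω}, Nm v u → Nw v u
  nu_sc : ∀ {D : Dat} {Ω : Type} [Field Ω] (v : Valuation Ω ℤᵐ⁰) (ρ : D.Sl → Ω) (u : D.Vr → Ω),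
    NZ u → (∀ σ, ρ σ ≠ 0) → ∀ σ, nu v (sc ρ u) σ = nu v u σ + log (v (ρ σ))
  nu_nw : ∀ {D : Dat} {Ω : Type} [Field Ω] (v : Valuation Ω ℤᵐ⁰) (u : D.Vr → Ω), Nw v u →
    ∀ σ, nu v u σ = 0
  nu_some : ∀ {D : Dat} {Ω : Type} [Field Ω] (v : Valuation Ω ℤᵐ⁰) (u : D.Vr → Ω) s,
    nm v (sv u (some s)) = nm v fun p => u (.inr ⟨s, p⟩)
  nu_co : ∀ {D : Dat} {Ω : Type} [Field Ω] (v : Valuation Ω ℤᵐ⁰) (u : D.Vr → Ω), Nw v u →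
    (∀ τ, nm v (u ∘ co τ) = 1) ∧ (∀ i, nm v (u ∘ cw i) = 1) ∧ ∀ hm i, nm v (u ∘ c3 hm i) = 1
  nu_agr : ∀ {D : Dat} {Ω : Type} [Field Ω] (v : Valuation Ω ℤᵐ⁰) (τ : D.Ty) (u u' : D.Vr → Ω),
    Agr (ts τ) u u' → ∀ σ, σ ≠ ts τ → sv u' σ = sv u σ
  sv_ne : ∀ {D : Dat} {Ω : Type} [Field Ω] (u : D.Vr → Ω), NZ u → ∀ σ, sv u σ ≠ 0
  big_iff : ∀ {D : Dat} {Ω : Type} [Field Ω] [Algebra ℂ Ω] {v : Valuation Ω ℤᵐ⁰}, Cv v →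
    ∀ (τ : D.Ty) (u : D.Vr → Ω) (ρ : D.Sl → Ω) (e : ℕ), (∀ σ, ρ σ ≠ 0) → Nm v (sc ρ u) →
      (Big τ v u e ↔ IndV v (sc ρ u '' off τ) e)
  big_agr : ∀ {D : Dat} {Ω : Type} [Field Ω] [Algebra ℂ Ω] {v : Valuation Ω ℤᵐ⁰}
    (τ : D.Ty) (u u' : D.Vr → Ω) (e : ℕ), Agr (ts τ) u u' → NZ u' → Big τ v u e → Big τ v u' e
  big_sc : ∀ {D : Dat} {Ω : Type} [Field Ω] [Algebra ℂ Ω] {v : Valuation Ω ℤᵐ⁰}
    (τ : D.Ty) (u : D.Vr → Ω) (ρ : D.Sl → Ω) (e : ℕ), (∀ σ, ρ σ ≠ 0) →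
      (Big τ v (sc ρ u) e ↔ Big τ v u e)
  big_mono : ∀ {D : Dat} {Ω : Type} [Field Ω] [Algebra ℂ Ω] {v : Valuation Ω ℤᵐ⁰}
    (τ : D.Ty) (u : D.Vr → Ω) (e e' : ℕ), e' ≤ e → Big τ v u e → Big τ v u e'
  big_map : ∀ {D : Dat} {Ω Ω' : Type} [Field Ω] [Algebra ℂ Ω] [Field Ω'] [Algebra ℂ Ω']
    (j : Ω →ₐ[ℂ] Ω') {v : Valuation Ω' ℤᵐ⁰}, Cv v → ∀ (τ : D.Ty) (u : D.Vr → Ω) (e : ℕ), NZ u →
      (Big τ v (j ∘ u) e ↔ Big τ (v.comap j.toRingHom) u e)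
  gt_iff : ∀ {D : Dat} {Ω : Type} [Field Ω] [Algebra ℂ Ω] (τ : D.Ty) (u : D.Vr → Ω)
    (ρ : D.Sl → Ω), (∀ σ, ρ σ ≠ 0) → N1 (sc ρ u) →
      (Gt τ u ↔ IntermediateField.adjoin ℂ (sc ρ u '' off τ) = ⊤)
  gt_agr : ∀ {D : Dat} {Ω : Type} [Field Ω] [Algebra ℂ Ω] (τ : D.Ty) (u u' : D.Vr → Ω),
    Agr (ts τ) u u' → NZ u' → Gt τ u → Gt τ u'

/-- Charts of a model. -/
structure St_CH : Prop where
  ne : ∀ {D : Dat} {F : D.Fm} {K : Type} [Field K] [Algebra ℂ K] (M : Mod F K) a, M.x a ≠ 0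
  mem_iff : ∀ {D : Dat} {K : Type} [Field K] [Algebra ℂ K] (x : D.Hx → K) τ z,
    z ∈ D.B x τ ↔ ∃ P : MvPolynomial D.Hx ℂ, aeval (D.rat x τ) P = z
  bs : ∀ {D : Dat} {K : Type} [Field K] [Algebra ℂ K] (x : D.Hx → K), Monotone (Bs x) ∧
    (∀ (A : Finset D.Hx) (τ : D.Ch), (∀ s, ⟨s, τ s⟩ ∈ A) → D.B x τ ≤ Bs x A) ∧
    (∀ τ : D.Ch, Bs x (Finset.univ.image fun s => ⟨s, τ s⟩) = D.B x τ) ∧ ∀ γ, Monotone (Ms x γ)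
  gen : ∀ {D : Dat} {K : Type} [Field K] (x : D.Hx → K), (∀ a, x a ≠ 0) → ∀ τ : D.Ch,
    (∀ γ, gen x γ τ ≠ 0) ∧ (∀ γ γ', gen x (γ + γ') τ = gen x γ τ * gen x γ' τ) ∧
      (∀ γ, gen x (-γ) τ = (gen x γ τ)⁻¹) ∧ ∀ s, gen x (Pi.single s 1) τ = x ⟨s, τ s⟩
  mem_Ms : ∀ {D : Dat} {K : Type} [Field K] [Algebra ℂ K] (x : D.Hx → K), (∀ a, x a ≠ 0) →
    ∀ γ (A : Finset D.Hx) z, (∀ τ : D.Ch, (∀ s, ⟨s, τ s⟩ ∈ A) →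
      (z ∈ Ms x γ A ↔ z / Dat.gen x γ τ ∈ Bs x A)) ∧
      ((¬∃ τ : D.Ch, ∀ s, ⟨s, τ s⟩ ∈ A) → z ∈ Ms x γ A → z = 0)
  locBs : ∀ {D : Dat} {K : Type} [Field K] [Algebra ℂ K] (x : D.Hx → K), (∀ a, x a ≠ 0) →
    ∀ (A : Finset D.Hx) (τ : D.Ch), (∀ s, ⟨s, τ s⟩ ∈ A) →
      LocOf (D.B x τ).toSubring (Bs x A).toSubring
  rat_F : ∀ {D : Dat} {F : D.Fm}, D.Hom F → ∀ {K : Type} [Field K] [Algebra ℂ K] (x : D.Hx → K),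
    (∀ a, x a ≠ 0) → ∀ τ j, aeval (D.rat x τ) (F j) = aeval x (F j) / Dat.gen x (dd j) τ ∧ ∀ a,
      aeval (D.rat x τ) (pderiv a (F j)) =
        aeval x (pderiv a (F j)) * x ⟨a.1, τ a.1⟩ / Dat.gen x (dd j) τ
  cfg : ∀ {D : Dat} {F : D.Fm}, D.Hom F → ∀ {K : Type} [Field K] [Algebra ℂ K] (M : Mod F K),
    (∀ j, aeval M.x (F j) = 0) ∧ Cfg F none M.u ∧ N1 M.u
  locOf : ∀ {D : Dat} {F : D.Fm} {K : Type} [Field K] [Algebra ℂ K] (M : Mod F K) τ z,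
    (D.B M.x τ).toSubring ≤ M.X.O z → LocOf (D.B M.x τ).toSubring (M.X.O z)
  pt : ∀ {D : Dat} {F : D.Fm} {K : Type} [Field K] [Algebra ℂ K] (M : Mod F K) τ T, IsLoc T →
    LocOf (D.B M.x τ).toSubring T → ∃ z, M.X.O z = T
  ctr : ∀ {D : Dat} {F : D.Fm} {K : Type} [Field K] [Algebra ℂ K] (M : Mod F K) τ T, IsLoc T →
    (D.B M.x τ).toSubring ≤ T → ∃ z, Dom (M.X.O z) T ∧ LocOf (D.B M.x τ).toSubring (M.X.O z)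
  ptBs : ∀ {D : Dat} {F : D.Fm} {K : Type} [Field K] [Algebra ℂ K] (M : Mod F K)
    (A : Finset D.Hx) (τ : D.Ch), (∀ s, ⟨s, τ s⟩ ∈ A) →
      (∀ T, IsLoc T → LocOf (Bs M.x A).toSubring T → ∃ z, M.X.O z = T) ∧
      (∀ z, (Bs M.x A).toSubring ≤ M.X.O z → LocOf (Bs M.x A).toSubring (M.X.O z)) ∧
      ∀ w, (∀ E : M.X.PD, (Bs M.x A).toSubring ≤ M.X.O E.1 → val E w ≤ 1) → w ∈ Bs M.x A
  frac : ∀ {D : Dat} {F : D.Fm} {K : Type} [Field K] [Algebra ℂ K] (M : Mod F K) τ w,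
    ∃ b ∈ D.B M.x τ, b ≠ 0 ∧ b * w ∈ D.B M.x τ
  top : ∀ {D : Dat} {F : D.Fm} {K : Type} [Field K] [Algebra ℂ K] (M : Mod F K) τ,
    IntermediateField.adjoin ℂ (range (D.rat M.x τ)) = ⊤
  st_apply : ∀ {D : Dat} {F : D.Fm} {K : Type} [Field K] [Algebra ℂ K] (M : Mod F K) τ
    (E : M.X.PD), (D.B M.x τ).toSubring ≤ M.X.O E.1 → ∀ s,
      M.st s E = -M.X.ord (M.x ⟨s, τ s⟩) E.1
  locEq : ∀ {D : Dat} {F : D.Fm} {K : Type} [Field K] [Algebra ℂ K] (M : Mod F K) τ z,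
    (D.B M.x τ).toSubring ≤ M.X.O z → ∀ s, LocEq (M.st s) z (M.x ⟨s, τ s⟩)⁻¹
  mov : ∀ {D : Dat} {F : D.Fm} {K : Type} [Field K] [Algebra ℂ K] (M : Mod F K) s, Mov (M.st s)
  std : ∀ {D : Dat} {F : D.Fm} {K : Type} [Field K] [Algebra ℂ K] (M : Mod F K),
    (∀ γ γ', M.std (γ + γ') = M.std γ + M.std γ') ∧ (∀ γ γ', M.std (γ - γ') = M.std γ - M.std γ') ∧
      (∀ (c : ℤ) γ, M.std (c • γ) = c • M.std γ) ∧ (∀ s, M.std (Pi.single s 1) = M.st s) ∧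
      (∀ γ, M.Cls (M.std γ) (cst γ)) ∧ ∀ e c, M.Act e c → ∀ γ : D.Λ,
        LE (push e (M.std γ)) (M.std (∑ s, γ s • c s))

/-- All tools. -/
structure Tools : Prop where
  rk : St_RK
  red : St_RED
  la : St_LA
  sl : St_SL
  pi : St_PI
  sc : St_SC
  mp : St_MP
  nrm : St_NRM
  ch : St_CH

/-! ### General forms -/

/-- The master lemma. -/
def St_GENM : Prop := ∀ (D : Dat) (U C : Type) [Fintype U] [Fintype C]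
  (η : C → D.Fm →ₗ[ℂ] MvPolynomial U ℂ), D.Gn fun F => ∀ (κ : Type) [Field κ] [Algebra ℂ κ]
    (u : U → κ), (∀ c, aeval u (η c F) = 0) →
      (∀ l : C → κ, (∀ G, D.Hom G → ∑ c, l c * aeval u (η c G) = 0) → l = 0) →
        rk (range u) + Fintype.card C ≤ fr u Finset.univ

/-- The master lemma for values of derivatives. -/
def St_GEV : Prop := ∀ (D : Dat) (U C : Type) [Fintype U] [Fintype C]
  (z : C → Fin D.m → MvPolynomial U ℂ) (y : C → D.Hx → MvPolynomial U ℂ) (L : C → List D.Hx),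
    D.Gn fun F => ∀ (κ : Type) [Field κ] [Algebra ℂ κ] (u : U → κ),
      (∀ c, ∑ j, aeval u (z c j) * aeval (fun a => aeval u (y c a)) (dl (L c) (F j)) = 0) →
      (∀ l : C → κ, (∀ G : Fin D.m → MvPolynomial D.Hx κ, HomK G → ∑ c, l c *
        ∑ j, aeval u (z c j) * eval (fun a => aeval u (y c a)) (dl (L c) (G j)) = 0) → l = 0) →
          rk (range u) + Fintype.card C ≤ fr u Finset.univ

/-- The count for configurations. -/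
def St_GCNT : Prop := ∀ D : Dat, D.Gn G_cnt

/-- The Jacobian condition. -/
def St_GJAC : Prop := ∀ D : Dat, D.Gn G_jac

/-- Corank two. -/
def St_GCK : Prop := ∀ D : Dat, D.Gn G_ck

/-- Rank drop. -/
def St_GRD : Prop := ∀ D : Dat, D.Gn G_rd

/-- Zeros of `t`. -/
def St_GTL : Prop := ∀ D : Dat, D.Gn G_tl

/-- Double covers. -/
def St_GSG : Prop := ∀ D : Dat, D.Gn G_sg

/-- Lines in cubics. -/
def St_GIO1 : Prop := ∀ D : Dat, D.Gn G_io1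

/-- Common zeros. -/
def St_GIO2 : Prop := ∀ D : Dat, D.Gn G_io2

/-! ### The Lefschetz theorem -/

/-- Line bundles on a product of projective spaces. -/
def St_LMON : Prop := ∀ (D : Dat) (γ : D.Λ) (q : ℕ),
  ((∃ s, -(D.n s : ℤ) ≤ γ s ∧ γ s ≤ -1) ∨ ((∀ s, γ s < 0) ∧ q < D.k + ∑ s, D.n s)) →
    Ex Finset.univ (Ms D.XL γ) q

/-- A criterion for non-zero-divisors. -/
def St_LNZ0 : Prop := ∀ (A : Type) [CommRing A] [Algebra ℂ A] [IsNoetherianRing A] (f : A),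
  (∀ p : Ideal A, p.IsMaximal → f ∈ p → ∃ δ : Derivation ℂ A A, δ f ∉ p) → ∀ g, f * g = 0 → g = 0

/-- Partial derivatives in a chart. -/
def St_LTH : Prop := ∀ (D : Dat), (∀ a, D.XL a ≠ 0) ∧ ∀ (τ : D.Ch) (b : D.Hx), b.2 ≠ τ b.1 →
  ∃ θ : Derivation ℂ D.L D.L, (∀ A, ∀ z ∈ Bs D.XL A, θ z ∈ Bs D.XL A) ∧
    ∀ P : MvPolynomial D.Hx ℂ, θ (aeval (D.rat D.XL τ) P) = aeval (D.rat D.XL τ) (pderiv b P)

/-- The equations and the coordinates are non-zero-divisors. -/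
def St_LNZ : Prop := ∀ (D : Dat) (F : D.Fm), D.Hom F → G_jac F → ∀ (A : Finset D.Hx) (τ : D.Ch),
  (∀ s, ⟨s, τ s⟩ ∈ A) → ∀ b ∈ Bs D.XL A,
    (∀ j : Fin D.m, In F j A τ (fl F τ j * b) → In F j A τ b) ∧
      ∀ (j : ℕ) a, In F j A τ (D.rat D.XL τ a * b) → In F j A τ b

/-- The ideals of the charts are saturated. -/
def St_LSA : Prop := ∀ (D : Dat) (F : D.Fm), D.Hom F → G_jac F → ∀ (A : Finset D.Hx) (τ : D.Ch),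
  (∀ s, ⟨s, τ s⟩ ∈ A) → ∀ (j : ℕ) (b : D.LR), (b : D.L) ∈ Bs D.XL A → (b ∈ II F j ↔ In F j A τ b)

/-- Vanishing on the partial intersections. -/
def St_LTOW : Prop := ∀ (D : Dat) (F : D.Fm), D.Hom F → G_jac F → ∀ j, j ≤ D.m →
  ∀ (γ : D.Λ) (q : ℕ), ((∃ s, γ = -Pi.single s 1) ∨ ∀ s, γ s < 0) → q + j < D.k + ∑ s, D.n s →
    Ex Finset.univ (Mq F j γ) q

/-- Restriction of Laurent polynomials. -/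
def St_LPSI : Prop := ∀ (D : Dat) (F : D.Fm), D.Hom F → ∀ (K : Type) [Field K] [Algebra ℂ K]
  (M : Mod F K), ∃ ψ : D.LR →ₐ[ℂ] K, (∀ a (b : D.LR), (b : D.L) = D.XL a → ψ b = M.x a) ∧
    ∀ b, ψ b = 0 ↔ b ∈ II F D.m

/-- Vanishing on the complete intersection. -/
def St_LVAN : Prop := ∀ (D : Dat) (F : D.Fm), D.Hom F → G_jac F → ∀ (K : Type) [Field K]
  [Algebra ℂ K] (M : Mod F K), (∀ s, Ex Finset.univ (Ms M.x (-Pi.single s 1)) (D.k + 1)) ∧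
    ∀ j, Ex Finset.univ (Ms M.x (-dd j)) (D.k + 2)

/-- Tangent vectors at the generic point. -/
def St_LDER : Prop := ∀ (D : Dat) (F : D.Fm) (K : Type) [Field K] [Algebra ℂ K] (M : Mod F K)
  (δ : D.Hx → K), (∀ s, δ ⟨s, 0⟩ = 0) → (∀ j, ∑ a, aeval M.x (pderiv a (F j)) * δ a = 0) →
    ∃ θ : Derivation ℂ K K, ∀ a, θ (M.x a) = δ a

/-- The relations among the differentials. -/
def St_LREL : Prop := ∀ (D : Dat) (F : D.Fm), D.Hom F → ∀ (K : Type) [Field K] [Algebra ℂ K]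
  (M : Mod F K) g, β M.x g = 0 ↔ ∃ a, g = α M.x F a

/-- The conormal bundle is a subbundle. -/
def St_LSAT : Prop := ∀ (D : Dat) (F : D.Fm), D.Hom F → G_jac F → ∀ (K : Type) [Field K]
  [Algebra ℂ K] (M : Mod F K), (∀ a, α M.x F a = 0 → a = 0) ∧
    ∀ A a, α M.x F a ∈ Ps' M.x A ↔ a ∈ Rs M.x A

/-- The extension of the differentials has no first cohomology. -/
def St_LNY : Prop := ∀ (D : Dat) (F : D.Fm), D.Hom F → G_jac F → ∀ (K : Type) [Field K]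
  [Algebra ℂ K] (M : Mod F K), Ex Finset.univ (Es M.x) (D.k + 1)

/-- Regular forms are sections of the extension. -/
def St_LFRM : Prop := ∀ (D : Dat) (K : Type) [Field K] [Algebra ℂ K] (x : D.Hx → K),
  (∀ a, x a ≠ 0) → ∀ (A : Finset D.Hx) (τ : D.Ch), (∀ s, ⟨s, τ s⟩ ∈ A) →
    (∀ ω ∈ frm (Bs x A).toSubring, (ω, 0) ∈ Es x A) ∧ ∀ e ∈ Es x A, (∀ s, e.2 s ∈ Bs x A) ∧
      e.1 - ∑ s, e.2 s • dlog (x ⟨s, τ s⟩) ∈ frm (Bs x A).toSubring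

/-- Gluing of a family indexed by the charts. -/
def St_LGLUE : Prop := ∀ (D : Dat) (G : Type) [AddCommGroup G]
  (N : Finset D.Hx → AddSubgroup G), (∀ A, (∃ s, ∀ a ∈ A, a.1 ≠ s) → N A = ⊥) →
    Ex Finset.univ N (D.k + 1) → ∀ η : D.Ch → G, (∀ (A : Finset D.Hx) (τ τ' : D.Ch),
      (∀ s, ⟨s, τ s⟩ ∈ A) → (∀ s, ⟨s, τ' s⟩ ∈ A) → η τ - η τ' ∈ N A) →
        ∃ ω : G, ∀ τ : D.Ch, η τ - ω ∈ N (Finset.univ.image fun s => ⟨s, τ s⟩)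

/-- The Lefschetz theorem. -/
def St_LL : Prop := ∀ (D : Dat) (F : D.Fm), D.Hom F → G_jac F → ∀ (K : Type) [Field K]
  [Algebra ℂ K] (M : Mod F K), M.Lef

end Pool.Agent.Lib.CI
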