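import Pool.Agent.Lib.CI.BlueA

open MvPolynomial Set Matrix WithZero Pool.Agent.Lib.MP_e39d36_ag Pool.Agent.Lib.MP_e39d36_ag.Var
  Pool.Agent.Lib.MP_cc3443_ag Pool.Agent.Lib.MV Pool.Agent.Lib.MV.End Pool.Agent.Lib.MV.Fb
  Pool.Agent.Lib.DU

set_option linter.unusedSectionVars false
set_option linter.unusedVariables false

noncomputable section

namespace Pool.Agent.Lib.CI

namespace Dat

variable {D : Dat}

section pt

variable {Ω : Type} [Field Ω] [Algebra ℂ Ω] (F : D.Fm)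

/-- The order of vanishing of the normalised coordinate `z_j`. -/
def ld (v : Valuation Ω ℤᵐ⁰) (u : D.Vr → Ω) (j : Fin D.m) : ℤ :=
  nu v u none - ∑ s, D.aW j s * nu v u (some s) - log (v (u (.inl j)))

/-- The common zero of the two linear forms. -/
def pp (hm : D.m = 2) (l : D.I0) (i : D.I1) (u : D.Vr → Ω) : Fin 3 → Ω :=
  AA F hm l i u 0 ⨯₃ AA F hm l i u 1

/-- Two configurations exchanged by the involution of the plane cubic. -/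
structure Io (hm : D.m = 2) (l : D.I0) (i : D.I1) (u u' : D.Vr → Ω) (mv : Fin 3 → Ω) (a : Ω) :
    Prop where
  c1 : Cfg F (some l) u
  c2 : Cfg F (some l) u'
  eq : ∀ b ∈ bs l i, u' b = u b
  mp : mv ⬝ᵥ pp F hm l i u = 1
  ne : a ≠ 0
  th : u' ∘ c3 hm i =
    a • thd (CC F hm l i u) (tq (CC F hm l i u) (pp F hm l i u) mv) (u ∘ c3 hm i)
  wq : (u ∘ c3 hm i) ⨯₃ tq (CC F hm l i u) (pp F hm l i u) mv ≠ 0
  wp : (u ∘ c3 hm i) ⨯₃ pp F hm l i u ≠ 0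

/-- The number of coordinates `z_j` that vanish. -/
def oc (o : Option (Fin D.m)) : ℕ := o.elim 0 fun _ => 1

/-- The generic point of the variety or of a component of `z_j = 0`. -/
structure Pt0 (l : D.I0) (o : Option (Fin D.m)) (u : D.Vr → Ω) (lam : Ω) (t : D.I1 → Ω) :
    Prop where
  dbl : Dbl F none (some l) u lam
  n1 : N1 u
  gen : IntermediateField.adjoin ℂ (range u) = ⊤
  rk : D.dm ≤ rk (u '' off (some l)) + oc o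
  z : ∀ j, u (.inl j) = 0 ↔ o = some j
  isT : ∀ i, IsT F l i u (t i)
  t0 : ∀ i, o = some (jj i) → t i ≠ 0

/-- The generators at level `l`. -/
def gU (l : D.I0) (u : D.Vr → Ω) (t : D.I1 → Ω) : D.Vr ⊕ D.I1 → Ω :=
  Sum.elim (fun a => if sl a = some l.1 then 0 else u a) t

/-- Their weights. -/
def gW (l : D.I0) (f : D.Λ) : D.Vr ⊕ D.I1 → ℕ :=
  Sum.elim (Sum.elim (fun j => (f ⬝ᵥ Lam l j).toNat) fun a => if a.1 = l.1 then 0 else (f a.1).toNat)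
    fun i => (f ⬝ᵥ tcl l i).toNat

end pt

namespace Mod

variable {F : D.Fm} {K : Type} [Field K] [Algebra ℂ K] (M : Mod F K)

/-- The divisor of a slot. -/
def SD (u : D.Vr → K) (σ : D.Sl) : Dv M.X := sd M.X (sv u σ)

/-- What the geometric part delivers. -/
structure Inp : Prop where
  lef : M.Lef
  pos : Pos M.Ef
  lev : ∀ l, ∃ Z : Fin D.m → Dv M.X, (∀ j, 0 ≤ Z j ∧ LE (Z j) (M.std (Lam l j))) ∧
    (∀ E j j', j ≠ j' → Z j E = 0 ∨ Z j' E = 0) ∧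
    (∀ i E, 0 < Z (jj i) E → M.Free E (if D.m = 2 then (8 : ℤ) • om l i else tcl l i)) ∧
    ∀ j f E, Valid l (some j) f → 0 < Z j E → ∀ W ξ, 0 ≤ W → W E = 0 → M.Cls W ξ → 0 ≤ pr f ξ
  g : ∀ l l', l ≠ l' → ∃ e, M.Act e (gcol l l')
  σ : ∀ i, ∃ e, M.Act e (scol i)
  ι : D.m = 2 → ∀ l i, ∃ e, M.Act e (icol l i)

end Mod

end Dat

open Pool.Agent.Lib.CI.Dat
open Pool.Agent.Lib.MV.G3 (acl Ov)

/-! ### The model -/

/-- The transcendence degree. -/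
def St_TD : Prop := ∀ (D : Dat) (F : D.Fm), Gen F → ∀ (K : Type) [Field K] [Algebra ℂ K]
  (M : Mod F K), rk (range M.x) = D.dm ∧ (∀ z, z ∈ acl (range M.x)) ∧
    Big none (tv K) M.u D.dm ∧ Gt none M.u ∧ ¬IndIn (⊤ : Subring K) univ (D.dm + 1)

/-- Residue fields are generated by the coordinates. -/
def St_RESG : Prop := ∀ (D : Dat) (F : D.Fm) (K : Type) [Field K] [Algebra ℂ K] (M : Mod F K)
  (z : M.X.Pt) (v : Valuation K ℤᵐ⁰), (∀ a, a ∈ M.X.O z ↔ v a ≤ 1) → ∀ (κ : Type) [Field κ]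
    [Algebra ℂ κ] (R : Red v κ) (τ : D.Ch), (D.B M.x τ).toSubring ≤ M.X.O z →
      IntermediateField.adjoin ℂ (range (R.r ∘ D.rat M.x τ)) = ⊤

/-- The prime divisors. -/
def St_PD : Prop := ∀ (D : Dat) (F : D.Fm), Gen F → ∀ (K : Type) [Field K] [Algebra ℂ K]
  (M : Mod F K), (∀ E : M.X.PD, Cv (val E) ∧ Big none (val E) M.u (D.dm - 1)) ∧
    ∀ v : Valuation K ℤᵐ⁰, Function.Surjective v → Cv v → Big none v M.u (D.dm - 1) →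
      ∃ E : M.X.PD, val E = v

/-- Generic points give automorphisms. -/
def St_UNIQ : Prop := ∀ (D : Dat) (F : D.Fm), Gen F → ∀ (K : Type) [Field K] [Algebra ℂ K]
  (M : Mod F K) (u : D.Vr → K), Cfg F none u → Big none (tv K) u D.dm → Gt none u →
    ∃ (φ : K ≃ₐ[ℂ] K) (μ : Fin D.k → K), (∀ s, μ s ≠ 0) ∧ ∀ a, u (.inr a) = μ a.1 * φ (M.x a)

/-- Automorphisms that permute the prime divisors. -/
def St_PERM : Prop := ∀ (D : Dat) (F : D.Fm), Gen F → ∀ (K : Type) [Field K] [Algebra ℂ K]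
  (M : Mod F K) (φ : K ≃ₐ[ℂ] K), (∀ v : Valuation K ℤᵐ⁰, Cv v →
    (Big none v M.u (D.dm - 1) ↔ Big none v (φ ∘ M.u) (D.dm - 1))) →
      ∃ e : M.X.PD ≃ M.X.PD, Inv ⊥ φ e

/-- Pseudo-automorphisms from configurations. -/
def St_ACT : Prop := ∀ (D : Dat) (F : D.Fm), Gen F → ∀ (K : Type) [Field K] [Algebra ℂ K]
  (M : Mod F K) (u : D.Vr → K), Cfg F none u → Big none (tv K) u D.dm → Gt none u →
    (∀ v : Valuation K ℤᵐ⁰, Cv v → (Big none v M.u (D.dm - 1) ↔ Big none v u (D.dm - 1))) →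
      ∃ (φ : K ≃ₐ[ℂ] K) (μ : Fin D.k → K) (e : M.X.PD ≃ M.X.PD), (∀ s, μ s ≠ 0) ∧
        (∀ a, u (.inr a) = μ a.1 * φ (M.x a)) ∧ (∃ ψ, Ps ψ e) ∧
          ∀ s, LE (push e (M.st s)) (M.SD u (some s))

/-! ### Flops -/

/-- Existence. -/
def St_FLX : Prop := ∀ (D : Dat) (F : D.Fm), Gen F → ∀ (τ τ' : D.Ty), τ ≠ τ' → ∀ (Ω : Type)
  [Field Ω] [Algebra ℂ Ω] (u : D.Vr → Ω), Cfg F τ u → Big τ (tv Ω) u (D.dm - 1) →
    ∃ u' lam, Agr (ts τ) u u' ∧ Dbl F τ τ' u' lam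

/-- Symmetry and rationality. -/
def St_F2 : Prop := ∀ (D : Dat) (F : D.Fm), D.Hom F → ∀ (τ τ' : D.Ty), τ ≠ τ' → ∀ (Ω : Type)
  [Field Ω] [Algebra ℂ Ω] (u : D.Vr → Ω) (lam : Ω), Dbl F τ τ' u lam → Dbl F τ' τ u lam ∧
    gam τ' τ = gam τ τ' ∧ (N1 u → ∀ k : IntermediateField ℂ Ω,
      (∀ a, sl a ≠ ts τ → sl a ≠ ts τ' → u a ∈ k) → ∀ a, u a ∈ k) ∧ (Gt τ u → Gt τ' u)

/-- The value of the factor. -/
def St_FL1 : Prop := ∀ (D : Dat) (F : D.Fm), D.Hom F → ∀ (τ τ' : D.Ty), τ ≠ τ' → ∀ (Ω κ : Type)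
  [Field Ω] [Algebra ℂ Ω] [Field κ] [Algebra ℂ κ] (v : Valuation Ω ℤᵐ⁰) (R : Red v κ)
  (u : D.Vr → Ω) (lam : Ω) (ρ : D.Sl → Ω), Dbl F τ τ' u lam → (∀ σ, ρ σ ≠ 0) → Nw v (sc ρ u) →
    (Mx F τ τ' (R.r ∘ sc ρ u)).adjugate ≠ 0 → log (v lam) = ∑ σ, gam τ τ' σ * nu v u σ

/-- Flops at a valuation. -/
def St_FLV : Prop := ∀ (D : Dat) (F : D.Fm), Gen F → ∀ (τ τ' : D.Ty), τ ≠ τ' → ∀ (Ω : Type)
  [Field Ω] [Algebra ℂ Ω] (v : Valuation Ω ℤᵐ⁰), Cv v → ∀ (u : D.Vr → Ω) (lam : Ω),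
    Dbl F τ τ' u lam → Big τ v u (D.dm - 1) → log (v lam) = ∑ σ, gam τ τ' σ * nu v u σ ∧
      (∀ e, Big τ v u e → Big τ' v u e) ∧ ∀ (κ : Type) [Field κ] [Algebra ℂ κ] (R : Red v κ)
        (ρ : D.Sl → Ω), (∀ σ, ρ σ ≠ 0) → Nm v (sc ρ u) →
          Dbl F τ τ' (R.r ∘ sc ρ u) (R.r (chi ρ (gam τ τ') * lam))

/-- Flops on divisors. -/
def St_FLD : Prop := ∀ (D : Dat) (F : D.Fm), Gen F → ∀ (K : Type) [Field K] [Algebra ℂ K]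
  (M : Mod F K) (τ τ' : D.Ty), τ ≠ τ' → ∀ (u : D.Vr → K) (lam : K), Dbl F τ τ' u lam →
    (∀ E : M.X.PD, Big τ (val E) u (D.dm - 1)) → ∀ γ : D.Sl → D.Λ,
      (∀ σ, σ ≠ ts τ → LE (M.SD u σ) (M.std (γ σ))) →
        LE (M.SD u (ts τ)) (M.std (∑ σ ∈ Finset.univ.erase (ts τ), gam τ τ' σ • γ σ))

/-- The levels. -/
def St_LEV : Prop := ∀ (D : Dat) (F : D.Fm), Gen F → ∀ (K : Type) [Field K] [Algebra ℂ K]
  (M : Mod F K) (l : D.I0), (∃ u lam, M.Lv l u lam) ∧ ∀ u lam, M.Lv l u lam →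
    Big (some l) (tv K) u D.dm ∧ Gt (some l) u ∧ (∀ v : Valuation K ℤᵐ⁰, Cv v →
      (Big none v M.u (D.dm - 1) ↔ Big (some l) v u (D.dm - 1))) ∧
        (∀ s, M.SD u (some s) = M.st s) ∧ LE (M.SD u none) (M.std (zeta l))

/-- The path of three flops. -/
def St_GMOV : Prop := ∀ (D : Dat) (F : D.Fm), Gen F → ∀ (K : Type) [Field K] [Algebra ℂ K]
  (M : Mod F K) (l l' : D.I0), l ≠ l' → ∃ e, M.Act e (gcol l l')

/-- The classes along the path. -/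
def St_GCL : Prop := ∀ (D : Dat) (l : D.I0), ∑ σ ∈ Finset.univ.erase none,
    gam none (some l) σ • (σ.elim 0 fun s => Pi.single s 1 : D.Λ) = zeta l ∧
  (∀ l', l ≠ l' → ∑ σ ∈ Finset.univ.erase (some l.1), gam (some l) (some l') σ •
      (σ.elim (zeta l) fun s => Pi.single s 1 : D.Λ) = gcol l l' l.1 ∧
    ∑ σ ∈ Finset.univ.erase (some l'.1), gam (some l') none σ •
      (σ.elim (zeta l) (gcol l l') : D.Λ) = gcol l l' l'.1) ∧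
  (D.m = 2 → ∀ i, ∑ σ ∈ Finset.univ.erase (some l.1), gam (some l) none σ •
      (σ.elim (Lam l (jj i) + ∑ s, (D.aW (jj i) s : ℤ) • icol l i s) (icol l i) : D.Λ) =
        icol l i l.1 ∧
    ∀ j, j ≠ jj i → Lam l j + ∑ s, Lam l j s • icol l i s = (8 : ℤ) • om l i) ∧
  ∀ i, ∑ σ, wT l i σ • (σ.elim (zeta l) fun s => Pi.single s 1 : D.Λ) = tcl l i

/-! ### Double covers -/

/-- Existence. -/
def St_SIGX : Prop := ∀ (D : Dat) (F : D.Fm), Gen F → ∀ (i : D.I1) (Ω : Type) [Field Ω]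
  [Algebra ℂ Ω] (u : D.Vr → Ω), Cfg F none u → Big none (tv Ω) u (D.dm - 1) →
    ∃ u' lam, Sig F i u u' lam

/-- Symmetry, scaling and rationality. -/
def St_SIG2 : Prop := ∀ (D : Dat) (F : D.Fm), D.Hom F → ∀ (i : D.I1) (Ω : Type) [Field Ω]
  [Algebra ℂ Ω] (u u' : D.Vr → Ω) (lam : Ω), Sig F i u u' lam → Sig F i u' u lam ∧
    (∀ (ρ : D.Sl → Ω) (c : Ω), (∀ σ, ρ σ ≠ 0) → c ≠ 0 → ∃ u'', (∀ q, u'' (cw i q) = c * u' (cw i q)) ∧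
      Sig F i (sc ρ u) u'' (chi ρ (wS i) * lam / (ρ (some i.1) * c))) ∧
    ((∃ r, u (cw i r) = 1) → (∀ k : IntermediateField ℂ Ω, (∀ a, u' (.inr a) ∈ k) →
      ∀ q, u (cw i q) ∈ k) ∧ ∀ q, u (cw i q) ∈ acl (u '' {a | sl a ≠ none ∧ sl a ≠ some i.1})) ∧
    (Gt none u → Gt none u')

/-- Double covers at a valuation. -/
def St_SIGV : Prop := ∀ (D : Dat) (F : D.Fm), Gen F → ∀ (i : D.I1) (Ω : Type) [Field Ω]
  [Algebra ℂ Ω] (v : Valuation Ω ℤᵐ⁰), Cv v → ∀ (u u' : D.Vr → Ω) (lam : Ω), Sig F i u u' lam →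
    Big none v u (D.dm - 1) → (∀ e, Big none v u e → Big none v u' e) ∧
      log (v lam) + nu v u (some i.1) + nu v u' (some i.1) = ∑ σ, wS i σ * nu v u σ

/-- The covering involutions. -/
def St_SMOV : Prop := ∀ (D : Dat) (F : D.Fm), Gen F → ∀ (K : Type) [Field K] [Algebra ℂ K]
  (M : Mod F K) (i : D.I1), ∃ (u : D.Vr → K) (lam : K) (φ : K ≃ₐ[ℂ] K) (μ : Fin D.k → K)
    (e : M.X.PD ≃ M.X.PD), Sig F i M.u u lam ∧ (∀ s, μ s ≠ 0) ∧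
      (∀ a, u (.inr a) = μ a.1 * φ (M.x a)) ∧ M.Act e (scol i)

/-! ### Plane cubics -/

/-- Identities for cubics. -/
def St_TQ : Prop := ∀ (κ : Type) [Field κ] [Algebra ℂ κ],
  (∀ (c : Cf κ) (p m m' : Fin 3 → κ), cub c p = 0 → m ⬝ᵥ p = 1 → m' ⬝ᵥ p = 1 →
    tq c p m = tq c p m') ∧
  (∀ (c : Cf κ) (p m : Fin 3 → κ) (g s : κ), s ≠ 0 →
    tq (g • c) (s • p) (s⁻¹ • m) = (g ^ 4 * s ^ 4) • tq c p m) ∧
  ∀ (A : Fin 2 → Fin 3 → κ) (B : Fin 2 → Fin 3 → Fin 3 → κ),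
    (∀ w, cub (cAB A B) w = A 0 ⬝ᵥ w * qd (B 1) w - A 1 ⬝ᵥ w * qd (B 0) w) ∧
    cub (cAB A B) (A 0 ⨯₃ A 1) = 0 ∧ grad (cAB A B) (A 0 ⨯₃ A 1) =
      qd (B 1) (A 0 ⨯₃ A 1) • A 0 - qd (B 0) (A 0 ⨯₃ A 1) • A 1 ∧
    (A 0 ⨯₃ A 1 = 0 → ∃ a b, Ln (cAB A B) a b)

/-- Points on lines and cubics. -/
def St_LNA : Prop := ∀ (κ : Type) [Field κ] [Algebra ℂ κ] (S : Set κ) (w : Fin 3 → κ), S.Finite →
  (∃ r, w r = 1) →
    (∀ h : Fin 3 → κ, h ≠ 0 → (∀ e, h e ∈ acl S) → h ⬝ᵥ w = 0 → rk (S ∪ range w) ≤ rk S + 1) ∧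
    ∀ c : Cf κ, (∀ a b e, c a b e ∈ acl S) → cub c w = 0 →
      (rk (S ∪ range w) ≤ rk S + 1 ∨ ∀ a b, a ⨯₃ b ≠ 0 → Ln c a b) ∧
      ((∀ a b, ¬Ln c a b) → ∀ h : Fin 3 → κ, h ≠ 0 → (∀ e, h e ∈ acl S) → h ⬝ᵥ w = 0 →
        ∀ e, w e ∈ acl S)

/-- Good cubics over a field. -/
def St_IOG1 : Prop := ∀ (D : Dat) (F : D.Fm), Gen F → ∀ (hm : D.m = 2) (l : D.I0) (i : D.I1)
  (κ : Type) [Field κ] [Algebra ℂ κ] (u : D.Vr → κ), Cfg F (some l) u → N1 u →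
    D.dm - 1 ≤ rk (u '' off (some l)) → cub (CC F hm l i u) (u ∘ c3 hm i) = 0 ∧
      (∀ a b, ¬Ln (CC F hm l i u) a b) ∧ pp F hm l i u ≠ 0 ∧
      grad (CC F hm l i u) (pp F hm l i u) ≠ 0 ∧ Mx F (some l) none u ≠ 0 ∧
      (∀ k : IntermediateField ℂ κ, (∀ a ∈ bs l i, u a ∈ k) → (∀ s e, AA F hm l i u s e ∈ k) ∧
        (∀ a b e, CC F hm l i u a b e ∈ k) ∧
          ((∀ e, u (c3 hm i e) ∈ k) → ∀ a ∈ off (some l), u a ∈ k))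

/-- Good cubics at a valuation. -/
def St_IOG2 : Prop := ∀ (D : Dat) (F : D.Fm), Gen F → ∀ (hm : D.m = 2) (l : D.I0) (i : D.I1)
  (Ω : Type) [Field Ω] [Algebra ℂ Ω] (v : Valuation Ω ℤᵐ⁰), Cv v → ∀ u : D.Vr → Ω,
    Cfg F (some l) u → Nm v u → IndV v (u '' off (some l)) (D.dm - 1) →
      cub (CC F hm l i u) (u ∘ c3 hm i) = 0 ∧ Good v (CC F hm l i u) ∧ nm v (pp F hm l i u) = 1 ∧
        nm v (grad (CC F hm l i u) (pp F hm l i u)) = 1 ∧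
          v (u (.inl (jj i))) = ds v (u ∘ c3 hm i) (pp F hm l i u)

/-- The involution at a valuation, normalised configurations. -/
def St_IVN : Prop := ∀ (D : Dat) (F : D.Fm), Gen F → ∀ (hm : D.m = 2) (l : D.I0) (i : D.I1)
  (Ω : Type) [Field Ω] [Algebra ℂ Ω] (v : Valuation Ω ℤᵐ⁰), Cv v → ∀ (u u' : D.Vr → Ω) mv a,
    Io F hm l i u u' mv a → Nm v u → Nm v u' → IndV v (u '' off (some l)) (D.dm - 1) →
      IndV v (u' '' off (some l)) (D.dm - 1) ∧ u (.inl (jj i)) ≠ 0 ∧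
        v (u' (.inl (jj i))) = v (u (.inl (jj i))) ∧
        v (a * pol (CC F hm l i u) (pp F hm l i u) (u ∘ c3 hm i) ^ 3) = v (u (.inl (jj i))) ^ 6

/-- The involution at a valuation. -/
def St_IVAL : Prop := ∀ (D : Dat) (F : D.Fm), Gen F → ∀ (hm : D.m = 2) (l : D.I0) (i : D.I1)
  (Ω : Type) [Field Ω] [Algebra ℂ Ω] (v : Valuation Ω ℤᵐ⁰), Cv v → ∀ (u u' : D.Vr → Ω) mv a,
    Io F hm l i u u' mv a → Big (some l) v u (D.dm - 1) → Big (some l) v u' (D.dm - 1) ∧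
      pol (CC F hm l i u) (pp F hm l i u) (u ∘ c3 hm i) ≠ 0 ∧ u' (.inl (jj i)) ≠ 0 ∧
      ld v u' (jj i) = ld v u (jj i) ∧
      nu v u' (some i.1) = log (v (a * pol (CC F hm l i u) (pp F hm l i u) (u ∘ c3 hm i) ^ 3)) +
        6 * ld v u (jj i) + ∑ s, ((6 : ℤ) • kap l i + (4 : ℤ) • alp l i - Pi.single i.1 1 : D.Λ) s *
          nu v u (some s)

/-- The involution of the function field. -/
def St_IOX : Prop := ∀ (D : Dat) (F : D.Fm), Gen F → ∀ (hm : D.m = 2) (K : Type) [Field K]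
  [Algebra ℂ K] (M : Mod F K) (l : D.I0) (i : D.I1) (u : D.Vr → K) (lam : K), M.Lv l u lam →
    ∃ (σ : K ≃ₐ[ℂ] K) (mv : Fin 3 → K) (a a' : K), Io F hm l i u (σ ∘ u) mv a ∧
      Io F hm l i (σ ∘ u) u mv a'

/-- The pseudo-automorphisms given by the cubics. -/
def St_IMOV : Prop := ∀ (D : Dat) (F : D.Fm), Gen F → D.m = 2 → ∀ (K : Type) [Field K]
  [Algebra ℂ K] (M : Mod F K) (l : D.I0) (i : D.I1) (u : D.Vr → K) (lam : K), M.Lv l u lam →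
    ∃ e, M.Act e (icol l i) ∧ push e (M.LD u (jj i)) = M.LD u (jj i)

/-! ### Sections -/

/-- The divisors of the coordinates `z_j`. -/
def St_SEC : Prop := ∀ (D : Dat) (F : D.Fm), Gen F → ∀ (K : Type) [Field K] [Algebra ℂ K]
  (M : Mod F K) (l : D.I0) (u : D.Vr → K) (lam : K), M.Lv l u lam → (∀ j, u (.inl j) ≠ 0) ∧
    (∀ j, 0 ≤ M.LD u j ∧ LE (M.LD u j) (M.std (Lam l j))) ∧
    (∀ E j j', j ≠ j' → M.LD u j E = 0 ∨ M.LD u j' E = 0) ∧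
    (∀ E j, M.LD u j E = ld (val E) u j) ∧ ∀ (E : M.X.PD) j (ρ : D.Sl → K), (∀ σ, ρ σ ≠ 0) →
      Nm (val E) (sc ρ u) → M.LD u j E = -log (val E (sc ρ u (.inl j)))

/-- The sections `t_i`. -/
def St_TSEC : Prop := ∀ (D : Dat) (F : D.Fm), Gen F → ∀ (K : Type) [Field K] [Algebra ℂ K]
  (M : Mod F K) (l : D.I0) (u : D.Vr → K) (lam : K), M.Lv l u lam → ∀ i E,
    0 < M.LD u (jj i) E → M.Free E (tcl l i)

/-- The sections in the classes `8 ω_i`. -/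
def St_OM : Prop := ∀ (D : Dat) (F : D.Fm), Gen F → D.m = 2 → ∀ (K : Type) [Field K]
  [Algebra ℂ K] (M : Mod F K) (l : D.I0) (u : D.Vr → K) (lam : K), M.Lv l u lam → ∀ i E,
    0 < M.LD u (jj i) E → M.Free E ((8 : ℤ) • om l i)

/-! ### Curves -/

/-- Degrees. -/
def St_CRV : Prop := ∀ (L : Type) [Field L] [Algebra ℂ L] (C : Crv L),
  (∀ (J : Type) [Fintype J] (y : J → L), 0 ≤ C.deg y ∧ ∀ a : L, a ≠ 0 → C.deg (a • y) = C.deg y) ∧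
  ∀ (J : Type) [Fintype J] (ι : J → Type) [∀ j, Fintype (ι j)] (c : J → ℤ) (y : ∀ j, ι j → L)
    (g : L) (h : C.Pl → ℤ), (∀ P, ∑ j, c j * log (nm (C.v P) (y j)) = h P + log (C.v P g)) →
      ∑ j, c j * C.deg (y j) = ∑ᶠ P, h P

/-- Generic curves. -/
def St_WG3 : Prop := ∀ (Ω V : Type) [Field Ω] [Algebra ℂ Ω] [Fintype V] (y : V → Ω) (v₀ : V)
  (S : Set Ω) (g : Finset Ω), S.Finite → y v₀ ≠ 0 → y v₀ ∈ S → rk S < rk (S ∪ range y) →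
    IntermediateField.adjoin ℂ (g : Set Ω) = ⊤ → (∀ z, z ∈ acl (S ∪ range y)) →
      ∃ (L : Type) (_ : Field L) (_ : Algebra ℂ L) (j : Ω →ₐ[ℂ] L) (C : Crv L),
        0 < C.deg (j ∘ y) ∧ ∀ P, (∀ z ∈ acl S, z ≠ 0 → C.v P (j z) = 1) ∧
          ∀ v₁, C.v P (j (y v₁)) = nm (C.v P) (j ∘ y) → IndV (C.v P)
            (j '' S ∪ range fun v => j (y v) * j (y v₀) / j (y v₁)) (rk (S ∪ range y) - 1)

/-- Generic curves in weighted cones. -/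
def St_WGC : Prop := ∀ (Ω U : Type) [Field Ω] [Algebra ℂ Ω] [Fintype U] (u : U → Ω) (w : U → ℕ)
  (a₀ : U) (g : Finset Ω), w a₀ ≠ 0 → u a₀ ≠ 0 →
    rk (insert (u a₀) (u '' {a | w a = 0})) < rk (range u) →
    IntermediateField.adjoin ℂ (g : Set Ω) = ⊤ → (∀ z, z ∈ acl (range u)) →
      ∃ (L : Type) (_ : Field L) (_ : Algebra ℂ L) (j : Ω →ₐ[ℂ] L) (C : Crv L) (π : C.Pl → L),
        0 < ∑ᶠ P, log (C.v P (π P)) ∧ ∀ P, π P ≠ 0 ∧ (∀ a, C.v P (j (u a) / π P ^ w a) ≤ 1) ∧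
          (∀ z ∈ acl (insert (u a₀) (u '' {a | w a = 0})), z ≠ 0 → C.v P (j z) = 1) ∧
          (∃ a, w a ≠ 0 ∧ (j (u a) / π P ^ w a) ^ w a₀ = j (u a₀) ^ w a) ∧
          IndV (C.v P) (range fun a => j (u a) / π P ^ w a) (rk (range u) - 1)

/-- Points with values in a function field of one variable. -/
def St_HC1 : Prop := ∀ (D : Dat) (F : D.Fm), D.Hom F → ∀ (K : Type) [Field K] [Algebra ℂ K]
  (M : Mod F K) (L : Type) [Field L] [Algebra ℂ L] [IsFF L] (τ : D.Ch) (y : D.Hx → L),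
    (∀ s, y ⟨s, τ s⟩ ≠ 0) → (∀ j, aeval y (F j) = 0) → ∃ γ : CMap M.X L,
      (D.B M.x τ).toSubring ≤ M.X.O γ.c ∧
      (∀ P : MvPolynomial D.Hx ℂ, γ.τ (aeval (D.rat M.x τ) P) = aeval (D.rat y τ) P) ∧
      ∀ s, γ.deg (M.st s) = ∑ᶠ P : Place L, log (nm P.val fun p => y ⟨s, p⟩)

/-- Effective divisors have nonnegative degree on generic curves. -/
def St_HC : Prop := ∀ (D : Dat) (F : D.Fm), D.Hom F → ∀ (K : Type) [Field K] [Algebra ℂ K]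
  (M : Mod F K) (z : M.X.Pt) (τ : D.Ch), (D.B M.x τ).toSubring ≤ M.X.O z → ∀ (L : Type) [Field L]
    [Algebra ℂ L] (C : Crv L) (y : D.Hx → L), (∀ s, y ⟨s, τ s⟩ ≠ 0) → (∀ j, aeval y (F j) = 0) →
      (∀ P : MvPolynomial D.Hx ℂ, Un (M.X.O z) (aeval (D.rat M.x τ) P) →
        aeval (D.rat y τ) P ≠ 0) → ∀ W ξ, 0 ≤ W → (∀ E : M.X.PD, M.X.O z ≤ M.X.O E.1 → W E = 0) →
          M.Cls W ξ → 0 ≤ ∑ s, ξ s * (C.deg fun p => y ⟨s, p⟩ : ℤ)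

/-- The same for embeddings of the function field. -/
def St_HCG : Prop := ∀ (D : Dat) (F : D.Fm), D.Hom F → ∀ (K : Type) [Field K] [Algebra ℂ K]
  (M : Mod F K) (L : Type) [Field L] [Algebra ℂ L] (C : Crv L) (j : K →ₐ[ℂ] L), ∀ ξ ∈ M.Ef,
    0 ≤ ∑ s, ξ s * (C.deg fun p => j (M.x ⟨s, p⟩) : ℤ)

/-- Curves in fibres. -/
def St_FC : Prop := ∀ (D : Dat) (F : D.Fm), Gen F → ∀ (K : Type) [Field K] [Algebra ℂ K]
  (M : Mod F K) (A : Finset (Fin D.k)), D.m < ∑ s ∈ A, D.n s → ∃ α : D.V, 0 ≤ α ∧ α ≠ 0 ∧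
    (∀ s, s ∉ A → α s = 0) ∧ ∀ x ∈ M.Ef, 0 ≤ α ⬝ᵥ x

/-- Pairs of conjugate curves. -/
def St_PAIR : Prop := ∀ (D : Dat) (F : D.Fm), Gen F → ∀ (K : Type) [Field K] [Algebra ℂ K]
  (M : Mod F K) (l : D.I0) (i : D.I1), ∀ x ∈ M.Ef, 0 ≤ 2 * x l.1 + (2 * (D.m : ℝ) - 1) * x i.1

/-- Reduction of a level at a point. -/
def St_RES : Prop := ∀ (D : Dat) (F : D.Fm), Gen F → ∀ (K : Type) [Field K] [Algebra ℂ K]
  (M : Mod F K) (l : D.I0) (u : D.Vr → K) (lam : K), M.Lv l u lam → ∀ (o : Option (Fin D.m))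
    (z : M.X.Pt), ((o = none ∧ M.X.O z = ⊤) ∨
      ∃ (j : _) (E : M.X.PD), o = some j ∧ z = E.1 ∧ 0 < M.LD u j E) →
        ∃ (κ : Type) (_ : Field κ) (_ : Algebra ℂ κ) (u' : D.Vr → κ) (lam' : κ) (t : D.I1 → κ)
          (τ : D.Ch), Pt0 F l o u' lam' t ∧ (D.B M.x τ).toSubring ≤ M.X.O z ∧
            (∀ s, u' (.inr ⟨s, τ s⟩) = 1) ∧ ∀ P : MvPolynomial D.Hx ℂ,
              Un (M.X.O z) (aeval (D.rat M.x τ) P) → aeval (u' ∘ .inr) P ≠ 0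

/-- The cone over a point. -/
def St_CONE : Prop := ∀ (D : Dat) (F : D.Fm), D.Hom F → ∀ (l : D.I0) (κ : Type) [Field κ]
  [Algebra ℂ κ] (u : D.Vr → κ) (lam : κ), Dbl F none (some l) u lam → N1 u →
    IntermediateField.adjoin ℂ (range u) = ⊤ → ∃ (Ω : Type) (_ : Field Ω) (_ : Algebra ℂ Ω)
      (ι : κ →ₐ[ℂ] Ω) (ρ : D.Sl → Ω) (g : Finset Ω), (∀ σ, ρ σ ≠ 0) ∧
        IntermediateField.adjoin ℂ (g : Set Ω) = ⊤ ∧
        (∀ z, z ∈ acl (sc ρ (ι ∘ u) '' off (some l))) ∧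
          rk (sc ρ (ι ∘ u) '' off (some l)) = rk (u '' off (some l)) + D.k

/-- Points at which a slot vanishes. -/
def St_BAD : Prop := ∀ (D : Dat) (F : D.Fm), Gen F → ∀ (l : D.I0) (o : Option (Fin D.m)) (f : D.Λ),
  Valid l o f → ∀ (κ : Type) [Field κ] [Algebra ℂ κ] (u : D.Vr → κ) (t : D.I1 → κ),
    (∀ i, IsT F l i u (t i)) → (∀ j, o = some j → u (.inl j) = 0) →
    (∀ j, some j ≠ o → f ⬝ᵥ Lam l j = 0 → u (.inl j) ≠ 0) →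
    (∀ s, s ≠ l.1 → f s = 0 → ∃ p, u (.inr ⟨s, p⟩) ≠ 0) →
    (∀ i, o = some (jj i) → f ⬝ᵥ tcl l i = 0 → t i ≠ 0) →
    (∃ σ, σ ≠ some l.1 ∧ ∀ a, sl a = σ → u a = 0) →
      rk (u '' off (some l) ∪ range t) + D.m + 2 + oc o ≤ ∑ s, (D.n s + 1)

/-- The vertex of the weighted cone. -/
def St_LIM : Prop := ∀ (D : Dat) (F : D.Fm), Gen F → ∀ (l : D.I0) (o : Option (Fin D.m)) (f : D.Λ),
  Valid l o f → f ≠ 0 → ∀ (Ω : Type) [Field Ω] [Algebra ℂ Ω] (u : D.Vr → Ω) (t : D.I1 → Ω),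
    NZ u → (∀ i, IsT F l i u (t i)) → (∀ j, u (.inl j) = 0 ↔ o = some j) →
    (∀ i, o = some (jj i) → t i ≠ 0) → (∃ a, gW l f a ≠ 0 ∧ gU l u t a ≠ 0) ∧
      rk (gU l u t '' {a | gW l f a = 0}) + D.m + 2 + oc o ≤ ∑ s, (D.n s + 1)

/-- The norms of the slots at a place. -/
def St_PLC : Prop := ∀ (D : Dat) (F : D.Fm), Gen F → ∀ (l : D.I0) (o : Option (Fin D.m)) (f : D.Λ),
  Valid l o f → ∀ (L : Type) [Field L] [Algebra ℂ L] (v : Valuation L ℤᵐ⁰), Cv v →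
    ∀ (u : D.Vr → L) (lam π : L) (t : D.I1 → L), π ≠ 0 → Dbl F none (some l) u lam →
      (∀ i, IsT F l i u (t i)) → (∀ j, u (.inl j) = 0 ↔ o = some j) →
      (∀ i, o = some (jj i) → t i ≠ 0) → (∀ a, v (gU l u t a / π ^ gW l f a) ≤ 1) →
      (∀ a, gW l f a = 0 → gU l u t a ≠ 0 → v (gU l u t a) = 1) →
      IndV v (range fun a => gU l u t a / π ^ gW l f a) (D.dm + D.k - oc o - 1) →
        ∀ s, nu v u (some s) = f s * log (v π) - if s = l.1 then log (v lam) else 0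

/-- Curves with prescribed degrees. -/
def St_CURV : Prop := ∀ (D : Dat) (F : D.Fm), Gen F → ∀ (l : D.I0) (o : Option (Fin D.m))
  (f : D.Λ), Valid l o f → f ≠ 0 → ∀ (κ : Type) [Field κ] [Algebra ℂ κ] (u : D.Vr → κ) (lam : κ)
    (t : D.I1 → κ), Pt0 F l o u lam t → ∃ (L : Type) (_ : Field L) (_ : Algebra ℂ L)
      (j : κ →ₐ[ℂ] L) (C : Crv L) (c : ℤ), 0 < c ∧
        ∀ s, (C.deg fun p => j (u (.inr ⟨s, p⟩))) = f s * c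

/-- The inequalities. -/
def St_INEQ : Prop := ∀ (D : Dat) (F : D.Fm), Gen F → ∀ (K : Type) [Field K] [Algebra ℂ K]
  (M : Mod F K) (l : D.I0) (u : D.Vr → K) (lam : K), M.Lv l u lam → ∀ o f, Valid l o f →
    ∀ W ξ, 0 ≤ W → M.Cls W ξ → (o = none ∨ ∃ j E, o = some j ∧ 0 < M.LD u j E ∧ W E = 0) →
      0 ≤ pr f ξ

/-! ### The end -/

/-- Numerical classes. -/
def St_ENDA : Prop := ∀ (D : Dat) (F : D.Fm) (K : Type) [Field K] [Algebra ℂ K] (M : Mod F K),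
  M.Lef → Pos M.Ef → Function.Bijective M.cl ∧
    (∀ φ e, Ps φ e → ∀ W ξ, M.Cls W ξ →
      nc M.Γ M.sm.fac (push e W) = ∑ s, ξ s • nc M.Γ M.sm.fac (push e (M.st s))) ∧
    ∀ W ξ, M.Cls W ξ → ∃ (N : ℕ) (γ : D.Λ), 0 < N ∧ (N : ℝ) • ξ = cst γ

/-- Pull-back maps. -/
def St_ENDP : Prop := ∀ (D : Dat) (F : D.Fm) (K : Type) [Field K] [Algebra ℂ K] (M : Mod F K),
  M.Lef → Pos M.Ef → ∀ e c, M.Act e c →
    ∃ φ L, M.Γ.IsPull φ L ∧ ∀ ξ, L (M.cl ξ) = M.cl (lin c ξ)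

/-- The cone theorem for a model. -/
def St_END : Prop := ∀ (D : Dat) (F : D.Fm) (K : Type) [Field K] [Algebra ℂ K] (M : Mod F K),
  M.Inp → End.Cone M.Γ

end Pool.Agent.Lib.CI
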