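import Pool.Agent.Lib.CI.BlueA

open MvPolynomial Set Matrix WithZero Pool.Agent.Lib.MP_e39d36_ag Pool.Agent.Lib.MP_e39d36_ag.Var
  Pool.Agent.Lib.MP_cc3443_ag Pool.Agent.Lib.MV Pool.Agent.Lib.MV.End Pool.Agent.Lib.MV.Fb
  Pool.Agent.Lib.DU

set_option linter.unusedSectionVars false
set_option linter.unusedVariables false

noncomputable section

namespace Pool.Agent.Lib.CI

open Pool.Agent.Lib.CI.Dat
open Pool.Agent.Lib.MV.G3 (acl Ov)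

namespace CH

variable {D : Dat}

section ring

variable {K : Type} [Field K] [Algebra ℂ K] {x : D.Hx → K} {τ τ' : D.Ch} {A A' : Finset D.Hx}
  {γ γ' : D.Λ} {T : Subring K} {z : K}

lemma rat_mem (τ : D.Ch) (a : D.Hx) : D.rat x τ a ∈ D.B x τ := Algebra.subset_adjoin ⟨a, rfl⟩

lemma div_mem_B (s : Fin D.k) (p : Fin (D.n s + 1)) : x ⟨s, p⟩ / x ⟨s, τ s⟩ ∈ D.B x τ :=
  rat_mem τ ⟨s, p⟩

lemma mem_B_iff : z ∈ D.B x τ ↔ ∃ P : MvPolynomial D.Hx ℂ, aeval (D.rat x τ) P = z := by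
  rw [Dat.B, Algebra.adjoin_range_eq_range_aeval]; rfl

lemma div_mem_Bs {s : Fin D.k} {q : Fin (D.n s + 1)} (h : (⟨s, q⟩ : D.Hx) ∈ A)
    (p : Fin (D.n s + 1)) : x ⟨s, p⟩ / x ⟨s, q⟩ ∈ Bs x A :=
  Algebra.subset_adjoin ⟨⟨s, q⟩, h, p, rfl⟩

lemma Bs_mono (h : A ⊆ A') : Bs x A ≤ Bs x A' :=
  Algebra.adjoin_mono fun _ ⟨t, ht, h'⟩ => ⟨t, h ht, h'⟩

lemma B_le_Bs (h : ∀ s, (⟨s, τ s⟩ : D.Hx) ∈ A) : D.B x τ ≤ Bs x A :=
  Algebra.adjoin_le (by rintro _ ⟨⟨s, p⟩, rfl⟩; exact div_mem_Bs (h s) p)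

lemma Bs_image : Bs x (Finset.univ.image fun s => (⟨s, τ s⟩ : D.Hx)) = D.B x τ :=
  le_antisymm (Algebra.adjoin_le (by
    rintro _ ⟨t, ht, p, rfl⟩
    obtain ⟨s, -, rfl⟩ := Finset.mem_image.1 ht
    exact div_mem_B s p)) (B_le_Bs fun s => Finset.mem_image_of_mem _ (Finset.mem_univ s))

lemma Ms_mono : Monotone (Ms x γ) := fun s s' h =>
  AddSubgroup.closure_mono fun _ ⟨τ, h1, h2⟩ => ⟨τ, fun μ => h (h1 μ), Bs_mono h h2⟩

lemma Ms_bot (h : ¬∃ τ : D.Ch, ∀ s, (⟨s, τ s⟩ : D.Hx) ∈ A) : Ms x γ A = ⊥ :=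
  le_bot_iff.1 ((AddSubgroup.closure_le ⊥).2 fun _ ⟨τ, h1, _⟩ => (h ⟨τ, h1⟩).elim)

omit [Algebra ℂ K] in
lemma gen_neg : gen x (-γ) τ = (gen x γ τ)⁻¹ := by simp [Dat.gen]

omit [Algebra ℂ K] in
lemma gen_single (s : Fin D.k) : gen x (Pi.single s 1) τ = x ⟨s, τ s⟩ := by
  rw [Dat.gen, Finset.prod_eq_single s (fun j _ hj => by simp [hj]) (by simp)]
  simp

omit [Algebra ℂ K] in
lemma gen_dd (j : Fin D.m) : gen x (dd j) τ = ∏ s, x ⟨s, τ s⟩ ^ D.d j s := by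
  simp [Dat.gen, Dat.dd]

variable (hy : ∀ a, x a ≠ 0)
include hy

omit [Algebra ℂ K] in
lemma gen_ne : gen x γ τ ≠ 0 := Finset.prod_ne_zero_iff.2 fun _ _ => zpow_ne_zero _ (hy _)

omit [Algebra ℂ K] in
lemma gen_add : gen x (γ + γ') τ = gen x γ τ * gen x γ' τ := by
  simp [Dat.gen, zpow_add₀ (hy _), Finset.prod_mul_distrib]

lemma un_div_Bs {s : Fin D.k} {p q : Fin (D.n s + 1)} (hq : (⟨s, q⟩ : D.Hx) ∈ A)
    (hp : (⟨s, p⟩ : D.Hx) ∈ A) : Un (Bs x A).toSubring (x ⟨s, p⟩ / x ⟨s, q⟩) :=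
  ⟨div_ne_zero (hy _) (hy _), div_mem_Bs hq p, by rw [inv_div]; exact div_mem_Bs hp q⟩

lemma un_gen (h : ∀ s, (⟨s, τ s⟩ : D.Hx) ∈ A) (h' : ∀ s, (⟨s, τ' s⟩ : D.Hx) ∈ A) :
    Un (Bs x A).toSubring (gen x γ τ' / gen x γ τ) := by
  rw [Dat.gen, Dat.gen, ← Finset.prod_div_distrib]
  exact Un.prod fun s _ => by rw [← div_zpow]; exact un_zpow (un_div_Bs hy (h s) (h' s)) _

lemma mem_Ms (h : ∀ s, (⟨s, τ s⟩ : D.Hx) ∈ A) : z ∈ Ms x γ A ↔ z / gen x γ τ ∈ Bs x A := by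
  refine ⟨fun hz => ?_, fun hz => AddSubgroup.subset_closure ⟨τ, h, hz⟩⟩
  induction hz using AddSubgroup.closure_induction with
  | mem z hz =>
    obtain ⟨τ', h1, h2⟩ := hz
    have := mul_mem h2 (un_gen hy h h1 (γ := γ)).2.1
    rwa [div_mul_div_cancel₀ (gen_ne hy)] at this
  | zero => simp
  | add a b _ _ ha hb => rw [add_div]; exact add_mem ha hb
  | neg a _ ha => rw [neg_div]; exact neg_mem ha

lemma B_le_of_un (h : (D.B x τ).toSubring ≤ T) (hu : ∀ s, Un T (x ⟨s, τ' s⟩ / x ⟨s, τ s⟩)) :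
    (D.B x τ').toSubring ≤ T := by
  let T' : Subalgebra ℂ K := { T with algebraMap_mem' := fun c => h ((D.B x τ).algebraMap_mem c) }
  refine (Algebra.adjoin_le (S := T') ?_ :)
  rintro _ ⟨t, rfl⟩
  have := (hu t.1).div_mem (h (rat_mem τ t))
  rwa [Dat.rat, div_div_div_cancel_right₀ (hy _)] at this

lemma un_of_B_le (h : (D.B x τ).toSubring ≤ T) (h' : (D.B x τ').toSubring ≤ T) (s : Fin D.k) :
    Un T (x ⟨s, τ' s⟩ / x ⟨s, τ s⟩) :=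
  ⟨div_ne_zero (hy _) (hy _), h (div_mem_B _ _), by rw [inv_div]; exact h' (div_mem_B _ _)⟩

lemma locOf_Bs (h : ∀ s, (⟨s, τ s⟩ : D.Hx) ∈ A) : LocOf (D.B x τ).toSubring (Bs x A).toSubring := by
  refine ⟨B_le_Bs h, fun z hz => ?_⟩
  let T' : Subalgebra ℂ K := { loc (D.B x τ).toSubring (Bs x A).toSubring with
    algebraMap_mem' := fun c => locOf_loc.1 ((D.B x τ).algebraMap_mem c) }
  refine (Algebra.adjoin_le (S := T') ?_ : Bs x A ≤ T') hz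
  rintro _ ⟨⟨s, q⟩, ht, p, rfl⟩
  refine ⟨_, div_mem_B s q, un_div_Bs hy (h _) ht, ?_⟩
  rw [mul_comm, div_mul_div_cancel₀ (hy _)]
  exact div_mem_B s p

lemma rat_F (h : St_PI) {F : D.Fm} (hF : D.Hom F) (τ : D.Ch) (j : Fin D.m) :
    aeval (D.rat x τ) (F j) = aeval x (F j) / gen x (dd j) τ ∧ ∀ a,
      aeval (D.rat x τ) (pderiv a (F j)) =
        aeval x (pderiv a (F j)) * x ⟨a.1, τ a.1⟩ / gen x (dd j) τ := by
  have e : D.rat x τ = fun a => (x ⟨a.1, τ a.1⟩)⁻¹ * x a := funext fun a => div_eq_inv_mul _ _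
  have e2 : ∏ s, (x ⟨s, τ s⟩)⁻¹ ^ D.d j s = (gen x (dd j) τ)⁻¹ := by
    simp [gen_dd]
  refine ⟨?_, fun a => ?_⟩
  · rw [e, h.scal hF x (fun s => (x ⟨s, τ s⟩)⁻¹), e2, div_eq_inv_mul]
  · have := h.scald hF x (fun s => (x ⟨s, τ s⟩)⁻¹) j a
    rw [e2, ← e, mul_inv_eq_iff_eq_mul₀ (hy _)] at this
    rw [this, div_eq_inv_mul, mul_assoc]

end ring

section mod

variable {F : D.Fm} {K : Type} [Field K] [Algebra ℂ K] (M : Mod F K) {τ : D.Ch} {T : Subring K}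
  {A : Finset D.Hx} {z : M.X.Pt}

lemma locOf (h : (D.B M.x τ).toSubring ≤ M.X.O z) : LocOf (D.B M.x τ).toSubring (M.X.O z) := by
  obtain ⟨τ', h'⟩ := M.hyp.2.1 z
  have h1 : (D.B M.x τ').toSubring ≤ loc (D.B M.x τ).toSubring (M.X.O z) :=
    B_le_of_un M.hyp.1 locOf_loc.1 fun μ =>
      (dom_loc h).2 _ (locOf_loc.1 (div_mem_B _ _)) (un_of_B_le M.hyp.1 h h'.1 μ)
  have h2 := h'.le h1 fun b hb hu => (dom_loc h).2 b (h1 hb) hu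
  exact ⟨h, fun w hw => h2 hw⟩

lemma exists_ctr (hT : IsLoc T) (h : (D.B M.x τ).toSubring ≤ T) :
    ∃ z, Dom (M.X.O z) T ∧ LocOf (D.B M.x τ).toSubring (M.X.O z) := by
  obtain ⟨V, hV⟩ := hT.exists_val
  obtain ⟨z, hz⟩ := M.X.exists_ctr_val V fun c => hV.1 (h ((D.B M.x τ).algebraMap_mem c))
  obtain ⟨τ', h'⟩ := M.hyp.2.1 z
  have h1 := locOf M (B_le_of_un M.hyp.1 h'.1 fun μ => hz.2 _ (h'.1 (div_mem_B _ _))
    (un_of_B_le M.hyp.1 (h'.1.trans hz.1) (h.trans hV.1) μ))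
  refine ⟨z, ?_, h1⟩
  have h2 := h1.le h fun b hb hu => hV.2 b (h hb) (hu.mono hz.1)
  exact ⟨h2, fun w hw hu => hz.2 w hw (hu.mono hV.1)⟩

lemma pt (hT : IsLoc T) (h : LocOf (D.B M.x τ).toSubring T) : ∃ z, M.X.O z = T := by
  obtain ⟨z, h1, h2⟩ := exists_ctr M hT h.1
  exact ⟨z, (h2.eq_loc h1).trans (h.eq_loc Dom.refl).symm⟩

lemma pt_Bs (hs : ∀ s, (⟨s, τ s⟩ : D.Hx) ∈ A) (hT : IsLoc T)
    (h : LocOf (Bs M.x A).toSubring T) : ∃ z, M.X.O z = T :=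
  pt M hT ((locOf_Bs M.hyp.1 hs).trans h)

lemma locOf_Bs' (hs : ∀ s, (⟨s, τ s⟩ : D.Hx) ∈ A) (h : (Bs M.x A).toSubring ≤ M.X.O z) :
    LocOf (Bs M.x A).toSubring (M.X.O z) :=
  (locOf M ((show (D.B M.x τ).toSubring ≤ _ from B_le_Bs hs).trans h)).of_le (B_le_Bs hs) h

lemma mem_Bs (hs : ∀ s, (⟨s, τ s⟩ : D.Hx) ∈ A) {w : K}
    (h : ∀ E : M.X.PD, (Bs M.x A).toSubring ≤ M.X.O E.1 → val E w ≤ 1) : w ∈ Bs M.x A :=
  mem_of_loc (B := (Bs M.x A).toSubring) fun T h1 h2 => by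
    obtain ⟨z, rfl⟩ := pt_Bs M hs h1 h2
    exact hartogs fun E hE => ord_nonneg (((isV E).2 w).2 (h E (h2.1.trans hE)))

lemma frac (τ : D.Ch) (w : K) : ∃ b ∈ D.B M.x τ, b ≠ 0 ∧ b * w ∈ D.B M.x τ := by
  obtain ⟨z, hz⟩ := M.X.exists_top
  obtain ⟨b, h1, h2, h3⟩ := (locOf M (τ := τ) (hz ▸ le_top)).2 w (hz ▸ trivial)
  exact ⟨b, h1, h2.1, h3⟩

lemma top (τ : D.Ch) : IntermediateField.adjoin ℂ (range (D.rat M.x τ)) = ⊤ := by
  refine eq_top_iff.2 fun w _ => ?_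
  obtain ⟨b, h1, h2, h3⟩ := frac M τ w
  have h4 : D.B M.x τ ≤ _ := IntermediateField.algebra_adjoin_le_adjoin ℂ (range (D.rat M.x τ))
  have := div_mem (show b * w ∈ IntermediateField.adjoin ℂ (range (D.rat M.x τ)) from h4 h3)
    (show b ∈ IntermediateField.adjoin ℂ (range (D.rat M.x τ)) from h4 h1)
  rwa [mul_div_cancel_left₀ _ h2] at this

lemma st_apply {E : M.X.PD} (h : (D.B M.x τ).toSubring ≤ M.X.O E.1) (s : Fin D.k) :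
    M.st s E = -M.X.ord (M.x ⟨s, τ s⟩) E.1 := by
  rw [Mod.st, sd_apply, ord_log, neg_neg]
  refine congrArg _ (le_antisymm (nm_le.2 fun i => ?_) (le_nm (fun p => M.x ⟨s, p⟩) (τ s)))
  have := ((isV E).2 _).1 (h (div_mem_B s i))
  rwa [map_div₀, div_le_one₀ (zero_lt_iff.2 ((val E).ne_zero_iff.2 (M.hyp.1 _)))] at this

lemma locEq_st (h : (D.B M.x τ).toSubring ≤ M.X.O z) (s : Fin D.k) :
    LocEq (M.st s) z (M.x ⟨s, τ s⟩)⁻¹ :=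
  .mk' (inv_ne_zero (M.hyp.1 _)) fun E hE => by
    rw [st_apply M (h.trans hE), ord_val, ord_val, od_inv]

lemma mov_st (s : Fin D.k) : Mov (M.st s) := fun E => by
  obtain ⟨τ, h⟩ := M.hyp.2.1 E.1
  refine ⟨_, M.hyp.1 ⟨s, τ s⟩, fun E' => ?_, by rw [st_apply M h.1 s, neg_add_cancel]⟩
  obtain ⟨τ', h'⟩ := M.hyp.2.1 E'.1
  have := ord_nonneg (h'.1 (div_mem_B s (τ s)))
  rw [ord_div (M.hyp.1 _) (M.hyp.1 _)] at this
  rw [st_apply M h'.1]; omega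

lemma std_smul (c : ℤ) (γ : D.Λ) : M.std (c • γ) = c • M.std γ := by
  simp [Mod.std, Finset.smul_sum, smul_smul]

lemma std_add (γ γ' : D.Λ) : M.std (γ + γ') = M.std γ + M.std γ' := by
  simp [Mod.std, add_smul, Finset.sum_add_distrib]

lemma std_sum (γ : D.Λ) (c : Fin D.k → D.Λ) : M.std (∑ s, γ s • c s) = ∑ s, γ s • M.std (c s) := by
  simp only [Mod.std, Finset.sum_apply, Pi.smul_apply, Finset.sum_smul, Finset.smul_sum, smul_smul,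
    smul_eq_mul]
  exact Finset.sum_comm

end mod

end CH

theorem st_CH (h : St_PI) : St_CH where
  ne M := M.hyp.1
  mem_iff x τ z := CH.mem_B_iff
  bs x := ⟨fun _ _ => CH.Bs_mono, fun _ _ => CH.B_le_Bs, fun _ => CH.Bs_image, fun _ => CH.Ms_mono⟩
  gen x hx τ := ⟨fun _ => CH.gen_ne hx, fun _ _ => CH.gen_add hx, fun _ => CH.gen_neg,
    CH.gen_single⟩
  mem_Ms x hx γ A z := ⟨fun τ hτ => CH.mem_Ms hx hτ, fun h1 h2 => by
    rwa [CH.Ms_bot h1, AddSubgroup.mem_bot] at h2⟩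
  locBs x hx A τ hτ := CH.locOf_Bs hx hτ
  rat_F hF K _ _ x hx τ j := CH.rat_F hx h hF τ j
  cfg := fun {D F} hF K _ _ M => by
    have h1 : ∀ j, aeval M.x (F j) = 0 := fun j => by
      have h2 := (M.hyp.2.2 (fun _ => 0) (F j)).2 (Ideal.subset_span (Or.inl ⟨j, rfl⟩))
      rw [(CH.rat_F M.hyp.1 h hF _ j).1, div_eq_zero_iff] at h2
      exact h2.resolve_right (CH.gen_ne M.hyp.1)
    obtain ⟨s₀, hs⟩ := D.small
    have h3 : N1 M.u := fun σ => by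
      rcases σ with _ | s
      · exact ⟨.inl ⟨0, by omega⟩, rfl, rfl⟩
      · exact ⟨.inr ⟨s, 0⟩, rfl, M.one s⟩
    refine ⟨h1, ⟨fun σ => (h3 σ).imp fun a (ha : _ ∧ _) =>
      ⟨ha.1, by rw [ha.2]; exact one_ne_zero⟩, fun p => ?_⟩, h3⟩
    exact (h.d_inl F M.u p).trans (h1 p)
  locOf M τ z := CH.locOf M
  pt M τ T := CH.pt M
  ctr M τ T := CH.exists_ctr M
  ptBs M A τ hτ := ⟨fun T => CH.pt_Bs M hτ, fun z => CH.locOf_Bs' M hτ, fun w => CH.mem_Bs M hτ⟩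
  frac := CH.frac
  top := CH.top
  st_apply M τ E := CH.st_apply M
  locEq M τ z := CH.locEq_st M
  mov := CH.mov_st
  std M := by
    refine ⟨CH.std_add M, fun γ γ' => ?_, CH.std_smul M, fun s => ?_, fun γ => ?_,
      fun e c ⟨⟨φ, hφ⟩, hc⟩ γ => ?_⟩
    · simp [Mod.std, sub_smul, Finset.sum_sub_distrib]
    · rw [Mod.std, Finset.sum_eq_single s (fun j _ hj => by simp [hj]) (by simp)]
      simp
    · simp only [Mod.Cls, Mod.std, Mod.cl, map_sum, map_zsmul, Fintype.linearCombination_apply, cst,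
        Int.cast_smul_eq_zsmul]
    · rw [CH.std_sum, Mod.std, map_sum]
      exact LE.sum fun s _ => by rw [map_zsmul]; exact (hc s).zsmul _

end Pool.Agent.Lib.CI
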