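import Pool.Agent.Lib.CI.BlueB

open MvPolynomial Set Matrix WithZero Pool.Agent.Lib.MP_e39d36_ag Pool.Agent.Lib.MP_e39d36_ag.Var
  Pool.Agent.Lib.MP_cc3443_ag Pool.Agent.Lib.MV Pool.Agent.Lib.MV.End Pool.Agent.Lib.MV.Fb
  Pool.Agent.Lib.DU

set_option linter.unusedSectionVars false
set_option linter.unusedVariables false

noncomputable section

namespace Pool.Agent.Lib.CI

open Pool.Agent.Lib.CI.Dat
open Pool.Agent.Lib.MV.G3 (acl Ov)

namespace CONE_

variable {D : Dat} {Ω : Type} [Field Ω] [Algebra ℂ Ω]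

lemma mem_off {τ : D.Ty} {a : D.Vr} : a ∈ off τ ↔ sl a ≠ ts τ := by simp [off]

lemma chi_mem {ρ : D.Sl → Ω} {k : IntermediateField ℂ Ω} (h : ∀ σ, ρ σ ∈ k) (a : D.Vr) :
    ∏ σ, ρ σ ^ wt a σ ∈ k := prod_mem fun σ _ => zpow_mem (h σ) _

/-- The torus element is recovered from the scaled configuration. -/
lemma rho_mem (l : D.I0) {ρ : D.Sl → Ω} {w : D.Vr → Ω} {k : IntermediateField ℂ Ω}
    (h0 : ∀ σ, ρ σ ≠ 0) (h1 : ρ (some l.1) = 1) (hw : N1 w)
    (hk : ∀ a ∈ off (some l), sc ρ w a ∈ k) (σ : D.Sl) : ρ σ ∈ k := by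
  have hs : ∀ s, ρ (some s) ∈ k := fun s => by
    by_cases h : s = l.1
    · rw [h, h1]; exact one_mem _
    obtain ⟨a, ha, hu⟩ := hw (some s)
    have h2 := hk a (mem_off.2 (by rw [ha]; exact fun e => h (Option.some.inj e)))
    cases a with
    | inl j => exact absurd ha (by simp [sl])
    | inr a =>
      obtain rfl : a.1 = s := Option.some.inj ha
      have h3 : sc ρ w (.inr a) = ρ (some a.1) := by
        rw [sc, hu, one_mul, Finset.prod_eq_single (some a.1)]
        · simp [Dat.wt]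
        · intro σ _ hσ
          simp [Dat.wt, hσ]
        · simp
      exact h3 ▸ h2
  cases σ with
  | some s => exact hs s
  | none =>
    obtain ⟨a, ha, hu⟩ := hw none
    have h2 := hk a (mem_off.2 (by rw [ha]; simp [ts]))
    cases a with
    | inr a => exact absurd ha (by simp [sl])
    | inl j =>
      have h3 : ρ none = sc ρ w (.inl j) / ∏ s, ρ (some s) ^ wt (.inl j) (some s) := by
        rw [sc, hu, one_mul, Fintype.prod_option,
          mul_div_cancel_right₀ _ (Finset.prod_ne_zero_iff.2 fun s _ => zpow_ne_zero _ (h0 _))]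
        simp [Dat.wt]
      rw [h3]
      exact div_mem h2 (prod_mem fun s _ => zpow_mem (hs s) _)

end CONE_

open CONE_ in
theorem st_CONE (T : Tools) (hF2 : St_F2) : St_CONE := by
  intro D F hF l κ _ _ u lam hd hN hg
  classical
  let V := {σ : D.Sl // σ ≠ some l.1}
  let Ω := FractionRing (MvPolynomial V κ)
  let ι : κ →ₐ[ℂ] Ω := IsScalarTower.toAlgHom ℂ κ Ω
  let Y : V → Ω := fun a => algebraMap (MvPolynomial V κ) Ω (X a)
  let ρ : D.Sl → Ω := fun σ => if h : σ = some l.1 then 1 else Y ⟨σ, h⟩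
  have hY : ∀ a : V, ρ a.1 = Y a := fun a => dif_neg a.2
  have h1 : ρ (some l.1) = 1 := dif_pos rfl
  have h0 : ∀ σ, ρ σ ≠ 0 := fun σ => by
    by_cases h : σ = some l.1
    · rw [h, h1]; exact one_ne_zero
    · rw [hY ⟨σ, h⟩]
      exact (map_ne_zero_iff _ (IsFractionRing.injective _ _)).2 (X_ne_zero _)
  have hN' : N1 (ι ∘ u) := fun σ => (hN σ).imp fun a ha => ⟨ha.1, by simp [ha.2]⟩
  set S' := sc ρ (ι ∘ u) '' off (some l) with hS'
  have hk : ∀ a ∈ off (some l), sc ρ (ι ∘ u) a ∈ IntermediateField.adjoin ℂ S' := fun a ha =>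
    IntermediateField.subset_adjoin _ _ (mem_image_of_mem _ ha)
  have hρ := rho_mem l h0 h1 hN' hk
  have hu : ∀ a ∈ off (some l), ι (u a) ∈ IntermediateField.adjoin ℂ S' := fun a ha => by
    have e : ι (u a) = sc ρ (ι ∘ u) a / ∏ σ, ρ σ ^ wt a σ := by
      rw [sc, mul_div_cancel_right₀ _ (Finset.prod_ne_zero_iff.2 fun s _ => zpow_ne_zero _ (h0 _))]
      rfl
    rw [e]
    exact div_mem (hk a ha) (chi_mem hρ a)
  have hκ : ∀ c : κ, ι c ∈ IntermediateField.adjoin ℂ S' := fun c => by
    have h2 := (hF2 D F hF none (some l) (by simp) κ u lam hd).2.2.1 hN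
      ((IntermediateField.adjoin ℂ S').comap ι) fun a _ ha => hu a (mem_off.2 ha)
    have h3 : IntermediateField.adjoin ℂ (range u) ≤ (IntermediateField.adjoin ℂ S').comap ι :=
      IntermediateField.adjoin_le_iff.2 (range_subset_iff.2 h2)
    exact h3 (hg ▸ IntermediateField.mem_top)
  have hp : ∀ P : MvPolynomial V κ,
      algebraMap (MvPolynomial V κ) Ω P ∈ IntermediateField.adjoin ℂ S' := fun P => by
    induction P using MvPolynomial.induction_on with
    | C c => exact hκ c
    | add p q hp hq => rw [map_add]; exact add_mem hp hq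
    | mul_X p a hp => rw [map_mul]; exact mul_mem hp (by have := hρ a.1; rwa [hY] at this)
  have ht : IntermediateField.adjoin ℂ S' = ⊤ := eq_top_iff.2 fun z _ => by
    obtain ⟨a, b, -, rfl⟩ := IsFractionRing.div_surjective (A := MvPolynomial V κ) z
    exact div_mem (hp a) (hp b)
  have hf : (u '' off (some l)).Finite := (Finset.finite_toSet _).image _
  have hf' : S'.Finite := (Finset.finite_toSet _).image _
  refine ⟨Ω, inferInstance, inferInstance, ι, ρ, (off (some l)).image (sc ρ (ι ∘ u)), h0, ?_,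
    fun z => T.rk.adj S' (ht ▸ IntermediateField.mem_top), ?_⟩
  · rw [Finset.coe_image]; exact ht
  have hc : (Finset.univ : Finset V).card = D.k := by
    rw [Finset.card_univ, Fintype.card_subtype_compl, Fintype.card_option, Fintype.card_fin,
      Fintype.card_subtype_eq]
    rfl
  rw [← hc, ← T.rk.indet (u '' off (some l)) (Finset.univ : Finset V) hf]
  set S := algebraMap κ Ω '' (u '' off (some l)) ∪ Y '' (Finset.univ : Finset V) with hS
  have hfS : S.Finite := (hf.image _).union ((Finset.finite_toSet _).image _)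
  refine le_antisymm (T.rk.le hfS ?_)
    (T.rk.le hf' fun z _ => T.rk.adj S' (ht ▸ IntermediateField.mem_top))
  rintro _ ⟨a, ha, rfl⟩
  refine T.rk.adj S (mul_mem (IntermediateField.subset_adjoin _ _
    (Or.inl ⟨_, mem_image_of_mem _ ha, rfl⟩)) (chi_mem (fun σ => ?_) a))
  by_cases h : σ = some l.1
  · rw [h, h1]; exact one_mem _
  · rw [hY ⟨σ, h⟩]
    exact IntermediateField.subset_adjoin _ _ (Or.inr ⟨_, Finset.mem_coe.2 (Finset.mem_univ _), rfl⟩)

end Pool.Agent.Lib.CI
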