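import Pool.Agent.Lib.CI.LDefs

/-! Coordinates of the moves. -/

set_option autoImplicit false

namespace Pool.Agent.Lib.CI

open Dat

namespace CRD

variable {D : Dat}

lemma lin_sub (c : Fin D.k → D.Λ) (x : D.V) (t : Fin D.k) :
    lin c x t = x t + ∑ s, x s * ((c s t : ℝ) - if t = s then 1 else 0) := by
  simp [lin_apply, mul_sub, Finset.sum_sub_distrib]

lemma lin_one {c : Fin D.k → D.Λ} {a : Fin D.k} (h : ∀ s, s ≠ a → c s = Pi.single s 1) (x : D.V)
    (t : Fin D.k) : lin c x t = x t + x a * ((c a t : ℝ) - if t = a then 1 else 0) := by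
  rw [lin_sub, Finset.sum_eq_single a (fun s _ hs => by simp [h s hs, Pi.single_apply]) (by simp)]

lemma lin_two {c : Fin D.k → D.Λ} {a b : Fin D.k} (hab : a ≠ b)
    (h : ∀ s, s ≠ a → s ≠ b → c s = Pi.single s 1) (x : D.V) (t : Fin D.k) :
    lin c x t = x t + (x a * ((c a t : ℝ) - if t = a then 1 else 0) +
      x b * ((c b t : ℝ) - if t = b then 1 else 0)) := by
  rw [lin_sub, Fintype.sum_eq_add a b hab fun s hs => by simp [h s hs.1 hs.2, Pi.single_apply]]

lemma sum_aa (t : Fin D.k) :
    ∑ j, (aa j : D.Λ) t = if D.n t + 1 = D.m then 0 else (D.n t : ℤ) + 1 := by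
  simp only [aa, aW]
  split_ifs with h
  · simp
  · exact_mod_cast D.cy t

lemma aa_eq (j : Fin D.m) (t : Fin D.k) :
    (aa j : D.Λ) t = if D.n t + 1 = D.m then 0 else (D.d j t : ℤ) := by
  simp only [aa, aW]
  split_ifs <;> simp

end CRD

open CRD in
theorem st_CRD : St_CRD := by
  intro D x
  refine ⟨fun i t => ?_, fun l l' hl t => ?_, fun hm l i t => ?_⟩
  · rw [lin_one (a := i.1) fun s hs => by simp [scol, hs]]
    by_cases h : t = i.1
    · simp [scol, h]
      ring
    · simp [scol, h]
      ring
  · have hne : l.1 ≠ l'.1 := fun e => hl (Subtype.ext e)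
    have h1 := l.2
    have h2 := l'.2
    rw [lin_two hne.symm fun s h h' => by simp [gcol, h, h']]
    simp only [gcol, if_true, if_neg hne, hst, zeta, hs, Pi.add_apply, Pi.sub_apply, Pi.smul_apply,
      Finset.sum_apply, sum_aa, Pi.single_apply, smul_eq_mul, Finset.mem_insert,
      Finset.mem_singleton]
    by_cases h : t = l'.1
    · simp [h, h2, hne.symm]
      ring
    by_cases h' : t = l.1
    · simp [h', h1, hne]
      ring
    by_cases h3 : D.n t + 1 = D.m
    · simp [h, h', h3]
      ring
    · simp [h, h', h3]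
      ring
  · have h1 := l.2
    have h2 := i.2
    have hne : l.1 ≠ i.1 := fun e => by rw [e] at h1; omega
    have h4 : ¬ D.n i.1 + 1 = D.m := by omega
    have h5 : (D.m : ℝ) = 2 := by exact_mod_cast hm
    rw [lin_two hne.symm fun s h h' => by simp [icol, h, h']]
    simp only [icol, if_true, if_neg hne, iH, Lam, kap, alp, zeta, hs, Pi.add_apply, Pi.sub_apply,
      Pi.smul_apply, Finset.sum_apply, sum_aa, Pi.single_apply, smul_eq_mul, Finset.mem_singleton]
    simp only [aa_eq]
    by_cases h : t = i.1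
    · have h6 : (D.n i.1 : ℝ) = 2 := by exact_mod_cast h2.trans hm
      simp [h, h4, hne.symm, d_jj, h6]
      ring
    by_cases h' : t = l.1
    · simp [h', h1, hne]
      ring
    by_cases h3 : D.n t + 1 = D.m
    · have h6 : D.n t = 1 := by omega
      simp only [if_neg h, if_neg h', if_pos h3, if_pos h6, if_pos (And.intro h3 h')]
      push_cast
      rw [h5]
      ring
    · have h6 : ¬ D.n t = 1 := by omega
      simp [h, h', h3, h6]
      ring

end Pool.Agent.Lib.CI
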