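import Pool.Agent.Lib.CI.BlueB
import Pool.Agent.Lib.MP_e39d36_ag.Fund

open MvPolynomial Set Matrix WithZero Pool.Agent.Lib.MP_e39d36_ag Pool.Agent.Lib.MP_e39d36_ag.Var
  Pool.Agent.Lib.MP_cc3443_ag Pool.Agent.Lib.MV Pool.Agent.Lib.MV.End Pool.Agent.Lib.MV.Fb
  Pool.Agent.Lib.DU

set_option linter.unusedSectionVars false
set_option linter.unusedVariables false

noncomputable section

namespace Pool.Agent.Lib.CI

open Pool.Agent.Lib.CI.Dat
open Pool.Agent.Lib.MV.G3 (acl Ov)

namespace CRV

variable {L : Type} [Field L] [Algebra ℂ L] (C : Crv L)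

theorem one (g : L) : (Function.HasFiniteSupport fun P => log (C.v P g)) ∧
    ∑ᶠ P, log (C.v P g) = 0 := by
  obtain ⟨L', _, _, _, j, e, -, h⟩ := C.tw ∅
  have h1 : ∀ P, log (C.v (e P) g) = -P.ord (j g) := fun P => by rw [← h, Place.ord, neg_neg]
  constructor
  · refine ((Place.finite_ord (j g)).image e).subset fun P hP => ?_
    refine ⟨e.symm P, fun h0 => hP ?_, e.apply_symm_apply P⟩
    have h2 := h1 (e.symm P)
    rwa [e.apply_symm_apply, h0, neg_zero] at h2
  · rw [← finsum_comp_equiv e, finsum_congr h1, finsum_neg_distrib, prod_formula, neg_zero]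

theorem fin {J : Type} [Fintype J] (y : J → L) :
    Function.HasFiniteSupport fun P => log (nm (C.v P) y) := by
  refine (Set.finite_iUnion fun l => (one C (y l)).1).subset fun P hP => ?_
  rcases isEmpty_or_nonempty J with h | h
  · exact absurd (by simp [nm]) hP
  · obtain ⟨l, hl⟩ := exists_nm (v := C.v P) y
    exact mem_iUnion.2 ⟨l, by rwa [Function.mem_support, ← hl]⟩

theorem smul {J : Type} [Fintype J] (y : J → L) {a : L} (ha : a ≠ 0) :
    C.deg (a • y) = C.deg y := by
  by_cases hy : y = 0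
  · rw [hy, smul_zero]
  have h : ∀ P, log (nm (C.v P) (a • y)) = log (C.v P a) + log (nm (C.v P) y) := fun P => by
    rw [nm_smul, log_mul ((Valuation.ne_zero_iff _).2 ha) (nm_ne hy)]
  rw [Crv.deg, finsum_congr h, finsum_add_distrib (one C a).1 (fin C y), (one C a).2, zero_add,
    Crv.deg]

end CRV

theorem st_CRV (T : Tools) : St_CRV := by
  intro L _ _ C
  refine ⟨fun J _ y => ⟨?_, fun a ha => CRV.smul C y ha⟩, fun J _ ι _ c y g h H => ?_⟩
  · by_cases hy : y = 0
    · simp [hy, Crv.deg, nm_eq_zero.2]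
    obtain ⟨l, hl⟩ := Function.ne_iff.1 hy
    rw [← CRV.smul C y (inv_ne_zero hl)]
    refine finsum_nonneg fun P => ?_
    have h1 := le_nm (v := C.v P) ((y l)⁻¹ • y) l
    rw [Pi.smul_apply, smul_eq_mul, inv_mul_cancel₀ hl, map_one] at h1
    simpa using (log_le_log one_ne_zero (zero_lt_one.trans_le h1).ne').2 h1
  · have h1 : ∀ j, Function.HasFiniteSupport fun P => c j * log (nm (C.v P) (y j)) := fun j =>
      (CRV.fin C (y j)).subset fun P hP h0 => hP (by simp only [h0, mul_zero])
    have h2 : ∀ P, h P = ∑ j, c j * log (nm (C.v P) (y j)) - log (C.v P g) := fun P => by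
      rw [H, add_sub_cancel_right]
    rw [finsum_congr h2, finsum_sub_distrib (Function.HasFiniteSupport.sum h1 _) (CRV.one C g).1,
      (CRV.one C g).2, sub_zero, ← sum_finsum_comm _ _ fun j _ => h1 j]
    exact Finset.sum_congr rfl fun j _ => mul_finsum _ _

end Pool.Agent.Lib.CI
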