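import Pool.Agent.Lib.CI.BlueB

open MvPolynomial Set Matrix WithZero Pool.Agent.Lib.MP_e39d36_ag Pool.Agent.Lib.MP_e39d36_ag.Var
  Pool.Agent.Lib.MP_cc3443_ag Pool.Agent.Lib.MV Pool.Agent.Lib.MV.End Pool.Agent.Lib.MV.Fb
  Pool.Agent.Lib.DU

set_option linter.unusedVariables false

noncomputable section

namespace Pool.Agent.Lib.CI

open Pool.Agent.Lib.CI.Dat
open Pool.Agent.Lib.MV.G3 (acl Ov)

namespace CURV

theorem ind_mono {Ω : Type} [Field Ω] [Algebra ℂ Ω] {v : Valuation Ω ℤᵐ⁰} {S : Set Ω} {e e' : ℕ}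
    (h : IndV v S e') (he : e ≤ e') : IndV v S e := by
  obtain ⟨a, h1, h2⟩ := h
  refine ⟨a ∘ Fin.castLE he, fun i => h1 _, fun P hP => ?_⟩
  rw [← aeval_rename]
  exact h2 _ fun h0 => hP (rename_injective _ (Fin.castLE_injective he) (by rw [h0, map_zero]))

theorem gU_map {D : Dat} {Ω L : Type} [Field Ω] [Algebra ℂ Ω] [Field L] [Algebra ℂ L]
    (j : Ω →ₐ[ℂ] L) (l : D.I0) (u : D.Vr → Ω) (t : D.I1 → Ω) (a : D.Vr ⊕ D.I1) :
    gU l (j ∘ u) (j ∘ t) a = j (gU l u t a) := by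
  rcases a with a | a
  · simp only [gU, Sum.elim_inl, Function.comp]
    split_ifs <;> simp
  · rfl

end CURV

open CURV in
theorem st_CURV (T : Tools) (hCONE : St_CONE) (hLIM : St_LIM) (hPLC : St_PLC) (hWGC : St_WGC)
    (hCRV : St_CRV) : St_CURV := by
  intro D F hF l o f hV hf κ _ _ u lam t P
  obtain ⟨Ω, _, _, ι, ρ, g, hρ, hg, hacl, hrk⟩ := hCONE D F hF.hom l κ u lam P.dbl P.n1 P.gen
  set u' := sc ρ (ι ∘ u) with hu'
  set t' : D.I1 → Ω := fun i => chi ρ (wT l i) * ι (t i) with ht'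
  have hd : Dbl F none (some l) u' (chi ρ (gam none (some l)) * ι lam) :=
    T.sc.dbl hF.hom none (some l) ρ _ _ (by simp) hρ ((T.mp.map F ι u).2.2.2.2.1 _ _ _ P.dbl)
  have hT : ∀ i, IsT F l i u' (t' i) := fun i =>
    T.sc.isT hF.hom l i ρ _ _ hρ ((T.mp.map F ι u).2.2.2.2.2.1 _ _ _ (P.isT i))
  have hz : ∀ j, u' (.inl j) = 0 ↔ o = some j := fun j => by
    rw [hu', T.sc.sc_zero ρ _ _ hρ, Function.comp, map_eq_zero, P.z]
  have h0 : ∀ i, o = some (jj i) → t' i ≠ 0 := fun i hi =>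
    mul_ne_zero (T.sc.chi_add ρ _ 0 hρ).2 ((map_ne_zero ι).2 (P.t0 i hi))
  obtain ⟨⟨a₀, ha₀, ha₀'⟩, hlim⟩ := hLIM D F hF l o f hV hf Ω u' t' hd.nz hT hz h0
  have hsub : u' '' off (some l) ⊆ range (gU l u' t') := by
    rintro _ ⟨a, ha, rfl⟩
    exact ⟨.inl a, if_neg (Finset.mem_filter.1 ha).2⟩
  have h1 := T.rk.mono (finite_range _) hsub
  have h2 := P.rk
  have h3 := (T.sl.dm_add D).2.2
  have hfin : (gU l u' t' '' {a | gW l f a = 0}).Finite := (toFinite _).image _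
  have h4 : rk (insert (gU l u' t' a₀) (gU l u' t' '' {a | gW l f a = 0})) ≤
      rk (gU l u' t' '' {a | gW l f a = 0}) + 1 := by
    by_cases h : gU l u' t' a₀ ∈ acl (gU l u' t' '' {a | gW l f a = 0})
    · exact (T.rk.le hfin (insert_subset h (G3.subset_acl _))).trans (Nat.le_succ _)
    · exact (T.rk.ins hfin h).le
  obtain ⟨L, _, _, j, C, π, hc, hP⟩ := hWGC Ω _ (gU l u' t') (gW l f) a₀ g ha₀ ha₀' (by omega) hg
    fun z => G3.acl_mono hsub (hacl z)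
  refine ⟨L, inferInstance, inferInstance, j.comp ι, C, _, hc, fun s => ?_⟩
  have key : ∀ Q : C.Pl, nu (C.v Q) (j ∘ u') (some s) = f s * log (C.v Q (π Q)) -
      if s = l.1 then log (C.v Q (j (chi ρ (gam none (some l)) * ι lam))) else 0 := fun Q => by
    obtain ⟨p1, p2, p3, -, p5⟩ := hP Q
    refine hPLC D F hF l o f hV L (C.v Q) (C.cst Q) (j ∘ u') _ (π Q) (j ∘ t') p1
      ((T.mp.map F j u').2.2.2.2.1 _ _ _ hd)
      (fun i => (T.mp.map F j u').2.2.2.2.2.1 _ _ _ (hT i))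
      (fun a => by rw [Function.comp, map_eq_zero, hz]) (fun i hi => (map_ne_zero j).2 (h0 i hi))
      (fun a => by rw [gU_map]; exact p2 a) (fun a ha ha' => ?_) ?_ s
    · rw [gU_map] at ha' ⊢
      exact p3 _ (G3.subset_acl _ (mem_insert_of_mem _ ⟨a, ha, rfl⟩)) ((map_ne_zero j).1 ha')
    · simp only [gU_map]
      exact ind_mono p5 (by omega)
  have e1 := (hCRV L C).2 Unit (fun _ => Fin (D.n s + 1)) (fun _ => 1)
    (fun _ p => (j ∘ u') (.inr ⟨s, p⟩))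
    (if s = l.1 then (j (chi ρ (gam none (some l)) * ι lam))⁻¹ else 1)
    (fun Q => f s * log (C.v Q (π Q))) fun Q => by
      rw [Fintype.sum_unique, one_mul, ← T.nrm.nu_some, ← Dat.nu, key]
      split_ifs
      · rw [map_inv₀, log_inv, sub_eq_add_neg]
      · simp
  rw [Fintype.sum_unique, one_mul, ← mul_finsum] at e1
  rw [← e1, ← ((hCRV L C).1 _ _).2 (j (ρ (some s))) ((map_ne_zero j).2 (hρ _))]
  refine congrArg _ (funext fun p => ?_)
  simp [hu', T.sc.sc_inr]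

end Pool.Agent.Lib.CI
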