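import Pool.Agent.Lib.CI.LDefs
import Pool.Agent.Lib.MV.G3A

open MvPolynomial Set Matrix WithZero Pool.Agent.Lib.MP_e39d36_ag Pool.Agent.Lib.MP_e39d36_ag.Var
  Pool.Agent.Lib.MP_cc3443_ag Pool.Agent.Lib.MV Pool.Agent.Lib.MV.End Pool.Agent.Lib.MV.Fb
  Pool.Agent.Lib.DU

set_option linter.unusedSectionVars false
set_option linter.unusedVariables false

noncomputable section

namespace Pool.Agent.Lib.CI

section rank

variable {Ω : Type} [Field Ω] [Algebra ℂ Ω]

/-- The transcendence degree of the field generated by a finite set. -/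
def rk (S : Set Ω) : ℕ := ((AlgebraicIndependent.matroid ℂ Ω).eRk S).toNat

open Classical in
/-- The number of entries different from zero and one. -/
def fr {U : Type} (u : U → Ω) (A : Finset U) : ℕ := (A.filter fun a => u a ≠ 0 ∧ u a ≠ 1).card

/-- There are `e` elements of `S` with algebraically independent residues. -/
def IndV (v : Valuation Ω ℤᵐ⁰) (S : Set Ω) (e : ℕ) : Prop :=
  ∃ a : Fin e → Ω, (∀ i, a i ∈ S) ∧ ∀ P : MvPolynomial (Fin e) ℂ, P ≠ 0 → v (aeval a P) = 1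

open Classical in
variable (Ω) in
/-- The trivial valuation. -/
def tv : Valuation Ω ℤᵐ⁰ := 1

/-- The residue map of a valuation. -/
structure Red (v : Valuation Ω ℤᵐ⁰) (κ : Type) [Field κ] [Algebra ℂ κ] where
  r : Ω → κ
  cle : ∀ c : ℂ, v (algebraMap ℂ Ω c) ≤ 1
  add : ∀ a b, v a ≤ 1 → v b ≤ 1 → r (a + b) = r a + r b
  mul : ∀ a b, v a ≤ 1 → v b ≤ 1 → r (a * b) = r a * r b
  const : ∀ c : ℂ, r (algebraMap ℂ Ω c) = algebraMap ℂ κ c
  zero : ∀ a, v a ≤ 1 → (r a = 0 ↔ v a < 1)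
  surj : ∀ b, ∃ a, v a ≤ 1 ∧ r a = b

/-- Signed maximal minors. -/
def xp {R : Type} [CommRing R] {m : ℕ} (A : Matrix (Fin m) (Fin (m + 1)) R) (q : Fin (m + 1)) : R :=
  (-1) ^ (q : ℕ) * (A.submatrix id q.succAbove).det

/-- The value of a ternary quadratic form. -/
def qd (B : Fin 3 → Fin 3 → Ω) (w : Fin 3 → Ω) : Ω := ∑ b, ∑ e, B b e * w b * w e

/-- The cubic `A₀ B₁ - A₁ B₀`. -/
def cAB (A : Fin 2 → Fin 3 → Ω) (B : Fin 2 → Fin 3 → Fin 3 → Ω) : Cf Ω :=
  fun a b e => A 0 a * B 1 b e - A 1 a * B 0 b e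

/-- The cubic contains the line through `a` and `b`. -/
def Ln (c : Cf Ω) (a b : Fin 3 → Ω) : Prop :=
  a ⨯₃ b ≠ 0 ∧ cub c a = 0 ∧ pol c a b = 0 ∧ pol c b a = 0 ∧ cub c b = 0

end rank

/-- A function field of one variable over a large field of constants, which can be identified with
the complex numbers so that finitely many given numbers are fixed. -/
structure Crv (L : Type) [Field L] [Algebra ℂ L] where
  Pl : Type
  v : Pl → Valuation L ℤᵐ⁰
  cst : ∀ P (a : ℂ), v P (algebraMap ℂ L a) ≤ 1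
  tw : ∀ S : Finset ℂ, ∃ (L' : Type) (_ : Field L') (_ : Algebra ℂ L') (_ : IsFF L') (j : L ≃+* L')
    (e : Place L' ≃ Pl), (∀ s ∈ S, j (algebraMap ℂ L s) = algebraMap ℂ L' s) ∧
      ∀ P f, P.val (j f) = v (e P) f

/-- The degree of a vector of functions. -/
def Crv.deg {L : Type} [Field L] [Algebra ℂ L] (C : Crv L) {J : Type} [Fintype J] (y : J → L) : ℤ :=
  ∑ᶠ P, log (nm (C.v P) y)

namespace Dat

variable (D : Dat)

/-- The dimension of the complete intersection. -/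
def dm : ℕ := ∑ s, D.n s - D.m

/-- Tuples of forms. -/
abbrev Fm : Type := Fin D.m → MvPolynomial D.Hx ℂ

/-- Properties of general forms. -/
def Gn (p : D.Fm → Prop) : Prop := ∃ Q : MvPolynomial D.Co ℂ, Q ≠ 0 ∧
  ∀ F, D.Hom F → eval (fun c : D.Co => coeff c.1.2 (F c.1.1)) Q ≠ 0 → p F

/-- All variables: the left kernel vector and the coordinates. -/
abbrev Vr : Type := Fin D.m ⊕ D.Hx

/-- Slots. -/
abbrev Sl : Type := Option (Fin D.k)

/-- Types of configurations. -/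
abbrev Ty : Type := Option D.I0

/-- Standard charts. -/
abbrev Ch : Type := ∀ s, Fin (D.n s + 1)

variable {D}

/-- The slot of a variable. -/
def sl : D.Vr → D.Sl := Sum.elim (fun _ => none) fun a => some a.1

/-- The slot that a type omits. -/
def ts (τ : D.Ty) : D.Sl := τ.map Subtype.val

/-- The variables of a slot of length `m`. -/
def co : D.Ty → Fin D.m → D.Vr
  | none, j => .inl j
  | some l, p => .inr ⟨l.1, p.cast l.2.symm⟩

/-- The variables of a slot of length `m + 1`. -/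
def cw (i : D.I1) (p : Fin (D.m + 1)) : D.Vr := .inr ⟨i.1, p.cast (congrArg (· + 1) i.2.symm)⟩

/-- The weights of the variables. -/
def wt : D.Vr → D.Sl → ℤ
  | .inl _, none => 1
  | .inl j, some s => -(D.aW j s : ℤ)
  | .inr a, σ => if σ = some a.1 then 1 else 0

/-- The variables outside the omitted slot. -/
def off (τ : D.Ty) : Finset D.Vr := Finset.univ.filter fun a => sl a ≠ ts τ

/-- The variables outside two slots. -/
def of2 (l : D.I0) (i : D.I1) : Finset D.Vr :=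
  Finset.univ.filter fun a => sl a ≠ some l.1 ∧ sl a ≠ some i.1

/-- The coordinates outside two slots. -/
def bs (l : D.I0) (i : D.I1) : Finset D.Vr :=
  Finset.univ.filter fun a => sl a ≠ none ∧ sl a ≠ some l.1 ∧ sl a ≠ some i.1

/-- The sum of the equations. -/
def FF (F : D.Fm) : MvPolynomial D.Vr ℂ := ∑ j, X (.inl j) * rename .inr (F j)

/-- The weight of the factor in a flop. -/
def gam (τ τ' : D.Ty) (σ : D.Sl) : ℤ :=
  if σ = ts τ ∨ σ = ts τ' then -1 else σ.elim ((D.m : ℤ) - 1) fun s =>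
    if D.n s + 1 = D.m then (D.m : ℤ) - 1 else if τ = none ∨ τ' = none then (D.n s : ℤ) + 1 else 0

/-- The matrix of the equations of type `l` as forms in the slot `i`. -/
def NP (F : D.Fm) (l : D.I0) (i : D.I1) (p : Fin D.m) (q : Fin (D.m + 1)) : MvPolynomial D.Vr ℂ :=
  ∑ j, (D.d j i.1 : ℂ)⁻¹ •
    pderiv (co (some l) p) (pderiv (cw i q) (X (.inl j) * rename .inr (F j)))

section pt

variable {Ω : Type} [Field Ω] [Algebra ℂ Ω] (F : D.Fm)

/-- The action of the torus. -/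
def sc (ρ : D.Sl → Ω) (u : D.Vr → Ω) (a : D.Vr) : Ω := u a * ∏ σ, ρ σ ^ wt a σ

/-- No slot vanishes. -/
def NZ (u : D.Vr → Ω) : Prop := ∀ σ, ∃ a, sl a = σ ∧ u a ≠ 0

/-- Every slot has an entry equal to one. -/
def N1 (u : D.Vr → Ω) : Prop := ∀ σ, ∃ a, sl a = σ ∧ u a = 1

/-- The equations of type `τ`. -/
def Eqs (τ : D.Ty) (u : D.Vr → Ω) : Prop := ∀ p, aeval u (pderiv (co τ p) (FF F)) = 0

/-- Configurations of type `τ`. -/
def Cfg (τ : D.Ty) (u : D.Vr → Ω) : Prop := NZ u ∧ Eqs F τ u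

/-- The matrix of a flop. -/
def Mx (τ τ' : D.Ty) (u : D.Vr → Ω) : Matrix (Fin D.m) (Fin D.m) Ω :=
  Matrix.of fun p q => aeval u (pderiv (co τ p) (pderiv (co τ' q) (FF F)))

/-- Configurations of two types. -/
structure Dbl (τ τ' : D.Ty) (u : D.Vr → Ω) (lam : Ω) : Prop where
  nz : NZ u
  e1 : Eqs F τ u
  e2 : Eqs F τ' u
  ne : lam ≠ 0
  adj : ∀ p q, (Mx F τ τ' u).adjugate q p = lam * u (co τ' q) * u (co τ p)

/-- The matrix `NP` at a point. -/
def Nx (l : D.I0) (i : D.I1) (u : D.Vr → Ω) : Matrix (Fin D.m) (Fin (D.m + 1)) Ω :=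
  Matrix.of fun p q => aeval u (NP F l i p q)

/-- The section `t`. -/
def IsT (l : D.I0) (i : D.I1) (u : D.Vr → Ω) (t : Ω) : Prop :=
  ∀ q, t * u (cw i q) = xp (Nx F l i u) q

/-- The gradients of the equations in the slot `i`. -/
def Lm (i : D.I1) (u : D.Vr → Ω) : Matrix (Fin D.m) (Fin (D.m + 1)) Ω :=
  Matrix.of fun j q => aeval u (pderiv (cw i q) (rename .inr (F j)))

/-- The Hessian of the quadric in the slot `i`. -/
def Hs (i : D.I1) (u : D.Vr → Ω) : Matrix (Fin (D.m + 1)) (Fin (D.m + 1)) Ω :=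
  Matrix.of fun q q' => aeval u (pderiv (cw i q) (pderiv (cw i q') (rename .inr (F (jj i)))))

/-- Points on the line cut out by the linear equations. -/
def us (i : D.I1) (u : D.Vr → Ω) (p : Fin (D.m + 1)) : Fin (D.m + 1) → Ω :=
  xp ((Lm F i u).updateRow (jj i) (Pi.single p 1))

/-- The symmetric product of the two points of a fibre. -/
def Sx (i : D.I1) (u : D.Vr → Ω) (p p' : Fin (D.m + 1)) : Ω := us F i u p ⬝ᵥ Hs F i u *ᵥ us F i u p'

/-- The two points of a fibre. -/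
structure Sig (i : D.I1) (u u' : D.Vr → Ω) (lam : Ω) : Prop where
  c1 : Cfg F none u
  c2 : Cfg F none u'
  eq : ∀ a, sl a ≠ some i.1 → u' a = u a
  ne : lam ≠ 0
  sym : ∀ p p', Sx F i u p p' =
    lam * (u (cw i p) * u' (cw i p') + u (cw i p') * u' (cw i p))

/-- The coordinates of a plane. -/
def c3 (hm : D.m = 2) (i : D.I1) (e : Fin 3) : D.Vr := cw i (e.cast (congrArg (· + 1) hm.symm))

/-- The two linear forms. -/
def AA (hm : D.m = 2) (l : D.I0) (i : D.I1) (u : D.Vr → Ω) (s : Fin 2) (e : Fin 3) : Ω :=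
  aeval u (pderiv (co (some l) (s.cast hm.symm)) (pderiv (c3 hm i e)
    (rename .inr (∑ j ∈ Finset.univ.erase (jj i), F j))))

/-- The two quadratic forms. -/
def BB (hm : D.m = 2) (l : D.I0) (i : D.I1) (u : D.Vr → Ω) (s : Fin 2) (e e' : Fin 3) : Ω :=
  (2 : ℂ)⁻¹ • aeval u (pderiv (co (some l) (s.cast hm.symm)) (pderiv (c3 hm i e)
    (pderiv (c3 hm i e') (rename .inr (F (jj i))))))

/-- The plane cubic. -/
def CC (hm : D.m = 2) (l : D.I0) (i : D.I1) (u : D.Vr → Ω) : Cf Ω :=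
  cAB (AA F hm l i u) (BB F hm l i u)

/-- A vector whose norm is the norm of a slot. -/
def sv (u : D.Vr → Ω) : D.Sl → Fin D.m × D.Ch → Ω
  | none, c => u (.inl c.1) * ∏ s, u (.inr ⟨s, c.2 s⟩) ^ D.aW c.1 s
  | some s, c => u (.inr ⟨s, c.2 s⟩)

/-- The logarithm of the norm of a slot. -/
def nu (v : Valuation Ω ℤᵐ⁰) (u : D.Vr → Ω) (σ : D.Sl) : ℤ := log (nm v (sv u σ))

/-- Integral entries with a unit in each slot. -/
def Nw (v : Valuation Ω ℤᵐ⁰) (u : D.Vr → Ω) : Prop :=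
  (∀ a, v (u a) ≤ 1) ∧ ∀ σ, ∃ a, sl a = σ ∧ v (u a) = 1

/-- Integral entries with a one in each slot. -/
def Nm (v : Valuation Ω ℤᵐ⁰) (u : D.Vr → Ω) : Prop := (∀ a, v (u a) ≤ 1) ∧ N1 u

/-- The reduction of the configuration has transcendence degree at least `e`. -/
def Big (τ : D.Ty) (v : Valuation Ω ℤᵐ⁰) (u : D.Vr → Ω) (e : ℕ) : Prop :=
  ∃ ρ : D.Sl → Ω, (∀ σ, ρ σ ≠ 0) ∧ Nm v (sc ρ u) ∧ IndV v (sc ρ u '' off τ) e

/-- The configuration generates the field. -/
def Gt (τ : D.Ty) (u : D.Vr → Ω) : Prop := ∃ ρ : D.Sl → Ω, (∀ σ, ρ σ ≠ 0) ∧ N1 (sc ρ u) ∧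
  IntermediateField.adjoin ℂ (sc ρ u '' off τ) = ⊤

/-- The value of the sum of the equations. -/
def EV (z : Fin D.m → Ω) (y : D.Hx → Ω) : Ω := ∑ j, z j * aeval y (F j)

/-- Change of the coordinates in one factor. -/
def upd (y : D.Hx → Ω) (s : Fin D.k) (w : Fin (D.n s + 1) → Ω) (a : D.Hx) : Ω :=
  Function.update (fun t p => y ⟨t, p⟩) s w a.1 a.2

end pt

/-! ### What general forms satisfy -/

section gen

variable (F : D.Fm)

/-- The dimension of the space of configurations. -/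
def G_cnt : Prop := ∀ (τ : D.Ty) (κ : Type) [Field κ] [Algebra ℂ κ] (u : D.Vr → κ),
  Cfg F τ u → rk (u '' off τ) + D.m ≤ fr u (off τ)

/-- Smoothness of the partial intersections and of their coordinate hyperplane sections. -/
def G_jac : Prop := ∀ (κ : Type) [Field κ] [Algebra ℂ κ] (y : D.Hx → κ) (lam : Fin D.m → κ)
  (o : Option D.Hx), (∀ s, ∃ p, y ⟨s, p⟩ ≠ 0) → (∀ j, lam j ≠ 0 → aeval y (F j) = 0) →
    (∀ a, o = some a → y a = 0) →
    (∀ a, o ≠ some a → ∑ j, lam j * aeval y (pderiv a (F j)) = 0) → lam = 0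

/-- Corank two. -/
def G_ck : Prop := ∀ (τ τ' : D.Ty), τ ≠ τ' → ∀ (κ : Type) [Field κ] [Algebra ℂ κ] (u : D.Vr → κ),
  Cfg F τ u → (Mx F τ τ' u).adjugate = 0 → rk (u '' off τ) + D.m + 2 ≤ fr u (off τ)

/-- Rank drop. -/
def G_rd : Prop := ∀ (l : D.I0) (i : D.I1) (κ : Type) [Field κ] [Algebra ℂ κ] (u : D.Vr → κ),
  NZ u → u (.inl (jj i)) = 0 → xp (Nx F l i u) = 0 → rk (u '' of2 l i) + 2 ≤ fr u (of2 l i)

/-- Zeros of `t`. -/
def G_tl : Prop := ∀ (l : D.I0) (i : D.I1) (κ : Type) [Field κ] [Algebra ℂ κ] (u : D.Vr → κ),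
  Cfg F (some l) u → u (.inl (jj i)) = 0 → xp (Nx F l i u) = 0 →
    rk (u '' off (some l)) + D.m + 1 ≤ fr u (off (some l))

/-- Fibres of positive dimension of the double covers. -/
def G_sg : Prop := ∀ (i : D.I1) (κ : Type) [Field κ] [Algebra ℂ κ] (u : D.Vr → κ),
  Cfg F none u → Sx F i u = 0 →
    rk (u '' off (D := D) none) + D.m + 2 ≤ fr u (off (D := D) none)

/-- Lines in the plane cubics. -/
def G_io1 : Prop := ∀ (hm : D.m = 2) (l : D.I0) (i : D.I1) (κ : Type) [Field κ] [Algebra ℂ κ]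
  (u : D.Vr → κ), NZ u → ∀ a b, Ln (CC F hm l i u) a b → ∃ h : Fin 3 → κ, h ≠ 0 ∧ h ⬝ᵥ a = 0 ∧
    h ⬝ᵥ b = 0 ∧ rk (u '' bs l i ∪ range h) + 2 ≤ fr u (bs l i)

/-- Common zeros of the four forms. -/
def G_io2 : Prop := ∀ (hm : D.m = 2) (l : D.I0) (i : D.I1) (κ : Type) [Field κ] [Algebra ℂ κ]
  (u : D.Vr → κ), NZ u → ∀ p : Fin 3 → κ, p ≠ 0 → (∀ s, AA F hm l i u s ⬝ᵥ p = 0) →
    (∀ s, qd (BB F hm l i u s) p = 0) → rk (u '' bs l i) + 2 ≤ fr u (bs l i)

/-- General forms. -/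
structure Gen : Prop where
  hom : D.Hom F
  cnt : G_cnt F
  jac : G_jac F
  ck : G_ck F
  rd : G_rd F
  tl : G_tl F
  sg : G_sg F
  io1 : G_io1 F
  io2 : G_io2 F

end gen

/-! ### Models -/

/-- A model of the complete intersection. -/
structure Mod (F : D.Fm) (K : Type) [Field K] [Algebra ℂ K] where
  X : Var K
  Q : Prj X
  Γ : Curves X
  x : D.Hx → K
  hyp : D.IsCI x F X.O
  one : ∀ s, x ⟨s, 0⟩ = 1
  sm : Sm X

namespace Mod

variable {F : D.Fm} {K : Type} [Field K] [Algebra ℂ K] (M : Mod F K)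

/-- The generic point as a configuration. -/
def u : D.Vr → K := Sum.elim 1 M.x

/-- The hyperplane classes. -/
def st (s : Fin D.k) : Dv M.X := sd M.X fun p => M.x ⟨s, p⟩

/-- The standard divisor in a class. -/
def std (γ : D.Λ) : Dv M.X := ∑ s, γ s • M.st s

/-- The numerical class of a real combination. -/
def cl : D.V →ₗ[ℝ] M.Γ.N1 := Fintype.linearCombination ℝ fun s => nc M.Γ M.sm.fac (M.st s)

/-- The divisor `W` has class `x`. -/
def Cls (W : Dv M.X) (x : D.V) : Prop := nc M.Γ M.sm.fac W = M.cl x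

/-- Classes of effective divisors. -/
def Ef : Set D.V := {x | ∃ W, 0 ≤ W ∧ M.Cls W x}

/-- The generic point together with the left kernel vector at level `l`. -/
def Lv (l : D.I0) (u : D.Vr → K) (lam : K) : Prop :=
  (∀ a, u (.inr a) = M.x a) ∧ Dbl F none (some l) u lam

/-- The divisor of zeros of `z_j`. -/
def LD (u : D.Vr → K) (j : Fin D.m) : Dv M.X :=
  sd M.X (sv u none) - M.std (aa j) + M.X.div (u (.inl j))

/-- The class has an effective member that does not contain `E`. -/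
def Free (E : M.X.PD) (γ : D.Λ) : Prop := ∃ W, LE W (M.std γ) ∧ 0 ≤ W ∧ W E = 0

/-- A pseudo-automorphism with given action on the hyperplane classes. -/
def Act (e : M.X.PD ≃ M.X.PD) (c : Fin D.k → D.Λ) : Prop :=
  (∃ φ, Ps φ e) ∧ ∀ s, LE (push e (M.st s)) (M.std (c s))

/-- The Lefschetz theorem in terms of logarithmic forms. -/
def Lef : Prop := ∀ W : Dv M.X, ∃ c : Fin D.k → ℂ, Res fun E => (W E : ℂ) - cmb c M.st E

end Mod

/-! ### Cohomology -/

section coh

/-- An order on the coordinates in which the factors are intervals. -/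
instance : LinearOrder D.Hx :=
  LinearOrder.lift' (fun a => toLex ((a.1 : ℕ), (a.2 : ℕ))) (by
    rintro ⟨s, p⟩ ⟨t, q⟩ h
    obtain rfl : s = t := Fin.ext (congrArg (fun z => (ofLex z).1) h)
    exact congrArg _ (Fin.ext (congrArg (fun z => (ofLex z).2) h)))

variable {K : Type} [Field K] [Algebra ℂ K] (x : D.Hx → K) (F : D.Fm)

/-- The multidegree of an equation. -/
def dd (j : Fin D.m) : D.Λ := fun s => D.d j s

/-- The coordinate ring of an intersection of charts. -/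
def Bs (A : Finset D.Hx) : Subalgebra ℂ K :=
  Algebra.adjoin ℂ {z | ∃ a ∈ A, ∃ p, z = x ⟨a.1, p⟩ / x a}

/-- The generator of a line bundle on a chart. -/
def gen (γ : D.Λ) (τ : D.Ch) : K := ∏ s, x ⟨s, τ s⟩ ^ γ s

/-- Sections of a line bundle over intersections of charts. -/
def Ms (γ : D.Λ) (A : Finset D.Hx) : AddSubgroup K :=
  AddSubgroup.closure {z | ∃ τ : D.Ch, (∀ s, ⟨s, τ s⟩ ∈ A) ∧ z / gen x γ τ ∈ Bs x A}

/-- Differentials of the coordinates together with the weights. -/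
def β : (D.Hx → K) →ₗ[K] Ω[K⁄ℂ] × (Fin D.k → K) where
  toFun g := (∑ a, g a • KaehlerDifferential.D ℂ K (x a), fun s => ∑ p, g ⟨s, p⟩ * x ⟨s, p⟩)
  map_add' g g' := by
    ext s <;> simp [add_smul, add_mul, Finset.sum_add_distrib]
  map_smul' c g := by
    ext s <;> simp [Finset.smul_sum, smul_smul, Finset.mul_sum, mul_assoc]

/-- Combinations of the gradients. -/
def α : (Fin D.m → K) →ₗ[K] D.Hx → K :=
  Fintype.linearCombination K fun j a => aeval x (pderiv a (F j))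

/-- The sum of the line bundles dual to the coordinates. -/
def Ps' (A : Finset D.Hx) : AddSubgroup (D.Hx → K) :=
  AddSubgroup.pi univ fun a => Ms x (-Pi.single a.1 1) A

/-- The extension of the differentials given by the factors. -/
def Es (A : Finset D.Hx) : AddSubgroup (Ω[K⁄ℂ] × (Fin D.k → K)) :=
  (Ps' x A).map (β x).toAddMonoidHom

/-- The conormal bundle. -/
def Rs (A : Finset D.Hx) : AddSubgroup (Fin D.m → K) :=
  AddSubgroup.pi univ fun j => Ms x (-dd j) A

variable (D) in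
/-- The function field of the product. -/
abbrev L : Type := FractionRing (MvPolynomial (Σ s, Fin (D.n s)) ℂ)

variable (D) in
/-- The coordinates on the product. -/
def XL (a : D.Hx) : D.L := Fin.cases 1
  (fun l => algebraMap (MvPolynomial (Σ s, Fin (D.n s)) ℂ) _ (MvPolynomial.X ⟨a.1, l⟩)) a.2

variable (D) in
/-- The ring of Laurent polynomials. -/
abbrev LR : Subalgebra ℂ D.L := Bs D.XL Finset.univ

/-- The ideal of the first `j` equations. -/
def II (j : ℕ) : Ideal D.LR :=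
  Ideal.span {b | ∃ a : Fin D.m, (a : ℕ) < j ∧ (b : D.L) = aeval D.XL (F a)}

/-- Sections of a line bundle on the intersection of the first `j` hypersurfaces. -/
def Mq (j : ℕ) (γ : D.Λ) (A : Finset D.Hx) : AddSubgroup (D.LR ⧸ II F j) :=
  ((Ms D.XL γ A).comap D.LR.val.toRingHom.toAddMonoidHom).map
    (Ideal.Quotient.mk (II F j)).toAddMonoidHom

/-- The local equations. -/
def fl (τ : D.Ch) (j : Fin D.m) : D.L := aeval D.XL (F j) / gen D.XL (dd j) τ

/-- Membership in the ideal of the first `j` local equations. -/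
def In (j : ℕ) (A : Finset D.Hx) (τ : D.Ch) (b : D.L) : Prop := ∃ c : Fin D.m → D.L,
  (∀ a, c a ∈ Bs D.XL A) ∧
    b = ∑ a ∈ Finset.univ.filter (fun a : Fin D.m => (a : ℕ) < j), c a * fl F τ a

end coh

end Dat

end Pool.Agent.Lib.CI
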