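import Pool.Agent.Lib.CI.BlueB

/-! The cone theorem for a model, from the lattice theorem. -/

open MvPolynomial Set Matrix WithZero Pool.Agent.Lib.MP_e39d36_ag Pool.Agent.Lib.MP_e39d36_ag.Var
  Pool.Agent.Lib.MP_cc3443_ag Pool.Agent.Lib.MV Pool.Agent.Lib.MV.End Pool.Agent.Lib.MV.Fb
  Pool.Agent.Lib.DU
open scoped NNReal

set_option linter.unusedSectionVars false
set_option linter.unusedVariables false
set_option linter.style.haveILetI false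

noncomputable section

namespace Pool.Agent.Lib.CI

open Pool.Agent.Lib.CI.Dat

namespace END

variable {D : Dat} {F : D.Fm} {K : Type} [Field K] [Algebra ℂ K] (M : Mod F K)

/-- Cones of numerical classes in coordinates. -/
def cm (C : Submodule ℝ≥0 M.Γ.N1) : Submodule ℝ≥0 D.V := C.comap (M.cl.restrictScalars ℝ≥0)

/-- Pull-back maps in coordinates. -/
def Gp : Subgroup (D.V ≃ₗ[ℝ] D.V) where
  carrier := {T | ∃ L ∈ M.Γ.rho.range, ∀ x, L (M.cl x) = M.cl (T x)}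
  one_mem' := ⟨1, one_mem _, fun _ => rfl⟩
  mul_mem' := by
    rintro T T' ⟨L, h1, h2⟩ ⟨L', h3, h4⟩
    exact ⟨L * L', mul_mem h1 h3, fun x => (congrArg L (h4 x)).trans (h2 _)⟩
  inv_mem' := by
    rintro T ⟨L, h1, h2⟩
    exact ⟨L⁻¹, inv_mem h1, fun x => L.symm_apply_eq.2
      ((congrArg M.cl (T.apply_symm_apply x).symm).trans (h2 _).symm)⟩

/-- The classes that are free at a prime divisor. -/
def Fr (C : St_CH) (E : M.X.PD) : AddSubmonoid D.Λ where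
  carrier := {γ | M.Free E γ}
  zero_mem' := ⟨0, LE.of_eq (by simp [Mod.std]), le_rfl, rfl⟩
  add_mem' := by
    rintro γ γ' ⟨W, h1, h2, h3⟩ ⟨W', h4, h5, h6⟩
    exact ⟨W + W', (C.std M).1 γ γ' ▸ h1.add h4, add_nonneg h2 h5, by simp [h3, h6]⟩

lemma fr_h (C : St_CH) (E : M.X.PD) (s : Fin D.k) : Pi.single s 1 ∈ Fr M C E := by
  obtain ⟨f, h1, h2, h3⟩ := C.mov M s E
  exact ⟨_, ⟨f, h1, congrArg (· + M.X.div f) ((C.std M).2.2.2.1 s).symm⟩, h2, h3⟩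

lemma fr_mov (C : St_CH) (γ : D.Λ) (h : ∀ E, γ ∈ Fr M C E) :
    M.cl (cst γ) ∈ M.Γ.cone {W | Mov W.1} := by
  refine Submodule.subset_span ⟨⟨M.std γ, M.sm.fac _⟩, fun E => ?_, (C.std M).2.2.2.2.1 γ⟩
  obtain ⟨W, ⟨f, h1, rfl⟩, h2, h3⟩ := h E
  exact ⟨f, h1, h2, h3⟩

variable {M} (hb : Function.Bijective M.cl)

/-- The coordinates on numerical classes. -/
def Φ : D.V ≃ₗ[ℝ] M.Γ.N1 := LinearEquiv.ofBijective M.cl hb

lemma cls (W : Dv M.X) : M.Cls W ((Φ hb).symm (nc M.Γ M.sm.fac W)) :=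
  ((Φ hb).apply_symm_apply _).symm

include hb

lemma nn_eff (a : D.V →ₗ[ℝ] ℝ) (h : ∀ x ∈ M.Ef, 0 ≤ a x) :
    ∀ x ∈ cm M (M.Γ.cone {W | 0 ≤ W.1}), 0 ≤ a x := fun x hx => by
  have := CG.nonneg_of_mem_span (a ∘ₗ (Φ hb).symm.toLinearMap) (s := M.Γ.cls '' {W | 0 ≤ W.1})
    (by rintro _ ⟨W, hW, rfl⟩; exact h _ ⟨W.1, hW, cls hb _⟩) hx
  exact this.trans_eq (congrArg a ((Φ hb).symm_apply_apply x))

lemma nn_mov (a : D.V →ₗ[ℝ] ℝ) (E : M.X.PD)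
    (h : ∀ W ξ, 0 ≤ W → W E = 0 → M.Cls W ξ → 0 ≤ a ξ) : ∀ x ∈ cm M M.Γ.movC, 0 ≤ a x :=
  fun x hx => by
  haveI := (Φ hb).finiteDimensional
  have : 0 ≤ (a ∘ₗ (Φ hb).symm.toLinearMap) (M.cl x) :=
    closure_minimal (t := {y | 0 ≤ (a ∘ₗ (Φ hb).symm.toLinearMap) y})
      (fun y hy => CG.nonneg_of_mem_span _ (s := M.Γ.cls '' {W | Mov W.1}) (by
        rintro _ ⟨W, hW, rfl⟩
        obtain ⟨f, h1, h2, h3⟩ := hW E
        exact h (W.1 + M.X.div f) _ h2 h3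
          ((LE.nc_eq M.Γ M.sm.fac ⟨f, h1, rfl⟩).trans (cls hb W.1))) hy)
      (isClosed_le continuous_const (LinearMap.continuous_of_finiteDimensional _)) hx
  exact this.trans_eq (congrArg a ((Φ hb).symm_apply_apply x))

lemma pos (h : Pos M.Ef) : Pos (cm M (M.Γ.cone {W | 0 ≤ W.1}) : Set D.V) where
  fc A hA := by
    obtain ⟨α, h1, h2, h3, h4⟩ := h.fc A hA
    exact ⟨α, h1, h2, h3, nn_eff hb (dotProductBilin ℝ ℝ α) h4⟩
  pair l i := nn_eff hb ((2 : ℝ) • LinearMap.proj l.1 + (2 * (D.m : ℝ) - 1) • LinearMap.proj i.1)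
    (h.pair l i)
  ineq l f hf := nn_eff hb (dotProductBilin ℝ ℝ fun s => (f s : ℝ)) (h.ineq l f hf)

lemma gp {c : Fin D.k → D.Λ}
    (h : ∃ φ L, M.Γ.IsPull φ L ∧ ∀ ξ, L (M.cl ξ) = M.cl (lin c ξ)) :
    ∃ T ∈ Gp M, T.toLinearMap = lin c := by
  obtain ⟨φ, L, h1, h2⟩ := h
  refine ⟨(Φ hb).trans (L.trans (Φ hb).symm), ⟨L, M.Γ.mem_range_rho.2 ⟨φ, h1⟩, fun x =>
    ((Φ hb).apply_symm_apply _).symm⟩, LinearMap.ext fun x => (Φ hb).symm_apply_eq.2 (h2 x)⟩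

lemma eff_gen (h : ∀ W ξ, M.Cls W ξ → ∃ (N : ℕ) (γ : D.Λ), 0 < N ∧ (N : ℝ) • ξ = cst γ) :
    ∀ x ∈ cm M (M.Γ.cone {W | 0 ≤ W.1}), x ∈ Submodule.span ℝ≥0
      {y | y ∈ cm M (M.Γ.cone {W | 0 ≤ W.1}) ∧ ∃ γ, y = cst γ} := fun x hx => by
  refine (Φ hb).symm_apply_apply x ▸ CG.map_mem_span (Φ hb).symm.toLinearMap
    (s := M.Γ.cls '' {W | 0 ≤ W.1}) ?_ hx
  rintro _ ⟨W, hW, rfl⟩
  obtain ⟨N, γ, h1, h2⟩ := h _ _ (cls hb W.1)
  have h3 : (0 : ℝ) < N := by exact_mod_cast h1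
  have h4 := CG.smul_mem' (C := Submodule.span ℝ≥0
    {y | y ∈ cm M (M.Γ.cone {W | 0 ≤ W.1}) ∧ ∃ γ, y = cst γ}) (inv_pos.2 h3).le
    (Submodule.subset_span ⟨CG.smul_mem' (C := cm M (M.Γ.cone {W | 0 ≤ W.1})) h3.le
      (Submodule.subset_span ⟨W, hW, cls hb W.1⟩), γ, h2⟩)
  rwa [inv_smul_smul₀ h3.ne'] at h4

omit hb in
/-- The lattice data of a model. -/
def geo (C : St_CH) (hA : St_ENDA) (hP : St_ENDP) (I : M.Inp) : D.Geo where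
  PD := M.X.PD
  Fr := Fr M C
  on l j E := 0 < (I.lev l).choose j E
  Eff := cm M (M.Γ.cone {W | 0 ≤ W.1})
  Mov := cm M M.Γ.movC
  Γ := Gp M
  fr_mov γ h := ⟨subset_closure (fr_mov M C γ h), M.Γ.cone_mov_le (fr_mov M C γ h)⟩
  fr_h := fr_h M C
  fr_G l E h := by
    obtain ⟨h1, -⟩ := (I.lev l).choose_spec
    rintro _ (⟨j, -, rfl⟩ | ⟨s, -, rfl⟩ | ⟨i, h2, -⟩)
    · exact ⟨_, (h1 j).2, (h1 j).1, le_antisymm (not_lt.1 (h j)) ((h1 j).1 E)⟩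
    · exact fr_h M C E s
    · exact absurd h2 (Option.some_ne_none _).symm
  fr_G' l j E h := by
    obtain ⟨h1, h2, h3, -⟩ := (I.lev l).choose_spec
    rintro _ (⟨j', h4, rfl⟩ | ⟨s, -, rfl⟩ | ⟨i, h4, rfl⟩)
    · exact ⟨_, (h1 j').2, (h1 j').1,
        (h2 E j' j fun e => h4 (congrArg some e)).resolve_right h.ne'⟩
    · exact fr_h M C E s
    · exact h3 i E (Option.some.inj h4 ▸ h)
  eff_gen := eff_gen (hA D F K M I.lef I.pos).1 (hA D F K M I.lef I.pos).2.2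
  Γ_eff := by
    rintro T ⟨_, ⟨b, rfl⟩, h2⟩ x hx
    show M.cl (T x) ∈ M.Γ.cone {W | 0 ≤ W.1}
    rw [← h2]
    refine CG.map_mem_span (M.Γ.rho b).toLinearMap ?_ hx
    rintro _ ⟨W, hW, rfl⟩
    obtain ⟨W', h3, -, h4⟩ := (M.Γ.isPull_rho b).exists_map W
    exact Submodule.subset_span ⟨W', h4 hW, h3.symm⟩
  Γ_mov := by
    rintro T ⟨_, ⟨b, rfl⟩, h2⟩ x hx
    haveI := (Φ (hA D F K M I.lef I.pos).1).finiteDimensional
    show M.cl (T x) ∈ M.Γ.movC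
    rw [← h2]
    exact (M.Γ.map_mem M.Γ (M.Γ.rho b).toLinearMap (M.Γ.isPull_rho b).exists_map).2.1 _ hx
  pos := pos (hA D F K M I.lef I.pos).1 I.pos
  ineq' l j f hf := fun ⟨E, hE⟩ =>
    nn_mov (hA D F K M I.lef I.pos).1 (dotProductBilin ℝ ℝ fun s => (f s : ℝ)) E
      ((I.lev l).choose_spec.2.2.2 j f E hf hE)
  g l l' h := (I.g l l' h).elim fun e he =>
    gp (hA D F K M I.lef I.pos).1 (hP D F K M I.lef I.pos e _ he)
  σ i := (I.σ i).elim fun e he => gp (hA D F K M I.lef I.pos).1 (hP D F K M I.lef I.pos e _ he)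
  ι h l i := (I.ι h l i).elim fun e he =>
    gp (hA D F K M I.lef I.pos).1 (hP D F K M I.lef I.pos e _ he)

lemma fin0 (C : St_CH) {S : Set D.Λ} (h1 : S.Finite) (h2 : ∀ γ ∈ S, M.cl (cst γ) ∈ M.Γ.movE)
    (h3 : ∀ x, M.cl x ∈ M.Γ.movE → ∃ T ∈ Gp M, ∃ y ∈ Submodule.span ℝ≥0 (cst '' S), x = T y) :
    End.Cone M.Γ := by
  haveI := (Φ hb).finiteDimensional
  have h0 := (h1.image cst).image M.cl
  have hΛ : M.cl '' (cst '' S) ⊆ M.Γ.Λ := by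
    rintro _ ⟨_, ⟨γ, hγ, rfl⟩, rfl⟩
    exact ⟨⟨M.std γ, M.sm.fac _⟩, (C.std M).2.2.2.2.1 γ⟩
  have hE : M.cl '' (cst '' S) ⊆ M.Γ.movE := by
    rintro _ ⟨_, ⟨γ, hγ, rfl⟩, rfl⟩
    exact h2 γ hγ
  have h4 : ∀ x ∈ M.Γ.movE, ∃ γ ∈ M.Γ.rho.range,
      ∃ y ∈ Submodule.span ℝ≥0 (M.cl '' (cst '' S)), γ y = x := fun x hx => by
    obtain ⟨x, rfl⟩ := hb.2 x
    obtain ⟨T, ⟨L, h5, h6⟩, y, h7, rfl⟩ := h3 x hx
    exact ⟨L, h5, _, CG.map_mem_span M.cl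
      (fun v hv => Submodule.subset_span (mem_image_of_mem _ hv)) h7, h6 y⟩
  have h5 : ∀ γ ∈ M.Γ.rho.range, ∀ x ∈ M.Γ.movE, γ x ∈ M.Γ.movE := by
    rintro _ ⟨b, rfl⟩
    exact (M.Γ.map_mem M.Γ (M.Γ.rho b).toLinearMap (M.Γ.isPull_rho b).exists_map).2.2
  obtain ⟨P, h6, h7, h8, h9⟩ := (M.Γ.setup M.Q).fund M.Γ.movE inf_le_left h5 h0 hΛ hE
    ((M.Γ.interior_cone M.Q).mono (interior_mono subset_closure))
    (fun x hx => h4 x (M.Γ.interior_movC M.Q hx)) fun x hx => by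
      obtain ⟨γ, a1, y, a2, rfl⟩ := h4 x hx
      refine ⟨γ '' (M.cl '' (cst '' S)), h0.image _, ?_, ?_, CG.map_mem_span γ.toLinearMap
        (fun v hv => Submodule.subset_span (mem_image_of_mem _ hv)) a2⟩
      · rintro _ ⟨v, hv, rfl⟩
        exact (M.Γ.setup M.Q).ΓΛ γ a1 v (hΛ hv)
      · rintro _ ⟨v, hv, rfl⟩
        exact (h5 γ a1 v (hE hv)).1
  obtain ⟨S', -, a1, rfl⟩ := SurjOn.exists_subset_injOn_image_eq (s := univ) (f := M.Γ.cls)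
    (t := P) fun x hx => image_univ.ge (h7 hx)
  exact ⟨S', h6.of_finite_image a1, Curves.covers_iff.2 h8,
    fun φ T h => h9 T (M.Γ.mem_range_rho.2 ⟨φ, h⟩)⟩

end END

theorem st_END (T : Tools) (hA : St_ENDA) (hP : St_ENDP) (hL : St_LAT) : St_END := by
  intro D F K _ _ M I
  obtain ⟨S, h1, h2, h3⟩ := hL D (END.geo T.ch hA hP I)
  exact END.fin0 (hA D F K M I.lef I.pos).1 T.ch h1 h2 h3

end Pool.Agent.Lib.CI
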