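import Pool.Agent.Lib.CI.BlueB
import Pool.Agent.Lib.MV.Log

open Set Pool.Agent.Lib.MP_e39d36_ag Pool.Agent.Lib.MP_e39d36_ag.Var
  Pool.Agent.Lib.MP_cc3443_ag Pool.Agent.Lib.MV Pool.Agent.Lib.MV.End Pool.Agent.Lib.MV.Fb
  Pool.Agent.Lib.DU

noncomputable section

namespace Pool.Agent.Lib.CI

open Pool.Agent.Lib.CI.Dat

namespace ENDA

variable {K : Type} [Field K] [Algebra ℂ K]

lemma dif {X : Var K} {J : Type} [Fintype J] (hs : Sm X) (Γ : Curves X) {st : J → Dv X}
    {W : Dv X} {c : J → ℂ} (h : MV.Res fun E => (W E : ℂ) - cmb c st E) (L : ℂ →ₗ[ℝ] ℝ) :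
    L 1 • nc Γ hs.fac W = ∑ s, L (c s) • nc Γ hs.fac (st s) := by
  have := Res.n2 (J := Option J) (c := fun j => j.elim 1 fun μ => -c μ)
    (W := fun j => j.elim W st) hs Γ (h.congr fun E => by
      simp [cmb, Fintype.sum_option, sub_eq_add_neg]) L
  rw [Fintype.sum_option] at this
  simp only [Option.elim, map_neg] at this
  rw [← sub_eq_zero, sub_eq_add_neg, ← Finset.sum_neg_distrib, ← this]
  exact congrArg _ (Finset.sum_congr rfl fun s _ => (neg_smul _ _).symm)

variable {D : Dat} {F : D.Fm} (M : Mod F K)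

lemma cl_apply (x : D.V) : M.cl x = ∑ s, x s • nc M.Γ M.sm.fac (M.st s) :=
  Fintype.linearCombination_apply _ _ _

lemma spn (h : M.Lef) (W : Dv M.X) : ∃ x, M.Cls W x := by
  obtain ⟨c, hc⟩ := h W
  exact ⟨fun s => (c s).re, by
    simpa [Mod.Cls, cl_apply] using dif M.sm M.Γ hc Complex.reLm⟩

lemma n1 (h : M.Lef) (hi : Function.Injective M.cl) {W : Dv M.X} {x : D.V} (hx : M.Cls W x) :
    MV.Res fun E => (W E : ℂ) - cmb (fun s => (x s : ℂ)) M.st E := by
  obtain ⟨c, hc⟩ := h W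
  have h1 := dif M.sm M.Γ hc Complex.reLm
  have h2 := dif M.sm M.Γ hc Complex.imLm
  simp only [Complex.reLm_coe, Complex.one_re, one_smul, Complex.imLm_coe, Complex.one_im,
    zero_smul] at h1 h2
  have h3 : x = fun s => (c s).re := hi (by rw [← hx, h1, cl_apply])
  have h4 : (fun s => (c s).im : D.V) = 0 := hi (by rw [cl_apply, ← h2, map_zero])
  obtain rfl : c = fun s => (x s : ℂ) := funext fun s =>
    Complex.ext (congrFun h3 s).symm (congrFun h4 s)
  exact hc

lemma rat (hi : Function.Injective M.cl) {W : Dv M.X} {x : D.V} (hx : M.Cls W x) :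
    ∃ (N : ℕ) (γ : D.Λ), 0 < N ∧ (N : ℝ) • x = cst γ := by
  obtain ⟨π, hπ⟩ := (Algebra.linearMap ℚ ℝ).exists_leftInverse_of_injective
    (LinearMap.ker_eq_bot.2 (algebraMap ℚ ℝ).injective)
  have h0 : ∀ z : ℤ, π z = z := fun z => by simpa using LinearMap.congr_fun hπ (z : ℚ)
  have h1 : ∀ c : {c // M.Γ.cv c}, ∑ s, x s * (M.Γ.int (M.st s) c.1 : ℝ) = M.Γ.int W c.1 :=
    fun c => by
    have := congrArg (M.Γ.evc c) hx.symm
    simp only [cl_apply, map_sum, map_smul, smul_eq_mul] at this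
    exact this
  have h2 : (fun s => (π (x s) : ℝ) : D.V) = x := hi (Subtype.ext (funext fun c => by
    rw [← hx]
    have h3 := congrArg π (h1 c)
    simp only [map_sum, h0, mul_comm (x _), ← zsmul_eq_mul, map_zsmul] at h3
    have h4 : M.Γ.evc c (M.cl fun s => (π (x s) : ℝ)) = M.Γ.int W c.1 := by
      simp only [cl_apply, map_sum, map_smul, smul_eq_mul]
      have h5 := congrArg (Rat.cast : ℚ → ℝ) h3
      simp only [zsmul_eq_mul] at h5
      push_cast at h5
      simp only [mul_comm (_ : ℝ) (π _ : ℝ)] at h5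
      exact h5
    exact h4))
  have h8 : ∀ s, ∃ m : ℤ, ((∏ s, (π (x s)).den : ℕ) : ℝ) * x s = m := fun s => by
    obtain ⟨m, hm⟩ : (π (x s)).den ∣ ∏ s, (π (x s)).den :=
      Finset.dvd_prod_of_mem _ (Finset.mem_univ s)
    refine ⟨m * (π (x s)).num, ?_⟩
    have h6 := congrArg (Rat.cast : ℚ → ℝ) (Rat.den_mul_eq_num (π (x s)))
    have h7 : (π (x s) : ℝ) = x s := congrFun h2 s
    rw [hm]
    push_cast at h6 ⊢
    rw [← h6, h7]
    ring
  choose γ hγ using h8
  exact ⟨∏ s, (π (x s)).den, γ, by positivity, funext hγ⟩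

end ENDA

theorem st_ENDA (_T : Tools) (hI : St_INJ0) : St_ENDA := by
  intro D F K _ _ M hL hP
  have hi : Function.Injective M.cl := (injective_iff_map_eq_zero _).2 fun x hx =>
    hI D _ hP x ⟨0, le_rfl, (map_zero _).trans hx.symm⟩
      ⟨0, le_rfl, (map_zero _).trans (by rw [map_neg, hx, neg_zero])⟩
  refine ⟨⟨hi, ?_⟩, fun φ e hp W ξ hx => ?_, fun W ξ hx => ENDA.rat M hi hx⟩
  · rintro ⟨y, hy⟩
    induction hy using Submodule.span_induction with
    | mem y hy =>
      obtain ⟨W, rfl⟩ := hy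
      exact (ENDA.spn M hL W.1).imp fun x hx => hx.symm
    | zero => exact ⟨0, map_zero _⟩
    | add y z _ _ h1 h2 =>
      obtain ⟨a, h1⟩ := h1
      obtain ⟨b, h2⟩ := h2
      exact ⟨a + b, by rw [map_add, h1, h2]; rfl⟩
    | smul c y _ h1 =>
      obtain ⟨a, h1⟩ := h1
      exact ⟨c • a, by rw [map_smul, h1]; rfl⟩
  · have := ENDA.dif (st := fun s => push e (M.st s)) (W := push e W) M.sm M.Γ
      (c := fun s => ξ s) (((ENDA.n1 M hL hi hx).push hp).congr fun E => by
        simp only [cmb, push_apply]) Complex.reLm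
    simpa only [Complex.reLm_coe, Complex.one_re, one_smul, Complex.ofReal_re] using this

end Pool.Agent.Lib.CI
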