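import Pool.Agent.Lib.CI.BlueB
import Pool.Agent.Lib.MV.End

open Set Pool.Agent.Lib.MP_e39d36_ag Pool.Agent.Lib.MP_e39d36_ag.Var
  Pool.Agent.Lib.MV Pool.Agent.Lib.MV.End

set_option linter.unusedVariables false

noncomputable section

namespace Pool.Agent.Lib.CI

open Pool.Agent.Lib.CI.Dat

theorem st_ENDP (T : Tools) (hA : St_ENDA) : St_ENDP := by
  intro D F K _ _ M hL hP e c hact
  obtain ⟨⟨φ, hp⟩, hc⟩ := hact
  obtain ⟨hb, hnum, -⟩ := hA D F K M hL hP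
  let Φ : D.V ≃ₗ[ℝ] M.Γ.N1 := LinearEquiv.ofBijective M.cl hb
  have hΦ : ∀ x, Φ x = M.cl x := fun _ => rfl
  have hcls : ∀ W, M.Cls W (Φ.symm (nc M.Γ M.sm.fac W)) := fun W =>
    (Φ.apply_symm_apply _).symm
  have hstd : ∀ γ : D.Λ, nc M.Γ M.sm.fac (M.std γ) = M.cl (cst γ) := fun γ => by
    simp only [Mod.std, Mod.cl, map_sum, map_zsmul, Fintype.linearCombination_apply, cst]
    exact Finset.sum_congr rfl fun s _ => (Int.cast_smul_eq_zsmul ℝ _ _).symm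
  have hlin : ∀ ξ : D.V, M.cl (lin c ξ) = ∑ s, ξ s • nc M.Γ M.sm.fac (push e (M.st s)) :=
    fun ξ => by
      rw [lin, Fintype.linearCombination_apply, map_sum]
      exact Finset.sum_congr rfl fun s _ => by
        rw [map_smul, (hc s).nc_eq M.Γ M.sm.fac, hstd]
  let ε : M.X.CD ≃ M.X.CD :=
    (push e).toEquiv.subtypeEquiv fun W => iff_of_true (M.sm.fac _) (M.sm.fac _)
  have h1 : ∀ W, (Φ.toLinearMap ∘ₗ lin c ∘ₗ Φ.symm.toLinearMap) (M.Γ.cls W) = M.Γ.cls (ε W) :=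
    fun W => (hlin _).trans (hnum φ e hp W.1 _ (hcls W.1)).symm
  obtain ⟨L, hL'⟩ := M.Γ.exists_equiv ε h1
    (g := Fintype.linearCombination ℝ (fun s => nc M.Γ M.sm.fac (push e.symm (M.st s))) ∘ₗ
      Φ.symm.toLinearMap) fun W =>
      (Fintype.linearCombination_apply ℝ _ _).trans (hnum _ _ hp.inv W.1 _ (hcls W.1)).symm
  refine ⟨φ, L, ⟨hp.1, e, ε, hp.2, fun W E => by simp [ε], hL'⟩, fun x => ?_⟩
  have h2 : L.toLinearMap = Φ.toLinearMap ∘ₗ lin c ∘ₗ Φ.symm.toLinearMap :=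
    Curves.lin_ext fun W => (hL' W).trans (h1 W).symm
  have h3 := LinearMap.congr_fun h2 (Φ x)
  simp only [LinearMap.comp_apply, LinearEquiv.coe_coe, LinearEquiv.symm_apply_apply] at h3
  exact h3

end Pool.Agent.Lib.CI
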