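import Pool.Agent.Lib.CI.BlueB

open MvPolynomial Set Matrix WithZero Pool.Agent.Lib.MP_e39d36_ag Pool.Agent.Lib.MP_e39d36_ag.Var
  Pool.Agent.Lib.MP_cc3443_ag Pool.Agent.Lib.MV Pool.Agent.Lib.MV.End Pool.Agent.Lib.MV.Fb
  Pool.Agent.Lib.DU

set_option linter.unusedSectionVars false
set_option linter.unusedVariables false

noncomputable section

namespace Pool.Agent.Lib.CI

open Pool.Agent.Lib.CI.Dat
open Pool.Agent.Lib.MV.G3 (acl Ov)

namespace F2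

variable {Ω : Type} [Field Ω] [Algebra ℂ Ω]

lemma adj_mem {n : Type} [Fintype n] [DecidableEq n] (k : IntermediateField ℂ Ω)
    (A : Matrix n n Ω) (h : ∀ p q, A p q ∈ k) (p q : n) : A.adjugate p q ∈ k := by
  let A' : Matrix n n k := Matrix.of fun p q => ⟨A p q, h p q⟩
  have e : A.adjugate p q = (A'.adjugate p q : Ω) :=
    (congrFun (congrFun ((algebraMap k Ω).map_adjugate A') p) q).symm
  rw [e]
  exact SetLike.coe_mem _

lemma rat (T : Tools) {D : Dat} {F : D.Fm} (hF : D.Hom F) {τ τ' : D.Ty} (hτ : τ ≠ τ')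
    {u : D.Vr → Ω} {lam : Ω} (h : Dbl F τ τ' u lam) (h1 : N1 u) (k : IntermediateField ℂ Ω)
    (hk : ∀ a, sl a ≠ ts τ → sl a ≠ ts τ' → u a ∈ k) (a : D.Vr) : u a ∈ k := by
  have h2 : ∀ p q, lam * u (co τ' q) * u (co τ p) ∈ k := fun p q => by
    rw [← h.adj]
    exact adj_mem k _ (fun p q => T.pi.mem k {a | sl a ≠ ts τ ∧ sl a ≠ ts τ'} u _
      (fun a ha => hk a ha.1 ha.2) fun u' hu => congrFun (congrFun
        (T.pi.mx_agr hF τ τ' u u' hτ fun a h3 h4 => hu a ⟨h3, h4⟩) p) q) q p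
  obtain ⟨a₀, h3, h4⟩ := h1 (ts τ)
  obtain ⟨p₀, rfl⟩ := T.sl.co_surj τ a₀ h3
  obtain ⟨b₀, h5, h6⟩ := h1 (ts τ')
  obtain ⟨q₀, rfl⟩ := T.sl.co_surj τ' b₀ h5
  have h7 : lam ∈ k := by simpa only [h4, h6, mul_one] using h2 p₀ q₀
  have h8 : ∀ z, lam * z ∈ k → z ∈ k := fun z hz => by
    simpa only [mul_div_cancel_left₀ _ h.ne] using div_mem hz h7
  by_cases e : sl a = ts τ
  · obtain ⟨p, rfl⟩ := T.sl.co_surj τ a e
    exact h8 _ (by simpa only [h6, mul_one] using h2 p q₀)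
  by_cases e' : sl a = ts τ'
  · obtain ⟨q, rfl⟩ := T.sl.co_surj τ' a e'
    exact h8 _ (by simpa only [h4, mul_one] using h2 p₀ q)
  exact hk a e e'

end F2

theorem st_F2 (T : Tools) : St_F2 := by
  intro D F hF τ τ' hτ Ω _ _ u lam h
  refine ⟨⟨h.nz, h.e2, h.e1, h.ne, fun p q => ?_⟩, funext fun σ => ?_, F2.rat T hF hτ h, ?_⟩
  · rw [T.pi.mx_t, ← adjugate_transpose, transpose_apply, h.adj, mul_right_comm]
  · simp only [gam, @or_comm (σ = ts τ'), @or_comm (τ' = none)]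
  · rintro ⟨ρ, h1, h2, h3⟩
    refine ⟨ρ, h1, h2, eq_top_iff.2 (h3.ge.trans (IntermediateField.adjoin_le_iff.2 ?_))⟩
    rintro _ ⟨a, -, rfl⟩
    exact F2.rat T hF hτ (T.sc.dbl hF τ τ' ρ u lam hτ h1 h) h2
      (IntermediateField.adjoin ℂ (sc ρ u '' off τ')) (fun b _ hb =>
        IntermediateField.subset_adjoin ℂ _ (mem_image_of_mem _ (by simpa [off] using hb))) a

end Pool.Agent.Lib.CI
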