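import Pool.Agent.Lib.CI.LDefs

/-! Farkas' lemma with integral functionals, by Fourier-Motzkin elimination. -/

open Set Submodule
open scoped NNReal

noncomputable section

namespace Pool.Agent.Lib.CI

namespace XFARK

variable {k : ℕ}

/-- the pairing -/
def ev (f : Fin k → ℤ) (x : Fin k → ℝ) : ℝ := ∑ s, (f s : ℝ) * x s

theorem ev_comb (a b : ℤ) (p q : Fin k → ℤ) (x : Fin k → ℝ) :
    ev (a • q - b • p) x = a * ev q x - b * ev p x := by
  simp only [ev, Finset.mul_sum, ← Finset.sum_sub_distrib, Pi.sub_apply, Pi.smul_apply,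
    smul_eq_mul, Int.cast_sub, Int.cast_mul]
  exact Finset.sum_congr rfl fun s _ => by ring

theorem ev_sub (f γ : Fin k → ℤ) (t : ℝ) (x : Fin k → ℝ) :
    ev f (x - t • fun s => (γ s : ℝ)) = ev f x - t * (f ⬝ᵥ γ : ℤ) := by
  simp only [ev, dotProduct, Finset.mul_sum, ← Finset.sum_sub_distrib, Pi.sub_apply, Pi.smul_apply,
    smul_eq_mul, Int.cast_sum, Int.cast_mul]
  exact Finset.sum_congr rfl fun s _ => by ring

theorem main (G : Set (Fin k → ℤ)) (hG : G.Finite) : ∃ F : Set (Fin k → ℤ), F.Finite ∧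
    (∀ f ∈ F, ∀ γ ∈ G, 0 ≤ f ⬝ᵥ γ) ∧ ∀ x : Fin k → ℝ, (∀ f ∈ F, 0 ≤ ev f x) →
      x ∈ span ℝ≥0 ((fun (γ : Fin k → ℤ) s => (γ s : ℝ)) '' G) := by
  induction G, hG using Set.Finite.induction_on with
  | empty =>
    refine ⟨range (fun s => Pi.single s 1) ∪ range (fun s => Pi.single s (-1)),
      (finite_range _).union (finite_range _), by simp, fun x hx => ?_⟩
    have : x = 0 := funext fun s => by
      have h1 := hx _ (Or.inl ⟨s, rfl⟩)
      have h2 := hx _ (Or.inr ⟨s, rfl⟩)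
      simp only [ev, Pi.single_apply, Int.cast_ite, ite_mul, Int.cast_zero, zero_mul,
        Finset.sum_ite_eq', Finset.mem_univ, if_true, Int.cast_one, Int.cast_neg] at h1 h2
      exact le_antisymm (by simpa using h2) (by simpa using h1)
    exact this ▸ zero_mem _
  | @insert γ G _ _ ih =>
    obtain ⟨F, hF, h1, h2⟩ := ih
    have hP : {f ∈ F | 0 ≤ f ⬝ᵥ γ}.Finite := hF.subset (sep_subset _ _)
    have hN : {f ∈ F | f ⬝ᵥ γ < 0}.Finite := hF.subset (sep_subset _ _)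
    refine ⟨{f ∈ F | 0 ≤ f ⬝ᵥ γ} ∪ image2 (fun p q => (p ⬝ᵥ γ) • q - (q ⬝ᵥ γ) • p)
      {f ∈ F | 0 ≤ f ⬝ᵥ γ} {f ∈ F | f ⬝ᵥ γ < 0}, hP.union (hP.image2 _ hN), ?_, fun x hx => ?_⟩
    · rintro f (hf | ⟨p, hp, q, hq, rfl⟩) δ (rfl | hδ)
      · exact hf.2
      · exact h1 f hf.1 δ hδ
      · simp only [sub_dotProduct, smul_dotProduct, smul_eq_mul, mul_comm, sub_self, le_refl]
      · simp only [sub_dotProduct, smul_dotProduct, smul_eq_mul]
        nlinarith [mul_nonneg hp.2 (h1 q hq.1 δ hδ),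
          mul_nonneg (neg_nonneg.2 hq.2.le) (h1 p hp.1 δ hδ)]
    obtain ⟨t, ht, hm⟩ := Set.exists_max_image
      (insert 0 ((fun q => ev q x / (q ⬝ᵥ γ : ℤ)) '' {f ∈ F | f ⬝ᵥ γ < 0})) id
      ((hN.image _).insert 0) (insert_nonempty _ _)
    have t0 : 0 ≤ t := hm 0 (mem_insert _ _)
    have key := h2 (x - t • fun s => (γ s : ℝ)) fun f hf => by
      rw [ev_sub, sub_nonneg]
      rcases le_or_gt 0 (f ⬝ᵥ γ) with h | h
      · rcases ht with rfl | ⟨q, hq, rfl⟩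
        · simpa using hx f (Or.inl ⟨hf, h⟩)
        · have h3 := hx _ (Or.inr ⟨f, ⟨hf, h⟩, q, hq, rfl⟩)
          have h4 : ((q ⬝ᵥ γ : ℤ) : ℝ) < 0 := by exact_mod_cast hq.2
          rw [ev_comb] at h3
          rw [div_mul_eq_mul_div, div_le_iff_of_neg h4]
          linarith
      · have h4 : ((f ⬝ᵥ γ : ℤ) : ℝ) < 0 := by exact_mod_cast h
        exact (div_le_iff_of_neg h4).1 (hm _ (Or.inr ⟨f, ⟨hf, h⟩, rfl⟩))
    rw [← sub_add_cancel x (t • fun s => (γ s : ℝ))]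
    exact add_mem (span_mono (image_mono (subset_insert _ _)) key)
      (MP_e39d36_ag.CG.smul_mem' t0 (subset_span ⟨γ, mem_insert _ _, rfl⟩))

end XFARK

theorem st_FARK : St_FARK := fun _ G hG x hx =>
  let ⟨_, _, h1, h2⟩ := XFARK.main G hG
  h2 x fun f hf => hx f (h1 f hf)

end Pool.Agent.Lib.CI
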