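import Pool.Agent.Lib.CI.BlueB

open MvPolynomial Set Matrix WithZero Pool.Agent.Lib.MP_e39d36_ag Pool.Agent.Lib.MP_e39d36_ag.Var
  Pool.Agent.Lib.MP_cc3443_ag Pool.Agent.Lib.MV Pool.Agent.Lib.MV.End Pool.Agent.Lib.MV.Fb
  Pool.Agent.Lib.DU

set_option linter.unusedSectionVars false
set_option linter.unusedVariables false

noncomputable section

namespace Pool.Agent.Lib.CI

open Pool.Agent.Lib.CI.Dat
open Pool.Agent.Lib.MV.G3 (acl Ov)

namespace FC

lemma log_prd {ι : Type} (A : Finset ι) (f : ι → ℤᵐ⁰) (h : ∀ s, f s ≠ 0) :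
    log (∏ s ∈ A, f s) = ∑ s ∈ A, log (f s) := by
  classical
  induction A using Finset.induction_on with
  | empty => simp
  | insert a A ha ih =>
    rw [Finset.prod_insert ha, Finset.sum_insert ha,
      log_mul (h a) (Finset.prod_ne_zero_iff.2 fun s _ => h s), ih]

variable {D : Dat} {K : Type} [Field K] [Algebra ℂ K]

/-- Segre coordinates of the chosen factors and coordinates of the others. -/
def uu (x : D.Hx → K) (A : Finset (Fin D.k)) : D.Ch ⊕ D.Hx → K :=
  Sum.elim (fun τ => ∏ s ∈ A, x ⟨s, τ s⟩) fun a => if a.1 ∈ A then 0 else x a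

/-- Their weights. -/
def ww (D : Dat) : D.Ch ⊕ D.Hx → ℕ := Sum.elim (fun _ => 1) fun _ => 0

lemma sub_range {x : D.Hx → K} (h1 : ∀ s, x ⟨s, 0⟩ = 1) (A : Finset (Fin D.k)) :
    range x ⊆ range (uu x A) := by
  rintro _ ⟨⟨s, p⟩, rfl⟩
  by_cases hs : s ∈ A
  · refine ⟨.inl (Function.update 0 s p), ?_⟩
    change ∏ t ∈ A, x ⟨t, Function.update (0 : D.Ch) s p t⟩ = _
    rw [Finset.prod_eq_single_of_mem s hs, Function.update_self]
    intro t _ ht
    rw [Function.update_of_ne ht]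
    exact h1 t
  · exact ⟨.inr ⟨s, p⟩, if_neg hs⟩

lemma uu0 {x : D.Hx → K} (h1 : ∀ s, x ⟨s, 0⟩ = 1) (A : Finset (Fin D.k)) :
    uu x A (.inl 0) = 1 := Finset.prod_eq_one fun s _ => h1 s

lemma rk_cst (T : Tools) {x : D.Hx → K} (h1 : ∀ s, x ⟨s, 0⟩ = 1) (A : Finset (Fin D.k)) :
    rk (insert (uu x A (.inl 0)) (uu x A '' {a | ww D a = 0})) ≤ ∑ s ∈ Aᶜ, D.n s := by
  have hc := T.rk.card x (Aᶜ.sigma fun s => Finset.univ.erase (0 : Fin (D.n s + 1)))
  rw [Finset.card_sigma] at hc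
  simp only [Finset.card_erase_of_mem (Finset.mem_univ _), Finset.card_univ, Fintype.card_fin,
    Nat.add_sub_cancel] at hc
  refine le_trans (T.rk.le ((Finset.finite_toSet _).image _) ?_) hc
  rintro z (rfl | ⟨τ | ⟨s, p⟩, ha, rfl⟩)
  · rw [uu0 h1]; exact one_mem _
  · exact absurd ha one_ne_zero
  · by_cases hs : s ∈ A
    · rw [show uu x A (.inr ⟨s, p⟩) = 0 from if_pos hs]; exact zero_mem _
    · rw [show uu x A (.inr ⟨s, p⟩) = x ⟨s, p⟩ from if_neg hs]
      by_cases hp : p = 0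
      · rw [hp, h1]; exact one_mem _
      · exact G3.subset_acl _ ⟨⟨s, p⟩, by simp [hs, hp], rfl⟩

end FC

open FC in
theorem st_FC (T : Tools) (hTD : St_TD) (hW : St_WGC) (hH : St_HCG) (hC : St_CRV) : St_FC := by
  classical
  intro D F hG K _ _ M A hA
  obtain ⟨hrk, hacl, -⟩ := hTD D F hG K M
  have hsub : range M.x ⊆ acl (range (uu M.x A)) :=
    (sub_range M.one A).trans (G3.subset_acl _)
  have hlt : rk (insert (uu M.x A (.inl 0)) (uu M.x A '' {a | ww D a = 0})) <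
      rk (range (uu M.x A)) := by
    have h1 := rk_cst T M.one A
    have h2 := T.rk.le (finite_range _) hsub
    have h3 := (T.sl.dm_add D).1
    have h4 := Finset.sum_compl_add_sum A D.n
    omega
  have htop : IntermediateField.adjoin ℂ ((Finset.univ.image M.x : Finset K) : Set K) = ⊤ := by
    have h := T.ch.top M 0
    have e : D.rat M.x 0 = M.x := funext fun a => by
      change M.x a / M.x ⟨a.1, 0⟩ = _
      rw [M.one, _root_.div_one]
    rwa [e, ← image_univ, ← Finset.coe_univ, ← Finset.coe_image] at h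
  obtain ⟨L, _, _, j, C, π, hpos, hP⟩ := hW K (D.Ch ⊕ D.Hx) (uu M.x A) (ww D) (.inl 0) _
    one_ne_zero (by rw [uu0 M.one]; exact one_ne_zero) hlt htop
    fun z => G3.acl_le hsub (hacl z)
  have hne : ∀ P s, nm (C.v P) (fun p => j (M.x ⟨s, p⟩)) ≠ 0 := fun P s => nm_ne fun h => by
    have := congrFun h 0
    simp [M.one] at this
  have hpr : ∀ P (τ : D.Ch), C.v P (j (uu M.x A (.inl τ))) = ∏ s ∈ A, C.v P (j (M.x ⟨s, τ s⟩)) :=
    fun P τ => by
      change C.v P (j (∏ s ∈ A, M.x ⟨s, τ s⟩)) = _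
      rw [map_prod, map_prod]
  have hA1 : ∀ P, ∏ s ∈ A, nm (C.v P) (fun p => j (M.x ⟨s, p⟩)) = C.v P (π P) := fun P => by
    obtain ⟨h0, hb, -, ⟨a, ha, he⟩, -⟩ := hP P
    refine le_antisymm ?_ ?_
    · choose τ hτ using fun s => exists_nm (v := C.v P) fun p => j (M.x ⟨s, p⟩)
      have h := hb (.inl τ)
      rw [show ww D (.inl τ) = 1 from rfl, pow_one, map_div₀,
        div_le_one₀ (zero_lt_iff.2 ((C.v P).ne_zero_iff.2 h0)), hpr] at h
      exact (Finset.prod_congr rfl fun s _ => hτ s).trans_le h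
    · rcases a with τ | a
      · rw [uu0 M.one, map_one, one_pow, show ww D (.inl τ) = 1 from rfl,
          show ww D (.inl 0) = 1 from rfl, pow_one, pow_one, div_eq_one_iff_eq h0] at he
        rw [← he, hpr]
        exact Finset.prod_le_prod' fun s _ => le_nm (fun p => j (M.x ⟨s, p⟩)) (τ s)
      · exact absurd rfl ha
  have hsum := (hC L C).2 (Fin D.k) (fun s => Fin (D.n s + 1)) (fun s => if s ∈ A then 1 else 0)
    (fun s p => j (M.x ⟨s, p⟩)) 1 (fun P => log (C.v P (π P))) fun P => by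
      rw [← hA1, log_prd _ _ (hne P), map_one, log_one, add_zero]
      simp
  refine ⟨fun s => ((C.deg fun p => j (M.x ⟨s, p⟩) : ℤ) : ℝ), fun s => ?_, fun h => ?_,
    fun s hs => ?_, fun ξ hξ => ?_⟩
  · exact Int.cast_nonneg (((hC L C).1 _ _).1)
  · rw [← hsum, Finset.sum_eq_zero] at hpos
    · exact lt_irrefl _ hpos
    · intro s _
      have : C.deg (fun p => j (M.x ⟨s, p⟩)) = 0 := Int.cast_eq_zero.1 (congrFun h s)
      rw [this, mul_zero]
  · refine Int.cast_eq_zero.2 (finsum_eq_zero_of_forall_eq_zero fun P => ?_)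
    have h1 : ∀ p, C.v P (j (M.x ⟨s, p⟩)) = 1 := fun p => (hP P).2.2.1 _
      (G3.subset_acl _ (Or.inr ⟨.inr ⟨s, p⟩, rfl, if_neg hs⟩)) (T.ch.ne M _)
    rw [le_antisymm (nm_le.2 fun p => (h1 p).le)
      ((h1 0).ge.trans (le_nm (fun p => j (M.x ⟨s, p⟩)) 0)), log_one]
  · exact (hH D F hG.hom K M L C j ξ hξ).trans_eq (Finset.sum_congr rfl fun s _ => mul_comm _ _)

end Pool.Agent.Lib.CI
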