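import Pool.Agent.Lib.CI.LDefs

/-! Intersections of rational cones are generated by lattice points. -/

open Set Submodule
open scoped NNReal

noncomputable section

namespace Pool.Agent.Lib.CI

namespace XFG

open MP_e39d36_ag.CG

/-- Integral points. -/
def lat (ι : Type) : AddSubgroup (ι → ℝ) where
  carrier := {w | ∀ i, ∃ n : ℤ, w i = n}
  add_mem' := fun {a b} ha hb i => by
    obtain ⟨n, hn⟩ := ha i
    obtain ⟨m, hm⟩ := hb i
    exact ⟨n + m, by simp [hn, hm]⟩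
  zero_mem' := fun i => ⟨0, by simp⟩
  neg_mem' := fun {a} ha i => by
    obtain ⟨n, hn⟩ := ha i
    exact ⟨-n, by simp [hn]⟩

theorem top {ι : Type} [Fintype ι] [DecidableEq ι] (w : ι → ℝ) :
    w ∈ span ℝ≥0 (range (fun i : ι => (Pi.single i 1 : ι → ℝ)) ∪
      range (fun i : ι => (Pi.single i (-1) : ι → ℝ))) := by
  rw [← Finset.univ_sum_single w]
  refine sum_mem fun i _ => ?_
  rcases le_total 0 (w i) with h | h
  · have : Pi.single i (w i) = w i • (Pi.single i 1 : ι → ℝ) := by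
      ext j
      simp [Pi.single_apply]
    exact this ▸ smul_mem' h (subset_span (Or.inl ⟨i, rfl⟩))
  · have : Pi.single i (w i) = (-w i) • (Pi.single i (-1) : ι → ℝ) := by
      ext j
      simp [Pi.single_apply]
    exact this ▸ smul_mem' (neg_nonneg.2 h) (subset_span (Or.inr ⟨i, rfl⟩))

/-- The functional with integral coefficients. -/
def fn {ι : Type} [Fintype ι] (f : ι → ℤ) : Module.Dual ℝ (ι → ℝ) :=
  ∑ i, (f i : ℝ) • LinearMap.proj i

theorem fn_apply {ι : Type} [Fintype ι] (f : ι → ℤ) (x : ι → ℝ) :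
    fn f x = ∑ i, (f i : ℝ) * x i := by
  simp [fn]

theorem gen {ι J : Type} [Fintype ι] [Finite J] (f : J → ι → ℤ) : ∃ S : Set (ι → ℝ), S.Finite ∧
    S ⊆ lat ι ∧ ∀ x, x ∈ span ℝ≥0 S ↔ ∀ j, 0 ≤ ∑ i, (f j i : ℝ) * x i := by
  classical
  obtain ⟨S, h1, h2, h3⟩ := cuts (lat ι) (univ : Set J) finite_univ (fun j => fn (f j))
    (fun j _ x hx => by
      choose n hn using hx
      exact ⟨∑ i, f j i * n i, by simp [fn_apply, hn]⟩)
    _ ((finite_range fun i : ι => (Pi.single i 1 : ι → ℝ)).union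
      (finite_range fun i : ι => (Pi.single i (-1) : ι → ℝ))) (by
      rintro _ (⟨i, rfl⟩ | ⟨i, rfl⟩) j
      · exact ⟨if j = i then 1 else 0, by simp [Pi.single_apply]⟩
      · exact ⟨if j = i then -1 else 0, by simp [Pi.single_apply]⟩)
  exact ⟨S, h1, h2, fun x => by rw [h3, and_iff_right (top x)]; simp [fn_apply]⟩

end XFG

open MP_e39d36_ag.CG in
theorem st_FG : St_FG := by
  classical
  intro k A _ _ G hG
  have : ∀ a, Fintype (G a) := fun a => (hG a).fintype
  have := Fintype.ofFinite A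
  let row : A → Fin k → ((Σ a, G a) ⊕ Fin k) → ℤ := fun a s =>
    Sum.elim (fun j => if j.1 = a then -j.2.1 s else 0) (Pi.single s 1)
  have hrow : ∀ a s (w : ((Σ a, G a) ⊕ Fin k) → ℝ), ∑ i, (row a s i : ℝ) * w i =
      w (.inr s) - ∑ γ : G a, w (.inl ⟨a, γ⟩) * γ.1 s := fun a s w => by
    rw [Fintype.sum_sum_type, Fintype.sum_sigma, Finset.sum_eq_single a, Finset.sum_eq_single s]
    · simp [row, mul_comm, sub_eq_neg_add]
    · intro b _ hb
      simp [row, hb]
    · simp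
    · intro b _ hb
      simp [row, hb]
    · simp
  obtain ⟨S, h1, h2, h3⟩ := XFG.gen (J := (Σ a, G a) ⊕ (A × Fin k) ⊕ (A × Fin k))
    (Sum.elim (fun j => Pi.single (.inl j) 1)
      (Sum.elim (fun p => row p.1 p.2) fun p => -row p.1 p.2))
  have h4 : ∀ w, w ∈ span ℝ≥0 S ↔ (∀ j, 0 ≤ w (.inl j)) ∧
      ∀ a s, w (.inr s) = ∑ γ : G a, w (.inl ⟨a, γ⟩) * γ.1 s := fun w => by
    rw [h3, Sum.forall, Sum.forall]
    simp only [Sum.elim_inl, Sum.elim_inr, Pi.neg_apply, Int.cast_neg, neg_mul,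
      Finset.sum_neg_distrib, hrow, Prod.forall]
    refine and_congr (forall_congr' fun j => by simp [Pi.single_apply]) ⟨fun h a s => ?_, fun h => ?_⟩
    · linarith [h.1 a s, h.2 a s]
    · exact ⟨fun a s => by rw [h a s]; simp, fun a s => by rw [h a s]; simp⟩
  refine ⟨(fun w s => ⌊w (.inr s)⌋) '' S, h1.image _, ?_, fun x hx => ?_⟩
  · rintro _ ⟨w, hw, rfl⟩ a
    obtain ⟨h5, h6⟩ := (h4 w).1 (subset_span hw)
    choose n hn using h2 hw
    have : (fun s => ⌊w (.inr s)⌋) = ∑ γ : G a, (n (.inl ⟨a, γ⟩)).toNat • γ.1 := by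
      funext s
      have h7 : ∀ γ : G a, ((n (.inl ⟨a, γ⟩)).toNat : ℤ) = n (.inl ⟨a, γ⟩) := fun γ =>
        Int.toNat_of_nonneg (by have := h5 ⟨a, γ⟩; rw [hn] at this; exact_mod_cast this)
      rw [h6 a s, Finset.sum_apply]
      simp only [hn, Pi.smul_apply]
      simp only [nsmul_eq_mul, h7]
      rw [← Int.floor_intCast (R := ℝ) (∑ γ : G a, n (.inl ⟨a, γ⟩) * γ.1 s)]
      push_cast
      rfl
    show (fun s => ⌊w (.inr s)⌋) ∈ _
    rw [this]
    exact sum_mem fun γ _ => nsmul_mem (AddSubmonoid.subset_closure γ.2) _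
  · have h5 : ∀ a, ∃ t : G a → ℝ, (∀ γ, 0 ≤ t γ) ∧ ∀ s, x s = ∑ γ : G a, t γ * γ.1 s := fun a => by
      have h6 := hx a
      rw [image_eq_range, mem_span_range_iff_exists_fun] at h6
      obtain ⟨t, rfl⟩ := h6
      exact ⟨fun γ => t γ, fun γ => (t γ).2, fun s => by simp [NNReal.smul_def]⟩
    choose t ht0 ht using h5
    have h6 := (h4 (Sum.elim (fun j => t j.1 j.2) x)).2 ⟨fun j => ht0 _ _, fun a s => ht a s⟩
    obtain ⟨c, hc0, hc⟩ := exists_coeff h1 h6
    have h7 : x = ∑ v ∈ h1.toFinset, c v • fun s => v (.inr s) := by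
      funext s
      simpa using congrFun hc (.inr s)
    rw [h7]
    refine sum_mem fun v hv => smul_mem' (hc0 v) (subset_span ?_)
    have hv' := h1.mem_toFinset.1 hv
    refine ⟨_, ⟨v, hv', rfl⟩, funext fun s => ?_⟩
    obtain ⟨n, hn⟩ := h2 hv' (.inr s)
    simp [hn]

end Pool.Agent.Lib.CI
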