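import Pool.Agent.Lib.CI.BlueB

open MvPolynomial Set Matrix WithZero Pool.Agent.Lib.MP_e39d36_ag Pool.Agent.Lib.MP_e39d36_ag.Var
  Pool.Agent.Lib.MP_cc3443_ag Pool.Agent.Lib.MV Pool.Agent.Lib.MV.End Pool.Agent.Lib.MV.Fb
  Pool.Agent.Lib.DU

noncomputable section

namespace Pool.Agent.Lib.CI

open Pool.Agent.Lib.CI.Dat

theorem st_FL1 (T : Tools) : St_FL1 := by
  intro D F hF τ τ' hτ Ω κ _ _ _ _ v R u lam ρ hD hρ hN hA
  have h1 := ((T.mp.red F R _ hN.1).2.2.2.2.1 τ τ' _ hN (T.sc.dbl hF τ τ' ρ u lam hτ hρ hD) hA).1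
  rw [map_mul] at h1
  have h2 := congrArg log h1
  rw [log_mul (left_ne_zero_of_mul_eq_one h1) (right_ne_zero_of_mul_eq_one h1), log_one,
    T.sc.log_chi v ρ _ hρ] at h2
  have h3 : ∀ σ, gam τ τ' σ * nu v u σ = -(gam τ τ' σ * log (v (ρ σ))) := fun σ => by
    have h4 := T.nrm.nu_sc v ρ u hD.nz hρ σ
    rw [T.nrm.nu_nw v _ hN σ] at h4
    rw [eq_neg_of_add_eq_zero_left h4.symm, mul_neg]
  simp only [h3, Finset.sum_neg_distrib]
  exact eq_neg_of_add_eq_zero_right h2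

end Pool.Agent.Lib.CI
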