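import Pool.Agent.Lib.CI.BlueB

open MvPolynomial Set Matrix WithZero Pool.Agent.Lib.MP_e39d36_ag Pool.Agent.Lib.MP_e39d36_ag.Var
  Pool.Agent.Lib.MP_cc3443_ag Pool.Agent.Lib.MV Pool.Agent.Lib.MV.End Pool.Agent.Lib.MV.Fb
  Pool.Agent.Lib.DU

set_option linter.unusedSectionVars false
set_option linter.unusedVariables false

noncomputable section

namespace Pool.Agent.Lib.CI

open Pool.Agent.Lib.CI.Dat
open Pool.Agent.Lib.MV.G3 (acl Ov)

theorem st_FLD (T : Tools) (hV : St_FLV) (hP : St_PD) : St_FLD := by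
  intro D F hF K _ _ M τ τ' hne u lam hd hb γ hγ
  have e : M.std (∑ σ ∈ Finset.univ.erase (ts τ), gam τ τ' σ • γ σ)
      = ∑ σ ∈ Finset.univ.erase (ts τ), gam τ τ' σ • M.std (γ σ) := by
    simp only [Mod.std, Finset.sum_apply, Pi.smul_apply, smul_eq_mul, Finset.sum_smul,
      Finset.smul_sum, smul_smul]
    exact Finset.sum_comm
  rw [e]
  refine LE.trans ⟨lam, hd.ne, Finsupp.ext fun E => ?_⟩
    (LE.sum fun σ hσ => (hγ σ (Finset.ne_of_mem_erase hσ)).zsmul (gam τ τ' σ))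
  have h := (hV D F hF τ τ' hne K (val E) ((hP D F hF K M).1 E).1 u lam hd (hb E)).1
  rw [← Finset.add_sum_erase _ _ (Finset.mem_univ (ts τ)),
    show gam τ τ' (ts τ) = -1 from if_pos (Or.inl rfl)] at h
  simp only [Finsupp.add_apply, Finsupp.finsetSum_apply, Finsupp.smul_apply, smul_eq_mul, Mod.SD,
    sd_apply, div_apply, ord_log]
  simp only [Dat.nu] at h
  linarith

end Pool.Agent.Lib.CI
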