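import Pool.Agent.Lib.CI.BlueB

open MvPolynomial Set Matrix WithZero Pool.Agent.Lib.MP_e39d36_ag Pool.Agent.Lib.MP_e39d36_ag.Var
  Pool.Agent.Lib.MP_cc3443_ag Pool.Agent.Lib.MV Pool.Agent.Lib.MV.End Pool.Agent.Lib.MV.Fb
  Pool.Agent.Lib.DU

set_option linter.unusedSectionVars false
set_option linter.unusedVariables false

noncomputable section

namespace Pool.Agent.Lib.CI

open Pool.Agent.Lib.CI.Dat
open Pool.Agent.Lib.MV.G3 (acl Ov)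

namespace FLV

variable {D : Dat} {F : D.Fm} {Ω κ : Type} [Field Ω] [Algebra ℂ Ω] [Field κ] [Algebra ℂ κ]
  {v : Valuation Ω ℤᵐ⁰}

theorem ind_iff (T : Tools) (R : Red v κ) (w : D.Vr → Ω) (hw : ∀ a, v (w a) ≤ 1) (A : Finset D.Vr)
    (e : ℕ) : IndV v (w '' A) e ↔ e ≤ rk ((R.r ∘ w) '' A) := by
  rw [Set.image_comp]
  refine T.red.ind R (A.finite_toSet.image _) ?_
  rintro _ ⟨a, -, rfl⟩
  exact hw a

theorem adj_ne (T : Tools) (hG : Gen F) {τ τ' : D.Ty} (hτ : τ ≠ τ') (hv : Cv v) {u : D.Vr → Ω}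
    (hE : Eqs F τ u) (hB : Big τ v u (D.dm - 1)) (R : Red v κ) {ρ : D.Sl → Ω} (hρ : ∀ σ, ρ σ ≠ 0)
    (hN : Nm v (sc ρ u)) : (Mx F τ τ' (R.r ∘ sc ρ u)).adjugate ≠ 0 := by
  intro h0
  have hr := T.mp.red F R (sc ρ u) hN.1
  have h1 := (ind_iff T R _ hN.1 _ _).1 ((T.nrm.big_iff hv τ u ρ _ hρ hN).1 hB)
  have h2 := hG.ck τ τ' hτ κ _
    ⟨hr.1.1 (T.nrm.nw hN), hr.2.2.1 τ ((T.sc.eqs hG.hom τ ρ u hρ).2 hE)⟩ h0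
  have h3 := T.sl.fr_off τ (R.r ∘ sc ρ u) ∅ (hr.2.1 hN.2) (Finset.empty_subset _) (by simp)
  have h4 := (T.sl.dm_add D).2.1
  omega

end FLV

open FLV in
theorem st_FLV (T : Tools) (hF2 : St_F2) (hFL1 : St_FL1) : St_FLV := by
  intro D F hG τ τ' hτ Ω _ _ v hv u lam hD hB
  have h3 : ∀ (κ : Type) [Field κ] [Algebra ℂ κ] (R : Red v κ) (ρ : D.Sl → Ω), (∀ σ, ρ σ ≠ 0) →
      Nm v (sc ρ u) → Dbl F τ τ' (R.r ∘ sc ρ u) (R.r (chi ρ (gam τ τ') * lam)) :=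
    fun κ _ _ R ρ hρ hN => ((T.mp.red F R (sc ρ u) hN.1).2.2.2.2.1 τ τ' _ (T.nrm.nw hN)
      (T.sc.dbl hG.hom τ τ' ρ u lam hτ hρ hD) (adj_ne T hG hτ hv hD.e1 hB R hρ hN)).2
  obtain ⟨κ, _, _, ⟨R⟩⟩ := T.red.ex hv
  refine ⟨?_, ?_, h3⟩
  · obtain ⟨ρ, hρ, hN⟩ := T.nrm.ex v u hD.nz
    exact hFL1 D F hG.hom τ τ' hτ Ω κ v R u lam ρ hD hρ (T.nrm.nw hN)
      (adj_ne T hG hτ hv hD.e1 hB R hρ hN)
  · rintro e ⟨ρ, hρ, hN, hI⟩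
    refine ⟨ρ, hρ, hN, (ind_iff T R _ hN.1 _ _).2 (((ind_iff T R _ hN.1 _ _).1 hI).trans ?_)⟩
    refine T.rk.le ((off τ').finite_toSet.image _) ?_
    rintro _ ⟨a, -, rfl⟩
    refine (hF2 D F hG.hom τ τ' hτ κ _ _ (h3 κ R ρ hρ hN)).2.2.1
      ((T.mp.red F R (sc ρ u) hN.1).2.1 hN.2) (acl ((R.r ∘ sc ρ u) '' off τ')) (fun b _ hb => ?_) a
    exact T.rk.adj _ (IntermediateField.subset_adjoin _ _ ⟨b, by simpa [off] using hb, rfl⟩)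

end Pool.Agent.Lib.CI
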