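import Pool.Agent.Lib.CI.BlueB

open MvPolynomial Set Matrix WithZero Pool.Agent.Lib.MP_e39d36_ag Pool.Agent.Lib.MP_e39d36_ag.Var
  Pool.Agent.Lib.MP_cc3443_ag Pool.Agent.Lib.MV Pool.Agent.Lib.MV.End Pool.Agent.Lib.MV.Fb
  Pool.Agent.Lib.DU

noncomputable section

namespace Pool.Agent.Lib.CI

open Pool.Agent.Lib.CI.Dat

theorem st_FLX (T : Tools) : St_FLX := by
  intro D F hF τ τ' hτ Ω _ _ u hu hB
  obtain ⟨ρ, hρ, hN, hI⟩ := hB
  have hA : (Mx F τ τ' u).adjugate ≠ 0 := fun h0 => by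
    have h1 : (Mx F τ τ' (sc ρ u)).adjugate = 0 := by
      ext q p
      rw [T.sc.adj hF.hom τ τ' ρ u hτ hρ p q, h0, Matrix.zero_apply, mul_zero]
    have h2 := hF.ck τ τ' hτ Ω (sc ρ u)
      ⟨(T.sc.nz ρ u hρ).2 hu.1, (T.sc.eqs hF.hom τ ρ u hρ).2 hu.2⟩ h1
    have h3 := T.sl.fr_off τ (sc ρ u) ∅ hN.2 (Finset.empty_subset _) (by simp)
    have h4 := ((T.red.triv Ω).2.2.2.2 _ _ ((off τ).finite_toSet.image _)).1 hI
    have h5 := (T.sl.dm_add D).2.1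
    omega
  have hne : ∀ q, sl (co τ' q) ≠ ts τ := fun q h =>
    hτ (T.sl.ts_inj ((T.sl.sl_co τ' q).symm.trans h)).symm
  have hw : u ∘ co τ' ≠ 0 := fun h => by
    obtain ⟨a, ha, ha0⟩ := hu.1 (ts τ')
    obtain ⟨p, rfl⟩ := T.sl.co_surj τ' a ha
    exact ha0 (congrFun h p)
  have hM : Mx F τ τ' u *ᵥ (u ∘ co τ') = 0 := by
    rw [T.pi.mx_mul hF.hom τ τ' u hτ]
    exact funext hu.2
  obtain ⟨l, hl, hlM⟩ := T.la.left _ _ hw hM
  obtain ⟨u', hag, hp⟩ := T.sl.put_co τ u l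
  obtain ⟨c, hc⟩ := T.la.adj _ _ _ hw hl hM hlM
  have hMx : Mx F τ τ' u' = Mx F τ τ' u := T.pi.mx_agr hF.hom τ τ' u u' hτ fun a h _ => hag a h
  refine ⟨u', c, hag, fun σ => ?_, fun p => ?_, fun p => ?_, fun h => hA ?_, fun p q => ?_⟩
  · by_cases h : σ = ts τ
    · obtain ⟨p, hp0⟩ := Function.ne_iff.1 hl
      exact ⟨co τ p, (T.sl.sl_co τ p).trans h.symm, by rw [hp]; exact hp0⟩
    · obtain ⟨a, ha, ha0⟩ := hu.1 σ
      exact ⟨a, ha, by rw [hag a (ha ▸ h)]; exact ha0⟩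
  · rw [T.pi.eqs_agr hF.hom τ u u' hag p]
    exact hu.2 p
  · have h := T.pi.mx_mul hF.hom τ' τ u' hτ.symm
    rw [T.pi.mx_t F τ τ' u', hMx, Matrix.mulVec_transpose, show u' ∘ co τ = l from funext hp,
      hlM] at h
    exact (congrFun h p).symm
  · ext q p
    rw [hc p q, h, zero_mul, zero_mul, Matrix.zero_apply]
  · rw [hMx, hc p q, hp p, hag _ (hne q)]
    rfl

end Pool.Agent.Lib.CI
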