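import Pool.Agent.Lib.CI.BlueA

open MvPolynomial Set Matrix WithZero Pool.Agent.Lib.MP_e39d36_ag Pool.Agent.Lib.MP_e39d36_ag.Var
  Pool.Agent.Lib.MP_cc3443_ag Pool.Agent.Lib.MV Pool.Agent.Lib.MV.End Pool.Agent.Lib.MV.Fb
  Pool.Agent.Lib.DU

set_option linter.unusedSectionVars false
set_option linter.unusedVariables false

noncomputable section

namespace Pool.Agent.Lib.CI

open Pool.Agent.Lib.CI.Dat
open Pool.Agent.Lib.MV.G3 (acl Ov)

namespace GCK

variable {D : Dat}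

/-- The sum of the equations is linear in a slot of length `m`. -/
lemma euler (T : Tools) {F : D.Fm} (hF : D.Hom F) {κ : Type} [Field κ] [Algebra ℂ κ] (τ : D.Ty)
    (v : D.Vr → κ) : ∑ j, v (.inl j) * aeval (v ∘ .inr) (F j) =
      ∑ p, v (co τ p) * aeval v (pderiv (co τ p) (FF F)) := by
  cases τ with
  | none => simp only [co, T.pi.d_inl]
  | some l =>
    simp only [co, T.pi.d_inr, Finset.mul_sum]
    rw [Finset.sum_comm]
    refine Finset.sum_congr rfl fun j _ => ?_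
    have h := T.pi.euler hF (v ∘ .inr) j l.1
    rw [d_I0, Nat.cast_one, one_mul] at h
    rw [← h, Finset.mul_sum]
    exact (Fintype.sum_equiv (finCongr l.2.symm) _ _ fun p => by
      simp only [finCongr_apply, Function.comp_apply]; ring).symm

/-- The value at a point whose slot is a basis vector. -/
lemma euler1 (T : Tools) {F : D.Fm} (hF : D.Hom F) {κ : Type} [Field κ] [Algebra ℂ κ] (τ : D.Ty)
    (v : D.Vr → κ) (p : Fin D.m) (hv : ∀ q, v (co τ q) = (Pi.single p 1 : Fin D.m → κ) q) :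
    ∑ j, v (.inl j) * aeval (v ∘ .inr) (F j) = aeval v (pderiv (co τ p) (FF F)) := by
  rw [euler T hF τ v, Finset.sum_eq_single p (fun q _ h => by simp [hv, h]) (by simp)]
  simp [hv]

/-- Testing on monomials. -/
lemma test (T : Tools) {κ C : Type} [Field κ] [Fintype C] (v : C → D.Vr → κ) (l : C → κ)
    (h : ∀ G : Fin D.m → MvPolynomial D.Hx κ, HomK G →
      ∑ c, l c * ∑ j, v c (.inl j) * eval (fun a => v c (.inr a)) (G j) = 0)
    (a : D.Sl → D.Vr) (ha : ∀ σ, sl (a σ) = σ) :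
    ∃ e : D.Sl → ℕ, (∀ τ, e (ts τ) = 1) ∧ ∑ c, l c * ∏ σ, v c (a σ) ^ e σ = 0 := by
  obtain ⟨j, hj⟩ : ∃ j, a none = .inl j := T.sl.co_surj none _ (ha none)
  have h1 : ∀ s, ∃ p, a (some s) = .inr ⟨s, p⟩ := fun s => by
    have := ha (some s)
    rcases e : a (some s) with b | ⟨t, p⟩
    · simp [e, sl] at this
    · obtain rfl : t = s := by simpa [e, sl] using this
      exact ⟨p, rfl⟩
  choose π hπ using h1
  refine ⟨fun σ => σ.elim 1 (D.d j), ?_, ?_⟩
  · rintro (_ | l)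
    · rfl
    · exact d_I0 l j
  · rw [← h _ (T.sl.homK j (fun s => X (π s) ^ D.d j s) fun s => by
      simpa using (isHomogeneous_X κ (π s)).pow (D.d j s))]
    refine Finset.sum_congr rfl fun c _ => ?_
    rw [Finset.sum_eq_single j (fun q _ h => by simp [h]) (by simp)]
    simp [Fintype.prod_option, hj, hπ]

/-- The test for two active slots. -/
lemma test2 (T : Tools) {κ C : Type} [Field κ] [Fintype C] (v : C → D.Vr → κ) (l : C → κ)
    (h : ∀ G : Fin D.m → MvPolynomial D.Hx κ, HomK G →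
      ∑ c, l c * ∑ j, v c (.inl j) * eval (fun a => v c (.inr a)) (G j) = 0)
    (u : D.Vr → κ) (hu : NZ u) (τ τ' : D.Ty) (hτ : τ ≠ τ')
    (hv : ∀ c a, sl a ≠ ts τ → sl a ≠ ts τ' → v c a = u a) (p q : Fin D.m) :
    ∑ c, l c * (v c (co τ p) * v c (co τ' q)) = 0 := by
  classical
  choose b hb hb' using hu
  have hne : ts τ ≠ ts τ' := fun e => hτ (T.sl.ts_inj e)
  obtain ⟨e, he, h0⟩ := test T v l h
    (fun σ => if σ = ts τ then co τ p else if σ = ts τ' then co τ' q else b σ) fun σ => by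
      split_ifs with h1 h2
      · rw [T.sl.sl_co, h1]
      · rw [T.sl.sl_co, h2]
      · exact hb σ
  have hR : ∏ σ ∈ (Finset.univ.erase (ts τ)).erase (ts τ'), u (b σ) ^ e σ ≠ 0 :=
    Finset.prod_ne_zero_iff.2 fun σ _ => pow_ne_zero _ (hb' σ)
  refine (mul_eq_zero.1 ?_).resolve_right hR
  rw [← h0, Finset.sum_mul]
  refine Finset.sum_congr rfl fun c _ => ?_
  rw [← Finset.mul_prod_erase _ _ (Finset.mem_univ (ts τ)),
    ← Finset.mul_prod_erase _ _ (Finset.mem_erase.2 ⟨hne.symm, Finset.mem_univ _⟩)]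
  simp only [if_true, if_neg hne.symm, he, pow_one, mul_assoc]
  congr 3
  refine Finset.prod_congr rfl fun σ hσ => ?_
  simp only [Finset.mem_erase] at hσ
  rw [if_neg hσ.2.1, if_neg hσ.1, hv c _ (by rw [hb]; exact hσ.2.1) (by rw [hb]; exact hσ.1)]

/-- A second kernel vector. -/
lemma second (T : Tools) {κ : Type} [Field κ] [Algebra ℂ κ] {n : ℕ} (M : Matrix (Fin n) (Fin n) κ)
    (p : Fin n) (h : M.adjugate = 0) :
    ∃ w q, w p = 0 ∧ w q = 1 ∧ M *ᵥ w = 0 ∧ fr w Finset.univ + 2 ≤ n := by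
  obtain ⟨w, hw, hp, hM⟩ := T.la.ker2 M p h
  obtain ⟨q, hq⟩ := Function.ne_iff.1 hw
  have hq : w q ≠ 0 := hq
  have hne : p ≠ q := fun e => hq (e ▸ hp)
  have h0 : ((w q)⁻¹ • w) p = 0 := by simp [hp]
  have h1 : ((w q)⁻¹ • w) q = 1 := by simp [hq]
  refine ⟨(w q)⁻¹ • w, q, h0, h1, by rw [mulVec_smul, hM, smul_zero], ?_⟩
  have := T.rk.fr_add ((w q)⁻¹ • w) Finset.univ {p, q} (Finset.subset_univ _) fun a ha => by
    rcases Finset.mem_insert.1 ha with rfl | ha
    · exact .inl h0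
    · exact .inr (Finset.mem_singleton.1 ha ▸ h1)
  simpa [Finset.card_pair hne] using this

lemma main (T : Tools) (h : St_GEV) (D : Dat) (τ τ' : D.Ty) (hτ : τ ≠ τ') :
    D.Gn fun F => ∀ (κ : Type) [Field κ] [Algebra ℂ κ] (u : D.Vr → κ),
      Cfg F τ u → (Mx F τ τ' u).adjugate = 0 → rk (u '' off τ) + D.m + 2 ≤ fr u (off τ) := by
  classical
  have hne : ts τ' ≠ ts τ := fun e => hτ (T.sl.ts_inj e).symm
  obtain ⟨P0, a0, b0⟩ := T.sl.put_co (Ω := MvPolynomial (D.Vr ⊕ Fin D.m) ℂ) τ'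
    (fun a => X (.inl a)) fun q => X (.inr q)
  have h1 := fun c : Fin D.m ⊕ Fin D.m => T.sl.put_co (Ω := MvPolynomial (D.Vr ⊕ Fin D.m) ℂ) τ
    (c.elim (fun _ a => X (.inl a)) fun _ => P0) (Pi.single (c.elim id id) 1)
  choose P aP bP using h1
  refine T.sl.gn_mono (h D (D.Vr ⊕ Fin D.m) (Fin D.m ⊕ Fin D.m) (fun c j => P c (.inl j))
    (fun c a => P c (.inr a)) fun _ => []) ?_
  intro F hF H κ _ _ u hu hadj
  obtain ⟨b, hb, hb'⟩ := hu.1 (ts τ')
  obtain ⟨p0, rfl⟩ := T.sl.co_surj τ' b hb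
  obtain ⟨w, q0, w0, w1, hM, hw⟩ := second T _ p0 hadj
  set u1 : D.Vr → κ := fun a => if a ∈ off τ then u a else 0 with hu1
  have e1 : ∀ a, sl a ≠ ts τ → u1 a = u a := fun a ha => if_pos (by simpa [off] using ha)
  set v : Fin D.m ⊕ Fin D.m → D.Vr → κ := fun c a => aeval (Sum.elim u1 w) (P c a) with hv
  have v1 : ∀ c q, v c (co τ q) = (Pi.single (c.elim id id) 1 : Fin D.m → κ) q := fun c q => by
    simp only [hv, bP, Pi.single_apply]
    split_ifs <;> simp
  have v2 : ∀ p, Agr (ts τ) u (v (.inl p)) := fun p a ha => by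
    simp [hv, aP _ a ha, e1 a ha]
  have v3 : ∀ p q, v (.inr p) (co τ' q) = w q := fun p q => by
    simp [hv, aP _ _ (by rw [T.sl.sl_co]; exact hne : sl (co τ' q) ≠ ts τ), b0]
  have v4 : ∀ c a, sl a ≠ ts τ → sl a ≠ ts τ' → v c a = u a := by
    rintro (p | p) a ha ha'
    · exact v2 p a ha
    · simp [hv, aP _ a ha, a0 a ha', e1 a ha]
  have H1 := H κ (Sum.elim u1 w) (fun c => ?_) fun l hl => ?_
  · rw [T.rk.fr_sum, Fintype.card_sum, Fintype.card_fin] at H1
    have f1 : fr u1 Finset.univ ≤ fr u (off τ) := T.rk.fr_le _ _ _ _ fun a _ h0 h1 => by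
      by_cases ha : a ∈ off τ
      · simp only [hu1, if_pos ha] at h0 h1
        exact ⟨ha, h0, h1⟩
      · simp [hu1, ha] at h0
    have f2 : rk (u '' off τ) ≤ rk (range (Sum.elim u1 w)) := T.rk.mono (finite_range _) (by
      rintro _ ⟨a, ha, rfl⟩
      exact ⟨.inl a, if_pos ha⟩)
    omega
  · refine (euler1 T hF τ (v c) _ (v1 c)).trans ?_
    rcases c with p | p
    · exact (T.pi.eqs_agr hF τ u _ (v2 p) p).trans (hu.2 p)
    · have := congrFun (T.pi.mx_mul hF τ τ' (v (.inr p)) hτ) p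
      rw [T.pi.mx_agr hF τ τ' u _ hτ (v4 _), show v (.inr p) ∘ co τ' = w from funext (v3 p),
        hM] at this
      exact this.symm
  · have t := fun p q => test2 T v l hl u hu.1 τ τ' hτ v4 p q
    have t' : ∀ p q, l (.inl p) * u (co τ' q) + l (.inr p) * w q = 0 := fun p q => by
      rw [← t p q, Fintype.sum_sum_type,
        Finset.sum_eq_single p (fun r _ h => by simp [v1, h.symm]) (by simp),
        Finset.sum_eq_single p (fun r _ h => by simp [v1, h.symm]) (by simp),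
        v2 p (co τ' q) (by rw [T.sl.sl_co]; exact hne), v3]
      simp [v1]
    have z1 : ∀ p, l (.inl p) = 0 := fun p => by simpa [w0, hb'] using t' p p0
    funext c
    rcases c with p | p
    · exact z1 p
    · simpa [w1, z1] using t' p q0

end GCK

theorem st_GCK (T : Tools) (h : St_GEV) : St_GCK := fun D => by
  classical
  refine T.sl.gn_mono (T.sl.gn_all (ι := {x : D.Ty × D.Ty // x.1 ≠ x.2})
    fun x => GCK.main T h D x.1.1 x.1.2 x.2) ?_
  intro F _ H τ τ' hτ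
  exact H ⟨(τ, τ'), hτ⟩

end Pool.Agent.Lib.CI
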