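import Pool.Agent.Lib.CI.BlueB
import Pool.Agent.Lib.CI.CRD

/-! The classes along the path. -/

set_option autoImplicit false
set_option linter.unusedVariables false

namespace Pool.Agent.Lib.CI

open Pool.Agent.Lib.CI.Dat

namespace GCL

variable {D : Dat}

lemma s0 (g : Fin D.k → ℤ) (t : Fin D.k) : ∑ s, g s * (Pi.single s 1 : D.Λ) t = g t := by
  simp [Pi.single_apply]

lemma s2 (g : Fin D.k → ℤ) {c : Fin D.k → D.Λ} {a b : Fin D.k} (hab : a ≠ b)
    (h : ∀ s, s ≠ a → s ≠ b → c s = Pi.single s 1) (t : Fin D.k) :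
    ∑ s, g s * c s t = g t + (g a * (c a t - if t = a then 1 else 0) +
      g b * (c b t - if t = b then 1 else 0)) := by
  have e : ∑ s, g s * c s t = g t + ∑ s, g s * (c s t - if t = s then 1 else 0) := by
    simp [mul_sub, Finset.sum_sub_distrib]
  rw [e, Fintype.sum_eq_add a b hab fun s hs => by simp [h s hs.1 hs.2, Pi.single_apply]]

lemma er (a : D.Sl) (g : D.Sl → ℤ) (x : D.Λ) (c : Fin D.k → D.Λ) (t : Fin D.k) :
    (∑ σ ∈ Finset.univ.erase a, g σ • (σ.elim x c : D.Λ)) t =
      g none * x t + ∑ s, g (some s) * c s t - g a * (a.elim x c : D.Λ) t := by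
  rw [Finset.sum_erase_eq_sub (Finset.mem_univ _), Fintype.sum_option]
  simp

lemma two (hm : D.m = 2) {j j' : Fin D.m} (h : j ≠ j') (t : Fin D.k) :
    (aa j : D.Λ) t = ∑ a, (aa a : D.Λ) t - (aa j' : D.Λ) t := by
  rw [Fintype.sum_eq_add j j' h fun a ha => ?_, add_sub_cancel_right]
  have h1 := a.2
  have h2 := j.2
  have h3 := j'.2
  have h4 := Fin.val_ne_of_ne ha.1
  have h5 := Fin.val_ne_of_ne ha.2
  have h6 := Fin.val_ne_of_ne h
  omega

end GCL

open GCL CRD in
theorem st_GCL (T : Tools) : St_GCL := by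
  intro D l
  have h1 := l.2
  refine ⟨funext fun t => ?_, fun l' hl => ?_, fun hm i => ?_, fun i => funext fun t => ?_⟩
  · rw [er, s0]
    simp only [gam, ts, zeta, hs, Pi.add_apply, Pi.sub_apply, Pi.smul_apply, Finset.sum_apply,
      sum_aa, Pi.single_apply, smul_eq_mul, Finset.mem_singleton]
    by_cases h : t = l.1
    · simp [h, h1]
    by_cases h3 : D.n t + 1 = D.m <;> simp [h, h3]
  · have hne : l.1 ≠ l'.1 := fun e => hl (Subtype.ext e)
    have h2 := l'.2
    refine ⟨funext fun t => ?_, funext fun t => ?_⟩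
    · rw [er, s0]
      simp only [gam, ts, gcol, if_true, hst, hs, Pi.add_apply, Pi.sub_apply, Pi.smul_apply,
        Pi.single_apply, smul_eq_mul, Finset.mem_singleton, Finset.mem_insert, Option.elim]
      by_cases h : t = l.1
      · simp [h, hne]
      by_cases h' : t = l'.1
      · simp [h', hne.symm]
        ring
      by_cases h3 : D.n t + 1 = D.m <;> simp [h, h', h3]
      ring
    · rw [er, s2 _ hne fun s h h' => by simp [gcol, h, h']]
      simp only [gam, ts, gcol, if_true, if_neg hne.symm, hs, Pi.add_apply, Pi.sub_apply,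
        Pi.smul_apply, Finset.sum_apply, sum_aa, smul_eq_mul, Finset.mem_singleton,
        Finset.mem_insert, Option.elim]
      by_cases h : t = l.1
      · simp [h, hne, h1]
        ring
      by_cases h' : t = l'.1
      · simp [h', hne, hne.symm, h1, h2]
        ring
      by_cases h3 : D.n t + 1 = D.m <;> simp [h, h', h3, hne, h1] <;> ring
  · have h2 := i.2
    have hne : l.1 ≠ i.1 := fun e => by rw [e] at h1; omega
    have h4 : ¬ D.n i.1 + 1 = D.m := by omega
    have h5 : (D.m : ℤ) = 2 := by exact_mod_cast hm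
    have h6 : (D.n i.1 : ℤ) = 2 := by exact_mod_cast h2.trans hm
    have k := fun (g : Fin D.k → ℤ) t =>
      s2 g (c := icol l i) hne.symm (fun s h h' => by simp [icol, h, h']) t
    refine ⟨funext fun t => ?_, fun j hj => funext fun t => ?_⟩
    · rw [er, k]
      simp only [Pi.add_apply, Finset.sum_apply, Pi.smul_apply, smul_eq_mul, k, Option.elim]
      simp only [gam, ts, icol, if_true, if_neg hne, iH, Lam, kap, alp, zeta, hs, Pi.add_apply,
        Pi.sub_apply, Pi.smul_apply, Finset.sum_apply, sum_aa, Pi.single_apply, smul_eq_mul,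
        Finset.mem_singleton, Option.elim]
      simp only [aa_eq, aW]
      by_cases h : t = i.1
      · simp [h, h1, h4, hne.symm, d_jj, h6]
      by_cases h' : t = l.1
      · simp [h', h1, h4, hne, hne.symm, d_jj, h6]
      by_cases h3 : D.n t + 1 = D.m <;> simp [h, h', h1, h3, h4, h5, h6, hne.symm, d_jj] <;> ring
    · simp only [Pi.add_apply, Finset.sum_apply, Pi.smul_apply, smul_eq_mul, k]
      simp only [icol, if_true, if_neg hne, om, iH, Lam, kap, alp, zeta, hs, Pi.add_apply,
        Pi.sub_apply, Pi.smul_apply, Finset.sum_apply, two hm hj, sum_aa, Pi.single_apply,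
        smul_eq_mul, Finset.mem_singleton]
      simp only [aa_eq]
      by_cases h : t = i.1
      · simp [h, h1, h4, hne, hne.symm, d_jj, h6]
      by_cases h' : t = l.1
      · simp [h', h1, h4, hne, hne.symm, d_jj, h6]
      by_cases h3 : D.n t + 1 = D.m <;>
        simp [h, h', h1, h3, h4, h5, h6, hne, hne.symm, d_jj] <;> ring
  · rw [Fintype.sum_option]
    simp only [Pi.add_apply, Finset.sum_apply, Pi.smul_apply, smul_eq_mul, Option.elim, s0, wT, wc,
      tcl, Pi.sub_apply]
    ring

end Pool.Agent.Lib.CI
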