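import Pool.Agent.Lib.CI.BlueA

open MvPolynomial Set Matrix WithZero Pool.Agent.Lib.MP_e39d36_ag Pool.Agent.Lib.MP_e39d36_ag.Var
  Pool.Agent.Lib.MP_cc3443_ag Pool.Agent.Lib.MV Pool.Agent.Lib.MV.End Pool.Agent.Lib.MV.Fb
  Pool.Agent.Lib.DU

set_option linter.unusedSectionVars false
set_option linter.unusedVariables false

noncomputable section

namespace Pool.Agent.Lib.CI

open Pool.Agent.Lib.CI.Dat
open Pool.Agent.Lib.MV.G3 (acl Ov)

namespace GCNT

variable {D : Dat}

/-- A monomial of the degree of the `j`-th form. -/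
def mono (κ : Type) [Field κ] (p : D.Ch) (j : Fin D.m) : MvPolynomial D.Hx κ :=
  ∏ s, X ⟨s, p s⟩ ^ D.d j s

theorem homK_mono (T : Tools) (κ : Type) [Field κ] (p : D.Ch) (j : Fin D.m) :
    HomK (Pi.single j (mono κ p j) : Fin D.m → MvPolynomial D.Hx κ) := by
  have h := T.sl.homK (κ := κ) j (fun s => X (p s) ^ D.d j s)
    fun s => isHomogeneous_X_pow _ _
  simpa only [mono, map_pow, rename_X] using h

open Classical in
/-- The point with the omitted slot set to zero. -/
def cut {κ : Type} [Field κ] (τ : D.Ty) (u : D.Vr → κ) (a : D.Vr) : κ :=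
  if sl a = ts τ then 0 else u a

theorem cut_of {κ : Type} [Field κ] {τ : D.Ty} (u : D.Vr → κ) {a : D.Vr} (h : sl a ≠ ts τ) :
    cut τ u a = u a := if_neg h

theorem finish (T : Tools) {κ : Type} [Field κ] [Algebra ℂ κ] (τ : D.Ty) (u : D.Vr → κ)
    (h : rk (range (cut τ u)) + Fintype.card (Fin D.m) ≤ fr (cut τ u) Finset.univ) :
    rk (u '' off τ) + D.m ≤ fr u (off τ) := by
  rw [Fintype.card_fin] at h
  have h1 : rk (u '' off τ) ≤ rk (range (cut τ u)) := by
    refine T.rk.mono (finite_range _) ?_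
    rintro _ ⟨a, ha, rfl⟩
    exact ⟨a, cut_of u (Finset.mem_filter.1 ha).2⟩
  have h2 : fr (cut τ u) Finset.univ ≤ fr u (off τ) := by
    refine T.rk.fr_le _ _ _ _ fun a _ h0 h1 => ?_
    have ha : sl a ≠ ts τ := fun e => h0 (if_pos e)
    rw [cut_of u ha] at h0 h1
    exact ⟨Finset.mem_filter.2 ⟨Finset.mem_univ _, ha⟩, h0, h1⟩
  omega

theorem chart {κ : Type} [Field κ] {u : D.Vr → κ} (h : NZ u) :
    ∃ p : D.Ch, ∀ s, u (.inr ⟨s, p s⟩) ≠ 0 := by
  have : ∀ s, ∃ q : Fin (D.n s + 1), u (.inr ⟨s, q⟩) ≠ 0 := fun s => by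
    obtain ⟨a, ha, h0⟩ := h (some s)
    rcases a with j | ⟨s', q⟩
    · exact absurd ha (by simp [sl])
    · obtain rfl : s' = s := by simpa [sl] using ha
      exact ⟨q, h0⟩
  choose p hp using this
  exact ⟨p, hp⟩

theorem left_ne {κ : Type} [Field κ] {u : D.Vr → κ} (h : NZ u) : ∃ j, u (.inl j) ≠ 0 := by
  obtain ⟨a, ha, h0⟩ := h none
  rcases a with j | a
  · exact ⟨j, h0⟩
  · exact absurd ha (by simp [sl])

theorem pd_mono {κ : Type} [Field κ] (l : D.I0) (p : D.Ch) (j : Fin D.m) (q : Fin (D.n l.1 + 1))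
    (y : D.Hx → κ) : eval y (pderiv ⟨l.1, q⟩ (mono κ p j)) =
      if p l.1 = q then ∏ s ∈ Finset.univ.erase l.1, y ⟨s, p s⟩ ^ D.d j s else 0 := by
  classical
  have h0 : pderiv (⟨l.1, q⟩ : D.Hx) (∏ s ∈ Finset.univ.erase l.1,
      (X ⟨s, p s⟩ ^ D.d j s : MvPolynomial D.Hx κ)) = 0 := by
    refine Finset.prod_induction _ (fun P => pderiv (⟨l.1, q⟩ : D.Hx) P = 0) ?_ ?_ ?_
    · intro a b ha hb
      rw [Derivation.leibniz, ha, hb, smul_zero, smul_zero, add_zero]
    · exact Derivation.map_one_eq_zero _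
    · intro s hs
      have hne : (⟨s, p s⟩ : D.Hx) ≠ ⟨l.1, q⟩ := fun e =>
        (Finset.mem_erase.1 hs).1 (congrArg Sigma.fst e)
      rw [Derivation.leibniz_pow, pderiv_X_of_ne hne, smul_zero, smul_zero]
  rw [mono, ← Finset.mul_prod_erase _ _ (Finset.mem_univ l.1), d_I0, pow_one, Derivation.leibniz,
    h0, smul_zero, zero_add]
  split_ifs with h
  · rw [h, pderiv_X_self]
    simp
  · have hne : (⟨l.1, p l.1⟩ : D.Hx) ≠ ⟨l.1, q⟩ := fun e => h (eq_of_heq (Sigma.mk.inj e).2)
    rw [pderiv_X_of_ne hne]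
    simp

theorem cnt_none (T : Tools) (hG : St_GEV) (D : Dat) : D.Gn fun F =>
    ∀ (κ : Type) [Field κ] [Algebra ℂ κ] (u : D.Vr → κ), Cfg F none u →
      rk (u '' off (D := D) none) + D.m ≤ fr u (off none) := by
  classical
  refine T.sl.gn_mono (hG D D.Vr (Fin D.m) (fun c j => if j = c then 1 else 0)
    (fun _ a => X (.inr a)) fun _ => []) fun F hF h κ _ _ u hu => ?_
  have hy : (fun a : D.Hx => aeval (cut none u) (X (.inr a) : MvPolynomial D.Vr ℂ))
      = u ∘ .inr := by
    funext a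
    rw [aeval_X]
    exact cut_of u (by simp [sl, ts])
  refine finish T none u (h κ (cut none u) (fun c => ?_) fun l hl => ?_)
  · rw [hy, Finset.sum_eq_single c (fun j _ hj => by simp [hj]) (by simp)]
    have := hu.2 c
    rw [co, T.pi.d_inl] at this
    simp [dl, this]
  · obtain ⟨p, hp⟩ := chart hu.1
    funext j
    have h1 := hl _ (homK_mono T κ p j)
    rw [hy, Finset.sum_eq_single j, Finset.sum_eq_single j (fun i _ hi => by simp [hi])
      (by simp)] at h1
    · simp only [dl, List.foldr_nil, if_true, map_one, one_mul, Pi.single_eq_same, mono, map_prod,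
        map_pow, eval_X] at h1
      exact (mul_eq_zero.1 h1).resolve_right
        (Finset.prod_ne_zero_iff.2 fun s _ => pow_ne_zero _ (hp s))
    · intro c _ hc
      rw [Finset.sum_eq_single c (fun i _ hi => by simp [hi]) (by simp)]
      simp [dl, Pi.single_eq_of_ne hc]
    · simp

theorem cnt_some (T : Tools) (hG : St_GEV) (D : Dat) (l : D.I0) : D.Gn fun F =>
    ∀ (κ : Type) [Field κ] [Algebra ℂ κ] (u : D.Vr → κ), Cfg F (some l) u →
      rk (u '' off (some l)) + D.m ≤ fr u (off (some l)) := by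
  classical
  refine T.sl.gn_mono (hG D D.Vr (Fin D.m) (fun _ j => X (.inl j))
    (fun _ a => X (.inr a)) fun c => [⟨l.1, c.cast l.2.symm⟩]) fun F hF h κ _ _ u hu => ?_
  refine finish T (some l) u (h κ (cut (some l) u) (fun c => ?_) fun lam hl => ?_)
  · have h1 := T.pi.eqs_agr hF (some l) u (cut (some l) u) (fun a ha => cut_of u ha) c
    rw [hu.2 c, co, T.pi.d_inr] at h1
    simpa only [aeval_X, dl, List.foldr_cons, List.foldr_nil, Function.comp_def] using h1
  · obtain ⟨p, hp⟩ := chart hu.1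
    obtain ⟨j, hj⟩ := left_ne hu.1
    funext c
    have h1 := hl _ (homK_mono T κ (Function.update p l.1 (c.cast l.2.symm)) j)
    have h2 : ∀ c' : Fin D.m, ∑ i, aeval (cut (some l) u) (X (.inl i) : MvPolynomial D.Vr ℂ) *
        eval (fun a : D.Hx => aeval (cut (some l) u) (X (.inr a) : MvPolynomial D.Vr ℂ))
          (dl [(⟨l.1, c'.cast l.2.symm⟩ : D.Hx)] ((Pi.single j (mono κ
            (Function.update p l.1 (c.cast l.2.symm)) j) : Fin D.m → MvPolynomial D.Hx κ) i)) =
        if c = c' then u (.inl j) * ∏ s ∈ Finset.univ.erase l.1, u (.inr ⟨s, p s⟩) ^ D.d j s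
          else 0 := by
      intro c'
      rw [Finset.sum_eq_single j (fun i _ hi => by simp [dl, Pi.single_eq_of_ne hi]) (by simp)]
      simp only [dl, List.foldr_cons, List.foldr_nil, Pi.single_eq_same, aeval_X]
      rw [pd_mono, Function.update_self, cut_of u (by simp [sl, ts])]
      by_cases hc : c = c'
      · rw [if_pos hc, if_pos (by rw [hc])]
        congr 1
        refine Finset.prod_congr rfl fun s hs => ?_
        have hs' := (Finset.mem_erase.1 hs).1
        rw [Function.update_of_ne hs', cut_of u (by simpa [sl, ts] using hs')]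
      · rw [if_neg hc, if_neg (fun e => hc (Fin.cast_injective _ e)), mul_zero]
    simp only [h2, mul_ite, mul_zero, Finset.sum_ite_eq, Finset.mem_univ, if_true] at h1
    exact (mul_eq_zero.1 h1).resolve_right (mul_ne_zero hj
      (Finset.prod_ne_zero_iff.2 fun s _ => pow_ne_zero _ (hp s)))

end GCNT

theorem st_GCNT (T : Tools) (hG : St_GEV) : St_GCNT := fun D =>
  T.sl.gn_all (ι := D.Ty) (p := fun τ F => ∀ (κ : Type) [Field κ] [Algebra ℂ κ] (u : D.Vr → κ),
    Cfg F τ u → rk (u '' off τ) + D.m ≤ fr u (off τ)) fun τ =>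
      match τ with
      | none => GCNT.cnt_none T hG D
      | some l => GCNT.cnt_some T hG D l

end Pool.Agent.Lib.CI
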