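import Pool.Agent.Lib.CI.BlueA
import Pool.Agent.Lib.MV.H_LIN
import Pool.Agent.Lib.MV.H_SPR

open MvPolynomial Set

set_option linter.unusedSectionVars false

noncomputable section

namespace Pool.Agent.Lib.CI

open Pool.Agent.Lib.MV.G3 (acl Ov subset_acl acl_mono st_lin st_spr0)

namespace GENM

lemma aeval_mem {Ω U : Type} [Field Ω] [Algebra ℂ Ω] (k : IntermediateField ℂ Ω) {u : U → Ω}
    (h : ∀ a, u a ∈ k) (P : MvPolynomial U ℂ) : aeval u P ∈ k := by
  induction P using MvPolynomial.induction_on with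
  | C c => rw [aeval_C]; exact k.algebraMap_mem c
  | add p q hp hq => rw [map_add]; exact add_mem hp hq
  | mul_X p a hp => rw [map_mul, aeval_X]; exact mul_mem hp (h a)

variable {m : ℕ} {U C : Type} [Fintype U] [Fintype C] [DecidableEq C]

lemma bound {Ω : Type} [Field Ω] [Algebra ℂ Ω] (M : C → Fin m → MvPolynomial U ℂ) (u : U → Ω)
    (x : Fin m → Ω) (t : Fin m × C → Ω) (A : Finset U) {e : ℕ} (S : Fin e → U)
    (h1 : ∀ c, ∑ n, aeval u (M c n) * x n = 0) (h2 : ∀ a ∉ A, u a = 0 ∨ u a = 1)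
    (h3 : ∀ c c', ∑ n, aeval u (M c n) * t (n, c') = if c = c' then 1 else 0)
    (h4 : AlgebraicIndependent ℂ (Sum.elim x (u ∘ S))) : e + Fintype.card C ≤ A.card := by
  classical
  have hu : ∀ a, u a ∈ acl (u '' A) := fun a => by
    by_cases ha : a ∈ A
    · exact subset_acl _ ⟨a, ha, rfl⟩
    · rcases h2 a ha with h | h <;> rw [h]
      exacts [zero_mem _, one_mem _]
  have li : LinearIndependent Ω fun c n => aeval u (M c n) := by
    refine Fintype.linearIndependent_iff.2 fun l hl c' => ?_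
    have : ∑ c, l c * ∑ n, aeval u (M c n) * t (n, c') = 0 := by
      simp only [Finset.mul_sum, ← mul_assoc]
      rw [Finset.sum_comm]
      refine Finset.sum_eq_zero fun n _ => ?_
      have := congrFun hl n
      simp only [Finset.sum_apply, Pi.smul_apply, smul_eq_mul, Pi.zero_apply] at this
      rw [← Finset.sum_mul, this, zero_mul]
    simpa [h3] using this
  obtain ⟨e', b, y, c1, c2, c3⟩ := st_lin Ω (acl (u '' A)) (Fin m) (Fintype.card C)
    (fun i n => aeval u (M ((Fintype.equivFin C).symm i) n)) x (fun _ _ => aeval_mem _ hu _)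
    (li.comp _ (Fintype.equivFin C).symm.injective) fun i => h1 _
  have ov : Ov ∅ (range (Sum.elim x (u ∘ S))) (A.card + e') := by
    refine ⟨A.image u ∪ Finset.univ.image y, (Finset.card_union_le _ _).trans
      (add_le_add Finset.card_image_le (Finset.card_image_le.trans (by simp))), ?_⟩
    have s1 : acl (u '' A) ≤ acl (∅ ∪ ((A.image u ∪ Finset.univ.image y : Finset Ω) : Set Ω)) :=
      acl_mono (by simp)
    rintro _ ⟨n | i, rfl⟩
    · rw [Sum.elim_inl, c3, Finset.sum_apply]
      exact sum_mem fun j _ => mul_mem (subset_acl _ (by simp)) (s1 (c2 j n))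
    · exact s1 (hu _)
  have := ov.card_le h4
  simp only [Fintype.card_sum, Fintype.card_fin] at this c1
  omega

lemma pat (M : C → Fin m → MvPolynomial U ℂ) (A : Finset U) (Z : U → Bool) {e : ℕ}
    (S : Fin e → U) : MV.G3.Gn fun a : Fin m → ℂ => ∀ (κ : Type) [Field κ] [Algebra ℂ κ]
      (u : U → κ) (t : Fin m × C → κ), (∀ c, ∑ n, aeval u (M c n) * algebraMap ℂ κ (a n) = 0) →
      (∀ a ∉ A, u a = if Z a then 1 else 0) →
      (∀ c c', ∑ n, aeval u (M c n) * t (n, c') = if c = c' then 1 else 0) →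
      AlgebraicIndependent ℂ (u ∘ S) → e + Fintype.card C ≤ A.card := by
  by_cases h : e + Fintype.card C ≤ A.card
  · exact ⟨1, one_ne_zero, fun _ _ _ _ _ _ _ _ _ _ _ => h⟩
  have nat : ∀ {Ω : Type} [Field Ω] [Algebra ℂ Ω]
      (ψ : MvPolynomial (Fin m ⊕ U ⊕ Fin m × C) ℂ →ₐ[ℂ] Ω) (P : MvPolynomial U ℂ),
      ψ (rename (fun a => .inr (.inl a)) P) = aeval (fun a => ψ (X (.inr (.inl a)))) P :=
    fun ψ P => by
      rw [← aeval_X_left_apply (rename _ P), comp_aeval_apply, aeval_rename]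
      rfl
  refine (st_spr0 (MvPolynomial (Fin m ⊕ U ⊕ Fin m × C) ℂ)
    {z | (∃ c, z = ∑ n, rename (fun a => .inr (.inl a)) (M c n) * X (.inl n)) ∨
      (∃ a ∉ A, z = X (.inr (.inl a)) - if Z a then 1 else 0) ∨
      ∃ c c', z = ∑ n, rename (fun a => .inr (.inl a)) (M c n) * X (.inr (.inr (n, c'))) -
        if c = c' then 1 else 0} m e (fun n => X (.inl n)) (fun i => X (.inr (.inl (S i))))
    fun Ω _ _ ψ hψ hi => h (bound M (fun a => ψ (X (.inr (.inl a)))) (fun n => ψ (X (.inl n)))
      (fun p => ψ (X (.inr (.inr p)))) A S (fun c => ?_) (fun a ha => ?_) (fun c c' => ?_)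
      hi)).mono fun a ha κ _ _ u t h1 h2 h3 h4 => ?_
  · simpa only [map_sum, map_mul, nat] using hψ _ (.inl ⟨c, rfl⟩)
  · have := hψ _ (.inr (.inl ⟨a, ha, rfl⟩))
    cases hZ : Z a <;> simp [hZ, sub_eq_zero] at this <;> simp [this]
  · have := hψ _ (.inr (.inr ⟨c, c', rfl⟩))
    simpa only [map_sub, map_sum, map_mul, nat, sub_eq_zero, apply_ite ψ, map_one, map_zero]
      using this
  · refine absurd ?_ (ha κ (aeval (Sum.elim (algebraMap ℂ κ ∘ a) (Sum.elim u t))) ?_ ?_)
    · have : (aeval (R := ℂ) (Sum.elim (algebraMap ℂ κ ∘ a) (Sum.elim u t))) ∘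
          (fun i => X (.inr (.inl (S i)))) = u ∘ S := funext fun i => by simp
      rwa [this]
    · rintro z (⟨c, rfl⟩ | ⟨b, hb, rfl⟩ | ⟨c, c', rfl⟩)
      · simpa [map_sum, aeval_rename, Function.comp_def] using h1 c
      · cases hZ : Z b <;> simp [h2 b hb, hZ]
      · have := h3 c c'
        split_ifs at this ⊢ <;> simpa [map_sum, aeval_rename, Function.comp_def, sub_eq_zero]
          using this
    · funext n
      simp

lemma core (T : St_RK) (M : C → Fin m → MvPolynomial U ℂ) :
    MV.G3.Gn fun a : Fin m → ℂ => ∀ (κ : Type) [Field κ] [Algebra ℂ κ] (u : U → κ),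
      (∀ c, ∑ n, aeval u (M c n) * algebraMap ℂ κ (a n) = 0) →
      (LinearIndependent κ fun c n => aeval u (M c n)) →
      rk (range u) + Fintype.card C ≤ fr u Finset.univ := by
  classical
  refine (MV.G3.Gn.all fun i : Σ e : Fin (Fintype.card U + 1), (Fin e → U) × Finset U × (U → Bool) =>
    pat M i.2.2.1 i.2.2.2 i.2.1).mono fun a ha κ _ _ u h1 h2 => ?_
  obtain ⟨s, s1, s2⟩ := (T.le_iff (finite_range u)).1 (le_refl (rk (range u)))
  choose S hS using s1
  have hb : rk (range u) ≤ Fintype.card U := by simpa using T.card u Finset.univ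
  obtain ⟨g, hg⟩ := LinearMap.exists_leftInverse_of_injective _
    (LinearMap.ker_eq_bot.2 h2.fintypeLinearCombination_injective)
  refine ha ⟨⟨_, Nat.lt_succ_of_le hb⟩, S, _, fun b => decide (u b = 1)⟩ κ u
    (fun p => g (Pi.single p.1 1) p.2) h1 (fun b hb => ?_) (fun c c' => ?_)
    (by rwa [show u ∘ S = s from funext hS])
  · by_cases h : u b = 1
    · simp [h]
    · simpa [h] using hb
  · have e1 := congrFun (LinearMap.congr_fun hg (Pi.single c 1)) c'
    rw [LinearMap.comp_apply, Fintype.linearCombination_apply_single, one_smul,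
      pi_eq_sum_univ' fun n => aeval u (M c n), map_sum, Finset.sum_apply] at e1
    simpa [Pi.single_apply, eq_comm] using e1

instance finCo (D : Dat) : Finite D.Co :=
  Finite.of_injective (fun c => (c.1.1, fun a : D.Hx => (⟨c.1.2 a, Nat.lt_succ_of_le (by
    rw [← D.cy]
    refine le_trans ?_ (Finset.single_le_sum (fun _ _ => Nat.zero_le _) (Finset.mem_univ c.1.1))
    rw [← c.2]
    exact Finset.single_le_sum (f := fun p => c.1.2 ⟨a.1, p⟩) (fun _ _ => Nat.zero_le _)
      (Finset.mem_univ a.2))⟩ : Fin (D.n a.1 + 1 + 1)))) fun c c' h =>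
    Subtype.ext (Prod.ext (Prod.ext_iff.1 h).1
      (Finsupp.ext fun a => congrArg Fin.val (congrFun (Prod.ext_iff.1 h).2 a)))

lemma expand {D : Dat} [Fintype D.Co] {F : D.Fm} (h : D.Hom F) :
    F = ∑ c : D.Co, coeff c.1.2 (F c.1.1) • (Pi.single c.1.1 (monomial c.1.2 1) : D.Fm) := by
  classical
  funext j
  ext μ
  simp only [Finset.sum_apply, coeff_sum, Pi.smul_apply, coeff_smul, smul_eq_mul]
  by_cases hμ : D.md μ = D.d j
  · rw [Finset.sum_eq_single (⟨(j, μ), hμ⟩ : D.Co) (fun c _ hc => ?_) (by simp)]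
    · simp
    · by_cases hj : j = c.1.1
      · subst hj
        rw [Pi.single_eq_same, coeff_monomial, if_neg fun e => hc (Subtype.ext (Prod.ext rfl e)),
          mul_zero]
      · simp [Pi.single_eq_of_ne hj]
  · rw [not_not.1 (mt (h j μ) hμ)]
    refine (Finset.sum_eq_zero fun c _ => ?_).symm
    by_cases hj : j = c.1.1
    · subst hj
      rw [Pi.single_eq_same, coeff_monomial, if_neg fun e : c.1.2 = μ => hμ (e ▸ c.2), mul_zero]
    · simp [Pi.single_eq_of_ne hj]

end GENM

open GENM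

theorem st_GENM (T : Tools) : St_GENM := by
  intro D U C _ _ η
  classical
  have := Fintype.ofFinite D.Co
  set e := (Fintype.equivFin D.Co).symm
  set M : C → Fin (Fintype.card D.Co) → MvPolynomial U ℂ := fun c n =>
    η c (Pi.single (e n).1.1 (monomial (e n).1.2 1)) with hM
  obtain ⟨Q, q0, q1⟩ := core T.rk M
  refine ⟨rename e Q, fun h => q0 (rename_injective _ e.injective (h.trans (map_zero _).symm)),
    fun F hF hQ κ _ _ u h1 h2 => ?_⟩
  have ex : ∀ G, D.Hom G → ∀ c, aeval u (η c G) =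
      ∑ n, aeval u (M c n) * algebraMap ℂ κ (coeff (e n).1.2 (G (e n).1.1)) := fun G hG c => by
    conv_lhs => rw [expand hG, ← e.sum_comp]
    simp only [map_sum, map_smul, hM]
    exact Finset.sum_congr rfl fun n _ => (Algebra.smul_def _ _).trans (mul_comm _ _)
  rw [eval_rename] at hQ
  refine q1 _ hQ κ u (fun c => (ex F hF c).symm.trans (h1 c))
    (Fintype.linearIndependent_iff.2 fun l hl => congrFun (h2 l fun G hG => ?_))
  simp only [ex G hG, Finset.mul_sum, ← mul_assoc]
  rw [Finset.sum_comm]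
  refine Finset.sum_eq_zero fun n _ => ?_
  have := congrFun hl n
  simp only [Finset.sum_apply, Pi.smul_apply, smul_eq_mul, Pi.zero_apply] at this
  rw [← Finset.sum_mul, this, zero_mul]

end Pool.Agent.Lib.CI
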