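import Pool.Agent.Lib.CI.BlueA

open MvPolynomial Set Pool.Agent.Lib.CI.Dat

namespace Pool.Agent.Lib.CI

namespace GEV

variable {σ R S : Type} [CommRing R] [CommRing S]

/-- Iterated partial derivatives as a linear map. -/
noncomputable def dL (R : Type) [CommRing R] : List σ → MvPolynomial σ R →ₗ[R] MvPolynomial σ R
  | [] => LinearMap.id
  | a :: L => (pderiv a).toLinearMap ∘ₗ dL R L

lemma dl_eq (L : List σ) (P : MvPolynomial σ R) : dl L P = dL R L P := by
  induction L with
  | nil => rfl
  | cons a L ih => exact congrArg (pderiv a) ih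

lemma dl_map (f : R →+* S) (L : List σ) (P : MvPolynomial σ R) :
    dl L (map f P) = map f (dl L P) := by
  induction L with
  | nil => rfl
  | cons a L ih => exact (congrArg (pderiv a) ih).trans (pderiv_map ..)

end GEV

open GEV in
theorem st_GEV (T : Tools) (h : St_GENM) : St_GEV := by
  intro D U C _ _ z y L
  let η : C → D.Fm →ₗ[ℂ] MvPolynomial U ℂ := fun c => ∑ j, LinearMap.mulLeft ℂ (z c j) ∘ₗ
    (aeval (y c)).toLinearMap ∘ₗ dL ℂ (L c) ∘ₗ LinearMap.proj j
  have hη : ∀ (κ : Type) [Field κ] [Algebra ℂ κ] (u : U → κ) c F, aeval u (η c F) =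
      ∑ j, aeval u (z c j) * aeval (fun a => aeval u (y c a)) (dl (L c) (F j)) := by
    intro κ _ _ u c F
    simp only [η, LinearMap.sum_apply, map_sum, LinearMap.comp_apply, LinearMap.mulLeft_apply,
      map_mul, dl_eq, LinearMap.proj_apply, AlgHom.toLinearMap_apply, comp_aeval_apply]
  refine T.sl.gn_mono (h D U C η) fun F _ hF κ _ _ u h1 h2 =>
    hF κ u (fun c => (hη κ u c F).trans (h1 c)) fun l hl => h2 l fun G hG => ?_
  simp only [Finset.mul_sum]
  rw [Finset.sum_comm]
  refine Finset.sum_eq_zero fun j _ => ?_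
  rw [(G j).as_sum]
  simp only [dl_eq, map_sum, Finset.mul_sum]
  rw [Finset.sum_comm]
  refine Finset.sum_eq_zero fun μ hμ => ?_
  have h3 := hl (Pi.single j (monomial μ 1)) fun i ν hν => by
    rcases eq_or_ne i j with rfl | e
    · rw [Pi.single_eq_same, coeff_monomial] at hν
      split_ifs at hν with e
      exacts [e ▸ hG i μ (mem_support_iff.1 hμ), absurd rfl hν]
    · simp [Pi.single_eq_of_ne e] at hν
  rw [← mul_zero (coeff μ (G j)), ← h3, Finset.mul_sum]
  refine Finset.sum_congr rfl fun c _ => ?_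
  rw [hη, Finset.sum_eq_single j (fun i _ e => by simp [Pi.single_eq_of_ne e, dl_eq]) (by simp),
    Pi.single_eq_same, aeval_def _ (dl _ _), ← eval_map, ← dl_map, map_monomial, map_one, dl_eq,
    show monomial μ (coeff μ (G j)) = coeff μ (G j) • monomial μ 1 by simp [smul_monomial],
    map_smul, smul_eval]
  ring

end Pool.Agent.Lib.CI
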