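import Pool.Agent.Lib.CI.BlueA

open MvPolynomial Set Matrix WithZero Pool.Agent.Lib.MP_e39d36_ag Pool.Agent.Lib.MP_e39d36_ag.Var
  Pool.Agent.Lib.MP_cc3443_ag Pool.Agent.Lib.MV Pool.Agent.Lib.MV.End Pool.Agent.Lib.MV.Fb
  Pool.Agent.Lib.DU

set_option linter.unusedSectionVars false
set_option linter.unusedVariables false

noncomputable section

namespace Pool.Agent.Lib.CI

open Pool.Agent.Lib.CI.Dat
open Pool.Agent.Lib.MV.G3 (acl Ov)

namespace GIO1

section alg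

variable {κ : Type} [Field κ]

lemma two {a0 a1 g0 g1 g2 : κ} (h : a0 ≠ 0 ∨ a1 ≠ 0) (e1 : a0 * g0 = 0) (e2 : a0 * g1 + a1 * g0 = 0)
    (e3 : a0 * g2 + a1 * g1 = 0) (e4 : a1 * g2 = 0) : g0 = 0 ∧ g1 = 0 ∧ g2 = 0 := by
  rcases h with h | h
  · have h0 := (mul_eq_zero.1 e1).resolve_left h
    have h1 : g1 = 0 := by simpa [h0, h] using e2
    exact ⟨h0, h1, by simpa [h1, h] using e3⟩
  · have h2 := (mul_eq_zero.1 e4).resolve_left h
    have h1 : g1 = 0 := by simpa [h2, h] using e3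
    exact ⟨by simpa [h1, h] using e2, h1, h2⟩

lemma dep {a0 a1 c0 c1 : κ} (h : a0 ≠ 0 ∨ a1 ≠ 0) (e : a0 * c1 - a1 * c0 = 0) :
    ∃ μ, c0 = μ * a0 ∧ c1 = μ * a1 := by
  rcases h with h | h
  · exact ⟨c0 / a0, by field_simp, by field_simp; linear_combination e⟩
  · exact ⟨c1 / a1, by field_simp; linear_combination -e, by field_simp⟩

lemma three {a0 a1 c0 c1 b0 b1 b2 d0 d1 d2 : κ} (e1 : a0 * d0 = c0 * b0)
    (e2 : a0 * d1 + a1 * d0 = c0 * b1 + c1 * b0) (e3 : a0 * d2 + a1 * d1 = c0 * b2 + c1 * b1)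
    (e4 : a1 * d2 = c1 * b2) :
    (a0 = 0 ∧ a1 = 0 ∧ c0 = 0 ∧ c1 = 0) ∨
      (∃ r : Fin 2 → κ, (∃ t, r t = 1) ∧ r 0 * a0 + r 1 * c0 = 0 ∧ r 0 * a1 + r 1 * c1 = 0 ∧
        r 0 * b0 + r 1 * d0 = 0 ∧ r 0 * b1 + r 1 * d1 = 0 ∧ r 0 * b2 + r 1 * d2 = 0) ∨
      ∃ r : Fin 2 → κ, b0 = r 0 * a0 ∧ b1 = r 0 * a1 + r 1 * a0 ∧ b2 = r 1 * a1 ∧
        d0 = r 0 * c0 ∧ d1 = r 0 * c1 + r 1 * c0 ∧ d2 = r 1 * c1 := by
  by_cases hΔ : a0 * c1 - a1 * c0 = 0
  · by_cases h : a0 ≠ 0 ∨ a1 ≠ 0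
    · obtain ⟨μ, rfl, rfl⟩ := dep h hΔ
      obtain ⟨h0, h1, h2⟩ := two (g0 := d0 - μ * b0) (g1 := d1 - μ * b1) (g2 := d2 - μ * b2) h
        (by linear_combination e1) (by linear_combination e2) (by linear_combination e3)
        (by linear_combination e4)
      refine Or.inr (Or.inl ⟨![-μ, 1], ⟨1, rfl⟩, ?_⟩)
      simp only [cons_val_zero, cons_val_one]
      exact ⟨by ring, by ring, by linear_combination h0, by linear_combination h1,
        by linear_combination h2⟩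
    · push Not at h
      obtain ⟨rfl, rfl⟩ := h
      by_cases h' : c0 ≠ 0 ∨ c1 ≠ 0
      · obtain ⟨h0, h1, h2⟩ := two (g0 := b0) (g1 := b1) (g2 := b2) h'
          (by linear_combination -e1) (by linear_combination -e2) (by linear_combination -e3)
          (by linear_combination -e4)
        exact Or.inr (Or.inl ⟨![1, 0], ⟨0, rfl⟩, by simp [h0, h1, h2]⟩)
      · push Not at h'
        exact Or.inl ⟨rfl, rfl, h'⟩
  · refine Or.inr (Or.inr ⟨![(a0 * d1 - c0 * b1) / (a0 * c1 - a1 * c0),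
      (c1 * b1 - a1 * d1) / (a0 * c1 - a1 * c0)], ?_⟩)
    simp only [cons_val_zero, cons_val_one, div_mul_eq_mul_div, ← add_div, eq_div_iff hΔ]
    exact ⟨by linear_combination a1 * e1 - a0 * e2, by ring,
      by linear_combination a1 * e3 - a0 * e4, by linear_combination c1 * e1 - c0 * e2, by ring,
      by linear_combination c1 * e3 - c0 * e4⟩

lemma basis {a b : Fin 3 → κ} (h : a ⨯₃ b ≠ 0) : ∃ (p q : Fin 3 → κ) (e e' : Fin 3) (c : κ),
    e ≠ e' ∧ p e = 1 ∧ p e' = 0 ∧ q e = 0 ∧ q e' = 1 ∧ c ≠ 0 ∧ p ⨯₃ q = c • (a ⨯₃ b) ∧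
      ∀ σ τ : κ, ∃ s t : κ, σ • p + τ • q = s • a + t • b := by
  obtain ⟨e, e', h1, h2⟩ : ∃ e e' : Fin 3, e ≠ e' ∧ a e * b e' - a e' * b e ≠ 0 := by
    by_contra! h1
    refine h ?_
    rw [cross_apply, h1 1 2 (by decide), h1 2 0 (by decide), h1 0 1 (by decide)]
    simp
  set n := a e * b e' - a e' * b e with hn
  refine ⟨(b e' / n) • a + (-a e' / n) • b, (-b e / n) • a + (a e / n) • b, e, e', n⁻¹, h1,
    ?_, ?_, ?_, ?_, inv_ne_zero h2, ?_, fun σ τ => ⟨σ * (b e' / n) + τ * (-b e / n),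
      σ * (-a e' / n) + τ * (a e / n), by module⟩⟩
  iterate 4
    simp only [Pi.add_apply, Pi.smul_apply, smul_eq_mul]
    field_simp
    ring
  simp only [map_add, map_smul, LinearMap.add_apply, LinearMap.smul_apply, cross_self,
    ← cross_anticomm b a]
  match_scalars
  field_simp
  ring

variable [Algebra ℂ κ]

lemma cub_eq (A : Fin 2 → Fin 3 → κ) (B : Fin 2 → Fin 3 → Fin 3 → κ) (w : Fin 3 → κ) :
    cub (cAB A B) w = A 0 ⬝ᵥ w * qd (B 1) w - A 1 ⬝ᵥ w * qd (B 0) w := by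
  simp only [cub, tri, cAB, qd, dotProduct, Fin.sum_univ_three]
  ring

lemma qd_sub (B : Fin 3 → Fin 3 → κ) (p q : Fin 3 → κ) :
    qd B (p - q) = 2 * qd B p + 2 * qd B q - qd B (p + q) := by
  simp only [qd, Fin.sum_univ_three, Pi.add_apply, Pi.sub_apply]
  ring

end alg

variable {D : Dat} (hm : D.m = 2) (l : D.I0) (i : D.I1)

include hm in
lemma ne_li : l.1 ≠ i.1 := fun h => by
  have h1 := l.2
  have h2 := i.2
  rw [h] at h1
  omega

/-- Replacement of two slots. -/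
def yy {R : Type} (x : Fin 2 → R) (w : Fin 3 → R) (y : D.Hx → R) : D.Hx → R :=
  upd (upd y l.1 fun p => x (p.cast (l.2.trans hm))) i.1
    fun p => w (p.cast (congrArg (· + 1) (i.2.trans hm)))

section yy

variable {R R' : Type} (x : Fin 2 → R) (w : Fin 3 → R) (y : D.Hx → R)

lemma yy_l (p) : yy hm l i x w y ⟨l.1, p⟩ = x (p.cast (l.2.trans hm)) := by
  simp [yy, upd, Function.update_of_ne (ne_li hm l i)]

lemma yy_i (p) : yy hm l i x w y ⟨i.1, p⟩ = w (p.cast (congrArg (· + 1) (i.2.trans hm))) := by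
  simp [yy, upd]

lemma yy_o {a : D.Hx} (h1 : a.1 ≠ l.1) (h2 : a.1 ≠ i.1) : yy hm l i x w y a = y a := by
  simp [yy, upd, Function.update_of_ne h1, Function.update_of_ne h2]

lemma yy_map (f : R → R') (a : D.Hx) :
    f (yy hm l i x w y a) = yy hm l i (f ∘ x) (f ∘ w) (f ∘ y) a := by
  obtain ⟨s, p⟩ := a
  by_cases h1 : s = l.1
  · subst h1; simp [yy_l]
  by_cases h2 : s = i.1
  · subst h2; simp [yy_i]
  simp [yy_o hm l i _ _ _ (a := ⟨s, p⟩) h1 h2]

end yy

lemma val (T : Tools) {F : D.Fm} (hF : D.Hom F) {κ : Type} [Field κ] [Algebra ℂ κ]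
    (u : D.Vr → κ) (x : Fin 2 → κ) (w : Fin 3 → κ) (j : Fin D.m) :
    aeval (yy hm l i x w (u ∘ .inr)) (F j) = ∑ s, x s *
      if j = jj i then qd (BB F hm l i u s) w else AA F hm l i u s ⬝ᵥ w := by
  have h1 := T.pi.euler hF (yy hm l i x w (u ∘ .inr)) j l.1
  rw [d_I0, Nat.cast_one, one_mul] at h1
  rw [← h1, ← (finCongr (l.2.trans hm).symm).sum_comp]
  refine Finset.sum_congr rfl fun s _ => ?_
  obtain ⟨h2, h3⟩ := T.pi.ab_agr hF hm l i u (Sum.elim (u ∘ .inl) (yy hm l i x w (u ∘ .inr)))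
    fun a ha => by
      obtain a | a := a
      · rfl
      · simp only [bs, sl, Finset.mem_filter, Sum.elim_inr, ne_eq, Option.some.injEq] at ha
        exact yy_o hm l i _ _ _ ha.2.2.1 ha.2.2.2
  have h4 := T.pi.ab_eq hF hm l i (Sum.elim (u ∘ .inl) (yy hm l i x w (u ∘ .inr))) s j
  have h5 : Sum.elim (u ∘ .inl) (yy hm l i x w (u ∘ .inr)) ∘ c3 hm i = w :=
    funext fun e => yy_i hm l i x w _ _
  rw [h2, h3, h5] at h4
  rw [← h4, yy_l]
  exact congrArg _ (T.pi.d_inl2 F (Sum.elim (u ∘ .inl) (yy hm l i x w (u ∘ .inr))) j _).2.symm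

lemma test (T : Tools) {κ : Type} [Field κ] (y : D.Hx → κ)
    (hy : ∀ s, s ≠ l.1 → s ≠ i.1 → ∃ p, y ⟨s, p⟩ ≠ 0) (j : Fin D.m) (t : Fin 2)
    (g : MvPolynomial (Fin 3) κ) (hg : g.IsHomogeneous (D.d j i.1)) :
    ∃ (P : MvPolynomial D.Hx κ) (c : κ), c ≠ 0 ∧ HomK (Pi.single j P) ∧
      ∀ x w, eval (yy hm l i x w y) P = c * (x t * eval w g) := by
  have hli := ne_li hm l i
  have h1 : ∀ s, ∃ (G : MvPolynomial (Fin (D.n s + 1)) κ) (c : κ), c ≠ 0 ∧
      G.IsHomogeneous (D.d j s) ∧ ∀ x w, eval (yy hm l i x w y) (rename (Sigma.mk s) G) =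
        c * ((if s = l.1 then x t else 1) * if s = i.1 then eval w g else 1) := fun s => by
    by_cases h1 : s = l.1
    · subst h1
      refine ⟨X (t.cast (l.2.trans hm).symm), 1, one_ne_zero, ?_, fun x w => ?_⟩
      · rw [d_I0]; exact isHomogeneous_X _ _
      · simp [yy_l, hli]
    by_cases h2 : s = i.1
    · subst h2
      refine ⟨rename (Fin.cast (congrArg (· + 1) (i.2.trans hm)).symm) g, 1, one_ne_zero,
        hg.rename_isHomogeneous, fun x w => ?_⟩
      rw [rename_rename, eval_rename, if_neg h1, if_pos rfl, one_mul, one_mul]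
      congr 2
      exact funext fun e => yy_i hm l i x w _ _
    obtain ⟨p, hp⟩ := hy s h1 h2
    refine ⟨X p ^ D.d j s, y ⟨s, p⟩ ^ D.d j s, pow_ne_zero _ hp, isHomogeneous_X_pow _ _,
      fun x w => ?_⟩
    simp [h1, h2, yy_o hm l i _ _ _ (a := ⟨s, p⟩) h1 h2]
  choose G c h1 h2 h3 using h1
  refine ⟨_, ∏ s, c s, Finset.prod_ne_zero_iff.2 fun s _ => h1 s, T.sl.homK j G h2, fun x w => ?_⟩
  simp only [map_prod, h3, Finset.prod_mul_distrib, Finset.prod_ite_eq', Finset.mem_univ, if_true]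

include hm in
lemma sum_two {R : Type} [CommRing R] (a b : R) : ∑ j, (if j = jj i then a else b) = a + b := by
  rw [← Finset.add_sum_erase _ _ (Finset.mem_univ (jj i)), if_pos rfl,
    Finset.sum_congr rfl fun j hj => if_neg (Finset.ne_of_mem_erase hj)]
  simp [hm]

/-- The extra variables. -/
abbrev Ex : Type := Fin 3 ⊕ Fin 3 ⊕ Fin 2

lemma master (T : Tools) (hG : St_GEV) (C : Type) [Fintype C] (z z' : C → MvPolynomial Ex ℂ)
    (x : C → Fin 2 → MvPolynomial Ex ℂ) (w : C → Fin 3 → MvPolynomial Ex ℂ) :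
    D.Gn fun F => ∀ (κ : Type) [Field κ] [Algebra ℂ κ] (u : D.Vr → κ) (v : Ex → κ), NZ u →
      (∀ c, aeval v (z c) * ∑ s, aeval v (x c s) * qd (BB F hm l i u s) (aeval v ∘ w c) +
        aeval v (z' c) * ∑ s, aeval v (x c s) * AA F hm l i u s ⬝ᵥ (aeval v ∘ w c) = 0) →
      (∀ lam : C → κ, (∀ t e e', ∑ c, lam c * (aeval v (z c) *
          (aeval v (x c t) * (aeval v (w c e) * aeval v (w c e')))) = 0) →
        (∀ t e, ∑ c, lam c * (aeval v (z' c) * (aeval v (x c t) * aeval v (w c e))) = 0) →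
          lam = 0) →
      rk (u '' bs l i ∪ range v) + Fintype.card C ≤ fr u (bs l i) + fr v Finset.univ := by
  classical
  refine T.sl.gn_mono (hG D (D.Vr ⊕ Ex) C
    (fun c j => rename .inr (if j = jj i then z c else z' c))
    (fun c => yy hm l i (rename .inr ∘ x c) (rename .inr ∘ w c) fun a => X (.inl (.inr a)))
    fun _ => []) fun F hF h κ _ _ u v hu h1 h2 => ?_
  let u1 : D.Vr → κ := fun a => if a ∈ bs l i then u a else 0
  have e1 : ∀ P : MvPolynomial Ex ℂ, aeval (Sum.elim u1 v) (rename .inr P) = aeval v P :=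
    fun P => by rw [aeval_rename]; rfl
  have e2 : ∀ c, (fun a => aeval (Sum.elim u1 v) (yy hm l i (rename .inr ∘ x c)
      (rename .inr ∘ w c) (fun a => (X (.inl (.inr a)) : MvPolynomial (D.Vr ⊕ Ex) ℂ)) a)) =
        yy hm l i (aeval v ∘ x c) (aeval v ∘ w c) (u1 ∘ .inr) := fun c => funext fun a => by
    rw [yy_map hm l i _ _ _ (aeval (Sum.elim u1 v))]
    congr 1 <;> funext _ <;> simp [e1]
  obtain ⟨e3, e4⟩ := T.pi.ab_agr hF hm l i u u1 fun a ha => if_pos ha
  have hy : ∀ s, s ≠ l.1 → s ≠ i.1 → ∃ p, (u1 ∘ .inr) ⟨s, p⟩ ≠ 0 := fun s k1 k2 => by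
    obtain ⟨a | ⟨t, p⟩, k3, k4⟩ := hu (some s)
    · cases k3
    · obtain rfl : t = s := Option.some.inj k3
      refine ⟨p, ?_⟩
      have : (.inr ⟨t, p⟩ : D.Vr) ∈ bs l i := by simp [bs, sl, k1, k2]
      simpa [u1, this] using k4
  have key := h κ (Sum.elim u1 v) (fun c => ?_) fun lam hl => h2 lam (fun t e e' => ?_) fun t e => ?_
  · rw [T.rk.fr_sum] at key
    have k1 : fr u1 Finset.univ ≤ fr u (bs l i) := T.rk.fr_le _ _ _ _ fun a _ k1 k2 => by
      by_cases ha : a ∈ bs l i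
      · simpa [u1, ha] using And.intro k1 k2
      · simp [u1, ha] at k1
    have k2 : rk (u '' bs l i ∪ range v) ≤ rk (range (Sum.elim u1 v)) :=
      T.rk.mono (finite_range _) (by
        rintro _ (⟨a, ha, rfl⟩ | ⟨a, rfl⟩)
        · exact ⟨.inl a, if_pos ha⟩
        · exact ⟨.inr a, rfl⟩)
    omega
  · rw [← h1 c, ← sum_two hm i]
    refine Finset.sum_congr rfl fun j _ => ?_
    rw [e1, e2, dl, List.foldr_nil, val hm l i T hF, e3, e4]
    split_ifs <;> rfl
  · obtain ⟨P, k, k1, k2, k3⟩ := test hm l i T _ hy (jj i) t (X e * X e') (by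
      rw [d_jj]; exact (isHomogeneous_X _ _).mul (isHomogeneous_X _ _))
    have := hl _ k2
    refine mul_left_cancel₀ k1 ?_
    rw [mul_zero, ← this, Finset.mul_sum]
    refine Finset.sum_congr rfl fun c _ => ?_
    rw [Finset.sum_eq_single (jj i) (fun j _ hj => by simp [dl, hj]) (by simp), e1, e2]
    simp [dl, k3]
    ring
  · obtain ⟨j, hj⟩ : ∃ j, j ≠ jj i :=
      Fintype.exists_ne_of_one_lt_card (by rw [Fintype.card_fin, hm]; norm_num) _
    obtain ⟨P, k, k1, k2, k3⟩ := test hm l i T _ hy j t (X e) (by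
      rw [d_ne_jj i hj]; exact isHomogeneous_X _ _)
    have := hl _ k2
    refine mul_left_cancel₀ k1 ?_
    rw [mul_zero, ← this, Finset.mul_sum]
    refine Finset.sum_congr rfl fun c _ => ?_
    rw [Finset.sum_eq_single j (fun j _ hj => by simp [dl, hj]) (by simp), e1, e2]
    simp [dl, k3, hj]
    ring

/-- Three points of the line. -/
def W : Fin 3 → Fin 3 → MvPolynomial Ex ℂ :=
  ![fun e => X (.inl e), fun e => X (.inr (.inl e)), fun e => X (.inl e) + X (.inr (.inl e))]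

lemma W_ev {κ : Type} [Field κ] [Algebra ℂ κ] (p q : Fin 3 → κ) (r : Fin 2 → κ) (k e : Fin 3) :
    aeval (Sum.elim p (Sum.elim q r)) (W k e) = ![p, q, p + q] k e := by
  fin_cases k <;> simp [W]

lemma W_ev' {κ : Type} [Field κ] [Algebra ℂ κ] (p q : Fin 3 → κ) (r : Fin 2 → κ) (k : Fin 3) :
    aeval (Sum.elim p (Sum.elim q r)) ∘ W k = ![p, q, p + q] k := funext (W_ev p q r k)

lemma fin (T : Tools) {κ : Type} [Field κ] [Algebra ℂ κ] {S : Set κ} (hS : S.Finite)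
    {p q : Fin 3 → κ} {r : Fin 2 → κ} {e e' : Fin 3} (he : e ≠ e') (p1 : p e = 1) (p2 : p e' = 0)
    (q1 : q e = 0) (q2 : q e' = 1) {n N : ℕ} (hr : fr r Finset.univ + 4 ≤ n)
    (h : rk (S ∪ range (Sum.elim p (Sum.elim q r))) + n ≤
      N + fr (Sum.elim p (Sum.elim q r)) Finset.univ) : rk (S ∪ range (p ⨯₃ q)) + 2 ≤ N := by
  have k1 := T.rk.fr_add p Finset.univ {e, e'} (Finset.subset_univ _) (by simp [p1, p2])
  have k2 := T.rk.fr_add q Finset.univ {e, e'} (Finset.subset_univ _) (by simp [q1, q2])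
  rw [Finset.card_pair he, Finset.card_univ, Fintype.card_fin] at k1 k2
  rw [T.rk.fr_sum, T.rk.fr_sum] at h
  have m : ∀ a, Sum.elim p (Sum.elim q r) a ∈ acl (S ∪ range (Sum.elim p (Sum.elim q r))) :=
    fun a => G3.subset_acl _ (Or.inr ⟨a, rfl⟩)
  have m' : ∀ a b c d, p a * q b - p c * q d ∈ acl (S ∪ range (Sum.elim p (Sum.elim q r))) :=
    fun a b c d => sub_mem (mul_mem (m (.inl a)) (m (.inr (.inl b))))
      (mul_mem (m (.inl c)) (m (.inr (.inl d))))
  have k3 : rk (S ∪ range (p ⨯₃ q)) ≤ rk (S ∪ range (Sum.elim p (Sum.elim q r))) :=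
    T.rk.le (hS.union (finite_range _)) (by
      rintro _ (h | ⟨a, rfl⟩)
      · exact G3.subset_acl _ (Or.inl h)
      · rw [cross_apply]
        fin_cases a <;> exact m' _ _ _ _)
  omega

lemma main (T : Tools) (hG : St_GEV) : D.Gn fun F => ∀ (κ : Type) [Field κ] [Algebra ℂ κ]
    (u : D.Vr → κ), NZ u → ∀ a b, Ln (CC F hm l i u) a b → ∃ h : Fin 3 → κ, h ≠ 0 ∧ h ⬝ᵥ a = 0 ∧
      h ⬝ᵥ b = 0 ∧ rk (u '' bs l i ∪ range h) + 2 ≤ fr u (bs l i) := by
  refine T.sl.gn_mono (T.sl.gn_and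
    (master hm l i T hG (Fin 2 × Fin 2) (fun _ => 0) (fun _ => 1) (fun c => Pi.single c.1 1)
      fun c => W c.2.castSucc) (T.sl.gn_and
    (master hm l i T hG (Fin 2 ⊕ Fin 3) (Sum.elim (fun _ => 0) fun _ => 1)
      (Sum.elim (fun _ => 1) fun _ => 0) (fun _ s => X (.inr (.inr s)))
      (Sum.elim (fun k => W k.castSucc) W))
    (master hm l i T hG (Fin 2 × Fin 3) (fun _ => 1)
      (fun c => -![X (.inr (.inr 0)), X (.inr (.inr 1)), X (.inr (.inr 0)) + X (.inr (.inr 1))] c.2)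
      (fun c => Pi.single c.1 1) fun c => W c.2))) ?_
  rintro F hF ⟨h1, h2, h3⟩ κ _ _ u hu a b ⟨hab, l1, l2, l3, l4⟩
  have : CharZero κ := charZero_of_injective_algebraMap (algebraMap ℂ κ).injective
  obtain ⟨p, q, e, e', c, he, p1, p2, q1, q2, hc, hpq, hs⟩ := basis hab
  have hS : (u '' bs l i).Finite := (Finset.finite_toSet _).image _
  refine ⟨p ⨯₃ q, hpq ▸ smul_ne_zero hc hab, ?_, ?_, ?_⟩
  · rw [hpq, smul_dotProduct, dotProduct_comm, dot_self_cross, smul_zero]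
  · rw [hpq, smul_dotProduct, dotProduct_comm, dot_cross_self, smul_zero]
  have z : ∀ σ τ : κ, cub (cAB (AA F hm l i u) (BB F hm l i u)) (σ • p + τ • q) = 0 := fun σ τ => by
    obtain ⟨s, t, h⟩ := hs σ τ
    rw [h]
    change cub (CC F hm l i u) _ = 0
    rw [cub_comb, l1, l2, l3, l4]
    ring
  have z1 := z 1 0
  have z2 := z 0 1
  have z3 := z 1 1
  have z4 := z 1 (-1)
  simp only [one_smul, zero_smul, add_zero, zero_add, neg_smul, ← sub_eq_add_neg, cub_eq, qd_sub,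
    dotProduct_add, dotProduct_sub] at z1 z2 z3 z4
  specialize h1 κ u
  specialize h2 κ u
  specialize h3 κ u
  clear z
  generalize AA F hm l i u = A at *
  generalize BB F hm l i u = B at *
  obtain ⟨k1, k2, k3, k4⟩ | ⟨r, ⟨t, ht⟩, k1, k2, k3, k4, k5⟩ | ⟨r, k1, k2, k3, k4, k5, k6⟩ :=
    three (a0 := A 0 ⬝ᵥ p) (a1 := A 0 ⬝ᵥ q) (c0 := A 1 ⬝ᵥ p) (c1 := A 1 ⬝ᵥ q) (b0 := qd (B 0) p)
      (b1 := qd (B 0) (p + q) - qd (B 0) p - qd (B 0) q) (b2 := qd (B 0) q) (d0 := qd (B 1) p)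
      (d1 := qd (B 1) (p + q) - qd (B 1) p - qd (B 1) q) (d2 := qd (B 1) q)
      (by linear_combination z1) (by linear_combination (z3 - z4) / 2 - z2)
      (by linear_combination (z3 + z4) / 2 - z1) (by linear_combination z2)
  · refine fin T hS he p1 p2 q1 q2 (r := 0) (by simp [fr])
      (h1 _ hu (fun c => ?_) fun lam _ g => ?_)
    · obtain ⟨s, k⟩ := c
      rw [W_ev']
      fin_cases s <;> fin_cases k <;> simp [k1, k2, k3, k4]
    · funext ⟨s, k⟩
      have g1 := g s e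
      have g2 := g s e'
      simp only [W_ev] at g1 g2
      fin_cases s <;> simp [Fintype.sum_prod_type, p1, p2, q1, q2] at g1 g2 <;> fin_cases k <;>
        simp [g1, g2]
  · refine fin T hS he p1 p2 q1 q2 (r := r) ?_ (h2 _ hu (fun c => ?_) fun lam g' g => ?_)
    · have := T.rk.fr_add r Finset.univ {t} (Finset.subset_univ _) (by simp [ht])
      simp at this ⊢
      omega
    · obtain k | k := c <;> simp only [Sum.elim_inl, Sum.elim_inr, W_ev'] <;> fin_cases k <;>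
        simp [k1, k2, k3, k5]
      linear_combination k3 + k4 + k5
    · have g1 := g t e
      have g2 := g t e'
      have g3 := g' t e e'
      have g4 := g' t e e
      have g5 := g' t e' e'
      simp [Fintype.sum_sum_type, Fin.sum_univ_three, W_ev, p1, p2, q1, q2, ht] at g1 g2 g3 g4 g5
      funext c
      simp only [g3, add_zero] at g4 g5
      obtain k | k := c <;> fin_cases k <;> simp [g1, g2, g3, g4, g5]
  · refine fin T hS he p1 p2 q1 q2 (r := r) ?_ (h3 _ hu (fun c => ?_) fun lam g _ => ?_)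
    · have := T.rk.fr_add r Finset.univ ∅ (Finset.subset_univ _) (by simp)
      simp at this ⊢
      omega
    · obtain ⟨s, k⟩ := c
      rw [W_ev']
      fin_cases s <;> fin_cases k <;> simp
      · linear_combination k1
      · linear_combination k3
      · linear_combination k1 + k2 + k3
      · linear_combination k4
      · linear_combination k6
      · linear_combination k4 + k5 + k6
    · funext ⟨s, k⟩
      have g3 := g s e e'
      have g4 := g s e e
      have g5 := g s e' e'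
      simp only [W_ev] at g3 g4 g5
      fin_cases s <;>
        simp [Fintype.sum_prod_type, Fin.sum_univ_three, p1, p2, q1, q2] at g3 g4 g5 <;>
        simp only [g3, add_zero] at g4 g5 <;> fin_cases k <;> simp [g3, g4, g5]

end GIO1

theorem st_GIO1 (T : Tools) (hG : St_GEV) : St_GIO1 := fun D => by
  have : Finite (PLift (D.m = 2)) := Finite.of_subsingleton
  exact T.sl.gn_mono (T.sl.gn_all fun hm : PLift (D.m = 2) => T.sl.gn_all fun l =>
    T.sl.gn_all fun i => GIO1.main hm.down l i T hG) fun F _ h hm => h ⟨hm⟩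

end Pool.Agent.Lib.CI
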