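import Pool.Agent.Lib.CI.BlueA

open MvPolynomial Set Matrix WithZero Pool.Agent.Lib.MP_e39d36_ag Pool.Agent.Lib.MP_e39d36_ag.Var
  Pool.Agent.Lib.MP_cc3443_ag Pool.Agent.Lib.MV Pool.Agent.Lib.MV.End Pool.Agent.Lib.MV.Fb
  Pool.Agent.Lib.DU

set_option linter.unusedSectionVars false
set_option linter.unusedVariables false

noncomputable section

namespace Pool.Agent.Lib.CI

open Pool.Agent.Lib.CI.Dat
open Pool.Agent.Lib.MV.G3 (acl Ov)

namespace GIO2

theorem test {D : Dat} {κ : Type} [Field κ] (y : D.Hx → κ) (l : D.I0) (q : D.Ch) (j : Fin D.m)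
    (h0 : ∀ p, y ⟨l.1, p⟩ = 0) (p : Fin (D.n l.1 + 1)) :
    eval y (pderiv ⟨l.1, p⟩ (∏ s, rename (Sigma.mk s)
      (X (q s) ^ D.d j s : MvPolynomial (Fin (D.n s + 1)) κ) : MvPolynomial D.Hx κ)) =
      if p = q l.1 then ∏ s ∈ Finset.univ.erase l.1, y ⟨s, q s⟩ ^ D.d j s else 0 := by
  classical
  rw [← Finset.mul_prod_erase _ _ (Finset.mem_univ l.1), d_I0 l j, pow_one, rename_X,
    Derivation.leibniz, smul_eq_mul, smul_eq_mul, map_add, map_mul, map_mul, eval_X, h0, zero_mul,
    zero_add, pderiv_X, map_prod]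
  by_cases h : p = q l.1
  · subst h
    simp
  · have : (⟨l.1, q l.1⟩ : D.Hx) ≠ ⟨l.1, p⟩ := fun e => h (eq_of_heq (Sigma.mk.inj e).2).symm
    rw [if_neg h, Pi.single_eq_of_ne this]
    simp

theorem qd_smul {κ : Type} [Field κ] (B : Fin 3 → Fin 3 → κ) (c : κ) (w : Fin 3 → κ) :
    qd B (c • w) = c ^ 2 * qd B w := by
  simp only [qd, Fin.sum_univ_three, Pi.smul_apply, smul_eq_mul]
  ring

end GIO2

theorem st_GIO2 (T : Tools) (hG : St_GEV) : St_GIO2 := by
  classical
  intro D
  by_cases hm : D.m = 2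
  swap
  · exact ⟨1, one_ne_zero, fun F _ _ h => absurd h hm⟩
  refine T.sl.gn_mono (T.sl.gn_all fun l : D.I0 => hG D D.Vr (Fin D.m × Fin D.m)
    (fun c j => if j = c.2 then 1 else 0) (fun _ a => X (.inr a))
    (fun c => [⟨l.1, c.1.cast l.2.symm⟩])) ?_
  intro F hF h _ l i κ _ _ u hu p hp hA hB
  obtain ⟨e, he⟩ := Function.ne_iff.1 hp
  have he : p e ≠ 0 := he
  obtain ⟨u', h1, h2⟩ := T.sl.put_cw i (fun a => if a ∈ bs l i then u a else 0)
    (fun q => ((p e)⁻¹ • p) (q.cast (congrArg (· + 1) hm)))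
  have h3 : u' ∘ c3 hm i = (p e)⁻¹ • p := by
    funext a
    exact h2 _
  have hb : ∀ a ∈ bs l i, u' a = u a := fun a ha =>
    (h1 a (Finset.mem_filter.1 ha).2.2.2).trans (if_pos ha)
  have hz : ∀ a, a ∉ bs l i → sl a ≠ some i.1 → u' a = 0 := fun a ha ha' =>
    (h1 a ha').trans (if_neg ha)
  have hli : l.1 ≠ i.1 := fun e => T.sl.ts_ne (some l) i (congrArg some e)
  have main := h l κ u' ?_ ?_
  · have r1 : rk (u '' bs l i) ≤ rk (range u') := T.rk.mono (finite_range _) (by
      rintro _ ⟨a, ha, rfl⟩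
      exact ⟨a, hb a ha⟩)
    have r2 : fr u' Finset.univ ≤ fr u (bs l i) + 2 := by
      have c2 : ((Finset.univ.erase e).image (c3 hm i)).card ≤ 2 :=
        Finset.card_image_le.trans (by simp)
      refine le_trans ?_ (Nat.add_le_add_left c2 _)
      refine le_trans (Finset.card_le_card ?_) (Finset.card_union_le _ _)
      intro a ha
      obtain ⟨-, a0, a1⟩ := Finset.mem_filter.1 ha
      by_cases g : a ∈ bs l i
      · exact Finset.mem_union_left _ (Finset.mem_filter.2 ⟨g, hb a g ▸ a0, hb a g ▸ a1⟩)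
      by_cases g' : sl a = some i.1
      · obtain ⟨e', rfl⟩ := T.sl.c3_surj hm i a g'
        refine Finset.mem_union_right _ (Finset.mem_image_of_mem _
          (Finset.mem_erase.2 ⟨?_, Finset.mem_univ _⟩))
        rintro rfl
        apply a1
        have := congrFun h3 e'
        rw [Function.comp_apply] at this
        rw [this, Pi.smul_apply, smul_eq_mul, inv_mul_cancel₀ he]
      · exact absurd (hz a g g') a0
    have c4 : Fintype.card (Fin D.m × Fin D.m) = 4 := by simp [hm]
    omega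
  · rintro ⟨s, j⟩
    have e1 := T.pi.ab_eq hF hm l i u' (s.cast hm) j
    obtain ⟨a1, a2⟩ := T.pi.ab_agr hF hm l i u u' hb
    rw [a1, a2, h3, GIO2.qd_smul, hB, dotProduct_smul, hA, mul_zero, smul_zero, ite_self] at e1
    have e2 := (T.pi.d_inl2 F u' j ⟨l.1, s.cast l.2.symm⟩).2
    rw [Finset.sum_eq_single j (fun b _ hb => by simp [hb]) (by simp)]
    simp only [if_true, map_one, one_mul, aeval_X, dl, List.foldr]
    exact e2.symm.trans e1
  · intro lam hl
    have hq : ∀ s, ∃ r, s ≠ l.1 → u' (.inr ⟨s, r⟩) ≠ 0 := by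
      intro s
      by_cases g : s = i.1
      · subst g
        refine ⟨(e.cast (congrArg (· + 1) hm.symm)).cast (congrArg (· + 1) i.2.symm), fun _ => ?_⟩
        have := congrFun h3 e
        rw [Pi.smul_apply, smul_eq_mul, inv_mul_cancel₀ he] at this
        exact fun h0 => one_ne_zero (this.symm.trans h0)
      obtain ⟨a, a1, a2⟩ := hu (some s)
      rcases a with a | ⟨s', r⟩
      · cases a1
      obtain rfl : s' = s := Option.some.inj a1
      refine ⟨r, fun g' => ?_⟩
      rw [hb _ (Finset.mem_filter.2 ⟨Finset.mem_univ _, by simp [sl], by simpa [sl] using g',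
        by simpa [sl] using g⟩)]
      exact a2
    choose q hq using hq
    have h0 : ∀ r, u' (.inr ⟨l.1, r⟩) = 0 := fun r =>
      hz _ (fun g => (Finset.mem_filter.1 g).2.2.1 rfl) (by simpa [sl] using hli)
    funext ⟨s, j⟩
    set q' : D.Ch := Function.update q l.1 (s.cast l.2.symm) with hq'
    have := hl _ (T.sl.homK j (fun t => X (q' t) ^ D.d j t) fun t => isHomogeneous_X_pow _ _)
    rw [Finset.sum_eq_single (s, j)] at this
    · rw [Finset.sum_eq_single j (fun b _ hb => by simp [hb]) (by simp)] at this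
      simp only [if_true, map_one, one_mul, aeval_X, dl, List.foldr, Pi.single_eq_same] at this
      rw [GIO2.test (fun a => u' (.inr a)) l q' j h0, if_pos (by simp [hq'])] at this
      refine (mul_eq_zero.1 this).resolve_right (Finset.prod_ne_zero_iff.2 fun t ht => ?_)
      have ht := (Finset.mem_erase.1 ht).1
      rw [hq', Function.update_of_ne ht]
      exact pow_ne_zero _ (hq t ht)
    · rintro ⟨s', j'⟩ - hne
      rw [Finset.sum_eq_single j' (fun b _ hb => by simp [hb]) (by simp)]
      simp only [if_true, map_one, one_mul, aeval_X, dl, List.foldr]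
      by_cases g : j' = j
      · subst g
        rw [Pi.single_eq_same, GIO2.test (fun a => u' (.inr a)) l q' j' h0, if_neg, mul_zero]
        intro g'
        rw [hq', Function.update_self] at g'
        exact hne (Prod.ext (Fin.cast_injective _ g') rfl)
      · rw [Pi.single_eq_of_ne g]
        simp
    · simp

end Pool.Agent.Lib.CI
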