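import Pool.Agent.Lib.CI.BlueA

open MvPolynomial Set Matrix WithZero Pool.Agent.Lib.MP_e39d36_ag Pool.Agent.Lib.MP_e39d36_ag.Var
  Pool.Agent.Lib.MP_cc3443_ag Pool.Agent.Lib.MV Pool.Agent.Lib.MV.End Pool.Agent.Lib.MV.Fb
  Pool.Agent.Lib.DU

set_option linter.unusedSectionVars false
set_option linter.unusedVariables false

noncomputable section

namespace Pool.Agent.Lib.CI

open Pool.Agent.Lib.CI.Dat
open Pool.Agent.Lib.MV.G3 (acl Ov)

namespace GJAC

variable {D : Dat} {κ : Type} [Field κ]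

theorem md_single (a : D.Hx) (n : ℕ) : D.md (Finsupp.single a n) = Pi.single a.1 n := by
  funext s
  obtain ⟨t, p⟩ := a
  by_cases h : s = t
  · subst h
    simp [Dat.md, Finsupp.single_apply]
  · rw [Pi.single_eq_of_ne h]
    exact Finset.sum_eq_zero fun q _ => Finsupp.single_eq_of_ne fun e => h (congrArg Sigma.fst e)

theorem md_add (μ ν : D.Hx →₀ ℕ) : D.md (μ + ν) = D.md μ + D.md ν := by
  funext s
  simp [Dat.md, Finset.sum_add_distrib]

/-- The exponent of a product of powers of the chart variables. -/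
def ex (τ : D.Ch) (e : Fin D.k → ℕ) : D.Hx →₀ ℕ :=
  Finsupp.equivFunOnFinite.symm fun a => if a.2 = τ a.1 then e a.1 else 0

theorem md_ex (τ : D.Ch) (e : Fin D.k → ℕ) : D.md (ex τ e) = e := by
  funext s
  simp [Dat.md, ex]

theorem ex_zero (τ : D.Ch) (e : Fin D.k → ℕ) {a : D.Hx} (h : a.2 ≠ τ a.1) : ex τ e a = 0 :=
  if_neg h

theorem eval_ex (τ : D.Ch) (e : Fin D.k → ℕ) {y : D.Hx → κ} (hy : ∀ s, y ⟨s, τ s⟩ = 1) :
    eval y (monomial (ex τ e) (1 : κ)) = 1 := by
  rw [eval_monomial, one_mul]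
  refine Finset.prod_eq_one fun a ha => ?_
  have h : a.2 = τ a.1 := by_contra fun h => Finsupp.mem_support_iff.mp ha (ex_zero τ e h)
  have h1 : y a = 1 := by rw [show a = ⟨a.1, τ a.1⟩ from h ▸ rfl, hy]
  show y a ^ _ = 1
  rw [h1, one_pow]

theorem pd_ex (τ : D.Ch) (e : Fin D.k → ℕ) {a : D.Hx} (h : a.2 ≠ τ a.1) :
    pderiv a (monomial (ex τ e) (1 : κ)) = 0 := by
  rw [pderiv_monomial, ex_zero τ e h, Nat.cast_zero, mul_zero, monomial_zero]

theorem homK (j : Fin D.m) {μ : D.Hx →₀ ℕ} (h : D.md μ = D.d j) :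
    HomK (Pi.single j (monomial μ (1 : κ)) : Fin D.m → MvPolynomial D.Hx κ) := by
  classical
  intro j' ν hν
  by_cases e : j' = j
  · subst e
    rw [Pi.single_eq_same, coeff_monomial] at hν
    by_cases e' : μ = ν
    · exact e' ▸ h
    · exact absurd (if_neg e') hν
  · rw [Pi.single_eq_of_ne e, coeff_zero] at hν
    exact absurd rfl hν

theorem indep (J : Finset (Fin D.m)) (A : Finset D.Hx) (τ : D.Ch) (hA : ∀ a ∈ A, a.2 ≠ τ a.1)
    {y : D.Hx → κ} (hy : ∀ s, y ⟨s, τ s⟩ = 1) {lam : Fin D.m → κ} {j0 : Fin D.m} (h0 : lam j0 = 1)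
    (l : J ⊕ A → κ) (hl : ∀ G : Fin D.m → MvPolynomial D.Hx κ, HomK G →
      ∑ j : J, l (.inl j) * eval y (G j) +
        ∑ a : A, l (.inr a) * ∑ j, lam j * eval y (pderiv a.1 (G j)) = 0) : l = 0 := by
  classical
  have hs : ∀ (j : Fin D.m) (P : MvPolynomial D.Hx κ) (a : D.Hx), ∑ j', lam j' *
      eval y (pderiv a ((Pi.single j P : Fin D.m → MvPolynomial D.Hx κ) j')) =
        lam j * eval y (pderiv a P) := fun j P a => by
    rw [Finset.sum_eq_single j, Pi.single_eq_same]
    · intro j' _ h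
      rw [Pi.single_eq_of_ne h, map_zero, map_zero, mul_zero]
    · exact fun h => absurd (Finset.mem_univ j) h
  have h1 : ∀ j : J, l (.inl j) = 0 := fun j => by
    have h2 := hl _ (homK j.1 (md_ex τ _))
    rw [Finset.sum_eq_single j, Pi.single_eq_same, eval_ex τ _ hy, mul_one,
      Finset.sum_eq_zero, add_zero] at h2
    · exact h2
    · intro a _
      rw [hs, pd_ex τ _ (hA a.1 a.2), map_zero, mul_zero, mul_zero]
    · intro j' _ h
      rw [Pi.single_eq_of_ne (fun e => h (Subtype.ext e)), map_zero, mul_zero]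
    · exact fun h => absurd (Finset.mem_univ j) h
  have h2 : ∀ a : A, l (.inr a) = 0 := fun a => by
    have h3 : D.md (Finsupp.single a.1 1 + ex τ (D.d j0 - Pi.single a.1.1 1)) = D.d j0 := by
      rw [md_add, md_single, md_ex]
      funext s
      have := D.d_pos j0 s
      rw [Pi.add_apply, Pi.sub_apply, Pi.single_apply]
      split_ifs <;> omega
    have h4 := hl _ (homK j0 h3)
    have h5 : ∀ b : A, pderiv b.1 (monomial (Finsupp.single a.1 1 +
        ex τ (D.d j0 - Pi.single a.1.1 1)) (1 : κ)) =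
          monomial (ex τ (D.d j0 - Pi.single a.1.1 1)) (1 : κ) * pderiv b.1 (X a.1) := fun b => by
      rw [monomial_single_add, pow_one, Derivation.leibniz, pd_ex τ _ (hA b.1 b.2), smul_zero,
        zero_add, smul_eq_mul]
    simp only [h1, zero_mul, Finset.sum_const_zero, zero_add, hs, h5, h0, one_mul, map_mul,
      eval_ex τ _ hy] at h4
    rw [Finset.sum_eq_single a, pderiv_X_self, map_one, mul_one] at h4
    · exact h4
    · intro b _ h
      rw [pderiv_X_of_ne (fun e => h (Subtype.ext e.symm)), map_zero, mul_zero]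
    · exact fun h => absurd (Finset.mem_univ a) h
  funext c
  rcases c with j | a
  · exact h1 j
  · exact h2 a

theorem fr_le [Algebra ℂ κ] {U : Type} [Fintype U] (u : U → κ) (A : Finset U)
    (h : ∀ a, u a ≠ 0 → u a ≠ 1 → a ∈ A) : fr u Finset.univ ≤ A.card := by
  classical
  exact Finset.card_le_card fun a ha =>
    h a (Finset.mem_filter.mp ha).2.1 (Finset.mem_filter.mp ha).2.2

end GJAC

theorem st_GJAC (T : Tools) (hGEV : St_GEV) : St_GJAC := by
  classical
  intro D
  refine T.sl.gn_mono (T.sl.gn_all fun i : Finset (Fin D.m) × Finset D.Hx =>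
    hGEV D (D.Hx ⊕ Fin D.m) (i.1 ⊕ i.2)
      (Sum.elim (fun j j' => if j.1 = j' then 1 else 0) fun _ j' => X (.inr j'))
      (fun _ a => X (.inl a)) (Sum.elim (fun _ => []) fun a => [a.1])) ?_
  intro F hF hG κ _ _ y lam o hy h1 h2 h3
  funext j0
  by_contra h0
  choose τ hτ using hy
  let μ : Fin D.k → κ := fun s => (y ⟨s, τ s⟩)⁻¹
  have hμ : ∀ s, μ s ≠ 0 := fun s => inv_ne_zero (hτ s)
  let P : Fin D.m → κ := fun j => ∏ s, μ s ^ D.d j s
  have hP : ∀ j, P j ≠ 0 := fun j => Finset.prod_ne_zero_iff.mpr fun s _ => pow_ne_zero _ (hμ s)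
  let y' : D.Hx → κ := fun a => μ a.1 * y a
  have hy' : ∀ s, y' ⟨s, τ s⟩ = 1 := fun s => inv_mul_cancel₀ (hτ s)
  let lam' : Fin D.m → κ := fun j => lam j / P j / (lam j0 / P j0)
  have h0' : lam' j0 = 1 := div_self (div_ne_zero h0 (hP j0))
  let J : Finset (Fin D.m) := Finset.univ.filter fun j => lam j ≠ 0
  let A : Finset D.Hx := Finset.univ.filter fun a => a.2 ≠ τ a.1 ∧ o ≠ some a
  have h4 := hG (J, A) κ (Sum.elim y' lam') ?_ ?_
  · have h5 : fr y' Finset.univ ≤ A.card := GJAC.fr_le _ _ fun a e0 e1 =>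
      Finset.mem_filter.mpr ⟨Finset.mem_univ _, fun e => e1 (by
        rw [show a = ⟨a.1, τ a.1⟩ from e ▸ rfl, hy']), fun e => e0 (by
          show μ a.1 * y a = 0
          rw [h2 a e, mul_zero])⟩
    have h6 : fr lam' Finset.univ ≤ (J.erase j0).card := GJAC.fr_le _ _ fun j e0 e1 =>
      Finset.mem_erase.mpr ⟨fun e => e1 (e ▸ h0'), Finset.mem_filter.mpr ⟨Finset.mem_univ _,
        fun e => e0 (by
          show lam j / P j / (lam j0 / P j0) = 0
          rw [e, zero_div, zero_div])⟩⟩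
    have h7 := Finset.card_erase_lt_of_mem
      (show j0 ∈ J from Finset.mem_filter.mpr ⟨Finset.mem_univ _, h0⟩)
    rw [T.rk.fr_sum, Fintype.card_sum, Fintype.card_coe, Fintype.card_coe] at h4
    dsimp only at h4
    omega
  · rintro (j | a)
    · simp only [Sum.elim_inl, aeval_X, dl, List.foldr_nil, apply_ite (aeval (Sum.elim y' lam')),
        map_one, map_zero, ite_mul, one_mul, zero_mul, Finset.sum_ite_eq, Finset.mem_univ, if_true]
      rw [T.pi.scal hF y μ, h1 _ (Finset.mem_filter.mp j.2).2, mul_zero]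
    · simp only [Sum.elim_inl, Sum.elim_inr, aeval_X, dl, List.foldr_nil, List.foldr_cons]
      apply mul_right_cancel₀ (hμ a.1.1)
      rw [Finset.sum_mul, zero_mul]
      have h5 : ∀ j, lam' j * aeval y' (pderiv a.1 (F j)) * μ a.1.1 =
          (lam j0 / P j0)⁻¹ * (lam j * aeval y (pderiv a.1 (F j))) := fun j => by
        rw [mul_assoc, T.pi.scald hF y μ]
        show lam j / P j / (lam j0 / P j0) * (P j * _) = _
        have := hP j
        field_simp
      rw [Finset.sum_congr rfl fun j _ => h5 j, ← Finset.mul_sum,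
        h3 _ (Finset.mem_filter.mp a.2).2.2, mul_zero]
  · intro l hl
    refine GJAC.indep J A τ (fun a ha => (Finset.mem_filter.mp ha).2.1) hy' h0' l fun G hG' => ?_
    have h5 := hl G hG'
    rw [Fintype.sum_sum_type] at h5
    simpa only [Sum.elim_inl, Sum.elim_inr, aeval_X, dl, List.foldr_nil, List.foldr_cons,
      apply_ite (aeval (Sum.elim y' lam')), map_one, map_zero, ite_mul, one_mul, zero_mul,
      Finset.sum_ite_eq, Finset.mem_univ, if_true] using h5

end Pool.Agent.Lib.CI
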