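import Pool.Agent.Lib.CI.BlueB

open MvPolynomial Set Matrix WithZero Pool.Agent.Lib.MP_e39d36_ag Pool.Agent.Lib.MP_e39d36_ag.Var
  Pool.Agent.Lib.MP_cc3443_ag Pool.Agent.Lib.MV Pool.Agent.Lib.MV.End Pool.Agent.Lib.MV.Fb
  Pool.Agent.Lib.DU

set_option linter.unusedSectionVars false
set_option linter.unusedVariables false

noncomputable section

namespace Pool.Agent.Lib.CI

open Pool.Agent.Lib.CI.Dat

namespace GMOV

variable {D : Dat} {F : D.Fm} {K : Type} [Field K] [Algebra ℂ K]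

/-- A generic configuration with the same prime divisors as the model. -/
structure St (M : Mod F K) (τ : D.Ty) (u : D.Vr → K) : Prop where
  cfg : Cfg F τ u
  big : Big τ (tv K) u D.dm
  gt : Gt τ u
  iff : ∀ v : Valuation K ℤᵐ⁰, Cv v → (Big none v M.u (D.dm - 1) ↔ Big τ v u (D.dm - 1))

lemma step (T : Tools) (hPD : St_PD) (hX : St_FLX) (h2 : St_F2) (hV : St_FLV) (hD : St_FLD)
    (hF : Gen F) (M : Mod F K) {τ τ' : D.Ty} (hτ : τ ≠ τ') {u : D.Vr → K} (h : St M τ u)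
    (γ : D.Sl → D.Λ) (hγ : ∀ σ, σ ≠ ts τ → LE (M.SD u σ) (M.std (γ σ))) :
    ∃ u', St M τ' u' ∧ (∀ σ, σ ≠ ts τ → LE (M.SD u' σ) (M.std (γ σ))) ∧
      LE (M.SD u' (ts τ)) (M.std (∑ σ ∈ Finset.univ.erase (ts τ), gam τ τ' σ • γ σ)) := by
  obtain ⟨u', lam, ha, hd⟩ := hX D F hF τ τ' hτ K u h.cfg
    (T.nrm.big_mono τ u _ _ (Nat.sub_le _ _) h.big)
  have ha' : Agr (ts τ) u' u := fun a k => (ha a k).symm
  obtain ⟨hd', -, -, hg⟩ := h2 D F hF.hom τ τ' hτ K u' lam hd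
  have hb := T.nrm.big_agr τ u u' _ ha hd.nz h.big
  have hγ' : ∀ σ, σ ≠ ts τ → LE (M.SD u' σ) (M.std (γ σ)) := fun σ k => by
    rw [Mod.SD, T.nrm.nu_agr (tv K) τ u u' ha σ k]
    exact hγ σ k
  refine ⟨u', ⟨⟨hd.nz, hd.e2⟩, (hV D F hF τ τ' hτ K _ (T.red.triv K).1 u' lam hd
    (T.nrm.big_mono τ u' _ _ (Nat.sub_le _ _) hb)).2.1 _ hb,
    hg (T.nrm.gt_agr τ u u' ha hd.nz h.gt), fun v hv => (h.iff v hv).trans ⟨fun k => ?_, fun k => ?_⟩⟩,
    hγ', hD D F hF K M τ τ' hτ u' lam hd (fun E => ?_) γ hγ'⟩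
  · have k' := T.nrm.big_agr τ u u' _ ha hd.nz k
    exact (hV D F hF τ τ' hτ K v hv u' lam hd k').2.1 _ k'
  · exact T.nrm.big_agr τ u' u _ ha' h.cfg.1
      ((hV D F hF τ' τ hτ.symm K v hv u' lam hd' k).2.1 _ k)
  · obtain ⟨a, b⟩ := (hPD D F hF K M).1 E
    exact T.nrm.big_agr τ u u' _ ha hd.nz ((h.iff _ a).1 b)

end GMOV

open GMOV in
theorem st_GMOV (T : Tools) (hPD : St_PD) (hX : St_FLX) (h2 : St_F2) (hV : St_FLV) (hD : St_FLD)
    (hL : St_LEV) (hA : St_ACT) (hG : St_GCL) : St_GMOV := by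
  intro D F hF K _ _ M l l' hl
  have hl1 : l'.1 ≠ l.1 := fun k => hl (Subtype.ext k).symm
  obtain ⟨⟨u, lam, hu⟩, hu'⟩ := hL D F hF K M l
  obtain ⟨a1, a2, a3, a4, a5⟩ := hu' u lam hu
  obtain ⟨g1, g2⟩ := (hG D l).2.1 l' hl
  obtain ⟨u2, s2, b1, b2⟩ := step T hPD hX h2 hV hD hF M (τ := some l) (τ' := some l')
    (by simpa using hl) ⟨⟨hu.2.nz, hu.2.e2⟩, a1, a2, a3⟩
    (fun σ => σ.elim (zeta l) fun s => Pi.single s 1) (by
      rintro (_ | s) -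
      · exact a5
      · exact LE.of_eq (by rw [a4]; simp [Mod.std, Pi.single_apply]))
  obtain ⟨u3, s3, c1, c2⟩ := step T hPD hX h2 hV hD hF M (τ := some l') (τ' := none)
    (by simp) s2 (fun σ => σ.elim (zeta l) (gcol l l')) (by
      rintro (_ | s) k
      · exact b1 none (by simp [ts])
      · by_cases e : s = l.1
        · subst e
          exact b2.trans (LE.of_eq (congrArg M.std g1))
        · have k' : s ≠ l'.1 := fun e' => k (by simp [ts, e'])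
          simpa [gcol, e, k'] using b1 (some s) (by simpa [ts] using e))
  obtain ⟨φ, μ, e, -, -, p, q⟩ := hA D F hF K M u3 s3.cfg s3.big s3.gt s3.iff
  refine ⟨e, p, fun s => (q s).trans ?_⟩
  by_cases k : s = l'.1
  · subst k
    exact g2 ▸ c2
  · exact c1 (some s) (by simpa [ts] using k)

end Pool.Agent.Lib.CI
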