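import Pool.Agent.Lib.CI.BlueA

open MvPolynomial Set Matrix WithZero Pool.Agent.Lib.MP_e39d36_ag Pool.Agent.Lib.MP_e39d36_ag.Var
  Pool.Agent.Lib.MP_cc3443_ag Pool.Agent.Lib.MV Pool.Agent.Lib.MV.End Pool.Agent.Lib.MV.Fb
  Pool.Agent.Lib.DU

set_option linter.unusedSectionVars false
set_option linter.unusedVariables false

noncomputable section

namespace Pool.Agent.Lib.CI

open Pool.Agent.Lib.CI.Dat

namespace GRD

variable {D : Dat}

open Classical in
/-- The slot `i` is replaced by a basis vector. -/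
def yq (i : D.I1) (q : Fin (D.m + 1)) (a : D.Hx) : MvPolynomial D.Vr ℂ :=
  if sl (.inr a) = some i.1 then (if (.inr a : D.Vr) = cw i q then 1 else 0) else X (.inr a)

open Classical in
/-- The point with the slot `i` replaced by a basis vector. -/
def uq {κ : Type} [Field κ] (i : D.I1) (q : Fin (D.m + 1)) (u : D.Vr → κ) (a : D.Vr) : κ :=
  if sl a = some i.1 then (if a = cw i q then 1 else 0) else u a

open Classical in
/-- The point with the slot `i` replaced by zero. -/
def uz {κ : Type} [Field κ] (i : D.I1) (u : D.Vr → κ) (a : D.Vr) : κ :=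
  if sl a = some i.1 then 0 else u a

lemma aeval_yq {κ : Type} [Field κ] [Algebra ℂ κ] (i : D.I1) (q : Fin (D.m + 1)) (u : D.Vr → κ) :
    (fun a => aeval (uz i u) (yq i q a)) = uq i q u ∘ .inr := by
  funext a
  simp only [yq, uq, Function.comp]
  split_ifs with h1 h2
  · simp
  · simp
  · rw [aeval_X, uz, if_neg h1]

lemma uz_inl {κ : Type} [Field κ] (i : D.I1) (u : D.Vr → κ) (j : Fin D.m) :
    uz i u (.inl j) = u (.inl j) := if_neg (by simp [sl])

lemma uq_inl {κ : Type} [Field κ] (i : D.I1) (q : Fin (D.m + 1)) (u : D.Vr → κ) (j : Fin D.m) :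
    uq i q u (.inl j) = u (.inl j) := if_neg (by simp [sl])

lemma row (T : Tools) {F : D.Fm} (hF : D.Hom F) {κ : Type} [Field κ] [Algebra ℂ κ] (l : D.I0)
    (i : D.I1) (u : D.Vr → κ) (hz : u (.inl (jj i)) = 0)
    (h : (u ∘ co (some l)) ᵥ* Nx F l i u = 0) (q : Fin (D.m + 1)) :
    ∑ j, u (.inl j) * aeval (uq i q u ∘ .inr) (F j) = 0 := by
  classical
  have hne : ∀ p, sl (co (some l) p) ≠ some i.1 := fun p => by
    rw [T.sl.sl_co]; exact T.sl.ts_ne _ _
  have h1 : Nx F l i (uq i q u) = Nx F l i u :=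
    T.pi.nx_agr2 hF l i u _ (fun a ha _ => if_neg (Finset.mem_filter.1 ha).2.2) (Or.inl hz)
      (Or.inl (by rw [uq_inl, hz]))
  have h2 : uq i q u ∘ cw i = Pi.single q 1 := by
    funext q'
    simp only [Function.comp, uq, if_pos (T.sl.sl_cw i q'), (T.sl.cw_inj i).eq_iff, Pi.single_apply]
  have h3 := T.pi.nx_mul hF l i (uq i q u)
  rw [h1, h2] at h3
  have h4 : ∑ p, u (co (some l) p) * Nx F l i u p q = 0 := congrFun h q
  have h5 : ∀ p, Nx F l i u p q =
      ∑ j, u (.inl j) * aeval (uq i q u ∘ .inr) (pderiv ⟨l.1, p.cast l.2.symm⟩ (F j)) := by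
    intro p
    have := congrFun h3 p
    rw [mulVec_single_one] at this
    refine this.trans ((T.pi.d_inr F _ _).trans ?_)
    simp only [uq_inl]
  rw [← h4]
  simp only [h5, Finset.mul_sum]
  rw [Finset.sum_comm]
  refine Finset.sum_congr rfl fun j _ => ?_
  have h6 := T.pi.euler hF (uq i q u ∘ .inr) j l.1
  rw [d_I0, Nat.cast_one, one_mul] at h6
  rw [← h6, Finset.mul_sum, ← (finCongr l.2.symm).sum_comp]
  refine Finset.sum_congr rfl fun p _ => ?_
  have h7 : (uq i q u ∘ .inr) ⟨l.1, finCongr l.2.symm p⟩ = u (co (some l) p) := if_neg (hne p)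
  rw [h7]
  simp only [finCongr_apply]
  ring

lemma indep (T : Tools) {κ : Type} [Field κ] [Algebra ℂ κ] (i : D.I1) (u : D.Vr → κ) (hu : NZ u)
    (c : Fin (D.m + 1) → κ) (h : ∀ G : Fin D.m → MvPolynomial D.Hx κ, HomK G →
      ∑ q, c q * ∑ j, u (.inl j) * eval (uq i q u ∘ .inr) (G j) = 0) : c = 0 := by
  classical
  funext q0
  obtain ⟨a, ha, ha0⟩ := hu none
  obtain ⟨j, rfl⟩ : ∃ j, a = .inl j := by
    rcases a with j | a
    · exact ⟨j, rfl⟩
    · simp [sl] at ha
  have hp : ∀ s, ∃ p, uq i q0 u (.inr ⟨s, p⟩) ≠ 0 ∧ (s = i.1 → (.inr ⟨s, p⟩ : D.Vr) = cw i q0) := by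
    intro s
    by_cases hs : s = i.1
    · subst hs
      refine ⟨q0.cast (congrArg (· + 1) i.2.symm), ?_, fun _ => rfl⟩
      have : uq i q0 u (cw i q0) = 1 := by
        unfold uq
        rw [if_pos (T.sl.sl_cw i q0), if_pos rfl]
      exact this ▸ one_ne_zero
    · obtain ⟨b, hb, hb0⟩ := hu (some s)
      rcases b with j | ⟨t, p⟩
      · simp [sl] at hb
      · obtain rfl : t = s := by simpa [sl] using hb
        refine ⟨p, ?_, fun h => (hs h).elim⟩
        unfold uq
        rw [if_neg (by simpa [sl] using hs)]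
        exact hb0
  choose p hp hp' using hp
  have h1 := h _ (T.sl.homK j (fun s => X (p s) ^ D.d j s) fun s => by
    simpa using (isHomogeneous_X κ (p s)).pow (D.d j s))
  have h2 : ∀ q, ∑ j', u (.inl j') * eval (uq i q u ∘ .inr)
      ((Pi.single j (∏ s, rename (Sigma.mk s) (X (p s) ^ D.d j s)) :
        Fin D.m → MvPolynomial D.Hx κ) j') =
      u (.inl j) * ∏ s, uq i q u (.inr ⟨s, p s⟩) ^ D.d j s := by
    intro q
    rw [Finset.sum_eq_single j]
    · simp
    · intro b _ hb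
      simp [Pi.single_eq_of_ne hb]
    · simp
  simp only [h2] at h1
  rw [Finset.sum_eq_single q0] at h1
  · exact (mul_eq_zero.1 h1).resolve_right
      (mul_ne_zero ha0 (Finset.prod_ne_zero_iff.2 fun s _ => pow_ne_zero _ (hp s)))
  · intro q _ hq
    rw [Finset.prod_eq_zero (Finset.mem_univ i.1), mul_zero, mul_zero]
    rw [hp' _ rfl]
    unfold uq
    rw [if_pos (T.sl.sl_cw i q0), if_neg fun e => hq (T.sl.cw_inj i e).symm]
    exact zero_pow (by have := D.d_pos j i.1; omega)
  · simp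

lemma fr_le (T : Tools) {κ : Type} [Field κ] [Algebra ℂ κ] (l : D.I0) (i : D.I1) (u u' : D.Vr → κ)
    (h : Agr (ts (some l)) u u') (p : Fin D.m) (hp : u' (co (some l) p) = 1) :
    fr (uz i u') Finset.univ + 1 ≤ fr u (of2 l i) + D.m := by
  classical
  have h1 : fr (uz i u') Finset.univ ≤
      fr u (of2 l i) + ((Finset.univ.erase p).image (co (some l))).card := by
    unfold fr
    refine le_trans (Finset.card_le_card fun a ha => ?_) (Finset.card_union_le _ _)
    obtain ⟨-, h0, h1⟩ := Finset.mem_filter.1 ha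
    have hi : sl a ≠ some i.1 := fun e => h0 (if_pos e)
    have e1 : uz i u' a = u' a := if_neg hi
    rw [e1] at h0 h1
    by_cases hl : sl a = ts (some l)
    · obtain ⟨p', rfl⟩ := T.sl.co_surj _ a hl
      refine Finset.mem_union_right _ (Finset.mem_image_of_mem _ ?_)
      exact Finset.mem_erase.2 ⟨fun e => h1 (e ▸ hp), Finset.mem_univ _⟩
    · rw [h a hl] at h0 h1
      exact Finset.mem_union_left _ (Finset.mem_filter.2
        ⟨Finset.mem_filter.2 ⟨Finset.mem_univ _, hl, hi⟩, h0, h1⟩)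
  have h2 := Finset.card_image_le (s := Finset.univ.erase p) (f := co (some l))
  rw [Finset.card_erase_of_mem (Finset.mem_univ _), Finset.card_univ, Fintype.card_fin] at h2
  have := p.2
  omega

end GRD

open GRD in
theorem st_GRD (T : Tools) (hGEV : St_GEV) : St_GRD := by
  classical
  intro D
  refine T.sl.gn_mono (T.sl.gn_all (ι := D.I1) fun i =>
    hGEV D D.Vr (Fin (D.m + 1)) (fun _ j => X (.inl j)) (yq i) fun _ => []) ?_
  intro F hF h l i κ _ _ u hu hz hx
  obtain ⟨w, hw, hw0⟩ := (T.la.xp_left _).1 hx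
  obtain ⟨p, hp⟩ := Function.ne_iff.1 hw
  have hp' : w p ≠ 0 := hp
  obtain ⟨u', ha, hu'⟩ := T.sl.put_co (some l) u ((w p)⁻¹ • w)
  have h1 : u' (co (some l) p) = 1 := by
    rw [hu', Pi.smul_apply, smul_eq_mul, inv_mul_cancel₀ hp']
  have hN : NZ u' := by
    intro σ
    by_cases hσ : σ = ts (some l)
    · exact ⟨_, (T.sl.sl_co _ p).trans hσ.symm, h1 ▸ one_ne_zero⟩
    · obtain ⟨a, h2, h3⟩ := hu σ
      exact ⟨a, h2, by rw [ha a (h2 ▸ hσ)]; exact h3⟩
  have hz' : u' (.inl (jj i)) = 0 := by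
    rw [ha _ (by simp [sl, ts]), hz]
  have h0 : (u' ∘ co (some l)) ᵥ* Nx F l i u' = 0 := by
    rw [T.pi.nx_agr hF l i u u' ha, show u' ∘ co (some l) = (w p)⁻¹ • w from funext hu',
      smul_vecMul, hw0, smul_zero]
  have h2 := h i κ (uz i u') (fun q => by
    simp only [aeval_yq, aeval_X, uz_inl]
    exact row T hF l i u' hz' h0 q) (fun c hc => indep T i u' hN c fun G hG => by
      have := hc G hG
      simp only [aeval_yq, aeval_X, uz_inl] at this
      exact this)
  have h3 : rk (u '' of2 l i) ≤ rk (range (uz i u')) := by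
    refine T.rk.mono (finite_range _) ?_
    rintro _ ⟨a, hb, rfl⟩
    obtain ⟨-, hl, hi⟩ := Finset.mem_filter.1 (Finset.mem_coe.1 hb)
    exact ⟨a, (if_neg hi).trans (ha a hl)⟩
  have h4 := fr_le T l i u u' ha p h1
  rw [Fintype.card_fin] at h2
  omega

end Pool.Agent.Lib.CI
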