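import Pool.Agent.Lib.CI.BlueA

open MvPolynomial Set Matrix WithZero Pool.Agent.Lib.MP_e39d36_ag Pool.Agent.Lib.MP_e39d36_ag.Var
  Pool.Agent.Lib.MP_cc3443_ag Pool.Agent.Lib.MV Pool.Agent.Lib.MV.End Pool.Agent.Lib.MV.Fb
  Pool.Agent.Lib.DU

set_option linter.unusedSectionVars false
set_option linter.unusedVariables false

noncomputable section

namespace Pool.Agent.Lib.CI

open Pool.Agent.Lib.CI.Dat
open Pool.Agent.Lib.MV.G3 (acl Ov)

namespace GSG

/-- A combination of three vectors. -/
def vec {R ι : Type} [CommRing R] (t : ℕ × ℕ × ℕ) (w b b' : ι → R) (p : ι) : R :=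
  t.1 * w p + t.2.1 * b p + t.2.2 * b' p

variable {D : Dat}

/-- Replace one slot. -/
def put {R : Type} (i : D.I1) (y : D.Hx → R) (v : Fin (D.m + 1) → R) (a : D.Hx) : R :=
  Function.update (fun t p => y ⟨t, p⟩) i.1 (fun p => v (p.cast (congrArg (· + 1) i.2))) a.1 a.2

lemma put_self {R : Type} (i : D.I1) (y : D.Hx → R) (v : Fin (D.m + 1) → R)
    (p : Fin (D.n i.1 + 1)) : put i y v ⟨i.1, p⟩ = v (p.cast (congrArg (· + 1) i.2)) := by
  simp only [put, Function.update_self]

lemma put_ne {R : Type} (i : D.I1) (y : D.Hx → R) (v : Fin (D.m + 1) → R) {a : D.Hx}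
    (h : a.1 ≠ i.1) : put i y v a = y a := by
  simp only [put, Function.update_of_ne h]

lemma put_map {R R' : Type} (f : R → R') (i : D.I1) (y : D.Hx → R) (v : Fin (D.m + 1) → R)
    (a : D.Hx) : f (put i y v a) = put i (f ∘ y) (f ∘ v) a := by
  obtain ⟨s, p⟩ := a
  rcases eq_or_ne s i.1 with rfl | h
  · rw [put_self, put_self]; rfl
  · rw [put_ne i y v h, put_ne i _ _ h]; rfl

lemma test (T : Tools) {κ : Type} [Field κ] (i : D.I1) (y : D.Hx → κ)
    (hy : ∀ s, ∃ p, y ⟨s, p⟩ ≠ 0) (j : Fin D.m) (P : MvPolynomial (Fin (D.n i.1 + 1)) κ)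
    (hP : P.IsHomogeneous (D.d j i.1)) : ∃ (Q : MvPolynomial D.Hx κ) (c : κ), c ≠ 0 ∧
      HomK (Pi.single j Q : Fin D.m → MvPolynomial D.Hx κ) ∧ ∀ v : Fin (D.m + 1) → κ,
        eval (put i y v) Q = eval (fun p => v (p.cast (congrArg (· + 1) i.2))) P * c := by
  choose p hp using hy
  let G : ∀ s, MvPolynomial (Fin (D.n s + 1)) κ :=
    Function.update (fun s => X (p s) ^ D.d j s) i.1 P
  have hG : ∀ s, (G s).IsHomogeneous (D.d j s) := by
    intro s
    rcases eq_or_ne s i.1 with rfl | h
    · simpa only [G, Function.update_self] using hP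
    · simp only [G, Function.update_of_ne h]
      simpa using (isHomogeneous_X κ (p s)).pow (D.d j s)
  refine ⟨_, ∏ s ∈ Finset.univ.erase i.1, y ⟨s, p s⟩ ^ D.d j s,
    Finset.prod_ne_zero_iff.2 fun s _ => pow_ne_zero _ (hp s), T.sl.homK j G hG, fun v => ?_⟩
  rw [map_prod, ← Finset.mul_prod_erase _ _ (Finset.mem_univ i.1)]
  congr 1
  · rw [eval_rename]
    simp only [G, Function.update_self]
    congr 2
    funext q
    exact put_self i y v q
  · refine Finset.prod_congr rfl fun s hs => ?_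
    have h := (Finset.mem_erase.1 hs).1
    rw [eval_rename]
    simp only [G, Function.update_of_ne h, map_pow, eval_X, Function.comp]
    rw [put_ne i y v h]

lemma core (T : Tools) (hG : St_GEV) (i : D.I1) (A A' : Type) [Fintype A] [Fintype A']
    (t : A → ℕ × ℕ × ℕ) (t' : A' → ℕ × ℕ × ℕ) :
    D.Gn fun F => ∀ (κ : Type) [Field κ] [Algebra ℂ κ] (u : D.Vr → κ)
      (b b' : Fin (D.m + 1) → κ), NZ u →
      (∀ j, j ≠ jj i → ∀ k, Lm F i u j ⬝ᵥ vec (t k) (u ∘ cw i) b b' = 0) →
      (∀ k, vec (t' k) (u ∘ cw i) b b' ⬝ᵥ Hs F i u *ᵥ vec (t' k) (u ∘ cw i) b b' = 0) →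
      (∀ l : A → κ, (∀ q, ∑ k, l k * vec (t k) (u ∘ cw i) b b' q = 0) → l = 0) →
      (∀ l : A' → κ, (∀ q q', ∑ k, l k * (vec (t' k) (u ∘ cw i) b b' q *
        vec (t' k) (u ∘ cw i) b b' q') = 0) → l = 0) →
      rk (u '' off (D := D) none) + ((D.m - 1) * Fintype.card A + Fintype.card A') ≤
        fr u (off (D := D) none) + (fr b Finset.univ + fr b' Finset.univ) := by
  classical
  let C := ({j // j ≠ jj i} × A) ⊕ A'
  let jc : C → Fin D.m := Sum.elim (fun c => c.1.1) fun _ => jj i
  let tc : C → ℕ × ℕ × ℕ := Sum.elim (fun c => t c.2) t'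
  let U := D.Vr ⊕ (Fin (D.m + 1) ⊕ Fin (D.m + 1))
  refine T.sl.gn_mono (hG D U C (fun c j => if j = jc c then 1 else 0)
    (fun c => put i (fun a => X (.inl (.inr a))) (vec (tc c) (fun p => X (.inl (cw i p)))
      (fun p => X (.inr (.inl p))) fun p => X (.inr (.inr p)))) fun _ => []) ?_
  intro F hF h κ _ _ u b b' hnz h1 h2 h3 h4
  haveI : CharZero κ := charZero_of_injective_algebraMap (algebraMap ℂ κ).injective
  let u0 : D.Vr → κ := Sum.elim (fun _ => 0) (u ∘ .inr)
  let u1 : U → κ := Sum.elim u0 (Sum.elim b b')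
  have hev : ∀ c : C, (fun a => aeval u1 (put i (fun a => (X (.inl (.inr a)) : MvPolynomial U ℂ))
      (vec (tc c) (fun p => X (.inl (cw i p))) (fun p => X (.inr (.inl p)))
        fun p => X (.inr (.inr p))) a)) = put i (u ∘ .inr) (vec (tc c) (u ∘ cw i) b b') := by
    intro c
    funext a
    rw [put_map (aeval u1)]
    congr 1
    · funext a; simp [u1, u0]
    · funext p; simp [vec, u1, u0, cw]
  have hz : ∀ (c : C) (f : Fin D.m → κ),
      ∑ j, aeval u1 (if j = jc c then (1 : MvPolynomial U ℂ) else 0) * f j = f (jc c) := by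
    intro c f
    rw [Finset.sum_eq_single (jc c)]
    · rw [if_pos rfl, map_one, one_mul]
    · intro j _ hj
      rw [if_neg hj, map_zero, zero_mul]
    · intro hj; exact absurd (Finset.mem_univ _) hj
  have hcard : Fintype.card C = (D.m - 1) * Fintype.card A + Fintype.card A' := by
    simp only [C, Fintype.card_sum, Fintype.card_prod, ne_eq, Fintype.card_subtype_compl,
      Fintype.card_fin, Fintype.card_subtype_eq]
  have key := h κ u1 ?_ ?_
  · have e1 : rk (u '' off (D := D) none) ≤ rk (range u1) := by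
      refine T.rk.mono (finite_range _) ?_
      rintro _ ⟨a, ha, rfl⟩
      rcases a with j | a
      · simp [off, sl, ts] at ha
      · exact ⟨.inl (.inr a), rfl⟩
    have e2 : fr u0 Finset.univ ≤ fr u (off (D := D) none) := by
      refine T.rk.fr_le _ _ _ _ fun a _ h0 h1 => ?_
      rcases a with j | a
      · exact absurd rfl h0
      · exact ⟨by simp [off, sl, ts], h0, h1⟩
    have e3 : fr u1 Finset.univ = fr u0 Finset.univ + (fr b Finset.univ + fr b' Finset.univ) := by
      rw [← T.rk.fr_sum b b']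
      exact T.rk.fr_sum _ _
    rw [← hcard]
    omega
  · intro c
    rw [hz c fun j => aeval _ (dl [] (F j)), hev c]
    set v := vec (tc c) (u ∘ cw i) b b' with hv
    let u' : D.Vr → κ := Sum.elim (u ∘ .inl) (put i (u ∘ .inr) v)
    have ha : ∀ a, sl a ≠ none → sl a ≠ some i.1 → u' a = u a := by
      rintro (j | a) h5 h6
      · rfl
      · exact put_ne i _ _ fun e => h6 (congrArg some e)
    have hw : u' ∘ cw i = v := by
      funext p
      exact put_self i _ _ _
    obtain ⟨g1, g2, -⟩ := T.pi.lm_agr hF i u u' ha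
    change aeval (u' ∘ .inr) (F (jc c)) = 0
    rcases c with c | k
    · have g3 := T.pi.lm_mul hF i u' c.1.1
      rw [g1 _ c.1.2, hw, d_ne_jj i c.1.2, Nat.cast_one, one_mul] at g3
      exact g3.symm.trans (h1 _ c.1.2 c.2)
    · have g3 := (T.pi.hs_mul hF i u').2
      rw [g2, hw] at g3
      exact (mul_eq_zero.1 (g3.symm.trans (h2 k))).resolve_left two_ne_zero
  · intro l hl
    have hy : ∀ s, ∃ p, (u ∘ Sum.inr) (⟨s, p⟩ : D.Hx) ≠ 0 := by
      intro s
      obtain ⟨a, ha, h0⟩ := hnz (some s)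
      rcases a with j | ⟨s', p⟩
      · cases ha
      · obtain rfl : s' = s := Option.some.inj ha
        exact ⟨p, h0⟩
    have hP : ∀ (j : Fin D.m) (P : MvPolynomial (Fin (D.n i.1 + 1)) κ),
        P.IsHomogeneous (D.d j i.1) → ∑ c : C, (if jc c = j then l c * eval (fun p =>
          vec (tc c) (u ∘ cw i) b b' (p.cast (congrArg (· + 1) i.2))) P else 0) = 0 := by
      intro j P hP
      obtain ⟨Q, e, he, hQ, hev'⟩ := test T i (u ∘ Sum.inr) hy j P hP
      have g := hl _ hQ
      refine (mul_eq_zero.1 ?_).resolve_right he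
      rw [Finset.sum_mul]
      refine Eq.trans (Finset.sum_congr rfl fun c _ => ?_) g
      rw [hz c fun j' => eval _ (dl [] ((Pi.single j Q : Fin D.m → MvPolynomial D.Hx κ) j')),
        hev c]
      change _ = l c * eval _ ((Pi.single j Q : Fin D.m → MvPolynomial D.Hx κ) (jc c))
      split_ifs with hj
      · rw [hj, Pi.single_eq_same, hev', mul_assoc]
      · rw [Pi.single_eq_of_ne hj, map_zero, mul_zero, zero_mul]
    funext c
    rcases c with ⟨j, k⟩ | k
    · refine congrFun (h3 (fun k => l (.inl (j, k))) fun q => ?_) k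
      have g := hP j.1 (X (q.cast (congrArg (· + 1) i.2.symm)))
        (by rw [d_ne_jj i j.2]; exact isHomogeneous_X κ _)
      rw [Fintype.sum_sum_type, Fintype.sum_prod_type, Finset.sum_eq_single j,
        Finset.sum_eq_zero (s := (Finset.univ : Finset A')), add_zero] at g
      · simpa [jc, tc] using g
      · intro k _
        exact if_neg j.2.symm
      · intro j' _ hj
        exact Finset.sum_eq_zero fun k _ => if_neg fun e => hj (Subtype.ext e)
      · intro hj; exact absurd (Finset.mem_univ _) hj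
    · refine congrFun (h4 (fun k => l (.inr k)) fun q q' => ?_) k
      have g := hP (jj i) (X (q.cast (congrArg (· + 1) i.2.symm)) *
          X (q'.cast (congrArg (· + 1) i.2.symm)))
        (by rw [d_jj i]; exact (isHomogeneous_X κ _).mul (isHomogeneous_X κ _))
      rw [Fintype.sum_sum_type, Finset.sum_eq_zero, zero_add] at g
      · simpa [jc, tc] using g
      · intro c _
        exact if_neg c.1.2

lemma vec1 {R ι : Type} [CommRing R] (w b b' : ι → R) : vec (1, 0, 0) w b b' = w := by
  funext p; simp [vec]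

lemma vec2 {R ι : Type} [CommRing R] (w b b' : ι → R) : vec (0, 1, 0) w b b' = b := by
  funext p; simp [vec]

lemma vec3 {R ι : Type} [CommRing R] (w b b' : ι → R) : vec (0, 0, 1) w b b' = b' := by
  funext p; simp [vec]

lemma vec4 {R ι : Type} [CommRing R] (w b b' : ι → R) : vec (1, 1, 0) w b b' = w + b := by
  funext p; simp [vec]

end GSG

open GSG in
theorem st_GSG (T : Tools) (hG : St_GEV) : St_GSG := by
  intro D
  classical
  refine T.sl.gn_mono (T.sl.gn_all fun i : D.I1 => T.sl.gn_and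
    (core T hG i (Fin 3) (Fin 1) ![(1, 0, 0), (0, 1, 0), (0, 0, 1)] ![(1, 0, 0)])
    (core T hG i (Fin 2) (Fin 3) ![(1, 0, 0), (0, 1, 0)] ![(1, 0, 0), (0, 1, 0), (1, 1, 0)])) ?_
  intro F hF h i κ _ _ u hu hS
  obtain ⟨ha, hb⟩ := h i
  have hm := D.two_le_m
  have h0 : ∀ j, aeval (u ∘ .inr) (F j) = 0 := fun j => (T.pi.d_inl F u j).symm.trans (hu.2 j)
  obtain ⟨a, ha1, hr⟩ := hu.1 (some i.1)
  obtain ⟨r, rfl⟩ := T.sl.cw_surj i a ha1
  set w := u ∘ cw i with hw
  replace hr : w r ≠ 0 := hr
  have hL : ∀ j, Lm F i u j ⬝ᵥ w = 0 := fun j => by rw [hw, T.pi.lm_mul hF, h0, mul_zero]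
  have hH : w ⬝ᵥ Hs F i u *ᵥ w = 0 := by rw [hw, (T.pi.hs_mul hF i u).2, h0, mul_zero]
  by_cases hc : ∀ p, us F i u p = 0
  · obtain ⟨b0, n0, r0, -, k0⟩ := T.la.xp3 (Lm F i u) (jj i) r r hc
    obtain ⟨q, hq⟩ := Function.ne_iff.1 n0
    replace hq : b0 q ≠ 0 := hq
    obtain ⟨b1, n1, r1, q1, k1⟩ := T.la.xp3 (Lm F i u) (jj i) r q hc
    obtain ⟨t, ht⟩ := Function.ne_iff.1 n1
    replace ht : b1 t ≠ 0 := ht
    let b' := (b1 t)⁻¹ • b1
    let b := (b0 q)⁻¹ • (b0 - b0 t • b')
    have c1 : b' r = 0 := by simp [b', r1]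
    have c2 : b' q = 0 := by simp [b', q1]
    have c3 : b' t = 1 := by simp [b', ht]
    have c4 : b r = 0 := by simp [b, c1, r0]
    have c5 : b q = 1 := by simp [b, c2, hq]
    have c6 : b t = 0 := by simp [b, c3]
    have k2 : ∀ j, j ≠ jj i → Lm F i u j ⬝ᵥ b' = 0 := fun j hj => by
      simp only [b', dotProduct_smul, k1 j hj, smul_zero]
    have k3 : ∀ j, j ≠ jj i → Lm F i u j ⬝ᵥ b = 0 := fun j hj => by
      simp only [b, dotProduct_smul, dotProduct_sub, k0 j hj, k2 j hj, smul_zero, sub_zero]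
    have hZ : ({r, q, t} : Finset (Fin (D.m + 1))).card = 3 := by
      refine Finset.card_eq_three.2 ⟨r, q, t, ?_, ?_, ?_, rfl⟩
      · rintro rfl; exact hq r0
      · rintro rfl; exact ht r1
      · rintro rfl; exact ht q1
    have f1 := T.rk.fr_add b Finset.univ {r, q, t} (Finset.subset_univ _) (by simp [c4, c5, c6])
    have f2 := T.rk.fr_add b' Finset.univ {r, q, t} (Finset.subset_univ _) (by simp [c1, c2, c3])
    rw [hZ, Finset.card_univ, Fintype.card_fin] at f1 f2
    have key := ha κ u b b' hu.1 ?_ ?_ ?_ ?_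
    · simp only [Fintype.card_fin] at key
      omega
    · intro j hj k
      fin_cases k
      · exact (congrArg _ (vec1 _ _ _)).trans (hL j)
      · exact (congrArg _ (vec2 _ _ _)).trans (k3 j hj)
      · exact (congrArg _ (vec3 _ _ _)).trans (k2 j hj)
    · intro k
      fin_cases k
      simpa [vec1] using hH
    · intro l hl
      have g1 := hl r
      have g2 := hl q
      have g3 := hl t
      simp only [Fin.sum_univ_three, cons_val_zero, cons_val_one, cons_val, vec1, vec2, vec3,
        ← hw, c1, c2, c3, c4, c5, c6, mul_zero, add_zero, mul_one] at g1 g2 g3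
      have l0 : l 0 = 0 := (mul_eq_zero.1 g1).resolve_right hr
      rw [l0, zero_mul, zero_add] at g2 g3
      funext k
      fin_cases k
      exacts [l0, g2, g3]
    · intro l hl
      have g1 := hl r r
      simp only [Fin.sum_univ_one, cons_val_zero, vec1, ← hw] at g1
      funext k
      fin_cases k
      exact (mul_eq_zero.1 g1).resolve_right (mul_ne_zero hr hr)
  · obtain ⟨b0, n0, r0, k0⟩ := T.la.line (Lm F i u) (jj i) r
    obtain ⟨q, hq⟩ := Function.ne_iff.1 n0
    replace hq : b0 q ≠ 0 := hq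
    let b := (b0 q)⁻¹ • b0
    have c4 : b r = 0 := by simp [b, r0]
    have c5 : b q = 1 := by simp [b, hq]
    have k3 : ∀ j, j ≠ jj i → Lm F i u j ⬝ᵥ b = 0 := fun j hj => by
      simp only [b, dotProduct_smul, k0 j hj, smul_zero]
    obtain ⟨μ, hμ⟩ := T.la.xp2 (Lm F i u) (jj i) w b r hr c4
      (fun e => one_ne_zero (c5.symm.trans (congrFun e q))) fun j hj => ⟨hL j, k3 j hj⟩
    have hμ0 : μ ≠ 0 := fun e => hc fun p => by
      have := hμ p
      rwa [e, zero_smul] at this
    have s1 : us F i u r ⬝ᵥ Hs F i u *ᵥ us F i u r = 0 := congrFun (congrFun hS r) r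
    have s2 : us F i u r ⬝ᵥ Hs F i u *ᵥ us F i u q = 0 := congrFun (congrFun hS r) q
    have u1 : us F i u r = (μ * w r) • b := by
      rw [us, hμ r, c4, zero_smul, sub_zero, smul_smul]
    have u2 : us F i u q = μ • (w q • b - w) := by
      rw [us, hμ q, c5, one_smul]
    have q1 : b ⬝ᵥ Hs F i u *ᵥ b = 0 := by
      rw [u1, mulVec_smul, smul_dotProduct, dotProduct_smul, smul_eq_mul, smul_eq_mul] at s1
      simpa [hμ0, hr] using s1
    have q2 : b ⬝ᵥ Hs F i u *ᵥ w = 0 := by
      rw [u1, u2, mulVec_smul, mulVec_sub, mulVec_smul, smul_dotProduct, dotProduct_smul,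
        dotProduct_sub, dotProduct_smul, q1] at s2
      simpa [hμ0, hr] using s2
    have q3 : w ⬝ᵥ Hs F i u *ᵥ b = 0 := by
      rw [dotProduct_mulVec, ← mulVec_transpose, (T.pi.hs_mul hF i u).1, dotProduct_comm, q2]
    have hZ : ({r, q} : Finset (Fin (D.m + 1))).card = 2 :=
      Finset.card_pair (by rintro rfl; exact hq r0)
    have f1 := T.rk.fr_add b Finset.univ {r, q} (Finset.subset_univ _) (by simp [c4, c5])
    have f2 := T.rk.fr_add (0 : Fin (D.m + 1) → κ) Finset.univ Finset.univ Finset.Subset.rfl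
      (by simp)
    rw [hZ, Finset.card_univ, Fintype.card_fin] at f1
    have key := hb κ u b 0 hu.1 ?_ ?_ ?_ ?_
    · simp only [Fintype.card_fin] at key
      omega
    · intro j hj k
      fin_cases k
      · exact (congrArg _ (vec1 _ _ _)).trans (hL j)
      · exact (congrArg _ (vec2 _ _ _)).trans (k3 j hj)
    · intro k
      fin_cases k
      · simpa [vec1] using hH
      · simpa [vec2] using q1
      · simp only [Fin.reduceFinMk, cons_val, vec4, ← hw, mulVec_add, add_dotProduct,
          dotProduct_add, hH, q1, q2, q3, add_zero]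
    · intro l hl
      have g1 := hl r
      have g2 := hl q
      simp only [Fin.sum_univ_two, cons_val_zero, cons_val_one, cons_val, vec1, vec2,
        ← hw, c4, c5, mul_zero, add_zero, mul_one] at g1 g2
      have l0 : l 0 = 0 := (mul_eq_zero.1 g1).resolve_right hr
      rw [l0, zero_mul, zero_add] at g2
      funext k
      fin_cases k
      exacts [l0, g2]
    · intro l hl
      have g1 := hl r r
      have g2 := hl r q
      have g3 := hl q q
      simp only [Fin.sum_univ_three, cons_val_zero, cons_val_one, cons_val, vec1, vec2, vec4,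
        ← hw, Pi.add_apply, c4, c5, mul_zero, zero_mul, add_zero, mul_one] at g1 g2 g3
      have l1 : l 0 + l 2 = 0 := by
        refine (mul_eq_zero.1 ?_).resolve_right (mul_ne_zero hr hr)
        linear_combination g1
      have l2 : l 2 = 0 := by
        refine (mul_eq_zero.1 ?_).resolve_right hr
        linear_combination g2 - w r * w q * l1
      rw [l2, add_zero] at l1
      rw [l1, l2, zero_mul, zero_mul, zero_add, add_zero] at g3
      funext k
      fin_cases k
      exacts [l1, g3, l2]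

end Pool.Agent.Lib.CI
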