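import Pool.Agent.Lib.CI.BlueA

open MvPolynomial Set Matrix WithZero Pool.Agent.Lib.MP_e39d36_ag Pool.Agent.Lib.MP_e39d36_ag.Var
  Pool.Agent.Lib.MP_cc3443_ag Pool.Agent.Lib.MV Pool.Agent.Lib.MV.End Pool.Agent.Lib.MV.Fb
  Pool.Agent.Lib.DU

set_option linter.unusedSectionVars false
set_option linter.unusedVariables false

noncomputable section

namespace Pool.Agent.Lib.CI

open Pool.Agent.Lib.CI.Dat
open Pool.Agent.Lib.MV.G3 (acl Ov)

namespace GTL

variable {D : Dat}

lemma i_ne (l : D.I0) (i : D.I1) : i.1 ≠ l.1 := fun e => by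
  have h1 := l.2
  have h2 := i.2
  rw [e] at h2
  omega

/-- Replacement of the coordinates in the slot `i`. -/
def rep {A : Type} (i : D.I1) (y : D.Hx → A) (w : Fin (D.m + 1) → A) (a : D.Hx) : A :=
  if h : a.1 = i.1 then w (a.2.cast (by rw [h, i.2])) else y a

lemma rep_ne {A : Type} (i : D.I1) (y : D.Hx → A) (w : Fin (D.m + 1) → A) {a : D.Hx}
    (h : a.1 ≠ i.1) : rep i y w a = y a := dif_neg h

lemma rep_cw {A : Type} (i : D.I1) (y : D.Hx → A) (w : Fin (D.m + 1) → A) (q : Fin (D.m + 1)) :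
    rep i y w ⟨i.1, q.cast (congrArg (· + 1) i.2.symm)⟩ = w q := by
  unfold rep
  rw [dif_pos rfl]
  rfl

lemma rep_map {A B : Type} (f : A → B) (i : D.I1) (y : D.Hx → A) (w : Fin (D.m + 1) → A)
    (a : D.Hx) : f (rep i y w a) = rep i (f ∘ y) (f ∘ w) a := by
  unfold rep
  split_ifs <;> rfl

lemma test {κ : Type} [Field κ] (l : D.I0) (i : D.I1) {j : Fin D.m} (hj : j ≠ jj i) (π : D.Ch)
    (y : D.Hx → κ) (hy : ∀ p, y ⟨l.1, p⟩ = 0) (p : Fin (D.n l.1 + 1)) :
    eval y (pderiv ⟨l.1, p⟩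
      (∏ s, rename (Sigma.mk s) ((X (π s) : MvPolynomial (Fin (D.n s + 1)) κ) ^ D.d j s))) =
      (if π l.1 = p then 1 else 0) * (y ⟨i.1, π i.1⟩ *
        ∏ s ∈ (Finset.univ.erase l.1).erase i.1, y ⟨s, π s⟩ ^ D.d j s) := by
  simp only [map_pow, rename_X]
  rw [← Finset.mul_prod_erase _ _ (Finset.mem_univ l.1), d_I0, pow_one, Derivation.leibniz,
    smul_eq_mul, smul_eq_mul, map_add, map_mul, map_mul, eval_X, hy, zero_mul, zero_add, map_prod,
    ← Finset.mul_prod_erase _ _ (Finset.mem_erase.2 ⟨i_ne l i, Finset.mem_univ i.1⟩),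
    d_ne_jj i hj, pow_one, mul_comm]
  simp only [map_pow, eval_X, pderiv_X]
  congr 1
  by_cases h : π l.1 = p
  · rw [if_pos h, h, Pi.single_eq_same, map_one]
  · rw [if_neg h, Pi.single_eq_of_ne, map_zero]
    intro e
    exact h (eq_of_heq (Sigma.mk.inj e).2)

theorem one (T : Tools) (h : St_GEV) (l : D.I0) (i : D.I1) : D.Gn fun F =>
    ∀ (κ : Type) [Field κ] [Algebra ℂ κ] (u : D.Vr → κ), Cfg F (some l) u →
      u (.inl (jj i)) = 0 → xp (Nx F l i u) = 0 →
        rk (u '' off (some l)) + D.m + 1 ≤ fr u (off (some l)) := by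
  classical
  refine T.sl.gn_mono (h D (D.Vr ⊕ Fin (D.m + 1)) (Fin D.m ⊕ Fin D.m)
    (fun _ j => X (.inl (.inl j)))
    (Sum.elim (fun _ a => X (.inl (.inr a)))
      fun _ => rep i (fun a => X (.inl (.inr a))) fun q => X (.inr q))
    fun c => [⟨l.1, (c.elim id id).cast l.2.symm⟩]) fun F hF H κ _ _ u hc hz hx => ?_
  obtain ⟨a0, ha0, ha0'⟩ := hc.1 (some i.1)
  obtain ⟨p0, rfl⟩ := T.sl.cw_surj i a0 ha0
  obtain ⟨w', hw1, hw2, hw3⟩ := T.la.xp_ker _ p0 hx
  obtain ⟨q0, hq0⟩ := Function.ne_iff.1 hw1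
  have hq0' : w' q0 ≠ 0 := hq0
  obtain ⟨w, wp, wq, wk⟩ : ∃ w : Fin (D.m + 1) → κ, w p0 = 0 ∧ w q0 = 1 ∧ Nx F l i u *ᵥ w = 0 :=
    ⟨(w' q0)⁻¹ • w', by simp [hw2], by simp [hq0'], by rw [mulVec_smul, hw3, smul_zero]⟩
  have hpq : p0 ≠ q0 := fun e => by
    rw [e, wq] at wp
    exact one_ne_zero wp
  obtain ⟨u0, hu0⟩ : ∃ u0 : D.Vr → κ, u0 = fun a => if a ∈ off (some l) then u a else 0 :=
    ⟨_, rfl⟩
  have hin : ∀ a, sl a ≠ some l.1 → u0 a = u a := fun a ha => by
    rw [hu0]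
    have h1 : a ∈ off (some l) := Finset.mem_filter.2 ⟨Finset.mem_univ a, ha⟩
    exact if_pos h1
  have hout : ∀ p, u0 (.inr ⟨l.1, p⟩) = 0 := fun p => by
    rw [hu0]
    have h1 : (.inr ⟨l.1, p⟩ : D.Vr) ∉ off (some l) := fun e => (Finset.mem_filter.1 e).2 rfl
    exact if_neg h1
  have hz0 : ∀ j, u0 (.inl j) = u (.inl j) := fun j => hin _ (by simp [sl])
  obtain ⟨u1, hu1⟩ : ∃ u1 : D.Vr → κ, u1 = Sum.elim (u0 ∘ .inl) (rep i (u0 ∘ .inr) w) := ⟨_, rfl⟩
  have e0 : ∀ p, aeval u0 (pderiv (co (some l) p) (FF F)) = 0 := fun p => by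
    rw [T.pi.eqs_agr hF (some l) u u0 hin p]
    exact hc.2 p
  have e1 : ∀ p, aeval u1 (pderiv (co (some l) p) (FF F)) = 0 := fun p => by
    have h1 := congrFun (T.pi.nx_mul hF l i u1) p
    have h2 : u1 ∘ cw i = w := funext fun q => by
      rw [hu1]
      exact rep_cw i _ w q
    have h3 : Nx F l i u1 = Nx F l i u := by
      refine T.pi.nx_agr2 hF l i u u1 (fun a ha _ => ?_) (Or.inl hz)
        (Or.inl (by rw [hu1]; exact (hz0 _).trans hz))
      obtain ⟨h4, h5⟩ := (Finset.mem_filter.1 ha).2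
      rw [← hin a h4, hu1]
      rcases a with j | a
      · rfl
      · exact rep_ne i _ w fun e => h5 (congrArg some e)
    rw [h2, h3, wk] at h1
    exact h1.symm
  have y1 : (fun a => aeval (Sum.elim u0 w) (rep i (fun a => (X (.inl (.inr a)) :
      MvPolynomial (D.Vr ⊕ Fin (D.m + 1)) ℂ)) (fun q => X (.inr q)) a)) = rep i (u0 ∘ .inr) w := by
    funext a
    rw [rep_map (aeval (Sum.elim u0 w))]
    congr 1 <;> funext b <;> simp
  have key := H κ (Sum.elim u0 w) (fun c => ?_) fun lam hl => ?_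
  · have h1 : rk (u '' off (some l)) ≤ rk (range (Sum.elim u0 w)) := by
      refine T.rk.mono (finite_range _) ?_
      rintro _ ⟨a, ha, rfl⟩
      exact ⟨.inl a, hin a (Finset.mem_filter.1 ha).2⟩
    have h2 : fr u0 Finset.univ ≤ fr u (off (some l)) := by
      refine T.rk.fr_le _ _ _ _ fun a _ h0 h1 => ?_
      by_cases ha : a ∈ off (some l)
      · rw [hin a (Finset.mem_filter.1 ha).2] at h0 h1
        exact ⟨ha, h0, h1⟩
      · exact absurd (by rw [hu0]; exact if_neg ha) h0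
    have h3 := T.rk.fr_add w Finset.univ {p0, q0} (Finset.subset_univ _) (by simp [wp, wq])
    rw [Finset.card_pair hpq, Finset.card_univ, Fintype.card_fin] at h3
    rw [T.rk.fr_sum, Fintype.card_sum, Fintype.card_fin] at key
    omega
  · rcases c with p | p
    · have := e0 p
      rw [co, T.pi.d_inr] at this
      simpa [dl, Function.comp_def] using this
    · have := e1 p
      rw [co, T.pi.d_inr, hu1] at this
      simp only [Sum.elim_inr, y1]
      simpa [dl, Function.comp_def] using this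
  · obtain ⟨b0, hb0, hb0'⟩ := hc.1 none
    obtain ⟨j0, rfl⟩ : ∃ j, b0 = .inl j := by
      rcases b0 with j | a
      · exact ⟨j, rfl⟩
      · simp [sl] at hb0
    have hj0 : j0 ≠ jj i := fun e => hb0' (by rw [e, hz])
    have hπ : ∀ s, ∃ p, u (.inr ⟨s, p⟩) ≠ 0 := fun s => by
      obtain ⟨a, ha, ha'⟩ := hc.1 (some s)
      rcases a with j | ⟨t, p⟩
      · simp [sl] at ha
      · obtain rfl : t = s := by simpa [sl] using ha
        exact ⟨p, ha'⟩
    choose π0 hπ0 using hπ
    have main : ∀ (p : Fin D.m) (q : Fin (D.m + 1)),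
        lam (.inl p) * u (cw i q) + lam (.inr p) * w q = 0 := fun p q => by
      obtain ⟨π, πl, πi, πs⟩ : ∃ π : D.Ch, π l.1 = p.cast l.2.symm ∧
          π i.1 = q.cast (congrArg (· + 1) i.2.symm) ∧ ∀ s, s ≠ l.1 → s ≠ i.1 → π s = π0 s :=
        ⟨Function.update (Function.update π0 l.1 (p.cast l.2.symm)) i.1
          (q.cast (congrArg (· + 1) i.2.symm)),
          by rw [Function.update_of_ne (i_ne l i).symm, Function.update_self],
          Function.update_self .., fun s h1 h2 => by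
            rw [Function.update_of_ne h2, Function.update_of_ne h1]⟩
      have h1 := hl _ (T.sl.homK j0 (fun s => X (π s) ^ D.d j0 s) fun s => by
        simpa using (isHomogeneous_X κ (π s)).pow (D.d j0 s))
      have h2 : ∀ (y : D.Hx → κ) (b : D.Hx) (P : MvPolynomial D.Hx κ),
          ∑ j, u0 (.inl j) * eval y (dl [b] ((Pi.single j0 P : Fin D.m → _) j)) =
            u (.inl j0) * eval y (pderiv b P) := fun y b P => by
        rw [Finset.sum_eq_single j0 (fun j _ hj => by simp [dl, hj]) (by simp), hz0]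
        simp [dl]
      have K0 : ∏ s ∈ (Finset.univ.erase l.1).erase i.1, u0 (.inr ⟨s, π s⟩) ^ D.d j0 s ≠ 0 := by
        refine Finset.prod_ne_zero_iff.2 fun s hs' => pow_ne_zero _ ?_
        have h3 := Finset.ne_of_mem_erase hs'
        have h4 := Finset.ne_of_mem_erase (Finset.mem_of_mem_erase hs')
        rw [πs s h4 h3, hin _ (by simpa [sl] using h4)]
        exact hπ0 s
      have K1 : ∏ s ∈ (Finset.univ.erase l.1).erase i.1,
          rep i (u0 ∘ .inr) w ⟨s, π s⟩ ^ D.d j0 s =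
            ∏ s ∈ (Finset.univ.erase l.1).erase i.1, u0 (.inr ⟨s, π s⟩) ^ D.d j0 s :=
        Finset.prod_congr rfl fun s hs' => by
          rw [rep_ne i _ w (Finset.ne_of_mem_erase hs')]
          rfl
      have hc1 : ∀ p' : Fin D.m, (π l.1 = p'.cast l.2.symm) = (p = p') := fun p' => by
        rw [πl]
        exact propext ⟨fun e => Fin.ext (by simpa using congrArg Fin.val e), fun e => by rw [e]⟩
      rw [Fintype.sum_sum_type] at h1
      simp only [Sum.elim_inl, Sum.elim_inr, y1, aeval_X, h2, id] at h1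
      simp only [test l i hj0 π (fun a => u0 (.inr a)) hout, test l i hj0 π (rep i (u0 ∘ .inr) w)
        (fun p' => (rep_ne i _ w (i_ne l i).symm).trans (hout p')), K1, hc1, mul_ite, ite_mul,
        mul_zero, zero_mul, one_mul, Finset.sum_ite_eq, Finset.mem_univ, if_true] at h1
      rw [πi, rep_cw, hin _ (by simpa [sl] using i_ne l i)] at h1
      refine mul_left_cancel₀ (mul_ne_zero hb0' K0) ?_
      rw [mul_zero, ← h1]
      simp only [cw]
      ring
    funext c
    have h1 : ∀ p, lam (.inl p) = 0 := fun p => by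
      have := main p p0
      rw [wp, mul_zero, add_zero] at this
      exact (mul_eq_zero.1 this).resolve_right ha0'
    rcases c with p | p
    · exact h1 p
    · have := main p q0
      rw [h1, wq, zero_mul, zero_add, mul_one] at this
      exact this

end GTL

theorem st_GTL (T : Tools) (h : St_GEV) : St_GTL := fun D =>
  T.sl.gn_mono (T.sl.gn_all fun c : D.I0 × D.I1 => GTL.one T h c.1 c.2)
    fun F _ H l i => H (l, i)

end Pool.Agent.Lib.CI
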