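import Pool.Agent.Lib.CI.BlueB

open MvPolynomial Set Matrix WithZero Pool.Agent.Lib.MP_e39d36_ag Pool.Agent.Lib.MP_e39d36_ag.Var
  Pool.Agent.Lib.MP_cc3443_ag Pool.Agent.Lib.MV Pool.Agent.Lib.MV.End Pool.Agent.Lib.MV.Fb
  Pool.Agent.Lib.DU

set_option linter.unusedSectionVars false
set_option linter.unusedVariables false

noncomputable section

namespace Pool.Agent.Lib.CI

open Pool.Agent.Lib.CI.Dat
open Pool.Agent.Lib.MV.G3 (acl Ov)

theorem H63.st_CURV (T : Tools) (hCO : St_CONE) (hLI : St_LIM) (hPL : St_PLC) (hW : St_WGC)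
    (hC : St_CRV) : St_CURV := by
  classical
  intro D F hG l o f hf f0 κ _ _ u lam t P
  obtain ⟨Ω, _, _, ι, ρ, g, hρ, hg, hacl, hrk⟩ := hCO D F hG.hom l κ u lam P.dbl P.n1 P.gen
  obtain ⟨-, -, -, -, m5, m6, -⟩ := T.mp.map F ι u
  set û := sc ρ (ι ∘ u) with hû
  set th : D.I1 → Ω := fun i => chi ρ (wT l i) * ι (t i) with hth
  have hD : Dbl F none (some l) û (chi ρ (gam none (some l)) * ι lam) :=
    T.sc.dbl hG.hom _ _ ρ _ _ (by simp) hρ (m5 _ _ _ P.dbl)
  have hT : ∀ i, IsT F l i û (th i) := fun i => T.sc.isT hG.hom l i ρ _ _ hρ (m6 l i _ (P.isT i))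
  have hz : ∀ j, û (.inl j) = 0 ↔ o = some j := fun j => by
    rw [hû, T.sc.sc_zero ρ _ _ hρ, ← P.z j]
    exact map_eq_zero ι
  have ht : ∀ i, o = some (jj i) → th i ≠ 0 := fun i h =>
    mul_ne_zero (T.sc.chi_add ρ _ 0 hρ).2 ((map_ne_zero ι).2 (P.t0 i h))
  obtain ⟨⟨a₀, w0, u0⟩, hL⟩ := hLI D F hG l o f hf f0 Ω û th hD.nz hT hz ht
  have hsub : û '' off (some l) ⊆ range (gU l û th) := by
    rintro _ ⟨a, ha, rfl⟩
    exact ⟨.inl a, if_neg (Finset.mem_filter.1 ha).2⟩
  have h1 := T.rk.mono (finite_range _) hsub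
  have h2 := P.rk
  have h3 := (T.sl.dm_add D).2.2
  have h4 : rk (insert (gU l û th a₀) (gU l û th '' {a | gW l f a = 0})) ≤
      rk (gU l û th '' {a | gW l f a = 0}) + 1 := by
    have h5 := T.rk.union (S := {gU l û th a₀}) (T := gU l û th '' {a | gW l f a = 0})
      (finite_singleton _) (toFinite _)
    have h6 := T.rk.card (gU l û th) {a₀}
    rw [Finset.coe_singleton, image_singleton, Finset.card_singleton] at h6
    rw [singleton_union] at h5
    omega
  obtain ⟨L, _, _, j, C, π, hc, hP⟩ := hW Ω _ (gU l û th) (gW l f) a₀ g w0 u0 (by omega) hg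
    fun z => by
      have := hacl z
      exact G3.acl_mono hsub this
  obtain ⟨-, -, -, -, n5, n6, -⟩ := T.mp.map F j û
  have hgU : ∀ a, gU l (j ∘ û) (j ∘ th) a = j (gU l û th a) := by
    rintro (a | i)
    · simp only [gU, Sum.elim_inl, Function.comp_apply]
      split_ifs
      · exact (map_zero j).symm
      · rfl
    · rfl
  have key : ∀ Q s, nu (C.v Q) (j ∘ û) (some s) = f s * log (C.v Q (π Q)) -
      if s = l.1 then log (C.v Q (j (chi ρ (gam none (some l)) * ι lam))) else 0 := fun Q => by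
    obtain ⟨p0, p1, p2, -, p4⟩ := hP Q
    refine hPL D F hG l o f hf L (C.v Q) (C.cst Q) (j ∘ û) _ (π Q) (j ∘ th) p0 (n5 _ _ _ hD)
      (fun i => n6 l i _ (hT i)) (fun i => (map_eq_zero j).trans (hz i))
      (fun i h => (map_ne_zero j).2 (ht i h)) (fun a => by rw [hgU]; exact p1 a)
      (fun a ha h => ?_) ?_
    · rw [hgU] at h ⊢
      exact p2 _ (T.rk.adj _ (IntermediateField.subset_adjoin _ _ (mem_insert_of_mem _ ⟨a, ha, rfl⟩)))
        fun e => h (by rw [e, map_zero])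
    · simp only [hgU]
      obtain ⟨b, hb, hb'⟩ := p4
      have hle : D.dm + D.k - oc o - 1 ≤ rk (range (gU l û th)) - 1 := by omega
      refine ⟨b ∘ Fin.castLE hle, fun i => hb _, fun Q hQ => ?_⟩
      rw [← aeval_rename]
      exact hb' _ fun e => hQ (rename_injective _ (Fin.castLE_injective hle) (by rw [e, map_zero]))
  have hfin : (Function.support fun Q => log (C.v Q (π Q))).Finite := by
    by_contra h
    rw [finsum_of_infinite_support h] at hc
    exact lt_irrefl _ hc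
  refine ⟨L, inferInstance, inferInstance, j.comp ι, C, _, hc, fun s => ?_⟩
  have e1 : (fun p => (j ∘ û) (.inr ⟨s, p⟩)) = j (ρ (some s)) • fun p => (j.comp ι) (u (.inr ⟨s, p⟩)) :=
    funext fun p => by simp [hû, T.sc.sc_inr]
  rw [← ((hC L C).1 _ _).2 _ ((map_ne_zero j).2 (hρ (some s))), ← e1]
  have e2 := (hC L C).2 Unit (fun _ => Fin (D.n s + 1)) (fun _ => 1)
    (fun _ p => (j ∘ û) (.inr ⟨s, p⟩))
    (if s = l.1 then (j (chi ρ (gam none (some l)) * ι lam))⁻¹ else 1)
    (fun Q => f s * log (C.v Q (π Q))) fun Q => by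
      have := key Q s
      rw [Dat.nu, T.nrm.nu_some] at this
      rw [Fintype.sum_unique, one_mul, this]
      split_ifs
      · rw [map_inv₀, log_inv]; ring
      · simp
  rw [Fintype.sum_unique, one_mul] at e2
  rw [e2, mul_finsum' _ _ hfin]

end Pool.Agent.Lib.CI
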