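import Pool.Agent.Lib.CI.H86W

open Set Pool.Agent.Lib.MP_cc3443_ag Pool.Agent.Lib.MP_e39d36_ag

set_option linter.unusedSectionVars false
set_option linter.unusedVariables false

noncomputable section

namespace Pool.Agent.Lib.CI.H86

variable {k : Type} [Field k]

/-- A field over `k`, seen over the complex numbers through an isomorphism. -/
def Tz (θ : ℂ ≃+* k) (L : Type) : Type := L

variable (θ θ' : ℂ ≃+* k) {L : Type} [Field L] [Algebra k L]

/-- The field structure. -/
abbrev Tz.fld : Field (Tz θ L) := inferInstanceAs (Field L)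

attribute [local instance] Tz.fld

/-- The algebra structure over `k`. -/
abbrev Tz.alk : Algebra k (Tz θ L) := inferInstanceAs (Algebra k L)

attribute [local instance] Tz.alk

/-- The algebra structure over the complex numbers. -/
abbrev Tz.alc : Algebra ℂ (Tz θ L) := ((algebraMap k (Tz θ L)).comp θ.toRingHom).toAlgebra

attribute [local instance] Tz.alc

lemma Tz.alg (a : ℂ) : algebraMap ℂ (Tz θ L) a = algebraMap k (Tz θ L) (θ a) := rfl

lemma FF.isFz (h : FF k L) : IsFF (Tz θ L) := by
  let _ : Algebra ℂ k := θ.toRingHom.toAlgebra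
  have : IsScalarTower ℂ k (Tz θ L) := IsScalarTower.of_algebraMap_eq' rfl
  have : Algebra.IsIntegral ℂ k := Algebra.isIntegral_of_surjective θ.surjective
  have h' : FF k (Tz θ L) := h
  refine ⟨h'.ex.imp fun u hu => hu.restrictScalars θ.injective, fun v hv => ?_⟩
  have := h'.fin v (hv.extendScalars k)
  have h1 : (IntermediateField.adjoin k {v}).restrictScalars ℂ ≤ IntermediateField.adjoin ℂ {v} := by
    refine (Subfield.closure_le (t := (IntermediateField.adjoin ℂ {v}).toSubfield)).2
      (union_subset ?_ (IntermediateField.subset_adjoin _ _))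
    rintro _ ⟨a, rfl⟩
    obtain ⟨a, rfl⟩ := θ.surjective a
    exact (IntermediateField.adjoin ℂ {v}).algebraMap_mem a
  let _ : Algebra (IntermediateField.adjoin k {v}) (IntermediateField.adjoin ℂ {v}) :=
    (IntermediateField.inclusion h1).toRingHom.toAlgebra
  have : IsScalarTower (IntermediateField.adjoin k {v}) (IntermediateField.adjoin ℂ {v}) (Tz θ L) :=
    IsScalarTower.of_algebraMap_eq' rfl
  exact Module.Finite.of_restrictScalars_finite (IntermediateField.adjoin k {v}) _ _

variable {θ} in
lemma Tz.const (P : Place (Tz θ L)) (a : k) : algebraMap k (Tz θ L) a ∈ P.O := by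
  obtain ⟨a, rfl⟩ := θ.surjective a
  exact P.const a

/-- The places do not depend on the isomorphism. -/
def Tz.pl : Place (Tz θ L) ≃ Place (Tz θ' L) where
  toFun P := ⟨P.O, P.ne_top, fun a => Tz.const P (θ' a)⟩
  invFun P := ⟨P.O, P.ne_top, fun a => Tz.const P (θ a)⟩
  left_inv _ := rfl
  right_inv _ := rfl

lemma Tz.pl_val [IsFF (Tz θ L)] [IsFF (Tz θ' L)] (P : Place (Tz θ L)) :
    (Tz.pl θ θ' P).val = P.val := (place_isV (Tz.pl θ θ' P)).unique (place_isV P)

end Pool.Agent.Lib.CI.H86
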