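import Pool.Agent.Lib.CI.BlueB

open MvPolynomial Set Matrix WithZero Pool.Agent.Lib.MP_e39d36_ag Pool.Agent.Lib.MP_e39d36_ag.Var
  Pool.Agent.Lib.MP_cc3443_ag Pool.Agent.Lib.MV Pool.Agent.Lib.MV.End Pool.Agent.Lib.MV.Fb
  Pool.Agent.Lib.DU

set_option linter.unusedSectionVars false
set_option linter.unusedVariables false

noncomputable section

namespace Pool.Agent.Lib.CI

open Pool.Agent.Lib.CI.Dat
open Pool.Agent.Lib.MV.G3 (acl Ov)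

theorem H63.st_TSEC (T : Tools) (hLEV : St_LEV) (hSEC : St_SEC) (hPD : St_PD) (hC : St_GCL) :
    St_TSEC := by
  intro D F hG K _ _ M l u lam hL i E hE
  obtain ⟨-, -, b2, b3, b4⟩ := (hLEV D F hG K M l).2 u lam hL
  obtain ⟨s1, -, -, -, s5⟩ := hSEC D F hG K M l u lam hL
  have hu : Cfg F (some l) u := ⟨hL.2.nz, hL.2.e2⟩
  have hw : u ∘ cw i ≠ 0 := by
    obtain ⟨a, h1, h2⟩ := hu.1 (some i.1)
    obtain ⟨p, rfl⟩ := T.sl.cw_surj i a h1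
    exact fun h => h2 (congrFun h p)
  obtain ⟨t, ht⟩ := T.la.xp_eq (Nx F l i u) (u ∘ cw i) hw (by
    rw [T.pi.nx_mul hG.hom]; exact funext hu.2)
  have hT : IsT F l i u t := ht
  have k1 : ∀ (E' : M.X.PD) (ρ : D.Sl → K), (∀ σ, ρ σ ≠ 0) → Nm (val E') (sc ρ u) →
      val E' (chi ρ (wT l i) * t) ≤ 1 := fun E' ρ hρ hN => by
    obtain ⟨κ, _, _, ⟨R⟩⟩ := T.red.ex ((hPD D F hG K M).1 E').1
    exact (T.mp.red F R _ hN.1).2.2.2.2.2.2.2.1 l i _ (T.nrm.nw hN) (T.sc.isT hG.hom l i ρ u t hρ hT)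
  have k2 : ∀ ρ : D.Sl → K, (∀ σ, ρ σ ≠ 0) → Nm (val E) (sc ρ u) →
      val E (chi ρ (wT l i) * t) = 1 := fun ρ hρ hN => by
    obtain ⟨c1, c2⟩ := (hPD D F hG K M).1 E
    obtain ⟨κ, _, _, ⟨R⟩⟩ := T.red.ex c1
    by_contra h
    have h0 := (R.zero _ (k1 E ρ hρ hN)).2 (lt_of_le_of_ne (k1 E ρ hρ hN) h)
    obtain ⟨r1, r2, r3, -, -, -, r7, -⟩ := T.mp.red F R (sc ρ u) hN.1
    have h1 := r7 l i _ (k1 E ρ hρ hN) (T.sc.isT hG.hom l i ρ u t hρ hT)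
    have hz : (R.r ∘ sc ρ u) (.inl (jj i)) = 0 := (R.zero _ (hN.1 _)).2
      (lt_of_le_of_ne (hN.1 _) fun e => by
        rw [s5 E _ ρ hρ hN, e, log_one, neg_zero] at hE; exact lt_irrefl _ hE)
    have h2 := hG.tl l i κ _ ⟨r1.mp (T.nrm.nw hN), r3 _ ((T.sc.eqs hG.hom _ ρ u hρ).mpr hu.2)⟩ hz
      (funext fun q => by rw [← h1 q, h0, zero_mul]; rfl)
    have hm : (.inl (jj i) : D.Vr) ∈ off (some l) :=
      Finset.mem_filter.mpr ⟨Finset.mem_univ _, fun h => Option.some_ne_none _ h.symm⟩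
    have h3 := T.sl.fr_off (some l) _ {.inl (jj i)} (r2 hN.2) (Finset.singleton_subset_iff.mpr hm)
      fun a ha => by rw [Finset.mem_singleton.mp ha]; exact hz
    have h4 := (T.red.ind R ((off (some l)).finite_toSet.image _) (by
      rintro _ ⟨a, -, rfl⟩; exact hN.1 a)).mp
        ((T.nrm.big_iff c1 (some l) u ρ _ hρ hN).mp ((b2 _ c1).mp c2))
    rw [← image_comp] at h4
    rw [Finset.card_singleton] at h3
    have := (T.sl.dm_add D).2.1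
    omega
  have t0 : t ≠ 0 := by
    obtain ⟨ρ, hρ, hN⟩ := T.nrm.ex (val E) u hu.1
    rintro rfl
    simpa using k2 ρ hρ hN
  have k3 : ∀ (E' : M.X.PD) (ρ : D.Sl → K), (∀ σ, ρ σ ≠ 0) → Nm (val E') (sc ρ u) →
      (∑ σ, wT l i σ • M.SD u σ + M.X.div t) E' = -log (val E' (chi ρ (wT l i) * t)) :=
    fun E' ρ hρ hN => by
    have h1 : ∀ σ, M.SD u σ E' = -log (val E' (ρ σ)) := fun σ => by
      have h2 := T.nrm.nu_sc (val E') ρ u hu.1 hρ σ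
      rw [T.nrm.nu_nw _ _ (T.nrm.nw hN)] at h2
      have h3 : M.SD u σ E' = nu (val E') u σ := rfl
      omega
    rw [map_mul, log_mul ((map_ne_zero _).mpr (T.sc.chi_add ρ _ 0 hρ).2) ((map_ne_zero _).mpr t0),
      T.sc.log_chi _ _ _ hρ]
    simp only [Finsupp.add_apply, Finsupp.finsetSum_apply, Finsupp.smul_apply, h1, div_apply,
      ord_log, smul_eq_mul, mul_neg, Finset.sum_neg_distrib]
    ring
  refine ⟨∑ σ, wT l i σ • M.SD u σ + M.X.div t, ?_, fun E' => ?_, ?_⟩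
  · refine LE.trans ⟨t, t0, rfl⟩ ?_
    rw [← (hC D l).2.2.2 i]
    have h1 : ∀ (s : Finset D.Sl) (γ : D.Sl → D.Λ), M.std (∑ σ ∈ s, γ σ) = ∑ σ ∈ s, M.std (γ σ) :=
      fun s γ => map_sum (AddMonoidHom.mk' M.std (T.ch.std M).1) γ s
    rw [h1]
    refine LE.sum fun σ _ => ?_
    rw [(T.ch.std M).2.2.1]
    refine LE.zsmul ?_ _
    cases σ with
    | none => exact b4
    | some s => exact LE.of_eq ((b3 s).trans ((T.ch.std M).2.2.2.1 s).symm)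
  · obtain ⟨ρ, hρ, hN⟩ := T.nrm.ex (val E') u hu.1
    have h5 := (log_le_log ((map_ne_zero _).mpr (mul_ne_zero (T.sc.chi_add ρ _ 0 hρ).2 t0))
      one_ne_zero).mpr (k1 E' ρ hρ hN)
    rw [log_one] at h5
    rw [k3 E' ρ hρ hN]
    exact neg_nonneg.mpr h5
  · obtain ⟨ρ, hρ, hN⟩ := T.nrm.ex (val E) u hu.1
    rw [k3 E ρ hρ hN, k2 ρ hρ hN, log_one, neg_zero]

end Pool.Agent.Lib.CI
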