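import Pool.Agent.Lib.MV.G3A

open Set Cardinal Pool.Agent.Lib.MP_cc3443_ag IntermediateField

set_option linter.unusedSectionVars false
set_option linter.unusedVariables false

noncomputable section

namespace Pool.Agent.Lib.CI.H86

/-- An algebraically closed extension of size continuum is isomorphic to the complex numbers by a
map that agrees with the inclusion on a given finite set. -/
theorem aut (k : Type) [Field k] [Algebra ℂ k] [IsAlgClosed k] (hk : #k ≤ 𝔠) (S : Set ℂ)
    (hS : S.Finite) : ∃ θ : ℂ ≃+* k, ∀ a ∈ S, θ a = algebraMap ℂ k a := by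
  let R := Subfield.closure S
  have hR : #R ≤ ℵ₀ := (Subfield.cardinalMk_closure_le_max S).trans
    (max_le hS.lt_aleph0.le le_rfl)
  have h1 : ℵ₀ < #ℂ := by rw [mk_complex]; exact aleph0_lt_continuum
  have h2 : #ℂ = #k := le_antisymm (mk_le_of_injective (algebraMap ℂ k).injective)
    (by rwa [mk_complex])
  have : FaithfulSMul R k := (faithfulSMul_iff_algebraMap_injective R k).2
    ((algebraMap ℂ k).injective.comp Subtype.val_injective)
  obtain ⟨s, hs⟩ := exists_isTranscendenceBasis R ℂ
  obtain ⟨t, ht⟩ := exists_isTranscendenceBasis R k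
  have h3 : #s = #t := by
    rw [← IsAlgClosed.cardinal_eq_cardinal_transcendence_basis_of_aleph0_lt' _ hs hR h1,
      ← IsAlgClosed.cardinal_eq_cardinal_transcendence_basis_of_aleph0_lt' _ ht hR (h2 ▸ h1), h2]
  obtain ⟨e⟩ := Cardinal.eq.1 h3
  let _ := IsAlgClosed.isAlgClosure_of_transcendence_basis _ hs
  let _ := IsAlgClosed.isAlgClosure_of_transcendence_basis _ ht
  let ε := hs.1.aevalEquiv.symm.trans ((MvPolynomial.renameEquiv R e).trans ht.1.aevalEquiv)
  refine ⟨IsAlgClosure.equivOfEquiv ℂ k ε.toRingEquiv, fun a ha => ?_⟩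
  have := IsAlgClosure.equivOfEquiv_algebraMap ℂ k ε.toRingEquiv
    (algebraMap R _ ⟨a, Subfield.subset_closure ha⟩)
  rw [AlgEquiv.coe_ringEquiv, ε.commutes] at this
  exact this

end Pool.Agent.Lib.CI.H86
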