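import Pool.Agent.Lib.CI.BlueB

open MvPolynomial Set Matrix WithZero Pool.Agent.Lib.MV

set_option linter.unusedSectionVars false
set_option linter.unusedVariables false

noncomputable section

namespace Pool.Agent.Lib.CI

open Pool.Agent.Lib.CI.Dat
open Pool.Agent.Lib.MV.G3 (acl Ov)

theorem H86.st_CURV (T : Tools) (hC : St_CONE) (hL : St_LIM) (hP : St_PLC) (hW : St_WGC)
    (hV : St_CRV) : St_CURV := by
  intro D F hG l o f hv hf κ _ _ u lam t P0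
  classical
  obtain ⟨Ω, _, _, ι, ρ, g, hρ, hg, ha, hr⟩ := hC D F hG.hom l κ u lam P0.dbl P0.n1 P0.gen
  have m1 := T.mp.map F ι u
  have h1 := T.sc.dbl hG.hom none (some l) ρ _ _ (by simp) hρ (m1.2.2.2.2.1 _ _ _ P0.dbl)
  have h2 := fun i => T.sc.isT hG.hom l i ρ _ _ hρ (m1.2.2.2.2.2.1 l i _ (P0.isT i))
  have h3 : ∀ j, sc ρ (ι ∘ u) (.inl j) = 0 ↔ o = some j := fun j => by
    rw [T.sc.sc_zero ρ _ _ hρ, Function.comp_apply, map_eq_zero, P0.z]
  have h4 : ∀ i, o = some (jj i) → chi ρ (wT l i) * ι (t i) ≠ 0 := fun i hi =>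
    mul_ne_zero (T.sc.chi_add ρ _ 0 hρ).2 ((map_ne_zero ι).2 (P0.t0 i hi))
  have h5 : ∀ s p, sc ρ (ι ∘ u) (.inr ⟨s, p⟩) = ρ (some s) * ι (u (.inr ⟨s, p⟩)) := fun s p =>
    T.sc.sc_inr ρ _ _
  generalize sc ρ (ι ∘ u) = U at *
  generalize chi ρ (gam none (some l)) * ι lam = lm at h1
  obtain ⟨t', h2, h4⟩ : ∃ t' : D.I1 → Ω, (∀ i, IsT F l i U (t' i)) ∧
    ∀ i, o = some (jj i) → t' i ≠ 0 := ⟨_, h2, h4⟩
  obtain ⟨⟨a, a1, a2⟩, h6⟩ := hL D F hG l o f hv hf Ω U t' h1.nz h2 h3 h4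
  have h7 : U '' off (some l) ⊆ range (gU l U t') := by
    rintro _ ⟨b, hb, rfl⟩
    exact ⟨.inl b, if_neg (Finset.mem_filter.1 hb).2⟩
  have h8 := T.rk.mono (finite_range _) h7
  have h9 := T.rk.ov (S := gU l U t' '' {a | gW l f a = 0}) (T := {gU l U t' a}) (n := 1)
    (Set.toFinite _) ⟨{gU l U t' a}, by simp,
      fun z hz => G3.subset_acl _ (Or.inr (by simpa using hz))⟩
  have k1 := P0.rk
  obtain ⟨-, d1, d2⟩ := T.sl.dm_add D
  rw [union_singleton] at h9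
  obtain ⟨L, _, _, j, C, π, c0, hπ⟩ := hW Ω _ (gU l U t') (gW l f) a g a1 a2 (by omega) hg
    fun z => G3.acl_mono h7 (ha z)
  have m2 := T.mp.map F j U
  have e1 : ∀ b, gU l (j ∘ U) (j ∘ t') b = j (gU l U t' b) := by
    rintro (b | i)
    · simp only [gU, Sum.elim_inl, apply_ite j, map_zero, Function.comp_apply]
    · rfl
  have key : ∀ P s, nu (C.v P) (j ∘ U) (some s) =
      f s * log (C.v P (π P)) - if s = l.1 then log (C.v P (j lm)) else 0 := fun P => by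
    obtain ⟨b1, b2, b3, -, b4⟩ := hπ P
    obtain ⟨κ', _, _, ⟨R⟩⟩ := T.red.ex (v := C.v P) (C.cst P)
    refine hP D F hG l o f hv L (C.v P) (C.cst P) (j ∘ U) (j lm) (π P) (j ∘ t') b1
      (m2.2.2.2.2.1 _ _ _ h1) (fun i => m2.2.2.2.2.2.1 l i _ (h2 i))
      (fun i => by rw [Function.comp_apply, map_eq_zero, h3])
      (fun i hi => (map_ne_zero j).2 (h4 i hi)) (fun b => e1 b ▸ b2 b) (fun b hb h => ?_) ?_
    · rw [e1] at h ⊢
      exact b3 _ (G3.subset_acl _ (Or.inr ⟨b, hb, rfl⟩)) ((map_ne_zero j).1 h)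
    · simp only [e1]
      rw [T.red.ind R (finite_range _) (forall_mem_range.2 b2)] at b4 ⊢
      omega
  refine ⟨L, inferInstance, inferInstance, j.comp ι, C, _, c0, fun s => ?_⟩
  have k2 := (hV L C).2 Unit (fun _ => Fin (D.n s + 1)) (fun _ => 1)
    (fun _ p => (j ∘ U) (.inr ⟨s, p⟩)) (if s = l.1 then (j lm)⁻¹ else 1)
    (fun P => f s * log (C.v P (π P))) fun P => by
      rw [Fintype.sum_unique, one_mul, ← T.nrm.nu_some, ← nu, key]
      split_ifs <;> simp [sub_eq_add_neg]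
  rw [Fintype.sum_unique, one_mul, ← mul_finsum] at k2
  rw [← k2, ← ((hV L C).1 _ _).2 _ ((map_ne_zero j).2 (hρ (some s)))]
  exact congrArg _ (funext fun p => by simp [h5])

end Pool.Agent.Lib.CI
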