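import Pool.Agent.Lib.CI.BlueB

open MvPolynomial Set Matrix WithZero Pool.Agent.Lib.MP_e39d36_ag Pool.Agent.Lib.MP_e39d36_ag.Var
  Pool.Agent.Lib.MP_cc3443_ag Pool.Agent.Lib.MV Pool.Agent.Lib.MV.End Pool.Agent.Lib.MV.Fb
  Pool.Agent.Lib.DU

set_option linter.unusedSectionVars false
set_option linter.unusedVariables false

noncomputable section

namespace Pool.Agent.Lib.CI

open Pool.Agent.Lib.CI.Dat

theorem H86.st_ENDP (T : Tools) (hA : St_ENDA) : St_ENDP := by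
  rintro D F K _ _ M hL hP e c ⟨⟨φ, hp⟩, hc⟩
  obtain ⟨h1, h2, -⟩ := hA D F K M hL hP
  let Φ := LinearEquiv.ofBijective M.cl h1
  have hΦ : ∀ W, M.Cls W (Φ.symm (nc M.Γ M.sm.fac W)) := fun W => (Φ.apply_symm_apply _).symm
  let ε : M.X.CD ≃ M.X.CD :=
    (push e).toEquiv.subtypeEquiv fun W => iff_of_true (M.sm.fac _) (M.sm.fac _)
  have h3 : ∀ W, (M.cl ∘ₗ lin c ∘ₗ Φ.symm.toLinearMap) (M.Γ.cls W) = M.Γ.cls (ε W) := fun W => by
    refine Eq.trans ?_ (h2 φ e hp W.1 _ (hΦ _)).symm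
    simp only [LinearMap.comp_apply, lin, Fintype.linearCombination_apply, map_sum, map_smul]
    exact Finset.sum_congr rfl fun s _ => congrArg₂ _ rfl
      (((hc s).nc_eq _ _).trans ((T.ch.std M).2.2.2.2.1 (c s))).symm
  obtain ⟨L, h4⟩ := M.Γ.exists_equiv ε h3 (g := Fintype.linearCombination ℝ
    (fun s => nc M.Γ M.sm.fac (push e.symm (M.st s))) ∘ₗ Φ.symm.toLinearMap) fun W =>
      (h2 _ _ hp.inv W.1 _ (hΦ _)).symm
  refine ⟨φ, L, ⟨hp.1, e, ε, hp.2, fun W E => by simp [ε], h4⟩, fun x => ?_⟩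
  have h5 : L.toLinearMap = M.cl ∘ₗ lin c ∘ₗ Φ.symm.toLinearMap :=
    Curves.lin_ext fun W => (h4 W).trans (h3 W).symm
  exact (LinearMap.congr_fun h5 (Φ x)).trans (by simp)

end Pool.Agent.Lib.CI
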