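import Pool.Agent.Lib.CI.BlueB

open MvPolynomial Set Matrix WithZero Pool.Agent.Lib.MP_e39d36_ag Pool.Agent.Lib.MP_e39d36_ag.Var
  Pool.Agent.Lib.MP_cc3443_ag Pool.Agent.Lib.MV Pool.Agent.Lib.MV.End Pool.Agent.Lib.MV.Fb
  Pool.Agent.Lib.DU

set_option linter.unusedSectionVars false
set_option linter.unusedVariables false

noncomputable section

namespace Pool.Agent.Lib.CI

open Pool.Agent.Lib.CI.Dat
open Pool.Agent.Lib.MV.G3 (acl Ov)

theorem H86.st_TSEC (T : Tools) (hLEV : St_LEV) (hS : St_SEC) (hPD : St_PD) (hC : St_GCL) :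
    St_TSEC := by
  intro D F hG K _ _ M l u lam hL i E hE
  classical
  obtain ⟨-, -, b2, b3, b4⟩ := (hLEV D F hG K M l).2 u lam hL
  obtain ⟨s1, -, -, -, s5⟩ := hS D F hG K M l u lam hL
  have nz := hL.2.nz
  obtain ⟨t, ht⟩ := T.la.xp_eq (Nx F l i u) (u ∘ cw i) (fun h => by
    obtain ⟨a, ha, h'⟩ := nz (some i.1)
    obtain ⟨q, rfl⟩ := T.sl.cw_surj i a ha
    exact h' (congrFun h q)) ((T.pi.nx_mul hG.hom l i u).trans (funext hL.2.e2))
  have h1 : val E t ≠ 0 ∧ ∑ σ, wT l i σ * nu (val E) u σ = log (val E t) := by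
    obtain ⟨ρ, hρ, hN⟩ := T.nrm.ex (val E) u nz
    obtain ⟨c1, c2⟩ := (hPD D F hG K M).1 E
    obtain ⟨κ, _, _, ⟨R⟩⟩ := T.red.ex c1
    have hr := T.mp.red F R (sc ρ u) hN.1
    have k0 := T.sc.isT hG.hom l i ρ u t hρ ht
    have k1 := hr.2.2.2.2.2.2.2.1 l i _ (T.nrm.nw hN) k0
    have k2 := (T.red.ind R ((off (some l)).finite_toSet.image _) (by
      rintro _ ⟨a, -, rfl⟩; exact hN.1 a)).1
      ((T.nrm.big_iff c1 _ u ρ _ hρ hN).1 ((b2 _ c1).1 c2))
    rw [← image_comp] at k2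
    have k3 : (R.r ∘ sc ρ u) (.inl (jj i)) = 0 := (R.zero _ (hN.1 _)).2
      (lt_of_le_of_ne (hN.1 _) fun e => by simp [s5 E _ ρ hρ hN, e] at hE)
    have k4 : val E (chi ρ (wT l i) * t) = 1 := ((T.red.one R).2.2.1 _ k1).1 fun e => by
      have k5 := hG.tl l i κ _ ⟨hr.1.1 (T.nrm.nw hN),
        hr.2.2.1 _ ((T.sc.eqs hG.hom _ ρ u hρ).2 hL.2.e2)⟩ k3 (funext fun q => by
          rw [← hr.2.2.2.2.2.2.1 l i _ k1 k0 q, e, zero_mul]; rfl)
      have k6 := T.sl.fr_off (some l) _ {.inl (jj i)} (hr.2.1 hN.2) (by simp [off, sl, ts])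
        (by simpa using k3)
      have := (T.sl.dm_add D).2.1
      rw [Finset.card_singleton] at k6
      omega
    have k7 : val E t ≠ 0 := fun e => by simp [e] at k4
    refine ⟨k7, ?_⟩
    have k8 := congrArg log k4
    rw [map_mul, log_mul ((map_ne_zero _).2 (T.sc.chi_add ρ _ 0 hρ).2) k7, T.sc.log_chi _ _ _ hρ,
      log_one, add_eq_zero_iff_neg_eq, ← Finset.sum_neg_distrib] at k8
    rw [← k8]
    refine Finset.sum_congr rfl fun σ _ => ?_
    have := T.nrm.nu_sc (val E) ρ u nz hρ σ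
    rw [T.nrm.nu_nw _ _ (T.nrm.nw hN)] at this
    rw [← mul_neg, eq_neg_of_add_eq_zero_left this.symm]
  have t0 : t ≠ 0 := fun e => h1.1 (by rw [e, map_zero])
  have hW : ∀ E', (∑ σ, wT l i σ • M.SD u σ + M.X.div t) E' =
      ∑ σ, wT l i σ * nu (val E') u σ - log (val E' t) := fun E' => by
    simp only [Finsupp.add_apply, Finsupp.finsetSum_apply, Finsupp.smul_apply, div_apply, ord_log,
      smul_eq_mul]
    rfl
  refine ⟨∑ σ, wT l i σ • M.SD u σ + M.X.div t, LE.trans ⟨_, t0, rfl⟩ ?_, fun E' => ?_,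
    by rw [hW, h1.2, sub_self]⟩
  · have e : ∀ γ : D.Sl → D.Λ, M.std (∑ σ, wT l i σ • γ σ) = ∑ σ, wT l i σ • M.std (γ σ) :=
      fun γ => by
        simp only [Mod.std, Finset.sum_apply, Pi.smul_apply, smul_eq_mul, Finset.sum_smul,
          Finset.smul_sum, smul_smul]
        exact Finset.sum_comm
    rw [← (hC D l).2.2.2 i, e]
    refine LE.sum fun σ _ => LE.zsmul ?_ _
    rcases σ with _ | s
    · exact b4
    · exact LE.of_eq ((b3 s).trans ((T.ch.std M).2.2.2.1 s).symm)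
  · obtain ⟨ρ, hρ, hN⟩ := T.nrm.ex (val E') u nz
    obtain ⟨κ, _, _, ⟨R⟩⟩ := T.red.ex ((hPD D F hG K M).1 E').1
    have k1 := (T.mp.red F R (sc ρ u) hN.1).2.2.2.2.2.2.2.1 l i _ (T.nrm.nw hN)
      (T.sc.isT hG.hom l i ρ u t hρ ht)
    have k2 := (map_ne_zero (val E')).2 (T.sc.chi_add ρ (wT l i) 0 hρ).2
    have k3 := (map_ne_zero (val E')).2 t0
    rw [map_mul, ← log_le_log (mul_ne_zero k2 k3) one_ne_zero, log_mul k2 k3,
      T.sc.log_chi _ _ _ hρ, log_one] at k1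
    have k4 : ∑ σ, wT l i σ * nu (val E') u σ + ∑ σ, wT l i σ * log (val E' (ρ σ)) = 0 := by
      rw [← Finset.sum_add_distrib]
      exact Finset.sum_eq_zero fun σ _ => by
        rw [← mul_add, ← T.nrm.nu_sc (val E') ρ u nz hρ σ, T.nrm.nu_nw _ _ (T.nrm.nw hN), mul_zero]
    rw [hW, Finsupp.zero_apply]
    omega

end Pool.Agent.Lib.CI
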