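import Pool.Agent.Lib.CI.H86W

open Set Pool.Agent.Lib.MP_cc3443_ag Pool.Agent.Lib.MP_e39d36_ag

set_option linter.unusedSectionVars false
set_option linter.unusedVariables false

noncomputable section

namespace Pool.Agent.Lib.CI.H86

variable {k : Type} [Field k]

/-- A field over `k`, seen over the complex numbers through an isomorphism. -/
def Tw (θ : ℂ ≃+* k) (L : Type) : Type := L

variable (θ θ' : ℂ ≃+* k) {L : Type} [Field L] [Algebra k L]

instance : Field (Tw θ L) := inferInstanceAs (Field L)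

instance : Algebra k (Tw θ L) := inferInstanceAs (Algebra k L)

instance : Algebra ℂ (Tw θ L) := ((algebraMap k (Tw θ L)).comp θ.toRingHom).toAlgebra

lemma Tw.alg (a : ℂ) : algebraMap ℂ (Tw θ L) a = algebraMap k (Tw θ L) (θ a) := rfl

lemma FF.isFF (h : FF k L) : IsFF (Tw θ L) := by
  let _ : Algebra ℂ k := θ.toRingHom.toAlgebra
  have : IsScalarTower ℂ k (Tw θ L) := IsScalarTower.of_algebraMap_eq' rfl
  have : Algebra.IsIntegral ℂ k := Algebra.isIntegral_of_surjective θ.surjective
  have h' : FF k (Tw θ L) := h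
  refine ⟨h'.ex.imp fun u hu => hu.restrictScalars θ.injective, fun v hv => ?_⟩
  have := h'.fin v (hv.extendScalars k)
  have h1 : (IntermediateField.adjoin k {v}).restrictScalars ℂ ≤ IntermediateField.adjoin ℂ {v} := by
    refine (Subfield.closure_le (t := (IntermediateField.adjoin ℂ {v}).toSubfield)).2
      (union_subset ?_ (IntermediateField.subset_adjoin _ _))
    rintro _ ⟨a, rfl⟩
    obtain ⟨a, rfl⟩ := θ.surjective a
    exact (IntermediateField.adjoin ℂ {v}).algebraMap_mem a
  let _ : Algebra (IntermediateField.adjoin k {v}) (IntermediateField.adjoin ℂ {v}) :=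
    (IntermediateField.inclusion h1).toRingHom.toAlgebra
  have : IsScalarTower (IntermediateField.adjoin k {v}) (IntermediateField.adjoin ℂ {v}) (Tw θ L) :=
    IsScalarTower.of_algebraMap_eq' rfl
  exact Module.Finite.of_restrictScalars_finite (IntermediateField.adjoin k {v}) _ _

variable {θ} in
lemma Tw.const (P : Place (Tw θ L)) (a : k) : algebraMap k (Tw θ L) a ∈ P.O := by
  obtain ⟨a, rfl⟩ := θ.surjective a
  exact P.const a

/-- The places do not depend on the isomorphism. -/
def Tw.pl : Place (Tw θ L) ≃ Place (Tw θ' L) where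
  toFun P := ⟨P.O, P.ne_top, fun a => Tw.const P (θ' a)⟩
  invFun P := ⟨P.O, P.ne_top, fun a => Tw.const P (θ a)⟩
  left_inv _ := rfl
  right_inv _ := rfl

lemma Tw.pl_val [IsFF (Tw θ L)] [IsFF (Tw θ' L)] (P : Place (Tw θ L)) :
    (Tw.pl θ θ' P).val = P.val := (place_isV (Tw.pl θ θ' P)).unique (place_isV P)

lemma Tw.finsum_eq [IsFF (Tw θ L)] [IsFF (Tw θ' L)] {M : Type} [AddCommMonoid M]
    (g : Valuation L (WithZero (Multiplicative ℤ)) → M) :
    ∑ᶠ P : Place (Tw θ' L), g P.val = ∑ᶠ P : Place (Tw θ L), g P.val := by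
  rw [← finsum_comp_equiv (Tw.pl θ θ')]
  exact finsum_congr fun P => congrArg g (Tw.pl_val θ θ' P)

variable {θ} in
/-- The reduction of a vector satisfies its linear relations. -/
lemma Tw.exists_red [IsFF (Tw θ L)] (P : Place (Tw θ L)) {β : Type} [Fintype β] (y : β → Tw θ L)
    (b : β) (a : k) (ha : a ≠ 0) (hb : y b = algebraMap k _ a) : ∃ (v : β) (r : β → k),
      y v ≠ 0 ∧ (∀ u, P.val (y u) ≤ P.val (y v)) ∧ r v = a ∧
      (∀ u, P.val (y u * (y b / y v) - algebraMap k _ (r u)) < 1) ∧
      ∀ l : β → k, ∑ u, algebraMap k _ (l u) * y u = 0 → ∑ u, l u * r u = 0 := by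
  classical
  have hc : ∀ c : k, P.val (algebraMap k _ c) ≤ 1 := fun c => P.mem_iff.1 (Tw.const P c)
  have hz : ∀ c : k, P.val (algebraMap k _ c) < 1 → c = 0 := fun c h => by
    obtain ⟨c, rfl⟩ := θ.surjective c
    rw [P.const_eq_zero (c := c) h, map_zero]
  obtain ⟨v, -, hv⟩ := Finset.exists_max_image Finset.univ (fun u => P.val (y u))
    ⟨b, Finset.mem_univ b⟩
  have h0 : y v ≠ 0 := fun h => by
    have := hv b (Finset.mem_univ b)
    rw [h, map_zero, le_zero_iff, map_eq_zero, hb, map_eq_zero] at this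
    exact ha this
  have h1 : ∀ u, ∃ c : k, P.val (y u * (y b / y v) - algebraMap k _ c) < 1 := fun u => by
    obtain ⟨c, h⟩ := P.exists_res (z := y u * (y b / y v)) (P.mem_iff.2 (by
      rw [mul_div_left_comm, map_mul, hb, map_div₀]
      exact mul_le_one' (hc a) (div_le_one_of_le₀ (hv u (Finset.mem_univ u)) zero_le)))
    exact ⟨θ c, h⟩
  choose r hr using h1
  refine ⟨v, r, h0, fun u => hv u (Finset.mem_univ u), ?_, hr, fun l hl => hz _ ?_⟩
  · have := hr v
    rw [mul_div_cancel₀ _ h0, hb, ← map_sub] at this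
    exact (sub_eq_zero.1 (hz _ this)).symm
  · have e : algebraMap k (Tw θ L) (∑ u, l u * r u) =
        -∑ u, algebraMap k _ (l u) * (y u * (y b / y v) - algebraMap k _ (r u)) := by
      simp only [mul_sub, Finset.sum_sub_distrib, ← mul_assoc, ← Finset.sum_mul, hl, map_sum,
        map_mul, zero_mul, zero_sub, neg_neg]
    rw [e, Valuation.map_neg]
    exact P.val.map_sum_lt one_ne_zero fun u _ => by
      rw [map_mul]; exact mul_lt_one_of_nonneg_of_lt_one_right (hc _) zero_le (hr u)

end Pool.Agent.Lib.CI.H86
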