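import Pool.Agent.Lib.CI.H86A

open Set Cardinal Pool.Agent.Lib.MP_cc3443_ag Pool.Agent.Lib.MV Pool.Agent.Lib.MV.G3

set_option linter.unusedSectionVars false
set_option linter.unusedVariables false

noncomputable section

namespace Pool.Agent.Lib.CI.H86

variable {Ω Ω' : Type} [Field Ω] [Algebra ℂ Ω] [Field Ω'] [Algebra ℂ Ω'] {S T : Set Ω}

/-- The transcendence degree of a set. -/
def rk (S : Set Ω) : ℕ∞ := (AlgebraicIndependent.matroid ℂ Ω).eRk S

lemma rk_le_of_acl (h : S ⊆ acl T) : rk S ≤ rk T := by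
  rw [coe_acl] at h
  exact (Matroid.eRk_mono _ h).trans (Matroid.eRk_closure_eq _ _).le

lemma rk_mono (h : S ⊆ T) : rk S ≤ rk T := Matroid.eRk_mono _ h

lemma rk_union_le (S T : Set Ω) : rk (S ∪ T) ≤ rk S + T.encard :=
  Matroid.eRk_union_le_eRk_add_encard _ _ _

lemma rk_insert {z : Ω} (h : z ∉ acl S) : rk (insert z S) = rk S + 1 :=
  Matroid.eRk_insert_eq_add_one ⟨trivial, by rwa [← coe_acl]⟩

lemma rk_ne_top (h : S.Finite) : rk S ≠ ⊤ :=
  ((Matroid.eRk_le_encard _ _).trans_lt h.encard_lt_top).ne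

lemma subset_acl_of_rk (hS : S.Finite) (h : S ⊆ T) (h' : rk T ≤ rk S) : T ⊆ acl S := fun z hz => by
  by_contra h1
  have h2 := (rk_insert h1).symm.trans_le ((rk_mono (insert_subset hz h)).trans h')
  exact (ENat.add_one_le_iff (rk_ne_top hS)).1 h2 |>.false

lemma map_acl (f : Ω →ₐ[ℂ] Ω') {z : Ω} (h : z ∈ acl S) : f z ∈ acl (f '' S) := by
  have h1 : IsAlgebraic (Algebra.adjoin ℂ S) z :=
    IntermediateField.isAlgebraic_adjoin_iff.1 (mem_algebraicClosure_iff.1 h)
  refine mem_algebraicClosure_iff.2 (IntermediateField.isAlgebraic_adjoin_iff.2 ?_)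
  rw [← AlgHom.map_adjoin]
  exact h1.ringHom_of_comp_eq (f.subalgebraMap _) f.toRingHom
    (fun a b hab => Subtype.ext (f.injective (congrArg Subtype.val hab))) rfl

lemma rk_image (f : Ω →ₐ[ℂ] Ω') (S : Set Ω) : rk (f '' S) = rk S := by
  obtain ⟨I, hI⟩ := (AlgebraicIndependent.matroid ℂ Ω).exists_isBasis S (subset_univ _)
  have h1 : (AlgebraicIndependent.matroid ℂ Ω').Indep (f '' I) := by
    have := (AlgebraicIndependent.map' (AlgebraicIndependent.matroid_indep_iff.1 hI.indep)
      (f := f) f.injective).to_subtype_range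
    rwa [show range (f ∘ fun x : I => id x.1) = f '' I by ext; simp] at this
  have h2 : rk (f '' I) = rk S := by
    rw [rk, h1.eRk_eq_encard, Function.Injective.encard_image (f := f) f.injective, rk,
      hI.encard_eq_eRk]
  refine le_antisymm (h2 ▸ rk_le_of_acl ?_) (h2 ▸ rk_mono (image_mono hI.subset))
  rintro _ ⟨z, hz, rfl⟩
  exact map_acl f (show z ∈ (acl I : Set Ω) from coe_acl I ▸ hI.subset_closure hz)

section step

variable {β : Type} [Fintype β] [DecidableEq β] [Algebra Ω Ω'] [IsScalarTower ℂ Ω Ω'] {X : β → Ω'}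

lemma rk_indet (hX : AlgebraicIndependent Ω X) (S : Set Ω) (A : Finset β) :
    rk (algebraMap Ω Ω' '' S ∪ X '' A) = rk S + A.card := by
  induction A using Finset.induction_on with
  | empty => simpa using rk_image (IsScalarTower.toAlgHom ℂ Ω Ω') S
  | insert a A ha ih =>
    rw [Finset.coe_insert, image_insert_eq, union_insert, rk_insert, ih,
      Finset.card_insert_of_notMem ha, Nat.cast_add, Nat.cast_one, add_assoc]
    intro h
    have h1 := hX.transcendental_adjoin (s := (A : Set β)) (i := a) ha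
    rw [← IntermediateField.transcendental_adjoin_iff] at h1
    let F := IntermediateField.adjoin Ω (X '' A)
    have h2 : acl (algebraMap Ω Ω' '' S ∪ X '' A) ≤
        ((algebraicClosure F Ω').restrictScalars Ω).restrictScalars ℂ := by
      intro z hz
      have h3 : IntermediateField.adjoin ℂ (algebraMap Ω Ω' '' S ∪ X '' A) ≤ F.restrictScalars ℂ :=
        IntermediateField.adjoin_le_iff.2 (union_subset
          (by rintro _ ⟨b, -, rfl⟩; exact F.algebraMap_mem b) (IntermediateField.subset_adjoin _ _))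
      exact mem_algebraicClosure_iff.2 ((mem_algebraicClosure_iff.1 hz).ringHom_of_comp_eq
        (IntermediateField.inclusion h3).toRingHom (RingHom.id Ω')
        (IntermediateField.inclusion h3).injective rfl)
    exact h1 (mem_algebraicClosure_iff.1 (h2 h))

end step

lemma lift_frac {F R : Type} (E : Type) [Field F] [CommRing R] [Algebra F R] [Field E] [Algebra R E]
    [IsFractionRing R E] [Algebra F E] [IsScalarTower F R E] (φ : R →ₐ[F] R)
    (hφ : Function.Injective φ) :
    ∃ σ : E →ₐ[F] E, ∀ r, σ (algebraMap R E r) = algebraMap R E (φ r) :=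
  have hj : Function.Injective ((IsScalarTower.toAlgHom F R E).comp φ) :=
    (IsFractionRing.injective R E).comp hφ
  ⟨IsFractionRing.liftAlgHom hj, fun r => IsFractionRing.lift_algebraMap hj r⟩

lemma exists_shift (F : Type) {β : Type} [Field F] [DecidableEq β] (v : β) :
    ∃ φ : MvPolynomial β F →ₐ[F] MvPolynomial β F, Function.Injective φ ∧
      ∀ u, φ (MvPolynomial.X u) = MvPolynomial.X u + if u = v then 1 else 0 := by
  obtain ⟨φ, h0⟩ : ∃ φ : F → MvPolynomial β F →ₐ[F] MvPolynomial β F, ∀ c u,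
      φ c (MvPolynomial.X u) = MvPolynomial.X u + if u = v then MvPolynomial.C c else 0 :=
    ⟨fun c => MvPolynomial.aeval fun u => MvPolynomial.X u + if u = v then MvPolynomial.C c else 0,
      fun c u => by rw [MvPolynomial.aeval_X]⟩
  have hφ : (φ (-1)).comp (φ 1) = AlgHom.id F _ := MvPolynomial.algHom_ext fun u => by
    by_cases hu : u = v <;> simp [hu, h0]
  have h1 : ∀ p, φ (-1) (φ 1 p) = p := fun p => by
    rw [← AlgHom.comp_apply, hφ, AlgHom.id_apply]
  exact ⟨φ 1, fun p q h => by rw [← h1 p, h, h1], fun u => by simp [h0]⟩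

lemma exists_indet (F β : Type) [Field F] [DecidableEq β] :
    ∃ (E : Type) (_ : Field E) (_ : Algebra F E) (X : β → E), AlgebraicIndependent F X ∧
      ∀ v, ∃ σ : E →ₐ[F] E, ∀ u, σ (X u) = X u + if u = v then 1 else 0 := by
  refine ⟨FractionRing (MvPolynomial β F), inferInstance, inferInstance,
    fun u => algebraMap (MvPolynomial β F) _ (MvPolynomial.X u),
    (MvPolynomial.algebraicIndependent_X β F).map' (f := IsScalarTower.toAlgHom F _ _)
      (IsFractionRing.injective (MvPolynomial β F) _), fun v => ?_⟩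
  obtain ⟨φ, h1, h2⟩ := exists_shift F v
  obtain ⟨σ, h3⟩ := lift_frac (FractionRing (MvPolynomial β F)) φ h1
  refine ⟨σ, fun u => ?_⟩
  rw [h3, h2, map_add, apply_ite (algebraMap (MvPolynomial β F) _), map_one, map_zero]

/-- One general linear relation. -/
lemma step {β : Type} [Fintype β] [DecidableEq β] (y : β → Ω) (b : β) (hb : y b ≠ 0) (C : Set Ω)
    (hC : C.Finite) (hbC : y b ∈ C) (h : ¬range y ⊆ acl C) :
    ∃ (E : Type) (_ : Field E) (_ : Algebra ℂ E) (f : Ω →ₐ[ℂ] E) (l : β → E),
      ∑ v, l v * f (y v) = 0 ∧ rk (f '' C ∪ range l) = rk C + Fintype.card β ∧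
      rk (f '' C ∪ range l ∪ range (f ∘ y)) + 1 = rk (C ∪ range y) + Fintype.card β := by
  obtain ⟨E, _, _, X, hX, hσ⟩ := exists_indet Ω β
  let _ : Algebra ℂ E := ((algebraMap Ω E).comp (algebraMap ℂ Ω)).toAlgebra
  have : IsScalarTower ℂ Ω E := IsScalarTower.of_algebraMap_eq' rfl
  let f := IsScalarTower.toAlgHom ℂ Ω E
  let A : Finset β := Finset.univ.erase b
  have hA : (A.card : ℕ∞) + 1 = Fintype.card β := by
    rw [← Finset.card_univ, ← Finset.card_erase_add_one (Finset.mem_univ b)]; simp [A]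
  let μ : E := -∑ v ∈ A, X v * f (y v / y b)
  let l : β → E := fun v => if v = b then μ else X v
  have hfb : f (y b) ≠ 0 := (map_ne_zero f).2 hb
  have hl : range l = insert μ (X '' A) := by
    ext z
    simp only [mem_range, mem_insert_iff, mem_image, Finset.mem_coe, Finset.mem_erase, A, l]
    constructor
    · rintro ⟨v, rfl⟩
      by_cases hv : v = b
      · simp [hv]
      · exact Or.inr ⟨v, ⟨hv, Finset.mem_univ v⟩, by simp [hv]⟩
    · rintro (rfl | ⟨v, hv, rfl⟩)
      exacts [⟨b, by simp⟩, ⟨v, by simp [hv.1]⟩]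
  have hr : ∀ S : Set Ω, rk (f '' S ∪ X '' A) = rk S + A.card := fun S => rk_indet hX S A
  refine ⟨E, inferInstance, inferInstance, f, l, ?_, ?_, ?_⟩
  · rw [← Finset.add_sum_erase _ _ (Finset.mem_univ b)]
    simp only [l, if_pos, μ]
    rw [neg_mul, Finset.sum_mul, neg_add_eq_zero]
    refine Finset.sum_congr rfl fun v hv => ?_
    rw [if_neg (Finset.ne_of_mem_erase hv), map_div₀, mul_assoc, div_mul_cancel₀ _ hfb]
  · rw [hl, union_insert, rk_insert, hr, add_assoc, hA]
    intro hμ
    refine h ?_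
    rintro _ ⟨v, rfl⟩
    by_cases hv : v = b
    · exact hv ▸ subset_acl C hbC
    obtain ⟨σ, hσ⟩ := hσ v
    have hf : ∀ z, σ (f z) = f z := fun z => σ.commutes z
    have h1 : σ μ ∈ acl (f '' C ∪ X '' A) := by
      refine acl_le ?_ (map_acl (σ.restrictScalars ℂ) hμ)
      rintro _ ⟨z, ⟨c, hc, rfl⟩ | ⟨u, hu, rfl⟩, rfl⟩
      · exact (hf c).symm ▸ subset_acl _ (Or.inl ⟨c, hc, rfl⟩)
      · change σ (X u) ∈ _
        rw [hσ]
        refine add_mem (subset_acl _ (Or.inr ⟨u, hu, rfl⟩)) ?_
        split_ifs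
        exacts [one_mem _, zero_mem _]
    have h2 : f (y v) = (μ - σ μ) * f (y b) := by
      simp only [μ, map_neg, map_sum, map_mul, hσ, hf, add_mul, Finset.sum_add_distrib, ite_mul,
        one_mul, zero_mul, Finset.sum_ite_eq', A, Finset.mem_erase, Finset.mem_univ, and_true,
        ne_eq, hv, not_false_eq_true, if_true]
      rw [map_div₀]; field_simp; ring
    have h3 : f (y v) ∈ acl (f '' C ∪ X '' A) :=
      h2 ▸ mul_mem (sub_mem hμ h1) (subset_acl _ (Or.inl ⟨_, hbC, rfl⟩))
    have h4 : rk (insert (y v) C) + A.card ≤ rk C + A.card := by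
      rw [← hr, ← hr, image_insert_eq, insert_union]
      exact rk_le_of_acl (insert_subset h3 (subset_acl _))
    exact subset_acl_of_rk hC (subset_insert _ _)
      ((ENat.add_le_add_iff_right (ENat.natCast_ne_top _)).1 h4) (mem_insert _ _)
  · rw [← hA, ← add_assoc, ← hr, image_union, ← range_comp, hl]
    congr 1
    refine le_antisymm (rk_le_of_acl ?_) (rk_mono ?_)
    · have h1 : ∀ v, f (y v) ∈ acl (f '' C ∪ range (f ∘ y) ∪ X '' A) := fun v =>
        subset_acl _ (Or.inl (Or.inr ⟨v, rfl⟩))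
      rintro z ((hz | rfl | hz) | hz)
      · exact subset_acl _ (Or.inl (Or.inl hz))
      · exact neg_mem (sum_mem fun v hv => mul_mem (subset_acl _ (Or.inr ⟨v, hv, rfl⟩))
          (by rw [map_div₀]; exact div_mem (h1 v) (h1 b)))
      · exact subset_acl _ (Or.inr hz)
      · exact subset_acl _ (Or.inl (Or.inr hz))
    · rintro z ((hz | hz) | hz)
      exacts [Or.inl (Or.inl hz), Or.inr hz, Or.inl (Or.inr (Or.inr hz))]

/-- Cutting down to a curve. -/
lemma iter {β : Type} [Fintype β] [DecidableEq β] (b : β) (e : ℕ) : ∀ (Ω : Type) [Field Ω]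
    [Algebra ℂ Ω] (y : β → Ω) (C : Set Ω), y b ≠ 0 → C.Finite → y b ∈ C →
    rk (C ∪ range y) = rk C + e + 1 →
    ∃ (E : Type) (_ : Field E) (_ : Algebra ℂ E) (f : Ω →ₐ[ℂ] E) (C' : Set E), IsAlgClosed E ∧
      C'.Finite ∧ f '' C ⊆ C' ∧ rk (C' ∪ range (f ∘ y)) = rk C' + 1 ∧ ∀ (r : β → E) v, r v ≠ 0 →
        (∀ l : β → E, range l ⊆ C' → ∑ u, l u * f (y u) = 0 → ∑ u, l u * r u = 0) →
        rk C + e ≤ rk (f '' C ∪ range r) := by
  induction e with
  | zero =>
    intro Ω _ _ y C hb hC hbC h
    let f := IsScalarTower.toAlgHom ℂ Ω (AlgebraicClosure Ω)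
    refine ⟨_, inferInstance, inferInstance, f, f '' C, inferInstance, hC.image _, subset_rfl, ?_,
      fun r v _ _ => ?_⟩
    · rw [range_comp, ← image_union, rk_image, rk_image, h]; simp
    · rw [← rk_image f C]; simpa using rk_mono subset_union_left
  | succ e ih =>
    intro Ω _ _ y C hb hC hbC h
    have h0 := rk_ne_top hC
    obtain ⟨E, _, _, f, l, h1, h2, h3⟩ := step y b hb C hC hbC fun h1 => by
      have h2 := h.symm.trans_le (rk_le_of_acl (union_subset (subset_acl _) h1))
      exact ((ENat.add_one_le_iff h0).1 ((by gcongr; exact le_self_add : _ ≤ _).trans h2)).false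
    obtain ⟨E', _, _, g, C', h4, h5, h6, h7, h8⟩ := ih E (f ∘ y) (f '' C ∪ range l)
      ((map_ne_zero f).2 hb) ((hC.image _).union (finite_range l)) (Or.inl ⟨_, hbC, rfl⟩) (by
        refine ENat.add_left_injective_of_ne_top ENat.one_ne_top ?_
        change _ + 1 = _ + 1
        rw [h3, h2, h]; push_cast; ring)
    refine ⟨E', inferInstance, inferInstance, g.comp f, C', h4, h5, ?_, h7, fun r v hr h9 => ?_⟩
    · rintro _ ⟨z, hz, rfl⟩
      exact h6 ⟨_, Or.inl ⟨z, hz, rfl⟩, rfl⟩
    have e1 : ∑ u, g (l u) * r u = 0 := h9 (g ∘ l)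
      (by rintro _ ⟨u, rfl⟩; exact h6 ⟨_, Or.inr ⟨u, rfl⟩, rfl⟩) (by simpa using congrArg g h1)
    let A : Finset β := Finset.univ.erase v
    have hA : (A.card : ℕ∞) + 1 = Fintype.card β := by
      rw [← Finset.card_univ, ← Finset.card_erase_add_one (Finset.mem_univ v)]; simp [A]
    have e2 : g '' (f '' C ∪ range l) ∪ range r ⊆
        acl (g.comp f '' C ∪ range r ∪ (g ∘ l) '' A) := by
      have e3 : ∀ u, r u ∈ acl (g.comp f '' C ∪ range r ∪ (g ∘ l) '' A) := fun u =>
        subset_acl _ (Or.inl (Or.inr ⟨u, rfl⟩))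
      rintro _ (⟨_, ⟨z, hz, rfl⟩ | ⟨u, rfl⟩, rfl⟩ | ⟨u, rfl⟩)
      · exact subset_acl _ (Or.inl (Or.inl ⟨z, hz, rfl⟩))
      · by_cases hu : u = v
        · rw [← Finset.add_sum_erase _ _ (Finset.mem_univ v), add_eq_zero_iff_eq_neg,
            ← eq_div_iff hr] at e1
          rw [hu, e1]
          exact div_mem (neg_mem (sum_mem fun w hw =>
            mul_mem (subset_acl _ (Or.inr ⟨w, hw, rfl⟩)) (e3 w))) (e3 v)
        · exact subset_acl _ (Or.inr ⟨u, by simp [A, hu], rfl⟩)
      · exact e3 u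
    have e4 := (h8 r v hr h9).trans ((rk_le_of_acl e2).trans ((rk_union_le _ _).trans
      (add_le_add_right ((encard_image_le _ _).trans (encard_coe_eq_coe_finsetCard A).le) _)))
    rw [h2, ← hA] at e4
    refine (ENat.add_le_add_iff_right (ENat.natCast_ne_top A.card)).1 (le_of_eq_of_le ?_ e4)
    push_cast; ring

/-- Function fields of one variable. -/
structure FF (k L : Type) [Field k] [Field L] [Algebra k L] : Prop where
  ex : ∃ u : L, Transcendental k u
  fin : ∀ v : L, Transcendental k v → FiniteDimensional (IntermediateField.adjoin k {v}) L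

lemma card_acl (hS : S.Finite) : #(acl S) ≤ 𝔠 := by
  let F := IntermediateField.adjoin ℂ S
  have h1 : #F ≤ 𝔠 := (IntermediateField.cardinalMk_adjoin_le ℂ S).trans (max_le (max_le
    mk_complex.le (hS.lt_aleph0.le.trans aleph0_le_continuum)) aleph0_le_continuum)
  exact (Algebra.IsAlgebraic.cardinalMk_le_max F (algebraicClosure F Ω)).trans
    (max_le h1 aleph0_le_continuum)

lemma acl_closed [IsAlgClosed Ω] (S : Set Ω) : IsAlgClosed (acl S) :=
  IsAlgClosure.isAlgClosed (IntermediateField.adjoin ℂ S)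
    (K := algebraicClosure (IntermediateField.adjoin ℂ S) Ω)

lemma ff_adjoin (hS : S.Finite) (hT : T.Finite) (h : rk (S ∪ T) = rk S + 1) :
    FF (acl S) (IntermediateField.adjoin (acl S) T) := by
  have h0 := rk_ne_top hS
  have ht : ∀ v : IntermediateField.adjoin (acl S) T, Transcendental (acl S) v ↔ v.1 ∉ acl S :=
    fun v => by
      rw [← transcendental_algebraMap_iff (A := Ω) Subtype.val_injective]
      exact ⟨fun h1 h2 => h1 (isAlgebraic_algebraMap (⟨_, h2⟩ : acl S)),
        fun h1 h2 => h1 (mem_acl_of_alg h2)⟩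
  refine ⟨?_, fun v hv => ?_⟩
  · obtain ⟨z, hz, h1⟩ : ∃ z ∈ T, z ∉ acl S := by
      by_contra! h1
      exact ((ENat.add_one_le_iff h0).1 (h.symm.trans_le
        (rk_le_of_acl (union_subset (subset_acl _) h1)))).false
    exact ⟨⟨z, IntermediateField.subset_adjoin _ _ hz⟩, (ht _).2 h1⟩
  let L := IntermediateField.adjoin (acl S) T
  have h1 : (L : Set Ω) ⊆ acl (S ∪ T) := by
    have : L ≤ IntermediateField.extendScalars (acl_mono (subset_union_left (s := S) (t := T))) :=
      IntermediateField.adjoin_le_iff.2 (subset_union_right.trans (subset_acl _))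
    exact this
  have h2 : T ⊆ acl (insert v.1 S) := subset_union_right.trans (subset_acl_of_rk (hS.insert _)
    (T := insert v.1 S ∪ T) subset_union_left (by
      rw [rk_insert ((ht v).1 hv), ← h]
      exact rk_le_of_acl (union_subset (insert_subset (h1 v.2)
        (subset_union_left.trans (subset_acl _))) (subset_union_right.trans (subset_acl _)))))
  let F := IntermediateField.adjoin (acl S) {v}
  let T' : Set L := Subtype.val ⁻¹' T
  have h3 : T'.Finite := hT.preimage Subtype.val_injective.injOn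
  have := h3.to_subtype
  have h4 : ∀ z ∈ T', IsIntegral F z := fun z hz => by
    have h5 : IntermediateField.adjoin ℂ (insert v.1 S) ≤
        ((F.map L.val).restrictScalars ℂ) := IntermediateField.adjoin_le_iff.2 (insert_subset
      ⟨v, IntermediateField.mem_adjoin_simple_self _ _, rfl⟩
      fun s hs => (F.map L.val).algebraMap_mem ⟨s, subset_acl _ hs⟩)
    have h6 : IsAlgebraic (F.map L.val) z.1 :=
      (mem_algebraicClosure_iff.1 (h2 hz)).ringHom_of_comp_eq
        (IntermediateField.inclusion h5).toRingHom (RingHom.id Ω)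
        (IntermediateField.inclusion h5).injective rfl
    exact (IsAlgebraic.of_ringHom_of_comp_eq (F.equivMap L.val).toRingEquiv.toRingHom
      L.val.toRingHom h6 (F.equivMap L.val).surjective L.val.injective rfl).isIntegral
  have h7 : IntermediateField.adjoin F T' = ⊤ := by
    have h8 : IntermediateField.adjoin (acl S) T' = ⊤ :=
      IntermediateField.map_injective L.val (by
        rw [IntermediateField.adjoin_map, ← AlgHom.fieldRange_eq_map,
          IntermediateField.fieldRange_val]
        exact congrArg _ (image_preimage_eq_of_subset fun z hz =>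
          ⟨⟨z, IntermediateField.subset_adjoin (acl S) T hz⟩, rfl⟩))
    rw [eq_top_iff]
    intro z _
    exact (IntermediateField.adjoin_le_iff.2 (IntermediateField.subset_adjoin F T') :
      _ ≤ (IntermediateField.adjoin F T').restrictScalars (acl S)) (h8 ▸ IntermediateField.mem_top)
  have h9 := IntermediateField.finiteDimensional_adjoin h4
  rw [h7] at h9
  exact IntermediateField.topEquiv.toLinearEquiv.finiteDimensional

/-- A general curve through a general point. -/
theorem wgc {β : Type} [Fintype β] (c G : Set Ω) (y : β → Ω) (b : β) (hc : c.Finite)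
    (hG : G.Finite) (hb : y b ≠ 0) (hg : G ⊆ acl (c ∪ range y))
    (h : ¬range y ⊆ acl (insert (y b) c)) :
    ∃ (E : Type) (_ : Field E) (_ : Algebra ℂ E) (f : Ω →ₐ[ℂ] E) (k : IntermediateField ℂ E)
      (L : IntermediateField k E), IsAlgClosed k ∧ #k ≤ 𝔠 ∧ FF k L ∧ (∀ z ∈ c, f z ∈ k) ∧
      f (y b) ∈ k ∧ (∀ v, f (y v) ∈ L) ∧ (∀ z ∈ G, f z ∈ L) ∧ (∃ v, f (y v) ∉ k) ∧
      ∀ (r : β → E) v, r v = f (y b) →
        (∀ l : β → E, (∀ u, l u ∈ k) → ∑ u, l u * f (y u) = 0 → ∑ u, l u * r u = 0) →
        rk (c ∪ range y) ≤ rk (f '' c ∪ range r) + 1 := by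
  classical
  have h0 := rk_ne_top (hc.insert (y b))
  have h1 := rk_ne_top (hc.union (finite_range y))
  have h2 : insert (y b) c ∪ range y = c ∪ range y := by
    rw [insert_union, insert_eq_of_mem (mem_union_right _ (mem_range_self b))]
  have h3 : rk (insert (y b) c) + 1 ≤ rk (c ∪ range y) := (ENat.add_one_le_iff h0).2 (by
    by_contra! h3
    exact h (subset_union_right.trans (subset_acl_of_rk (hc.insert _) subset_union_left
      (h2.symm ▸ h3))))
  obtain ⟨e, he⟩ := le_iff_exists_add.1 h3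
  lift e to ℕ using fun h4 => h1 (by rw [he, h4, add_top])
  obtain ⟨E, _, _, f, C, h4, h5, h6, h7, h8⟩ := iter b e Ω y (insert (y b) c) hb (hc.insert _)
    (mem_insert _ _) (by rw [h2, he, add_right_comm])
  have h9 : rk (C ∪ (range (f ∘ y) ∪ f '' G)) = rk C + 1 := by
    rw [← h7, ← union_assoc]
    refine le_antisymm (rk_le_of_acl (union_subset (subset_acl _) ?_)) (rk_mono subset_union_left)
    rintro _ ⟨z, hz, rfl⟩
    refine acl_mono ?_ (map_acl f (hg hz))
    rw [image_union, ← range_comp]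
    exact union_subset_union_left _ ((image_mono (subset_insert _ _)).trans h6)
  refine ⟨E, inferInstance, inferInstance, f, acl C,
    IntermediateField.adjoin _ (range (f ∘ y) ∪ f '' G), acl_closed C, card_acl h5,
    ff_adjoin h5 ((finite_range _).union (hG.image _)) h9,
    fun z hz => subset_acl _ (h6 ⟨z, Or.inr hz, rfl⟩), subset_acl _ (h6 ⟨_, Or.inl rfl, rfl⟩),
    fun v => IntermediateField.subset_adjoin _ _ (Or.inl ⟨v, rfl⟩),
    fun z hz => IntermediateField.subset_adjoin _ _ (Or.inr ⟨z, hz, rfl⟩), ?_, fun r v hr hl => ?_⟩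
  · by_contra! h10
    exact ((ENat.add_one_le_iff (rk_ne_top h5)).1 (h7.symm.trans_le (rk_le_of_acl
      (union_subset (subset_acl _) (range_subset_iff.2 h10))))).false
  · have := h8 r v (hr ▸ (map_ne_zero f).2 hb) fun l h11 =>
      hl l fun u => subset_acl _ (h11 ⟨u, rfl⟩)
    rw [image_insert_eq, insert_union, insert_eq_of_mem (mem_union_right _ (hr ▸ mem_range_self v))] at this
    rw [he, add_right_comm]
    gcongr

end Pool.Agent.Lib.CI.H86
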