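import Pool.Agent.Lib.CI.BlueB

open MvPolynomial Set Matrix WithZero Pool.Agent.Lib.MP_e39d36_ag Pool.Agent.Lib.MP_e39d36_ag.Var
  Pool.Agent.Lib.MP_cc3443_ag Pool.Agent.Lib.MV Pool.Agent.Lib.MV.End Pool.Agent.Lib.MV.Fb
  Pool.Agent.Lib.DU

set_option linter.unusedSectionVars false
set_option linter.unusedVariables false

noncomputable section

namespace Pool.Agent.Lib.CI

open Pool.Agent.Lib.CI.Dat

namespace HC

theorem tw {U L L' : Type} [Field L] [Algebra ℂ L] [Field L'] [Algebra ℂ L'] (j : L ≃+* L')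
    (P : MvPolynomial U ℂ) (h : ∀ s ∈ P.coeffs, j (algebraMap ℂ L s) = algebraMap ℂ L' s)
    (y : U → L) : aeval (fun a => j (y a)) P = j (aeval y P) := by
  simp only [aeval_def, eval₂_eq, map_sum, map_mul, map_prod, map_pow]
  exact Finset.sum_congr rfl fun d hd => by rw [h _ (coeff_mem_coeffs d (mem_support_iff.1 hd))]

end HC

theorem st_HC (T : Tools) (h1 : St_HC1) : St_HC := by
  classical
  intro D F hF K _ _ M z τ hz L _ _ C y hy hF0 hP W ξ hW hE hC
  obtain ⟨r, r1, r2, r3⟩ := exists_fix (T.ch.locOf M τ z hz)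
    (S := {E | (D.B M.x τ).toSubring ≤ M.X.O E.1 ∧ W E ≠ 0})
    (W.support.finite_toSet.subset fun E h => by simpa using h.2) (fun E h => h.1)
    (fun E h h' => h.2 (hE E h')) fun _ => 1
  obtain ⟨P, rfl⟩ := (T.ch.mem_iff M.x τ r).1 r1
  obtain ⟨L', _, _, _, j, e, j1, j2⟩ := C.tw (P.coeffs ∪ Finset.univ.biUnion fun i => (F i).coeffs)
  obtain ⟨γ, g1, g2, g3⟩ := h1 D F hF K M L' τ (fun a => j (y a))
    (fun s => (map_ne_zero j).2 (hy s)) fun i => by
      rw [HC.tw j _ fun s hs => j1 s (Finset.mem_union_right _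
        (Finset.mem_biUnion.2 ⟨i, Finset.mem_univ _, hs⟩)), hF0, map_zero]
  have h2 : Un (M.X.O γ.c) (aeval (D.rat M.x τ) P) := CMap.un_of_ne (g1 r1) (by
    have : D.rat (fun a => j (y a)) τ = fun a => j (D.rat y τ a) := funext fun a => by
      simp only [Dat.rat, map_div₀]
    rw [g2, this, HC.tw j _ fun s hs => j1 s (Finset.mem_union_left _ hs)]
    exact (map_ne_zero j).2 (hP P r2))
  have h3 : 0 ≤ γ.deg W := CMap.deg_nonneg (M.sm.fac W) hW fun E h => of_not_not fun h' => by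
    have := r3 E ⟨g1.trans h, h'⟩
    rw [Var.ord_un (h2.mono h)] at this
    omega
  obtain ⟨φ, hφ, -⟩ := M.Γ.exists_fun γ
  have hφ' : ∀ V, φ (nc M.Γ M.sm.fac V) = γ.deg V := fun V => hφ ⟨V, M.sm.fac V⟩
  have h4 := congrArg φ hC
  rw [hφ', Mod.cl, Fintype.linearCombination_apply, map_sum] at h4
  refine (Int.cast_nonneg h3).trans_eq (h4.trans (Finset.sum_congr rfl fun s _ => ?_))
  rw [map_smul, hφ', g3, smul_eq_mul, Crv.deg, ← finsum_comp_equiv e]
  simp only [nm, j2]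

end Pool.Agent.Lib.CI
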