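import Pool.Agent.Lib.CI.BlueB

open MvPolynomial Set Matrix WithZero Pool.Agent.Lib.MP_e39d36_ag Pool.Agent.Lib.MP_e39d36_ag.Var
  Pool.Agent.Lib.MP_cc3443_ag Pool.Agent.Lib.MV Pool.Agent.Lib.MV.End Pool.Agent.Lib.MV.Fb
  Pool.Agent.Lib.DU

set_option linter.unusedSectionVars false
set_option linter.unusedVariables false
set_option linter.style.haveILetI false

noncomputable section

namespace Pool.Agent.Lib.CI

open Pool.Agent.Lib.CI.Dat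

namespace HC1

lemma exists_hom {K F V : Type} [Field K] [Algebra ℂ K] [Field F] [Algebra ℂ F] (r : V → K)
    (z : V → F) (B : Subalgebra ℂ K) (hB : ∀ Q : MvPolynomial V ℂ, aeval r Q ∈ B)
    (hs : ∀ b ∈ B, ∃ Q : MvPolynomial V ℂ, aeval r Q = b)
    (h : ∀ Q : MvPolynomial V ℂ, aeval r Q = 0 → aeval z Q = 0) :
    ∃ χ : B.toSubring →+* F, ∀ Q, χ ⟨_, hB Q⟩ = aeval z Q := by
  let e : MvPolynomial V ℂ →+* B.toSubring := (aeval r).toRingHom.codRestrict _ hB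
  have he : Function.Surjective e := fun b => by
    obtain ⟨Q, hQ⟩ := hs b b.2
    exact ⟨Q, Subtype.ext hQ⟩
  exact ⟨e.liftOfSurjective he ⟨(aeval z).toRingHom, fun Q hQ => h Q (congrArg Subtype.val hQ)⟩,
    fun Q => RingHom.liftOfRightInverse_comp_apply e _ _ _ Q⟩

lemma exists_ext {K F : Type} [Field K] [Field F] {B : Subring K} (χ : B →+* F) :
    ∃ (T : Subring K) (h : LocOf B T) (ψ : T →+* F), IsLoc T ∧ (∀ b : B, ψ ⟨b, h.1 b.2⟩ = χ b) ∧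
      ∀ a : T, ¬Un T a → ψ a = 0 := by
  haveI := RingHom.ker_isPrime χ
  obtain ⟨T, h1, h2, h3⟩ := exists_locP (RingHom.ker χ)
  letI := (Subring.inclusion h2.1).toAlgebra
  haveI := h2.isLocalization
  have hu : ∀ y : (unS T).comap B.subtype, IsUnit (χ y) := fun y =>
    isUnit_iff_ne_zero.2 ((h3 y.1).1 y.2)
  have he : ∀ b : B, IsLocalization.lift (S := T) hu ⟨b, h2.1 b.2⟩ = χ b := fun b =>
    IsLocalization.lift_eq hu b
  refine ⟨T, h2, IsLocalization.lift hu, h1, he, fun a ha => ?_⟩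
  obtain ⟨b, h4, h5, h6⟩ := h2.2 a a.2
  have h7 : χ ⟨_, h6⟩ = 0 := by
    by_contra h8
    exact ha (((h3 ⟨_, h6⟩).2 h8).of_mul' (h2.1 h4) a.2)
  have h8 : χ ⟨b, h4⟩ ≠ 0 := (h3 ⟨b, h4⟩).1 h5
  rw [← he] at h7 h8
  refine (mul_eq_zero.1 ?_).resolve_left h8
  rw [← map_mul]
  exact h7

variable {D : Dat} {F : D.Fm} {K : Type} [Field K] [Algebra ℂ K] {L : Type} [Field L] [Algebra ℂ L]

lemma exists_pt (T : Tools) (hF : D.Hom F) (M : Mod F K) (τ : D.Ch) (y : D.Hx → L)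
    (hy : ∀ s, y ⟨s, τ s⟩ ≠ 0) (h0 : ∀ j, aeval y (F j) = 0) : ∃ γ : CMap M.X L,
      (D.B M.x τ).toSubring ≤ M.X.O γ.c ∧
      ∀ P : MvPolynomial D.Hx ℂ, γ.τ (aeval (D.rat M.x τ) P) = aeval (D.rat y τ) P := by
  classical
  have hB : ∀ Q : MvPolynomial D.Hx ℂ, aeval (D.rat M.x τ) Q ∈ D.B M.x τ := fun Q =>
    (T.ch.mem_iff M.x τ _).2 ⟨Q, rfl⟩
  have rel : ∀ Q : MvPolynomial D.Hx ℂ, aeval (D.rat M.x τ) Q = 0 → aeval (D.rat y τ) Q = 0 :=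
    fun Q hQ => by
      refine (Ideal.span_le (I := RingHom.ker (aeval (D.rat y τ)))).2 ?_ ((M.hyp.2.2 τ Q).1 hQ)
      rintro _ (⟨j, rfl⟩ | ⟨s, rfl⟩)
      · have e : D.rat y τ = fun a => (y ⟨a.1, τ a.1⟩)⁻¹ * y a := funext fun a => by
          rw [Dat.rat, div_eq_inv_mul]
        refine RingHom.mem_ker.2 ?_
        rw [e, T.pi.scal hF y (fun s => (y ⟨s, τ s⟩)⁻¹) j, h0, mul_zero]
      · refine RingHom.mem_ker.2 ?_
        rw [map_sub, aeval_X, map_one, Dat.rat, div_self (hy s), sub_self]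
  obtain ⟨χ, hχ⟩ := exists_hom _ (D.rat y τ) (D.B M.x τ) hB
    (fun b hb => (T.ch.mem_iff M.x τ b).1 hb) rel
  obtain ⟨S, h1, ψ, h2, h3, h4⟩ := exists_ext χ
  obtain ⟨z, rfl⟩ := T.ch.pt M τ S h2 h1
  have hv : ∀ Q : MvPolynomial D.Hx ℂ, (if h : aeval (D.rat M.x τ) Q ∈ M.X.O z then ψ ⟨_, h⟩
      else 0) = aeval (D.rat y τ) Q := fun Q => by
    rw [dif_pos (h1.1 (hB Q)), ← hχ]
    exact h3 ⟨_, hB Q⟩
  refine ⟨⟨z, fun a => if h : a ∈ M.X.O z then ψ ⟨a, h⟩ else 0, fun a ha b hb => ?_,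
    fun a ha b hb => ?_, fun a => ?_, fun a ha h => ?_⟩, h1.1, hv⟩
  · rw [dif_pos ha, dif_pos hb, dif_pos (add_mem ha hb), ← map_add]
    rfl
  · rw [dif_pos ha, dif_pos hb, dif_pos (mul_mem ha hb), ← map_mul]
    rfl
  · simpa only [aeval_C] using hv (C a)
  · rw [dif_pos ha]
    exact h4 ⟨a, ha⟩ h

end HC1

open HC1 in
theorem st_HC1 (T : Tools) : St_HC1 := by
  intro D F hF K _ _ M L _ _ _ τ y hy h0
  obtain ⟨γ, h, hγ⟩ := exists_pt T hF M τ y hy h0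
  refine ⟨γ, h, hγ, fun s => ?_⟩
  choose c hc using fun P : Place L => M.hyp.2.1 (γ.ctr P)
  have hf := fun P => T.ch.locEq M (c P) _ (hc P).1 s
  have hg := T.ch.locEq M τ _ h s
  have hx := T.ch.ne M
  have hr : ∀ p, γ.τ (M.x ⟨s, p⟩ / M.x ⟨s, τ s⟩) = y ⟨s, p⟩ / y ⟨s, τ s⟩ := fun p => by
    have h1 := hγ (MvPolynomial.X ⟨s, p⟩)
    rw [aeval_X, aeval_X] at h1
    exact h1
  have hm : ∀ (σ : D.Ch) p, M.x ⟨s, p⟩ / M.x ⟨s, σ s⟩ ∈ D.B M.x σ := fun σ p =>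
    Algebra.subset_adjoin ⟨⟨s, p⟩, rfl⟩
  have key : ∀ P : Place L, P.ord (γ.τ ((M.x ⟨s, c P s⟩)⁻¹ / (M.x ⟨s, τ s⟩)⁻¹)) =
      P.ord (y ⟨s, τ s⟩) + log (nm P.val fun p => y ⟨s, p⟩) := fun P => by
    have hu := ((hf P).mono (γ.ctr_le P)).un hg
    rw [inv_div_inv] at hu ⊢
    have h1 : γ.τ (M.x ⟨s, τ s⟩ / M.x ⟨s, c P s⟩) = y ⟨s, τ s⟩ / y ⟨s, c P s⟩ := by
      rw [← _root_.inv_inj, ← CMap.τ_inv' hu, inv_div, inv_div, hr]
    have h2 : y ⟨s, c P s⟩ ≠ 0 := fun h2 => CMap.τ_ne hu (by rw [h1, h2, div_zero])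
    have h3 : ∀ p, P.val (y ⟨s, p⟩) ≤ P.val (y ⟨s, c P s⟩) := fun p => by
      have h4 := (CMap.mem_T.1 ((γ.dom_ctr P).1 ((hc P).1 (hm (c P) p)))).2
      rw [← div_mul_div_cancel₀ (hx ⟨s, τ s⟩), γ.mul _ (h (hm τ p)) _ hu.2.1, hr, h1,
        div_mul_div_cancel₀ (hy s), P.mem_iff, map_div₀,
        div_le_one₀ (zero_lt_iff.2 ((map_ne_zero P.val).2 h2))] at h4
      exact h4
    have h5 : (nm P.val fun p => y ⟨s, p⟩) = P.val (y ⟨s, c P s⟩) :=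
      le_antisymm (nm_le.2 h3) (le_nm (v := P.val) (fun p => y ⟨s, p⟩) (c P s))
    rw [h1, h5, div_eq_mul_inv, P.ord_mul (hy s) (inv_ne_zero h2), P.ord_inv]
    exact congrArg _ (neg_neg _)
  have fin := CMap.finite_supp hf hg
  have fin2 : (Function.support fun P : Place L => log (nm P.val fun p => y ⟨s, p⟩)).Finite :=
    (fin.union (Place.finite_ord (y ⟨s, τ s⟩))).subset fun P hP => by
      by_contra h1
      simp only [mem_union, mem_ofPred_eq, not_or, not_not] at h1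
      have h2 := key P
      rw [h1.1, h1.2, zero_add] at h2
      exact hP h2.symm
  rw [CMap.deg_eq (M.sm.fac _) hf hg]
  simp only [key]
  rw [finsum_add_distrib (Place.finite_ord _) fin2, prod_formula, zero_add]

end Pool.Agent.Lib.CI
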