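import Pool.Agent.Lib.CI.BlueB

open MvPolynomial Set Matrix WithZero Pool.Agent.Lib.MP_e39d36_ag Pool.Agent.Lib.MP_e39d36_ag.Var
  Pool.Agent.Lib.MP_cc3443_ag Pool.Agent.Lib.MV Pool.Agent.Lib.MV.End Pool.Agent.Lib.MV.Fb
  Pool.Agent.Lib.DU

noncomputable section

namespace Pool.Agent.Lib.CI

open Pool.Agent.Lib.CI.Dat

theorem st_HCG (T : Tools) (hHC : St_HC) : St_HCG := by
  rintro D F hF K _ _ M L _ _ C j ξ ⟨W, hW, hc⟩
  obtain ⟨z, hz⟩ := M.X.exists_top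
  have hj : ∀ (y : D.Hx → K) (P : MvPolynomial D.Hx ℂ),
      aeval (fun a => j (y a)) P = j (aeval y P) := fun y P => by
    rw [← AlgHom.comp_apply, MvPolynomial.comp_aeval]
  refine hHC D F hF K M z (fun _ => 0) (hz ▸ le_top) L C (fun a => j (M.x a))
    (fun s => (map_ne_zero j).2 (T.ch.ne M _))
    (fun i => by rw [hj, (T.ch.cfg hF M).1 i, map_zero]) (fun P hP => ?_) W ξ hW
    (fun E hE => absurd (top_le_iff.1 (hz ▸ hE)) (isV E).ne_top) hc
  have e : D.rat (fun a => j (M.x a)) (fun _ => 0) = fun a => j (D.rat M.x (fun _ => 0) a) :=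
    funext fun a => (map_div₀ j _ _).symm
  rw [e, hj]
  exact (map_ne_zero j).2 hP.1

end Pool.Agent.Lib.CI
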