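import Pool.Agent.Lib.CI.LDefs

/-! Termination of the reduction when no factor has dimension greater than `m`. -/

noncomputable section

namespace Pool.Agent.Lib.CI

open Dat

namespace HT1

variable {D : Dat}

lemma split (hn : ∀ s, D.n s ≤ D.m) (F : Fin D.k → ℝ) :
    ∑ s, F s = ∑ l : D.I0, F l.1 + ∑ i : D.I1, F i.1 := by
  rw [← Fintype.sum_subtype_add_sum_subtype (fun s => D.n s + 1 = D.m) F]
  congr 1
  exact Fintype.sum_equiv (Equiv.subtypeEquivRight fun s => by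
    have := hn s; have := D.m_le s; omega) _ _ fun _ => rfl

variable (D) in
/-- The number of small factors. -/
def kk : ℕ := Fintype.card D.I0

variable (D) in
/-- The number of large factors. -/
def rr : ℕ := Fintype.card D.I1

/-- The basic height. -/
def H (x : D.V) : ℝ :=
  2 * rr D * ∑ l : D.I0, x l.1 + (2 * (D.m : ℝ) - 1) * kk D * ∑ i : D.I1, x i.1

variable (D) in
/-- The change of the height under a flop. -/
def ka : ℝ := 2 * D.m * rr D * ((kk D : ℝ) - 1)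

/-- The heights as integral functionals. -/
def hh : Option D.I0 → D.Λ
  | none => fun s => if D.n s + 1 = D.m then 2 * (rr D : ℤ) else (2 * (D.m : ℤ) - 1) * kk D
  | some l => fun s => (if D.n s + 1 = D.m then 2 * (rr D : ℤ) else (2 * (D.m : ℤ) - 1) * kk D) +
      if s = l.1 then 2 * (D.m : ℤ) * rr D * ((kk D : ℤ) - 1) else 0

lemma not0 (i : D.I1) : ¬ D.n i.1 + 1 = D.m := by have := i.2; omega

lemma ne01 (l : D.I0) (i : D.I1) : i.1 ≠ l.1 := fun e => not0 i (e ▸ l.2)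

lemma c0 (l : D.I0) : (D.n l.1 : ℝ) + 1 = D.m := by exact_mod_cast l.2

lemma c1 (i : D.I1) : (D.n i.1 : ℝ) = D.m := by exact_mod_cast i.2

lemma m2 : (2 : ℝ) ≤ D.m := by exact_mod_cast D.two_le_m

lemma k1 : (1 : ℝ) ≤ kk D := by
  obtain ⟨s, hs⟩ := D.small
  have : Nonempty D.I0 := ⟨⟨s, hs⟩⟩
  exact_mod_cast (Fintype.card_pos : 0 < Fintype.card D.I0)

lemma r1 (hn : ∀ s, D.n s ≤ D.m) : (1 : ℝ) ≤ rr D := by
  obtain ⟨s, hs⟩ := D.large
  have : Nonempty D.I1 := ⟨⟨s, le_antisymm (hn s) hs⟩⟩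
  exact_mod_cast (Fintype.card_pos : 0 < Fintype.card D.I1)

lemma d12 (i t : D.I1) : (D.d (jj i) t.1 : ℝ) ≤ 2 := by
  by_cases h : jj i = jj t
  · rw [h, d_jj]; norm_num
  · rw [d_ne_jj t h]; norm_num

lemma pr_none (hn : ∀ s, D.n s ≤ D.m) (x : D.V) : pr (hh none) x = H x := by
  rw [pr, split hn, H, Finset.mul_sum, Finset.mul_sum]
  congr 1
  · exact Finset.sum_congr rfl fun l _ => by simp [hh, l.2]
  · exact Finset.sum_congr rfl fun i _ => by simp [hh, not0 i]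

lemma pr_some (hn : ∀ s, D.n s ≤ D.m) (l : D.I0) (x : D.V) :
    pr (hh (some l)) x = H x + ka D * x l.1 := by
  rw [← pr_none hn, pr, pr, ka]
  simp only [hh, Int.cast_add, add_mul, Finset.sum_add_distrib]
  congr 1
  rw [Finset.sum_eq_single l.1 (fun s _ h => by simp [h]) (by simp)]
  simp

lemma sum_one {ι : Type} [Fintype ι] [DecidableEq ι] (a : ι) (u v : ℝ) :
    ∑ t, (u + if t = a then v else 0) = Fintype.card ι * u + v := by
  simp [Finset.sum_add_distrib]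

lemma sum_two {ι : Type} [Fintype ι] [DecidableEq ι] (a b : ι) (u v w : ℝ) :
    ∑ t, ((u + if t = a then v else 0) + if t = b then w else 0) = Fintype.card ι * u + v + w := by
  simp [Finset.sum_add_distrib]

lemma sum_shift {ι : Type} [Fintype ι] {y z e : ι → ℝ} (h : ∀ t, z t = y t + e t) :
    ∑ t, z t = ∑ t, y t + ∑ t, e t := by
  rw [← Finset.sum_add_distrib]; exact Finset.sum_congr rfl fun t _ => h t

section moves
variable (hC : St_CRD) (y : D.V)
include hC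

lemma g_l' {l l' : D.I0} (h : l ≠ l') : lin (gcol l' l) y l'.1 =
    y l.1 - ((D.m : ℝ) - 1) * (y l'.1 + ((D.m : ℝ) - 1) * y l.1) := by
  rw [(hC D y).2.1 l l' h, if_pos rfl]

lemma g_i {l l' : D.I0} (h : l ≠ l') (i : D.I1) : lin (gcol l' l) y i.1 =
    y i.1 + ((D.m : ℝ) ^ 2 - 1) * (y l'.1 + ((D.m : ℝ) - 1) * y l.1) := by
  rw [(hC D y).2.1 l l' h, if_neg (ne01 l' i), if_neg (ne01 l i), if_neg (not0 i), if_neg (not0 i),
    c1]
  ring

lemma g_H {l l' : D.I0} (h : l ≠ l') :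
    H (lin (gcol l' l) y) + ka D * lin (gcol l' l) y l'.1 = H y + ka D * y l.1 +
      rr D * ((2 * (D.m : ℝ) - 1) * ((D.m : ℝ) ^ 2 - 1) * kk D - 4 * D.m) *
        (y l'.1 + ((D.m : ℝ) - 1) * y l.1) := by
  classical
  obtain ⟨c, hc⟩ : ∃ c, c = y l'.1 + ((D.m : ℝ) - 1) * y l.1 := ⟨_, rfl⟩
  have h1 := sum_shift (y := fun t : D.I0 => y t.1) (z := fun t => lin (gcol l' l) y t.1)
    (e := fun t => ((D.m : ℝ) * (D.m - 1) * c + if t = l' then
      y l.1 - (D.m - 1) * c - y l'.1 - D.m * (D.m - 1) * c else 0) + if t = l then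
      -c - (D.m - 1) * (y l.1 - (D.m - 1) * c) - y l.1 - D.m * (D.m - 1) * c else 0) fun t => by
    rw [(hC D y).2.1 l l' h, ← hc]
    by_cases h1 : t = l'
    · subst h1
      rw [if_pos rfl, if_pos rfl, if_neg h.symm]; ring
    · by_cases h2 : t = l
      · subst h2
        rw [if_neg fun e => h1 (Subtype.ext e), if_pos rfl, if_pos t.2, if_neg h1, if_pos rfl]; ring
      · rw [if_neg fun e => h1 (Subtype.ext e), if_neg fun e => h2 (Subtype.ext e), if_pos t.2,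
          if_pos t.2, if_neg h1, if_neg h2]; ring
  have h2 := sum_shift (y := fun t : D.I1 => y t.1) (z := fun t => lin (gcol l' l) y t.1)
    (e := fun _ => ((D.m : ℝ) ^ 2 - 1) * c) fun t => by rw [g_i hC y h, hc]
  rw [sum_two] at h1
  rw [Finset.sum_const, nsmul_eq_mul, Finset.card_univ] at h2
  rw [H, H, h1, h2, g_l' hC y h, ← hc, ka, kk, rr,
    show y l'.1 = c - ((D.m : ℝ) - 1) * y l.1 by rw [hc]; ring]
  ring

lemma s_H (i : D.I1) : ∃ S : ℝ, -2 ≤ S ∧
    H (lin (scol i) y) = H y + (2 * (D.m : ℝ) - 1) * kk D * (2 * rr D + S) * y i.1 := by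
  classical
  have hm := m2 (D := D)
  have h1 := sum_shift (y := fun t : D.I0 => y t.1) (z := fun t => lin (scol i) y t.1)
    (e := fun _ => (2 * (D.m : ℝ) - 1) * y i.1) fun t => by
    rw [(hC D y).1, if_neg (ne01 t i).symm, c0, d_I0, Nat.cast_one]
  have h2 := sum_shift (y := fun t : D.I1 => y t.1) (z := fun t => lin (scol i) y t.1)
    (e := fun t => (if t = i then -2 else 2 * ((D.m : ℝ) + 1) - D.d (jj i) t.1) * y i.1) fun t => by
    rw [(hC D y).1]
    by_cases h : t = i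
    · subst h
      rw [if_pos rfl, if_pos rfl]; ring
    · rw [if_neg fun e => h (Subtype.ext e), if_neg h, c1]
  rw [Finset.sum_const, nsmul_eq_mul, Finset.card_univ] at h1
  rw [← Finset.sum_mul] at h2
  have h3 : ∑ t : D.I1, ((0 : ℝ) + if t = i then -2 else 0) ≤
      ∑ t : D.I1, (if t = i then -2 else 2 * ((D.m : ℝ) + 1) - D.d (jj i) t.1) :=
    Finset.sum_le_sum fun t _ => by
      split_ifs
      · simp
      · linarith [d12 i t]
  rw [sum_one, mul_zero, zero_add] at h3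
  refine ⟨_, h3, ?_⟩
  rw [H, H, h1, h2, kk]
  generalize (∑ t : D.I1, if t = i then -2 else 2 * ((D.m : ℝ) + 1) - D.d (jj i) t.1) = S
  ring

lemma i_H (hm : D.m = 2) (l : D.I0) (i : D.I1) : ∃ S : ℝ, 28 * rr D - 24 ≤ S ∧
    H (lin (icol l i) y) + ka D * lin (icol l i) y l.1 = H y + ka D * y l.1 +
      (20 * rr D * kk D - 32 * rr D + 3 * kk D * S) * (y i.1 + y l.1) := by
  classical
  have hm' : (D.m : ℝ) = 2 := by exact_mod_cast hm
  have h1 := sum_shift (y := fun t : D.I0 => y t.1) (z := fun t => lin (icol l i) y t.1)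
    (e := fun t => 22 * (y i.1 + y l.1) + if t = l then -28 * (y i.1 + y l.1) else 0) fun t => by
    rw [(hC D y).2.2 hm]
    by_cases h : t = l
    · subst h
      rw [if_pos rfl, if_pos rfl]; ring
    · rw [if_neg fun e => h (Subtype.ext e), if_neg (ne01 t i).symm,
        if_pos (by have := t.2; omega), if_neg h]; ring
  have h2 := sum_shift (y := fun t : D.I1 => y t.1) (z := fun t => lin (icol l i) y t.1)
    (e := fun t => (if t = i then 4 else 48 - 10 * (D.d (jj i) t.1 : ℝ)) * (y i.1 + y l.1))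
    fun t => by
    rw [(hC D y).2.2 hm, if_neg (ne01 l t)]
    by_cases h : t = i
    · subst h
      rw [if_pos rfl, if_pos rfl]; ring
    · rw [if_neg fun e => h (Subtype.ext e), if_neg (by have := t.2; omega), if_neg h, c1, hm']
      ring
  rw [sum_one] at h1
  rw [← Finset.sum_mul] at h2
  have h3 : ∑ t : D.I1, ((28 : ℝ) + if t = i then -24 else 0) ≤
      ∑ t : D.I1, (if t = i then 4 else 48 - 10 * (D.d (jj i) t.1 : ℝ)) :=
    Finset.sum_le_sum fun t _ => by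
      split_ifs
      · norm_num
      · linarith [d12 i t]
  rw [sum_one] at h3
  refine ⟨_, le_trans (le_of_eq (by rw [rr]; ring)) h3, ?_⟩
  rw [H, H, h1, h2, (hC D y).2.2 hm, if_pos rfl, ka, kk, hm']
  generalize (∑ t : D.I1, if t = i then 4 else 48 - 10 * (D.d (jj i) t.1 : ℝ)) = S
  ring

end moves

lemma app {T : D.V ≃ₗ[ℝ] D.V} {c : Fin D.k → D.Λ} (h : T.toLinearMap = lin c) (y : D.V) :
    T y = lin c y := LinearMap.congr_fun h y

lemma H_eq (x : D.V) :
    H x = ∑ l : D.I0, ∑ i : D.I1, (2 * x l.1 + (2 * (D.m : ℝ) - 1) * x i.1) := by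
  simp only [Finset.sum_add_distrib, Finset.sum_const, nsmul_eq_mul, Finset.card_univ,
    ← Finset.mul_sum]
  rw [H, kk, rr]; ring

lemma nonneg (hC : St_CRD) (G : D.Geo) (hn : ∀ s, D.n s ≤ D.m) (a : Option D.I0) :
    ∀ x ∈ G.Eff, 0 ≤ pr (hh a) x := fun x hx => by
  classical
  rcases a with _ | l
  · rw [pr_none hn, H_eq]
    exact Finset.sum_nonneg fun l _ => Finset.sum_nonneg fun i _ => G.pos.pair l i x hx
  have h1 : ka D * x l.1 = ∑ t : D.I0, ∑ _i : D.I1,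
      (2 * D.m * x l.1 + if t = l then -(2 * D.m * x l.1) else 0) := by
    rw [Finset.sum_comm]
    simp only [sum_one, Finset.sum_const, nsmul_eq_mul, Finset.card_univ]
    rw [ka, kk, rr]; ring
  rw [pr_some hn, H_eq, h1, ← Finset.sum_add_distrib]
  refine Finset.sum_nonneg fun t _ => ?_
  rw [← Finset.sum_add_distrib]
  refine Finset.sum_nonneg fun i _ => ?_
  have h2 := G.pos.pair l i x hx
  split_ifs with h
  · rw [h]; linarith
  obtain ⟨T, hT, e⟩ := G.g t l h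
  have h3 := G.pos.pair t i _ (G.Γ_eff T hT x hx)
  rw [app e, g_l' hC x (Ne.symm h), g_i hC x (Ne.symm h)] at h3
  obtain ⟨c, hc⟩ : ∃ c, c = x t.1 + ((D.m : ℝ) - 1) * x l.1 := ⟨_, rfl⟩
  rw [← hc] at h3
  rw [show x t.1 = c - ((D.m : ℝ) - 1) * x l.1 by rw [hc]; ring]
  rcases le_total 0 c with h4 | h4
  · linarith
  · have hm := m2 (D := D)
    have h5 : 0 ≤ (2 * (D.m : ℝ) - 1) * ((D.m : ℝ) ^ 2 - 1) - 2 * D.m := by nlinarith
    linarith [mul_nonneg h5 (neg_nonneg.mpr h4)]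

/-- Minimisers of the height. -/
def IsMin (G : D.Geo) (x : D.V) (T : D.V ≃ₗ[ℝ] D.V) (a : Option D.I0) : Prop :=
  T ∈ G.Γ ∧ Itg T ∧ ∀ T' ∈ G.Γ, Itg T' → ∀ b, pr (hh a) (T x) ≤ pr (hh b) (T' x)

variable {G : D.Geo} {x : D.V} {T : D.V ≃ₗ[ℝ] D.V}

lemma IsMin.move {a : Option D.I0} (h : IsMin G x T a) {S : D.V ≃ₗ[ℝ] D.V} (hS : S ∈ G.Γ)
    {c : Fin D.k → D.Λ} (e : S.toLinearMap = lin c) (b : Option D.I0) :
    pr (hh a) (T x) ≤ pr (hh b) (lin c (T x)) :=
  app e (T x) ▸ h.2.2 (S * T) (G.Γ.mul_mem hS h.1) ((itg_of_lin e).mul h.2.1) b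

lemma endL (hB : St_BAS) (hC : St_CRD) (hn : ∀ s, D.n s ≤ D.m) (hx : x ∈ G.Eff) {l : D.I0}
    (h : IsMin G x T (some l)) (h0 : T x l.1 ≤ 0) : EndL l (T x) := by
  have hm := m2 (D := D)
  have hk := k1 (D := D)
  have hr := r1 hn
  refine ⟨h0, fun l' hl => ?_, fun i => ?_⟩
  · obtain ⟨S, hS, e⟩ := G.g l' l hl
    have h1 := h.move hS e (some l')
    rw [pr_some hn, pr_some hn, g_H hC _ hl.symm, le_add_iff_nonneg_right] at h1
    refine nonneg_of_mul_nonneg_right h1 (mul_pos (by linarith) ?_) |> id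
    have h2 : 4 * (D.m : ℝ) < (2 * (D.m : ℝ) - 1) * ((D.m : ℝ) ^ 2 - 1) := by nlinarith
    nlinarith
  · rcases D.two_le_m.eq_or_lt with h2 | h3
    · obtain ⟨S, hS, e⟩ := G.ι h2.symm l i
      have h1 := h.move hS e (some l)
      obtain ⟨s, h4, h5⟩ := i_H hC (T x) h2.symm l i
      have hm' : (D.m : ℝ) = 2 := by exact_mod_cast h2.symm
      rw [pr_some hn, pr_some hn, h5, le_add_iff_nonneg_right] at h1
      have h6 : (5 : ℝ) ≤ kk D + 2 * rr D := by
        have h7 : ((D.m + 3 : ℕ) : ℝ) ≤ ((∑ s, D.n s : ℕ) : ℝ) := Nat.cast_le.mpr D.dim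
        rw [Nat.cast_sum, split hn, Finset.sum_congr rfl fun (t : D.I0) _ =>
          (show (D.n t.1 : ℝ) = 1 by linarith [c0 t]), Finset.sum_congr rfl fun (t : D.I1) _ =>
          (c1 t).trans hm'] at h7
        simp only [Finset.sum_const, nsmul_eq_mul, Finset.card_univ] at h7
        push_cast at h7
        rw [kk, rr]; linarith
      have h8 : 0 < 20 * (rr D : ℝ) * kk D - 32 * rr D + 3 * kk D * s := by nlinarith
      rw [hm', show (2 : ℝ) - 1 = 1 by norm_num, one_mul]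
      exact nonneg_of_mul_nonneg_right h1 h8 |> id
    · exact (hB D _ G.pos _ (G.Γ_eff T h.1 x hx)).1 h3 l i

lemma ka_nonneg (hn : ∀ s, D.n s ≤ D.m) : 0 ≤ ka D := by
  have := m2 (D := D)
  have := r1 hn
  exact mul_nonneg (by positivity) (sub_nonneg.mpr k1)

lemma fin0 (hB : St_BAS) (hC : St_CRD) (hn : ∀ s, D.n s ≤ D.m) (hx : x ∈ G.Eff)
    (h : IsMin G x T none) (h1 : (∀ l : D.I0, 0 ≤ T x l.1) → ∀ i : D.I1, 0 ≤ T x i.1) :
    0 ≤ T x ∨ ∃ l, EndL l (T x) := by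
  by_cases h0 : ∀ l : D.I0, 0 ≤ T x l.1
  · refine Or.inl fun s => ?_
    by_cases hs : D.n s + 1 = D.m
    · exact h0 ⟨s, hs⟩
    · exact h1 h0 ⟨s, by have := hn s; have := D.m_le s; omega⟩
  · obtain ⟨l, hl⟩ := not_forall.mp h0
    refine Or.inr ⟨l, endL hB hC hn hx ⟨h.1, h.2.1, fun T' h2 h3 b => le_trans ?_ (h.2.2 T' h2 h3 b)⟩
      (not_le.mp hl).le⟩
    rw [pr_some hn, pr_none hn]
    linarith [mul_nonneg (ka_nonneg hn) (neg_nonneg.mpr (not_le.mp hl).le)]

end HT1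

open HT1 in
theorem st_HT1 (hM : St_MIN) (hB : St_BAS) (hC : St_CRD) : St_HT1 := fun D G hn x hx => by
  obtain ⟨T, h1, h2, a, h3⟩ := hM D G (Option D.I0) hh (nonneg hC G hn) x hx
  have h4 : (∃ l, EndL l (T x)) ∨ IsMin G x T none := by
    rcases a with _ | l
    · exact Or.inr ⟨h1, h2, h3⟩
    rcases le_total (T x l.1) 0 with h | h
    · exact Or.inl ⟨l, endL hB hC hn hx ⟨h1, h2, h3⟩ h⟩
    · refine Or.inr ⟨h1, h2, fun T' h5 h6 b => le_trans ?_ (h3 T' h5 h6 b)⟩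
      rw [pr_some hn, pr_none hn]
      linarith [mul_nonneg (ka_nonneg hn) h]
  rcases h4 with h4 | h4
  · exact ⟨T, h1, Or.inr h4⟩
  by_cases h5 : ∀ i : D.I1, 0 ≤ T x i.1
  · exact ⟨T, h1, fin0 hB hC hn hx h4 fun _ => h5⟩
  obtain ⟨i, hi⟩ := not_forall.mp h5
  replace hi := not_le.mp hi
  obtain ⟨S, hS, e⟩ := G.σ i
  obtain ⟨s, h6, h7⟩ := s_H hC (T x) i
  have h8 := h4.move hS e none
  have hm := m2 (D := D)
  have hk := k1 (D := D)
  have hr := r1 hn
  have hp : 0 < (2 * (D.m : ℝ) - 1) * kk D := mul_pos (by linarith) (by linarith)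
  rw [pr_none hn, pr_none hn, h7, le_add_iff_nonneg_right] at h8
  have h9 : (rr D : ℝ) ≤ 1 := by
    by_contra h
    exact absurd h8 (not_le.mpr (mul_neg_of_pos_of_neg (mul_pos hp (by linarith [not_le.mp h])) hi))
  have h10 : Subsingleton D.I1 := Fintype.card_le_one_iff_subsingleton.mp (by exact_mod_cast h9)
  refine ⟨S * T, G.Γ.mul_mem hS h1, fin0 hB hC hn hx ⟨G.Γ.mul_mem hS h1, (itg_of_lin e).mul h2,
    fun T' h11 h12 b => le_trans ?_ (h4.2.2 T' h11 h12 b)⟩ fun _ t => ?_⟩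
  · rw [show (S * T) x = lin (scol i) (T x) from app e (T x), pr_none hn, pr_none hn, h7]
    linarith [mul_nonneg (mul_nonneg hp.le (show 0 ≤ 2 * (rr D : ℝ) + s by linarith))
      (neg_nonneg.mpr hi.le)]
  · rw [show (S * T) x = lin (scol i) (T x) from app e (T x), Subsingleton.elim t i, (hC D _).1,
      if_pos rfl]
    linarith

end Pool.Agent.Lib.CI
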