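import Pool.Agent.Lib.CI.LDefs

/-! Block HT2: termination when some factor has dimension greater than `m`. -/

noncomputable section

namespace Pool.Agent.Lib.CI

open Dat

namespace HT2

variable {D : Dat}

/-- The heights: the coordinate `s`, plus `B` times the coordinate of the level. -/
def ht (s : Fin D.k) (B : ℤ) : Option D.I0 → D.Λ
  | none => Pi.single s 1
  | some l => Pi.single s 1 + Pi.single l.1 B

theorem pr_single (t : Fin D.k) (c : ℤ) (y : D.V) : pr (Pi.single t c) y = c * y t := by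
  rw [pr, Finset.sum_eq_single t (fun b _ h => by simp [h]) (by simp)]
  simp

theorem ht_none (s : Fin D.k) (B : ℤ) (y : D.V) : pr (ht s B none) y = y s := by
  rw [ht, pr_single]
  simp

theorem ht_some (s : Fin D.k) (B : ℤ) (l : D.I0) (y : D.V) :
    pr (ht s B (some l)) y = y s + B * y l.1 := by
  have h1 := pr_single s 1 y
  have h2 := pr_single l.1 B y
  simp only [pr, ht, Pi.add_apply, Int.cast_add, add_mul, Finset.sum_add_distrib] at h1 h2 ⊢
  rw [h1, h2]
  simp

theorem mul_app {T S : D.V ≃ₗ[ℝ] D.V} {c : Fin D.k → D.Λ} (h : S.toLinearMap = lin c) (x : D.V) :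
    (S * T) x = lin c (T x) := LinearMap.congr_fun h (T x)

end HT2

open HT2 in
theorem st_HT2 (hMIN : St_MIN) (hBAS : St_BAS) (hCRD : St_CRD) : St_HT2 := by
  rintro D G ⟨s, hs⟩ x hx
  obtain ⟨-, A, hA1, hA2, hA3, ⟨j0, hj0⟩, -⟩ := (hBAS D _ G.pos x hx).2 s hs
  have hm := D.two_le_m
  have hmR : (2 : ℝ) ≤ D.m := by exact_mod_cast hm
  have hA1R : (1 : ℝ) ≤ A := by exact_mod_cast hA1
  have hA2R : (A : ℝ) ≤ D.n s := by exact_mod_cast hA2
  have hA3R : ∀ j, (D.d j s : ℝ) ≤ A := fun j => by exact_mod_cast hA3 j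
  have hB : (((D.n s : ℤ) + 1 - A : ℤ) : ℝ) = (D.n s : ℝ) + 1 - A := by push_cast; rfl
  obtain ⟨T, hT, hI, a, hmin⟩ := hMIN D G (Option D.I0) (ht s ((D.n s : ℤ) + 1 - A)) (by
    intro a y hy
    obtain ⟨h0, A', -, -, h3, ⟨j1, hj1⟩, h5⟩ := (hBAS D _ G.pos y hy).2 s hs
    have e : A' = A := le_antisymm (hj1 ▸ hA3 j1) (hj0 ▸ h3 j0)
    cases a with
    | none => rwa [ht_none]
    | some l => rw [ht_some, hB, ← e]; exact h5 l) x hx
  have hy := G.Γ_eff T hT x hx
  obtain ⟨c1, c2, c3⟩ := hCRD D (T x)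
  have s0 : ∀ l : D.I0, s ≠ l.1 := fun l h => by have := l.2; rw [← h] at this; omega
  have s1 : ∀ i : D.I1, s ≠ i.1 := fun i h => by have := i.2; rw [← h] at this; omega
  refine ⟨T, hT, ?_⟩
  cases a with
  | none =>
    refine Or.inl fun t => le_of_not_gt fun (ht0 : T x t < 0) => ?_
    have h1 := D.m_le t
    rcases (by omega : D.n t + 1 = D.m ∨ D.n t = D.m ∨ D.m < D.n t) with h | h | h
    · have h2 := hmin T hT hI (some ⟨t, h⟩)
      rw [ht_none, ht_some, hB] at h2
      nlinarith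
    · obtain ⟨S, hS, e⟩ := G.σ ⟨t, h⟩
      have h2 := hmin (S * T) (G.Γ.mul_mem hS hT) ((itg_of_lin e).mul hI) none
      rw [ht_none, ht_none, mul_app e, c1, if_neg (s1 _)] at h2
      nlinarith [hA3R (jj ⟨t, h⟩)]
    · exact absurd ((hBAS D _ G.pos _ hy).2 t h).1 (not_le.2 ht0)
  | some l =>
    refine Or.inr ⟨l, le_of_not_gt fun h0 => ?_, fun l' hl => le_of_not_gt fun h0 => ?_,
      fun i => ?_⟩
    · have h2 := hmin T hT hI none
      rw [ht_none, ht_some, hB] at h2
      nlinarith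
    · obtain ⟨S, hS, e⟩ := G.g l' l hl
      have h2 := hmin (S * T) (G.Γ.mul_mem hS hT) ((itg_of_lin e).mul hI) (some l')
      have h3 : ¬D.n s + 1 = D.m := by omega
      rw [ht_some, ht_some, hB, mul_app e, c2 l l' hl.symm, c2 l l' hl.symm, if_pos rfl,
        if_neg (s0 _), if_neg (s0 _), if_neg h3, if_neg h3] at h2
      nlinarith [mul_pos (mul_pos (show 0 < (D.m : ℝ) - 1 by linarith)
        (show 0 < (A : ℝ) by linarith)) (neg_pos.2 h0)]
    · rcases (by omega : D.m = 2 ∨ 3 ≤ D.m) with h | h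
      · obtain ⟨S, hS, e⟩ := G.ι h l i
        have h2 := hmin (S * T) (G.Γ.mul_mem hS hT) ((itg_of_lin e).mul hI) (some l)
        have h3 : ¬D.n s = 1 := by omega
        have h4 : (D.m : ℝ) = 2 := by exact_mod_cast h
        rw [ht_some, ht_some, hB, mul_app e, c3 h l i, c3 h l i, if_pos rfl,
          if_neg (s0 _), if_neg (s1 _), if_neg h3] at h2
        rw [h4]
        refine le_of_not_gt fun h0 => ?_
        nlinarith [hA3R (jj i)]
      · exact (hBAS D _ G.pos _ hy).1 h l i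

end Pool.Agent.Lib.CI
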