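import Pool.Agent.Lib.CI.BlueB

open MvPolynomial Set Matrix WithZero Pool.Agent.Lib.MP_e39d36_ag Pool.Agent.Lib.MP_e39d36_ag.Var
  Pool.Agent.Lib.MP_cc3443_ag Pool.Agent.Lib.MV Pool.Agent.Lib.MV.End Pool.Agent.Lib.MV.Fb
  Pool.Agent.Lib.DU

set_option linter.unusedSectionVars false
set_option linter.unusedVariables false

noncomputable section

namespace Pool.Agent.Lib.CI

open Pool.Agent.Lib.CI.Dat

namespace IMOV

variable {D : Dat} {F : D.Fm} {K : Type} [Field K] [Algebra ℂ K]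

lemma sv_map (σ : K ≃ₐ[ℂ] K) (u : D.Vr → K) (τ : D.Sl) : sv (σ ∘ u) τ = σ ∘ sv u τ := by
  funext c
  rcases τ with _ | s
  · simp only [sv, Function.comp, map_mul, map_prod, map_pow]
  · rfl

lemma ld_map {M : Mod F K} {σ : K ≃ₐ[ℂ] K} {e : M.X.PD ≃ M.X.PD} (h : Inv ⊥ σ e) (u : D.Vr → K)
    (E : M.X.PD) (j : Fin D.m) : ld (val (e E)) (σ ∘ u) j = ld (val E) u j := by
  simp only [ld, Dat.nu, sv_map, h.nm, Function.comp_apply, h.2]

lemma std_apply (M : Mod F K) (γ : D.Λ) (E : M.X.PD) : M.std γ E = ∑ s, γ s * M.st s E := by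
  rw [Mod.std, Finsupp.finsetSum_apply]
  rfl

lemma std_sum (M : Mod F K) (c : Fin D.k → ℤ) (γ : Fin D.k → D.Λ) :
    M.std (∑ s, c s • γ s) = ∑ s, c s • M.std (γ s) := by
  simp only [Mod.std, Finset.sum_apply, Pi.smul_apply, smul_eq_mul, Finset.sum_smul,
    Finset.smul_sum, smul_smul]
  exact Finset.sum_comm

end IMOV

open IMOV in
theorem st_IMOV (T : Tools) (PD : St_PD) (PERM : St_PERM) (F2 : St_F2) (FLX : St_FLX)
    (FLV : St_FLV) (FLD : St_FLD) (LEV : St_LEV) (SEC : St_SEC) (IVAL : St_IVAL) (IOX : St_IOX)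
    (GCL : St_GCL) : St_IMOV := by
  intro D F hG hm K _ _ M l i u lam hL
  obtain ⟨σ, mv, a, a', h1, h2⟩ := IOX D F hG hm K M l i u lam hL
  obtain ⟨L1, -, L3, L4, -⟩ := (LEV D F hG K M l).2 u lam hL
  obtain ⟨-, S2, -, S4, -⟩ := SEC D F hG K M l u lam hL
  have hstd := T.ch.std M
  obtain ⟨e, he⟩ := PERM D F hG K M σ fun v hv => by
    have hc : Cv (v.comap (σ : K →ₐ[ℂ] K).toRingHom) := fun c => by
      have := hv c
      rw [← σ.commutes c] at this
      exact this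
    have b1 := T.nrm.big_map (σ : K →ₐ[ℂ] K) hv none M.u (D.dm - 1) (T.ch.cfg hG.hom M).2.1.1
    have b2 := T.nrm.big_map (σ : K →ₐ[ℂ] K) hv (some l) u (D.dm - 1) hL.2.nz
    have b3 : Big (some l) v u (D.dm - 1) ↔ Big (some l) v (σ ∘ u) (D.dm - 1) :=
      ⟨fun h => (IVAL D F hG hm l i K v hv _ _ mv a h1 h).1,
        fun h => (IVAL D F hG hm l i K v hv _ _ mv a' h2 h).1⟩
    exact (L3 v hv).trans (b3.trans (b2.trans ((L3 _ hc).symm.trans b1.symm)))
  have IE := fun E : M.X.PD => IVAL D F hG hm l i K (val E) ((PD D F hG K M).1 E).1 _ _ mv a h1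
    ((L3 _ ((PD D F hG K M).1 E).1).1 ((PD D F hG K M).1 E).2)
  have I0 := IVAL D F hG hm l i K (tv K) (T.red.triv K).1 _ _ mv a h1
    (T.nrm.big_mono _ _ _ _ (Nat.sub_le _ _) L1)
  have hA : ∀ s, push e (M.st s) = M.SD (σ ∘ u) (some s) := fun s => by
    rw [← L4 s, Mod.SD, he.push_sd, Mod.SD, sv_map]
  have hB : LE (M.SD (σ ∘ u) (some i.1)) (M.std (iH l i)) := by
    have e1 : iH l i = (6 : ℤ) • Lam l (jj i) +
        ((6 : ℤ) • kap l i + (4 : ℤ) • alp l i - Pi.single i.1 1) := by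
      rw [iH]; abel
    rw [e1, hstd.1, hstd.2.2.1]
    refine LE.trans ⟨_, inv_ne_zero (mul_ne_zero h1.ne (pow_ne_zero 3 I0.2.1)), ?_⟩
      (((S2 (jj i)).2.zsmul 6).add (LE.refl _))
    refine Finsupp.ext fun E => ?_
    rw [div_inv, Finsupp.add_apply, Finsupp.add_apply, Finsupp.neg_apply, div_apply, ord_log,
      Finsupp.smul_apply, S4, std_apply, neg_neg, smul_eq_mul]
    simp only [← L4]
    refine (IE E).2.2.2.2.trans ?_
    rw [add_assoc, add_comm]
    rfl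
  have hC : ∀ s, s ≠ l.1 → LE (M.SD (σ ∘ u) (some s)) (M.std (icol l i s)) := fun s hs => by
    by_cases h : s = i.1
    · rw [h, icol, if_pos rfl]
      exact hB
    · rw [icol, if_neg h, if_neg hs, hstd.2.2.2.1, ← L4 s]
      refine LE.of_eq (congrArg (sd M.X) (funext fun c => h1.eq _ ?_))
      simp [bs, sl, h, hs]
  have hD : push e (M.LD u (jj i)) = M.LD u (jj i) := Finsupp.ext fun E => by
    rw [push_apply, S4, S4, ← ld_map he, e.apply_symm_apply, (IE E).2.2.2.1]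
  have hE : LE (M.SD (σ ∘ u) none)
      (M.std (Lam l (jj i) + ∑ s, (D.aW (jj i) s : ℤ) • icol l i s)) := by
    rw [hstd.1, std_sum]
    refine LE.trans (D' := M.LD u (jj i) + ∑ s, (D.aW (jj i) s : ℤ) • M.SD (σ ∘ u) (some s))
      ⟨_, inv_ne_zero I0.2.2.1, ?_⟩ ((S2 (jj i)).2.add (LE.sum fun s _ => ?_))
    · refine Finsupp.ext fun E => ?_
      rw [div_inv, Finsupp.add_apply, Finsupp.add_apply, Finsupp.neg_apply, div_apply, ord_log,
        S4, ← (IE E).2.2.2.1, neg_neg, Finsupp.finsetSum_apply, ld]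
      change Dat.nu (val E) (σ ∘ u) none =
        _ + ∑ s, (D.aW (jj i) s : ℤ) * Dat.nu (val E) (σ ∘ u) (some s) + _
      ring
    · by_cases hs : s = l.1
      · have h0 : D.aW (jj i) s = 0 := by rw [hs, aW, if_pos l.2]
        rw [h0, Nat.cast_zero, zero_smul, zero_smul]
        exact LE.refl _
      · exact (hC s hs).zsmul _
  refine ⟨e, ⟨⟨_, he.ps⟩, fun s => ?_⟩, hD⟩
  rw [hA]
  by_cases hs : s = l.1
  · have hd : Dbl F (some l) none (σ ∘ u) (σ lam) :=
      (T.mp.map F (σ : K →ₐ[ℂ] K) u).2.2.2.2.1 _ _ _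
        (F2 D F hG.hom none (some l) (by simp) K u lam hL.2).1
    have := FLD D F hG K M (some l) none (by simp) _ _ hd (fun E => (IE E).1)
      (fun τ => τ.elim (Lam l (jj i) + ∑ s, (D.aW (jj i) s : ℤ) • icol l i s) (icol l i))
      (by
        rintro (_ | t) ht
        · exact hE
        · exact hC t fun h => ht (congrArg some h))
    rw [hs, ← ((GCL D l).2.2.1 hm i).1]
    exact this
  · exact hC s hs

end Pool.Agent.Lib.CI
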