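import Pool.Agent.Lib.CI.BlueB

open MvPolynomial Set Matrix WithZero Pool.Agent.Lib.MP_e39d36_ag Pool.Agent.Lib.MP_e39d36_ag.Var
  Pool.Agent.Lib.MP_cc3443_ag Pool.Agent.Lib.MV Pool.Agent.Lib.MV.End Pool.Agent.Lib.MV.Fb
  Pool.Agent.Lib.DU

set_option linter.unusedSectionVars false
set_option linter.unusedVariables false

noncomputable section

namespace Pool.Agent.Lib.CI

open Pool.Agent.Lib.CI.Dat
open Pool.Agent.Lib.MV.G3 (acl Ov)

theorem st_INEQ (T : Tools) (hRES : St_RES) (hCURV : St_CURV) (hHC : St_HC) : St_INEQ := by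
  intro D F hF K _ _ M l u lam hL o f hf W ξ hW hc ho
  rcases eq_or_ne f 0 with rfl | h0
  · simp [pr]
  obtain ⟨z, hz, hz'⟩ : ∃ z : M.X.Pt, ((o = none ∧ M.X.O z = ⊤) ∨
      ∃ (j : _) (E : M.X.PD), o = some j ∧ z = E.1 ∧ 0 < M.LD u j E) ∧
      ∀ E : M.X.PD, M.X.O z ≤ M.X.O E.1 → W E = 0 := by
    rcases ho with ho | ⟨j, E, h1, h2, h3⟩
    · obtain ⟨z, hz⟩ := M.X.exists_top
      exact ⟨z, Or.inl ⟨ho, hz⟩, fun E hE => absurd (top_le_iff.1 (hz ▸ hE)) (isV E).ne_top⟩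
    · exact ⟨E.1, Or.inr ⟨j, E, h1, rfl, h2⟩, fun E' hE => pd_eq hE ▸ h3⟩
  obtain ⟨κ, _, _, u', lam', t, τ, h1, h2, h3, h4⟩ := hRES D F hF K M l u lam hL o z hz
  obtain ⟨L, _, _, j, C, c, h5, h6⟩ := hCURV D F hF l o f hf h0 κ u' lam' t h1
  have h7 : ∀ P : MvPolynomial D.Hx ℂ,
      aeval (fun a => j (u' (.inr a))) P = j (aeval (u' ∘ .inr) P) := fun P =>
    (comp_aeval_apply (u' ∘ .inr) j P).symm
  have h8 : D.rat (fun a => j (u' (.inr a))) τ = fun a => j (u' (.inr a)) := by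
    funext a
    simp only [Dat.rat, h3, map_one, _root_.div_one]
  have h9 := hHC D F hF.hom K M z τ h2 L C (fun a => j (u' (.inr a)))
    (fun s => by simp only [h3, map_one]; exact one_ne_zero)
    (fun i => by rw [h7, ← T.pi.d_inl, show aeval u' (pderiv (.inl i) (FF F)) = 0 from
      h1.dbl.e1 i, map_zero])
    (fun P hP => by rw [h8, h7]; exact (map_ne_zero j).2 (h4 P hP)) W ξ hW hz' hc
  simp only [h6] at h9
  have h10 : (0 : ℝ) < c := by exact_mod_cast h5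
  refine le_of_mul_le_mul_right ?_ h10
  rw [zero_mul, pr, Finset.sum_mul]
  refine h9.trans (le_of_eq (Finset.sum_congr rfl fun s _ => ?_))
  push_cast
  ring

end Pool.Agent.Lib.CI
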