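import Pool.Agent.Lib.CI.LDefs

/-! Block INJ0: the standard classes are numerically independent. -/

namespace Pool.Agent.Lib.CI

open Dat

namespace INJ0

theorem const {D : Dat} {P : Set D.V} (h : Pos P) {x : D.V} (hx : x ∈ P) (hx' : -x ∈ P)
    (A : Finset (Fin D.k)) (hA : D.m < ∑ s ∈ A, D.n s) (c : ℝ) (hc : ∀ s ∈ A, x s = c) :
    c = 0 := by
  obtain ⟨α, h0, h1, h2, h3⟩ := h.fc A hA
  have h4 := h3 x hx
  have h5 := h3 _ hx'
  rw [dotProduct_neg] at h5
  have h6 : α ⬝ᵥ x = (∑ s, α s) * c := by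
    rw [dotProduct, Finset.sum_mul]
    refine Finset.sum_congr rfl fun s _ => ?_
    by_cases hs : s ∈ A
    · rw [hc s hs]
    · rw [h2 s hs, zero_mul, zero_mul]
  have h7 : (∑ s, α s) ≠ 0 := fun e => h1 (funext fun s =>
    (Finset.sum_eq_zero_iff_of_nonneg fun s _ => h0 s).mp e s (Finset.mem_univ s))
  exact (mul_eq_zero.mp (h6.symm.trans (le_antisymm (by linarith) h4))).resolve_left h7

end INJ0

theorem st_INJ0 (hB : St_BAS) : St_INJ0 := by
  intro D P h x hx hx'
  obtain ⟨a1, a2⟩ := hB D P h x hx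
  obtain ⟨b1, b2⟩ := hB D P h _ hx'
  have hm := D.two_le_m
  have hmR : (2 : ℝ) ≤ D.m := by exact_mod_cast hm
  have hp : ∀ (l : D.I0) (i : D.I1), 2 * x l.1 + (2 * (D.m : ℝ) - 1) * x i.1 = 0 := fun l i => by
    have h1 := h.pair l i x hx
    have h2 := h.pair l i _ hx'
    simp only [Pi.neg_apply] at h2
    linarith
  have hs : ∀ s, D.m < D.n s → x s = 0 := fun s e => by
    have h1 := (a2 s e).1
    have h2 := (b2 s e).1
    simp only [Pi.neg_apply] at h2
    linarith
  obtain ⟨l0, hl0⟩ := D.small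
  have key : (∀ l : D.I0, x l.1 = 0) → x = 0 := fun h0 => funext fun s => by
    have h1 := D.m_le s
    by_cases e : D.n s + 1 = D.m
    · exact h0 ⟨s, e⟩
    by_cases e' : D.n s = D.m
    · have h2 := hp ⟨l0, hl0⟩ ⟨s, e'⟩
      rw [h0 ⟨l0, hl0⟩, mul_zero, zero_add] at h2
      exact (mul_eq_zero.mp h2).resolve_left (by linarith)
    · exact hs s (by omega)
  refine key fun l => ?_
  by_cases hl : ∃ s, D.m < D.n s
  · obtain ⟨s, e⟩ := hl
    obtain ⟨-, A, -, hA, -, -, h1⟩ := a2 s e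
    obtain ⟨-, A', -, hA', -, -, h2⟩ := b2 s e
    have h3 := h1 l
    have h4 := h2 l
    have h5 : (A : ℝ) ≤ D.n s := by exact_mod_cast hA
    have h6 : (A' : ℝ) ≤ D.n s := by exact_mod_cast hA'
    simp only [Pi.neg_apply, hs s e] at h3 h4
    exact le_antisymm (by nlinarith) (by nlinarith)
  push Not at hl
  obtain ⟨i0, hi0⟩ := D.large
  have hi1 : D.n i0 = D.m := le_antisymm (hl i0) hi0
  by_cases h3 : 3 ≤ D.m
  · have h1 := a1 h3 l ⟨i0, hi1⟩
    have h2 := b1 h3 l ⟨i0, hi1⟩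
    have h4 := hp l ⟨i0, hi1⟩
    have h5 : (3 : ℝ) ≤ D.m := by exact_mod_cast h3
    simp only [Pi.neg_apply] at h1 h2 h4
    have h6 : x i0 = -(((D.m : ℝ) - 1) * x l.1) := by linarith
    have h7 : ((2 * (D.m : ℝ) - 1) * (D.m - 1) - 2) * x l.1 = 0 := by
      rw [h6] at h4
      linarith
    exact (mul_eq_zero.mp h7).resolve_left (by nlinarith)
  have h2 : D.m = 2 := by omega
  have h2R : (D.m : ℝ) = 2 := by exact_mod_cast h2
  have hd := D.dim
  rw [← Finset.sum_filter_add_sum_filter_not Finset.univ (fun s => D.n s = D.m)] at hd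
  by_cases h4 : D.m < ∑ s ∈ Finset.univ.filter (fun s => D.n s = D.m), D.n s
  · have h5 := INJ0.const h hx hx' _ h4 (x i0) fun s e => by
      have h6 := hp l ⟨s, (Finset.mem_filter.mp e).2⟩
      have h7 := hp l ⟨i0, hi1⟩
      rw [h2R] at h6 h7
      simp only at h6 h7
      linarith
    have h7 := hp l ⟨i0, hi1⟩
    simp only [h5] at h7
    linarith
  · refine INJ0.const h hx hx' (Finset.univ.filter fun s => ¬ D.n s = D.m) (by omega) _
      fun s e => ?_
    have h5 := (Finset.mem_filter.mp e).2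
    have h6 := hl s
    have h7 := D.m_le s
    have h8 := hp ⟨s, by omega⟩ ⟨i0, hi1⟩
    have h9 := hp l ⟨i0, hi1⟩
    simp only at h8 h9
    linarith

end Pool.Agent.Lib.CI
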