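import Pool.Agent.Lib.CI.BlueB

open MvPolynomial Set Matrix WithZero Pool.Agent.Lib.MP_e39d36_ag Pool.Agent.Lib.MP_e39d36_ag.Var
  Pool.Agent.Lib.MP_cc3443_ag Pool.Agent.Lib.MV Pool.Agent.Lib.MV.End Pool.Agent.Lib.MV.Fb
  Pool.Agent.Lib.DU

set_option linter.unusedSectionVars false
set_option linter.unusedVariables false

noncomputable section

namespace Pool.Agent.Lib.CI

open Pool.Agent.Lib.CI.Dat
open Pool.Agent.Lib.MV.G3 (acl Ov)

namespace IOG1

variable {κ : Type} [Field κ] [Algebra ℂ κ]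

lemma two {m : ℕ} (hm : m = 2) (j : Fin m) : ∃ j', j' ≠ j ∧ (∀ x, x = j ∨ x = j') ∧
    ∀ f : Fin m → κ, ∑ x, f x = f j + f j' := by
  subst hm
  fin_cases j
  · exact ⟨1, by decide, by decide, fun f => by simp⟩
  · exact ⟨0, by decide, by decide, fun f => by simp [add_comm]⟩

lemma one_mem (k : IntermediateField ℂ κ) {a q : Fin 2 → κ} {z : κ} (h : ∀ s, q s + a s * z = 0)
    (hn : ¬((∀ s, a s = 0) ∧ ∀ s, q s = 0)) (ha : ∀ s, a s ∈ k) (hq : ∀ s, q s ∈ k) : z ∈ k := by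
  by_cases h0 : ∀ s, a s = 0
  · exact (hn ⟨h0, fun s => by simpa [h0 s] using h s⟩).elim
  · obtain ⟨s, hs⟩ := not_forall.1 h0
    have : z = -q s / a s := by
      rw [eq_div_iff hs]; linear_combination h s
    rw [this]
    exact div_mem (neg_mem (hq s)) (ha s)

lemma ex_line {w : Fin 3 → κ} {r : Fin 3} (h : w r = 1) : ∃ b, w ⨯₃ b ≠ 0 := by
  by_contra hc
  push Not at hc
  have h0 := hc (Pi.single 0 1)
  have h1 := hc (Pi.single 1 1)
  have a1 := congrFun h0 1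
  have a2 := congrFun h0 2
  have a3 := congrFun h1 2
  simp [cross_apply] at a1 a2 a3
  fin_cases r <;> simp_all

lemma indep {A B : Fin 3 → κ} {x y : κ} (h : A ⨯₃ B ≠ 0) (e : x • A - y • B = 0) :
    x = 0 ∧ y = 0 := by
  have e1 := congrArg (fun c => c ⨯₃ B) e
  have e2 := congrArg (fun c => A ⨯₃ c) e
  simp only [map_sub, map_smul, cross_self, LinearMap.sub_apply, LinearMap.smul_apply, smul_zero,
    sub_zero, map_zero, LinearMap.zero_apply, zero_sub, neg_eq_zero, smul_eq_zero, h,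
    or_false] at e1 e2
  exact ⟨e1, e2⟩

end IOG1

open IOG1 in
theorem st_IOG1 (T : Tools) (hTQ : St_TQ) (hLN : St_LNA) : St_IOG1 := by
  intro D F hG hm l i κ _ _ u hC hN hr
  obtain ⟨j', hj, hall, hsum⟩ := two (κ := κ) hm (jj i)
  have h3 := (T.sl.dm_add D).2.1
  have hne : (some l : D.Ty) ≠ none := by simp
  have hrow : ∀ s, qd (BB F hm l i u s) (u ∘ c3 hm i) * u (.inl (jj i)) +
      AA F hm l i u s ⬝ᵥ (u ∘ c3 hm i) * u (.inl j') = 0 := by
    intro s
    have := congrFun (T.pi.mx_mul hG.hom (some l) none u hne) (s.cast hm.symm)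
    rw [hC.2, mulVec, dotProduct, hsum, T.pi.ab_eq hG.hom hm l i, T.pi.ab_eq hG.hom hm l i,
      if_pos rfl, if_neg hj] at this
    exact this
  have hz : u (.inl (jj i)) = 1 ∨ u (.inl j') = 1 := by
    obtain ⟨a, ha, h1⟩ := hN none
    rcases a with x | x
    · rcases hall x with rfl | rfl
      · exact Or.inl h1
      · exact Or.inr h1
    · simp [sl] at ha
  have hM : Mx F (some l) none u ≠ 0 := by
    intro h0
    have : Nontrivial (Fin D.m) := ⟨j', _, hj⟩
    have h1 := hG.ck _ _ hne κ u hC (by rw [h0, adjugate_zero])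
    have h2 := T.sl.fr_off (some l) u ∅ hN (by simp) (by simp)
    simp only [Finset.card_empty] at h2
    omega
  have hnz : ¬((∀ s, AA F hm l i u s ⬝ᵥ (u ∘ c3 hm i) = 0) ∧
      ∀ s, qd (BB F hm l i u s) (u ∘ c3 hm i) = 0) := by
    rintro ⟨h1, h2⟩
    apply hM
    ext p x
    have := T.pi.ab_eq hG.hom hm l i u (p.cast hm) x
    rw [h1, h2, ite_self] at this
    exact this
  obtain ⟨q1, q2, q3, q4⟩ := (hTQ κ).2.2 (AA F hm l i u) (BB F hm l i u)
  have hcub : cub (CC F hm l i u) (u ∘ c3 hm i) = 0 := by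
    rw [CC, q1]
    have r0 := hrow 0
    have r1 := hrow 1
    rcases hz with h | h <;> rw [h] at r0 r1
    · linear_combination AA F hm l i u 0 ⬝ᵥ (u ∘ c3 hm i) * r1 -
        AA F hm l i u 1 ⬝ᵥ (u ∘ c3 hm i) * r0
    · linear_combination qd (BB F hm l i u 1) (u ∘ c3 hm i) * r0 -
        qd (BB F hm l i u 0) (u ∘ c3 hm i) * r1
  have hmem : ∀ k : IntermediateField ℂ κ, (∀ a ∈ bs l i, u a ∈ k) →
      (∀ s e, AA F hm l i u s e ∈ k) ∧ (∀ a b e, CC F hm l i u a b e ∈ k) ∧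
        ((∀ e, u (c3 hm i e) ∈ k) → ∀ a ∈ off (some l), u a ∈ k) := by
    intro k hk
    have hA : ∀ s e, AA F hm l i u s e ∈ k := fun s e => T.pi.mem k (bs l i) u _ hk fun u' hu =>
      congrFun (congrFun (T.pi.ab_agr hG.hom hm l i u u' hu).1 s) e
    have hB : ∀ s e e', BB F hm l i u s e e' ∈ k := fun s e e' =>
      k.smul_mem (T.pi.mem k (bs l i) u _ hk fun u' hu => smul_right_injective κ (by norm_num)
        (congrFun (congrFun (congrFun (T.pi.ab_agr hG.hom hm l i u u' hu).2 s) e) e'))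
    refine ⟨hA, fun a b e => sub_mem (mul_mem (hA _ _) (hB _ _ _)) (mul_mem (hA _ _) (hB _ _ _)),
      fun hw a ha => ?_⟩
    have ha' : ∀ s, AA F hm l i u s ⬝ᵥ (u ∘ c3 hm i) ∈ k := fun s =>
      sum_mem fun e _ => mul_mem (hA s e) (hw e)
    have hq' : ∀ s, qd (BB F hm l i u s) (u ∘ c3 hm i) ∈ k := fun s =>
      sum_mem fun e _ => sum_mem fun e' _ => mul_mem (mul_mem (hB s e e') (hw e)) (hw e')
    have hzz : u (.inl (jj i)) ∈ k ∧ u (.inl j') ∈ k := by
      rcases hz with h | h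
      · exact ⟨h ▸ k.one_mem, one_mem k (fun s => by simpa [h] using hrow s) hnz ha' hq'⟩
      · exact ⟨one_mem k (fun s => by simpa [h, add_comm] using hrow s) (fun h => hnz h.symm) hq' ha',
          h ▸ k.one_mem⟩
    by_cases h1 : sl a = some i.1
    · obtain ⟨e, rfl⟩ := T.sl.c3_surj hm i a h1
      exact hw e
    rcases a with x | x
    · rcases hall x with rfl | rfl
      · exact hzz.1
      · exact hzz.2
    · exact hk _ (Finset.mem_filter.2 ⟨Finset.mem_univ _, by simp [sl],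
        (Finset.mem_filter.1 ha).2, h1⟩)
  have hS : (u '' bs l i).Finite := (bs l i).finite_toSet.image u
  have hbig : ∀ S : Set κ, S.Finite → u '' bs l i ⊆ S → D.dm - 1 ≤ rk (S ∪ range (u ∘ c3 hm i)) := by
    intro S hf hs
    refine hr.trans (T.rk.le (hf.union (finite_range _)) ?_)
    rintro _ ⟨a, ha, rfl⟩
    exact (hmem (acl (S ∪ range (u ∘ c3 hm i))) fun a ha =>
      G3.subset_acl _ (Or.inl (hs ⟨a, ha, rfl⟩))).2.2
        (fun e => G3.subset_acl _ (Or.inr ⟨e, rfl⟩)) a ha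
  have hw : ∃ r, (u ∘ c3 hm i) r = 1 := by
    obtain ⟨a, ha, h1⟩ := hN (some i.1)
    obtain ⟨e, rfl⟩ := T.sl.c3_surj hm i a ha
    exact ⟨e, h1⟩
  have hfr := T.sl.fr_bs l i u hN
  have hB : ¬rk (u '' bs l i) + 2 ≤ fr u (bs l i) := by
    intro h
    rcases (((hLN κ _ _ hS hw).2 (CC F hm l i u)
      (hmem _ fun a ha => G3.subset_acl _ (mem_image_of_mem u ha)).2.1 hcub).1) with h1 | h1
    · have := hbig _ hS subset_rfl
      omega
    · obtain ⟨r, hr1⟩ := hw
      obtain ⟨b, hb⟩ := ex_line hr1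
      obtain ⟨g, g0, g1, -, g2⟩ := hG.io1 hm l i κ u hC.1 _ _ (h1 _ _ hb)
      have hf := hS.union (finite_range g)
      have h2 := (hLN κ _ _ hf ⟨r, hr1⟩).1 g g0 (fun e => G3.subset_acl _ (Or.inr ⟨e, rfl⟩)) g1
      have := hbig _ hf subset_union_left
      omega
  have hnl : ∀ a b, ¬Ln (CC F hm l i u) a b := by
    intro a b hL
    obtain ⟨g, -, -, -, g2⟩ := hG.io1 hm l i κ u hC.1 _ _ hL
    have := T.rk.mono (hS.union (finite_range g)) subset_union_left
    exact hB (by omega)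
  have hp : pp F hm l i u ≠ 0 := fun h => by
    obtain ⟨a, b, hL⟩ := q4 h
    exact hnl a b hL
  refine ⟨hcub, hnl, hp, fun h => hB ?_, hM, hmem⟩
  obtain ⟨x1, x0⟩ := indep hp (q3.symm.trans h)
  exact hG.io2 hm l i κ u hC.1 _ hp
    (Fin.forall_fin_two.2 ⟨dot_self_cross _ _, dot_cross_self _ _⟩) (Fin.forall_fin_two.2 ⟨x0, x1⟩)

end Pool.Agent.Lib.CI
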