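import Pool.Agent.Lib.CI.BlueB

open MvPolynomial Set Matrix WithZero Pool.Agent.Lib.MP_e39d36_ag Pool.Agent.Lib.MP_e39d36_ag.Var
  Pool.Agent.Lib.MP_cc3443_ag Pool.Agent.Lib.MV Pool.Agent.Lib.MV.End Pool.Agent.Lib.MV.Fb
  Pool.Agent.Lib.DU

set_option linter.unusedSectionVars false
set_option linter.unusedVariables false

noncomputable section

namespace Pool.Agent.Lib.CI

open Pool.Agent.Lib.CI.Dat
open Pool.Agent.Lib.MV.G3 (acl Ov)

namespace IOG2

theorem other : ∀ n : ℕ, n = 2 → ∀ k : Fin n, ∃ j, j ≠ k ∧ ∀ j', j' = k ∨ j' = j := by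
  rintro _ rfl
  decide

/-- A two by two matrix of norm one with a primitive kernel vector. -/
theorem rows {Ω : Type} [Field Ω] {v : Valuation Ω ℤᵐ⁰} {a b : Fin 2 → Ω} {y z : Ω}
    (h : ∀ s, b s * z + a s * y = 0) (ha : ∀ s, v (a s) ≤ 1) (hb : ∀ s, v (b s) ≤ 1)
    (hy : v y ≤ 1) (hz : v z ≤ 1) (h1 : z = 1 ∨ y = 1) (h2 : ∃ s, v (b s) = 1 ∨ v (a s) = 1) :
    v z = max (v (a 1)) (v (a 0)) := by
  have e : ∀ s, v (b s) * v z = v (a s) * v y := fun s => by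
    rw [← map_mul, ← map_mul, eq_neg_of_add_eq_zero_left (h s), Valuation.map_neg]
  have hm : ∀ s, v (a s) ≤ max (v (a 1)) (v (a 0)) := fun s => by
    fin_cases s
    exacts [le_max_right _ _, le_max_left _ _]
  obtain ⟨s, hs⟩ := h2
  rcases h1 with rfl | rfl
  · simp only [map_one, mul_one] at e ⊢
    refine le_antisymm (le_trans ?_ (hm s)) (max_le (ha _) (ha _))
    rcases hs with hs | hs
    · rw [← hs, e]; exact mul_le_of_le_one_right' hy
    · exact hs.ge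
  · simp only [map_one, mul_one] at e
    have e2 : ∀ s, v (a s) ≤ v z := fun s => by rw [← e]; exact mul_le_of_le_one_left' (hb s)
    refine le_antisymm (le_trans ?_ (hm s)) (max_le (e2 _) (e2 _))
    rcases hs with hs | hs
    · rw [← e, hs, one_mul]
    · exact hs ▸ hz

end IOG2

theorem st_IOG2 (T : Tools) (h1 : St_IOG1) (h2 : St_TQ) : St_IOG2 := by
  intro D F hF hm l i Ω _ _ v hv u hc hn hi
  obtain ⟨κ, _, _, ⟨R⟩⟩ := T.red.ex hv
  obtain ⟨-, r1, r2, -, -, -, -, -, -, r3⟩ := T.mp.red F R u hn.1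
  obtain ⟨r3, r4, r5, r6⟩ := r3 hm l i
  have hfin : (u '' off (some l)).Finite := (Finset.finite_toSet _).image _
  have hint : ∀ z ∈ u '' off (some l), v z ≤ 1 := by rintro _ ⟨a, -, rfl⟩; exact hn.1 a
  have k1 := (T.red.ind R hfin hint).1 hi
  obtain ⟨g0, -⟩ := h1 D F hF hm l i Ω u hc hn.2 (k1.trans (T.red.rk_le R hfin hint))
  rw [← Set.image_comp] at k1
  obtain ⟨-, g1, g2, g3, g4, -⟩ := h1 D F hF hm l i κ (R.r ∘ u)
    ⟨fun σ => (r1 hn.2 σ).imp fun a ha => ⟨ha.1, ha.2 ▸ one_ne_zero⟩, r2 _ hc.2⟩ (r1 hn.2) k1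
  have hA : ∀ s, nm v (AA F hm l i u s) ≤ 1 := fun s => nm_le.2 (r3 s)
  have hp : ∀ e, v (pp F hm l i u e) ≤ 1 := nm_le.1 (cross_le_one (hA 0) (hA 1))
  have e1 : R.r ∘ pp F hm l i u = pp F hm l i (R.r ∘ u) := by
    rw [pp, pp, r5, r5]
    exact (T.red.cub R _ _ _ r4 (r3 0) (r3 1)).2.2.1
  have n1 : nm v (pp F hm l i u) = 1 := (T.red.nm R _ hp).1 (e1 ▸ g2)
  refine ⟨g0, ⟨r4, fun a b ha hb hab c1 c2 c3 c4 => ?_⟩, n1, ?_, ?_⟩
  · have q1 := T.red.cub R _ a b r4 (nm_le.1 ha) (nm_le.1 hb)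
    have q2 := T.red.cub R _ b a r4 (nm_le.1 hb) (nm_le.1 ha)
    refine g1 (R.r ∘ a) (R.r ∘ b) ?_
    rw [r6]
    refine ⟨?_, ?_, ?_, ?_, ?_⟩
    · rw [← q1.2.2.1]
      exact (T.red.nm R _ (nm_le.1 hab.le)).2 hab
    · rw [← q1.1]; exact (R.zero _ c1.le).2 c1
    · rw [← q1.2.1]; exact (R.zero _ c2.le).2 c2
    · rw [← q2.2.1]; exact (R.zero _ c3.le).2 c3
    · rw [← q2.1]; exact (R.zero _ c4.le).2 c4
  · refine (T.red.nm R _ (grad_mem (B := v.valuationSubring) r4 hp)).1 ?_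
    rw [(T.red.cub R _ _ _ r4 hp hp).2.2.2.1, e1, ← r6]
    exact g3
  · have n2 : nm v (u ∘ c3 hm i) = 1 := by
      refine le_antisymm (nm_le.2 fun e => hn.1 _) ?_
      obtain ⟨a, ha, ha1⟩ := hn.2 (some i.1)
      obtain ⟨e, rfl⟩ := T.sl.c3_surj hm i a ha
      have := le_nm (v := v) (u ∘ c3 hm i) e
      rwa [Function.comp_apply, ha1, map_one] at this
    rw [ds_prim n2 n1, pp, cross_cross3, sub_eq_add_neg, ← neg_smul, nm_comb (hA 0) (hA 1) n1,
      Valuation.map_neg, dotProduct_comm, dotProduct_comm (u ∘ c3 hm i)]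
    obtain ⟨j, hj, hall⟩ := IOG2.other _ hm (jj i)
    have hM : ∀ p q, v (Mx F (some l) none u p q) ≤ 1 ∧
        R.r (Mx F (some l) none u p q) = Mx F (some l) none (R.r ∘ u) p q :=
      fun p q => T.red.aev R u hn.1 _
    have hj' : ∀ s : Fin 2, Mx F (some l) none u (s.cast hm.symm) j =
        AA F hm l i u s ⬝ᵥ (u ∘ c3 hm i) := fun s => by
      rw [T.pi.ab_eq hF.hom hm l i, if_neg hj]
    refine IOG2.rows (a := fun s => AA F hm l i u s ⬝ᵥ (u ∘ c3 hm i))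
      (b := fun s => Mx F (some l) none u (s.cast hm.symm) (jj i)) (y := u (.inl j))
      (fun s => ?_) (fun s => ?_) (fun s => (hM _ _).1) (hn.1 _) (hn.1 _) ?_ ?_
    · have := congrFun (T.pi.mx_mul hF.hom (some l) none u (by simp)) (s.cast hm.symm)
      rw [hc.2, mulVec, dotProduct, Fintype.sum_eq_add (jj i) j hj.symm (fun x hx => by
        rcases hall x with h | h
        exacts [absurd h hx.1, absurd h hx.2])] at this
      simpa only [hj', Function.comp_apply, co] using this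
    · simpa only [← hj'] using (hM _ _).1
    · obtain ⟨a, ha, ha1⟩ := hn.2 none
      obtain ⟨p, rfl⟩ := T.sl.co_surj none a ha
      rcases hall p with rfl | rfl
      exacts [Or.inl ha1, Or.inr ha1]
    · obtain ⟨p, hp⟩ := Function.ne_iff.1 g4
      obtain ⟨q, hq⟩ := Function.ne_iff.1 hp
      have e2 := ((T.red.one R).2.2.1 _ (hM p q).1).1 (by rw [(hM p q).2]; exact hq)
      refine ⟨p.cast hm, ?_⟩
      simp only [← hj']
      rcases hall q with rfl | rfl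
      exacts [Or.inl e2, Or.inr e2]

end Pool.Agent.Lib.CI
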