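import Pool.Agent.Lib.CI.BlueB
import Pool.Agent.Lib.MV.F_INVO
import Pool.Agent.Lib.MV.F_LN
import Pool.Agent.Lib.MV.F_QUAD

open MvPolynomial Set Matrix WithZero Pool.Agent.Lib.MP_e39d36_ag Pool.Agent.Lib.MP_e39d36_ag.Var
  Pool.Agent.Lib.MP_cc3443_ag Pool.Agent.Lib.MV Pool.Agent.Lib.MV.End Pool.Agent.Lib.MV.Fb
  Pool.Agent.Lib.DU

set_option linter.unusedSectionVars false
set_option linter.unusedVariables false

noncomputable section

namespace Pool.Agent.Lib.CI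

open Pool.Agent.Lib.CI.Dat
open Pool.Agent.Lib.MV.G3 (acl Ov)

namespace IOX

variable {D : Dat} {F : D.Fm} {K : Type} [Field K] [Algebra ℂ K]

lemma agr (T : Tools) (hF : D.Hom F) (hm : D.m = 2) (l : D.I0) (i : D.I1) {u u' : D.Vr → K}
    (h : ∀ a ∈ bs l i, u' a = u a) :
    CC F hm l i u' = CC F hm l i u ∧ pp F hm l i u' = pp F hm l i u := by
  obtain ⟨h1, h2⟩ := T.pi.ab_agr hF hm l i u u' h
  unfold CC pp
  rw [h1, h2]
  exact ⟨rfl, rfl⟩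

/-- The involution for a normalised configuration. -/
lemma core (T : Tools) (h1 : St_IOG1) (h2 : St_IOG2) (hTQ : St_TQ) (hG : Gen F) (hm : D.m = 2)
    (l : D.I0) (i : D.I1) (u : D.Vr → K) (hc : Cfg F (some l) u) (hN : N1 u)
    (h0 : u (c3 hm i 0) = 1) (hr : D.dm ≤ rk (u '' off (some l)))
    (hg : IntermediateField.adjoin ℂ (u '' off (some l)) = ⊤) :
    ∃ (σ : K ≃ₐ[ℂ] K) (mv : Fin 3 → K) (a : K), (∀ z, σ (σ z) = z) ∧ (∀ b ∈ bs l i, σ (u b) = u b) ∧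
      cmap σ (CC F hm l i u) = CC F hm l i u ∧ σ ∘ pp F hm l i u = pp F hm l i u ∧
      σ ∘ tq (CC F hm l i u) (pp F hm l i u) mv = tq (CC F hm l i u) (pp F hm l i u) mv ∧
      mv ⬝ᵥ pp F hm l i u = 1 ∧ a ≠ 0 ∧ σ ∘ (u ∘ c3 hm i) =
        a • thd (CC F hm l i u) (tq (CC F hm l i u) (pp F hm l i u) mv) (u ∘ c3 hm i) ∧
      (u ∘ c3 hm i) ⨯₃ tq (CC F hm l i u) (pp F hm l i u) mv ≠ 0 ∧
      (u ∘ c3 hm i) ⨯₃ pp F hm l i u ≠ 0 := by
  classical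
  obtain ⟨t1, t2, t3, -, t5⟩ := T.red.triv K
  obtain ⟨g1, g2, g3, g4, -, g6⟩ := h1 D F hG hm l i K u hc hN (by omega)
  obtain ⟨-, v2, v3, v4, -⟩ := h2 D F hG hm l i K (tv K) t1 u hc ⟨fun a => t2 _, hN⟩
    ((t5 _ _ (Set.toFinite _)).2 (by omega))
  let k := IntermediateField.adjoin ℂ (u '' bs l i)
  have hk : ∀ a ∈ bs l i, u a ∈ k := fun a ha =>
    IntermediateField.subset_adjoin _ _ ⟨a, ha, rfl⟩
  have rg : ∀ {z : K}, z ∈ k → z ∈ (algebraMap k K).range := fun h => ⟨⟨_, h⟩, rfl⟩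
  obtain ⟨mA, mC, -⟩ := g6 k hk
  have mp : ∀ e, pp F hm l i u e ∈ k := cross_mem (mA 0) (mA 1)
  have G : Fb.Gen (k := k) (CC F hm l i u) (u ∘ c3 hm i) := by
    refine ⟨fun a b e => rg (mC a b e), h0, g1, ?_, ?_,
      fun a b e1 e2 e3 e4 e5 => g2 a b ⟨e1, e2, e3, e4, e5⟩⟩
    · have h3 := (g6 ((IntermediateField.adjoin k (range (u ∘ c3 hm i))).restrictScalars ℂ)
        fun a ha => (IntermediateField.adjoin k _).algebraMap_mem ⟨_, hk a ha⟩).2.2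
          fun e => IntermediateField.subset_adjoin k _ ⟨e, rfl⟩
      have h4 : IntermediateField.adjoin ℂ (u '' off (some l)) ≤
          (IntermediateField.adjoin k (range (u ∘ c3 hm i))).restrictScalars ℂ := by
        rw [IntermediateField.adjoin_le_iff]
        rintro _ ⟨a, ha, rfl⟩
        exact h3 a ha
      rw [hg] at h4
      exact eq_top_iff.2 fun z _ => h4 IntermediateField.mem_top
    · by_contra hn
      have h3 : rk (u '' off (some l)) ≤ rk (u '' bs l i) :=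
        T.rk.le (Set.toFinite _) fun z _ =>
          mem_algebraicClosure_iff.2 (not_not.1 fun h => hn ⟨z, h⟩)
      have h4 := T.rk.le_fr u (bs l i)
      have h5 := T.sl.fr_bs l i u hN
      omega
  obtain ⟨e, he⟩ := Function.ne_iff.1 g3
  have he' : pp F hm l i u e ≠ 0 := he
  have hmp : (Pi.single e (pp F hm l i u e)⁻¹ : Fin 3 → K) ⬝ᵥ pp F hm l i u = 1 := by
    rw [single_dotProduct, inv_mul_cancel₀ he']
  have mm : ∀ e', (Pi.single e (pp F hm l i u e)⁻¹ : Fin 3 → K) e' ∈ k := fun e' => by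
    rw [Pi.single_apply]
    split_ifs
    exacts [inv_mem (mp e), zero_mem _]
  have c0 : cub (CC F hm l i u) (pp F hm l i u) = 0 := ((hTQ K).2.2 _ _).2.1
  have mq := tq_mem mC mp mm
  have n1 := v2.ns_tq v3 (nm_le.2 fun _ => t2 _) hmp c0 v4
  obtain ⟨w1, σ, s1, a, ha, s2⟩ := st_invo st_ln st_quad st_irr k K _ _ _ G (fun e => rg (mq e))
    (cub_tq c0) (fun e => by rw [e, nm_eq_zero.2 rfl] at n1; exact zero_ne_one n1)
  obtain ⟨w2, -⟩ := st_invo st_ln st_quad st_irr k K _ _ _ G (fun e => rg (mp e)) c0 g4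
  have fx : ∀ z ∈ k, σ z = z := fun z hz => σ.commutes ⟨z, hz⟩
  exact ⟨σ.restrictScalars ℂ, _, a, s1, fun b hb => fx _ (hk b hb),
    funext fun a => funext fun b => funext fun e => fx _ (mC a b e), funext fun e => fx _ (mp e),
    funext fun e => fx _ (mq e), hmp, ha, s2, w1, w2⟩

lemma cross_ne (σ : K ≃ₐ[ℂ] K) {w q : Fin 3 → K} (hq : σ ∘ q = q) (h : w ⨯₃ q ≠ 0) :
    (σ ∘ w) ⨯₃ q ≠ 0 := by
  intro e
  rw [← hq, ← map_cross σ] at e
  exact h (funext fun j => σ.injective ((congrFun e j).trans (map_zero σ).symm))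

end IOX

open IOX in
theorem st_IOX (T : Tools) (hL : St_LEV) (h1 : St_IOG1) (h2 : St_IOG2) (hTQ : St_TQ) :
    St_IOX := by
  intro D F hG hm K _ _ M l i u lam hu
  obtain ⟨b1, b2, -⟩ := (hL D F hG K M l).2 u lam hu
  obtain ⟨t1, t2, -, -, t5⟩ := T.red.triv K
  obtain ⟨a0, ha0, hz⟩ := hu.2.nz none
  obtain ⟨j, rfl⟩ : ∃ j, a0 = .inl j := by
    rcases a0 with j | a
    · exact ⟨j, rfl⟩
    · simp [sl] at ha0
  let ρ : D.Sl → K := fun σ => σ.elim (u (.inl j))⁻¹ fun _ => 1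
  have hρ : ∀ σ, ρ σ ≠ 0 := by
    rintro (_ | s)
    exacts [inv_ne_zero hz, one_ne_zero]
  have e1 : ∀ a, sc ρ u (.inr a) = u (.inr a) := fun a => (T.sc.sc_inr ρ u a).trans (one_mul _)
  have hN : N1 (sc ρ u) := by
    rintro (_ | s)
    · refine ⟨.inl j, rfl, ?_⟩
      rw [T.sc.sc_inl]
      simp [ρ, inv_mul_cancel₀ hz]
    · exact ⟨.inr ⟨s, 0⟩, rfl, by rw [e1, hu.1, M.one]⟩
  have e2 : ∀ a ∈ bs l i, sc ρ u a = u a := by
    rintro (a | a) ha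
    · exact absurd rfl (Finset.mem_filter.1 ha).2.1
    · exact e1 a
  have e3 : sc ρ u ∘ c3 hm i = u ∘ c3 hm i := funext fun e => e1 _
  have hc : Cfg F (some l) u := ⟨hu.2.nz, hu.2.e2⟩
  obtain ⟨σ, mv, a, s1, s2, s3, s4, s5, s6, s7, s8, s9, s10⟩ := core T h1 h2 hTQ hG hm l i (sc ρ u)
    ⟨(T.sc.nz ρ u hρ).2 hc.1, (T.sc.eqs hG.hom _ ρ u hρ).2 hc.2⟩ hN
    ((e1 _).trans ((hu.1 _).trans (M.one i.1)))
    ((t5 _ _ (Set.toFinite _)).1 ((T.nrm.big_iff t1 _ u ρ _ hρ ⟨fun _ => t2 _, hN⟩).1 b1))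
    ((T.nrm.gt_iff _ u ρ hρ hN).1 b2)
  obtain ⟨e4, e5⟩ := agr T hG.hom hm l i e2
  rw [e4] at s3 s5 s8 s9
  rw [e5] at s4 s5 s6 s8 s9 s10
  rw [e3] at s8 s9 s10
  have s2' : ∀ b ∈ bs l i, (σ ∘ u) b = u b := fun b hb => by
    rw [Function.comp_apply, ← e2 b hb, s2 b hb]
  obtain ⟨-, m2, -, m4, -⟩ := T.mp.map F (σ : K →ₐ[ℂ] K) u
  have hc' : Cfg F (some l) (σ ∘ u) := ⟨m2.2 hc.1, (m4 _).2 hc.2⟩
  obtain ⟨e6, e7⟩ := agr T hG.hom hm l i s2'
  refine ⟨σ, mv, a, σ a, ⟨hc, hc', s2', s6, s7, s8, s9, s10⟩, hc', hc,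
    fun b hb => (s2' b hb).symm, e7.symm ▸ s6, (map_ne_zero σ).2 s7, ?_, ?_, ?_⟩
  · rw [e6, e7]
    have h3 := map_thd σ (c := CC F hm l i u) (P := tq (CC F hm l i u) (pp F hm l i u) mv)
      (x := u ∘ c3 hm i)
    rw [s3, s5] at h3
    funext e
    have h4 := congrArg σ (congrFun s8 e)
    rw [Function.comp_apply, s1, Pi.smul_apply, smul_eq_mul, map_mul] at h4
    exact h4.trans (congrArg (σ a * ·) (congrFun h3 e))
  · rw [e6, e7]
    exact cross_ne σ s5 s9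
  · rw [e7]
    exact cross_ne σ s4 s10

end Pool.Agent.Lib.CI
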