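import Pool.Agent.Lib.CI.BlueB

open MvPolynomial Set Matrix WithZero Pool.Agent.Lib.MV Pool.Agent.Lib.MV.End
  Pool.Agent.Lib.MV.Fb

set_option linter.unusedSectionVars false
set_option linter.unusedVariables false

noncomputable section

namespace Pool.Agent.Lib.CI

open Pool.Agent.Lib.CI.Dat

namespace IVAL

variable {D : Dat} {Ω : Type} [Field Ω] [Algebra ℂ Ω] {v : Valuation Ω ℤᵐ⁰}

lemma lg_mul {x y : Ω} (hx : x ≠ 0) (hy : y ≠ 0) : log (v (x * y)) = log (v x) + log (v y) := by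
  rw [map_mul, log_mul ((Valuation.ne_zero_iff v).2 hx) ((Valuation.ne_zero_iff v).2 hy)]

lemma lg_pow (x : Ω) (n : ℕ) : log (v (x ^ n)) = n * log (v x) := by
  rw [map_pow, log_pow, nsmul_eq_mul]

lemma nu_eq (T : Tools) {ρ : D.Sl → Ω} {u : D.Vr → Ω} (hu : NZ u) (hρ : ∀ σ, ρ σ ≠ 0)
    (hN : Nm v (sc ρ u)) (σ : D.Sl) : nu v u σ = -log (v (ρ σ)) := by
  have h1 := T.nrm.nu_sc v ρ u hu hρ σ
  rw [T.nrm.nu_nw v _ (T.nrm.nw hN) σ] at h1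
  omega

lemma ld_eq (T : Tools) {ρ : D.Sl → Ω} {u : D.Vr → Ω} (hu : NZ u) (hρ : ∀ σ, ρ σ ≠ 0)
    (hN : Nm v (sc ρ u)) {j : Fin D.m} (hj : u (.inl j) ≠ 0) :
    ld v u j = -log (v (sc ρ u (.inl j))) := by
  have h1 : sc ρ u (.inl j) = u (.inl j) * chi ρ (Dat.wt (.inl j)) := rfl
  rw [h1, lg_mul hj (T.sc.chi_add ρ _ 0 hρ).2, T.sc.log_chi v ρ _ hρ, Fintype.sum_option, ld]
  simp only [nu_eq T hu hρ hN, Dat.wt, mul_neg, neg_mul, Finset.sum_neg_distrib]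
  ring

lemma lg_wc (T : Tools) {ρ : D.Sl → Ω} (hρ : ∀ σ, ρ σ ≠ 0) (γ : D.Λ) :
    log (v (chi ρ (wc 0 γ))) = ∑ s, γ s * log (v (ρ (some s))) := by
  rw [T.sc.log_chi v ρ _ hρ, Fintype.sum_option]
  simp [wc]

lemma sc_c3 (T : Tools) (ρ : D.Sl → Ω) (u : D.Vr → Ω) (hm : D.m = 2) (i : D.I1) :
    sc ρ u ∘ c3 hm i = ρ (some i.1) • (u ∘ c3 hm i) :=
  funext fun e => T.sc.sc_inr ρ u _

lemma cross_smul (s t : Ω) (x y : Fin 3 → Ω) : (s • x) ⨯₃ (t • y) = (s * t) • x ⨯₃ y := by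
  simp only [map_smul, LinearMap.smul_apply, smul_smul, mul_comm]

end IVAL

open IVAL in
theorem st_IVAL (T : Tools) (hN : St_IVN) (hQ : St_TQ) : St_IVAL := by
  intro D F hF hm l i Ω _ _ v hv u u' mv a h hB
  obtain ⟨ρ, hρ, n1, hI⟩ := hB
  obtain ⟨ρ', hρ', n2, hs, -⟩ := T.nrm.ex' v u u' ρ h.c2.1 hρ n1
  obtain ⟨eA, eC⟩ := T.sc.ab hF.hom hm l i ρ u hρ
  have lA := lg_wc (v := v) T hρ (alp l i)
  have lC := lg_wc (v := v) T hρ (kap l i)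
  have hA := (T.sc.chi_add ρ (wc 0 (alp l i)) 0 hρ).2
  have hC := (T.sc.chi_add ρ (wc 0 (kap l i)) 0 hρ).2
  generalize chi ρ (wc 0 (alp l i)) = A at *
  generalize chi ρ (wc 0 (kap l i)) = C at *
  have hi := hρ (some i.1)
  have hi' := hρ' (some i.1)
  have ha := h.ne
  have hA2 : A * A ≠ 0 := mul_ne_zero hA hA
  have eP : pp F hm l i (sc ρ u) = (A * A) • pp F hm l i u := by
    rw [pp, pp, eA]
    exact cross_smul _ _ _ _
  have eq := (hQ Ω).2.1 (CC F hm l i u) (pp F hm l i u) mv C _ hA2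
  have key : Io F hm l i (sc ρ u) (sc ρ' u') ((A * A)⁻¹ • mv)
      (ρ' (some i.1) * a / (C * ((C ^ 4 * (A * A) ^ 4) ^ 2 * ρ (some i.1) ^ 2))) := by
    refine ⟨⟨(T.sc.nz ρ u hρ).2 h.c1.1, (T.sc.eqs hF.hom _ ρ u hρ).2 h.c1.2⟩,
      ⟨(T.sc.nz ρ' u' hρ').2 h.c2.1, (T.sc.eqs hF.hom _ ρ' u' hρ').2 h.c2.2⟩, ?_, ?_,
      by positivity, ?_, ?_, ?_⟩
    · rintro (j | b) hb
      · exact ((Finset.mem_filter.1 hb).2.1 rfl).elim
      · rw [T.sc.sc_inr, T.sc.sc_inr, h.eq _ hb,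
          hs b.1 fun p => h.eq _ (Finset.mem_filter.2 ⟨Finset.mem_univ _,
            (Finset.mem_filter.1 hb).2⟩)]
    · rw [eP, smul_dotProduct, dotProduct_smul, h.mp, smul_smul, inv_mul_cancel₀ hA2, one_smul]
    · rw [eP, eC, eq, sc_c3 T, sc_c3 T, h.th, thd_csmul, thd_smul, smul_smul, smul_smul, smul_smul]
      refine congrArg (· • _) ?_
      field_simp
    · rw [eP, eC, eq, sc_c3 T, cross_smul]
      exact smul_ne_zero (by positivity) h.wq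
    · rw [eP, sc_c3 T, cross_smul]
      exact smul_ne_zero (by positivity) h.wp
  obtain ⟨a1, a2, a3, a4⟩ := hN D F hF hm l i Ω v hv _ _ _ _ key n1 n2 hI
  rw [eP, eC, sc_c3 T, pol_csmul, pol_smul] at a4
  generalize pol (CC F hm l i u) (pp F hm l i u) (u ∘ c3 hm i) = y at *
  have a5 : v (sc ρ u (.inl (jj i))) ≠ 0 := (Valuation.ne_zero_iff v).2 a2
  have hy : y ≠ 0 := by
    rintro rfl
    exact pow_ne_zero 6 a5 (by rw [← a4]; simp)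
  have b1 : u (.inl (jj i)) ≠ 0 := fun e => a2 ((T.sc.sc_zero ρ u _ hρ).2 e)
  have b2 : u' (.inl (jj i)) ≠ 0 := fun e =>
    a5 (by rw [← a3, (T.sc.sc_zero ρ' u' _ hρ').2 e, map_zero])
  have l1 := ld_eq T h.c1.1 hρ n1 b1
  refine ⟨⟨ρ', hρ', n2, a1⟩, hy, b2, by rw [l1, ld_eq T h.c2.1 hρ' n2 b2, a3], ?_⟩
  have e1 : ρ' (some i.1) * a / (C * ((C ^ 4 * (A * A) ^ 4) ^ 2 * ρ (some i.1) ^ 2)) *
      (C * ((A * A) ^ 2 * ρ (some i.1) * y)) ^ 3 * (C ^ 6 * A ^ 4)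
      = ρ' (some i.1) * (ρ (some i.1) * (a * y ^ 3)) := by
    field_simp
  have e2 := congrArg (fun z => log (v z)) e1
  rw [lg_mul (by positivity) (by positivity), a4, log_pow, lg_mul (by positivity) (by positivity),
    lg_pow, lg_pow, lg_mul hi' (by positivity), lg_mul hi (by positivity), lA, lC] at e2
  simp only [nu_eq T h.c1.1 hρ n1, nu_eq T h.c2.1 hρ' n2, Pi.sub_apply, Pi.add_apply,
    Pi.smul_apply, smul_eq_mul, mul_neg, sub_mul, add_mul, mul_assoc, Finset.sum_neg_distrib,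
    Finset.sum_sub_distrib, Finset.sum_add_distrib, ← Finset.mul_sum, Pi.single_apply, ite_mul,
    one_mul, zero_mul, Finset.sum_ite_eq', Finset.mem_univ, if_true]
  rw [l1]
  simp only [nsmul_eq_mul, Nat.cast_ofNat] at e2
  omega

end Pool.Agent.Lib.CI
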