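import Pool.Agent.Lib.CI.BlueB

open MvPolynomial Set Matrix WithZero Pool.Agent.Lib.MP_e39d36_ag Pool.Agent.Lib.MP_e39d36_ag.Var
  Pool.Agent.Lib.MP_cc3443_ag Pool.Agent.Lib.MV Pool.Agent.Lib.MV.End Pool.Agent.Lib.MV.Fb
  Pool.Agent.Lib.DU

set_option linter.unusedSectionVars false
set_option linter.unusedVariables false

noncomputable section

namespace Pool.Agent.Lib.CI

open Pool.Agent.Lib.CI.Dat
open Pool.Agent.Lib.MV.G3 (acl Ov)

namespace IVN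

variable {κ : Type} [Field κ] [Algebra ℂ κ]

lemma mem_of_cross {k : IntermediateField ℂ κ} {x y : Fin 3 → κ} (hx : ∃ r, x r = 1) (y0 : y ≠ 0)
    (hy : ∀ e, y e ∈ k) (h : x ⨯₃ y = 0) (e : Fin 3) : x e ∈ k := by
  obtain ⟨a, rfl⟩ := eq_smul_of_cross y0 h
  obtain ⟨r, hr⟩ := hx
  have ha : a = (y r)⁻¹ := eq_inv_of_mul_eq_one_left hr
  exact mul_mem (ha ▸ inv_mem (hy r)) (hy e)

lemma tq_in (hTQ : St_TQ) {k : IntermediateField ℂ κ} {c : Cf κ} {p m : Fin 3 → κ}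
    (hc : ∀ a b e, c a b e ∈ k) (hp : ∀ e, p e ∈ k) (hmp : m ⬝ᵥ p = 1) (cp : cub c p = 0)
    (e : Fin 3) : tq c p m e ∈ k := by
  obtain ⟨r, hr⟩ : ∃ r, p r ≠ 0 := by
    by_contra! h
    rw [show p = 0 from funext h, dotProduct_zero] at hmp
    exact zero_ne_one hmp
  rw [(hTQ κ).1 c p m (Pi.single r (p r)⁻¹) cp hmp
    (by rw [single_dotProduct, inv_mul_cancel₀ hr])]
  refine tq_mem hc hp (fun j => ?_) e
  rw [Pi.single_apply]
  split_ifs
  · exact inv_mem (hp r)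
  · exact zero_mem k

lemma core (hLNA : St_LNA) {S : Set κ} (hS : S.Finite) {c : Cf κ} {p q w w' : Fin 3 → κ} {a : κ}
    (hc : ∀ a b e, c a b e ∈ acl S) (hp : ∀ e, p e ∈ acl S) (hq : ∀ e, q e ∈ acl S) (p0 : p ≠ 0)
    (cw : cub c w = 0) (nl : ∀ a b, ¬Ln c a b) (g0 : grad c q ≠ 0) (w1 : ∃ r, w r = 1)
    (w2 : ∃ r, w' r = 1) (hw : ¬∀ e, w e ∈ acl S) (wq : w ⨯₃ q ≠ 0) (a0 : a ≠ 0)
    (th : w' = a • thd c q w) : (∀ e, w e ∈ acl (S ∪ range w')) ∧ w' ⨯₃ p ≠ 0 := by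
  have le : acl S ≤ acl (S ∪ range w') := G3.acl_mono subset_union_left
  have hw' : ∀ e, w' e ∈ acl (S ∪ range w') := fun e =>
    G3.subset_acl _ (Or.inr (mem_range_self e))
  have L := (((hLNA κ (S ∪ range w') w (hS.union (finite_range _)) w1).2 c
    (fun a b e => le (hc a b e)) cw).2 nl)
  have e1 : w' ⨯₃ q = (a * -pol c q w) • (w ⨯₃ q) := by
    rw [th, map_smul, LinearMap.smul_apply, thd_cross, smul_smul]
  have h1 : ∀ e, w e ∈ acl (S ∪ range w') := by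
    by_cases h : w' ⨯₃ q = 0
    · refine L (grad c q) g0 (grad_mem (fun a b e => le (hc a b e)) fun e => le (hq e)) ?_
      rw [e1, smul_eq_zero, or_iff_left wq, mul_eq_zero, or_iff_right a0, neg_eq_zero] at h
      rw [← pol_eq_dot, h]
    · refine L _ h (cross_mem hw' fun e => le (hq e)) ?_
      rw [e1, smul_dotProduct, dotProduct_comm, dot_self_cross, smul_zero]
  refine ⟨h1, fun h => hw fun e => ?_⟩
  refine G3.acl_le (union_subset (G3.subset_acl S) ?_) (h1 e)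
  rintro _ ⟨e, rfl⟩
  exact mem_of_cross w2 p0 hp h e

lemma one_c3 (T : Tools) {D : Dat} (hm : D.m = 2) (i : D.I1) {u : D.Vr → κ} (h : N1 u) :
    ∃ r, (u ∘ c3 hm i) r = 1 := by
  obtain ⟨a, h1, h2⟩ := h (some i.1)
  obtain ⟨e, rfl⟩ := T.sl.c3_surj hm i a h1
  exact ⟨e, h2⟩

lemma bs_off {D : Dat} {l : D.I0} {i : D.I1} {a : D.Vr} (h : a ∈ bs l i) : a ∈ off (some l) :=
  Finset.mem_filter.2 ⟨Finset.mem_univ _, (Finset.mem_filter.1 h).2.2.1⟩

lemma c3_off (T : Tools) {D : Dat} (hm : D.m = 2) (l : D.I0) (i : D.I1) (e : Fin 3) :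
    c3 hm i e ∈ off (some l) :=
  Finset.mem_filter.2 ⟨Finset.mem_univ _, by
    rw [c3, T.sl.sl_cw]; exact (T.sl.ts_ne (some l) i).symm⟩

end IVN

open IVN in
theorem st_IVN (T : Tools) (h1 : St_IOG1) (h2 : St_IOG2) (hTQ : St_TQ) (hLNA : St_LNA)
    (_h5 : St_FLX) (_h6 : St_F2) : St_IVN := by
  intro D F hG hm l i Ω _ _ v hv u u' mv a io nu nu' ind
  obtain ⟨eA, eB⟩ := T.pi.ab_agr hG.hom hm l i u u' io.eq
  have eC : CC F hm l i u' = CC F hm l i u := by rw [CC, eA, eB, CC]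
  have eP : pp F hm l i u' = pp F hm l i u := by rw [pp, eA, pp]
  obtain ⟨cw, G, np, ng, vz⟩ := h2 D F hG hm l i Ω v hv u io.c1 nu ind
  have cp : cub (CC F hm l i u) (pp F hm l i u) = 0 := ((hTQ Ω).2.2 _ _).2.1
  obtain ⟨m, m1, mp⟩ := exists_dual np
  have eq : tq (CC F hm l i u) (pp F hm l i u) mv = tq (CC F hm l i u) (pp F hm l i u) m :=
    (hTQ Ω).1 _ _ _ _ cp io.mp mp
  have th := io.th
  have wq := io.wq
  have wp := io.wp
  rw [eq] at th wq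
  have nq := G.nm_tq np m1 mp cp ng
  have gq := G.ns_tq np m1 mp cp ng
  have nw := (T.nrm.nu_co v u (T.nrm.nw nu)).2.2 hm i
  have nw' := (T.nrm.nu_co v u' (T.nrm.nw nu')).2.2 hm i
  have hA := G.A (cub_tq (m := m) cp) cw wq
  have hC := G.C np m1 mp cp ng (left_ne wp) cw
  rw [nw, nq, one_pow, mul_one, mul_one] at hA
  rw [nw, mul_one] at hC
  have va := nw'
  rw [th, nm_smul, hA] at va
  obtain ⟨κ, _, _, ⟨R⟩⟩ := T.red.ex hv
  have fin : ∀ (x : D.Vr → Ω) (A : Finset D.Vr), (x '' A).Finite := fun x A =>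
    A.finite_toSet.image x
  have fin' : ∀ (x : D.Vr → κ) (A : Finset D.Vr), (x '' A).Finite := fun x A =>
    A.finite_toSet.image x
  have int : ∀ {x : D.Vr → Ω}, Nm v x → ∀ A : Finset D.Vr, ∀ z ∈ x '' A, v z ≤ 1 := by
    rintro x hx A _ ⟨b, -, rfl⟩
    exact hx.1 b
  have r1 := (T.red.ind R (fin u _) (int nu _)).1 ind
  have key : IndV v (u' '' off (some l)) (D.dm - 1) ∧
      ds v (u' ∘ c3 hm i) (pp F hm l i u) = ds v (u ∘ c3 hm i) (pp F hm l i u) := by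
    rw [T.red.ind R (fin u' _) (int nu' _), ← image_comp]
    have sub : (R.r ∘ u) '' bs l i ⊆ (R.r ∘ u') '' off (some l) := by
      rintro _ ⟨b, hb, rfl⟩
      exact ⟨b, bs_off hb, congrArg R.r (io.eq b hb)⟩
    by_cases hk : D.dm - 1 ≤ rk ((R.r ∘ u) '' bs l i)
    · refine ⟨hk.trans (T.rk.mono (fin' _ _) sub), ?_⟩
      rw [th, ds_smul_left io.ne]
      refine G.D np m1 mp cp ng cw wp wq (or_iff_not_imp_right.2 fun h0 => ?_)
      obtain ⟨-, -, -, -, -, hm1⟩ := h1 D F hG hm l i Ω u io.c1 nu.2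
        (r1.trans (T.red.rk_le R (fin u _) (int nu _)))
      obtain ⟨a1, a2, -⟩ := hm1 (acl (u '' bs l i)) fun b hb => G3.subset_acl _ ⟨b, hb, rfl⟩
      have a3 : ∀ e, pp F hm l i u e ∈ acl (u '' bs l i) := cross_mem (a1 0) (a1 1)
      have a4 := cross_mem (tq_in hTQ a2 a3 mp cp) a3
      have a5 := T.rk.le_fr u (bs l i)
      have a6 := T.sl.fr_bs l i u nu.2
      obtain ⟨e, he⟩ := exists_nm (v := v) (tq (CC F hm l i u) (pp F hm l i u) m ⨯₃ pp F hm l i u)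
      rw [ds_prim nq np, he]
      refine T.red.abh R (fin u _) (int nu _) (by rw [← image_comp]; omega) _ (a4 e) fun h => ?_
      rw [h, map_zero] at he
      exact nm_ne h0 he
    · obtain ⟨b1, b2, b3, -, -, -, -, -, -, b4⟩ := T.mp.red F R u nu.1
      obtain ⟨b5, b6, b7, b8⟩ := b4 hm l i
      rw [← image_comp] at r1
      obtain ⟨cw', nl, p0, -, -, hm1⟩ := h1 D F hG hm l i κ (R.r ∘ u)
        ⟨b1.1 (T.nrm.nw nu), b3 _ io.c1.2⟩ (b2 nu.2) r1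
      have eP' : pp F hm l i (R.r ∘ u) = R.r ∘ pp F hm l i u := by
        rw [pp, b7, b7, pp, (T.red.cub R _ _ _ b6 (b5 0) (b5 1)).2.2.1]
      obtain ⟨a1, a2, a7⟩ := hm1 (acl ((R.r ∘ u) '' bs l i)) fun b hb =>
        G3.subset_acl _ ⟨b, hb, rfl⟩
      have a3 : ∀ e, pp F hm l i (R.r ∘ u) e ∈ acl ((R.r ∘ u) '' bs l i) :=
        cross_mem (a1 0) (a1 1)
      have hw : ¬∀ e, ((R.r ∘ u) ∘ c3 hm i) e ∈ acl ((R.r ∘ u) '' bs l i) := fun h => hk
        (r1.trans (T.rk.le (fin' _ _) (by rintro _ ⟨b, hb, rfl⟩; exact a7 h b hb)))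
      have ip := nm_le.1 np.le
      have im := nm_le.1 m1
      have iq := nm_le.1 nq.le
      have iw := nm_le.1 nw.le
      have iw' := nm_le.1 nw'.le
      have cp' : cub (CC F hm l i (R.r ∘ u)) (pp F hm l i (R.r ∘ u)) = 0 :=
        ((hTQ κ).2.2 _ _).2.1
      have mp' : (R.r ∘ m) ⬝ᵥ pp F hm l i (R.r ∘ u) = 1 := by
        rw [eP', ← (T.red.dot R m _ im ip).2, mp, (T.red.one R).2.1]
      have a4 := tq_in hTQ a2 a3 mp' cp'
      rw [eP', b8, ← (T.red.cub R _ _ _ b6 ip im).2.2.2.2.2] at a4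
      have w1 := one_c3 T hm i (b2 nu.2)
      have w2 := one_c3 T hm i ((T.mp.red F R u' nu'.1).2.1 nu'.2)
      have q0 := (T.red.nm R _ iq).2 nq
      have d1 : ∀ {x y : Fin 3 → Ω}, nm v x = 1 → nm v y = 1 → (R.r ∘ x) ⨯₃ (R.r ∘ y) ≠ 0 →
          ds v x y = 1 := fun {x y} hx hy h => by
        rw [ds_prim hx hy, ← T.red.nm R _ (nm_le.1 (cross_le_one hx.le hy.le)),
          (T.red.cub R _ _ _ b6 (nm_le.1 hx.le) (nm_le.1 hy.le)).2.2.1]
        exact h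
      have wp' : ((R.r ∘ u) ∘ c3 hm i) ⨯₃ pp F hm l i (R.r ∘ u) ≠ 0 := fun h =>
        hw (mem_of_cross w1 p0 a3 h)
      have wq' := fun h => hw (mem_of_cross w1 q0 a4 h)
      have d2 := d1 nw nq wq'
      rw [d2, one_pow, mul_one] at va
      rw [d2, one_pow] at hA
      have th' : (R.r ∘ u') ∘ c3 hm i = R.r a • thd (CC F hm l i (R.r ∘ u))
          (R.r ∘ tq (CC F hm l i u) (pp F hm l i u) m) ((R.r ∘ u) ∘ c3 hm i) := by
        rw [b8, Function.comp_assoc, Function.comp_assoc, th,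
          ← (T.red.cub R _ _ _ b6 iq iw).2.2.2.2.1]
        funext e
        exact R.mul _ _ va.le (nm_le.1 hA.le e)
      have g0 : grad (CC F hm l i (R.r ∘ u))
          (R.r ∘ tq (CC F hm l i u) (pp F hm l i u) m) ≠ 0 := by
        rw [b8, ← (T.red.cub R _ _ _ b6 iq iq).2.2.2.1]
        exact (T.red.nm R _ (nm_le.1 gq.le)).2 gq
      obtain ⟨k1, k2⟩ := core hLNA (fin' _ _) a2 a3 a4 p0 cw' nl g0 w1 w2 hw wq'
        (((T.red.one R).2.2.1 a va.le).2 va) th'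
      rw [eP'] at k2 wp'
      refine ⟨r1.trans (T.rk.le (fin' _ _) ?_), (d1 nw' np k2).trans (d1 nw np wp').symm⟩
      rintro _ ⟨b, hb, rfl⟩
      refine G3.acl_mono (union_subset sub ?_) ((hm1 _ fun b hb =>
        G3.subset_acl _ (Or.inl ⟨b, hb, rfl⟩)).2.2 k1 b hb)
      rintro _ ⟨e, rfl⟩
      exact ⟨_, c3_off T hm l i e, rfl⟩
  obtain ⟨-, -, -, -, vz'⟩ := h2 D F hG hm l i Ω v hv u' io.c2 nu' key.1
  refine ⟨key.1, fun h => ds_ne (v := v) wp (by rw [← vz, h, map_zero]),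
    by rw [vz', eP, key.2, vz], ?_⟩
  rw [map_mul, map_pow, hC, vz, mul_pow, mul_left_comm, va, mul_one, ← pow_mul]

end Pool.Agent.Lib.CI
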