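import Pool.Agent.Lib.CI.BlueA

/-! Linear algebra: adjugates and maximal minors. -/

open Matrix

namespace Pool.Agent.Lib.CI

namespace LA

variable {κ : Type} [Field κ] {n : ℕ}

theorem prop {ι ι' : Type} [Fintype ι'] {M : Matrix ι ι' κ} {x w : ι' → κ} (hx : M *ᵥ x = 0)
    (hw : M *ᵥ w = 0) (h : ∀ v q, v ≠ 0 → M *ᵥ v = 0 → v q = 0 → x q = 0) {r : ι'} (hr : w r ≠ 0)
    (q : ι') : w r * x q = x r * w q := by
  have k : ∀ a b : κ, M *ᵥ (a • x - b • w) = 0 := fun a b => by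
    rw [mulVec_sub, mulVec_smul, mulVec_smul, hx, hw, smul_zero, smul_zero, sub_zero]
  by_contra hne
  have h1 := h _ r (fun e => hne (sub_eq_zero.1 (congrFun e q))) (k (w r) (x r)) (by simp [mul_comm])
  rw [h1, zero_mul] at hne
  have h2 := right_ne_zero_of_mul hne
  exact h2 (h _ q (fun e => mul_ne_zero h2 hr (by simpa [h1] using congrFun e r)) (k (w q) (x q))
    (by simp [mul_comm]))

theorem upd {ι ι' : Type} [Fintype ι'] [DecidableEq ι] [DecidableEq ι'] (A : Matrix ι ι' κ) (j : ι)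
    (p : ι') (w : ι' → κ) :
    A.updateRow j (Pi.single p 1) *ᵥ w = 0 ↔ w p = 0 ∧ ∀ j', j' ≠ j → A j' ⬝ᵥ w = 0 := by
  refine ⟨fun h => ⟨by simpa [mulVec] using congrFun h j, fun j' hj => by
    simpa [mulVec, hj] using congrFun h j'⟩, fun h => funext fun j' => ?_⟩
  by_cases hj : j' = j
  · simpa [mulVec, hj] using h.1
  · simpa [mulVec, hj] using h.2 j' hj

theorem adj_zero {M : Matrix (Fin n) (Fin n) κ} (p : Fin n) (v : Fin n → κ) (q : Fin n) (h0 : v ≠ 0)
    (h : M *ᵥ v = 0) (hq : v q = 0) : M.adjugate q p = 0 := by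
  rw [adjugate_apply]
  exact exists_mulVec_eq_zero_iff.1 ⟨v, h0, (upd M p q v).2 ⟨hq, fun j _ => congrFun h j⟩⟩

theorem adj_col {M : Matrix (Fin n) (Fin n) κ} {w : Fin n → κ} (h : M *ᵥ w = 0) {r : Fin n}
    (hr : w r ≠ 0) (p q : Fin n) : w r * M.adjugate q p = M.adjugate r p * w q := by
  refine prop (x := fun q => M.adjugate q p) (funext fun i => ?_) h (adj_zero p) hr q
  have h1 := congrFun (congrFun (mul_adjugate M) i) p
  rwa [exists_mulVec_eq_zero_iff.1 ⟨w, fun e => hr (congrFun e r), h⟩, zero_smul] at h1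

variable (A : Matrix (Fin n) (Fin (n + 1)) κ)

theorem xp_dot (y : Fin (n + 1) → κ) : y ⬝ᵥ xp A = (of (Fin.cons y A)).det := by
  rw [det_succ_row_zero]
  exact Finset.sum_congr rfl fun q _ => by
    rw [xp, mul_left_comm, mul_assoc]
    rfl

theorem xp_zero (q : Fin (n + 1)) : xp A q = 0 ↔ ∃ w, w ≠ 0 ∧ w q = 0 ∧ A *ᵥ w = 0 := by
  rw [← one_mul (xp A q), ← single_dotProduct, xp_dot, ← exists_mulVec_eq_zero_iff]
  refine exists_congr fun w => and_congr_right fun _ => ?_
  rw [funext_iff, funext_iff, Fin.forall_fin_succ]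
  refine and_congr ?_ Iff.rfl
  change Pi.single q 1 ⬝ᵥ w = 0 ↔ _
  rw [single_dotProduct, one_mul]

theorem xp_mul : A *ᵥ xp A = 0 := funext fun i =>
  (xp_dot A (A i)).trans (det_zero_of_row_eq (Fin.succ_ne_zero i) rfl)

theorem exk : ∃ w, w ≠ 0 ∧ A *ᵥ w = 0 := by
  by_cases h : xp A 0 = 0
  · obtain ⟨w, a, -, b⟩ := (xp_zero A 0).1 h
    exact ⟨w, a, b⟩
  · exact ⟨_, fun e => h (congrFun e 0), xp_mul A⟩

theorem xp_left : xp A = 0 ↔ ∃ l, l ≠ 0 ∧ l ᵥ* A = 0 := by
  have e : ∀ q, xp A q = 0 ↔ ∃ l, l ≠ 0 ∧ ∀ i, (l ᵥ* A) (q.succAbove i) = 0 := fun q => by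
    rw [xp, mul_eq_zero, or_iff_right (pow_ne_zero _ (neg_ne_zero.2 one_ne_zero)),
      ← exists_vecMul_eq_zero_iff]
    exact exists_congr fun l => and_congr_right fun _ => funext_iff
  refine ⟨fun h => ?_, fun ⟨l, a, b⟩ => funext fun q => (e q).2 ⟨l, a, fun i => congrFun b _⟩⟩
  obtain ⟨w, a, b⟩ := exk A
  obtain ⟨q, hq⟩ := Function.ne_iff.1 a
  obtain ⟨l, c, d⟩ := (e q).1 (congrFun h q)
  have h1 := dotProduct_mulVec l A w
  rw [b, dotProduct_zero, dotProduct, Fin.sum_univ_succAbove _ q] at h1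
  simp only [d, zero_mul, Finset.sum_const_zero, add_zero] at h1
  exact ⟨l, c, funext (q.forall_iff_succAbove.2 ⟨(mul_eq_zero.1 h1.symm).resolve_right hq, d⟩)⟩

theorem xp_eq (w : Fin (n + 1) → κ) (h0 : w ≠ 0) (h : A *ᵥ w = 0) : ∃ t : κ, ∀ q, t * w q = xp A q := by
  obtain ⟨r, hr⟩ := Function.ne_iff.1 h0
  refine ⟨xp A r / w r, fun q => ?_⟩
  rw [div_mul_eq_mul_div, ← prop (xp_mul A) h (fun v q a b c => (xp_zero A q).2 ⟨v, a, c, b⟩) hr q,
    mul_div_cancel_left₀ _ hr]

theorem par {u v : Fin (n + 1) → κ} (h : xp A ≠ 0) (hu : A *ᵥ u = 0) (hv : A *ᵥ v = 0) (h0 : v ≠ 0)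
    (p q : Fin (n + 1)) : u p * v q = u q * v p := by
  rcases eq_or_ne u 0 with rfl | h1
  · simp
  obtain ⟨t, ht⟩ := xp_eq A u h1 hu
  obtain ⟨s, hs⟩ := xp_eq A v h0 hv
  have t0 : t ≠ 0 := fun e => h (funext fun q => by simp [← ht, e])
  have s0 : s ≠ 0 := fun e => h (funext fun q => by simp [← hs, e])
  refine mul_left_cancel₀ (mul_ne_zero t0 s0) ?_
  linear_combination s * v q * ht p + xp A p * hs q - s * v p * ht q - xp A q * hs p

theorem anti (j : Fin n) (p q : Fin (n + 1)) :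
    xp (A.updateRow j (Pi.single p 1)) q = -xp (A.updateRow j (Pi.single q 1)) p := by
  have e : ∀ (α : Fin (n + 1) → κ) (f : Fin n → Fin (n + 1)),
      (A.updateRow j α).submatrix id f = (A.submatrix id f).updateRow j (α ∘ f) := fun α f => by
    ext a b
    simp only [submatrix_apply, id, updateRow_apply, Function.comp]
  have add : ∀ α β, xp (A.updateRow j (α + β)) = xp (A.updateRow j α) + xp (A.updateRow j β) :=
    fun α β => funext fun r => by
      simp only [Pi.add_apply, xp, e, Pi.add_comp, det_updateRow_add, mul_add]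
  have alt : ∀ α, α ⬝ᵥ xp (A.updateRow j α) = 0 := fun α => by
    simpa [mulVec] using congrFun (xp_mul (A.updateRow j α)) j
  have h1 := alt (Pi.single p 1 + Pi.single q 1)
  rw [add, add_dotProduct, dotProduct_add, dotProduct_add, alt, alt, single_dotProduct,
    single_dotProduct] at h1
  linear_combination h1

theorem xp2 (j : Fin n) (w b : Fin (n + 1) → κ) (r : Fin (n + 1)) (hw : w r ≠ 0) (hb : b r = 0)
    (b0 : b ≠ 0) (h : ∀ j', j' ≠ j → A j' ⬝ᵥ w = 0 ∧ A j' ⬝ᵥ b = 0) :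
    ∃ μ : κ, ∀ p, xp (A.updateRow j (Pi.single p 1)) = μ • (w p • b - b p • w) := by
  by_cases h0 : xp (A.updateRow j (Pi.single r 1)) = 0
  · obtain ⟨l, a, c⟩ := (xp_left _).1 h0
    have h1 := dotProduct_mulVec l (A.updateRow j (Pi.single r 1)) w
    rw [c, zero_dotProduct, dotProduct, Finset.sum_eq_single j (fun i _ hi => by
      simp [mulVec, hi, (h i hi).1]) (by simp)] at h1
    have h2 : l j = 0 := by simpa [mulVec, hw] using h1
    refine ⟨0, fun p => ((xp_left _).2 ⟨l, a, Eq.trans (funext fun q => ?_) c⟩).trans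
      (zero_smul _ _).symm⟩
    simp only [vecMul, dotProduct]
    exact Finset.sum_congr rfl fun i _ => by by_cases hi : i = j <;> simp [hi, h2]
  have kb := (upd A j r b).2 ⟨hb, fun i hi => (h i hi).2⟩
  obtain ⟨t, ht⟩ := xp_eq _ b b0 kb
  obtain ⟨q, hq⟩ := Function.ne_iff.1 b0
  let D := fun p => xp (A.updateRow j (Pi.single p 1)) - (t / w r) • (w p • b - b p • w)
  have d1 : ∀ p p', D p p' = -D p' p := fun p p' => by
    simp only [D, Pi.sub_apply, Pi.smul_apply, smul_eq_mul, anti A j p p']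
    ring
  have d2 : ∀ p, D p p = 0 := fun p => by
    simp only [D, Pi.sub_apply, Pi.smul_apply, smul_eq_mul, ((upd A j p _).1 (xp_mul _)).1]
    ring
  have d3 : ∀ p p', D p p' * b q = D p q * b p' := fun p p' => par _ h0 ((upd A j r _).2 ⟨by
      rw [d1]
      simp only [D, Pi.sub_apply, Pi.smul_apply, smul_eq_mul, ← ht, hb]
      field_simp
      ring, fun i hi => by
      simp [D, ((upd A j p _).1 (xp_mul _)).2 i hi, h i hi]⟩) kb b0 p' q
  have d4 : ∀ p, D q p = 0 := fun p =>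
    (mul_eq_zero.1 ((d3 q p).trans (by rw [d2, zero_mul]))).resolve_right hq
  exact ⟨t / w r, fun p => sub_eq_zero.1 (funext fun p' => (mul_eq_zero.1 ((d3 p p').trans
    (by rw [d1, d4, neg_zero, zero_mul]))).resolve_right hq)⟩

end LA

open LA in
theorem st_LA : St_LA where
  ker2 M p h := by
    have h1 := congrFun (congrFun (mul_adjugate M) p) p
    obtain ⟨l, a, b⟩ := exists_vecMul_eq_zero_iff.2 (show M.det = 0 by simpa [h] using h1.symm)
    obtain ⟨i, hi⟩ := Function.ne_iff.1 a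
    have h2 := congrFun (congrFun h p) i
    rw [adjugate_apply] at h2
    obtain ⟨w, c, d⟩ := exists_mulVec_eq_zero_iff.2 h2
    obtain ⟨e, f⟩ := (upd M i p w).1 d
    have h3 := dotProduct_mulVec l M w
    rw [b, zero_dotProduct, dotProduct, Finset.sum_eq_single i (fun j _ hj => by
      simp [mulVec, f j hj]) (by simp)] at h3
    refine ⟨w, c, e, funext fun j => ?_⟩
    by_cases hj : j = i
    · exact hj ▸ (mul_eq_zero.1 h3).resolve_left hi
    · exact f j hj
  left M w a b := exists_vecMul_eq_zero_iff.2 (exists_mulVec_eq_zero_iff.1 ⟨w, a, b⟩)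
  adj M w l a b c d := by
    obtain ⟨r, hr⟩ := Function.ne_iff.1 a
    obtain ⟨s, hs⟩ := Function.ne_iff.1 b
    refine ⟨M.adjugate r s / (w r * l s), fun p q => ?_⟩
    have h1 := adj_col c hr p q
    have h2 := adj_col ((mulVec_transpose M l).trans d) hs r p
    rw [← adjugate_transpose, transpose_apply, transpose_apply] at h2
    have : w r ≠ 0 := hr
    have : l s ≠ 0 := hs
    field_simp
    linear_combination l s * h1 + w q * h2
  adj_sm M a b p q := by
    rw [adjugate_apply, adjugate_apply, mul_comm, ← det_updateRow_smul, mul_assoc (∏ p, a p),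
      ← det_mul_row, ← det_mul_column]
    refine congrArg det (Matrix.ext fun i j => ?_)
    by_cases hi : i = p <;> by_cases hj : j = q <;> simp [hi, hj, mul_assoc]
  xp_mul := xp_mul
  xp_left := xp_left
  xp_ker A p h := (xp_zero A p).1 (congrFun h p)
  xp_eq := xp_eq
  xp_sm A a := funext fun q => by
    rw [Pi.smul_apply, smul_eq_mul, xp, xp, mul_left_comm, ← det_mul_column]
    rfl
  line A j p := by
    obtain ⟨w, a, b⟩ := exk (A.updateRow j (Pi.single p 1))
    exact ⟨w, a, (upd A j p w).1 b⟩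
  xp2 := xp2
  xp3 A j p q h := by
    obtain ⟨w, a, b, c⟩ := (xp_zero _ q).1 (congrFun (h p) q)
    exact ⟨w, a, ((upd A j p w).1 c).1, b, ((upd A j p w).1 c).2⟩

end Pool.Agent.Lib.CI
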