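import Pool.Agent.Lib.CI.LDefs

/-! The lattice theorem from its blocks. -/

open Set Submodule
open scoped NNReal

noncomputable section

namespace Pool.Agent.Lib.CI

open Dat

namespace LAT

variable {D : Dat}

lemma fin_GG (l : D.I0) (o : Option (Fin D.m)) : (GG l o).Finite := by
  refine (((finite_range (Lam l)).union
    (finite_range fun s : Fin D.k => (Pi.single s 1 : D.Λ))).union
    (finite_range fun i : D.I1 => if D.m = 2 then (8 : ℤ) • om l i else tcl l i)).subset ?_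
  rintro γ (⟨j, -, rfl⟩ | ⟨s, -, rfl⟩ | ⟨i, -, rfl⟩)
  · exact Or.inl (Or.inl ⟨j, rfl⟩)
  · exact Or.inl (Or.inr ⟨s, rfl⟩)
  · exact Or.inr ⟨i, rfl⟩

lemma mem_orth {y : D.V} (h : 0 ≤ y) :
    y ∈ span ℝ≥0 (cst '' range fun s : Fin D.k => (Pi.single s 1 : D.Λ)) := by
  have e : y = ∑ s, (⟨y s, h s⟩ : ℝ≥0) • cst (Pi.single s 1 : D.Λ) := by
    funext t
    simp [cst, Pi.single_apply]
  rw [e]
  exact sum_mem fun s _ => smul_mem _ _ (subset_span ⟨_, ⟨s, rfl⟩, rfl⟩)

end LAT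

open LAT in
theorem st_LAT (hFARK : St_FARK) (hFG : St_FG) (hRED3 : St_RED3) (hRED2 : St_RED2)
    (hHT2 : St_HT2) (hHT1 : St_HT1) : St_LAT := by
  intro D G
  choose S h1 h2 h3 using fun l : D.I0 => hFG D.k (Option {j // ∃ E, G.on l j E})
    (fun a => GG l (a.map Subtype.val)) fun a => fin_GG l _
  refine ⟨(range fun s : Fin D.k => (Pi.single s 1 : D.Λ)) ∪ ⋃ l, S l,
    (finite_range _).union (finite_iUnion h1), ?_, fun x hx => ?_⟩
  · rintro γ (⟨s, rfl⟩ | hγ)
    · exact G.fr_mov _ fun E => G.fr_h E s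
    · obtain ⟨l, hl⟩ := mem_iUnion.1 hγ
      refine G.fr_mov _ fun E => ?_
      by_cases hE : ∃ j, G.on l j E
      · obtain ⟨j, hj⟩ := hE
        exact AddSubmonoid.closure_le.2 (G.fr_G' l j E hj) (h2 l γ hl (some ⟨j, E, hj⟩))
      · exact AddSubmonoid.closure_le.2 (G.fr_G l E fun j hj => hE ⟨j, hj⟩) (h2 l γ hl none)
  · obtain ⟨T, hT, h⟩ : ∃ T ∈ G.Γ, 0 ≤ T x ∨ ∃ l, EndL l (T x) := by
      by_cases hs : ∃ s, D.m < D.n s
      · exact hHT2 D G hs x hx.2
      · exact hHT1 D G (fun s => not_lt.1 fun h => hs ⟨s, h⟩) x hx.2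
    refine ⟨T⁻¹, G.Γ.inv_mem hT, T x, ?_, (T.symm_apply_apply x).symm⟩
    rcases h with h | ⟨l, hl⟩
    · exact span_mono (image_mono subset_union_left) (mem_orth h)
    · refine span_mono (image_mono ((subset_iUnion S l).trans subset_union_right))
        (h3 l _ fun a => hFARK D.k _ (fin_GG l _) _ ?_)
      have hv : ∀ f, Valid l (a.map Subtype.val) f → 0 ≤ pr f (T x) := by
        cases a with
        | none => exact fun f hf => G.pos.ineq l f hf _ (G.Γ_eff T hT x hx.2)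
        | some j => exact fun f hf => G.ineq' l j.1 f hf j.2 _ (G.Γ_mov T hT x hx.1)
      rcases D.two_le_m.eq_or_lt with hm | hm
      · exact hRED2 D hm.symm l _ _ hl hv
      · exact hRED3 D hm l _ _ hl hv

end Pool.Agent.Lib.CI
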