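import Pool.Agent.Lib.CI.BlueA

open MvPolynomial Set Matrix WithZero Pool.Agent.Lib.MP_e39d36_ag Pool.Agent.Lib.MP_e39d36_ag.Var
  Pool.Agent.Lib.MP_cc3443_ag Pool.Agent.Lib.MV Pool.Agent.Lib.MV.End Pool.Agent.Lib.MV.Fb
  Pool.Agent.Lib.DU

set_option linter.unusedSectionVars false
set_option linter.unusedVariables false

noncomputable section

namespace Pool.Agent.Lib.CI

open Pool.Agent.Lib.CI.Dat

namespace LDER

/-- Extension of a homomorphism to the field of fractions of a quotient. -/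
lemma ext {A K T : Type} [CommRing A] [Field K] [CommRing T] (φ : A →+* K) (ψ : A →+* T)
    (hk : ∀ a, φ a = 0 → ψ a = 0) (hu : ∀ a, φ a ≠ 0 → IsUnit (ψ a))
    (hf : ∀ w, ∃ a b, φ b ≠ 0 ∧ φ b * w = φ a) : ∃ g : K →+* T, ∀ a, g (φ a) = ψ a := by
  have : IsFractionRing φ.range K := IsFractionRing.of_field _ _ fun w => by
    obtain ⟨a, b, hb, e⟩ := hf w
    exact ⟨⟨_, a, rfl⟩, ⟨_, b, rfl⟩, (eq_div_iff hb).mpr (by rw [mul_comm]; exact e)⟩
  let ψ' : φ.range →+* T := φ.rangeRestrict.liftOfSurjective φ.rangeRestrict_surjective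
    ⟨ψ, fun a ha => hk a (congrArg Subtype.val ha)⟩
  have h1 : ∀ a, ψ' (φ.rangeRestrict a) = ψ a := fun a =>
    φ.rangeRestrict.liftOfRightInverse_comp_apply _ _ _ a
  have h2 : ∀ y : nonZeroDivisors φ.range, IsUnit (ψ' y) := fun y => by
    obtain ⟨a, ha⟩ := φ.rangeRestrict_surjective y
    rw [← ha, h1]
    exact hu a fun h => nonZeroDivisors.ne_zero y.2 (ha ▸ Subtype.ext h)
  exact ⟨IsLocalization.lift h2, fun a => (IsLocalization.lift_eq h2 (φ.rangeRestrict a)).trans (h1 a)⟩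

/-- A derivation with prescribed values on generators of a field. -/
lemma der {σ K : Type} [Fintype σ] [Field K] [Algebra ℂ K] (x δ : σ → K)
    (S : Set (MvPolynomial σ ℂ)) (hS : ∀ P, aeval x P = 0 ↔ P ∈ Ideal.span S)
    (hδ : ∀ P ∈ S, ∑ a, aeval x (pderiv a P) * δ a = 0)
    (hf : ∀ w, ∃ a b : MvPolynomial σ ℂ, aeval x b ≠ 0 ∧ aeval x b * w = aeval x a) :
    ∃ θ : Derivation ℂ K K, ∀ a, θ (x a) = δ a := by
  classical
  let ψ : MvPolynomial σ ℂ →ₐ[ℂ] TrivSqZeroExt K K :=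
    aeval fun a => TrivSqZeroExt.inl (x a) + TrivSqZeroExt.inr (δ a)
  have h1 : ∀ P, (ψ P).fst = aeval x P := fun P =>
    AlgHom.congr_fun (MvPolynomial.algHom_ext (f := (TrivSqZeroExt.fstHom ℂ K K).comp ψ)
      (g := aeval x) fun a => by simp [ψ]) P
  have hX : ∀ a, (ψ (X a)).snd = δ a := fun a => by simp [ψ]
  have hC : ∀ c, (ψ (C c)).snd = 0 := fun c => by simp [ψ, TrivSqZeroExt.algebraMap_eq_inl']
  have h2 : ∀ P, (ψ P).snd = ∑ a, aeval x (pderiv a P) * δ a := fun P => by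
    induction P using MvPolynomial.induction_on with
    | C c => rw [hC]; simp
    | add P Q hP hQ => simp [hP, hQ, add_mul, Finset.sum_add_distrib]
    | mul_X P a hP =>
      rw [map_mul, TrivSqZeroExt.snd_mul, h1, h1, hX, hP]
      simp [mul_add, Finset.sum_add_distrib, Pi.single_apply, Finset.mul_sum,
        apply_ite, mul_comm, mul_left_comm]
  have hk : ∀ P, aeval x P = 0 → ψ P = 0 := fun P hP =>
    (Ideal.span_le (I := RingHom.ker ψ)).mpr (fun Q hQ => TrivSqZeroExt.ext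
      ((h1 Q).trans ((hS Q).mpr (Ideal.subset_span hQ))) ((h2 Q).trans (hδ Q hQ))) ((hS P).mp hP)
  obtain ⟨g, hg⟩ := ext (aeval x : MvPolynomial σ ℂ →ₐ[ℂ] K).toRingHom ψ.toRingHom hk
    (fun P hP => TrivSqZeroExt.isUnit_iff_isUnit_fst.mpr (by
      rw [show (ψ.toRingHom P).fst = aeval x P from h1 P]; exact Ne.isUnit hP)) hf
  replace hg : ∀ P, g (aeval x P) = ψ P := hg
  have h3 : ∀ w, (g w).fst = w := fun w => by
    obtain ⟨a, b, hb, e⟩ := hf w
    have := congrArg (fun z => (g z).fst) e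
    simp only [map_mul, TrivSqZeroExt.fst_mul, hg, h1] at this
    exact mul_left_cancel₀ hb (this.trans e.symm)
  have h4 : ∀ a b, (g (a * b)).snd = a * (g b).snd + b * (g a).snd := fun a b => by
    rw [map_mul, TrivSqZeroExt.snd_mul, h3, h3]
    simp [mul_comm]
  refine ⟨Derivation.mk' ⟨⟨fun w => (g w).snd, fun a b => by simp⟩, fun c w => ?_⟩ h4, fun a => ?_⟩
  · have := hg (C c)
    rw [aeval_C] at this
    simp only [Algebra.smul_def, h4, this, hC, RingHom.id_apply, mul_zero, add_zero]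
  · have := hg (X a)
    rw [aeval_X] at this
    exact (congrArg TrivSqZeroExt.snd this).trans (hX a)

end LDER

theorem st_LDER (T : Tools) : St_LDER := by
  intro D F K _ _ M δ h0 hF
  have hr : D.rat M.x (fun _ => 0) = M.x := funext fun a => by rw [Dat.rat, M.one, _root_.div_one]
  refine LDER.der M.x δ _ (hr ▸ M.hyp.2.2 fun _ => 0) ?_ fun w => ?_
  · rintro P (⟨j, rfl⟩ | ⟨s, rfl⟩)
    · exact hF j
    · simp [Pi.single_apply, apply_ite, h0]
  · obtain ⟨b, hb, hb0, hw⟩ := T.ch.frac M (fun _ => 0) w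
    obtain ⟨P, rfl⟩ := (T.ch.mem_iff _ _ _).mp hb
    obtain ⟨Q, hQ⟩ := (T.ch.mem_iff _ _ _).mp hw
    rw [hr] at hb0 hQ
    exact ⟨Q, P, hb0, hQ.symm⟩

end Pool.Agent.Lib.CI
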