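import Pool.Agent.Lib.CI.SDefs
import Pool.Agent.Lib.MP_e39d36_ag.CG3

open Set Submodule
open scoped NNReal

set_option linter.unusedSectionVars false
set_option linter.unusedVariables false

noncomputable section

namespace Pool.Agent.Lib.CI.Dat

variable (D : Dat)

/-- Factors of dimension `m - 1`. -/
abbrev I0 : Type := {s : Fin D.k // D.n s + 1 = D.m}

/-- Factors of dimension `m`. -/
abbrev I1 : Type := {s : Fin D.k // D.n s = D.m}

lemma two_le_m : 2 ≤ D.m := by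
  obtain ⟨s, hs⟩ := D.small
  have := D.n_pos s
  omega

lemma m_le (s : Fin D.k) : D.m ≤ D.n s + 1 := by
  rw [← D.cy s]
  simpa using Finset.card_nsmul_le_sum Finset.univ (fun j => D.d j s) 1 fun j _ => D.d_pos j s

lemma sum_pred (s : Fin D.k) : ∑ j, (D.d j s - 1) + D.m = D.n s + 1 := by
  rw [← D.cy s, ← Finset.sum_congr rfl fun j _ => Nat.sub_add_cancel (D.d_pos j s),
    Finset.sum_add_distrib]
  simp

variable {D} in
lemma d_I0 (l : D.I0) (j : Fin D.m) : D.d j l.1 = 1 := by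
  have h1 := D.sum_pred l.1
  have h2 := Finset.single_le_sum (f := fun j => D.d j l.1 - 1) (fun _ _ => Nat.zero_le _)
    (Finset.mem_univ j)
  have := l.2
  have := D.d_pos j l.1
  omega

variable {D} in
lemma exists_jj (i : D.I1) : ∃ j, D.d j i.1 = 2 ∧ ∀ j', j' ≠ j → D.d j' i.1 = 1 := by
  have h1 := D.sum_pred i.1
  have h2 := i.2
  obtain ⟨j, -, hj⟩ := Finset.exists_ne_zero_of_sum_ne_zero
    (show ∑ j, (D.d j i.1 - 1) ≠ 0 by omega)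
  have h3 : ∀ j', j' ≠ j → D.d j' i.1 - 1 + (D.d j i.1 - 1) ≤ ∑ j, (D.d j i.1 - 1) := fun j' h => by
    rw [← Finset.sum_pair (f := fun j => D.d j i.1 - 1) h]
    exact Finset.sum_le_sum_of_subset (Finset.subset_univ _)
  have h4 := Finset.single_le_sum (f := fun j => D.d j i.1 - 1) (fun _ _ => Nat.zero_le _)
    (Finset.mem_univ j)
  refine ⟨j, by omega, fun j' h => ?_⟩
  have := h3 j' h
  have := D.d_pos j' i.1
  omega

variable {D} in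
/-- The equation of degree two in a factor of dimension `m`. -/
def jj (i : D.I1) : Fin D.m := (exists_jj i).choose

variable {D} in
lemma d_jj (i : D.I1) : D.d (jj i) i.1 = 2 := (exists_jj i).choose_spec.1

variable {D} in
lemma d_ne_jj (i : D.I1) {j : Fin D.m} (h : j ≠ jj i) : D.d j i.1 = 1 :=
  (exists_jj i).choose_spec.2 j h

/-- The degrees in the factors of dimension at least `m`. -/
def aW (j : Fin D.m) (s : Fin D.k) : ℕ := if D.n s + 1 = D.m then 0 else D.d j s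

/-- Integral classes. -/
abbrev Λ : Type := Fin D.k → ℤ

/-- Real classes. -/
abbrev V : Type := Fin D.k → ℝ

variable {D}

/-- The real class of an integral class. -/
def cst (γ : D.Λ) : D.V := fun s => γ s

/-- The pairing of an integral functional with a real class. -/
def pr (f : D.Λ) (x : D.V) : ℝ := ∑ s, (f s : ℝ) * x s

/-- The sum of the classes of the small factors outside `A`. -/
def hs (A : Finset (Fin D.k)) : D.Λ := fun s => if D.n s + 1 = D.m ∧ s ∉ A then 1 else 0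

/-- The class `a_j`. -/
def aa (j : Fin D.m) : D.Λ := fun s => D.aW j s

/-- The class of the left kernel vector at level `l`. -/
def zeta (l : D.I0) : D.Λ := ∑ j, aa j + ((D.m : ℤ) - 1) • hs {l.1} - Pi.single l.1 1

/-- The class of the coordinate `z_j`. -/
def Lam (l : D.I0) (j : Fin D.m) : D.Λ := zeta l - aa j

/-- The class of the section `t_i`. -/
def tcl (l : D.I0) (i : D.I1) : D.Λ :=
  (D.m : ℤ) • (zeta l + hs {l.1}) - ((D.m : ℤ) + 1) • Pi.single i.1 1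

/-- For two equations, the weight of the plane cubic. -/
def kap (l : D.I0) (i : D.I1) : D.Λ := ∑ j, aa j - (3 : ℤ) • Pi.single i.1 1 + (2 : ℤ) • hs {l.1}

/-- For two equations, the weight of the two linear forms. -/
def alp (l : D.I0) (i : D.I1) : D.Λ := ∑ j, aa j - aa (jj i) - Pi.single i.1 1 + hs {l.1}

/-- For two equations, the class that replaces `t_i`. -/
def om (l : D.I0) (i : D.I1) : D.Λ := Lam l (jj i) + kap l i

/-- The image of `h_l` under the path of three flops. -/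
def hst (l l' : D.I0) : D.Λ := ((D.m : ℤ) - 1) • (zeta l + hs {l.1, l'.1}) - Pi.single l'.1 1

/-- Images of the basis under the path of three flops. -/
def gcol (l l' : D.I0) (s : Fin D.k) : D.Λ :=
  if s = l.1 then hst l l' else if s = l'.1 then
    ∑ j, aa j + ((D.m : ℤ) - 1) • (hst l l' + hs {l.1, l'.1}) - zeta l else Pi.single s 1

/-- Images of the basis under the involution of a factor of dimension `m`. -/
def scol (i : D.I1) (s : Fin D.k) : D.Λ :=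
  if s = i.1 then fun t => if t = i.1 then -1 else 2 * ((D.n t : ℤ) + 1) - D.d (jj i) t
  else Pi.single s 1

/-- The image of `H_i` under the involution of the plane cubic. -/
def iH (l : D.I0) (i : D.I1) : D.Λ :=
  (6 : ℤ) • Lam l (jj i) + (6 : ℤ) • kap l i + (4 : ℤ) • alp l i - Pi.single i.1 1

/-- Images of the basis under the involution of the plane cubic. -/
def icol (l : D.I0) (i : D.I1) (s : Fin D.k) : D.Λ :=
  if s = i.1 then iH l i else if s = l.1 then iH l i + Pi.single l.1 1 - Pi.single i.1 1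
  else Pi.single s 1

/-- The linear map with given images of the basis. -/
def lin (c : Fin D.k → D.Λ) : D.V →ₗ[ℝ] D.V := Fintype.linearCombination ℝ fun s => cst (c s)

/-- Maps that preserve the lattice. -/
def Itg (T : D.V ≃ₗ[ℝ] D.V) : Prop := ∀ γ, ∃ γ', T (cst γ) = cst γ'

lemma Itg.one : Itg (1 : D.V ≃ₗ[ℝ] D.V) := fun γ => ⟨γ, rfl⟩

lemma Itg.mul {T T' : D.V ≃ₗ[ℝ] D.V} (h : Itg T) (h' : Itg T') : Itg (T * T') := fun γ => by
  obtain ⟨γ', e⟩ := h' γ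
  obtain ⟨γ'', e'⟩ := h γ'
  exact ⟨γ'', by rw [← e', ← e]; rfl⟩

lemma lin_apply (c : Fin D.k → D.Λ) (x : D.V) (t : Fin D.k) : lin c x t = ∑ s, x s * c s t := by
  simp [lin, Fintype.linearCombination_apply, cst]

lemma itg_of_lin {T : D.V ≃ₗ[ℝ] D.V} {c : Fin D.k → D.Λ} (h : T.toLinearMap = lin c) : Itg T :=
  fun γ => ⟨fun t => ∑ s, γ s * c s t, funext fun t => by
    have := congrFun (LinearMap.congr_fun h (cst γ)) t
    rw [lin_apply] at this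
    simpa [cst] using this⟩

lemma pr_cst (f γ : D.Λ) : pr f (cst γ) = (f ⬝ᵥ γ : ℤ) := by simp [pr, cst, dotProduct]

/-- Functionals that are degrees on general curves. `o` is the coordinate that vanishes. -/
structure Valid (l : D.I0) (o : Option (Fin D.m)) (f : D.Λ) : Prop where
  z : ∀ j, some j ≠ o → 0 ≤ f ⬝ᵥ Lam l j
  h : ∀ s, s ≠ l.1 → 0 ≤ f s
  t : ∀ i, 0 ≤ f ⬝ᵥ tcl l i
  alt : ((∀ l' : D.I0, l' ≠ l → f l'.1 = 0) ∧ (∃ j, some j ≠ o ∧ f ⬝ᵥ Lam l j = 0) ∧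
      ∀ i : D.I1, f i.1 ≠ 0 → (∃ j, some j ≠ o ∧ j ≠ jj i ∧ f ⬝ᵥ Lam l j = 0) ∨
        ∃ j j', j ≠ j' ∧ some j ≠ o ∧ some j' ≠ o ∧ j ≠ jj i ∧ j' ≠ jj i) ∨
    ∃ i, o = some (jj i) ∧ f ⬝ᵥ tcl l i = 0 ∧ (3 ≤ D.m ∨ ∃ j, j ≠ jj i ∧ f ⬝ᵥ Lam l j = 0)

/-- The inequalities on effective classes. -/
structure Pos (P : Set D.V) : Prop where
  fc : ∀ A : Finset (Fin D.k), D.m < ∑ s ∈ A, D.n s → ∃ α : D.V, 0 ≤ α ∧ α ≠ 0 ∧
    (∀ s, s ∉ A → α s = 0) ∧ ∀ x ∈ P, 0 ≤ α ⬝ᵥ x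
  pair : ∀ (l : D.I0) (i : D.I1), ∀ x ∈ P, 0 ≤ 2 * x l.1 + (2 * (D.m : ℝ) - 1) * x i.1
  ineq : ∀ l f, Valid l none f → ∀ x ∈ P, 0 ≤ pr f x

/-- The generators of the cones at level `l`. -/
def GG (l : D.I0) (o : Option (Fin D.m)) : Set D.Λ :=
  {γ | (∃ j, some j ≠ o ∧ γ = Lam l j) ∨ (∃ s, s ≠ l.1 ∧ γ = Pi.single s 1) ∨
    ∃ i, o = some (jj i) ∧ γ = if D.m = 2 then (8 : ℤ) • om l i else tcl l i}

/-- End states at level `l`. -/
structure EndL (l : D.I0) (x : D.V) : Prop where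
  c : x l.1 ≤ 0
  c' : ∀ l' : D.I0, l' ≠ l → 0 ≤ x l'.1 + ((D.m : ℝ) - 1) * x l.1
  b : ∀ i : D.I1, 0 ≤ x i.1 + ((D.m : ℝ) - 1) * x l.1

variable (D)

/-- The input of the lattice part. -/
structure Geo where
  PD : Type
  Fr : PD → AddSubmonoid D.Λ
  on : D.I0 → Fin D.m → PD → Prop
  Eff : Submodule ℝ≥0 D.V
  Mov : Submodule ℝ≥0 D.V
  Γ : Subgroup (D.V ≃ₗ[ℝ] D.V)
  fr_mov : ∀ γ, (∀ E, γ ∈ Fr E) → cst γ ∈ Mov ⊓ Eff
  fr_h : ∀ E s, Pi.single s 1 ∈ Fr E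
  fr_G : ∀ l E, (∀ j, ¬on l j E) → GG l none ⊆ Fr E
  fr_G' : ∀ l j E, on l j E → GG l (some j) ⊆ Fr E
  eff_gen : ∀ x ∈ Eff, x ∈ span ℝ≥0 {y | y ∈ Eff ∧ ∃ γ, y = cst γ}
  Γ_eff : ∀ T ∈ Γ, ∀ x ∈ Eff, T x ∈ Eff
  Γ_mov : ∀ T ∈ Γ, ∀ x ∈ Mov, T x ∈ Mov
  pos : Pos (Eff : Set D.V)
  ineq' : ∀ l j f, Valid l (some j) f → (∃ E, on l j E) → ∀ x ∈ Mov, 0 ≤ pr f x
  g : ∀ l l', l ≠ l' → ∃ T ∈ Γ, T.toLinearMap = lin (gcol l l')
  σ : ∀ i, ∃ T ∈ Γ, T.toLinearMap = lin (scol i)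
  ι : D.m = 2 → ∀ l i, ∃ T ∈ Γ, T.toLinearMap = lin (icol l i)

end Pool.Agent.Lib.CI.Dat

namespace Pool.Agent.Lib.CI

open Dat

/-- Farkas' lemma with integral functionals. -/
def St_FARK : Prop := ∀ (k : ℕ) (G : Set (Fin k → ℤ)), G.Finite → ∀ x : Fin k → ℝ,
  (∀ f : Fin k → ℤ, (∀ γ ∈ G, 0 ≤ f ⬝ᵥ γ) → 0 ≤ ∑ s, (f s : ℝ) * x s) →
    x ∈ span ℝ≥0 ((fun (γ : Fin k → ℤ) s => (γ s : ℝ)) '' G)

/-- Intersections of rational cones are generated by lattice points. -/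
def St_FG : Prop := ∀ (k : ℕ) (A : Type) [Finite A] [Nonempty A] (G : A → Set (Fin k → ℤ)),
  (∀ a, (G a).Finite) → ∃ S : Set (Fin k → ℤ), S.Finite ∧
    (∀ γ ∈ S, ∀ a, γ ∈ AddSubmonoid.closure (G a)) ∧ ∀ x : Fin k → ℝ,
      (∀ a, x ∈ span ℝ≥0 ((fun (γ : Fin k → ℤ) s => (γ s : ℝ)) '' G a)) →
        x ∈ span ℝ≥0 ((fun (γ : Fin k → ℤ) s => (γ s : ℝ)) '' S)

/-- Reduction of a functional to a valid one, at least three equations. -/
def St_RED3 : Prop := ∀ (D : Dat), 3 ≤ D.m → ∀ (l : D.I0) (o : Option (Fin D.m)) (x : D.V),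
  EndL l x → (∀ f, Valid l o f → 0 ≤ pr f x) → ∀ f : D.Λ, (∀ γ ∈ GG l o, 0 ≤ f ⬝ᵥ γ) → 0 ≤ pr f x

/-- Reduction of a functional to a valid one, two equations. -/
def St_RED2 : Prop := ∀ (D : Dat), D.m = 2 → ∀ (l : D.I0) (o : Option (Fin D.m)) (x : D.V),
  EndL l x → (∀ f, Valid l o f → 0 ≤ pr f x) → ∀ f : D.Λ, (∀ γ ∈ GG l o, 0 ≤ f ⬝ᵥ γ) → 0 ≤ pr f x

/-- Minimal height in an orbit of the integral elements. -/
def St_MIN : Prop := ∀ (D : Dat) (G : D.Geo) (A : Type) [Finite A] [Nonempty A] (h : A → D.Λ),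
  (∀ a, ∀ x ∈ G.Eff, 0 ≤ pr (h a) x) → ∀ x ∈ G.Eff, ∃ T ∈ G.Γ, Itg T ∧ ∃ a,
    ∀ T' ∈ G.Γ, Itg T' → ∀ b, pr (h a) (T x) ≤ pr (h b) (T' x)

/-- The basic inequalities. -/
def St_BAS : Prop := ∀ (D : Dat) (P : Set D.V), Pos P → ∀ x ∈ P,
  (3 ≤ D.m → ∀ (l : D.I0) (i : D.I1), 0 ≤ x i.1 + ((D.m : ℝ) - 1) * x l.1) ∧
  ∀ s, D.m < D.n s → 0 ≤ x s ∧ ∃ A : ℕ, 1 ≤ A ∧ A ≤ D.n s ∧ (∀ j, D.d j s ≤ A) ∧
    (∃ j, D.d j s = A) ∧ ∀ l : D.I0, 0 ≤ x s + ((D.n s : ℝ) + 1 - A) * x l.1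

/-- Coordinates of the moves. -/
def St_CRD : Prop := ∀ (D : Dat) (x : D.V),
  (∀ (i : D.I1) t, lin (scol i) x t =
    if t = i.1 then -x t else x t + (2 * ((D.n t : ℝ) + 1) - D.d (jj i) t) * x i.1) ∧
  (∀ (l l' : D.I0), l ≠ l' → ∀ t, lin (gcol l' l) x t =
    if t = l'.1 then x l.1 - ((D.m : ℝ) - 1) * (x l'.1 + ((D.m : ℝ) - 1) * x l.1)
    else (if t = l.1 then -(x l'.1 + ((D.m : ℝ) - 1) * x l.1)
      else if D.n t + 1 = D.m then x t + ((D.m : ℝ) - 1) * x l.1 +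
        ((D.m : ℝ) - 1) * (x l'.1 + ((D.m : ℝ) - 1) * x l.1)
      else x t + ((D.n t : ℝ) + 1) * x l.1) -
      (if D.n t + 1 = D.m then (D.m : ℝ) - 1 else (D.n t : ℝ) + 1) *
        (x l.1 - ((D.m : ℝ) - 1) * (x l'.1 + ((D.m : ℝ) - 1) * x l.1))) ∧
  (D.m = 2 → ∀ (l : D.I0) (i : D.I1) t, lin (icol l i) x t = x t + (x i.1 + x l.1) *
    (if t = l.1 then -6 else if t = i.1 then 4 else if D.n t = 1 then 22
      else 16 * ((D.n t : ℝ) + 1) - 10 * D.d (jj i) t))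

/-- Termination when some factor has dimension greater than `m`. -/
def St_HT2 : Prop := ∀ (D : Dat) (G : D.Geo), (∃ s, D.m < D.n s) → ∀ x ∈ G.Eff,
  ∃ T ∈ G.Γ, 0 ≤ T x ∨ ∃ l, EndL l (T x)

/-- Termination when no factor has dimension greater than `m`. -/
def St_HT1 : Prop := ∀ (D : Dat) (G : D.Geo), (∀ s, D.n s ≤ D.m) → ∀ x ∈ G.Eff,
  ∃ T ∈ G.Γ, 0 ≤ T x ∨ ∃ l, EndL l (T x)

/-- The standard classes are numerically independent. -/
def St_INJ0 : Prop := ∀ (D : Dat) (P : Set D.V), Pos P → ∀ x ∈ P, -x ∈ P → x = 0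

/-- The lattice theorem. -/
def St_LAT : Prop := ∀ (D : Dat) (G : D.Geo), ∃ S : Set D.Λ, S.Finite ∧
  (∀ γ ∈ S, cst γ ∈ G.Mov ⊓ G.Eff) ∧ ∀ x ∈ G.Mov ⊓ G.Eff,
    ∃ T ∈ G.Γ, ∃ y ∈ span ℝ≥0 (cst '' S), x = T y

end Pool.Agent.Lib.CI
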