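import Pool.Agent.Lib.CI.BlueB

open MvPolynomial Set Matrix WithZero Pool.Agent.Lib.MP_e39d36_ag Pool.Agent.Lib.MP_e39d36_ag.Var
  Pool.Agent.Lib.MP_cc3443_ag Pool.Agent.Lib.MV Pool.Agent.Lib.MV.End Pool.Agent.Lib.MV.Fb
  Pool.Agent.Lib.DU

set_option linter.unusedSectionVars false
set_option linter.unusedVariables false

noncomputable section

namespace Pool.Agent.Lib.CI

open Pool.Agent.Lib.CI.Dat

theorem st_LEV (T : Tools) (hTD : St_TD) (hX : St_FLX) (h2 : St_F2) (hV : St_FLV) (hD : St_FLD)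
    (hG : St_GCL) (hP : St_PD) : St_LEV := by
  intro D F hF K _ _ M l
  obtain ⟨-, -, hb, hgt, -⟩ := hTD D F hF K M
  obtain ⟨-, hc, -⟩ := T.ch.cfg hF.hom M
  have hne : (none : D.Ty) ≠ some l := by simp
  refine ⟨?_, ?_⟩
  · obtain ⟨u', lam, ha, hd⟩ := hX D F hF none (some l) hne K M.u hc
      (T.nrm.big_mono _ _ _ _ (Nat.sub_le _ _) hb)
    exact ⟨u', lam, fun a => ha (.inr a) (by simp [sl, ts]), hd⟩
  · rintro u lam ⟨hx, hd⟩
    have ha : Agr (ts (none : D.Ty)) M.u u := by
      rintro (j | a) h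
      · exact absurd rfl h
      · exact hx a
    have ha' : Agr (ts (none : D.Ty)) u M.u := fun a h => (ha a h).symm
    obtain ⟨hd', -, -, hgg⟩ := h2 D F hF.hom none (some l) hne K u lam hd
    have hbu : Big none (tv K) u D.dm := T.nrm.big_agr _ _ _ _ ha hd.nz hb
    have hst : ∀ s, M.SD u (some s) = M.st s := by
      intro s
      ext E
      rw [Mod.SD, Mod.st, sd_apply, sd_apply, T.nrm.nu_some]
      simp only [hx]
    refine ⟨?_, hgg (T.nrm.gt_agr _ _ _ ha hd.nz hgt), ?_, hst, ?_⟩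
    · exact (hV D F hF none (some l) hne K (tv K) (T.red.triv K).1 u lam hd
        (T.nrm.big_mono _ _ _ _ (Nat.sub_le _ _) hbu)).2.1 _ hbu
    · intro v hv
      refine ⟨fun h => ?_, fun h => ?_⟩
      · have h' := T.nrm.big_agr _ _ _ _ ha hd.nz h
        exact (hV D F hF none (some l) hne K v hv u lam hd h').2.1 _ h'
      · exact T.nrm.big_agr _ _ _ _ ha' hc.1
          ((hV D F hF (some l) none hne.symm K v hv u lam hd' h).2.1 _ h)
    · have h := hD D F hF K M none (some l) hne u lam hd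
        (fun E => T.nrm.big_agr _ _ _ _ ha hd.nz ((hP D F hF K M).1 E).2)
        (fun σ => σ.elim 0 fun s => Pi.single s 1) (by
          rintro (_ | s) h
          · exact absurd rfl h
          · exact LE.of_eq ((hst s).trans ((T.ch.std M).2.2.2.1 s).symm))
      rw [← (hG D l).1]
      exact h

end Pool.Agent.Lib.CI
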