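import Pool.Agent.Lib.CI.BlueA

open MvPolynomial Set Matrix WithZero Pool.Agent.Lib.MP_e39d36_ag Pool.Agent.Lib.MP_e39d36_ag.Var
  Pool.Agent.Lib.MP_cc3443_ag Pool.Agent.Lib.MV Pool.Agent.Lib.MV.End Pool.Agent.Lib.MV.Fb
  Pool.Agent.Lib.DU

set_option linter.unusedSectionVars false
set_option linter.unusedVariables false

noncomputable section

namespace Pool.Agent.Lib.CI

open Pool.Agent.Lib.CI.Dat

namespace LFRM

variable {D : Dat} {K : Type} [Field K] [Algebra ℂ K] {x : D.Hx → K}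
  {A : Finset D.Hx} {τ : D.Ch}

lemma gen_neg (s : Fin D.k) (σ : D.Ch) :
    Dat.gen x (-Pi.single s 1) σ = (x ⟨s, σ s⟩)⁻¹ := by
  unfold Dat.gen
  rw [Finset.prod_eq_single s]
  · simp
  · intro j _ hne
    simp [hne]
  · simp

lemma div_mem {s : Fin D.k} {q : Fin (D.n s + 1)} (hq : ⟨s, q⟩ ∈ A) (p : Fin (D.n s + 1)) :
    x ⟨s, p⟩ / x ⟨s, q⟩ ∈ Bs x A :=
  Algebra.subset_adjoin ⟨⟨s, q⟩, hq, p, rfl⟩

lemma mem_h (hy : ∀ a, x a ≠ 0) (hτ : ∀ s, ⟨s, τ s⟩ ∈ A) (s : Fin D.k) (z : K) :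
    z ∈ Ms x (-Pi.single s 1) A ↔ z * x ⟨s, τ s⟩ ∈ Bs x A := by
  constructor
  · intro hz
    induction hz using AddSubgroup.closure_induction with
    | mem z hz =>
      obtain ⟨σ, hσ, hz⟩ := hz
      rw [gen_neg, div_inv_eq_mul] at hz
      have h := (Bs x A).mul_mem hz (div_mem (x := x) (hσ s) (τ s))
      rwa [mul_assoc, mul_div_cancel₀ _ (hy _)] at h
    | zero => simp
    | add a b _ _ ha hb =>
      rw [add_mul]
      exact add_mem ha hb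
    | neg a _ ha =>
      rw [neg_mul]
      exact neg_mem ha
  · intro hz
    exact AddSubgroup.subset_closure ⟨τ, hτ, by rwa [gen_neg, div_inv_eq_mul]⟩

lemma mem_Ps (hy : ∀ a, x a ≠ 0) (hτ : ∀ s, ⟨s, τ s⟩ ∈ A) (g : D.Hx → K) :
    g ∈ Ps' x A ↔ ∀ a, g a * x ⟨a.1, τ a.1⟩ ∈ Bs x A := by
  simp only [Ps', AddSubgroup.mem_pi, mem_univ, forall_true_left, mem_h hy hτ]

lemma single_mem (hy : ∀ a, x a ≠ 0) (hτ : ∀ s, ⟨s, τ s⟩ ∈ A) {a : D.Hx} {c : K}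
    (h : c * x ⟨a.1, τ a.1⟩ ∈ Bs x A) : Pi.single a c ∈ Ps' x A := by
  refine (mem_Ps hy hτ _).2 fun u => ?_
  by_cases hu : u = a
  · subst hu
    rwa [Pi.single_eq_same]
  · simp [hu]

lemma beta_single (a : D.Hx) (c : K) : β x (Pi.single a c) =
    (c • KaehlerDifferential.D ℂ K (x a), Pi.single a.1 (c * x a)) := by
  refine Prod.ext ?_ (funext fun s => ?_)
  · show ∑ u, (Pi.single a c : D.Hx → K) u • _ = _
    rw [Finset.sum_eq_single a (fun u _ hu => by simp [hu]) (by simp), Pi.single_eq_same]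
  · show ∑ p, (Pi.single a c : D.Hx → K) ⟨s, p⟩ * x ⟨s, p⟩ =
      (Pi.single a.1 (c * x a) : Fin D.k → K) s
    obtain ⟨t, q⟩ := a
    by_cases h : s = t
    · subst h
      rw [Finset.sum_eq_single q (fun p _ hp => ?_) (by simp), Pi.single_eq_same,
        Pi.single_eq_same]
      have hne : (⟨s, p⟩ : D.Hx) ≠ ⟨s, q⟩ := fun e => hp (eq_of_heq (Sigma.mk.inj_iff.1 e).2)
      rw [Pi.single_eq_of_ne hne, zero_mul]
    · rw [Pi.single_eq_of_ne h]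
      refine Finset.sum_eq_zero fun p _ => ?_
      have hne : (⟨s, p⟩ : D.Hx) ≠ ⟨t, q⟩ := fun e => h (Sigma.mk.inj_iff.1 e).1
      rw [Pi.single_eq_of_ne hne, zero_mul]

lemma smul_mem (hy : ∀ a, x a ≠ 0) (hτ : ∀ s, ⟨s, τ s⟩ ∈ A) {b : K} (hb : b ∈ Bs x A)
    {ω : Ω[K⁄ℂ]} (h : (ω, 0) ∈ Es x A) : (b • ω, 0) ∈ Es x A := by
  obtain ⟨g, hg, he⟩ := h
  refine ⟨b • g, (mem_Ps hy hτ _).2 fun t => ?_, ?_⟩
  · rw [Pi.smul_apply, smul_eq_mul, mul_assoc]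
    exact mul_mem hb ((mem_Ps hy hτ _).1 hg t)
  · have he' : β x g = (ω, 0) := he
    show β x (b • g) = _
    rw [map_smul, he', Prod.smul_mk, smul_zero]

lemma add_mem' {ω ω' : Ω[K⁄ℂ]} (h : (ω, 0) ∈ Es x A) (h' : (ω', 0) ∈ Es x A) :
    (ω + ω', 0) ∈ Es x A := by
  simpa using add_mem h h'

lemma d_mem (hy : ∀ a, x a ≠ 0) (hτ : ∀ s, ⟨s, τ s⟩ ∈ A) {b : K} (hb : b ∈ Bs x A) :
    (KaehlerDifferential.D ℂ K b, 0) ∈ Es x A := by
  induction hb using Algebra.adjoin_induction with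
  | mem z hz =>
    obtain ⟨⟨s, q⟩, hq, p, rfl⟩ := hz
    have h0 := hy ⟨s, q⟩
    refine ⟨Pi.single ⟨s, p⟩ (x ⟨s, q⟩)⁻¹ -
      Pi.single ⟨s, q⟩ (x ⟨s, p⟩ / x ⟨s, q⟩ / x ⟨s, q⟩),
      sub_mem (single_mem hy hτ ?_) (single_mem hy hτ ?_), ?_⟩
    · rw [inv_mul_eq_div]
      exact div_mem hq _
    · rw [div_mul_eq_mul_div, mul_div_assoc]
      exact mul_mem (div_mem hq _) (div_mem hq _)
    · show β x _ = (KaehlerDifferential.D ℂ K (x ⟨s, p⟩ / x ⟨s, q⟩), 0)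
      rw [map_sub, beta_single, beta_single, Derivation.leibniz_div, Prod.mk_sub_mk,
        inv_mul_eq_div, div_mul_cancel₀ _ h0, sub_self, smul_sub, smul_smul, smul_smul]
      have e1 : (x ⟨s, q⟩)⁻¹ ^ 2 * x ⟨s, q⟩ = (x ⟨s, q⟩)⁻¹ := by field_simp
      have e2 : (x ⟨s, q⟩)⁻¹ ^ 2 * x ⟨s, p⟩ = x ⟨s, p⟩ / x ⟨s, q⟩ / x ⟨s, q⟩ := by field_simp
      rw [e1, e2]
  | algebraMap c =>
    rw [Derivation.map_algebraMap]
    exact zero_mem _
  | add a b _ _ ha hb =>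
    rw [map_add]
    exact add_mem' ha hb
  | mul a b ha' hb' ha hb =>
    rw [Derivation.leibniz]
    exact add_mem' (smul_mem hy hτ ha' hb) (smul_mem hy hτ hb' ha)

end LFRM

open LFRM

theorem st_LFRM (T : Tools) : St_LFRM := by
  intro D K _ _ x hy A τ hτ
  refine ⟨fun ω hω => ?_, ?_⟩
  · induction hω using Submodule.span_induction with
    | mem ω hω =>
      obtain ⟨b, hb, rfl⟩ := hω
      exact d_mem hy hτ hb
    | zero => exact zero_mem _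
    | add a b _ _ ha hb => exact add_mem' ha hb
    | smul b ω _ h => exact LFRM.smul_mem hy hτ b.2 h
  · rintro _ ⟨g, hg, rfl⟩
    have hg' := (mem_Ps hy hτ g).1 hg
    refine ⟨fun s => ?_, ?_⟩
    · show ∑ p, g ⟨s, p⟩ * x ⟨s, p⟩ ∈ _
      refine sum_mem fun p _ => ?_
      have h := mul_mem (hg' ⟨s, p⟩) (LFRM.div_mem (x := x) (hτ s) p)
      rwa [mul_assoc, mul_div_cancel₀ _ (hy _)] at h
    · show ∑ a, g a • KaehlerDifferential.D ℂ K (x a) -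
        ∑ s, (∑ p, g ⟨s, p⟩ * x ⟨s, p⟩) • dlog (x ⟨s, τ s⟩) ∈ _
      have h1 : ∑ s, (∑ p, g ⟨s, p⟩ * x ⟨s, p⟩) • dlog (x ⟨s, τ s⟩) =
          ∑ a : D.Hx, (g a * x a) • dlog (x ⟨a.1, τ a.1⟩) := by
        rw [Fintype.sum_sigma]
        exact Finset.sum_congr rfl fun s _ => Finset.sum_smul
      rw [h1, ← Finset.sum_sub_distrib]
      refine sum_mem fun a _ => ?_
      have h0 := hy ⟨a.1, τ a.1⟩
      have h2 : g a • KaehlerDifferential.D ℂ K (x a) -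
          (g a * x a) • dlog (x ⟨a.1, τ a.1⟩) = (g a * x ⟨a.1, τ a.1⟩) •
            KaehlerDifferential.D ℂ K (x a / x ⟨a.1, τ a.1⟩) := by
        rw [Derivation.leibniz_div, dlog, smul_smul, smul_smul, smul_sub, smul_smul, smul_smul]
        refine congrArg₂ _ (congrArg (· • _) ?_) (congrArg (· • _) ?_) <;> field_simp
      rw [h2]
      exact (frm (Bs x A).toSubring).smul_mem ⟨_, hg' a⟩
        (Submodule.subset_span ⟨_, LFRM.div_mem (hτ a.1) a.2, rfl⟩)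

end Pool.Agent.Lib.CI
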