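import Pool.Agent.Lib.CI.BlueA
import Pool.Agent.Lib.MV.B_GLUE

open Finset Pool.Agent.Lib.MV

set_option linter.unusedSectionVars false
set_option linter.unusedVariables false

noncomputable section

namespace Pool.Agent.Lib.CI

namespace LGLUE

variable {V S : Type} [LinearOrder V] [Fintype V] [Fintype S] [DecidableEq S] {A : Type}
  [AddCommGroup A] {sl : V → S}

/-- Sections of the slot map. -/
abbrev Sc (sl : V → S) : Type := {τ : S → V // ∀ μ, sl (τ μ) = μ}

/-- The set meets every slot. -/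
def Full (sl : V → S) (s : Finset V) : Prop := ∀ μ, ∃ t ∈ s, sl t = μ

/-- Change a section in one slot. -/
def up (τ : Sc sl) (t : V) : Sc sl :=
  ⟨Function.update τ.1 (sl t) t, fun μ => by
    by_cases h : μ = sl t
    · subst h; simp
    · rw [Function.update_of_ne h, τ.2]⟩

lemma up_self (τ : Sc sl) (t : V) : (up τ t).1 (sl t) = t := by simp [up]

lemma up_ne (τ : Sc sl) (t : V) {μ : S} (h : μ ≠ sl t) : (up τ t).1 μ = τ.1 μ :=
  Function.update_of_ne h _ _

lemma inj (τ : Sc sl) : Function.Injective τ.1 := fun μ ν h => by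
  rw [← τ.2 μ, h, τ.2 ν]

/-- The image of a section. -/
def im (τ : Sc sl) : Finset V := univ.map ⟨τ.1, inj τ⟩

lemma mem_im {τ : Sc sl} {t : V} : t ∈ im τ ↔ τ.1 (sl t) = t := by
  simp only [im, mem_map, mem_univ, true_and, Function.Embedding.coeFn_mk]
  exact ⟨by rintro ⟨μ, rfl⟩; rw [τ.2], fun h => ⟨_, h⟩⟩

lemma card_im (τ : Sc sl) : (im τ).card = Fintype.card S := by simp [im]

lemma im_inj {τ τ' : Sc sl} (h : im τ = im τ') : τ = τ' := Subtype.ext (funext fun μ => by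
  have : τ.1 μ ∈ im τ' := h ▸ mem_im.2 (by rw [τ.2])
  rw [← mem_im.1 this, τ.2])

lemma full_im (τ : Sc sl) : Full sl (im τ) := fun μ => ⟨τ.1 μ, mem_im.2 (by rw [τ.2]), τ.2 μ⟩

lemma step (cv : ∀ t u w : V, t < u → u < w → sl t = sl w → sl u = sl t) (τ : Sc sl) {u : V}
    (hu : u ∉ im τ) : ∃ ε : ℤ, ε * ε = 1 ∧ ∀ d : Finset V → A, (∀ s, ¬Full sl s → d s = 0) →
      cb d (cons u (im τ) hu) = ε • (d (im (up τ u)) - d (im τ)) := by
  set t := τ.1 (sl u) with ht
  have h1 : sl t = sl u := τ.2 _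
  have h2 : t ∈ im τ := mem_im.2 (by rw [h1])
  have h3 : t ≠ u := fun h => hu (h ▸ h2)
  set s := (im τ).erase t with hs
  have h4 : ∀ w ∈ s, sl w ≠ sl u := fun w hw h =>
    ne_of_mem_erase hw ((mem_im.1 (mem_of_mem_erase hw)).symm.trans (by rw [h]))
  have h5 : t ∉ s := notMem_erase _ _
  have h6 : u ∉ s := fun h => h4 u h rfl
  have e1 : im τ = insert t s := (insert_erase h2).symm
  have e2 : im (up τ u) = insert u s := by
    ext w
    rw [mem_insert, mem_im, hs, mem_erase, mem_im]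
    by_cases h : sl w = sl u
    · rw [h, up_self, ← ht]
      exact ⟨fun h => Or.inl h.symm, fun h => h.elim Eq.symm fun h => absurd h.2.symm h.1⟩
    · rw [up_ne _ _ h]
      exact ⟨fun h' => Or.inr ⟨fun e => h (e ▸ h1), h'⟩,
        fun h' => h'.elim (fun e => absurd (e ▸ rfl) h) And.right⟩
  have h7 : ∀ {a b : V}, sl a = sl u → sl b = sl u → a < b → ∀ w ∈ s, w < a ↔ w < b :=
    fun ha hb h w hw => ⟨fun h' => h'.trans h, fun h' => by
      by_contra h8
      rcases lt_trichotomy w _ |>.resolve_left h8 with h9 | h9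
      · exact h4 w hw (h9 ▸ ha)
      · exact h4 w hw ((cv _ _ _ h9 h' (ha.trans hb.symm)).trans ha)⟩
  have h8 : ∀ {a b : V}, sl a = sl u → sl b = sl u → ∀ x ∈ s,
      ¬Full sl (insert a (insert b (s.erase x))) := fun ha hb x hx h => by
    obtain ⟨w, hw, e⟩ := h (sl x)
    rcases mem_insert.1 hw with rfl | hw
    · exact h4 x hx (e.symm.trans ha)
    rcases mem_insert.1 hw with rfl | hw
    · exact h4 x hx (e.symm.trans hb)
    exact ne_of_mem_erase hw ((mem_im.1 (mem_of_mem_erase (mem_of_mem_erase hw))).symm.trans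
      (by rw [e]; exact mem_im.1 (mem_of_mem_erase hx)))
  rw [cons_eq_insert, e2]
  rcases lt_or_gt_of_ne h3 with h | h
  · refine ⟨sg t s, sg_mul_self _ _, fun d hd => ?_⟩
    rw [e1, insert_comm, GlueB.cb_two' h h5 h6 (h7 h1 rfl h) fun x hx => hd _ (h8 h1 rfl x hx)]
  · refine ⟨-sg u s, by rw [neg_mul_neg, sg_mul_self], fun d hd => ?_⟩
    rw [e1, GlueB.cb_two' h h6 h5 (h7 rfl h1 h) fun x hx => hd _ (h8 rfl h1 x hx), neg_smul,
      ← smul_neg, neg_sub]

lemma conn {g : Sc sl → A} (h : ∀ τ u, g (up τ u) = g τ) (τ τ' : Sc sl) : g τ' = g τ := by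
  have key : ∀ T : Finset S, ∀ τ' : Sc sl, (∀ μ ∉ T, τ'.1 μ = τ.1 μ) → g τ' = g τ := fun T => by
    induction T using Finset.induction_on with
    | empty =>
      exact fun τ' h' => by rw [show τ' = τ from Subtype.ext (funext fun μ => h' μ (by simp))]
    | insert μ T _ ih =>
      intro τ' h'
      rw [← h τ' (τ.1 μ)]
      refine ih _ fun ν hν => ?_
      by_cases e : ν = μ
      · subst e
        have := up_self τ' (τ.1 ν)
        rwa [τ.2] at this
      · rw [up_ne _ _ (by rwa [τ.2]), h' ν (by simp [e, hν])]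
  exact key univ τ' (by simp)

theorem glue (cv : ∀ t u w : V, t < u → u < w → sl t = sl w → sl u = sl t) (τ₀ : Sc sl)
    (N : Finset V → AddSubgroup A) (hN : ∀ s, ¬Full sl s → N s = ⊥)
    (H : Ex univ N (Fintype.card S + 1)) (η : Sc sl → A)
    (hη : ∀ (s : Finset V) (τ τ' : Sc sl), (∀ μ, τ.1 μ ∈ s) → (∀ μ, τ'.1 μ ∈ s) →
      η τ - η τ' ∈ N s) : ∃ ω : A, ∀ τ : Sc sl, η τ - ω ∈ N (im τ) := by
  let c : Finset V → A := fun s => by
    classical exact if h : ∃ τ : Sc sl, im τ = s then η h.choose else 0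
  have c1 : ∀ τ, c (im τ) = η τ := fun τ => by
    have h : ∃ τ' : Sc sl, im τ' = im τ := ⟨τ, rfl⟩
    simp only [c, dif_pos h, im_inj h.choose_spec]
  have c2 : ∀ s, ¬Full sl s → c s = 0 := fun s hs => dif_neg fun ⟨τ, h⟩ => hs (h ▸ full_im τ)
  obtain ⟨b, hb, e⟩ := H (fun s => if s.card = Fintype.card S + 1 then cb c s else 0)
    (fun s => by
      split_ifs with hs
      swap
      · exact zero_mem _
      by_cases hf : Full sl s
      · obtain ⟨τ, hτ⟩ : ∃ τ : Sc sl, ∀ μ, τ.1 μ ∈ s := by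
          choose f h1 h2 using hf
          exact ⟨⟨f, h2⟩, h1⟩
        have h1 : im τ ⊆ s := fun t ht => mem_im.1 ht ▸ hτ _
        obtain ⟨u, h2, h3⟩ := exists_eq_insert_iff.2 ⟨h1, by rw [card_im, hs]⟩
        obtain ⟨ε, -, h4⟩ := step (A := A) cv τ h2
        have h5 := h4 c c2
        rw [cons_eq_insert, h3, c1, c1] at h5
        rw [h5]
        refine zsmul_mem (hη s _ _ (fun μ => ?_) hτ) _
        by_cases h6 : μ = sl u
        · rw [h6, up_self, ← h3]; exact mem_insert_self _ _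
        · rw [up_ne _ _ h6]; exact hτ μ
      · rw [cb, sum_eq_zero fun t _ => by
          rw [c2 _ fun h => hf fun μ => (h μ).imp fun w hw => ⟨mem_of_mem_erase hw.1, hw.2⟩,
            smul_zero]]
        exact zero_mem _)
    fun s hs hq => (cb_congr' hs hq fun s _ h => if_pos h).trans (cb_cb c s)
  have key : ∀ τ u, η (up τ u) - b (im (up τ u)) = η τ - b (im τ) := fun τ u => by
    by_cases hu : u ∈ im τ
    · rw [show up τ u = τ from Subtype.ext (by
        rw [up]; exact Function.update_eq_self_iff.2 (mem_im.1 hu).symm)]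
    obtain ⟨ε, h1, h2⟩ := step (A := A) cv τ hu
    have h3 := h2 (fun s => c s - b s) fun s hs => by
      rw [c2 s hs, show b s = 0 by simpa [hN s hs] using hb s, sub_zero]
    have h4 := e (cons u (im τ) hu) (subset_univ _) (by rw [card_cons, card_im])
    rw [if_pos (by rw [card_cons, card_im])] at h4
    rw [cb_sub, h4, sub_self, c1, c1] at h3
    rw [← sub_eq_zero, ← one_smul ℤ (_ - _), ← h1, mul_smul, ← h3, smul_zero]
  refine ⟨η τ₀ - b (im τ₀), fun τ => ?_⟩
  rw [← conn (g := fun τ => η τ - b (im τ)) key τ₀ τ, sub_sub_cancel]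
  exact hb (im τ)

variable {D : Dat}

lemma convex (t u w : D.Hx) (h1 : toLex ((t.1 : ℕ), (t.2 : ℕ)) < toLex ((u.1 : ℕ), (u.2 : ℕ)))
    (h2 : toLex ((u.1 : ℕ), (u.2 : ℕ)) < toLex ((w.1 : ℕ), (w.2 : ℕ))) (h : t.1 = w.1) :
    u.1 = t.1 := by
  have a1 : (t.1 : ℕ) ≤ u.1 := Prod.Lex.monotone_fst _ _ h1.le
  have a2 : (u.1 : ℕ) ≤ w.1 := Prod.Lex.monotone_fst _ _ h2.le
  rw [← h] at a2
  exact Fin.ext (le_antisymm a2 a1)

lemma back (σ : Sc (Sigma.fst : D.Hx → Fin D.k)) (s : Fin D.k) :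
    ∃ p : Fin (D.n s + 1), (⟨s, p⟩ : D.Hx) = σ.1 s := by
  have h := σ.2 s
  generalize σ.1 s = a at h
  obtain ⟨t, p⟩ := a
  subst h
  exact ⟨p, rfl⟩

end LGLUE

open LGLUE in
theorem st_LGLUE : St_LGLUE := by
  intro D G _ N h0 H η hη
  choose bk hbk using back (D := D)
  obtain ⟨ω, hω⟩ := glue (V := D.Hx) (sl := (Sigma.fst : D.Hx → Fin D.k))
    (fun t u w h1 h2 h => convex t u w h1 h2 h)
    ⟨fun s => ⟨s, 0⟩, fun _ => rfl⟩ N
    (fun s hs => h0 s (by simpa only [Full, not_forall, not_exists, not_and] using hs))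
    (by rw [Fintype.card_fin]; exact H) (fun σ => η (bk σ))
    (fun s σ σ' h h' => hη s _ _ (fun μ => by rw [hbk]; exact h μ)
      (fun μ => by rw [hbk]; exact h' μ))
  refine ⟨ω, fun τ => ?_⟩
  have h := hω ⟨fun s => ⟨s, τ s⟩, fun _ => rfl⟩
  have e : bk ⟨fun s => ⟨s, τ s⟩, fun _ => rfl⟩ = τ := funext fun s =>
    eq_of_heq (Sigma.mk.inj (hbk ⟨fun s => ⟨s, τ s⟩, fun _ => rfl⟩ s)).2
  rw [e] at h
  refine Eq.mp (congrArg (fun s => η τ - ω ∈ N s) ?_) h
  ext
  simp [im]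

end Pool.Agent.Lib.CI
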