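import Pool.Agent.Lib.CI.BlueB

open MvPolynomial Set Matrix WithZero

set_option linter.unusedSectionVars false
set_option linter.unusedVariables false

noncomputable section

namespace Pool.Agent.Lib.CI

open Pool.Agent.Lib.CI.Dat
open Pool.Agent.Lib.MV.G3 (acl Ov)

namespace LIM

variable {D : Dat} {F : D.Fm} {l : D.I0} {o : Option (Fin D.m)} {f : D.Λ} {Ω : Type} [Field Ω]
  [Algebra ℂ Ω] {u : D.Vr → Ω} {t : D.I1 → Ω}

lemma map_xp {R S : Type} [CommRing R] [CommRing S] (φ : R →+* S) {n : ℕ}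
    (A : Matrix (Fin n) (Fin (n + 1)) R) (q : Fin (n + 1)) : φ (xp A q) = xp (A.map φ) q := by
  simp [xp, RingHom.map_det, Matrix.submatrix_map]

lemma chi_pow {s : Ω} (hs : s ≠ 0) (e w : D.Sl → ℤ) :
    chi (fun σ => s ^ e σ) w = s ^ ∑ σ, e σ * w σ := by
  have : ∀ A : Finset D.Sl, ∏ σ ∈ A, (s ^ e σ) ^ w σ = s ^ ∑ σ ∈ A, e σ * w σ := fun A => by
    induction A using Finset.induction_on with
    | empty => simp
    | insert a A ha ih =>
      rw [Finset.prod_insert ha, Finset.sum_insert ha, ih, zpow_add₀ hs, _root_.zpow_mul]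
  exact this _

lemma isT_ne (T : Tools) (hF : D.Hom F) (hv : Valid l o f) (hT : ∀ i, IsT F l i u (t i))
    (hz : ∀ j, u (.inl j) = 0 ↔ o = some j) {s : Ω} (hs : s ≠ 0) (i : D.I1) :
    IsT F l i (fun a => s ^ gW l f (.inl a) * gU l u t (.inl a)) (s ^ gW l f (.inr i) * t i) := by
  let e : D.Sl → ℤ := wc (f ⬝ᵥ zeta l) f
  have h := T.sc.isT hF l i (fun σ => s ^ e σ) u (t i) (fun σ => zpow_ne_zero _ hs) (hT i)
  have ag : Agr (some l.1) (sc (fun σ => s ^ e σ) u)
      fun a => s ^ gW l f (.inl a) * gU l u t (.inl a) := fun a ha => by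
    have e1 : gU l u t (.inl a) = u a := if_neg ha
    change _ * gU l u t (.inl a) = u a * chi _ _
    rw [e1, chi_pow hs, mul_comm]
    rcases a with j | b
    · by_cases hj : o = some j
      · rw [(hz j).2 hj, zero_mul, zero_mul]
      · congr 1
        rw [← zpow_natCast]
        congr 1
        simp only [gW, Sum.elim_inl, Int.toNat_of_nonneg (hv.z j (Ne.symm hj))]
        simp [Fintype.sum_option, e, wc, wt, Lam, aa, dotProduct, sub_eq_add_neg, mul_add,
          Finset.sum_add_distrib]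
    · have hb : b.1 ≠ l.1 := fun h => ha (congrArg some h)
      congr 1
      rw [← zpow_natCast]
      congr 1
      simp [gW, hb, Int.toNat_of_nonneg (hv.h _ hb), wt, e, wc]
  have e2 : chi (fun σ => s ^ e σ) (wT l i) = s ^ gW l f (.inr i) := by
    rw [chi_pow hs, ← zpow_natCast]
    congr 1
    rw [gW, Sum.elim_inr, Int.toNat_of_nonneg (hv.t i)]
    simp only [Fintype.sum_option, e, wT, wc, Option.elim_none, Option.elim_some, tcl,
      smul_add, add_sub_assoc, dotProduct_add, dotProduct_smul, smul_eq_mul]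
    rw [mul_comm]
    rfl
  intro q
  rw [T.pi.nx_agr hF l i _ _ ag, ← h q, e2, ag _ fun h => T.sl.ts_ne (some l) i
    (h.symm.trans (T.sl.sl_cw i q))]

lemma isT_zero (T : Tools) (hF : D.Hom F) (hv : Valid l o f) (hT : ∀ i, IsT F l i u (t i))
    (hz : ∀ j, u (.inl j) = 0 ↔ o = some j) (i : D.I1) :
    IsT F l i (fun a => 0 ^ gW l f (.inl a) * gU l u t (.inl a)) (0 ^ gW l f (.inr i) * t i) := by
  intro q
  have : Infinite Ω := .of_injective _ (algebraMap ℂ Ω).injective
  let U : D.Vr → Polynomial Ω := fun a =>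
    Polynomial.X ^ gW l f (.inl a) * Polynomial.C (gU l u t (.inl a))
  have key : ∀ s : Ω, Polynomial.eval s (xp (Matrix.of fun p q => aeval U (NP F l i p q)) q) =
      xp (Nx F l i fun a => s ^ gW l f (.inl a) * gU l u t (.inl a)) q := fun s => by
    refine (map_xp (Polynomial.evalRingHom s) _ q).trans ?_
    congr 1
    ext p r
    have := comp_aeval_apply U ((Polynomial.aeval s : Polynomial Ω →ₐ[Ω] Ω).restrictScalars ℂ)
      (NP F l i p r)
    simpa [U, Nx, mul_comm] using this
  have h := Polynomial.eq_of_infinite_eval_eq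
    (Polynomial.X ^ gW l f (.inr i) * Polynomial.C (t i) * U (cw i q))
    (xp (Matrix.of fun p q => aeval U (NP F l i p q)) q)
    ((Set.finite_singleton (0 : Ω)).infinite_compl.mono fun s hs => by
      rw [mem_ofPred_eq, key, ← isT_ne T hF hv hT hz hs i q]
      simp [U, mul_comm])
  rw [← key, ← h]
  simp [U, mul_comm]

end LIM

theorem st_LIM (T : Tools) (hBAD : St_BAD) : St_LIM := by
  intro D F hG l o f hv hf Ω _ _ u t hu hT hz ht
  have key : ∃ σ, σ ≠ some l.1 ∧ ∀ a, sl a = σ → gW l f (.inl a) ≠ 0 := by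
    by_cases h : ∃ s, s ≠ l.1 ∧ f s ≠ 0
    · obtain ⟨s, h1, h2⟩ := h
      refine ⟨some s, fun h => h1 (Option.some.inj h), ?_⟩
      rintro (j | b) ha
      · cases ha
      · obtain rfl : b.1 = s := Option.some.inj ha
        have := hv.h _ h1
        simp only [gW, Sum.elim_inl, Sum.elim_inr, h1, if_false]
        omega
    · push Not at h
      have h1 : ∀ j, f ⬝ᵥ Lam l j = -f l.1 := fun j => by
        rw [dotProduct, Finset.sum_eq_single l.1 (fun s _ hs => by rw [h s hs, zero_mul]) (by simp)]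
        simp [Lam, zeta, aa, aW, hs, l.2, Finset.sum_apply]
      have h2 : f l.1 ≠ 0 := fun e => hf (funext fun s => by
        by_cases hs : s = l.1
        exacts [hs ▸ e, h s hs])
      obtain ⟨j | b, ha, hj⟩ := hu none
      · have := hv.z j fun e => hj ((hz j).2 e.symm)
        refine ⟨none, by simp, ?_⟩
        rintro (j' | b) ha
        · simp only [gW, Sum.elim_inl, h1] at this ⊢
          omega
        · cases ha
      · cases ha
  obtain ⟨σ, h1, h2⟩ := key
  refine ⟨?_, le_trans ?_ (hBAD D F hG l o f hv Ω (fun a => 0 ^ gW l f (.inl a) * gU l u t (.inl a))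
    (fun i => 0 ^ gW l f (.inr i) * t i) (LIM.isT_zero T hG.hom hv hT hz) (fun j hj => ?_)
    (fun j hj h => ?_) (fun s hs h => ?_) (fun i hi h => ?_) ⟨σ, h1, fun a ha => ?_⟩)⟩
  · obtain ⟨a, ha, h⟩ := hu σ
    exact ⟨.inl a, h2 a ha, fun e => h ((if_neg (ha ▸ h1)).symm.trans e)⟩
  · refine Nat.add_le_add_right (Nat.add_le_add_right (Nat.add_le_add_right
      (T.rk.le (Set.toFinite _) ?_) _) _) _
    rintro _ ⟨a | i, ha, rfl⟩
    · by_cases h : sl a = some l.1
      · rw [show gU l u t (.inl a) = 0 from if_pos h]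
        exact zero_mem _
      · exact T.rk.adj _ (IntermediateField.subset_adjoin _ _ (Or.inl ⟨a, Finset.mem_coe.2
          (Finset.mem_filter.2 ⟨Finset.mem_univ _, h⟩), by
            rw [mem_ofPred_eq] at ha; simp only [ha, pow_zero, one_mul]⟩))
    · exact T.rk.adj _ (IntermediateField.subset_adjoin _ _ (Or.inr ⟨i, by
        rw [mem_ofPred_eq] at ha; simp only [ha, pow_zero, one_mul]; rfl⟩))
  · simp [gU, sl, (hz j).2 hj]
  · simpa [gU, gW, sl, h] using fun e => hj ((hz j).1 e).symm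
  · obtain ⟨j | ⟨s', p⟩, ha, h'⟩ := hu (some s)
    · cases ha
    · obtain rfl : s' = s := Option.some.inj ha
      exact ⟨p, by simpa [gU, gW, sl, h, hs] using h'⟩
  · simpa [gW, h] using ht i hi
  · rw [zero_pow (h2 a ha), zero_mul]

end Pool.Agent.Lib.CI
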