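import Pool.Agent.Lib.CI.BlueA
import Pool.Agent.Lib.MV.B_ETA
import Pool.Agent.Lib.MV.B_L

open MvPolynomial Set Matrix WithZero Pool.Agent.Lib.MP_e39d36_ag Pool.Agent.Lib.MP_e39d36_ag.Var
  Pool.Agent.Lib.MP_cc3443_ag Pool.Agent.Lib.MV Pool.Agent.Lib.MV.End Pool.Agent.Lib.MV.Fb
  Pool.Agent.Lib.DU Pool.Agent.Lib.DU.LOG

set_option linter.unusedSectionVars false
set_option linter.unusedVariables false

noncomputable section

namespace Pool.Agent.Lib.CI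

open Pool.Agent.Lib.CI.Dat

namespace LL

variable {D : Dat} {K : Type} [Field K] [Algebra ℂ K]

lemma es_bot (T : Tools) {x : D.Hx → K} (hx : ∀ a, x a ≠ 0) (A : Finset D.Hx)
    (h : ∃ s, ∀ a ∈ A, a.1 ≠ s) : Es x A = ⊥ := by
  obtain ⟨s, hs⟩ := h
  rw [eq_bot_iff]
  rintro _ ⟨g, hg, rfl⟩
  have h1 : g = 0 := funext fun a =>
    (T.ch.mem_Ms x hx _ A (g a)).2 (fun ⟨τ, hτ⟩ => hs _ (hτ s) rfl) (hg a trivial)
  rw [h1, map_zero]
  exact zero_mem _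

end LL

open LL in
theorem st_LL (T : Tools) (h1 : St_LNY) (h3 : St_LFRM) (h4 : St_LGLUE) : St_LL := by
  intro D F hF hJ K _ _ M W
  have hne := T.ch.ne M
  have hi : ∀ (τ : D.Ch) s, (⟨s, τ s⟩ : D.Hx) ∈ Finset.univ.image fun s => (⟨s, τ s⟩ : D.Hx) :=
    fun τ s => Finset.mem_image_of_mem (fun s => (⟨s, τ s⟩ : D.Hx)) (Finset.mem_univ s)
  have H : ∀ (A : Finset D.Hx) (τ : D.Ch), (∀ s, ⟨s, τ s⟩ ∈ A) → _ := fun A τ hτ =>
    st_eta K M.X (Bs M.x A).toSubring (T.ch.ptBs M A τ hτ).1 (T.ch.ptBs M A τ hτ).2.1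
      (Bs M.x A).algebraMap_mem
  choose η hη using fun τ => (H _ τ (hi τ)).1 W (M.sm.fac W)
  have mono : ∀ (A : Finset D.Hx) (τ : D.Ch), (∀ s, ⟨s, τ s⟩ ∈ A) →
      (Bs M.x (Finset.univ.image fun s => (⟨s, τ s⟩ : D.Hx))).toSubring ≤ (Bs M.x A).toSubring :=
    fun A τ hτ z hz => (T.ch.bs M.x).2.1 A τ hτ ((T.ch.bs M.x).2.2.1 τ ▸ hz)
  have img : ∀ τ : D.Ch,
      (Bs M.x (Finset.univ.image fun s => (⟨s, τ s⟩ : D.Hx))).toSubring ≤ (D.B M.x τ).toSubring :=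
    fun τ z hz => (T.ch.bs M.x).2.2.1 τ ▸ hz
  obtain ⟨ω, hω⟩ := h4 D _ (Es M.x) (es_bot T hne) (h1 D F hF hJ K M) (fun τ => (η τ, 0))
    fun A τ τ' hτ hτ' => by
      rw [Prod.mk_sub_mk, sub_self]
      refine (h3 D K M.x hne A τ hτ).1 _ ((H A τ hτ).2 _ fun z hz => ?_)
      obtain ⟨f, hf⟩ := M.sm.fac W z
      have := sub_mem (hη τ z ((mono A τ hτ).trans hz) f hf)
        (hη τ' z ((mono A τ' hτ').trans hz) f hf)
      rwa [sub_sub_sub_cancel_right] at this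
  have H' := fun τ => (h3 D K M.x hne _ τ (hi τ)).2 _ (hω τ)
  simp only [Prod.fst_sub, Prod.snd_sub, zero_sub, Pi.neg_apply] at H'
  choose c hc using fun s => eq_const (X := M.X) (z := ω.2 s) fun z => by
    obtain ⟨τ, hτ⟩ := M.hyp.2.1 z
    exact neg_mem_iff.1 (hτ.1 (img τ ((H' τ).1 s)))
  refine ⟨c, ω.1, fun E π hπ => ?_⟩
  obtain ⟨τ, hτ⟩ := M.hyp.2.1 E.1
  obtain ⟨f, hf⟩ := M.sm.fac W E.1
  have k0 := (img τ).trans hτ.1
  have k1 := hη τ _ k0 f hf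
  have k2 := frm_mono k0 (H' τ).2
  have k3 := LB.dlog_ord E hπ hf.1
  have k4 : ∑ s, c s • (dlog (M.x ⟨s, τ s⟩) - (M.X.ord (M.x ⟨s, τ s⟩) E.1 : ℂ) • dlog π) ∈
      frm (M.X.O E.1) := sum_mem fun s _ => csmul_mem (LB.dlog_ord E hπ (hne _))
  have k5 := add_mem (add_mem (sub_mem k1 k2) k3) k4
  have e : ((W E : ℂ) - cmb c M.st E) • dlog π =
      (M.X.ord f E.1 : ℂ) • dlog π +
        ∑ s, c s • (M.X.ord (M.x ⟨s, τ s⟩) E.1 : ℂ) • dlog π := by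
    simp only [cmb, T.ch.st_apply M τ E hτ.1, Int.cast_neg, mul_neg, Finset.sum_neg_distrib,
      sub_neg_eq_add, add_smul, Finset.sum_smul, mul_smul, hf.eq le_rfl]
  simp only [hc, neg_smul, algebraMap_smul, Finset.sum_neg_distrib, smul_sub,
    Finset.sum_sub_distrib] at k5
  rw [e]
  refine (congrArg (· ∈ frm (M.X.O E.1)) ?_).mp k5
  abel

end Pool.Agent.Lib.CI
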