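import Pool.Agent.Lib.CI.BlueA
import Pool.Agent.Lib.MV.B_MON

open MvPolynomial Set Matrix WithZero Pool.Agent.Lib.MP_e39d36_ag Pool.Agent.Lib.MP_e39d36_ag.Var
  Pool.Agent.Lib.MP_cc3443_ag Pool.Agent.Lib.MV Pool.Agent.Lib.MV.End Pool.Agent.Lib.MV.Fb
  Pool.Agent.Lib.DU

set_option linter.unusedSectionVars false
set_option linter.unusedVariables false

noncomputable section

namespace Pool.Agent.Lib.CI

open Pool.Agent.Lib.CI.Dat

namespace LMON

variable (D : Dat)

lemma X_ne (w : D.Hx) : D.XL w ≠ 0 := by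
  obtain ⟨i, l⟩ := w
  refine Fin.cases ?_ (fun l => ?_) l
  · exact one_ne_zero
  · intro h
    exact X_ne_zero (R := ℂ) (⟨i, l⟩ : Σ s, Fin (D.n s))
      (IsFractionRing.injective (MvPolynomial (Σ s, Fin (D.n s)) ℂ) D.L
        (h.trans (map_zero _).symm))

/-- Laurent monomials in the homogeneous coordinates. -/
def mon (β : D.Hx → ℤ) : D.L := ∏ w, D.XL w ^ β w

lemma mon_eq (β : D.Hx → ℤ) : mon D β = ∏ a : (Σ s, Fin (D.n s)),
    algebraMap (MvPolynomial (Σ s, Fin (D.n s)) ℂ) D.L (X a) ^ β ⟨a.1, a.2.succ⟩ := by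
  rw [mon, Fintype.prod_sigma, Fintype.prod_sigma]
  refine Finset.prod_congr rfl fun i _ => ?_
  rw [Fin.prod_univ_succ]
  have h : D.XL ⟨i, 0⟩ = 1 := rfl
  rw [h, _root_.one_zpow, one_mul]
  rfl

lemma mon_add (β β' : D.Hx → ℤ) : mon D (β + β') = mon D β * mon D β' := by
  rw [mon, mon, mon, ← Finset.prod_mul_distrib]
  exact Finset.prod_congr rfl fun w _ => zpow_add₀ (X_ne D _) _ _

lemma mon_single (w : D.Hx) (c : ℤ) : mon D (Pi.single w c) = D.XL w ^ c := by
  rw [mon, Finset.prod_eq_single w]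
  · rw [Pi.single_eq_same]
  · intro w' _ h
    rw [Pi.single_eq_of_ne h, zpow_zero]
  · intro h
    exact absurd (Finset.mem_univ w) h

variable (v : D.Λ)

/-- Exponents of the given degree. -/
abbrev Ix : Type := {β : D.Hx → ℤ // ∀ i, ∑ l, β ⟨i, l⟩ = v i}

lemma li_mon : LinearIndependent ℂ fun β : Ix D v => mon D β.1 := by
  have h := (MonB.li_aff (Σ s, Fin (D.n s))).comp
    (fun (β : Ix D v) (a : Σ s, Fin (D.n s)) => β.1 ⟨a.1, a.2.succ⟩)
    fun β β' h => by
      refine Subtype.ext (funext fun ⟨i, l⟩ => ?_)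
      have h1 : ∀ l : Fin (D.n i), β.1 ⟨i, l.succ⟩ = β'.1 ⟨i, l.succ⟩ := fun l =>
        congrFun h ⟨i, l⟩
      refine Fin.cases ?_ h1 l
      have h2 := (β.2 i).trans (β'.2 i).symm
      rw [Fin.sum_univ_succ, Fin.sum_univ_succ, Finset.sum_congr rfl fun l _ => h1 l] at h2
      exact add_right_cancel h2
  rw [funext fun β : Ix D v => mon_eq D β.1]
  exact h

/-- The monomial is regular on the cell. -/
def P (β : Ix D v) (s : Finset D.Hx) : Prop :=
  (∀ i, ∃ l, ⟨i, l⟩ ∈ s) ∧ ∀ w, β.1 w < 0 → w ∈ s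

/-- The span of the regular monomials. -/
def Nn (s : Finset D.Hx) : Submodule ℂ D.L :=
  Submodule.span ℂ ((fun β : Ix D v => mon D β.1) '' {β | P D v β s})

variable {D}

lemma sum_single (i : Fin D.k) (w : D.Hx) (c : ℤ) :
    ∑ l, (Pi.single w c : D.Hx → ℤ) ⟨i, l⟩ = if w.1 = i then c else 0 := by
  obtain ⟨j, m⟩ := w
  split_ifs with h
  · have h1 : j = i := h
    subst h1
    rw [Finset.sum_eq_single m, Pi.single_eq_same]
    · intro l _ hl
      have h3 : (⟨j, l⟩ : D.Hx) ≠ ⟨j, m⟩ := fun e => hl (eq_of_heq (Sigma.mk.inj e).2)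
      rw [Pi.single_eq_of_ne h3]
    · intro h2
      exact absurd (Finset.mem_univ m) h2
  · exact Finset.sum_eq_zero fun l _ =>
      Pi.single_eq_of_ne (fun e => h (congrArg Sigma.fst e).symm) _

lemma mul_mem_Nn {s : Finset D.Hx} {b : D.L} (hb : b ∈ Bs D.XL s) :
    ∀ z ∈ Nn D v s, b * z ∈ Nn D v s := by
  induction hb using Algebra.adjoin_induction with
  | mem b hb =>
    obtain ⟨⟨i, l⟩, ht, l', rfl⟩ := hb
    intro z hz
    induction hz using Submodule.span_induction with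
    | mem z hz =>
      obtain ⟨β, hβ, rfl⟩ := hz
      refine Submodule.subset_span ⟨⟨β.1 + (Pi.single ⟨i, l'⟩ 1 + Pi.single ⟨i, l⟩ (-1)),
        fun j => ?_⟩, ⟨hβ.1, fun w hw => ?_⟩, ?_⟩
      · simp only [Pi.add_apply, Finset.sum_add_distrib, sum_single, β.2 j]
        split_ifs <;> simp
      · by_cases e1 : w = ⟨i, l⟩
        · rw [e1]
          exact ht
        · refine hβ.2 w ?_
          have h1 : (0 : ℤ) ≤ (Pi.single ⟨i, l'⟩ 1 : D.Hx → ℤ) w := by
            rw [Pi.single_apply]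
            split_ifs <;> simp
          simp only [Pi.add_apply, Pi.single_eq_of_ne e1] at hw
          omega
      · simp only [mon_add, mon_single, zpow_one, _root_.zpow_neg]
        rw [mul_comm, div_eq_mul_inv]
    | zero => rw [mul_zero]; exact zero_mem _
    | add z z' _ _ h h' => rw [mul_add]; exact add_mem h h'
    | smul c z _ h => rw [mul_smul_comm]; exact Submodule.smul_mem _ c h
  | algebraMap c => exact fun z hz => by rw [← Algebra.smul_def]; exact Submodule.smul_mem _ c hz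
  | add b b' _ _ h h' => exact fun z hz => by rw [add_mul]; exact add_mem (h z hz) (h' z hz)
  | mul b b' _ _ h h' => exact fun z hz => by rw [mul_assoc]; exact h _ (h' z hz)

lemma Ms_le (s : Finset D.Hx) : Ms D.XL v s ≤ (Nn D v s).toAddSubgroup := by
  refine (AddSubgroup.closure_le _).2 ?_
  rintro z ⟨l, hm, hz⟩
  have hg : gen D.XL v l ≠ 0 :=
    Finset.prod_ne_zero_iff.2 fun i _ => zpow_ne_zero _ (X_ne D _)
  have h1 : gen D.XL v l ∈ Nn D v s := by
    refine Submodule.subset_span ⟨⟨fun w => if w.2 = l w.1 then v w.1 else 0,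
      fun j => by simp⟩, ⟨fun i => ⟨l i, hm i⟩, fun w hw => ?_⟩, ?_⟩
    · obtain ⟨i, m⟩ := w
      by_cases e : m = l i
      · rw [e]
        exact hm i
      · simp [e] at hw
    · simp only [mon, Dat.gen, Fintype.prod_sigma]
      refine Finset.prod_congr rfl fun i _ => ?_
      rw [Finset.prod_eq_single (l i), if_pos rfl]
      · intro m _ e
        rw [if_neg e, zpow_zero]
      · intro h2
        exact absurd (Finset.mem_univ _) h2
  have h2 := mul_mem_Nn v hz _ h1
  rw [div_mul_cancel₀ _ hg] at h2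
  exact h2

lemma le_Ms (s : Finset D.Hx) : (Nn D v s).toAddSubgroup ≤ Ms D.XL v s := by
  have key : ∀ z ∈ Nn D v s, ∀ c : ℂ, c • z ∈ Ms D.XL v s := fun z hz => by
    induction hz using Submodule.span_induction with
    | mem z hz =>
      obtain ⟨β, hβ, rfl⟩ := hz
      intro c
      choose l hl using hβ.1
      refine AddSubgroup.subset_closure ⟨l, hl, ?_⟩
      rw [smul_div_assoc]
      refine Subalgebra.smul_mem _ ?_ c
      have e : mon D β.1 / gen D.XL v l =
          ∏ w : D.Hx, (D.XL w / D.XL ⟨w.1, l w.1⟩) ^ β.1 w := by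
        simp only [div_zpow, Finset.prod_div_distrib]
        refine congrArg₂ _ rfl ?_
        rw [Fintype.prod_sigma]
        refine Finset.prod_congr rfl fun i _ => ?_
        rw [← β.2 i]
        exact MonB.zpow_sum' (X_ne D ⟨i, l i⟩) _ _
      beta_reduce
      rw [e]
      refine Subalgebra.prod_mem _ fun w _ => ?_
      rcases le_or_gt 0 (β.1 w) with h | h
      · obtain ⟨m, hm⟩ := Int.eq_ofNat_of_zero_le h
        rw [hm, zpow_natCast]
        refine pow_mem (Algebra.subset_adjoin ?_) m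
        exact ⟨_, hl w.1, w.2, rfl⟩
      · obtain ⟨m, hm⟩ := Int.eq_ofNat_of_zero_le (neg_nonneg.2 h.le)
        rw [neg_eq_iff_eq_neg.1 hm, _root_.zpow_neg, zpow_natCast, ← inv_pow, inv_div]
        refine pow_mem (Algebra.subset_adjoin ?_) m
        exact ⟨_, hβ.2 w h, l w.1, rfl⟩
    | zero => exact fun c => by rw [smul_zero]; exact zero_mem _
    | add z z' _ _ h h' => exact fun c => by rw [smul_add]; exact add_mem (h c) (h' c)
    | smul c' z _ h => exact fun c => by rw [smul_smul]; exact h _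
  intro z hz
  have h := key z hz 1
  rwa [one_smul] at h

lemma card_ge [DecidableEq D.Hx] (s : Finset D.Hx) :
    ∑ i, (Finset.univ.filter fun l => (⟨i, l⟩ : D.Hx) ∈ s).card ≤ s.card := by
  rw [← Finset.card_sigma]
  exact Finset.card_le_card fun w hw => (Finset.mem_filter.1 (Finset.mem_sigma.1 hw).2).2

lemma comb [DecidableEq D.Hx] (q : ℕ) (hq : (∃ i, -(D.n i : ℤ) ≤ v i ∧ v i ≤ -1) ∨
    ((∀ i, v i < 0) ∧ q < D.k + ∑ i, D.n i)) (β : Ix D v) :
    (∃ t ∈ (Finset.univ : Finset D.Hx), ∀ s, t ∉ s → P D v β (insert t s) → P D v β s) ∨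
      ∀ s ⊆ (Finset.univ : Finset D.Hx), s.card = q → ¬P D v β s := by
  by_cases h : ∃ i l l', 0 ≤ β.1 ⟨i, l⟩ ∧ β.1 ⟨i, l'⟩ < 0
  · obtain ⟨i, l, l', h1, h2⟩ := h
    refine Or.inl ⟨⟨i, l⟩, Finset.mem_univ _, fun s _ hP => ?_⟩
    have h3 : ∀ w, β.1 w < 0 → w ∈ s := fun w hw =>
      (Finset.mem_insert.1 (hP.2 w hw)).resolve_left fun e => by
        rw [e] at hw
        omega
    refine ⟨fun j => ?_, h3⟩
    obtain ⟨m, hm⟩ := hP.1 j
    rcases Finset.mem_insert.1 hm with e | e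
    · have e1 : j = i := congrArg Sigma.fst e
      subst e1
      exact ⟨l', h3 _ h2⟩
    · exact ⟨m, e⟩
  refine Or.inr fun s _ hs hP => ?_
  have h1 : ∀ i, v i < 0 → ∀ l, β.1 ⟨i, l⟩ < 0 := fun i hi l => by
    by_contra h2
    have h3 : 0 ≤ ∑ l, β.1 ⟨i, l⟩ := Finset.sum_nonneg fun l' _ => by
      by_contra h4
      exact h ⟨i, l, l', not_lt.1 h2, not_le.1 h4⟩
    rw [β.2 i] at h3
    omega
  rcases hq with ⟨i, h2, h3⟩ | ⟨hv, hq⟩
  · have h4 : ∑ l, β.1 ⟨i, l⟩ ≤ ∑ _l : Fin (D.n i + 1), (-1 : ℤ) :=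
      Finset.sum_le_sum fun l _ => by
        have := h1 i (by omega) l
        omega
    rw [β.2 i] at h4
    simp at h4
    omega
  · have h2 : ∑ i, (1 + D.n i) ≤
        ∑ i, (Finset.univ.filter fun l => (⟨i, l⟩ : D.Hx) ∈ s).card :=
      Finset.sum_le_sum fun i _ => by
        rw [Finset.filter_true_of_mem fun l _ => hP.2 _ (h1 i (hv i) l)]
        simp [add_comm]
    have h3 := h2.trans (card_ge s)
    rw [Finset.sum_add_distrib] at h3
    simp at h3
    omega

end LMON

open LMON in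
theorem st_LMON : St_LMON := fun D v q hq => by
  refine Ex.congr (M := fun s => (Nn D v s).toAddSubgroup)
    (fun s _ => le_antisymm (le_Ms v s) (Ms_le v s)) ?_
  refine (Ex.map (M := supp ℂ (P D v))
    (Finsupp.linearCombination ℂ fun β : Ix D v => mon D β.1).toAddMonoidHom ?_ ?_ ?_ ?_).1
    (Ex.supp (@comb D v LinearOrder.toDecidableEq q hq))
  · intro s s' h f hf β hβ
    exact hf β fun h1 => hβ ⟨fun i => (h1.1 i).imp fun l hl => h hl, fun w hw => h (h1.2 w hw)⟩
  · intro s f _ h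
    exact linearIndependent_iff.1 (li_mon D v) f h
  · intro s f hf
    exact (Finsupp.mem_span_image_iff_linearCombination ℂ).2
      ⟨f, (Finsupp.mem_supported' ℂ f).2 hf, rfl⟩
  · intro s z hz
    obtain ⟨f, hf, e⟩ := (Finsupp.mem_span_image_iff_linearCombination ℂ).1 hz
    exact ⟨f, (Finsupp.mem_supported' ℂ f).1 hf, e⟩

end Pool.Agent.Lib.CI
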