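import Pool.Agent.Lib.CI.BlueB
import Pool.Agent.Lib.MV.H_DEP

/-! Points on lines and plane cubics that are defined over a subfield. -/

open MvPolynomial Set Matrix WithZero Pool.Agent.Lib.MP_e39d36_ag Pool.Agent.Lib.MP_e39d36_ag.Var
  Pool.Agent.Lib.MP_cc3443_ag Pool.Agent.Lib.MV Pool.Agent.Lib.MV.End Pool.Agent.Lib.MV.Fb
  Pool.Agent.Lib.DU

set_option linter.unusedSectionVars false
set_option linter.unusedVariables false

noncomputable section

namespace Pool.Agent.Lib.CI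

open Pool.Agent.Lib.CI.Dat
open Pool.Agent.Lib.MV.G3 (acl Ov)

namespace LNA38

variable {κ : Type} [Field κ] [Algebra ℂ κ] {S : Set κ}

theorem ov_of {w : Fin 3 → κ} {r : Fin 3} (hr : w r = 1) {d : ℕ}
    (g : MvPolynomial (Fin 3) (acl S)) (hg : g.IsHomogeneous d) (h0 : ∃ x : Fin 3 → κ, aeval x g ≠ 0)
    (hw : aeval w g = 0) : Ov S (range w) 1 := by
  obtain ⟨x, hx⟩ := h0
  refine G3.st_dep κ S 1 d w r (MvPolynomial.map (algebraMap (acl S) κ) g) hr (fun h => hx ?_)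
    (hg.map _) (fun μ => ?_) ?_
  · rw [aeval_def, ← eval_map, h, map_zero]
  · rw [coeff_map]
    exact (coeff μ g).2
  · rw [eval_map, ← aeval_def, hw]

theorem mem_of_smul {w y : Fin 3 → κ} {r : Fin 3} (hr : w r = 1) {t : κ} (h : w = t • y)
    (hy : ∀ e, y e ∈ acl S) (e : Fin 3) : w e ∈ acl S := by
  have h1 : t * y r = 1 := by rw [← hr, h]; rfl
  rw [h, Pi.smul_apply, smul_eq_mul, eq_inv_of_mul_eq_one_left h1]
  exact mul_mem (inv_mem (hy r)) (hy e)

theorem root {A B C D x : κ} (hA : A ∈ acl S) (hB : B ∈ acl S) (hC : C ∈ acl S) (hD : D ∈ acl S)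
    (h : ¬(A = 0 ∧ B = 0 ∧ C = 0 ∧ D = 0)) (hx : A * x ^ 3 + B * x ^ 2 + C * x + D = 0) :
    x ∈ acl S := by
  refine G3.mem_acl_of_alg ⟨(⟨⟨A, hA⟩, ⟨B, hB⟩, ⟨C, hC⟩, ⟨D, hD⟩⟩ : Cubic (acl S)).toPoly,
    fun h0 => h ?_, ?_⟩
  · rw [Cubic.toPoly_eq_zero_iff] at h0
    exact ⟨congrArg (fun P : Cubic (acl S) => (P.a : κ)) h0,
      congrArg (fun P : Cubic (acl S) => (P.b : κ)) h0,
      congrArg (fun P : Cubic (acl S) => (P.c : κ)) h0,
      congrArg (fun P : Cubic (acl S) => (P.d : κ)) h0⟩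
  · simpa [Cubic.toPoly] using hx

theorem line {h w : Fin 3 → κ} (h0 : h ≠ 0) (hh : ∀ e, h e ∈ acl S) (hw : h ⬝ᵥ w = 0) :
    ∃ (a b : Fin 3 → κ) (s t : κ), a ⨯₃ b ≠ 0 ∧ (∀ e, a e ∈ acl S) ∧ (∀ e, b e ∈ acl S) ∧
      w = s • a + t • b := by
  obtain ⟨k, hk⟩ := Function.ne_iff.1 h0
  have hk' : h k ≠ 0 := hk
  have z0 : (0 : κ) ∈ acl S := zero_mem _
  have z1 := fun e => neg_mem (hh e)
  rw [dotProduct, Fin.sum_univ_three] at hw
  fin_cases k
  · refine ⟨![-h 1, h 0, 0], ![-h 2, 0, h 0], w 1 / h 0, w 2 / h 0, fun h1 => hk' ?_,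
      fun e => by fin_cases e <;> simp [hh], fun e => by fin_cases e <;> simp [hh], ?_⟩
    · simpa [cross_apply] using congrFun h1 0
    · have hk2 : h 0 ≠ 0 := hk'
      funext e
      fin_cases e <;> simp <;> field_simp
      linear_combination hw
  · refine ⟨![h 1, -h 0, 0], ![0, -h 2, h 1], w 0 / h 1, w 2 / h 1, fun h1 => hk' ?_,
      fun e => by fin_cases e <;> simp [hh], fun e => by fin_cases e <;> simp [hh], ?_⟩
    · simpa [cross_apply] using congrFun h1 1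
    · have hk2 : h 1 ≠ 0 := hk'
      funext e
      fin_cases e <;> simp <;> field_simp
      linear_combination hw
  · refine ⟨![h 2, 0, -h 0], ![0, h 2, -h 1], w 0 / h 2, w 1 / h 2, fun h1 => hk' ?_,
      fun e => by fin_cases e <;> simp [hh], fun e => by fin_cases e <;> simp [hh], ?_⟩
    · simpa [cross_apply] using congrFun h1 2
    · have hk2 : h 2 ≠ 0 := hk'
      funext e
      fin_cases e <;> simp <;> field_simp
      linear_combination hw

end LNA38

theorem st_LNA (T : Tools) : St_LNA := by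
  intro κ _ _ S w hS ⟨r, hr⟩
  refine ⟨fun h h0 hh hw => T.rk.ov hS ?_, fun c hc hw => ⟨?_, fun hl h h0 hh hhw => ?_⟩⟩
  · have ev : ∀ x : Fin 3 → κ, aeval x
        (∑ e, C ⟨h e, hh e⟩ * X e : MvPolynomial (Fin 3) (acl S)) = h ⬝ᵥ x := fun x => by
      simp [dotProduct]
    obtain ⟨k, hk⟩ := Function.ne_iff.1 h0
    refine LNA38.ov_of hr (d := 1) _ (IsHomogeneous.sum _ _ _ fun e _ =>
      (isHomogeneous_X _ e).C_mul _) ⟨Pi.single k 1, ?_⟩ ((ev w).trans hw)
    rw [ev]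
    simpa using hk
  · have ev : ∀ x : Fin 3 → κ, aeval x (∑ i, ∑ j, ∑ l, C ⟨c i j l, hc i j l⟩ * (X i * X j * X l) :
        MvPolynomial (Fin 3) (acl S)) = cub c x := fun x => by
      simp [cub, tri, mul_assoc]
    by_cases h0 : ∃ x, cub c x ≠ 0
    · obtain ⟨x, hx⟩ := h0
      refine Or.inl (T.rk.ov hS (LNA38.ov_of hr (d := 3) _ ?_ ⟨x, by rwa [ev]⟩ ((ev w).trans hw)))
      exact IsHomogeneous.sum _ _ _ fun i _ => IsHomogeneous.sum _ _ _ fun j _ =>
        IsHomogeneous.sum _ _ _ fun l _ =>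
          (((isHomogeneous_X _ i).mul (isHomogeneous_X _ j)).mul (isHomogeneous_X _ l)).C_mul _
    · push Not at h0
      have : CharZero κ := charZero_of_injective_algebraMap (algebraMap ℂ κ).injective
      refine Or.inr fun a b hab => ?_
      have h1 := h0 ((1 : κ) • a + (1 : κ) • b)
      have h2 := h0 ((1 : κ) • a + (-1 : κ) • b)
      rw [cub_comb, h0 a, h0 b] at h1 h2
      exact ⟨hab, h0 a, by linear_combination (h1 - h2) / 2, by linear_combination (h1 + h2) / 2,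
        h0 b⟩
  · obtain ⟨a, b, s, t, hab, ha, hb, hwe⟩ := LNA38.line h0 hh hhw
    by_cases ht : t = 0
    · exact LNA38.mem_of_smul hr (t := s) (by rw [hwe, ht, zero_smul, add_zero]) ha
    · have hx : s / t ∈ acl S := by
        refine LNA38.root (cub_mem hc ha)
          (pol_mem hc ha hb) (pol_mem hc hb ha)
          (cub_mem hc hb) (fun h1 => hl a b ⟨hab, h1⟩) ?_
        rw [hwe, cub_comb] at hw
        field_simp
        linear_combination hw
      refine LNA38.mem_of_smul hr (t := t) (y := (s / t) • a + b) ?_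
        fun e => add_mem (mul_mem hx (ha e)) (hb e)
      rw [hwe, smul_add, smul_smul, mul_div_cancel₀ _ ht]

end Pool.Agent.Lib.CI
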