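import Pool.Agent.Lib.CI.BlueA

open MvPolynomial Set Pool.Agent.Lib.MP_e39d36_ag Pool.Agent.Lib.MP_e39d36_ag.Var
  Pool.Agent.Lib.MV

set_option linter.unusedSectionVars false
set_option linter.unusedVariables false

noncomputable section

namespace Pool.Agent.Lib.CI

open Pool.Agent.Lib.CI.Dat

theorem st_LNY (T : Tools) (hREL : St_LREL) (hSAT : St_LSAT) (hVAN : St_LVAN) : St_LNY := by
  intro D F hF hJ K _ _ M
  obtain ⟨s1, s2⟩ := hSAT D F hF hJ K M
  obtain ⟨v1, v2⟩ := hVAN D F hF hJ K M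
  have hr := hREL D F hF K M
  have mM := (T.ch.bs M.x).2.2.2
  have S : SES (Rs M.x) (Ps' M.x) (Es M.x) (α M.x F).toAddMonoidHom (β M.x).toAddMonoidHom :=
    { mA := fun s s' h g hg t ht => mM _ h (hg t ht)
      mB := fun s s' h g hg t ht => mM _ h (hg t ht)
      inj := fun s a _ h => s1 a h
      fm := fun s a ha => (s2 s a).2 ha
      gm := fun s g hg => ⟨g, hg, rfl⟩
      gf := fun s a _ => (hr _).2 ⟨a, rfl⟩
      ex := fun s g hg h => by
        obtain ⟨a, rfl⟩ := (hr g).1 h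
        exact ⟨a, (s2 s a).1 hg, rfl⟩
      su := fun s z hz => hz }
  exact S.exC (Ex.pi fun a => v1 a.1) (Ex.pi v2)

end Pool.Agent.Lib.CI
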