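import Pool.Agent.Lib.CI.BlueA

open MvPolynomial Set Matrix WithZero Pool.Agent.Lib.MP_e39d36_ag Pool.Agent.Lib.MP_e39d36_ag.Var
  Pool.Agent.Lib.MP_cc3443_ag Pool.Agent.Lib.MV Pool.Agent.Lib.MV.End Pool.Agent.Lib.MV.Fb
  Pool.Agent.Lib.DU

set_option linter.unusedSectionVars false
set_option linter.unusedVariables false

noncomputable section

namespace Pool.Agent.Lib.CI

open Pool.Agent.Lib.CI.Dat

namespace LNZ

theorem right_inv {κ O B : Type} [Field κ] [Fintype O] [DecidableEq O] [Fintype B]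
    (G : Matrix O B κ) (h : ∀ l : O → κ, l ᵥ* G = 0 → l = 0) : ∃ N : Matrix B O κ, G * N = 1 := by
  classical
  obtain ⟨ψ, hψ⟩ := LinearMap.exists_leftInverse_of_injective (Matrix.toLin' Gᵀ)
    (LinearMap.ker_eq_bot'.2 fun l hl => h l (by rwa [Matrix.toLin'_apply, mulVec_transpose] at hl))
  refine ⟨(LinearMap.toMatrix' ψ)ᵀ, ?_⟩
  have h1 := congrArg LinearMap.toMatrix' hψ
  rw [LinearMap.toMatrix'_comp, LinearMap.toMatrix'_toLin', LinearMap.toMatrix'_id] at h1
  have h2 := congrArg Matrix.transpose h1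
  rwa [transpose_mul, transpose_transpose, transpose_one] at h2

theorem der_sum {R B : Type} [CommRing R] [Algebra ℂ R] [Fintype B] (θ : B → Derivation ℂ R R)
    (c : B → R) : ∃ δ : Derivation ℂ R R, ∀ z, δ z = ∑ b, θ b z * c b := by
  refine ⟨∑ b, c b • θ b, fun z => ?_⟩
  have h := map_sum (Derivation.coeFnAddMonoidHom (R := ℂ) (A := R) (M := R))
    (fun b => c b • θ b) Finset.univ
  have h2 := congrFun h z
  simp only [Derivation.coeFnAddMonoidHom_apply, Finset.sum_apply, Derivation.coe_smul,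
    Pi.smul_apply, smul_eq_mul] at h2
  rw [h2]
  exact Finset.sum_congr rfl fun b _ => mul_comm _ _

/-- the Jacobian criterion for a non-zero-divisor -/
theorem key (hL : St_LNZ0) {R ι B : Type} [CommRing R] [Algebra ℂ R] [IsNoetherianRing R]
    [Fintype ι] [Fintype B] (G : Option ι → R) (θ : B → Derivation ℂ R R)
    (hJ : ∀ (κ : Type) [Field κ] [Algebra ℂ κ] (π : R →ₐ[ℂ] κ), (∀ o, π (G o) = 0) →
      ∀ l : Option ι → κ, (∀ b, ∑ o, l o * π (θ b (G o)) = 0) → l = 0) (z : R)
    (hz : G none * z ∈ Ideal.span (range fun i => G (some i))) :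
    z ∈ Ideal.span (range fun i => G (some i)) := by
  classical
  set I := Ideal.span (range fun i => G (some i)) with hI
  rw [← Ideal.Quotient.eq_zero_iff_mem] at hz ⊢
  rw [map_mul] at hz
  refine hL (R ⧸ I) (Ideal.Quotient.mk I (G none)) ?_ _ hz
  intro p hp hf
  let _ : Field ((R ⧸ I) ⧸ p) := Ideal.Quotient.field p
  let π : R →ₐ[ℂ] (R ⧸ I) ⧸ p := (Ideal.Quotient.mkₐ ℂ p).comp (Ideal.Quotient.mkₐ ℂ I)
  have hπ : ∀ z, π z = 0 ↔ Ideal.Quotient.mk I z ∈ p := fun z => Ideal.Quotient.eq_zero_iff_mem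
  have hs : Function.Surjective π :=
    (Ideal.Quotient.mkₐ_surjective ℂ p).comp (Ideal.Quotient.mkₐ_surjective ℂ I)
  have h0 : ∀ o, π (G o) = 0 := by
    rintro (_ | i)
    · exact (hπ _).2 hf
    · refine (hπ _).2 ?_
      rw [Ideal.Quotient.eq_zero_iff_mem.2 (Ideal.subset_span (mem_range_self i))]
      exact p.zero_mem
  let M : Matrix (Option ι) B R := Matrix.of fun o b => θ b (G o)
  obtain ⟨N', hN'⟩ := right_inv (M.map π) fun l hl => hJ _ π h0 l fun b => congrFun hl b
  choose N hN using fun b o => hs (N' b o)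
  have hH : π (M * Matrix.of N).det = 1 := by
    have h1 : (Matrix.of N).map π = N' := by
      ext b o
      exact hN b o
    rw [AlgHom.map_det, AlgHom.mapMatrix_apply, Matrix.map_mul, h1, hN', det_one]
  obtain ⟨δ, hδ⟩ := der_sum θ (Matrix.of N *ᵥ ((M * Matrix.of N).adjugate *ᵥ Pi.single none 1))
  have hG : ∀ o, δ (G o) = ((M * Matrix.of N).det • (Pi.single none 1 : Option ι → R)) o := by
    intro o
    have h1 : δ (G o) = (M *ᵥ (Matrix.of N *ᵥ
        ((M * Matrix.of N).adjugate *ᵥ Pi.single none 1))) o := hδ _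
    rw [h1, mulVec_mulVec, mulVec_mulVec, mul_adjugate, smul_mulVec, one_mulVec]
  have hd : ∀ z, Ideal.Quotient.mkₐ ℂ I z = 0 → Ideal.Quotient.mkₐ ℂ I (δ z) = 0 := by
    intro z hz
    rw [Ideal.Quotient.mkₐ_eq_mk, Ideal.Quotient.eq_zero_iff_mem] at hz ⊢
    obtain ⟨c, rfl⟩ := Ideal.mem_span_range_iff_exists_fun.1 hz
    rw [map_sum]
    refine I.sum_mem fun i _ => ?_
    rw [Derivation.leibniz, hG]
    simp only [Pi.smul_apply, ne_eq, reduceCtorEq, not_false_eq_true, Pi.single_eq_of_ne,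
      smul_eq_mul, mul_zero, zero_add]
    exact I.mul_mem_right _ (Ideal.subset_span (mem_range_self i))
  refine ⟨Derivation.liftOfSurjective (Ideal.Quotient.mkₐ_surjective ℂ I) hd, fun h => ?_⟩
  have h2 := Derivation.liftOfSurjective_apply (Ideal.Quotient.mkₐ_surjective ℂ I) hd (G none)
  rw [Ideal.Quotient.mkₐ_eq_mk] at h2
  rw [h2, ← hπ, hG] at h
  simp only [Pi.smul_apply, Pi.single_eq_same, smul_eq_mul, mul_one] at h
  exact one_ne_zero (hH.symm.trans h)

theorem res {L : Type} [Field L] [Algebra ℂ L] (R : Subalgebra ℂ L) (θ : Derivation ℂ L L)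
    (h : ∀ z ∈ R, θ z ∈ R) : ∃ θ' : Derivation ℂ R R, ∀ z, (θ' z : L) = θ z :=
  ⟨Derivation.mk'
    { toFun := fun z => ⟨θ z, h z z.2⟩
      map_add' := fun a b => Subtype.ext (by simp)
      map_smul' := fun c a => Subtype.ext (by simp) }
    (fun a b => Subtype.ext (by simp)), fun _ => rfl⟩

variable {D : Dat} {F : D.Fm}

theorem noeth (A : Finset D.Hx) : IsNoetherianRing (Bs D.XL A) := by
  refine isNoetherianRing_of_fg (Subalgebra.fg_def.2 ⟨_, ?_, rfl⟩)
  refine (finite_range fun q : D.Hx × D.Hx => D.XL q.1 / D.XL q.2).subset ?_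
  rintro z ⟨a, -, p, rfl⟩
  exact ⟨(⟨a.1, p⟩, a), rfl⟩

/-- the Jacobian condition in a chart -/
theorem jac (T : Tools) (hF : D.Hom F) (hJ : G_jac F) (τ : D.Ch) {κ ι : Type} [Field κ]
    [Algebra ℂ κ] [Fintype ι] (y : D.Hx → κ) (hy : ∀ s, y ⟨s, τ s⟩ = 1) (o : Option D.Hx)
    (ho : ∀ a, o = some a → y a = 0) (e : ι → Fin D.m) (he : Function.Injective e) (l : ι → κ)
    (h0 : ∀ i, aeval y (F (e i)) = 0)
    (h1 : ∀ b : D.Hx, b.2 ≠ τ b.1 → o ≠ some b →
      ∑ i, l i * aeval y (pderiv b (F (e i))) = 0) : l = 0 := by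
  classical
  have hs : ∀ t : Fin D.m → κ,
      ∑ j, (∑ i, if e i = j then l i else 0) * t j = ∑ i, l i * t (e i) := by
    intro t
    simp only [Finset.sum_mul]
    rw [Finset.sum_comm]
    simp
  have h2 : ∀ s, ∑ i, l i * aeval y (pderiv ⟨s, τ s⟩ (F (e i))) = 0 := by
    intro s
    have h3 : ∑ p, y ⟨s, p⟩ * ∑ i, l i * aeval y (pderiv ⟨s, p⟩ (F (e i))) = 0 := by
      simp only [Finset.mul_sum]
      rw [Finset.sum_comm]
      refine Finset.sum_eq_zero fun i _ => ?_
      have h4 := T.pi.euler hF y (e i) s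
      rw [h0, mul_zero] at h4
      simp only [mul_left_comm _ (l i)]
      rw [← Finset.mul_sum, h4, mul_zero]
    rw [Finset.sum_eq_single (τ s), hy, one_mul] at h3
    · exact h3
    · intro p _ hp
      by_cases hop : o = some ⟨s, p⟩
      · rw [ho _ hop, zero_mul]
      · rw [h1 ⟨s, p⟩ hp hop, mul_zero]
    · simp
  have h := hJ κ y (fun j => ∑ i, if e i = j then l i else 0) o
    (fun s => ⟨τ s, by rw [hy]; exact one_ne_zero⟩) (fun j hj => ?_) ho (fun a ha => ?_)
  · funext i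
    have h5 := congrFun h (e i)
    simpa [he.eq_iff] using h5
  · obtain ⟨i, -, hi⟩ := Finset.exists_ne_zero_of_sum_ne_zero hj
    obtain rfl : e i = j := by
      by_contra hc
      exact hi (if_neg hc)
    exact h0 i
  · rw [hs fun j => aeval y (pderiv a (F j))]
    by_cases hb : a.2 = τ a.1
    · obtain ⟨s, p⟩ := a
      obtain rfl : p = τ s := hb
      exact h2 s
    · exact h1 a hb ha

theorem in_iff {A : Finset D.Hx} {τ : D.Ch} (f : Fin D.m → Bs D.XL A)
    (hf : ∀ j, (f j : D.L) = fl F τ j) (j : ℕ) (b : Bs D.XL A) :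
    In F j A τ b ↔ b ∈ Ideal.span (range fun i : {a : Fin D.m // (a : ℕ) < j} => f i.1) := by
  classical
  rw [Ideal.mem_span_range_iff_exists_fun]
  have hs : ∀ t : Fin D.m → D.L, ∑ a ∈ Finset.univ.filter (fun a : Fin D.m => (a : ℕ) < j), t a
      = ∑ i : {a : Fin D.m // (a : ℕ) < j}, t i.1 := fun t => Finset.sum_subtype _ (by simp) t
  constructor
  · rintro ⟨c, hc, hb⟩
    refine ⟨fun i => ⟨c i.1, hc i.1⟩, Subtype.ext ?_⟩
    rw [hb, hs]
    simp [hf]
  · rintro ⟨c, rfl⟩
    refine ⟨fun a => if h : (a : ℕ) < j then c ⟨a, h⟩ else 0, fun a => ?_, ?_⟩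
    · dsimp only
      split_ifs
      · exact Subtype.property _
      · exact zero_mem _
    · rw [hs, AddSubmonoidClass.coe_finsetSum]
      refine Finset.sum_congr rfl fun i _ => ?_
      simp only [dif_pos i.2, Subalgebra.coe_mul, hf]

end LNZ

open LNZ in
theorem st_LNZ (T : Tools) (hL : St_LNZ0) (hT : St_LTH) : St_LNZ := by
  classical
  intro D F hF hJ A τ hτ b hb
  obtain ⟨hne, hθ⟩ := hT D
  have := noeth A
  let x : D.Hx → Bs D.XL A := fun a =>
    ⟨D.rat D.XL τ a, Algebra.subset_adjoin ⟨⟨a.1, τ a.1⟩, hτ a.1, a.2, rfl⟩⟩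
  have hx : ∀ P : MvPolynomial D.Hx ℂ, ((aeval x P : Bs D.XL A) : D.L)
      = aeval (D.rat D.XL τ) P := fun P => comp_aeval_apply x (Bs D.XL A).val P
  have hx1 : ∀ s, x ⟨s, τ s⟩ = 1 := fun s => Subtype.ext (div_self (hne _))
  have hf : ∀ j, ((aeval x (F j) : Bs D.XL A) : D.L) = fl F τ j := fun j =>
    (hx _).trans (T.ch.rat_F hF D.XL hne τ j).1
  have hex : ∀ c : {c : D.Hx // c.2 ≠ τ c.1}, ∃ θ : Derivation ℂ (Bs D.XL A) (Bs D.XL A),
      ∀ P : MvPolynomial D.Hx ℂ, θ (aeval x P) = aeval x (pderiv c.1 P) := by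
    intro c
    obtain ⟨θ, h1, h2⟩ := hθ τ c.1 c.2
    obtain ⟨θ', h3⟩ := res _ θ (h1 A)
    exact ⟨θ', fun P => Subtype.ext (by rw [h3, hx, hx, h2])⟩
  choose θ hθ' using hex
  have hπ : ∀ {κ : Type} [Field κ] [Algebra ℂ κ] (π : Bs D.XL A →ₐ[ℂ] κ) (P : MvPolynomial D.Hx ℂ),
      π (aeval x P) = aeval (fun a => π (x a)) P := fun π P => comp_aeval_apply x π P
  refine ⟨fun j h => ?_, fun j a h => ?_⟩
  · let e : Option {a : Fin D.m // (a : ℕ) < j} → Fin D.m := fun o => o.elim j Subtype.val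
    have he : Function.Injective e := by
      rintro (_ | i) (_ | i') h
      · rfl
      · exact absurd i'.2 (by rw [← show j = i'.1 from h]; exact lt_irrefl _)
      · exact absurd i.2 (by rw [show i.1 = j from h]; exact lt_irrefl _)
      · exact congrArg some (Subtype.ext h)
    refine (in_iff _ hf j ⟨b, hb⟩).2 (key hL (fun o => aeval x (F (e o))) θ ?_ _ ?_)
    · intro κ _ _ π h0 l hl
      refine jac T hF hJ τ (fun a => π (x a)) (fun s => by rw [hx1, map_one]) none (by simp) e he l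
        (fun i => (hπ π _).symm.trans (h0 i)) fun c hc _ => ?_
      have h1 := hl ⟨c, hc⟩
      simpa only [hθ', hπ] using h1
    · refine (in_iff _ hf j _).1 ?_
      rw [Subalgebra.coe_mul, hf]
      exact h
  · by_cases ha : a.2 = τ a.1
    · obtain ⟨s, p⟩ := a
      obtain rfl : p = τ s := ha
      rwa [show D.rat D.XL τ ⟨s, τ s⟩ = 1 from div_self (hne _), one_mul] at h
    · have hk := key hL (fun o : Option {i : Fin D.m // (i : ℕ) < j} =>
        aeval x (o.elim (X a) fun i => F i.1)) θ ?_ ⟨b, hb⟩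
      · simp only [Option.elim_none, Option.elim_some, aeval_X] at hk
        exact (in_iff _ hf j ⟨b, hb⟩).2 (hk ((in_iff _ hf j _).1 h))
      · intro κ _ _ π h0 l hl
        have h2 : ∀ (c : D.Hx) (hc : c.2 ≠ τ c.1),
            l none * aeval (fun a => π (x a)) (pderiv c (X a : MvPolynomial D.Hx ℂ))
            + ∑ i, l (some i) * aeval (fun a => π (x a)) (pderiv c (F i.1)) = 0 := by
          intro c hc
          have h1 := hl ⟨c, hc⟩
          simpa only [hθ', hπ, Fintype.sum_option, Option.elim] using h1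
        have h3 : (fun i => l (some i)) = 0 := by
          refine jac T hF hJ τ (fun a => π (x a)) (fun s => by rw [hx1, map_one]) (some a) ?_
            Subtype.val Subtype.val_injective _
            (fun i => (hπ π _).symm.trans (h0 (some i))) fun c hc hac => ?_
          · rintro a' ⟨rfl⟩
            simpa using h0 none
          · have h4 := h2 c hc
            rwa [pderiv_X_of_ne (fun h => hac (congrArg some h)), map_zero, mul_zero,
              zero_add] at h4
        funext o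
        rcases o with _ | i
        · have h4 := h2 a ha
          simpa [fun i => congrFun h3 i] using h4
        · exact congrFun h3 i

end Pool.Agent.Lib.CI
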