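import Pool.Agent.Lib.CI.BlueA

noncomputable section

namespace Pool.Agent.Lib.CI

namespace LNZ0

variable {A : Type} [CommRing A] [Algebra ℂ A] (f : A) (δ : Derivation ℂ A A)

lemma step (k : ℕ) : ∀ g, f ^ k * g = 0 → ∃ h l, f ^ l * h = 0 ∧ δ f ^ k * g = f * h := by
  induction k with
  | zero => exact fun g hg => ⟨0, 0, mul_zero _, by simpa using hg⟩
  | succ k ih =>
    intro g hg
    have h1 := congrArg δ hg
    rw [map_zero, δ.leibniz, δ.leibniz_pow, Nat.add_sub_cancel, smul_eq_mul, smul_eq_mul,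
      smul_eq_mul, nsmul_eq_mul] at h1
    obtain ⟨c, hc⟩ : ∃ c : A, c * ((k + 1 : ℕ) : A) = 1 :=
      ⟨algebraMap ℂ A ((k + 1 : ℕ) : ℂ)⁻¹, by
        rw [← map_natCast (algebraMap ℂ A), ← map_mul,
          inv_mul_cancel₀ (Nat.cast_ne_zero.2 k.succ_ne_zero), map_one]⟩
    obtain ⟨h, l, h2, h3⟩ := ih (δ f * g + c * f * δ g) (by
      linear_combination c * h1 - f ^ k * δ f * g * hc)
    refine ⟨h - c * δ f ^ k * δ g, l + k + 2, ?_, by linear_combination h3⟩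
    linear_combination f ^ (k + 2) * h2 - c * δ f ^ k * f ^ (l + 1) * h1 +
      c * δ f ^ (k + 1) * f ^ l * ((k + 1 : ℕ) : A) * hg

lemma iter (n : ℕ) (g : A) (hg : f * g = 0) :
    ∃ N h l, f ^ l * h = 0 ∧ δ f ^ N * g = f ^ n * h := by
  induction n with
  | zero => exact ⟨0, g, 1, by simpa using hg, by rw [pow_zero, pow_zero]⟩
  | succ n ih =>
    obtain ⟨N, h, l, h1, h2⟩ := ih
    obtain ⟨h', l', h3, h4⟩ := step f δ l h h1
    exact ⟨l + N, h', l', h3, by linear_combination δ f ^ l * h2 + f ^ n * h4⟩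

end LNZ0

theorem st_LNZ0 : St_LNZ0 := by
  intro A _ _ _ f hf g hg
  by_contra h0
  obtain ⟨p, hp, hI⟩ := Ideal.exists_le_maximal (LinearMap.ker (LinearMap.mulRight A g)) fun h =>
    h0 (by simpa using (Ideal.eq_top_iff_one _).1 h)
  obtain ⟨δ, hδ⟩ := hf p hp (hI hg)
  obtain ⟨n, h1, h2⟩ :=
    ((Module.End.eventually_disjoint_ker_pow_range_pow (LinearMap.mulLeft A f)).and
    (Filter.eventually_ge_atTop 1)).exists
  obtain ⟨N, h, -, -, h3⟩ := LNZ0.iter f δ n g hg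
  rw [LinearMap.pow_mulLeft] at h1
  obtain ⟨n, rfl⟩ : ∃ m, n = m + 1 := ⟨n - 1, by omega⟩
  have h4 : δ f ^ N * g = 0 := Submodule.disjoint_def.1 h1 _
    (show f ^ (n + 1) * (δ f ^ N * g) = 0 by linear_combination f ^ n * δ f ^ N * hg) ⟨h, h3.symm⟩
  exact hδ (hp.isPrime.mem_of_pow_mem N (hI h4))

end Pool.Agent.Lib.CI
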