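import Pool.Agent.Lib.CI.BlueA
import Pool.Agent.Lib.MV.B_PSI

open MvPolynomial Set Pool.Agent.Lib.MP_e39d36_ag Pool.Agent.Lib.MV

set_option linter.unusedSectionVars false
set_option linter.unusedVariables false

noncomputable section

namespace Pool.Agent.Lib.CI

open Pool.Agent.Lib.CI.Dat Pool.Agent.Lib.MV.PsiB

namespace LPSI

variable {D : Dat}

lemma XL_zero (s : Fin D.k) : D.XL ⟨s, 0⟩ = 1 := by simp [Dat.XL]

lemma XL_succ (s : Fin D.k) (l : Fin (D.n s)) : D.XL ⟨s, l.succ⟩ =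
    algebraMap (MvPolynomial (Σ s, Fin (D.n s)) ℂ) D.L (X ⟨s, l⟩) := by simp [Dat.XL]

lemma XL_mem (a : D.Hx) : D.XL a ∈ D.LR :=
  Algebra.subset_adjoin ⟨⟨a.1, 0⟩, Finset.mem_univ _, a.2, by rw [XL_zero, div_one]⟩

lemma aeval_mem (P : MvPolynomial D.Hx ℂ) : aeval D.XL P ∈ D.LR := by
  induction P using MvPolynomial.induction_on with
  | C c =>
    rw [aeval_C]
    exact D.LR.algebraMap_mem c
  | add p q hp hq =>
    rw [map_add]
    exact add_mem hp hq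
  | mul_X p t hp =>
    rw [map_mul, aeval_X]
    exact mul_mem hp (XL_mem t)

lemma clear (hX : ∀ a, D.XL a ≠ 0) {b : D.L} (hb : b ∈ D.LR) :
    ∃ Q : MvPolynomial D.Hx ℂ, aeval D.XL Q ≠ 0 ∧ (aeval D.XL Q)⁻¹ ∈ D.LR ∧
      ∃ P : MvPolynomial D.Hx ℂ, aeval D.XL Q * b = aeval D.XL P := by
  induction hb using Algebra.adjoin_induction with
  | mem z hz =>
    obtain ⟨a, -, p, rfl⟩ := hz
    refine ⟨X a, by rw [aeval_X]; exact hX a,
      Algebra.subset_adjoin ⟨a, Finset.mem_univ _, 0, ?_⟩, X ⟨a.1, p⟩, ?_⟩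
    · rw [XL_zero, one_div, aeval_X]
    · rw [aeval_X, aeval_X, mul_div_cancel₀ _ (hX a)]
  | algebraMap c =>
    exact ⟨1, by rw [map_one]; exact one_ne_zero, by rw [map_one, inv_one]; exact one_mem _,
      C c, by rw [aeval_C, map_one, one_mul]⟩
  | add z z' _ _ h h' =>
    obtain ⟨c, h1, h3, P, h4⟩ := h
    obtain ⟨c', h5, h7, P', h8⟩ := h'
    refine ⟨c * c', by rw [map_mul]; exact mul_ne_zero h1 h5, ?_, c' * P + c * P', ?_⟩
    · rw [map_mul, mul_inv]; exact mul_mem h3 h7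
    · rw [map_add, map_mul, map_mul, map_mul, ← h4, ← h8]; ring
  | mul z z' _ _ h h' =>
    obtain ⟨c, h1, h3, P, h4⟩ := h
    obtain ⟨c', h5, h7, P', h8⟩ := h'
    refine ⟨c * c', by rw [map_mul]; exact mul_ne_zero h1 h5, ?_, P * P', ?_⟩
    · rw [map_mul, mul_inv]; exact mul_mem h3 h7
    · rw [map_mul, mul_mul_mul_comm, h4, h8, map_mul]

lemma exists_e (D : Dat) : ∃ e : MvPolynomial D.Hx ℂ →ₐ[ℂ] D.LR,
    ∀ P, (e P : D.L) = aeval D.XL P :=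
  ⟨(aeval D.XL).codRestrict D.LR aeval_mem, fun _ => rfl⟩

end LPSI

open LPSI

theorem st_LPSI (T : Tools) : St_LPSI := by
  intro D F _ K _ _ M
  set φ : MvPolynomial (Σ s, Fin (D.n s)) ℂ →ₐ[ℂ] K :=
    aeval fun a => M.x ⟨a.1, a.2.succ⟩ with hφ
  obtain ⟨ψ, hψ⟩ := exists_psi φ
  have hy : ∀ a, (D.XL a, M.x a) ∈ Gr φ := by
    rintro ⟨s, l⟩
    refine Fin.cases ?_ (fun l => ?_) l
    · rw [M.one s, XL_zero]
      exact one_mem _
    · have := mem_gr (φ := φ) (X ⟨s, l⟩)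
      rw [hφ, aeval_X] at this
      rw [XL_succ]
      exact this
  have hX : ∀ a, D.XL a ≠ 0 := fun a => gr_ne (hy a) (M.hyp.1 a)
  have hl : D.LR ≤ (Gr φ).map (AlgHom.fst ℂ D.L K) := Algebra.adjoin_le (by
    rintro _ ⟨a, -, p, rfl⟩
    exact ⟨_, gr_div (hy ⟨a.1, p⟩) (hy a) (M.hyp.1 a), rfl⟩)
  have hle : ∀ b ∈ D.LR, (b, ψ b) ∈ Gr φ := fun b hb => by
    obtain ⟨⟨z, w⟩, h, rfl⟩ := hl hb
    rwa [← hψ z w h] at h
  have hev : ∀ P : MvPolynomial D.Hx ℂ, ψ (aeval D.XL P) = aeval M.x P := fun P =>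
    hψ _ _ (gr_aeval hy P)
  have hr : D.rat M.x (fun _ => 0) = M.x := funext fun a => by
    rw [Dat.rat, M.one, div_one]
  have hk := M.hyp.2.2 fun _ => 0
  rw [hr] at hk
  let Ψ : D.LR →ₐ[ℂ] K := AlgHom.ofLinearMap (ψ ∘ₗ D.LR.val.toLinearMap)
    (hψ _ _ (one_mem _)) fun a b => hψ _ _ (mul_mem (hle a a.2) (hle b b.2))
  have hΨ : ∀ b : D.LR, Ψ b = ψ b := fun _ => rfl
  refine ⟨Ψ, fun a b h => by rw [hΨ, h]; exact hψ _ _ (hy a), fun b => ⟨fun h0 => ?_, fun h => ?_⟩⟩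
  · obtain ⟨Q, h1, h2, P, h3⟩ := clear hX b.2
    have h4 : ψ (aeval D.XL Q * b) = ψ (aeval D.XL Q) * ψ b :=
      hψ _ _ (mul_mem (hle _ (aeval_mem Q)) (hle b b.2))
    rw [← hΨ b, h0, mul_zero, h3, hev] at h4
    obtain ⟨e, he⟩ := exists_e D
    have h5 : Ideal.span (range F ∪ range fun s => (X ⟨s, 0⟩ - 1 : MvPolynomial D.Hx ℂ)) ≤
        (II F D.m).comap e := by
      rw [Ideal.span_le]
      rintro _ (⟨j, rfl⟩ | ⟨s, rfl⟩)
      · exact Ideal.mem_comap.2 (Ideal.subset_span ⟨j, j.2, he _⟩)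
      · have : e (X ⟨s, 0⟩ - 1) = 0 := Subtype.ext (by
          rw [he, map_sub, aeval_X, map_one, XL_zero, sub_self, ZeroMemClass.coe_zero])
        refine Ideal.mem_comap.2 ?_
        rw [this]
        exact zero_mem _
    have h6 : e P ∈ II F D.m := Ideal.mem_comap.1 (h5 ((hk P).1 h4))
    have h7 : b = ⟨_, h2⟩ * e P := Subtype.ext (by
      rw [MulMemClass.coe_mul, he, ← h3, inv_mul_cancel_left₀ h1])
    rw [h7]
    exact Ideal.mul_mem_left _ _ h6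
  · have h1 : II F D.m ≤ RingHom.ker Ψ := by
      refine Ideal.span_le.2 ?_
      rintro c ⟨a, -, hc⟩
      change Ψ c = 0
      rw [hΨ, hc, hev]
      exact (hk _).2 (Ideal.subset_span (Or.inl ⟨a, rfl⟩))
    exact h1 h

end Pool.Agent.Lib.CI
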