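import Pool.Agent.Lib.CI.BlueA

open MvPolynomial Set Matrix WithZero Pool.Agent.Lib.MP_e39d36_ag Pool.Agent.Lib.MP_e39d36_ag.Var
  Pool.Agent.Lib.MP_cc3443_ag Pool.Agent.Lib.MV Pool.Agent.Lib.MV.End Pool.Agent.Lib.MV.Fb
  Pool.Agent.Lib.DU

set_option linter.unusedSectionVars false
set_option linter.unusedVariables false

noncomputable section

namespace Pool.Agent.Lib.CI

open Pool.Agent.Lib.CI.Dat
open Pool.Agent.Lib.MV.G3 (acl Ov)

namespace LREL

/-- The chain rule. -/
lemma chain {σ F : Type} [Fintype σ] [CommRing F] [Algebra ℂ F] {M : Type} [AddCommGroup M]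
    [Module F M] [Module ℂ M] [IsScalarTower ℂ F M]
    (d : Derivation ℂ F M) (z : σ → F) (P : MvPolynomial σ ℂ) :
    ∑ v, aeval z (pderiv v P) • d (z v) = d (aeval z P) := by
  classical
  induction P using MvPolynomial.induction_on with
  | C a => simp
  | add p q hp hq => simp only [map_add, add_smul, Finset.sum_add_distrib, hp, hq]
  | mul_X p w hp =>
    simp only [Derivation.leibniz, smul_eq_mul, map_add, map_mul, aeval_X, add_smul, mul_smul,
      Finset.sum_add_distrib, ← Finset.smul_sum, hp, pderiv_X]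
    rw [Finset.sum_eq_single w (fun v _ hv => by simp [Pi.single_eq_of_ne hv.symm])
      (fun h => absurd (Finset.mem_univ w) h)]
    simp

lemma α_apply {D : Dat} {K : Type} [Field K] [Algebra ℂ K] (x : D.Hx → K) (F : D.Fm)
    (c : Fin D.m → K) (b : D.Hx) : α x F c b = ∑ j, c j * aeval x (pderiv b (F j)) := by
  simp [α, Fintype.linearCombination_apply, Finset.sum_apply]

end LREL

theorem st_LREL (T : Tools) (h : St_LDER) : St_LREL := by
  intro D F hF K _ _ M g
  have h0 := (T.ch.cfg hF M).1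
  have h1 : ∀ j s, ∑ p, aeval M.x (pderiv ⟨s, p⟩ (F j)) * M.x ⟨s, p⟩ = 0 := fun j s => by
    have := T.pi.euler hF M.x j s
    rw [h0, mul_zero] at this
    simpa only [mul_comm] using this
  refine ⟨fun hg => ?_, ?_⟩
  · by_contra hn
    have h2 : g ∉ LinearMap.range (α M.x F) := fun ⟨a, ha⟩ => hn ⟨a, ha.symm⟩
    obtain ⟨φ, h3, h4⟩ := Submodule.exists_dual_map_eq_bot_of_notMem h2 inferInstance
    let e : D.Hx → K := fun a => φ fun b => if a = b then 1 else 0
    have h5 : ∀ v : D.Hx → K, (∀ s, ∑ p, v ⟨s, p⟩ * M.x ⟨s, p⟩ = 0) →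
        ∑ a, v a * (e a - e ⟨a.1, 0⟩ * M.x a) = φ v := fun v hv => by
      have h6 : ∑ a, v a * (e ⟨a.1, 0⟩ * M.x a) = 0 := by
        rw [Fintype.sum_sigma]
        refine Finset.sum_eq_zero fun s _ => ?_
        change ∑ p, v ⟨s, p⟩ * (e ⟨s, 0⟩ * M.x ⟨s, p⟩) = 0
        simp only [mul_left_comm _ (e _), ← Finset.mul_sum, hv, mul_zero]
      simp only [mul_sub, Finset.sum_sub_distrib, h6, sub_zero]
      exact (φ.pi_apply_eq_sum_univ v).symm
    obtain ⟨θ, hθ⟩ := h D F K M (fun a => e a - e ⟨a.1, 0⟩ * M.x a)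
      (fun s => by simp [M.one]) fun j => by
        rw [h5 _ (h1 j)]
        refine (Submodule.eq_bot_iff _).1 h4 _ ⟨_, ⟨Pi.single j 1, funext fun b => ?_⟩, rfl⟩
        rw [LREL.α_apply, Finset.sum_eq_single j (fun i _ hi => by simp [hi]) (by simp)]
        simp
    have h7 : ∑ a, g a • KaehlerDifferential.D ℂ K (M.x a) = 0 := congrArg Prod.fst hg
    have h8 := congrArg θ.liftKaehlerDifferential h7
    simp only [map_sum, map_smul, Derivation.liftKaehlerDifferential_comp_D, map_zero, hθ,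
      smul_eq_mul] at h8
    exact h3 ((h5 g fun s => congrFun (congrArg Prod.snd hg) s).symm.trans h8)
  · rintro ⟨a, rfl⟩
    refine Prod.ext ?_ (funext fun s => ?_)
    · change ∑ b, α M.x F a b • KaehlerDifferential.D ℂ K (M.x b) = 0
      simp only [LREL.α_apply, Finset.sum_smul, mul_smul]
      rw [Finset.sum_comm]
      simp only [← Finset.smul_sum, LREL.chain, h0, map_zero, smul_zero, Finset.sum_const_zero]
    · change ∑ p, α M.x F a ⟨s, p⟩ * M.x ⟨s, p⟩ = 0
      simp only [LREL.α_apply, Finset.sum_mul, mul_assoc]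
      rw [Finset.sum_comm]
      simp only [← Finset.mul_sum, h1, mul_zero, Finset.sum_const_zero]

end Pool.Agent.Lib.CI
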