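import Pool.Agent.Lib.CI.BlueA

open MvPolynomial Set Matrix WithZero Pool.Agent.Lib.MP_e39d36_ag Pool.Agent.Lib.MP_e39d36_ag.Var
  Pool.Agent.Lib.MP_cc3443_ag Pool.Agent.Lib.MV Pool.Agent.Lib.MV.End Pool.Agent.Lib.MV.Fb
  Pool.Agent.Lib.DU

set_option linter.unusedSectionVars false
set_option linter.unusedVariables false

noncomputable section

namespace Pool.Agent.Lib.CI

open Pool.Agent.Lib.CI.Dat

namespace LSA

variable {D : Dat}

theorem XL_ne (a : D.Hx) : D.XL a ≠ 0 := by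
  obtain ⟨s, p⟩ := a
  induction p using Fin.cases with
  | zero => exact one_ne_zero
  | succ l =>
    exact (map_ne_zero_iff _ (IsFractionRing.injective _ _)).mpr (MvPolynomial.X_ne_zero _)

theorem quot_mem {A : Finset D.Hx} {a : D.Hx} (ha : a ∈ A) (p : Fin (D.n a.1 + 1)) :
    D.XL ⟨a.1, p⟩ / D.XL a ∈ Bs D.XL A := Algebra.subset_adjoin ⟨a, ha, p, rfl⟩

theorem XL_mem (a : D.Hx) : D.XL a ∈ D.LR := by
  have h := quot_mem (Finset.mem_univ (⟨a.1, 0⟩ : D.Hx)) a.2
  rwa [show D.XL ⟨a.1, 0⟩ = 1 from rfl, _root_.div_one] at h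

theorem XL_inv_mem (a : D.Hx) : (D.XL a)⁻¹ ∈ D.LR := by
  have h := quot_mem (Finset.mem_univ a) 0
  rwa [show D.XL ⟨a.1, 0⟩ = 1 from rfl, one_div] at h

theorem aeval_mem (P : MvPolynomial D.Hx ℂ) : aeval D.XL P ∈ D.LR := by
  induction P using MvPolynomial.induction_on with
  | C c => rw [aeval_C]; exact Subalgebra.algebraMap_mem _ c
  | add p q hp hq => rw [map_add]; exact add_mem hp hq
  | mul_X p a hp => rw [map_mul, aeval_X]; exact mul_mem hp (XL_mem a)

theorem gen_eq (τ : D.Ch) (j : Fin D.m) : gen D.XL (dd j) τ = ∏ s, D.XL ⟨s, τ s⟩ ^ D.d j s := by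
  simp only [Dat.gen, Dat.dd, zpow_natCast]

theorem gen_mem (τ : D.Ch) (j : Fin D.m) : gen D.XL (dd j) τ ∈ D.LR := by
  rw [gen_eq]
  exact prod_mem fun s _ => pow_mem (XL_mem _) _

theorem gen_inv_mem (τ : D.Ch) (j : Fin D.m) : (gen D.XL (dd j) τ)⁻¹ ∈ D.LR := by
  rw [gen_eq, ← Finset.prod_inv_distrib]
  exact prod_mem fun s _ => by rw [← inv_pow]; exact pow_mem (XL_inv_mem _) _

theorem gen_ne (τ : D.Ch) (j : Fin D.m) : gen D.XL (dd j) τ ≠ 0 := by
  rw [gen_eq]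
  exact Finset.prod_ne_zero_iff.mpr fun s _ => pow_ne_zero _ (XL_ne _)

theorem Bs_le (A : Finset D.Hx) : Bs D.XL A ≤ D.LR :=
  Algebra.adjoin_mono fun _ ⟨a, _, h⟩ => ⟨a, Finset.mem_univ a, h⟩

variable {A : Finset D.Hx} {τ : D.Ch}

theorem den_mem (hτ : ∀ s, ⟨s, τ s⟩ ∈ A) {t : D.L}
    (ht : t ∈ Submonoid.closure (range (D.rat D.XL τ))) : t ∈ Bs D.XL A := by
  induction ht using Submonoid.closure_induction with
  | mem _ h => obtain ⟨a, rfl⟩ := h; exact quot_mem (hτ a.1) a.2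
  | one => exact one_mem _
  | mul _ _ _ _ h1 h2 => exact mul_mem h1 h2

theorem exists_den (hτ : ∀ s, ⟨s, τ s⟩ ∈ A) {z : D.L} (hz : z ∈ D.LR) :
    ∃ t ∈ Submonoid.closure (range (D.rat D.XL τ)), t * z ∈ Bs D.XL A := by
  induction hz using Algebra.adjoin_induction with
  | mem _ h =>
    obtain ⟨a, -, p, rfl⟩ := h
    refine ⟨_, Submonoid.subset_closure ⟨a, rfl⟩, ?_⟩
    rw [Dat.rat, mul_comm, div_mul_div_cancel₀ (XL_ne a)]
    exact quot_mem (hτ a.1) p
  | algebraMap c => exact ⟨1, one_mem _, by rw [one_mul]; exact Subalgebra.algebraMap_mem _ c⟩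
  | add x y _ _ h1 h2 =>
    obtain ⟨t, ht, h1⟩ := h1
    obtain ⟨t', ht', h2⟩ := h2
    refine ⟨t * t', mul_mem ht ht', ?_⟩
    rw [show t * t' * (x + y) = t' * (t * x) + t * (t' * y) by ring]
    exact add_mem (mul_mem (den_mem hτ ht') h1) (mul_mem (den_mem hτ ht) h2)
  | mul x y _ _ h1 h2 =>
    obtain ⟨t, ht, h1⟩ := h1
    obtain ⟨t', ht', h2⟩ := h2
    refine ⟨t * t', mul_mem ht ht', ?_⟩
    rw [mul_mul_mul_comm]
    exact mul_mem h1 h2

theorem in_univ (F : D.Fm) (τ : D.Ch) (j : ℕ) (b : D.LR) :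
    b ∈ II F j ↔ In F j Finset.univ τ b := by
  classical
  constructor
  · intro hb
    induction hb using Submodule.span_induction with
    | mem b h =>
      obtain ⟨a, ha, h⟩ := h
      refine ⟨Pi.single a (gen D.XL (dd a) τ), fun a' => ?_, ?_⟩
      · rw [Pi.single_apply]
        split_ifs
        · exact gen_mem τ a
        · exact zero_mem _
      · rw [Finset.sum_eq_single_of_mem a (Finset.mem_filter.mpr ⟨Finset.mem_univ a, ha⟩)
          fun a' _ h' => by rw [Pi.single_eq_of_ne h', zero_mul], Pi.single_eq_same, fl,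
          mul_div_cancel₀ _ (gen_ne τ a), h]
    | zero => exact ⟨0, fun _ => zero_mem _, by simp⟩
    | add x y _ _ h1 h2 =>
      obtain ⟨c, hc, h1⟩ := h1
      obtain ⟨c', hc', h2⟩ := h2
      refine ⟨c + c', fun a => add_mem (hc a) (hc' a), ?_⟩
      simp only [Subalgebra.coe_add, h1, h2, Pi.add_apply, add_mul, Finset.sum_add_distrib]
    | smul r x _ h1 =>
      obtain ⟨c, hc, h1⟩ := h1
      refine ⟨fun a => r * c a, fun a => mul_mem r.2 (hc a), ?_⟩
      simp only [smul_eq_mul, Subalgebra.coe_mul, h1, Finset.mul_sum, mul_assoc]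
  · rintro ⟨c, hc, h⟩
    have e : b = ∑ a ∈ Finset.univ.filter (fun a : Fin D.m => (a : ℕ) < j),
        (⟨c a * (gen D.XL (dd a) τ)⁻¹, mul_mem (hc a) (gen_inv_mem τ a)⟩ : D.LR) *
          ⟨aeval D.XL (F a), aeval_mem _⟩ := by
      refine Subtype.ext ?_
      rw [h, AddSubmonoidClass.coe_finsetSum]
      refine Finset.sum_congr rfl fun a _ => ?_
      rw [Subalgebra.coe_mul, fl, div_eq_inv_mul, mul_assoc]
    rw [e]
    exact Ideal.sum_mem _ fun a ha => Ideal.mul_mem_left _ _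
      (Ideal.subset_span ⟨a, (Finset.mem_filter.mp ha).2, rfl⟩)

end LSA

open LSA in
theorem st_LSA (T : Tools) (hNZ : St_LNZ) : St_LSA := by
  classical
  intro D F hF hJ A τ hτ j b hb
  rw [in_univ F τ j b]
  refine ⟨fun ⟨c, hc, h⟩ => ?_, fun ⟨c, hc, h⟩ => ⟨c, fun a => Bs_le A (hc a), h⟩⟩
  choose t ht htc using fun a => exists_den hτ (hc a)
  have cancel : ∀ s ∈ Submonoid.closure (range (D.rat D.XL τ)), ∀ z ∈ Bs D.XL A,
      In F j A τ (s * z) → In F j A τ z := fun s hs => by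
    induction hs using Submonoid.closure_induction with
    | mem _ h =>
      obtain ⟨a, rfl⟩ := h
      exact fun z hz => (hNZ D F hF hJ A τ hτ z hz).2 j a
    | one => exact fun z _ h => by rwa [one_mul] at h
    | mul x y _ hy h1 h2 =>
      exact fun z hz h => h2 z hz (h1 _ (mul_mem (den_mem hτ hy) hz) (by rwa [← mul_assoc]))
  refine cancel (∏ a, t a) (prod_mem fun a _ => ht a) _ hb
    ⟨fun a => (∏ a', t a') * c a, fun a => ?_, by simp only [h, Finset.mul_sum, mul_assoc]⟩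
  show (∏ a', t a') * c a ∈ _
  rw [← Finset.prod_erase_mul _ _ (Finset.mem_univ a), mul_assoc]
  exact mul_mem (prod_mem fun a' _ => den_mem hτ (ht a')) (htc a)

end Pool.Agent.Lib.CI
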