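import Pool.Agent.Lib.CI.BlueA

open MvPolynomial Set Matrix WithZero Pool.Agent.Lib.MP_e39d36_ag Pool.Agent.Lib.MP_e39d36_ag.Var
  Pool.Agent.Lib.MP_cc3443_ag Pool.Agent.Lib.MV Pool.Agent.Lib.MV.End Pool.Agent.Lib.MV.Fb
  Pool.Agent.Lib.DU

noncomputable section

namespace Pool.Agent.Lib.CI

open Pool.Agent.Lib.CI.Dat

namespace LSAT

variable {D : Dat} {F : D.Fm} {K : Type} [Field K] [Algebra ℂ K]

lemma al_apply (x : D.Hx → K) (a : Fin D.m → K) (b : D.Hx) :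
    α x F a b = ∑ j, a j * aeval x (pderiv b (F j)) := by
  simp only [α, Fintype.linearCombination_apply, Finset.sum_apply, Pi.smul_apply, smul_eq_mul]

lemma chart (T : Tools) (hF : D.Hom F) {x : D.Hx → K} (hx : ∀ a, x a ≠ 0) (τ : D.Ch)
    (a : Fin D.m → K) (b : D.Hx) : α x F a b / Dat.gen x (-Pi.single b.1 1) τ =
      ∑ j, a j / Dat.gen x (-dd j) τ * aeval (D.rat x τ) (pderiv b (F j)) := by
  obtain ⟨g0, -, g2, g3⟩ := T.ch.gen x hx τ
  rw [al_apply, g2, g3, div_inv_eq_mul, Finset.sum_mul]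
  refine Finset.sum_congr rfl fun j _ => ?_
  rw [(T.ch.rat_F hF x hx τ j).2 b, g2, div_inv_eq_mul]
  have := g0 (dd j)
  field_simp

lemma unit (T : Tools) (hJ : G_jac F) {v : Valuation K ℤᵐ⁰} (hv : Cv v) (y : D.Hx → K)
    (hy : ∀ a, v (y a) ≤ 1) (h1 : ∀ s, ∃ p, y ⟨s, p⟩ = 1) (h0 : ∀ j, aeval y (F j) = 0)
    (c : Fin D.m → K) (hc : ∀ b, v (∑ j, c j * aeval y (pderiv b (F j))) ≤ 1) (j : Fin D.m) :
    v (c j) ≤ 1 := by
  obtain ⟨i, -, hi⟩ := Finset.exists_max_image Finset.univ (fun j => v (c j)) ⟨j, Finset.mem_univ j⟩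
  refine (hi j (Finset.mem_univ j)).trans (not_lt.1 fun h2 => ?_)
  have h3 : 0 < v (c i) := zero_lt_one.trans h2
  have h4 : c i ≠ 0 := v.ne_zero_iff.1 h3.ne'
  have h5 : ∀ j, v (c j / c i) ≤ 1 := fun j => by
    rw [map_div₀, div_le_one₀ h3]; exact hi j (Finset.mem_univ j)
  obtain ⟨κ, _, _, ⟨R⟩⟩ := T.red.ex hv
  obtain ⟨r0, r1, -⟩ := T.red.one R
  have h6 := hJ κ (R.r ∘ y) (fun j => R.r (c j / c i)) none
    (fun s => (h1 s).imp fun p hp => by rw [Function.comp, hp, r1]; exact one_ne_zero)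
    (fun j _ => by rw [← (T.red.aev R y hy (F j)).2, h0, r0]) (fun a h => absurd h (by simp))
    fun b _ => by
      obtain ⟨d1, d2⟩ := T.red.dot R (fun j => c j / c i) (fun j => aeval y (pderiv b (F j))) h5
        fun j => (T.red.aev R y hy _).1
      have d3 : (fun j => c j / c i) ⬝ᵥ (fun j => aeval y (pderiv b (F j))) =
          (∑ j, c j * aeval y (pderiv b (F j))) / c i := by
        rw [dotProduct, Finset.sum_div]
        exact Finset.sum_congr rfl fun j _ => div_mul_eq_mul_div _ _ _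
      rw [(R.zero _ d1).2 (by
        rw [d3, map_div₀, div_lt_one₀ h3]; exact (hc b).trans_lt h2), dotProduct] at d2
      rw [d2]
      exact Finset.sum_congr rfl fun j _ => by
        rw [← (T.red.aev R y hy _).2]; rfl
  have h7 := congrFun h6 i
  rw [div_self h4, r1] at h7
  exact one_ne_zero h7

end LSAT

theorem st_LSAT (T : Tools) : St_LSAT := by
  intro D F hF hJ K _ _ M
  have hx := T.ch.ne M
  have h0 := (T.ch.cfg hF M).1
  have inj : ∀ a, α M.x F a = 0 → a = 0 := fun a h =>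
    hJ K M.x a none (fun s => ⟨0, hx _⟩) (fun j _ => h0 j) (fun a h => absurd h (by simp))
      fun b _ => by rw [← LSAT.al_apply, h]; rfl
  refine ⟨inj, fun A a => ?_⟩
  simp only [Ps', Rs, AddSubgroup.mem_pi, mem_univ, true_imp_iff]
  by_cases hA : ∃ τ : D.Ch, ∀ s, ⟨s, τ s⟩ ∈ A
  · obtain ⟨τ, hτ⟩ := hA
    have hB : ∀ P, aeval (D.rat M.x τ) P ∈ Bs M.x A := fun P =>
      (T.ch.bs M.x).2.1 A τ hτ ((T.ch.mem_iff M.x τ _).2 ⟨P, rfl⟩)
    simp only [fun γ z => (T.ch.mem_Ms M.x hx γ A z).1 τ hτ, LSAT.chart T hF hx]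
    refine ⟨fun h j => (T.ch.ptBs M A τ hτ).2.2 _ fun E hE => ?_,
      fun h b => sum_mem fun j _ => mul_mem (h j) (hB _)⟩
    have hv : ∀ z ∈ Bs M.x A, val E z ≤ 1 := fun z hz => ((isV E).2 z).1 (hE hz)
    refine LSAT.unit T hJ (fun c => hv _ (Subalgebra.algebraMap_mem _ c)) (D.rat M.x τ)
      (fun b => hv _ ?_) (fun s => ⟨τ s, div_self (hx _)⟩) (fun j => ?_)
      (fun j => a j / Dat.gen M.x (-dd j) τ) (fun b => hv _ (h b)) j
    · simpa using hB (X b)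
    · rw [(T.ch.rat_F hF M.x hx τ j).1, h0, zero_div]
  · refine ⟨fun h j => ?_, fun h b => ?_⟩
    · rw [inj a (funext fun b => (T.ch.mem_Ms M.x hx _ A _).2 hA (h b))]
      exact zero_mem _
    · rw [show a = 0 from funext fun j => (T.ch.mem_Ms M.x hx _ A _).2 hA (h j), map_zero]
      exact zero_mem _

end Pool.Agent.Lib.CI
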