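import Pool.Agent.Lib.CI.BlueA
import Pool.Agent.Lib.DU.DER

/-! Partial derivatives in a chart. -/

open MvPolynomial Set Matrix WithZero Pool.Agent.Lib.MP_e39d36_ag Pool.Agent.Lib.MP_e39d36_ag.Var
  Pool.Agent.Lib.MP_cc3443_ag Pool.Agent.Lib.MV Pool.Agent.Lib.MV.End Pool.Agent.Lib.MV.Fb
  Pool.Agent.Lib.DU

set_option linter.unusedSectionVars false
set_option linter.unusedVariables false

noncomputable section

namespace Pool.Agent.Lib.CI

open Pool.Agent.Lib.CI.Dat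

namespace XLTH

theorem ne (D : Dat) : ∀ a, D.XL a ≠ 0 := by
  rintro ⟨s, p⟩
  refine Fin.cases ?_ (fun l => ?_) p
  · exact one_ne_zero
  · exact (map_ne_zero_iff _ (IsFractionRing.injective _ _)).2 (X_ne_zero _)

open Classical in
theorem ex (D : Dat) (t : D.L) (b : D.Hx) : ∃ (θ : Derivation ℂ D.L D.L) (c : Fin D.k → D.L),
    ∀ a, θ (D.XL a) = (if a = b then t else 0) - c a.1 * D.XL a := by
  have : Algebra.IsAlgebraic (MvPolynomial (Σ s, Fin (D.n s)) ℂ) D.L :=
    IsLocalization.isAlgebraic _ (nonZeroDivisors _)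
  obtain ⟨θ, h⟩ := blockDER ℂ D.L (Σ s, Fin (D.n s)) _
    (IsTranscendenceBasis.algebraMap_comp (A := D.L) (IsTranscendenceBasis.mvPolynomial _ ℂ))
    fun i => (if (⟨i.1, i.2.succ⟩ : D.Hx) = b then t else 0) -
      (if (⟨i.1, 0⟩ : D.Hx) = b then t else 0) * D.XL ⟨i.1, i.2.succ⟩
  refine ⟨θ, fun s => if (⟨s, 0⟩ : D.Hx) = b then t else 0, ?_⟩
  rintro ⟨s, p⟩
  refine Fin.cases ?_ (fun l => h ⟨s, l⟩) p
  have : D.XL ⟨s, 0⟩ = 1 := rfl
  rw [this, mul_one, sub_self, Derivation.map_one_eq_zero]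

end XLTH

theorem st_LTH : St_LTH := by
  classical
  refine fun D => ⟨XLTH.ne D, fun τ b hb => ?_⟩
  obtain ⟨θ, c, h⟩ := XLTH.ex D (D.XL ⟨b.1, τ b.1⟩) b
  have hq : ∀ (a : D.Hx) p, θ (D.XL ⟨a.1, p⟩ / D.XL a) =
      (if ⟨a.1, p⟩ = b then D.XL ⟨a.1, τ a.1⟩ / D.XL a else 0) -
        if a = b then D.XL ⟨a.1, τ a.1⟩ / D.XL a * (D.XL ⟨a.1, p⟩ / D.XL a) else 0 := fun a p => by
    have h0 := XLTH.ne D a
    rw [Derivation.leibniz_div, h, h]
    simp only [smul_eq_mul]
    split_ifs with h1 h2 h2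
    · have : D.XL ⟨b.1, τ b.1⟩ = D.XL ⟨a.1, τ a.1⟩ := by rw [h2]
      rw [this]
      field_simp
      ring
    · have : D.XL ⟨b.1, τ b.1⟩ = D.XL ⟨a.1, τ a.1⟩ := by rw [← h1]
      rw [this]
      field_simp
      ring
    · have : D.XL ⟨b.1, τ b.1⟩ = D.XL ⟨a.1, τ a.1⟩ := by rw [h2]
      rw [this]
      field_simp
      ring
    · field_simp
      ring
  refine ⟨θ, fun A z hz => ?_, fun P => ?_⟩
  · induction hz using Algebra.adjoin_induction with
    | mem z hz =>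
      obtain ⟨a, ha, p, rfl⟩ := hz
      have h1 : ∀ q, D.XL ⟨a.1, q⟩ / D.XL a ∈ Bs D.XL A := fun q =>
        Algebra.subset_adjoin ⟨a, ha, q, rfl⟩
      rw [hq]
      refine sub_mem ?_ ?_
      · split_ifs
        exacts [h1 _, zero_mem _]
      · split_ifs
        exacts [mul_mem (h1 _) (h1 _), zero_mem _]
    | algebraMap r => rw [Derivation.map_algebraMap]; exact zero_mem _
    | add x y _ _ hx hy => rw [map_add]; exact add_mem hx hy
    | mul x y hx' hy' hx hy =>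
      rw [Derivation.leibniz]
      exact add_mem (mul_mem hx' hy) (mul_mem hy' hx)
  · have h1 : ∀ a, θ (D.rat D.XL τ a) = if a = b then 1 else 0 := fun a => by
      have h2 : (⟨a.1, τ a.1⟩ : D.Hx) ≠ b := fun h => hb (by rw [← h])
      have h3 := hq ⟨a.1, τ a.1⟩ a.2
      rw [if_neg h2, sub_zero, div_self (XLTH.ne D _)] at h3
      exact h3
    induction P using MvPolynomial.induction_on with
    | C r => simp
    | add p q hp hq => simp only [map_add, hp, hq]
    | mul_X p a hp =>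
      rw [map_mul, Derivation.leibniz, Derivation.leibniz, hp, aeval_X, h1, pderiv_X]
      by_cases h2 : a = b <;> simp [h2]

end Pool.Agent.Lib.CI
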