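import Pool.Agent.Lib.CI.BlueA

open MvPolynomial Set Matrix WithZero Pool.Agent.Lib.MP_e39d36_ag Pool.Agent.Lib.MP_e39d36_ag.Var
  Pool.Agent.Lib.MP_cc3443_ag Pool.Agent.Lib.MV Pool.Agent.Lib.MV.End Pool.Agent.Lib.MV.Fb
  Pool.Agent.Lib.DU

set_option linter.unusedSectionVars false
set_option linter.unusedVariables false

noncomputable section

namespace Pool.Agent.Lib.CI

open Pool.Agent.Lib.CI.Dat

namespace LTOW

variable {D : Dat}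

lemma xl_ne (a : D.Hx) : D.XL a ≠ 0 := by
  obtain ⟨s, p⟩ := a
  refine Fin.cases ?_ (fun l => ?_) p
  · exact one_ne_zero
  · exact (map_ne_zero_iff _ (IsFractionRing.injective _ _)).2 (X_ne_zero _)

lemma xl_zero (s : Fin D.k) : D.XL ⟨s, 0⟩ = 1 := rfl

lemma xl_mem (a : D.Hx) : D.XL a ∈ D.LR ∧ (D.XL a)⁻¹ ∈ D.LR :=
  ⟨Algebra.subset_adjoin ⟨⟨a.1, 0⟩, Finset.mem_univ _, a.2, by rw [xl_zero, _root_.div_one]⟩,
    Algebra.subset_adjoin ⟨a, Finset.mem_univ _, 0, by rw [xl_zero, one_div]⟩⟩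

lemma gen_mem (γ : D.Λ) (τ : D.Ch) : Dat.gen D.XL γ τ ∈ D.LR := by
  refine prod_mem fun s _ => ?_
  rcases Int.eq_nat_or_neg (γ s) with ⟨n, h | h⟩
  · rw [h, zpow_natCast]; exact pow_mem (xl_mem _).1 n
  · rw [h, _root_.zpow_neg, zpow_natCast, ← inv_pow]; exact pow_mem (xl_mem _).2 n

lemma gen_zero (γ : D.Λ) : Dat.gen D.XL γ (fun _ => 0) = 1 :=
  Finset.prod_eq_one fun s _ => by rw [xl_zero, _root_.one_zpow]

lemma ev_mem (P : MvPolynomial D.Hx ℂ) : aeval D.XL P ∈ D.LR := by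
  induction P using MvPolynomial.induction_on with
  | C c => rw [aeval_C]; exact algebraMap_mem _ c
  | add p q hp hq => rw [map_add]; exact add_mem hp hq
  | mul_X p a hp => rw [map_mul, aeval_X]; exact mul_mem hp (xl_mem a).1

lemma ms_mem (T : Tools) {γ : D.Λ} {A : Finset D.Hx} {z : D.L} (h : z ∈ Ms D.XL γ A) :
    z ∈ D.LR := by
  by_cases hτ : ∃ τ : D.Ch, ∀ s, ⟨s, τ s⟩ ∈ A
  · obtain ⟨τ, hτ⟩ := hτ
    have h1 := (T.ch.bs D.XL).1 (Finset.subset_univ A)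
      (((T.ch.mem_Ms D.XL xl_ne γ A z).1 τ hτ).1 h)
    have h2 := mul_mem h1 (gen_mem γ τ)
    rwa [div_mul_cancel₀ _ ((T.ch.gen D.XL xl_ne τ).1 γ)] at h2
  · rw [(T.ch.mem_Ms D.XL xl_ne γ A z).2 hτ h]; exact zero_mem _

lemma mem_Mq {F : D.Fm} {j : ℕ} {γ : D.Λ} {A : Finset D.Hx} {y : D.LR ⧸ II F j} :
    y ∈ Mq F j γ A ↔ ∃ b : D.LR, (b : D.L) ∈ Ms D.XL γ A ∧ Ideal.Quotient.mk (II F j) b = y :=
  Iff.rfl

lemma mq_mono (T : Tools) (F : D.Fm) (j : ℕ) (γ : D.Λ) : Monotone (Mq F j γ) :=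
  fun A B h y hy => by
    obtain ⟨b, h1, h2⟩ := mem_Mq.1 hy
    exact mem_Mq.2 ⟨b, (T.ch.bs D.XL).2.2.2 γ h h1, h2⟩

lemma base (T : Tools) (F : D.Fm) (γ : D.Λ) (q : ℕ) (h : Ex Finset.univ (Ms D.XL γ) q) :
    Ex Finset.univ (Mq F 0 γ) q := by
  have hm : Monotone fun A => (Ms D.XL γ A).comap D.LR.val.toRingHom.toAddMonoidHom :=
    fun A B h y hy => (T.ch.bs D.XL).2.2.2 γ h hy
  have h1 := (Ex.map (W := Finset.univ) (q := q) (N := Ms D.XL γ)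
    D.LR.val.toRingHom.toAddMonoidHom hm (fun s x _ h => Subtype.ext h) (fun s x hx => hx)
    fun s y hy => ⟨⟨y, ms_mem T hy⟩, hy, rfl⟩).2 h
  refine (Ex.map (N := Mq F 0 γ) (Ideal.Quotient.mk (II F 0)).toAddMonoidHom hm
    (fun s x _ h => ?_) (fun s x hx => mem_Mq.2 ⟨x, hx, rfl⟩) fun s y hy => mem_Mq.1 hy).1 h1
  have h2 : II F 0 = ⊥ := by
    rw [II, Ideal.span_eq_bot]
    rintro b ⟨a, ha, -⟩
    omega
  have h3 : x ∈ II F 0 := Ideal.Quotient.eq_zero_iff_mem.1 h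
  rwa [h2, Ideal.mem_bot] at h3

lemma ii_le (F : D.Fm) (j : ℕ) : II F j ≤ II F (j + 1) :=
  Ideal.span_mono fun b ⟨a, ha, e⟩ => ⟨a, by omega, e⟩

/-- The equation as a Laurent polynomial. -/
def fe (F : D.Fm) (j : Fin D.m) : D.LR := ⟨aeval D.XL (F j), ev_mem _⟩

lemma fl_mem (T : Tools) {F : D.Fm} (hF : D.Hom F) {A : Finset D.Hx} {τ : D.Ch}
    (hτ : ∀ s, ⟨s, τ s⟩ ∈ A) (j : Fin D.m) : fl F τ j ∈ Bs D.XL A :=
  (T.ch.bs D.XL).2.1 A τ hτ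
    ((T.ch.mem_iff D.XL τ _).2 ⟨F j, (T.ch.rat_F hF D.XL xl_ne τ j).1⟩)

lemma gen_sub (T : Tools) (γ γ' : D.Λ) (τ : D.Ch) :
    Dat.gen D.XL (γ - γ') τ = Dat.gen D.XL γ τ / Dat.gen D.XL γ' τ := by
  obtain ⟨-, h2, h3, -⟩ := T.ch.gen D.XL xl_ne τ
  rw [sub_eq_add_neg, h2, h3, div_eq_mul_inv]

lemma ses (T : Tools) (hNZ : St_LNZ) (hSA : St_LSA) {F : D.Fm} (hF : D.Hom F) (hJ : G_jac F)
    (j : Fin D.m) (γ : D.Λ) :
    SES (Mq F j (γ - dd j)) (Mq F j γ) (Mq F (j + 1) γ)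
      (AddMonoidHom.mulLeft (Ideal.Quotient.mk (II F j) (fe F j)))
      (Ideal.Quotient.factor (ii_le F j)).toAddMonoidHom where
  mA := mq_mono T F _ _
  mB := mq_mono T F _ _
  inj A y _ h := by
    obtain ⟨b, rfl⟩ := Ideal.Quotient.mk_surjective y
    have h0 : ∀ s, (⟨s, (fun _ => 0 : D.Ch) s⟩ : D.Hx) ∈ Finset.univ := fun _ => Finset.mem_univ _
    have h1 : fe F j * b ∈ II F j := Ideal.Quotient.eq_zero_iff_mem.1 h
    rw [hSA D F hF hJ _ _ h0 j _ (fe F j * b).2] at h1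
    have h2 := (hNZ D F hF hJ _ _ h0 b b.2).1 j (by rw [fl, gen_zero, _root_.div_one]; exact h1)
    exact Ideal.Quotient.eq_zero_iff_mem.2 ((hSA D F hF hJ _ _ h0 j b b.2).2 h2)
  fm A y hy := by
    obtain ⟨b, hb, rfl⟩ := mem_Mq.1 hy
    refine mem_Mq.2 ⟨fe F j * b, ?_, rfl⟩
    by_cases hτ : ∃ τ : D.Ch, ∀ s, ⟨s, τ s⟩ ∈ A
    · obtain ⟨τ, hτ⟩ := hτ
      have h1 := mul_mem (fl_mem T hF hτ j) (((T.ch.mem_Ms D.XL xl_ne _ A _).1 τ hτ).1 hb)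
      refine ((T.ch.mem_Ms D.XL xl_ne _ A _).1 τ hτ).2 ?_
      have n1 := (T.ch.gen D.XL xl_ne τ).1 γ
      have n2 := (T.ch.gen D.XL xl_ne τ).1 (dd j)
      have e : ((fe F j * b : D.LR) : D.L) / Dat.gen D.XL γ τ =
          fl F τ j * (b / Dat.gen D.XL (γ - dd j) τ) := by
        rw [gen_sub T, fl]
        show aeval D.XL (F j) * (b : D.L) / _ = _
        field_simp
      rw [e]; exact h1
    · have h1 : (b : D.L) = 0 := (T.ch.mem_Ms D.XL xl_ne _ A _).2 hτ hb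
      rw [MulMemClass.coe_mul, h1, mul_zero]; exact zero_mem _
  gm A y hy := by
    obtain ⟨b, hb, rfl⟩ := mem_Mq.1 hy
    exact mem_Mq.2 ⟨b, hb, rfl⟩
  gf A y _ := by
    obtain ⟨b, rfl⟩ := Ideal.Quotient.mk_surjective y
    exact (Ideal.Quotient.eq_zero_iff_mem (a := fe F j * b)).2
      (Ideal.mul_mem_right _ _ (Ideal.subset_span ⟨j, Nat.lt_succ_self _, rfl⟩))
  ex A y hy h := by
    obtain ⟨b, hb, rfl⟩ := mem_Mq.1 hy
    by_cases hτ : ∃ τ : D.Ch, ∀ s, ⟨s, τ s⟩ ∈ A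
    · obtain ⟨τ, hτ⟩ := hτ
      have n1 := (T.ch.gen D.XL xl_ne τ).1 γ
      have n2 := (T.ch.gen D.XL xl_ne τ).1 (dd j)
      have hb' := ((T.ch.mem_Ms D.XL xl_ne _ A _).1 τ hτ).1 hb
      have h1 : b ∈ II F (j + 1) := (Ideal.Quotient.eq_zero_iff_mem (a := b)).1 h
      have e1 : ((b * ⟨_, gen_mem (-γ) τ⟩ : D.LR) : D.L) = b / Dat.gen D.XL γ τ := by
        rw [div_eq_mul_inv, ← (T.ch.gen D.XL xl_ne τ).2.2.1]; rfl
      obtain ⟨c, hc, e2⟩ := (hSA D F hF hJ A τ hτ (j + 1) _ (e1 ▸ hb')).1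
        (Ideal.mul_mem_right _ _ h1)
      have e3 : Finset.univ.filter (fun a : Fin D.m => (a : ℕ) < j + 1) =
          insert j (Finset.univ.filter fun a : Fin D.m => (a : ℕ) < j) := by
        ext a
        simp only [Finset.mem_filter, Finset.mem_univ, true_and, Finset.mem_insert, Fin.ext_iff]
        omega
      rw [e1, e3, Finset.sum_insert (by simp)] at e2
      have hr : ∑ a ∈ Finset.univ.filter (fun a : Fin D.m => (a : ℕ) < j), c a * fl F τ a ∈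
          Bs D.XL A := sum_mem fun a _ => mul_mem (hc a) (fl_mem T hF hτ a)
      have hr' := (T.ch.bs D.XL).1 (Finset.subset_univ A) hr
      have h2 := (hSA D F hF hJ A τ hτ j ⟨_, hr'⟩ hr).2 ⟨c, hc, rfl⟩
      have hx : c j * Dat.gen D.XL (γ - dd j) τ ∈ Ms D.XL (γ - dd j) A :=
        ((T.ch.mem_Ms D.XL xl_ne _ A _).1 τ hτ).2 (by
          rw [mul_div_cancel_right₀ _ ((T.ch.gen D.XL xl_ne τ).1 _)]; exact hc j)
      refine ⟨_, mem_Mq.2 ⟨⟨_, ms_mem T hx⟩, hx, rfl⟩, ?_⟩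
      refine (Ideal.Quotient.eq (I := II F j) (x := fe F j * ⟨_, ms_mem T hx⟩) (y := b)).2 ?_
      have e4 : fe F j * ⟨_, ms_mem T hx⟩ - b = -⟨_, gen_mem γ τ⟩ * ⟨_, hr'⟩ := by
        refine Subtype.ext ?_
        show aeval D.XL (F j) * (c j * Dat.gen D.XL (γ - dd j) τ) - (b : D.L) =
          -Dat.gen D.XL γ τ * _
        rw [div_eq_iff n1] at e2
        rw [e2, gen_sub T, fl]
        field_simp
        ring
      rw [e4]
      exact Ideal.mul_mem_left _ _ h2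
    · have h1 : b = 0 := Subtype.ext ((T.ch.mem_Ms D.XL xl_ne _ A _).2 hτ hb)
      exact ⟨0, zero_mem _, by rw [h1, map_zero, map_zero]⟩
  su A y hy := by
    obtain ⟨b, hb, rfl⟩ := mem_Mq.1 hy
    exact ⟨_, mem_Mq.2 ⟨b, hb, rfl⟩, rfl⟩

end LTOW

open LTOW in
theorem st_LTOW (T : Tools) (hMON : St_LMON) (hNZ : St_LNZ) (hSA : St_LSA) : St_LTOW := by
  intro D F hF hJ j
  induction j with
  | zero =>
    intro _ γ q hγ hq
    refine base T F γ q (hMON D γ q ?_)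
    rcases hγ with ⟨s, rfl⟩ | h
    · have := D.n_pos s
      exact Or.inl ⟨s, by simpa using this, by simp⟩
    · exact Or.inr ⟨h, hq⟩
  | succ j ih =>
    intro hj γ q hγ hq
    refine (ses T hNZ hSA hF hJ ⟨j, hj⟩ γ).exC (ih (by omega) γ q hγ (by omega))
      (ih (by omega) _ (q + 1) (Or.inr fun s => ?_) (by omega))
    have h1 : (1 : ℤ) ≤ Dat.dd ⟨j, hj⟩ s := by unfold Dat.dd; exact_mod_cast D.d_pos _ s
    have h2 : γ s ≤ 0 := by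
      rcases hγ with ⟨t, rfl⟩ | h
      · by_cases e : s = t <;> simp [e]
      · exact (h s).le
    rw [Pi.sub_apply]
    omega

end Pool.Agent.Lib.CI
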