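import Pool.Agent.Lib.CI.BlueA

/-! Vanishing on the complete intersection. -/

open MvPolynomial Set Matrix WithZero Pool.Agent.Lib.MP_e39d36_ag Pool.Agent.Lib.MP_e39d36_ag.Var
  Pool.Agent.Lib.MP_cc3443_ag Pool.Agent.Lib.MV Pool.Agent.Lib.MV.End Pool.Agent.Lib.MV.Fb
  Pool.Agent.Lib.DU

set_option linter.unusedSectionVars false
set_option linter.unusedVariables false

noncomputable section

namespace Pool.Agent.Lib.CI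

open Pool.Agent.Lib.CI.Dat

namespace LVAN

variable {D : Dat} {K : Type} [Field K] [Algebra ℂ K] {x : D.Hx → K} {ψ : D.LR →ₐ[ℂ] K}

lemma xl_ne (a : D.Hx) : D.XL a ≠ 0 := by
  obtain ⟨s, p⟩ := a
  refine Fin.cases one_ne_zero (fun l h => ?_) p
  exact X_ne_zero _ ((IsFractionRing.injective (MvPolynomial (Σ s, Fin (D.n s)) ℂ) D.L)
    (h.trans (map_zero _).symm))

lemma gen_mem (a : D.Hx) (p : Fin (D.n a.1 + 1)) : D.XL ⟨a.1, p⟩ / D.XL a ∈ D.LR :=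
  Algebra.subset_adjoin ⟨a, Finset.mem_univ _, p, rfl⟩

variable (ψ) in
/-- The graph of the restriction map. -/
def Gr : Subalgebra ℂ (D.L × K) := (D.LR.val.prod ψ).range

lemma gr_mem (b : D.LR) : ((b : D.L), ψ b) ∈ Gr ψ := ⟨b, rfl⟩

lemma gr_ex {z : D.L × K} (h : z ∈ Gr ψ) : ∃ b : D.LR, (b : D.L) = z.1 ∧ ψ b = z.2 := by
  obtain ⟨b, rfl⟩ := h
  exact ⟨b, rfl, rfl⟩

lemma gr_eq {z : D.L × K} (h : z ∈ Gr ψ) {b : D.LR} (e : (b : D.L) = z.1) : ψ b = z.2 := by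
  obtain ⟨b', h1, h2⟩ := gr_ex h
  rw [← h2, Subtype.ext (e.trans h1.symm)]

section
variable (hψ : ∀ a (b : D.LR), (b : D.L) = D.XL a → ψ b = x a)
include hψ

lemma gr_x (a : D.Hx) : (D.XL a, x a) ∈ Gr ψ := by
  have h : D.XL a ∈ D.LR := by
    have := gen_mem (D := D) ⟨a.1, 0⟩ a.2
    rwa [show D.XL ⟨a.1, 0⟩ = 1 from rfl, _root_.div_one] at this
  exact hψ a ⟨_, h⟩ rfl ▸ gr_mem ⟨_, h⟩

lemma gr_inv (a : D.Hx) : ((D.XL a)⁻¹, (x a)⁻¹) ∈ Gr ψ := by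
  have h : (D.XL a)⁻¹ ∈ D.LR := by
    have := gen_mem (D := D) a 0
    rwa [show D.XL ⟨a.1, 0⟩ = 1 from rfl, one_div] at this
  have h1 := gr_eq ((Gr ψ).mul_mem (gr_x hψ a) (gr_mem ⟨_, h⟩)) (b := 1)
    (mul_inv_cancel₀ (xl_ne a)).symm
  rw [map_one] at h1
  exact eq_inv_of_mul_eq_one_right h1.symm ▸ gr_mem ⟨_, h⟩

lemma gr_gen (γ : D.Λ) (τ : D.Ch) : (Dat.gen D.XL γ τ, Dat.gen x γ τ) ∈ Gr ψ := by
  rw [Dat.gen, Dat.gen, prod_mk_prod]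
  refine (Gr ψ).prod_mem fun s _ => ?_
  rcases γ s with n | n
  · rw [Int.ofNat_eq_natCast, zpow_natCast, zpow_natCast]
    exact (Gr ψ).pow_mem (gr_x hψ _) n
  · rw [zpow_negSucc, zpow_negSucc, ← inv_pow, ← inv_pow]
    exact (Gr ψ).pow_mem (gr_inv hψ _) (n + 1)

lemma gr_bs (A : Finset D.Hx) : ∃ S : Subalgebra ℂ (D.L × K), S ≤ Gr ψ ∧
    S.map (AlgHom.fst ℂ _ _) = Bs D.XL A ∧ S.map (AlgHom.snd ℂ _ _) = Bs x A := by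
  refine ⟨Algebra.adjoin ℂ {z | ∃ a ∈ A, ∃ p, z = (D.XL ⟨a.1, p⟩ / D.XL a, x ⟨a.1, p⟩ / x a)},
    Algebra.adjoin_le ?_, ?_, ?_⟩
  · rintro _ ⟨a, -, p, rfl⟩
    rw [div_eq_mul_inv, div_eq_mul_inv]
    exact (Gr ψ).mul_mem (gr_x hψ _) (gr_inv hψ _)
  · rw [AlgHom.map_adjoin]
    exact congrArg _ (Set.ext fun z => ⟨by
      rintro ⟨_, ⟨a, h, p, rfl⟩, rfl⟩
      exact ⟨a, h, p, rfl⟩, by
      rintro ⟨a, h, p, rfl⟩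
      exact ⟨_, ⟨a, h, p, rfl⟩, rfl⟩⟩)
  · rw [AlgHom.map_adjoin]
    exact congrArg _ (Set.ext fun z => ⟨by
      rintro ⟨_, ⟨a, h, p, rfl⟩, rfl⟩
      exact ⟨a, h, p, rfl⟩, by
      rintro ⟨a, h, p, rfl⟩
      exact ⟨_, ⟨a, h, p, rfl⟩, rfl⟩⟩)

lemma into (C : St_CH) (hx : ∀ a, x a ≠ 0) (γ : D.Λ) (A : Finset D.Hx) (b : D.LR)
    (hb : (b : D.L) ∈ Ms D.XL γ A) : ψ b ∈ Ms x γ A := by
  by_cases h : ∃ τ : D.Ch, ∀ s, ⟨s, τ s⟩ ∈ A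
  · obtain ⟨τ, h⟩ := h
    obtain ⟨S, h1, h2, h3⟩ := gr_bs hψ A
    rw [(C.mem_Ms _ xl_ne γ A _).1 τ h, ← h2] at hb
    obtain ⟨z, h4, h5⟩ := hb
    have h6 := gr_eq ((Gr ψ).mul_mem (h1 h4) (gr_gen hψ γ τ)) (b := b)
      ((div_eq_iff ((C.gen _ xl_ne τ).1 γ)).1 h5.symm)
    rw [(C.mem_Ms _ hx γ A _).1 τ h, ← h3]
    exact ⟨z, h4, ((div_eq_iff ((C.gen _ hx τ).1 γ)).2 h6).symm⟩
  · rw [show b = 0 from Subtype.ext ((C.mem_Ms _ xl_ne γ A _).2 h hb), map_zero]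
    exact zero_mem _

lemma onto (C : St_CH) (hx : ∀ a, x a ≠ 0) (γ : D.Λ) (A : Finset D.Hx) (y : K)
    (hy : y ∈ Ms x γ A) : ∃ b : D.LR, (b : D.L) ∈ Ms D.XL γ A ∧ ψ b = y := by
  by_cases h : ∃ τ : D.Ch, ∀ s, ⟨s, τ s⟩ ∈ A
  · obtain ⟨τ, h⟩ := h
    obtain ⟨S, h1, h2, h3⟩ := gr_bs hψ A
    rw [(C.mem_Ms _ hx γ A _).1 τ h, ← h3] at hy
    obtain ⟨z, h4, h5⟩ := hy
    obtain ⟨b, h6, h7⟩ := gr_ex ((Gr ψ).mul_mem (h1 h4) (gr_gen hψ γ τ))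
    refine ⟨b, ?_, h7.trans ((div_eq_iff ((C.gen _ hx τ).1 γ)).1 h5.symm).symm⟩
    rw [(C.mem_Ms _ xl_ne γ A _).1 τ h, ← h2]
    exact ⟨z, h4, ((div_eq_iff ((C.gen _ xl_ne τ).1 γ)).2 h6).symm⟩
  · exact ⟨0, zero_mem _, (map_zero ψ).trans ((C.mem_Ms _ hx γ A _).2 h hy).symm⟩

lemma tr (C : St_CH) (hx : ∀ a, x a ≠ 0) {F : D.Fm} (hk : ∀ b, ψ b = 0 ↔ b ∈ II F D.m) (γ : D.Λ)
    (q : ℕ) (h : Ex Finset.univ (Mq F D.m γ) q) : Ex Finset.univ (Ms x γ) q := by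
  refine (Ex.map (Ideal.Quotient.lift (II F D.m) ψ.toRingHom fun b => (hk b).2).toAddMonoidHom
    (fun A A' e => AddSubgroup.map_mono (AddSubgroup.comap_mono ((C.bs D.XL).2.2.2 γ e)))
    ?_ ?_ fun A y hy => ?_).1 h
  · rintro A _ ⟨b, -, rfl⟩ e
    exact Ideal.Quotient.eq_zero_iff_mem.2 ((hk b).1 e)
  · rintro A _ ⟨b, hb, rfl⟩
    exact into hψ C hx γ A b hb
  · obtain ⟨b, h1, h2⟩ := onto hψ C hx γ A y hy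
    exact ⟨_, ⟨b, h1, rfl⟩, h2⟩

end

end LVAN

theorem st_LVAN (T : Tools) (hT : St_LTOW) (hP : St_LPSI) : St_LVAN := by
  intro D F hF hJ K _ _ M
  obtain ⟨ψ, h1, h2⟩ := hP D F hF K M
  have hd := D.dim
  refine ⟨fun s => LVAN.tr h1 T.ch (T.ch.ne M) h2 _ _
      (hT D F hF hJ _ le_rfl _ _ (Or.inl ⟨s, rfl⟩) (by omega)),
    fun j => LVAN.tr h1 T.ch (T.ch.ne M) h2 _ _
      (hT D F hF hJ _ le_rfl _ _ (Or.inr fun s => ?_) (by omega))⟩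
  have := D.d_pos j s
  show -((D.d j s : ℕ) : ℤ) < 0
  omega

end Pool.Agent.Lib.CI
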