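import Pool.Agent.Lib.CI.LDefs

open Set Submodule
open scoped NNReal

set_option linter.unusedSectionVars false
set_option linter.unusedVariables false

noncomputable section

namespace Pool.Agent.Lib.CI

open Dat

namespace XMIN

/-- Nonnegative combinations of natural numbers with fixed coefficients are well ordered. -/
lemma wf {n : ℕ} (c : Fin n → ℝ≥0) :
    (Set.range fun v : Fin n → ℕ => ∑ i, (c i : ℝ) * (v i : ℝ)).IsWF := by
  have h : (Set.univ : Set (Fin n → ℕ)).IsPWO := Set.isPWO_of_wellQuasiOrderedLE _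
  have hm : Monotone fun v : Fin n → ℕ => ∑ i, (c i : ℝ) * (v i : ℝ) := fun v w hvw =>
    Finset.sum_le_sum fun i _ =>
      mul_le_mul_of_nonneg_left (by exact_mod_cast hvw i) (c i).coe_nonneg
  rw [← Set.image_univ]
  exact (h.image_of_monotone hm).isWF

lemma pr_sum {D : Dat} (f : D.Λ) {n : ℕ} (c : Fin n → ℝ≥0) (y : Fin n → D.V)
    (T : D.V ≃ₗ[ℝ] D.V) : pr f (T (∑ i, c i • y i)) = ∑ i, (c i : ℝ) * pr f (T (y i)) := by
  have e : T (∑ i, c i • y i) = ∑ i, (c i : ℝ) • T (y i) := by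
    rw [map_sum]
    exact Finset.sum_congr rfl fun i _ => by rw [NNReal.smul_def, map_smul]
  rw [e]
  simp only [pr, Finset.sum_apply, Pi.smul_apply, smul_eq_mul, Finset.mul_sum]
  rw [Finset.sum_comm]
  exact Finset.sum_congr rfl fun i _ => Finset.sum_congr rfl fun s _ => by ring

end XMIN

theorem st_MIN : St_MIN := by
  intro D G A _ _ h hh x hx
  obtain ⟨n, c, y, hxy⟩ := Submodule.mem_span_set'.mp (G.eff_gen x hx)
  set W : Set ℝ := {r | ∃ T ∈ G.Γ, Itg T ∧ ∃ a, r = pr (h a) (T x)} with hW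
  have hsub : W ⊆ Set.range fun v : Fin n → ℕ => ∑ i, (c i : ℝ) * (v i : ℝ) := by
    rintro r ⟨T, hT, hI, a, rfl⟩
    have key : ∀ i, ∃ v : ℕ, pr (h a) (T (y i : D.V)) = v := fun i => by
      obtain ⟨hE, γ, hγ⟩ := (y i).2
      obtain ⟨γ', hγ'⟩ := hI γ
      have h0 := hh a _ (G.Γ_eff T hT _ hE)
      rw [hγ, hγ', pr_cst] at h0 ⊢
      have h1 : 0 ≤ h a ⬝ᵥ γ' := by exact_mod_cast h0
      obtain ⟨v, hv⟩ := Int.eq_ofNat_of_zero_le h1
      exact ⟨v, by rw [hv]; simp⟩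
    choose v hv using key
    refine ⟨v, ?_⟩
    rw [← hxy, XMIN.pr_sum]
    exact Finset.sum_congr rfl fun i _ => by rw [hv i]
  have hwf : W.IsWF := (XMIN.wf c).mono hsub
  have hne : W.Nonempty :=
    ⟨_, 1, G.Γ.one_mem, Itg.one, Classical.arbitrary A, rfl⟩
  obtain ⟨T, hT, hI, a, ha⟩ := hwf.min_mem hne
  refine ⟨T, hT, hI, a, fun T' hT' hI' b => ?_⟩
  rw [← ha]
  exact hwf.min_le hne ⟨T', hT', hI', b, rfl⟩

end Pool.Agent.Lib.CI
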