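import Pool.Agent.Lib.CI.BlueA

/-! Configurations under field embeddings and under reduction. -/

open MvPolynomial Set Matrix WithZero Pool.Agent.Lib.MP_e39d36_ag Pool.Agent.Lib.MP_e39d36_ag.Var
  Pool.Agent.Lib.MP_cc3443_ag Pool.Agent.Lib.MV Pool.Agent.Lib.MV.End Pool.Agent.Lib.MV.Fb
  Pool.Agent.Lib.DU

set_option linter.unusedSectionVars false
set_option linter.unusedVariables false

noncomputable section

namespace Pool.Agent.Lib.CI

open Pool.Agent.Lib.CI.Dat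
open Pool.Agent.Lib.MV.G3 (acl Ov)

namespace MP

variable {D : Dat} (F : D.Fm)

section gen

variable {σ Ω : Type} [Field Ω] [Algebra ℂ Ω] (u : σ → Ω) {m : ℕ}

theorem aev_xp (M : Matrix (Fin m) (Fin (m + 1)) (MvPolynomial σ ℂ)) (q : Fin (m + 1)) :
    xp (Matrix.of fun a b => aeval u (M a b)) q = aeval u (xp M q) := by
  rw [xp, xp, map_mul, map_pow, map_neg, map_one, AlgHom.map_det]
  rfl

theorem aev_adj (M : Matrix (Fin m) (Fin m) (MvPolynomial σ ℂ)) (p q : Fin m) :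
    (Matrix.of fun a b => aeval u (M a b)).adjugate p q = aeval u (M.adjugate p q) := by
  have h := AlgHom.map_adjugate (aeval u) M
  rw [AlgHom.mapMatrix_apply, AlgHom.mapMatrix_apply] at h
  rw [← Matrix.map_apply (f := aeval u), h]
  rfl

theorem aev_cub (a b c d : MvPolynomial σ ℂ) (t : ℂ) :
    aeval u a * t • aeval u b - aeval u c * t • aeval u d = aeval u (a * t • b - c * t • d) := by
  rw [map_sub, map_mul, map_mul, map_smul, map_smul]

end gen

theorem adjP (τ τ' : D.Ty) (p q : Fin D.m) : ∃ P : MvPolynomial D.Vr ℂ,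
    ∀ (Ω : Type) [Field Ω] [Algebra ℂ Ω] (u : D.Vr → Ω),
      (Mx F τ τ' u).adjugate p q = aeval u P :=
  ⟨_, fun _ _ _ u => aev_adj u (fun p q => pderiv (co τ p) (pderiv (co τ' q) (FF F))) p q⟩

theorem xpP (l : D.I0) (i : D.I1) (q : Fin (D.m + 1)) : ∃ P : MvPolynomial D.Vr ℂ,
    ∀ (Ω : Type) [Field Ω] [Algebra ℂ Ω] (u : D.Vr → Ω), xp (Nx F l i u) q = aeval u P :=
  ⟨_, fun _ _ _ u => aev_xp u (NP F l i) q⟩

theorem usP (i : D.I1) (p : Fin (D.m + 1)) : ∃ P : Fin (D.m + 1) → MvPolynomial D.Vr ℂ,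
    ∀ (Ω : Type) [Field Ω] [Algebra ℂ Ω] (u : D.Vr → Ω) (q : Fin (D.m + 1)),
      us F i u p q = aeval u (P q) := by
  refine ⟨_, fun _ _ _ u q => Eq.trans ?_ (aev_xp u (fun j e => if j = jj i then
    (if e = p then 1 else 0) else pderiv (cw i e) (rename .inr (F j))) q)⟩
  refine congrArg (fun y => xp y q) (Matrix.ext fun j e => ?_)
  rw [updateRow_apply, of_apply, Pi.single_apply, apply_ite (aeval u), apply_ite (aeval u), map_one,
    map_zero]
  rfl

theorem SxP (i : D.I1) (p p' : Fin (D.m + 1)) : ∃ P : MvPolynomial D.Vr ℂ,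
    ∀ (Ω : Type) [Field Ω] [Algebra ℂ Ω] (u : D.Vr → Ω), Sx F i u p p' = aeval u P := by
  obtain ⟨P, hP⟩ := usP F i p
  obtain ⟨P', hP'⟩ := usP F i p'
  refine ⟨∑ q, P q * ∑ q', pderiv (cw i q) (pderiv (cw i q') (rename .inr (F (jj i)))) * P' q',
    fun _ _ _ u => ?_⟩
  simp only [Sx, dotProduct, mulVec, hP, hP', Hs, of_apply, map_sum, map_mul]

theorem CCP (hm : D.m = 2) (l : D.I0) (i : D.I1) (a b e : Fin 3) : ∃ P : MvPolynomial D.Vr ℂ,
    ∀ (Ω : Type) [Field Ω] [Algebra ℂ Ω] (u : D.Vr → Ω), CC F hm l i u a b e = aeval u P := by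
  exact ⟨_, fun _ _ _ u => aev_cub u _ _ _ _ _⟩

theorem co_surj {τ : D.Ty} {a : D.Vr} (h : sl a = ts τ) : ∃ p, a = co τ p := by
  rcases a with j | ⟨s, p⟩ <;> rcases τ with _ | l
  · exact ⟨j, rfl⟩
  · simp [sl, ts] at h
  · simp [sl, ts] at h
  · obtain rfl : s = l.1 := Option.some.inj h
    exact ⟨p.cast l.2, rfl⟩

theorem cw_surj {i : D.I1} {a : D.Vr} (h : sl a = some i.1) : ∃ p, a = cw i p := by
  rcases a with j | ⟨s, p⟩
  · simp [sl] at h
  · obtain rfl : s = i.1 := Option.some.inj h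
    exact ⟨p.cast (congrArg (· + 1) i.2), rfl⟩

section mp

variable {Ω Ω' : Type} [Field Ω] [Algebra ℂ Ω] [Field Ω'] [Algebra ℂ Ω'] (j : Ω →ₐ[ℂ] Ω')

theorem jaev (u : D.Vr → Ω) (P : MvPolynomial D.Vr ℂ) : aeval (j ∘ u) P = j (aeval u P) :=
  (comp_aeval_apply u j P).symm

theorem jNZ (u : D.Vr → Ω) : NZ (j ∘ u) ↔ NZ u := by
  simp only [NZ, Function.comp_apply, map_ne_zero]

theorem jEqs (τ : D.Ty) (u : D.Vr → Ω) : Eqs F τ (j ∘ u) ↔ Eqs F τ u := by
  simp only [Eqs, jaev, map_eq_zero]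

end mp

end MP

open MP

theorem st_MP (h : St_RED) : St_MP where
  map F Ω Ω' _ _ _ _ j u := by
    refine ⟨fun ρ => funext fun a => ?_, jNZ j u, ?_, fun τ => jEqs F j τ u,
      fun τ τ' lam hd => ⟨(jNZ j u).2 hd.nz, (jEqs F j τ u).2 hd.e1, (jEqs F j τ' u).2 hd.e2,
        (map_ne_zero j).2 hd.ne, fun p q => ?_⟩, fun l i t ht q => ?_,
      fun i u' lam hs => ⟨⟨(jNZ j u).2 hs.c1.1, (jEqs F j none u).2 hs.c1.2⟩,
        ⟨(jNZ j u').2 hs.c2.1, (jEqs F j none u').2 hs.c2.2⟩,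
        fun a ha => congrArg j (hs.eq a ha), (map_ne_zero j).2 hs.ne, fun p p' => ?_⟩,
      fun hm l i => ⟨fun s => funext fun e => jaev j u _, ?_⟩⟩
    · simp only [sc, Function.comp_apply, map_mul, map_prod, map_zpow₀]
    · simp only [Dat.N1, Function.comp_apply, map_eq_one_iff j j.injective]
    · obtain ⟨P, hP⟩ := adjP F τ τ' q p
      rw [hP, jaev, ← hP, hd.adj, map_mul, map_mul]
      rfl
    · obtain ⟨P, hP⟩ := xpP F l i q
      rw [hP, jaev, ← hP, ← ht q, map_mul]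
      rfl
    · obtain ⟨P, hP⟩ := SxP F i p p'
      rw [hP, jaev, ← hP, hs.sym, map_mul, map_add, map_mul, map_mul]
      rfl
    · funext a b e
      obtain ⟨P, hP⟩ := CCP F hm l i a b e
      rw [hP, hP, jaev]
  red F Ω κ _ _ _ _ v R u hu := by
    obtain ⟨r0, r1, rn, -⟩ := h.one R
    have ae := h.aev R u hu
    have hN : Nw v u ↔ NZ (R.r ∘ u) := by
      simp only [Nw, NZ, Function.comp_apply, rn _ (hu _), hu, implies_true, true_and]
    have hE : ∀ τ, Eqs F τ u → Eqs F τ (R.r ∘ u) := fun τ he p => by rw [← (ae _).2, he p, r0]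
    have hA : ∀ τ τ' p q, v ((Mx F τ τ' u).adjugate p q) ≤ 1 ∧
        R.r ((Mx F τ τ' u).adjugate p q) = (Mx F τ τ' (R.r ∘ u)).adjugate p q := fun τ τ' p q => by
      obtain ⟨P, hP⟩ := adjP F τ τ' p q
      rw [hP, hP]
      exact ae P
    have hX : ∀ l i q, v (xp (Nx F l i u) q) ≤ 1 ∧
        R.r (xp (Nx F l i u) q) = xp (Nx F l i (R.r ∘ u)) q := fun l i q => by
      obtain ⟨P, hP⟩ := xpP F l i q
      rw [hP, hP]
      exact ae P
    refine ⟨hN, fun h1 σ => ?_, hE, hA, fun τ τ' lam hw hd h0 => ?_, hX, fun l i t ht hT q => ?_,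
      fun l i t hw hT => ?_, fun i p p' => ?_, fun hm l i => ⟨fun s e => (ae _).1, fun a b e => ?_,
        fun s => funext fun e => (ae _).2.symm, ?_⟩⟩
    · obtain ⟨a, ha, e⟩ := h1 σ
      exact ⟨a, ha, by rw [Function.comp_apply, e, r1]⟩
    · have l1 : v lam ≤ 1 := by
        obtain ⟨a, ha, e⟩ := hw.2 (ts τ)
        obtain ⟨a', ha', e'⟩ := hw.2 (ts τ')
        obtain ⟨p, rfl⟩ := co_surj ha
        obtain ⟨q, rfl⟩ := co_surj ha'
        have := (hA τ τ' q p).1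
        rwa [hd.adj, map_mul, map_mul, e, e', mul_one, mul_one] at this
      have l2 : ∀ p q, (Mx F τ τ' (R.r ∘ u)).adjugate q p =
          R.r lam * (R.r ∘ u) (co τ' q) * (R.r ∘ u) (co τ p) := fun p q => by
        rw [← (hA τ τ' q p).2, hd.adj, R.mul _ _ (by
          rw [map_mul]
          exact mul_le_one' l1 (hu _)) (hu _), R.mul _ _ l1 (hu _)]
        rfl
      have l3 : R.r lam ≠ 0 := fun e => h0 (Matrix.ext fun q p => by
        rw [l2, e, zero_mul, zero_mul]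
        rfl)
      exact ⟨(rn _ l1).1 l3, hN.1 hw, hE τ hd.e1, hE τ' hd.e2, l3, l2⟩
    · rw [← (hX l i q).2, ← hT q, R.mul _ _ ht (hu _)]
      rfl
    · obtain ⟨a, ha, e⟩ := hw.2 (some i.1)
      obtain ⟨q, rfl⟩ := cw_surj ha
      have := (hX l i q).1
      rwa [← hT q, map_mul, e, mul_one] at this
    · obtain ⟨P, hP⟩ := SxP F i p p'
      rw [hP, hP]
      exact ae P
    · obtain ⟨P, hP⟩ := CCP F hm l i a b e
      rw [hP]
      exact (ae P).1
    · funext a b e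
      obtain ⟨P, hP⟩ := CCP F hm l i a b e
      rw [hP, hP]
      exact (ae P).2.symm

end Pool.Agent.Lib.CI
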