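import Pool.Agent.Lib.CI.BlueA

open MvPolynomial Set Matrix WithZero Pool.Agent.Lib.MP_e39d36_ag Pool.Agent.Lib.MP_e39d36_ag.Var
  Pool.Agent.Lib.MP_cc3443_ag Pool.Agent.Lib.MV Pool.Agent.Lib.MV.End Pool.Agent.Lib.MV.Fb
  Pool.Agent.Lib.DU

set_option linter.unusedSectionVars false
set_option linter.unusedVariables false

noncomputable section

namespace Pool.Agent.Lib.CI

open Pool.Agent.Lib.CI.Dat
open Pool.Agent.Lib.MV.G3 (acl Ov)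

namespace NRM

section fld

variable {D : Dat} {Ω : Type} [Field Ω] {v : Valuation Ω ℤᵐ⁰}

/-- Integral entries, one of them equal to one. -/
def Gd (v : Valuation Ω ℤᵐ⁰) {ι : Type} (y : ι → Ω) : Prop := (∀ l, v (y l) ≤ 1) ∧ ∃ l, y l = 1

lemma norm1 (v : Valuation Ω ℤᵐ⁰) {ι : Type} [Fintype ι] (y : ι → Ω) (h : ∃ l, y l ≠ 0) :
    ∃ c, c ≠ 0 ∧ Gd v fun l => c * y l := by
  obtain ⟨l, hl⟩ := h
  have : Nonempty ι := ⟨l⟩
  obtain ⟨l0, h0⟩ := exists_nm (v := v) y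
  have h1 : v (y l0) ≠ 0 := h0 ▸ nm_ne fun h => hl (congrFun h l)
  have h2 : y l0 ≠ 0 := fun h => h1 (by simp [h])
  refine ⟨(y l0)⁻¹, inv_ne_zero h2, fun l => ?_, l0, inv_mul_cancel₀ h2⟩
  rw [map_mul, map_inv₀, inv_mul_le_iff₀ (zero_lt_iff.2 h1), mul_one, ← h0]
  exact le_nm y l

lemma slots {p : D.Vr → Prop} : (∀ σ, ∃ a, sl a = σ ∧ p a) ↔
    (∀ s, ∃ q, p (.inr ⟨s, q⟩)) ∧ ∃ j, p (.inl j) := by
  refine ⟨fun h => ⟨fun s => ?_, ?_⟩, fun h σ => ?_⟩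
  · obtain ⟨j | ⟨t, q⟩, h1, h2⟩ := h (some s)
    · cases h1
    · cases h1; exact ⟨q, h2⟩
  · obtain ⟨j | ⟨t, q⟩, h1, h2⟩ := h none
    · exact ⟨j, h2⟩
    · cases h1
  · cases σ with
    | none => exact h.2.elim fun j hj => ⟨_, rfl, hj⟩
    | some s => exact (h.1 s).elim fun q hq => ⟨_, rfl, hq⟩

lemma nm_iff {u : D.Vr → Ω} :
    Nm v u ↔ (∀ s, Gd v fun p => u (.inr ⟨s, p⟩)) ∧ Gd v fun j => u (.inl j) := by
  refine ⟨fun h => ⟨fun s => ⟨fun _ => h.1 _, (slots.1 h.2).1 s⟩, fun _ => h.1 _, (slots.1 h.2).2⟩,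
    fun h => ⟨?_, slots.2 ⟨fun s => (h.1 s).2, h.2.2⟩⟩⟩
  rintro (j | ⟨s, p⟩)
  · exact h.2.1 j
  · exact (h.1 s).1 p

lemma aW_zero (j : Fin D.m) {s : Fin D.k} (h : D.n s + 1 = D.m) : D.aW j s = 0 := if_pos h

lemma complete (hC : St_SC) (v : Valuation Ω ℤᵐ⁰) {u : D.Vr → Ω} (hu : NZ u) (c : Fin D.k → Ω)
    (h0 : ∀ s, c s ≠ 0) : ∃ c0, c0 ≠ 0 ∧ Gd v fun j => c0 * u (.inl j) / ∏ s, c s ^ D.aW j s := by
  obtain ⟨j, hj⟩ := (slots.1 hu).2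
  obtain ⟨c0, h1, h2⟩ := norm1 v (fun j => u (.inl j) / ∏ s, c s ^ D.aW j s)
    ⟨j, div_ne_zero hj (Finset.prod_ne_zero_iff.2 fun s _ => pow_ne_zero _ (h0 s))⟩
  exact ⟨c0, h1, by simpa only [mul_div_assoc] using h2⟩

lemma build (hC : St_SC) {u : D.Vr → Ω} {c : Fin D.k → Ω} {c0 : Ω}
    (h1 : ∀ s, Gd v fun p => c s * u (.inr ⟨s, p⟩))
    (h2 : Gd v fun j => c0 * u (.inl j) / ∏ s, c s ^ D.aW j s) :
    Nm v (sc (fun σ => σ.elim c0 c) u) := by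
  rw [nm_iff]
  simp only [hC.sc_inr, hC.sc_inl]
  exact ⟨h1, h2⟩

lemma ex (hC : St_SC) (v : Valuation Ω ℤᵐ⁰) (u : D.Vr → Ω) (hu : NZ u) :
    ∃ ρ : D.Sl → Ω, (∀ σ, ρ σ ≠ 0) ∧ Nm v (sc ρ u) := by
  choose c h0 h1 using fun s => norm1 v (fun p => u (.inr ⟨s, p⟩)) ((slots.1 hu).1 s)
  obtain ⟨c0, h2, h3⟩ := complete hC v hu c h0
  exact ⟨_, fun σ => by cases σ <;> simp [h2, h0], build hC h1 h3⟩

lemma ex' (hC : St_SC) (v : Valuation Ω ℤᵐ⁰) (u u' : D.Vr → Ω) (ρ : D.Sl → Ω) (hu : NZ u')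
    (hρ : ∀ σ, ρ σ ≠ 0) (hN : Nm v (sc ρ u)) :
    ∃ ρ' : D.Sl → Ω, (∀ σ, ρ' σ ≠ 0) ∧ Nm v (sc ρ' u') ∧
      (∀ s, (∀ p, u' (.inr ⟨s, p⟩) = u (.inr ⟨s, p⟩)) → ρ' (some s) = ρ (some s)) ∧
      ((∀ a, sl a ∉ range (ts ∘ some) → u' a = u a) → ρ' none = ρ none) := by
  rw [nm_iff] at hN
  simp only [hC.sc_inr, hC.sc_inl] at hN
  have a1 : ∀ s, ∃ c, c ≠ 0 ∧ Gd v (fun p => c * u' (.inr ⟨s, p⟩)) ∧
      ((∀ p, u' (.inr ⟨s, p⟩) = u (.inr ⟨s, p⟩)) → c = ρ (some s)) := fun s => by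
    by_cases h : ∀ p, u' (.inr ⟨s, p⟩) = u (.inr ⟨s, p⟩)
    · exact ⟨_, hρ _, by simpa only [h] using hN.1 s, fun _ => rfl⟩
    · obtain ⟨c, h0, h1⟩ := norm1 v (fun p => u' (.inr ⟨s, p⟩)) ((slots.1 hu).1 s)
      exact ⟨c, h0, h1, fun h' => absurd h' h⟩
  choose c h0 h1 h2 using a1
  have a2 : ∃ c0, c0 ≠ 0 ∧ Gd v (fun j => c0 * u' (.inl j) / ∏ s, c s ^ D.aW j s) ∧
      ((∀ a, sl a ∉ range (ts ∘ some) → u' a = u a) → c0 = ρ none) := by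
    by_cases h : ∀ a, sl a ∉ range (ts ∘ some) → u' a = u a
    · refine ⟨_, hρ _, ?_, fun _ => rfl⟩
      have e1 : ∀ j, u' (.inl j) = u (.inl j) := fun j => h _ (by rintro ⟨l, hl⟩; cases hl)
      have e2 : ∀ j s, c s ^ D.aW j s = ρ (some s) ^ D.aW j s := fun j s => by
        by_cases hs : D.n s + 1 = D.m
        · rw [aW_zero j hs, pow_zero, pow_zero]
        · rw [h2 s fun p => h _ ?_]
          rintro ⟨l, hl⟩
          cases hl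
          exact hs l.2
      simpa only [e1, e2] using hN.2
    · obtain ⟨c0, h3, h4⟩ := complete hC v hu c h0
      exact ⟨c0, h3, h4, fun h' => absurd h' h⟩
  obtain ⟨c0, h3, h4, h5⟩ := a2
  exact ⟨_, fun σ => by cases σ <;> simp [h3, h0], build hC h1 h4, h2, h5⟩

lemma mem_off {τ : D.Ty} {a : D.Vr} : a ∈ off τ ↔ sl a ≠ ts τ := by simp [off]

lemma slot (hL : St_SL) (hC : St_SC) (v : Valuation Ω ℤᵐ⁰) (τ : D.Ty) (u : D.Vr → Ω)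
    (ρ : D.Sl → Ω) (hu : NZ u) (hρ : ∀ σ, ρ σ ≠ 0) (h : ∀ a ∈ off τ, v (sc ρ u a) ≤ 1) :
    ∃ ρ' : D.Sl → Ω, (∀ σ, ρ' σ ≠ 0) ∧ (∀ σ, σ ≠ ts τ → ρ' σ = ρ σ) ∧
      (∀ a, v (sc ρ' u a) ≤ 1) ∧ ∃ p, sc ρ' u (co τ p) = 1 := by
  obtain ⟨a, ha, ha'⟩ := (hC.nz ρ u hρ).2 hu (ts τ)
  obtain ⟨p, rfl⟩ := hL.co_surj τ a ha
  obtain ⟨c, h0, h1, h2⟩ := norm1 v (fun p => sc ρ u (co τ p)) ⟨p, ha'⟩
  have e0 : ∀ σ, σ ≠ ts τ → Function.update ρ (ts τ) (c * ρ (ts τ)) σ = ρ σ :=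
    fun σ hσ => Function.update_of_ne hσ _ _
  have e1 : ∀ p, sc (Function.update ρ (ts τ) (c * ρ (ts τ))) u (co τ p) = c * sc ρ u (co τ p) := by
    intro p
    cases τ with
    | none =>
      simp only [co, hC.sc_inl, ts, Option.map_none, Function.update_self,
        Function.update_of_ne (Option.some_ne_none _)]
      ring
    | some l =>
      simp only [co, hC.sc_inr, ts, Option.map_some, Function.update_self]
      ring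
  refine ⟨_, fun σ => ?_, e0, fun a => ?_, by simpa only [e1] using h2⟩
  · by_cases hσ : σ = ts τ
    · rw [hσ, Function.update_self]; exact mul_ne_zero h0 (hρ _)
    · rw [e0 σ hσ]; exact hρ σ
  · by_cases hσ : sl a = ts τ
    · obtain ⟨q, rfl⟩ := hL.co_surj τ a hσ
      rw [e1]; exact h1 q
    · rw [hC.sc_agr τ ρ _ u u e0 (fun _ _ => rfl) a hσ]
      exact h a (mem_off.2 hσ)

lemma nw {u : D.Vr → Ω} (h : Nm v u) : Nw v u :=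
  ⟨h.1, fun σ => (h.2 σ).imp fun a ha => ⟨ha.1, by rw [ha.2, map_one]⟩⟩

lemma sv_ne (u : D.Vr → Ω) (hu : NZ u) (σ : D.Sl) : sv u σ ≠ 0 := by
  obtain ⟨h1, j, hj⟩ := slots.1 hu
  choose q hq using h1
  intro h
  have := congrFun h (j, q)
  cases σ with
  | none => exact mul_ne_zero hj (Finset.prod_ne_zero_iff.2 fun s _ => pow_ne_zero _ (hq s)) this
  | some s => exact hq s this

lemma nu_sc (hC : St_SC) (v : Valuation Ω ℤᵐ⁰) (ρ : D.Sl → Ω) (u : D.Vr → Ω) (hu : NZ u)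
    (hρ : ∀ σ, ρ σ ≠ 0) (σ : D.Sl) : nu v (sc ρ u) σ = nu v u σ + log (v (ρ σ)) := by
  have e : sv (sc ρ u) σ = ρ σ • sv u σ := by
    funext c
    cases σ with
    | none =>
      have : ∏ s, ρ (some s) ^ D.aW c.1 s ≠ 0 :=
        Finset.prod_ne_zero_iff.2 fun s _ => pow_ne_zero _ (hρ _)
      simp only [sv, hC.sc_inl, hC.sc_inr, mul_pow, Finset.prod_mul_distrib, Pi.smul_apply,
        smul_eq_mul]
      field_simp
    | some s => simp only [sv, hC.sc_inr, Pi.smul_apply, smul_eq_mul]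
  rw [Dat.nu, Dat.nu, e, nm_smul, log_mul ((Valuation.ne_zero_iff v).2 (hρ σ)) (nm_ne (sv_ne u hu σ)),
    add_comm]

lemma nm_one {ι : Type} [Fintype ι] {y : ι → Ω} (h : ∀ l, v (y l) ≤ 1) {l : ι} (h1 : v (y l) = 1) :
    nm v y = 1 := le_antisymm (nm_le.2 h) (h1 ▸ le_nm y l)

lemma nu_nw (v : Valuation Ω ℤᵐ⁰) (u : D.Vr → Ω) (h : Nw v u) (σ : D.Sl) : nu v u σ = 0 := by
  obtain ⟨h1, j, hj⟩ := slots.1 h.2
  choose q hq using h1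
  rw [Dat.nu, nm_one (l := (j, q)), log_one]
  · intro c
    cases σ with
    | none =>
      simp only [sv, map_mul, map_prod, map_pow]
      exact mul_le_one' (h.1 _) (Finset.prod_le_one' fun s _ => pow_le_one' (h.1 _) _)
    | some s => exact h.1 _
  · cases σ with
    | none => simp [sv, map_mul, map_prod, map_pow, hj, hq]
    | some s => exact hq s

lemma nu_some (v : Valuation Ω ℤᵐ⁰) (u : D.Vr → Ω) (s : Fin D.k) :
    nm v (sv u (some s)) = nm v fun p => u (.inr ⟨s, p⟩) := by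
  refine le_antisymm (nm_le.2 fun c => le_nm (fun p => u (.inr ⟨s, p⟩)) (c.2 s))
    (nm_le.2 fun p => ?_)
  have := le_nm (v := v) (sv u (some s))
    (⟨0, lt_of_lt_of_le two_pos D.two_le_m⟩, Function.update (fun _ => 0) s p)
  simpa only [sv, Function.update_self] using this

lemma nu_agr (τ : D.Ty) (u u' : D.Vr → Ω) (h : Agr (ts τ) u u') (σ : D.Sl) (hσ : σ ≠ ts τ) :
    sv u' σ = sv u σ := by
  funext c
  cases σ with
  | some s => exact h _ hσ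
  | none =>
    simp only [sv]
    rw [h (.inl c.1) hσ]
    refine congrArg _ (Finset.prod_congr rfl fun s _ => ?_)
    by_cases hs : some s = ts τ
    · cases τ with
      | none => cases hs
      | some l => cases hs; rw [aW_zero _ l.2, pow_zero, pow_zero]
    · rw [h (.inr ⟨s, c.2 s⟩) hs]

lemma sc_div (hC : St_SC) {ρ ρ0 : D.Sl → Ω} (u : D.Vr → Ω) (h : ∀ σ, ρ σ ≠ 0)
    (h0 : ∀ σ, ρ0 σ ≠ 0) : sc ρ0 u = sc (fun σ => ρ0 σ / ρ σ) (sc ρ u) := by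
  rw [hC.sc_sc _ _ _ (fun σ => div_ne_zero (h0 σ) (h σ)) h]
  congr 1
  funext σ
  exact (div_mul_cancel₀ _ (h σ)).symm

lemma agr (hL : St_SL) (hC : St_SC) (τ : D.Ty) {u u' : D.Vr → Ω} (h : Agr (ts τ) u u')
    (hu : NZ u') {ρ : D.Sl → Ω} (hρ : ∀ σ, ρ σ ≠ 0) (hN : Nm v (sc ρ u)) :
    ∃ ρ' : D.Sl → Ω, (∀ σ, ρ' σ ≠ 0) ∧ Nm v (sc ρ' u') ∧ sc ρ' u' '' off τ = sc ρ u '' off τ := by
  obtain ⟨ρ', a1, a2, a3, p, a4⟩ := slot hL hC v τ u' ρ hu hρ fun a ha => by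
    rw [hC.sc_agr τ ρ ρ u u' (fun _ _ => rfl) h a (mem_off.1 ha)]; exact hN.1 a
  have e := hC.sc_agr τ ρ ρ' u u' a2 h
  refine ⟨ρ', a1, ⟨a3, fun σ => ?_⟩, image_congr fun a ha => e a (mem_off.1 ha)⟩
  by_cases hσ : σ = ts τ
  · exact ⟨_, hσ ▸ hL.sl_co τ p, a4⟩
  · obtain ⟨a, b1, b2⟩ := hN.2 σ
    exact ⟨a, b1, by rw [e a (b1 ▸ hσ), b2]⟩

end fld

section alg

variable {D : Dat} {Ω : Type} [Field Ω] [Algebra ℂ Ω] {v : Valuation Ω ℤᵐ⁰}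

lemma mem_k (hC : St_SC) (τ : D.Ty) (k : IntermediateField ℂ Ω) {w : D.Vr → Ω} {η : D.Sl → Ω}
    (hη : ∀ σ, η σ ≠ 0) (hw : ∀ a ∈ off τ, w a ∈ k) (hN : N1 (sc η w)) :
    ∀ a ∈ off τ, sc η w a ∈ k := by
  obtain ⟨h1, j, hj⟩ := slots.1 hN
  have a1 : ∀ s, some s ≠ ts τ → η (some s) ∈ k := fun s hs => by
    obtain ⟨q, hq⟩ := h1 s
    rw [hC.sc_inr] at hq
    rw [eq_inv_of_mul_eq_one_left hq]
    exact k.inv_mem (hw _ (mem_off.2 hs))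
  have a2 : ∀ j, ∏ s, η (some s) ^ D.aW j s ∈ k := fun j => prod_mem fun s _ => by
    by_cases hs : some s = ts τ
    · cases τ with
      | none => cases hs
      | some l => cases hs; rw [aW_zero _ l.2, pow_zero]; exact one_mem k
    · exact pow_mem (a1 s hs) _
  rintro (i | a) ha
  · rw [hC.sc_inl]
    refine div_mem (mul_mem ?_ (hw _ ha)) (a2 i)
    rw [hC.sc_inl, mul_div_assoc] at hj
    rw [eq_inv_of_mul_eq_one_left hj]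
    exact k.inv_mem (div_mem (hw _ (mem_off.2 (mem_off (a := .inl i) |>.1 ha))) (a2 j))
  · rw [hC.sc_inr]
    exact mul_mem (a1 _ (mem_off.1 ha)) (hw _ ha)

lemma r_sc (hR : St_RED) (hC : St_SC) {κ : Type} [Field κ] [Algebra ℂ κ] (R : Red v κ)
    {w : D.Vr → Ω} {η : D.Sl → Ω} (hη : ∀ σ, v (η σ) = 1) (hw : ∀ a, v (w a) ≤ 1) (a : D.Vr) :
    R.r (sc η w a) = sc (R.r ∘ η) (R.r ∘ w) a := by
  obtain ⟨-, o1, -, -, -, o2⟩ := hR.one R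
  have p1 : ∀ σ (n : ℕ), R.r (η σ ^ n) = R.r (η σ) ^ n := fun σ n => by
    induction n with
    | zero => simpa using o1
    | succ n ih => rw [pow_succ, pow_succ, R.mul _ _ (by simp [hη]) (hη σ).le, ih]
  have p2 : ∀ (n : Fin D.k → ℕ) (A : Finset (Fin D.k)),
      R.r (∏ s ∈ A, η (some s) ^ n s) = ∏ s ∈ A, R.r (η (some s)) ^ n s := fun n A => by
    induction A using Finset.induction_on with
    | empty => simpa using o1
    | insert s A hs ih =>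
      rw [Finset.prod_insert hs, Finset.prod_insert hs,
        R.mul _ _ (by simp [hη]) (by simp [map_prod, hη]), ih, p1]
  cases a with
  | inl j =>
    rw [hC.sc_inl, hC.sc_inl, o2 _ _ (by simpa [hη] using hw _) (by simp [map_prod, hη]),
      R.mul _ _ (hη _).le (hw _), p2]
    rfl
  | inr a => rw [hC.sc_inr, hC.sc_inr, R.mul _ _ (hη _).le (hw _)]; rfl

lemma big_iff (hK : St_RK) (hR : St_RED) (hC : St_SC) (hv : Cv v) (τ : D.Ty) (u : D.Vr → Ω)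
    (ρ : D.Sl → Ω) (e : ℕ) (hρ : ∀ σ, ρ σ ≠ 0) (hN : Nm v (sc ρ u)) :
    Big τ v u e ↔ IndV v (sc ρ u '' off τ) e := by
  refine ⟨?_, fun h => ⟨ρ, hρ, hN, h⟩⟩
  rintro ⟨ρ0, h0, N0, hI⟩
  obtain ⟨κ, _, _, ⟨R⟩⟩ := hR.ex hv
  rw [sc_div hC u hρ h0] at N0 hI
  have hη0 : ∀ σ, ρ0 σ / ρ σ ≠ 0 := fun σ => div_ne_zero (h0 σ) (hρ σ)
  generalize sc ρ u = w at *
  generalize hd : (fun σ => ρ0 σ / ρ σ) = η at *
  replace hη0 : ∀ σ, η σ ≠ 0 := hd ▸ hη0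
  have nz : NZ w := fun σ => (hN.2 σ).imp fun a ha => ⟨ha.1, by rw [ha.2]; exact one_ne_zero⟩
  have hη : ∀ σ, v (η σ) = 1 := fun σ => by
    have := nu_sc hC v η w nz hη0 σ
    rw [nu_nw v _ (nw N0), nu_nw v _ (nw hN), zero_add] at this
    rw [← exp_log ((Valuation.ne_zero_iff v).2 (hη0 σ)), ← this, exp_zero]
  have fin : ∀ y : D.Vr → Ω, (y '' (off τ : Set D.Vr)).Finite := fun y =>
    (Finset.finite_toSet _).image y
  rw [hR.ind R (fin _) (by rintro _ ⟨a, -, rfl⟩; exact N0.1 a)] at hI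
  rw [hR.ind R (fin _) (by rintro _ ⟨a, -, rfl⟩; exact hN.1 a)]
  refine hI.trans (hK.le ((fin _).image _) ?_)
  rintro _ ⟨_, ⟨a, ha, rfl⟩, rfl⟩
  rw [r_sc hR hC R hη hN.1]
  refine mem_k hC τ (acl (R.r '' (w '' off τ))) (η := R.r ∘ η) (w := R.r ∘ w)
    (fun σ => ((hR.one R).2.2.1 _ (hη σ).le).2 (hη σ))
    (fun b hb => G3.subset_acl _ (mem_image_of_mem R.r (mem_image_of_mem w hb))) (fun σ => ?_) a ha
  exact (N0.2 σ).imp fun b hb => ⟨hb.1, by rw [← r_sc hR hC R hη hN.1, hb.2, (hR.one R).2.1]⟩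

lemma ind_map {Ω' : Type} [Field Ω'] [Algebra ℂ Ω'] (j : Ω →ₐ[ℂ] Ω') (v : Valuation Ω' ℤᵐ⁰)
    (S : Set Ω) (e : ℕ) : IndV v (j '' S) e ↔ IndV (v.comap j.toRingHom) S e := by
  constructor
  · rintro ⟨a, h1, h2⟩
    choose b hb hb' using h1
    refine ⟨b, hb, fun P hP => ?_⟩
    rw [← h2 P hP, ← funext hb', ← comp_aeval_apply]
    rfl
  · rintro ⟨a, h1, h2⟩
    refine ⟨fun i => j (a i), fun i => ⟨_, h1 i, rfl⟩, fun P hP => ?_⟩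
    rw [← h2 P hP, ← comp_aeval_apply]
    rfl

lemma big_map (hK : St_RK) (hR : St_RED) (hC : St_SC) {Ω' : Type} [Field Ω'] [Algebra ℂ Ω']
    (j : Ω →ₐ[ℂ] Ω') {v : Valuation Ω' ℤᵐ⁰} (hv : Cv v) (τ : D.Ty) (u : D.Vr → Ω) (e : ℕ)
    (hu : NZ u) : Big τ v (j ∘ u) e ↔ Big τ (v.comap j.toRingHom) u e := by
  obtain ⟨ρ, h0, hN⟩ := ex hC (v.comap j.toRingHom) u hu
  have e1 : sc (j ∘ ρ) (j ∘ u) = j ∘ sc ρ u := by
    funext a
    simp [sc, map_prod]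
  rw [big_iff hK hR hC (fun c => by simpa using hv c) τ u ρ e h0 hN,
    big_iff hK hR hC hv τ (j ∘ u) (j ∘ ρ) e (fun σ => by simpa using h0 σ)
      (e1 ▸ ⟨hN.1, fun σ => (hN.2 σ).imp fun a ha => ⟨ha.1, by simp [ha.2]⟩⟩),
    e1, image_comp, ind_map]

end alg

end NRM

open NRM in
theorem st_NRM (hK : St_RK) (hR : St_RED) (hL : St_SL) (hC : St_SC) : St_NRM where
  ex := fun v u hu => ex hC v u hu
  ex' := fun v u u' ρ => ex' hC v u u' ρ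
  slot := fun v τ u ρ => slot hL hC v τ u ρ
  nw := nw
  nu_sc := fun v ρ u => nu_sc hC v ρ u
  nu_nw := nu_nw
  nu_some := nu_some
  nu_co := fun v u h => by
    refine ⟨fun τ => ?_, fun i => ?_, fun hm i => ?_⟩
    · obtain ⟨a, h1, h2⟩ := h.2 (ts τ)
      obtain ⟨p, rfl⟩ := hL.co_surj τ a h1
      exact nm_one (fun _ => h.1 _) (l := p) h2
    · obtain ⟨a, h1, h2⟩ := h.2 (some i.1)
      obtain ⟨p, rfl⟩ := hL.cw_surj i a h1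
      exact nm_one (fun _ => h.1 _) (l := p) h2
    · obtain ⟨a, h1, h2⟩ := h.2 (some i.1)
      obtain ⟨p, rfl⟩ := hL.c3_surj hm i a h1
      exact nm_one (fun _ => h.1 _) (l := p) h2
  nu_agr := fun _ τ u u' => nu_agr τ u u'
  sv_ne := sv_ne
  big_iff := fun hv => big_iff hK hR hC hv
  big_agr := fun τ u u' e h hu ⟨ρ, h0, hN, hI⟩ => by
    obtain ⟨ρ', a1, a2, a3⟩ := agr hL hC τ h hu h0 hN
    exact ⟨ρ', a1, a2, a3 ▸ hI⟩
  big_sc := fun τ u ρ e hρ =>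
    ⟨fun ⟨ρ', h0, h⟩ => ⟨ρ' * ρ, fun σ => mul_ne_zero (h0 σ) (hρ σ), hC.sc_sc _ _ u h0 hρ ▸ h⟩,
      fun ⟨ρ', h0, h⟩ => ⟨_, fun σ => div_ne_zero (h0 σ) (hρ σ), sc_div hC u hρ h0 ▸ h⟩⟩
  big_mono := fun τ u e e' he ⟨ρ, h0, hN, a, h1, h2⟩ =>
    ⟨ρ, h0, hN, a ∘ Fin.castLE he, fun _ => h1 _, fun P hP => by
      rw [← aeval_rename]
      exact h2 _ fun h => hP (rename_injective _ (Fin.castLE_injective he) (by simpa using h))⟩
  big_map := fun j _ hv => big_map hK hR hC j hv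
  gt_iff := fun τ u ρ hρ hN => by
    refine ⟨?_, fun h => ⟨ρ, hρ, hN, h⟩⟩
    rintro ⟨ρ0, h0, N0, hT⟩
    rw [sc_div hC u hρ h0] at N0 hT
    rw [eq_top_iff, ← hT, IntermediateField.adjoin_le_iff]
    rintro _ ⟨a, ha, rfl⟩
    exact mem_k hC τ _ (fun σ => div_ne_zero (h0 σ) (hρ σ))
      (fun b hb => IntermediateField.subset_adjoin _ _ (mem_image_of_mem _ hb)) N0 a ha
  gt_agr := fun {D Ω} _ _ τ u u' h hu ⟨ρ, h0, hN, hT⟩ => by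
    obtain ⟨ρ', a1, a2, a3⟩ := agr (v := tv Ω) hL hC τ h hu h0 ⟨fun _ => (hR.triv Ω).2.1 _, hN⟩
    exact ⟨ρ', a1, a2.2, a3 ▸ hT⟩

end Pool.Agent.Lib.CI
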