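import Pool.Agent.Lib.CI.BlueB

open MvPolynomial Set Matrix WithZero Pool.Agent.Lib.MP_e39d36_ag Pool.Agent.Lib.MP_e39d36_ag.Var
  Pool.Agent.Lib.MP_cc3443_ag Pool.Agent.Lib.MV Pool.Agent.Lib.MV.End Pool.Agent.Lib.MV.Fb
  Pool.Agent.Lib.DU

set_option linter.unusedSectionVars false
set_option linter.unusedVariables false

noncomputable section

namespace Pool.Agent.Lib.CI

open Pool.Agent.Lib.CI.Dat
open Pool.Agent.Lib.MV.G3 (acl Ov)

theorem st_OM (T : Tools) (SEC : St_SEC) (IMOV : St_IMOV) (GCL : St_GCL) : St_OM := by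
  intro D F hF hm K _ _ M l u lam hL i E hE
  obtain ⟨-, h2, h3, -, -⟩ := SEC D F hF K M l u lam hL
  obtain ⟨e, ⟨⟨φ, hφ⟩, hact⟩, hfix⟩ := IMOV D F hF hm K M l i u lam hL
  have hnt : Nontrivial (Fin D.m) := Fin.nontrivial_iff_two_le.2 hm.ge
  obtain ⟨j, hj⟩ := exists_ne (jj i)
  have hcl := ((GCL D l).2.2.1 hm i).2 j hj
  refine ⟨M.LD u j + push e (M.LD u j), ?_, ?_, ?_⟩
  · rw [← hcl]
    have h1 : M.std (Lam l j + ∑ s, Lam l j s • icol l i s) =
        M.std (Lam l j) + ∑ s, Lam l j s • M.std (icol l i s) := by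
      simp only [Mod.std, Pi.add_apply, Finset.sum_apply, Pi.smul_apply, smul_eq_mul, add_smul,
        Finset.sum_add_distrib, Finset.sum_smul, Finset.smul_sum, mul_smul]
      rw [Finset.sum_comm]
    rw [h1]
    refine (h2 j).2.add (((h2 j).2.push hφ).trans ?_)
    have h4 : push e (M.std (Lam l j)) = ∑ s, Lam l j s • push e (M.st s) := by
      simp only [Mod.std, map_sum, map_zsmul]
    rw [h4]
    exact LE.sum fun s _ => (hact s).zsmul _
  · intro E'
    have := (h2 j).1 E'
    have h' := (h2 j).1 (e.symm E')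
    simp only [Finsupp.coe_zero, Pi.zero_apply, Finsupp.coe_add, Pi.add_apply, push_apply] at *
    exact add_nonneg this h'
  · have hE' : 0 < M.LD u (jj i) (e.symm E) := by
      rw [← push_apply e, hfix]; exact hE
    have a1 := (h3 E j (jj i) hj).resolve_right hE.ne'
    have a2 := (h3 (e.symm E) j (jj i) hj).resolve_right hE'.ne'
    rw [Finsupp.add_apply, push_apply, a1, a2, add_zero]

end Pool.Agent.Lib.CI
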