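import Pool.Agent.Lib.CI.BlueB

open MvPolynomial Set Matrix WithZero Pool.Agent.Lib.MP_e39d36_ag Pool.Agent.Lib.MP_e39d36_ag.Var
  Pool.Agent.Lib.MP_cc3443_ag Pool.Agent.Lib.MV Pool.Agent.Lib.MV.End Pool.Agent.Lib.MV.Fb
  Pool.Agent.Lib.DU

set_option linter.unusedSectionVars false
set_option linter.unusedVariables false

noncomputable section

namespace Pool.Agent.Lib.CI

open Pool.Agent.Lib.CI.Dat
open Pool.Agent.Lib.MV.G3 (acl Ov)

namespace PAIR

lemma ne_li {D : Dat} (l : D.I0) (i : D.I1) : l.1 ≠ i.1 := fun h => by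
  have h1 := l.2
  have h2 := i.2
  rw [h] at h1
  omega

/-- The weights: one on the slot `l`. -/
def ww {D : Dat} (l : D.I0) (a : D.Hx) : ℕ := if a.1 = l.1 then 1 else 0

lemma plc (T : Tools) (hSIGV : St_SIGV) {D : Dat} {F : D.Fm} (hG : Gen F) (l : D.I0) (i : D.I1)
    {L : Type} [Field L] [Algebra ℂ L] (v : Valuation L ℤᵐ⁰) (hv : Cv v) (u u' : D.Vr → L)
    (lam π : L) (hS : Sig F i u u' lam) (hπ : π ≠ 0) (h0 : ∀ s, u (.inr ⟨s, 0⟩) = 1)
    (h1 : ∀ a : D.Hx, a.1 ≠ i.1 → v (u (.inr a) / π ^ ww l a) ≤ 1)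
    (h3 : ∃ a : D.Hx, a.1 = l.1 ∧ u (.inr a) / π = 1) (S : Set L) (e : ℕ) (h4 : IndV v S e)
    (h5 : ∀ z ∈ S, z ≠ 0 → ∃ a : D.Hx, a.1 ≠ i.1 ∧ z = u (.inr a) / π ^ ww l a)
    (he : D.dm - 1 ≤ e) :
    nu v u (some l.1) = log (v π) ∧ (∀ s, s ≠ l.1 → s ≠ i.1 → nu v u (some s) = 0) ∧
      log (v lam) + nu v u (some i.1) + nu v u' (some i.1) = (2 * (D.m : ℤ) - 1) * log (v π) := by
  classical
  have hli := ne_li l i
  have hnz : NZ u := hS.c1.1
  obtain ⟨p0, hp0⟩ := exists_nm (v := v) fun p : Fin (D.n i.1 + 1) => u (.inr ⟨i.1, p⟩)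
  have hb : u (.inr ⟨i.1, p0⟩) ≠ 0 := fun h => by
    have := le_nm (v := v) (fun p : Fin (D.n i.1 + 1) => u (.inr ⟨i.1, p⟩)) 0
    rw [hp0] at this
    simp [h, h0] at this
  let ρ : D.Sl → L := fun σ =>
    if σ = some l.1 then π⁻¹ else if σ = some i.1 then (u (.inr ⟨i.1, p0⟩))⁻¹ else 1
  have hρ : ∀ σ, ρ σ ≠ 0 := fun σ => by
    simp only [ρ]
    split_ifs
    · exact inv_ne_zero hπ
    · exact inv_ne_zero hb
    · exact one_ne_zero
  have hρl : ρ (some l.1) = π⁻¹ := by simp [ρ]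
  have hρi : ρ (some i.1) = (u (.inr ⟨i.1, p0⟩))⁻¹ := by simp [ρ, hli.symm]
  have hρs : ∀ s, s ≠ l.1 → s ≠ i.1 → ρ (some s) = 1 := fun s a b => by simp [ρ, a, b]
  have hA : ∀ a : D.Hx, a.1 ≠ i.1 → ρ (some a.1) * u (.inr a) = u (.inr a) / π ^ ww l a := by
    intro a ha
    by_cases h : a.1 = l.1
    · rw [h, hρl]
      simp [ww, h, div_eq_inv_mul]
    · rw [hρs _ h ha]
      simp [ww, h]
  have hI : ∀ a ∈ off (D := D) none, v (sc ρ u a) ≤ 1 := by
    rintro (j | ⟨s, p⟩) ha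
    · exact absurd rfl (Finset.mem_filter.1 ha).2
    · rw [T.sc.sc_inr]
      by_cases h : s = i.1
      · subst h
        rw [hρi, map_mul, map_inv₀, inv_mul_le_one₀ (zero_lt_iff.2 ((map_ne_zero v).2 hb)), ← hp0]
        exact le_nm (v := v) (fun p : Fin (D.n i.1 + 1) => u (.inr ⟨i.1, p⟩)) p
      · rw [hA ⟨s, p⟩ h]
        exact h1 _ h
  obtain ⟨ρ', hρ', hag, hle, q, hq⟩ := T.nrm.slot v none u ρ hnz hρ hI
  have hs : ∀ s, ρ' (some s) = ρ (some s) := fun s => hag _ (by simp [ts])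
  have hN : Nm v (sc ρ' u) := by
    refine ⟨hle, ?_⟩
    rintro (_ | s)
    · exact ⟨_, rfl, hq⟩
    · by_cases h : s = l.1
      · obtain ⟨a, ha, ha'⟩ := h3
        refine ⟨.inr a, by simp [sl, ha, h], ?_⟩
        rw [T.sc.sc_inr, hs, ha, hρl, ← ha', div_eq_inv_mul]
      · by_cases h' : s = i.1
        · refine ⟨.inr ⟨i.1, p0⟩, by simp [sl, h'], ?_⟩
          rw [T.sc.sc_inr, hs, hρi, inv_mul_cancel₀ hb]
        · refine ⟨.inr ⟨s, 0⟩, by simp [sl], ?_⟩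
          rw [T.sc.sc_inr, hs, hρs s h h', h0, one_mul]
  have hB : Big none v u e := by
    obtain ⟨a, ha, ha'⟩ := h4
    refine ⟨ρ', hρ', hN, a, fun k => ?_, ha'⟩
    have hk : a k ≠ 0 := fun h => by
      have := ha' (X k) (X_ne_zero k)
      simp [h] at this
    obtain ⟨b, hb1, hb2⟩ := h5 _ (ha k) hk
    refine ⟨.inr b, Finset.mem_coe.2 (Finset.mem_filter.2 ⟨Finset.mem_univ _, by simp [sl, ts]⟩), ?_⟩
    rw [T.sc.sc_inr, hs, hA b hb1, hb2]
  have hnu : ∀ s, nu v u (some s) = -log (v (ρ (some s))) := fun s => by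
    have a1 := T.nrm.nu_sc v ρ' u hnz hρ' (some s)
    rw [T.nrm.nu_nw v _ (T.nrm.nw hN), hs] at a1
    omega
  have n1 : nu v u (some l.1) = log (v π) := by rw [hnu, hρl, map_inv₀, log_inv, neg_neg]
  have n2 : ∀ s, s ≠ l.1 → s ≠ i.1 → nu v u (some s) = 0 := fun s a b => by
    rw [hnu, hρs s a b, map_one, log_one, neg_zero]
  refine ⟨n1, n2, ?_⟩
  rw [(hSIGV D F hG i L v hv u u' lam hS (T.nrm.big_mono _ _ _ _ he hB)).2, Fintype.sum_option,
    Fintype.sum_eq_add l.1 i.1 hli fun s h => by rw [n2 s h.1 h.2, mul_zero], n1]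
  have w1 : wS i (some l.1) = 2 * (D.m : ℤ) - 1 := by
    have := l.2
    simp only [wS, wc, Option.elim, scol, if_true, Pi.add_apply, hli, if_false, d_I0,
      Pi.single_eq_of_ne hli]
    omega
  have w2 : wS i (some i.1) = 0 := by simp [wS, wc, scol]
  have w3 : wS i none = 0 := rfl
  rw [w1, w2, w3]
  ring

end PAIR

open PAIR in
theorem st_PAIR (T : Tools) (hTD : St_TD) (hWGC : St_WGC) (hHCG : St_HCG) (hCRV : St_CRV)
    (hSIG2 : St_SIG2) (hSIGV : St_SIGV) (hSMOV : St_SMOV) : St_PAIR := by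
  intro D F hG K _ _ M l i x hx
  classical
  have hli := ne_li l i
  obtain ⟨u', lam, φ, μ, e, hS, hμ, hu', -⟩ := hSMOV D F hG K M i
  obtain ⟨hrk, hacl, -⟩ := hTD D F hG K M
  obtain ⟨-, -, hN1⟩ := T.ch.cfg hG.hom M
  let y : D.Hx → K := fun a => if a.1 = i.1 then 0 else M.x a
  have hy : ∀ a : D.Hx, a.1 ≠ i.1 → y a = M.x a := fun a h => if_neg h
  have hy0 : y ⟨l.1, 0⟩ = 1 := by rw [hy _ hli, M.one]
  have hsub : range M.x ⊆ acl (range y) := by
    rintro _ ⟨a, rfl⟩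
    by_cases h : a.1 = i.1
    · obtain ⟨b, hb, hb1⟩ := hN1 (some i.1)
      obtain ⟨r, rfl⟩ := T.sl.cw_surj i b hb
      obtain ⟨q, hq⟩ := T.sl.cw_surj i (.inr a) (by simp [sl, h])
      have := ((hSIG2 D F hG.hom i K _ _ _ hS).2.2.1 ⟨r, hb1⟩).2 q
      rw [← hq] at this
      refine G3.acl_mono ?_ this
      rintro _ ⟨b | b, hb, rfl⟩
      · exact absurd rfl hb.1
      · exact ⟨b, hy b fun h => hb.2 (by simp [sl, h])⟩
    · exact G3.subset_acl _ ⟨a, hy a h⟩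
  have hdm : D.dm ≤ rk (range y) := hrk ▸ T.rk.le (finite_range _) hsub
  have hlt : rk (insert (y ⟨l.1, 0⟩) (y '' {a | ww l a = 0})) < rk (range y) := by
    have a1 := T.sl.fr_bs l i M.u hN1
    have a2 := T.rk.le_fr M.u (bs l i)
    have a3 := D.two_le_m
    have a4 : rk (insert (y ⟨l.1, 0⟩) (y '' {a | ww l a = 0})) ≤ rk (M.u '' bs l i) := by
      refine T.rk.le ((bs l i).finite_toSet.image _) ?_
      rintro _ (rfl | ⟨a, ha, rfl⟩)
      · rw [hy0]
        exact one_mem _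
      · by_cases h : a.1 = i.1
        · simp only [y, if_pos h]
          exact zero_mem _
        · have h' : a.1 ≠ l.1 := fun h' => by simp [ww, h'] at ha
          exact G3.subset_acl _ ⟨.inr a, Finset.mem_coe.2 (Finset.mem_filter.2
            ⟨Finset.mem_univ _, by simp [sl, h, h']⟩), (hy a h).symm⟩
    omega
  obtain ⟨L, _, _, j, C, π, hpos, hP⟩ := hWGC K D.Hx y (ww l) ⟨l.1, 0⟩
    (Finset.univ.image (D.rat M.x 0)) (by simp [ww]) (by rw [hy0]; exact one_ne_zero) hlt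
    (by rw [Finset.coe_image, Finset.coe_univ, image_univ]; exact T.ch.top M 0)
    (fun z => G3.acl_le hsub (hacl z))
  have hS' := (T.mp.map F j M.u).2.2.2.2.2.2.1 i u' lam hS
  have key := fun P => plc T hSIGV hG l i (C.v P) (C.cst P) (j ∘ M.u) (j ∘ u') (j lam) (π P) hS'
    (hP P).1 (fun s => by
      show j (M.x _) = 1
      rw [M.one, map_one])
    (fun a h => by
      have := (hP P).2.1 a
      rwa [hy a h] at this)
    (by
      obtain ⟨a, ha, ha'⟩ := (hP P).2.2.2.1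
      have h : a.1 = l.1 := by
        by_contra h
        simp [ww, h] at ha
      refine ⟨a, h, ?_⟩
      rw [hy0, hy a (h ▸ hli), map_one, one_pow] at ha'
      show j (M.x a) / π P = 1
      simpa [ww, h] using ha') _ _ (hP P).2.2.2.2
    (by
      rintro _ ⟨a, rfl⟩ h
      have h' : a.1 ≠ i.1 := fun h' => h (by simp [y, h'])
      exact ⟨a, h', by simp only [hy a h']; rfl⟩) (by omega)
  have hnu : ∀ P (u : D.Vr → L) s, nu (C.v P) u (some s) =
      log (nm (C.v P) fun p => u (.inr ⟨s, p⟩)) := fun P u s => by rw [Dat.nu, T.nrm.nu_some]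
  have d1 : (C.deg fun p => j (M.x ⟨l.1, p⟩)) = ∑ᶠ P, log (C.v P (π P)) :=
    finsum_congr fun P => (hnu P _ _).symm.trans (key P).1
  have d2 : ∀ s, s ≠ l.1 → s ≠ i.1 → (C.deg fun p => j (M.x ⟨s, p⟩)) = 0 := fun s a b =>
    finsum_eq_zero_of_forall_eq_zero fun P => (hnu P _ _).symm.trans ((key P).2.1 s a b)
  have d3 : ∀ s, (C.deg fun p => (j.comp φ.toAlgHom) (M.x ⟨s, p⟩)) =
      C.deg fun p => j (u' (.inr ⟨s, p⟩)) := fun s => by
    rw [← ((hCRV L C).1 _ _).2 (j (μ s)) ((map_ne_zero j).2 (hμ s))]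
    congr 1
    funext p
    simp [hu']
  have d4 : ∀ s, s ≠ i.1 → (C.deg fun p => j (u' (.inr ⟨s, p⟩))) =
      C.deg fun p => j (M.x ⟨s, p⟩) := fun s h => by
    congr 1
    funext p
    rw [hS.eq _ (by simp [sl, h])]
    rfl
  have d5 := (hCRV L C).2 Bool (fun _ => Fin (D.n i.1 + 1)) (fun _ => 1)
    (fun b p => j (cond b M.u u' (.inr ⟨i.1, p⟩))) (j lam)⁻¹
    (fun P => (2 * (D.m : ℤ) - 1) * log (C.v P (π P))) fun P => by
      have := (key P).2.2
      rw [hnu, hnu] at this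
      rw [← this, map_inv₀, log_inv]
      simp only [Fintype.sum_bool, one_mul, cond_true, cond_false, Function.comp_apply]
      ring
  rw [← mul_finsum] at d5
  simp only [Fintype.sum_bool, one_mul, cond_true, cond_false] at d5
  have e1 := hHCG D F hG.hom K M L C j x hx
  have e2 := hHCG D F hG.hom K M L C (j.comp φ.toAlgHom) x hx
  rw [Fintype.sum_eq_add l.1 i.1 hli fun s h => by rw [d2 s h.1 h.2]; simp, d1] at e1
  rw [Fintype.sum_eq_add l.1 i.1 hli fun s h => by rw [d3, d4 s h.2, d2 s h.1 h.2]; simp, d3, d3,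
    d4 _ hli, d1] at e2
  have d6 : ((C.deg fun p => j (M.x ⟨i.1, p⟩) : ℤ) : ℝ) +
      (C.deg fun p => j (u' (.inr ⟨i.1, p⟩)) : ℤ) =
        (2 * (D.m : ℝ) - 1) * (∑ᶠ P, log (C.v P (π P)) : ℤ) := by exact_mod_cast d5
  have hp : (0 : ℝ) < (∑ᶠ P, log (C.v P (π P)) : ℤ) := by exact_mod_cast hpos
  refine nonneg_of_mul_nonneg_left (le_of_le_of_eq (add_nonneg e1 e2) ?_) hp
  linear_combination x i.1 * d6

end Pool.Agent.Lib.CI
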