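import Pool.Agent.Lib.CI.BlueB
import Pool.Agent.Lib.MV.F_DIM
import Pool.Agent.Lib.MV.F_PRM

open MvPolynomial Set Matrix WithZero Pool.Agent.Lib.MP_e39d36_ag Pool.Agent.Lib.MP_e39d36_ag.Var
  Pool.Agent.Lib.MP_cc3443_ag Pool.Agent.Lib.MV Pool.Agent.Lib.MV.End Pool.Agent.Lib.MV.Fb
  Pool.Agent.Lib.DU

set_option linter.unusedSectionVars false
set_option linter.unusedVariables false

noncomputable section

namespace Pool.Agent.Lib.CI

open Pool.Agent.Lib.CI.Dat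
open Pool.Agent.Lib.MV.G3 (acl Ov)

namespace PDB

lemma un_val {K : Type} [Field K] {v : Valuation K ℤᵐ⁰} {R : Subring K} (h : IsV v R) {a : K} :
    Un R a ↔ v a = 1 := by
  refine ⟨fun k => le_antisymm ((h.2 _).1 k.2.1) ?_, fun k => ⟨fun e => ?_, (h.2 _).2 k.le,
    (h.2 _).2 (by rw [map_inv₀, k, inv_one])⟩⟩
  · have h1 := (h.2 _).1 k.2.2
    rwa [map_inv₀, inv_le_one₀ (zero_lt_iff.2 (v.ne_zero_iff.2 k.1))] at h1
  · rw [e, map_zero] at k
    exact zero_ne_one k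

variable {D : Dat} {F : D.Fm} {K : Type} [Field K] [Algebra ℂ K] (M : Mod F K)

lemma off_inr {a : D.Vr} (h : a ∈ off (D := D) none) : ∃ b, a = .inr b := by
  rcases a with j | b
  · exact absurd rfl (Finset.mem_filter.1 h).2
  · exact ⟨b, rfl⟩

lemma img (T : Tools) (ρ : D.Sl → K) (τ : D.Ch) (h : ∀ s, sc ρ M.u (.inr ⟨s, τ s⟩) = 1) :
    sc ρ M.u '' off (D := D) none = range (D.rat M.x τ) := by
  have e : ∀ b, sc ρ M.u (.inr b) = D.rat M.x τ b := fun b => by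
    have h1 := h b.1
    rw [T.sc.sc_inr] at h1 ⊢
    rw [eq_inv_of_mul_eq_one_left h1, mul_comm, ← div_eq_mul_inv]
    rfl
  ext z
  refine ⟨?_, ?_⟩
  · rintro ⟨a, ha, rfl⟩
    obtain ⟨b, rfl⟩ := off_inr ha
    exact ⟨b, (e b).symm⟩
  · rintro ⟨b, rfl⟩
    exact ⟨.inr b, Finset.mem_filter.2 ⟨Finset.mem_univ _, Option.some_ne_none _⟩, e b⟩

lemma rat_mem (τ : D.Ch) (a : D.Hx) : D.rat M.x τ a ∈ (D.B M.x τ).toSubring :=
  Algebra.subset_adjoin ⟨a, rfl⟩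

end PDB

open PDB in
theorem st_PD (T : Tools) (hTD : St_TD) (hRESG : St_RESG) : St_PD := by
  intro D F hF K _ _ M
  obtain ⟨t1, -, -, -, t5⟩ := hTD D F hF K M
  refine ⟨fun E => ?_, fun v hs hv hb => ?_⟩
  · have hv : Cv (val E) := fun c => ((isV E).2 _).1 (M.X.const_mem _ c)
    refine ⟨hv, ?_⟩
    obtain ⟨n, h1, h2⟩ := Fb.st_dim K M.X
    have hn : D.dm ≤ n + 1 := by
      by_contra k
      obtain ⟨a, -, ha⟩ := (T.rk.le_iff (e := n + 2) (finite_range M.x)).1 (by omega)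
      exact h2 ⟨a, fun _ => trivial, fun P hP =>
        ⟨fun e => hP (algebraicIndependent_iff.1 ha P e), trivial, trivial⟩⟩
    obtain ⟨τ, hτ⟩ := M.hyp.2.1 E.1
    obtain ⟨κ, _, _, ⟨R⟩⟩ := T.red.ex hv
    have hr : ∀ z ∈ range (D.rat M.x τ), val E z ≤ 1 := by
      rintro _ ⟨a, rfl⟩
      exact ((isV E).2 _).1 (hτ.1 (rat_mem M τ a))
    have hI : IndV (val E) (range (D.rat M.x τ)) (D.dm - 1) := by
      obtain ⟨a, a1, a2⟩ := h1 E
      have b1 := (T.red.ind R (e := n) (finite_range a) (by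
        rintro _ ⟨i, rfl⟩
        exact ((isV E).2 _).1 (a1 i))).1
          ⟨a, fun i => ⟨i, rfl⟩, fun P hP => (un_val (isV E)).1 (a2 P hP)⟩
      have b2 : rk (R.r '' range a) ≤ rk (range (R.r ∘ D.rat M.x τ)) :=
        T.rk.le (finite_range _) fun z _ => T.rk.adj _ (by
          rw [hRESG D F K M E.1 (val E) (isV E).2 κ R τ hτ.1]
          trivial)
      rw [range_comp] at b2
      exact (T.red.ind R (finite_range _) hr).2 (by omega)
    let ρ : D.Sl → K := fun σ => σ.elim 1 fun s => (M.x ⟨s, τ s⟩)⁻¹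
    have hρ : ∀ σ, ρ σ ≠ 0 := by
      rintro (_ | s)
      · exact one_ne_zero
      · exact inv_ne_zero (T.ch.ne M _)
    have e : ∀ ρ' : D.Sl → K, (∀ s, ρ' (some s) = ρ (some s)) →
        ∀ s, sc ρ' M.u (.inr ⟨s, τ s⟩) = 1 := fun ρ' h s => by
      rw [T.sc.sc_inr, h]
      exact inv_mul_cancel₀ (T.ch.ne M _)
    obtain ⟨ρ', r1, r2, r3, p, r4⟩ := T.nrm.slot (val E) none M.u ρ (T.ch.cfg hF.hom M).2.1.1 hρ
      fun a ha => hr _ (img M T ρ τ (e ρ fun _ => rfl) ▸ mem_image_of_mem _ ha)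
    have e' := e ρ' fun s => r2 _ (Option.some_ne_none _)
    refine ⟨ρ', r1, ⟨r3, ?_⟩, img M T ρ' τ e' ▸ hI⟩
    rintro (_ | s)
    · exact ⟨_, rfl, r4⟩
    · exact ⟨_, rfl, e' s⟩
  · obtain ⟨ρ, r1, ⟨r2, r3⟩, hI⟩ := hb
    have h1 : ∀ s, ∃ p, sc ρ M.u (.inr ⟨s, p⟩) = 1 := fun s => by
      obtain ⟨_ | ⟨s', p⟩, a1, a2⟩ := r3 (some s)
      · exact absurd a1.symm (Option.some_ne_none _)
      · obtain rfl : s' = s := Option.some.inj a1
        exact ⟨p, a2⟩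
    choose τ hτ using h1
    have hi := img M T ρ τ hτ
    rw [hi] at hI
    have hV : IsV v v.valuationSubring.toSubring := ⟨hs, fun _ => Iff.rfl⟩
    obtain ⟨κ, _, _, ⟨R⟩⟩ := T.red.ex hv
    have hB : (D.B M.x τ).toSubring ≤ v.valuationSubring.toSubring := fun z hz => by
      obtain ⟨P, rfl⟩ := (T.ch.mem_iff M.x τ z).1 hz
      refine (hV.2 _).2 (T.red.aev R _ (fun a => ?_) P).1
      obtain ⟨b, -, hb⟩ : D.rat M.x τ a ∈ sc ρ M.u '' off (D := D) none := hi ▸ ⟨a, rfl⟩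
      exact hb ▸ r2 b
    obtain ⟨y, y1, y2⟩ := T.ch.ctr M τ _ (isLoc_of_val hV.val) hB
    obtain ⟨a, a1, a2⟩ := hI
    have h3 := (T.sl.dm_add D).2.1
    obtain ⟨E, hE⟩ := Fb.st_prm K M.X (D.dm - 1)
      (by rwa [show D.dm - 1 + 2 = D.dm + 1 by omega]) v _ y hV y1
      ⟨a, fun i => by
        obtain ⟨b, hb⟩ := a1 i
        exact hb ▸ y2.1 (rat_mem M τ b), fun P hP => (un_val hV).2 (a2 P hP)⟩
    exact ⟨E, (isV E).unique (hE ▸ hV)⟩

end Pool.Agent.Lib.CI
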