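import Pool.Agent.Lib.CI.BlueB

open MvPolynomial Set Matrix WithZero Pool.Agent.Lib.MP_e39d36_ag Pool.Agent.Lib.MP_e39d36_ag.Var
  Pool.Agent.Lib.MP_cc3443_ag Pool.Agent.Lib.MV Pool.Agent.Lib.MV.End Pool.Agent.Lib.MV.Fb
  Pool.Agent.Lib.DU

set_option linter.unusedSectionVars false
set_option linter.unusedVariables false

noncomputable section

namespace Pool.Agent.Lib.CI

open Pool.Agent.Lib.CI.Dat
open Pool.Agent.Lib.MV.G3 (acl Ov)

theorem st_PERM (T : Tools) (hP : St_PD) : St_PERM := by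
  intro D F hG K _ _ M φ h
  have hN : NZ M.u := (T.ch.cfg hG.hom M).2.1.1
  obtain ⟨p1, p2⟩ := hP D F hG K M
  have cv : ∀ (ψ : K ≃ₐ[ℂ] K) (E : M.X.PD), Cv ((val E).comap ψ.toAlgHom.toRingHom) := by
    intro ψ E c
    change val E (ψ (algebraMap ℂ K c)) ≤ 1
    rw [ψ.commutes]
    exact (p1 E).1 c
  have sj : ∀ (ψ : K ≃ₐ[ℂ] K) (E : M.X.PD),
      Function.Surjective ((val E).comap ψ.toAlgHom.toRingHom) :=
    fun ψ E => (isV E).1.comp ψ.surjective
  have k1 : ∀ E : M.X.PD, ∃ E' : M.X.PD, ∀ f, val E' f = val E (φ.symm f) := by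
    intro E
    have e : ((val E).comap φ.symm.toAlgHom.toRingHom).comap φ.toAlgHom.toRingHom = val E := by
      ext f
      change val E (φ.symm (φ f)) = val E f
      rw [φ.symm_apply_apply]
    have b := (T.nrm.big_map φ.toAlgHom (cv φ.symm E) none M.u (D.dm - 1) hN).2
      (by rw [e]; exact (p1 E).2)
    obtain ⟨E', hE'⟩ := p2 _ (sj φ.symm E) (cv φ.symm E) ((h _ (cv φ.symm E)).2 b)
    exact ⟨E', fun f => by rw [hE']; rfl⟩
  have k2 : ∀ E : M.X.PD, ∃ E' : M.X.PD, ∀ f, val E' f = val E (φ f) := by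
    intro E
    have b := (T.nrm.big_map φ.toAlgHom (p1 E).1 none M.u (D.dm - 1) hN).1
      ((h _ (p1 E).1).1 (p1 E).2)
    obtain ⟨E', hE'⟩ := p2 _ (sj φ E) (cv φ E) b
    exact ⟨E', fun f => by rw [hE']; rfl⟩
  choose e he using k1
  choose g hg using k2
  have l1 : Function.LeftInverse g e := fun E => pd_eq fun z hz => by
    rw [(isV _).2] at hz ⊢
    rwa [hg, he, φ.symm_apply_apply] at hz
  have l2 : Function.RightInverse g e := fun E => pd_eq fun z hz => by
    rw [(isV _).2] at hz ⊢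
    rwa [he, hg, φ.apply_symm_apply] at hz
  refine ⟨⟨e, g, l1, l2⟩, fun z hz => ?_, fun f E => (he E (φ f)).trans (by rw [φ.symm_apply_apply])⟩
  obtain ⟨c, rfl⟩ := IntermediateField.mem_bot.1 hz
  exact φ.commutes c

end Pool.Agent.Lib.CI
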