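import Pool.Agent.Lib.CI.PIA

open MvPolynomial Set Matrix WithZero Pool.Agent.Lib.MP_e39d36_ag Pool.Agent.Lib.MP_e39d36_ag.Var
  Pool.Agent.Lib.MP_cc3443_ag Pool.Agent.Lib.MV Pool.Agent.Lib.MV.End Pool.Agent.Lib.MV.Fb
  Pool.Agent.Lib.DU

set_option linter.unusedSectionVars false
set_option linter.unusedVariables false

noncomputable section

namespace Pool.Agent.Lib.CI

open Pool.Agent.Lib.CI.Dat

namespace PI

variable {D : Dat} {F : D.Fm} {Ω : Type} [Field Ω] [Algebra ℂ Ω]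

lemma hx (hF : D.Hom F) (j : Fin D.m) (s : Fin D.k) : H Sigma.fst s (F j) (D.d j s) := by
  intro μ hμ
  rw [← hF j μ hμ, Finsupp.weight_eq_sum, Fintype.sum_sigma, Finset.sum_eq_single s]
  · simp [wI, Dat.md]
  · intro t _ ht
    simp [wI, ht]
  · intro h
    exact absurd (Finset.mem_univ _) h

/-- The form in all variables. -/
abbrev R (F : D.Fm) (j : Fin D.m) : MvPolynomial D.Vr ℂ := rename .inr (F j)

lemma r_some (hF : D.Hom F) (j : Fin D.m) (s : Fin D.k) : H sl (some s) (R F j) (D.d j s) := by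
  refine rename_hom ?_
  have e : wI (sl (D := D)) (some s) ∘ Sum.inr = wI Sigma.fst s := by
    funext a
    simp [wI, sl]
  rw [e]
  exact hx hF j s

lemma r_none (P : MvPolynomial D.Hx ℂ) : H (sl (D := D)) none (rename .inr P) 0 := by
  refine rename_hom fun μ _ => ?_
  simp [Finsupp.weight_eq_sum, wI, sl]

lemma r_l (hF : D.Hom F) (j : Fin D.m) (l : D.I0) : H sl (some l.1) (R F j) (0 + 1) := by
  have := r_some hF j l.1
  rwa [d_I0] at this

lemma r_i (hF : D.Hom F) {j : Fin D.m} {i : D.I1} (h : j ≠ jj i) :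
    H sl (some i.1) (R F j) (0 + 1) := by
  have := r_some hF j i.1
  rwa [d_ne_jj i h] at this

lemma r_j (hF : D.Hom F) (i : D.I1) : H sl (some i.1) (R F (jj i)) (0 + 1 + 1) := by
  have := r_some hF (jj i) i.1
  rwa [d_jj] at this

lemma ff_ts (hF : D.Hom F) (τ : D.Ty) : H sl (ts τ) (FF F) (0 + 1) := by
  refine H.sum _ _ fun j _ => ?_
  cases τ with
  | none => exact H.x1 rfl (r_none _)
  | some l => exact H.x0 (by simp [sl, ts]) (r_l hF j l)

lemma d_inl_FF (F : D.Fm) (j : Fin D.m) : pderiv (.inl j) (FF F) = R F j := by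
  have h : ∀ j', pderiv (Sum.inl j : D.Vr) (R F j') = 0 := fun j' =>
    pderiv_eq_zero_of_notMem_vars fun h => (r_none _).nv h rfl
  rw [FF, map_sum, Finset.sum_eq_single j]
  · rw [pderiv_mul, pderiv_X_self, h, one_mul, mul_zero, add_zero]
  · intro j' _ hj
    rw [pd_X (by simpa using hj), h, mul_zero]
  · intro h
    exact absurd (Finset.mem_univ _) h

lemma d_inr_R (a : D.Hx) (P : MvPolynomial D.Hx ℂ) :
    pderiv (Sum.inr a : D.Vr) (rename .inr P) = rename .inr (pderiv a P) :=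
  pderiv_rename Sum.inr_injective a P

lemma d_inr_FF (F : D.Fm) (a : D.Hx) :
    pderiv (.inr a) (FF F) = FF (D := D) fun j => pderiv a (F j) := by
  rw [FF, FF, map_sum]
  exact Finset.sum_congr rfl fun j _ => by rw [pd_X (by simp), d_inr_R]

lemma aeval_FF (F : D.Fm) (u : D.Vr → Ω) :
    aeval u (FF F) = ∑ j, u (.inl j) * aeval (u ∘ .inr) (F j) := by
  rw [FF, map_sum]
  exact Finset.sum_congr rfl fun j _ => by rw [map_mul, aeval_X, aeval_rename]

lemma nx_app (F : D.Fm) (l : D.I0) (i : D.I1) (u : D.Vr → Ω) (p : Fin D.m) (q : Fin (D.m + 1)) :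
    Nx F l i u p q = ∑ j, (D.d j i.1 : ℂ)⁻¹ •
      (u (.inl j) * aeval u (pderiv (co (some l) p) (pderiv (cw i q) (R F j)))) := by
  rw [Nx, Matrix.of_apply, NP, map_sum]
  refine Finset.sum_congr rfl fun j _ => ?_
  rw [map_smul, pd_X (by simp [cw]), pd_X (by simp [co]), map_mul, aeval_X]

lemma d_co_FF (F : D.Fm) (l : D.I0) (u : D.Vr → Ω) (p : Fin D.m) :
    aeval u (pderiv (co (some l) p) (FF F)) =
      ∑ j, u (.inl j) * aeval u (pderiv (co (some l) p) (R F j)) := by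
  rw [FF, map_sum, map_sum]
  exact Finset.sum_congr rfl fun j _ => by rw [pd_X (by simp [co]), map_mul, aeval_X]

lemma inv_smul_mul {d : ℕ} (hd : 1 ≤ d) (x : Ω) : (d : ℂ)⁻¹ • ((d : Ω) * x) = x := by
  have h : (d : ℂ) ≠ 0 := by exact_mod_cast (by omega : d ≠ 0)
  rw [← nsmul_eq_mul, ← Nat.cast_smul_eq_nsmul ℂ, smul_smul, inv_mul_cancel₀ h, one_smul]

variable (h : St_SL)
include h

lemma eu_co {τ : D.Ty} {P : MvPolynomial D.Vr ℂ} {n : ℕ} (hP : H sl (ts τ) P n) (u : D.Vr → Ω) :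
    ∑ p, u (co τ p) * aeval u (pderiv (co τ p) P) = n * aeval u P :=
  hP.euler (h.co_inj τ) (h.sl_co τ) (h.co_surj τ) u

lemma eu_cw {i : D.I1} {P : MvPolynomial D.Vr ℂ} {n : ℕ} (hP : H sl (some i.1) P n)
    (u : D.Vr → Ω) : ∑ p, u (cw i p) * aeval u (pderiv (cw i p) P) = n * aeval u P :=
  hP.euler (h.cw_inj i) (h.sl_cw i) (h.cw_surj i) u

lemma eu_c3 (hm : D.m = 2) {i : D.I1} {P : MvPolynomial D.Vr ℂ} {n : ℕ}
    (hP : H sl (some i.1) P n) (u : D.Vr → Ω) :
    ∑ p, u (c3 hm i p) * aeval u (pderiv (c3 hm i p) P) = n * aeval u P :=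
  hP.euler ((h.cw_inj i).comp (Fin.cast_injective _)) (fun _ => h.sl_cw i _) (h.c3_surj hm i) u

lemma co_i (l : D.I0) (i : D.I1) (p : Fin D.m) : sl (co (some l) p) ≠ some i.1 := by
  rw [h.sl_co]
  exact h.ts_ne _ i

lemma cw_l (l : D.I0) (i : D.I1) (q : Fin (D.m + 1)) : sl (cw i q) ≠ some l.1 := by
  rw [h.sl_cw]
  exact (h.ts_ne (some l) i).symm

lemma nx_mul (hF : D.Hom F) (l : D.I0) (i : D.I1) (u : D.Vr → Ω) :
    Nx F l i u *ᵥ (u ∘ cw i) = fun p => aeval u (pderiv (co (some l) p) (FF F)) := by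
  funext p
  rw [d_co_FF, mulVec, dotProduct]
  simp only [nx_app, Finset.sum_mul, Function.comp]
  rw [Finset.sum_comm]
  refine Finset.sum_congr rfl fun j _ => ?_
  have h1 := eu_cw h ((r_some hF j i.1).d0 (co_i h l i p)) u
  rw [← inv_smul_mul (D.d_pos j i.1) (u _ * _), mul_left_comm, ← h1, Finset.mul_sum,
    Finset.smul_sum]
  refine Finset.sum_congr rfl fun q _ => ?_
  rw [pd_comm (cw i q), smul_mul_assoc]
  congr 1
  ring

lemma nx_agr2 (hF : D.Hom F) (l : D.I0) (i : D.I1) (u u' : D.Vr → Ω)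
    (h1 : ∀ a ∈ of2 l i, a ≠ .inl (jj i) → u' a = u a)
    (h2 : u (.inl (jj i)) = 0 ∨ ∀ q, u (cw i q) = 0)
    (h3 : u' (.inl (jj i)) = 0 ∨ ∀ q, u' (cw i q) = 0) : Nx F l i u' = Nx F l i u := by
  ext p q
  rw [nx_app, nx_app]
  refine Finset.sum_congr rfl fun j _ => ?_
  congr 1
  rcases eq_or_ne j (jj i) with rfl | hj
  · have h4 : ∀ v : D.Vr → Ω, (v (.inl (jj i)) = 0 ∨ ∀ q, v (cw i q) = 0) → v (.inl (jj i)) *
        aeval v (pderiv (co (some l) p) (pderiv (cw i q) (R F (jj i)))) = 0 := by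
      rintro v (h5 | h5)
      · rw [h5, zero_mul]
      · have h6 := eu_cw h (((r_j hF i).d1 (h.sl_cw i q)).d0 (co_i h l i p)) v
        simp only [h5, zero_mul, Finset.sum_const_zero, zero_add, Nat.cast_one, one_mul] at h6
        rw [← h6, mul_zero]
    rw [h4 u h2, h4 u' h3]
  · rw [h1 (.inl j) (by simp [of2, sl]) (by simpa using hj)]
    congr 1
    refine agr fun a ha => h1 a ?_ ?_
    · simp only [of2, Finset.mem_filter, Finset.mem_univ, true_and]
      exact ⟨(((r_l hF j l).d0 (cw_l h l i q)).d1 (h.sl_co (some l) p)).nv ha,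
        (((r_i hF hj).d1 (h.sl_cw i q)).d0 (co_i h l i p)).nv ha⟩
    · rintro rfl
      exact (((r_none (F j)).d0 (by simp [cw, sl])).d0 (by simp [co, sl])).nv ha rfl

lemma lm_agr (hF : D.Hom F) (i : D.I1) (u u' : D.Vr → Ω)
    (h1 : ∀ a, sl a ≠ none → sl a ≠ some i.1 → u' a = u a) :
    (∀ j, j ≠ jj i → Lm F i u' j = Lm F i u j) ∧ Hs F i u' = Hs F i u ∧ us F i u' = us F i u ∧
      Sx F i u' = Sx F i u := by
  have h0 : ∀ q, sl (cw i q) ≠ none := fun q => by simp [cw, sl]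
  have h2 : ∀ j, j ≠ jj i → Lm F i u' j = Lm F i u j := fun j hj => funext fun q =>
    agr fun a ha => h1 a (((r_none (F j)).d0 (h0 q)).nv ha) (((r_i hF hj).d1 (h.sl_cw i q)).nv ha)
  have h3 : Hs F i u' = Hs F i u := Matrix.ext fun q q' =>
    agr fun a ha => h1 a ((((r_none (F (jj i))).d0 (h0 q')).d0 (h0 q)).nv ha)
      ((((r_j hF i).d1 (h.sl_cw i q')).d1 (h.sl_cw i q)).nv ha)
  have h4 : us F i u' = us F i u := by
    funext p
    unfold us
    congr 1
    ext j q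
    rcases eq_or_ne j (jj i) with rfl | hj
    · rw [updateRow_self, updateRow_self]
    · rw [updateRow_ne hj, updateRow_ne hj, h2 j hj]
  refine ⟨h2, h3, h4, ?_⟩
  funext p p'
  rw [Sx, Sx, h3, h4]

lemma hs_mul (hF : D.Hom F) (i : D.I1) (u : D.Vr → Ω) : (Hs F i u)ᵀ = Hs F i u ∧
    (u ∘ cw i) ⬝ᵥ Hs F i u *ᵥ (u ∘ cw i) = 2 * aeval (u ∘ .inr) (F (jj i)) := by
  refine ⟨Matrix.ext fun q q' => congrArg (aeval u) (pd_comm _ _ _), ?_⟩
  have h1 := eu_cw h (r_j hF i) u
  rw [aeval_rename] at h1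
  refine Eq.trans ?_ (h1.trans (by norm_num))
  refine Finset.sum_congr rfl fun q _ => ?_
  have h2 := eu_cw h ((r_j hF i).d1 (h.sl_cw i q)) u
  rw [Nat.cast_one, one_mul] at h2
  rw [← h2, mulVec, dotProduct]
  congr 1
  refine Finset.sum_congr rfl fun q' _ => ?_
  rw [pd_comm (cw i q'), mul_comm]
  rfl

lemma ab_eq (hF : D.Hom F) (hm : D.m = 2) (l : D.I0) (i : D.I1) (u : D.Vr → Ω) (s : Fin 2)
    (j : Fin D.m) : Mx F (some l) none u (s.cast hm.symm) j = if j = jj i then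
      qd (BB F hm l i u s) (u ∘ c3 hm i) else AA F hm l i u s ⬝ᵥ (u ∘ c3 hm i) := by
  have h0 : Mx F (some l) none u (s.cast hm.symm) j =
      aeval u (pderiv (co (some l) (s.cast hm.symm)) (R F j)) := by
    rw [← d_inl_FF]
    rfl
  have h1 := co_i h l i (s.cast hm.symm)
  rw [h0]
  split_ifs with hj
  · subst hj
    have h2 := eu_c3 h hm ((r_j hF i).d0 h1) u
    rw [← inv_smul_mul (d := 0 + 1 + 1) (by norm_num) (aeval u _), ← h2, Finset.smul_sum]
    refine Finset.sum_congr rfl fun b _ => ?_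
    have h3 := eu_c3 h hm (((r_j hF i).d0 h1).d1 (a := c3 hm i b) (h.sl_cw i _)) u
    rw [Nat.cast_one, one_mul] at h3
    rw [← h3, Finset.mul_sum, Finset.smul_sum]
    refine Finset.sum_congr rfl fun e _ => ?_
    rw [BB, pd_comm (c3 hm i e), pd_comm (c3 hm i e), pd_comm (c3 hm i b), smul_mul_assoc,
      smul_mul_assoc]
    norm_num
    ring
  · have h2 : Finset.univ.erase (jj i) = {j} := by
      ext j'
      have h3 := j.isLt
      have h4 := j'.isLt
      have h5 := (jj i).isLt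
      simp only [Finset.mem_erase, Finset.mem_univ, and_true, Finset.mem_singleton, ne_eq,
        Fin.ext_iff] at hj ⊢
      omega
    have h3 := eu_c3 h hm ((r_i hF hj).d0 h1) u
    rw [zero_add, Nat.cast_one, one_mul] at h3
    rw [← h3]
    refine Finset.sum_congr rfl fun e _ => ?_
    rw [AA, h2, Finset.sum_singleton, pd_comm (c3 hm i e), mul_comm]
    rfl

lemma ab_agr (hF : D.Hom F) (hm : D.m = 2) (l : D.I0) (i : D.I1) (u u' : D.Vr → Ω)
    (h1 : ∀ a ∈ bs l i, u' a = u a) :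
    AA F hm l i u' = AA F hm l i u ∧ BB F hm l i u' = BB F hm l i u := by
  have h0 : ∀ e, sl (c3 hm i e) ≠ none := fun q => by simp [c3, cw, sl]
  have h2 : ∀ p, sl (co (some l) p) ≠ none := fun q => by simp [co, sl]
  have h3 : ∀ e, sl (c3 hm i e) = some i.1 := fun e => h.sl_cw i _
  have h4 : ∀ e, sl (c3 hm i e) ≠ some l.1 := fun e => cw_l h l i _
  constructor
  · funext s e
    refine agr fun a ha => h1 a ?_
    simp only [bs, Finset.mem_filter, Finset.mem_univ, true_and]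
    refine ⟨(((r_none _).d0 (h0 e)).d0 (h2 _)).nv ha, ?_, ?_⟩
    · rw [map_sum] at ha
      exact (((H.sum _ _ fun j _ => r_l hF j l).d0 (h4 e)).d1 (h.sl_co (some l) _)).nv ha
    · rw [map_sum] at ha
      exact (((H.sum _ _ fun j hj => r_i hF (Finset.ne_of_mem_erase hj)).d1 (h3 e)).d0
        (co_i h l i _)).nv ha
  · funext s e e'
    unfold BB
    congr 1
    refine agr fun a ha => h1 a ?_
    simp only [bs, Finset.mem_filter, Finset.mem_univ, true_and]
    exact ⟨((((r_none _).d0 (h0 e')).d0 (h0 e)).d0 (h2 _)).nv ha,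
      ((((r_l hF _ l).d0 (h4 e')).d0 (h4 e)).d1 (h.sl_co (some l) _)).nv ha,
      ((((r_j hF i).d1 (h3 e')).d1 (h3 e)).d0 (co_i h l i _)).nv ha⟩

end PI

open PI in
theorem st_PI (h : St_SL) : St_PI where
  scal hF _ _ _ y μ j := PI.scal (hx hF j) y μ
  scald := fun {D F} hF Ω _ _ y μ j b => by
    have h1 : ∀ s, D.d j s - wI Sigma.fst s b + wI Sigma.fst s b = D.d j s := fun s =>
      Nat.sub_add_cancel (le_trans (by unfold wI; split_ifs <;> omega) (D.d_pos j s))
    have h2 : ∏ s, μ s ^ wI Sigma.fst s b = μ b.1 := by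
      rw [Finset.prod_eq_single b.1]
      · simp [wI]
      · intro t _ ht
        simp [wI, ht.symm]
      · intro h
        exact absurd (Finset.mem_univ _) h
    rw [PI.scal (f := Sigma.fst) (fun s => IsWeightedHomogeneous.pderiv (hx hF j s) (h1 s)) y μ,
      ← h2, mul_right_comm, ← Finset.prod_mul_distrib]
    simp only [← pow_add, h1]
  euler hF _ _ _ y j s := (hx hF j s).euler sigma_mk_injective (fun _ => rfl)
    (by rintro ⟨t, p⟩ rfl; exact ⟨p, rfl⟩) y
  d_inl F _ _ _ u j := by rw [d_inl_FF, aeval_rename]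
  d_inr F _ _ _ u a := by rw [d_inr_FF, aeval_FF]
  d_inl2 F _ _ _ u j a := ⟨by rw [d_inr_FF, d_inl_FF, aeval_rename],
    by rw [d_inl_FF, d_inr_R, aeval_rename]⟩
  d_inr2 F _ _ _ u a b := by rw [d_inr_FF, d_inr_FF, aeval_FF]
  eqs_agr hF _ _ _ τ u u' h1 p := agr fun a ha => h1 a (((ff_ts hF τ).d1 (h.sl_co τ p)).nv ha)
  mx_mul hF _ _ _ τ τ' u h1 := by
    funext p
    have h2 := eu_co h ((ff_ts hF τ').d0 (a := co τ p)
      (by rw [h.sl_co]; exact fun e => h1 (h.ts_inj e))) u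
    rw [zero_add, Nat.cast_one, one_mul] at h2
    rw [← h2, mulVec, dotProduct]
    refine Finset.sum_congr rfl fun q _ => ?_
    rw [pd_comm (co τ' q), mul_comm]
    rfl
  mx_t F _ _ _ τ τ' u := Matrix.ext fun p q => congrArg (aeval u) (pd_comm _ _ _)
  mx_agr hF _ _ _ τ τ' u u' h1 h2 := Matrix.ext fun p q => agr fun a ha => h2 a
    ((((ff_ts hF τ).d0 (by rw [h.sl_co]; exact fun e => h1 (h.ts_inj e).symm)).d1
      (h.sl_co τ p)).nv ha)
    ((((ff_ts hF τ').d1 (h.sl_co τ' q)).d0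
      (by rw [h.sl_co]; exact fun e => h1 (h.ts_inj e))).nv ha)
  nx_eq F _ _ _ l i u p q := by
    rw [nx_app]
    refine Finset.sum_congr rfl fun j _ => ?_
    rw [co, cw, d_inr_R, d_inr_R, aeval_rename]
  nx_mul hF _ _ _ l i u := PI.nx_mul h hF l i u
  nx_agr hF _ _ _ l i u u' h1 := by
    ext p q
    rw [nx_app, nx_app]
    refine Finset.sum_congr rfl fun j _ => ?_
    rw [h1 (.inl j) (by simp [sl]), agr fun a ha =>
      h1 a ((((r_l hF j l).d0 (cw_l h l i q)).d1 (h.sl_co (some l) p)).nv ha)]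
  nx_agr2 hF _ _ _ l i u u' := PI.nx_agr2 h hF l i u u'
  lm_mul hF _ _ _ i u j := by
    have h1 := eu_cw h (r_some hF j i.1) u
    rw [aeval_rename] at h1
    rw [← h1]
    exact Finset.sum_congr rfl fun q _ => mul_comm _ _
  lm_agr hF _ _ _ i u u' := PI.lm_agr h hF i u u'
  hs_mul hF _ _ _ i u := PI.hs_mul h hF i u
  ab_eq hF _ _ _ hm l i u s j := PI.ab_eq h hF hm l i u s j
  ab_agr hF _ _ _ hm l i u u' := PI.ab_agr h hF hm l i u u'
  mem k A u P h1 h2 := by
    classical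
    rw [← h2 (fun a => if a ∈ A then u a else 0) fun a ha => if_pos ha]
    refine PI.mem k _ (fun a => ?_) P
    split_ifs with ha
    · exact h1 a ha
    · exact k.zero_mem

end Pool.Agent.Lib.CI
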