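import Pool.Agent.Lib.CI.BlueB

open MvPolynomial Set Matrix WithZero Pool.Agent.Lib.MP_e39d36_ag Pool.Agent.Lib.MP_e39d36_ag.Var
  Pool.Agent.Lib.MP_cc3443_ag Pool.Agent.Lib.MV Pool.Agent.Lib.MV.End Pool.Agent.Lib.MV.Fb
  Pool.Agent.Lib.DU

set_option linter.unusedSectionVars false
set_option linter.unusedVariables false

noncomputable section

namespace Pool.Agent.Lib.CI

open Pool.Agent.Lib.CI.Dat
open Pool.Agent.Lib.MV.G3 (acl Ov)

namespace PLC16

variable {D : Dat}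

theorem prod_zp {L ι : Type} [Field L] {π : L} (h : π ≠ 0) (S : Finset ι) (c : ι → ℤ) :
    ∏ i ∈ S, π ^ c i = π ^ ∑ i ∈ S, c i := by
  classical
  induction S using Finset.induction_on with
  | empty => simp
  | insert a S ha ih => rw [Finset.prod_insert ha, Finset.sum_insert ha, ih, zpow_add₀ h]

theorem chi_zp {L : Type} [Field L] {π : L} (h : π ≠ 0) (c w : D.Sl → ℤ) :
    ∏ σ, (π ^ (-c σ)) ^ w σ = (π ^ ∑ σ, c σ * w σ)⁻¹ := by
  simp only [← _root_.zpow_mul]
  rw [prod_zp h, ← _root_.zpow_neg, ← Finset.sum_neg_distrib]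
  simp only [neg_mul]

theorem div_zp {L : Type} [Field L] (π x : L) {n : ℤ} (h : 0 ≤ n) :
    x * (π ^ n)⁻¹ = x / π ^ n.toNat := by
  rw [div_eq_mul_inv, ← zpow_natCast, Int.toNat_of_nonneg h]

theorem zeta_eq (l : D.I0) (s : Fin D.k) : zeta l s = gam none (some l) (some s) := by
  have h1 : (∑ j, aa j : D.Λ) s = if D.n s + 1 = D.m then 0 else (D.n s : ℤ) + 1 := by
    rw [Finset.sum_apply]
    simp only [aa, aW]
    split_ifs
    · simp
    · exact_mod_cast D.cy s
  simp only [zeta, Pi.sub_apply, Pi.add_apply, h1, Pi.smul_apply, hs, gam, ts, Option.map_some,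
    Option.map_none, Option.elim_some, smul_eq_mul]
  by_cases h : s = l.1
  · subst h; simp [l.2]
  · by_cases h' : D.n s + 1 = D.m <;> simp [h, h']

theorem sum_gam (l : D.I0) (f : D.Λ) :
    ∑ σ, gam none (some l) σ * wc (f ⬝ᵥ zeta l) f σ = 0 := by
  rw [Fintype.sum_option]
  simp only [← zeta_eq, wc, Option.elim_some, Option.elim_none]
  simp [gam, ts, dotProduct, mul_comm]

theorem sum_inl (l : D.I0) (f : D.Λ) (j : Fin D.m) :
    ∑ σ, wc (f ⬝ᵥ zeta l) f σ * wt (.inl j) σ = f ⬝ᵥ Lam l j := by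
  rw [Fintype.sum_option, Lam, dotProduct_sub]
  simp [wc, Dat.wt, dotProduct, aa, sub_eq_add_neg]

theorem sum_inr (c : ℤ) (f : D.Λ) (a : D.Hx) : ∑ σ, wc c f σ * wt (.inr a) σ = f a.1 := by
  simp [Dat.wt, wc]

theorem sum_wT (l : D.I0) (i : D.I1) (f : D.Λ) :
    ∑ σ, wc (f ⬝ᵥ zeta l) f σ * wT l i σ = f ⬝ᵥ tcl l i := by
  rw [Fintype.sum_option]
  have h : ∑ s, wc (f ⬝ᵥ zeta l) f (some s) * wT l i (some s) =
    f ⬝ᵥ ((D.m : ℤ) • hs {l.1} - ((D.m : ℤ) + 1) • Pi.single i.1 1) := rfl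
  rw [h, tcl, smul_add, dotProduct_sub, dotProduct_sub, dotProduct_add, dotProduct_smul (D.m : ℤ) f
    (zeta l)]
  simp only [wc, wT, Option.elim_none, smul_eq_mul]
  ring

theorem xp_mem {κ : Type} [Field κ] [Algebra ℂ κ] (k : IntermediateField ℂ κ) {m : ℕ}
    (A : Matrix (Fin m) (Fin (m + 1)) κ) (h : ∀ p q, A p q ∈ k) (q : Fin (m + 1)) : xp A q ∈ k := by
  rw [xp, det_apply']
  exact mul_mem (pow_mem (neg_mem (one_mem k)) _)
    (sum_mem fun σ _ => mul_mem (intCast_mem k _) (prod_mem fun i _ => h _ _))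

theorem mem_off {τ : D.Ty} {a : D.Vr} : a ∈ off τ ↔ sl a ≠ ts τ := by simp [off]

end PLC16

open PLC16 in
theorem st_PLC (T : Tools) (hBAD : St_BAD) (hF2 : St_F2) (hFL1 : St_FL1) : St_PLC := by
  intro D F hG l o f hV L _ _ v hv u lam π t hπ hD hT hz ht0 hb hun hI
  classical
  have hne : (none : D.Ty) ≠ some l := by simp
  set c : D.Sl → ℤ := wc (f ⬝ᵥ zeta l) f with hc
  set ρ : D.Sl → L := fun σ => π ^ (-c σ) with hρ
  have hρ0 : ∀ σ, ρ σ ≠ 0 := fun σ => zpow_ne_zero _ hπ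
  set y : D.Vr ⊕ D.I1 → L := fun a => gU l u t a / π ^ gW l f a with hy
  have hgU : ∀ a, sl a ≠ some l.1 → gU l u t (.inl a) = u a := fun a ha => if_neg ha
  have hsc : ∀ a, sl a ≠ some l.1 → sc ρ u a = y (.inl a) := by
    intro a ha
    have h1 : sc ρ u a = u a * (π ^ ∑ σ, c σ * wt a σ)⁻¹ := by rw [← chi_zp hπ]; rfl
    rw [h1, hy]
    simp only [hgU a ha]
    rcases a with j | a
    · by_cases hj : o = some j
      · simp [(hz j).2 hj]
      · rw [hc, sum_inl, div_zp _ _ (hV.z j fun h => hj h.symm)]; rfl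
    · have h2 : a.1 ≠ l.1 := fun h => ha (congrArg some h)
      rw [hc, sum_inr, div_zp _ _ (hV.h _ h2)]
      simp [Dat.gW, h2]
  have htT : ∀ i, chi ρ (wT l i) * t i = y (.inr i) := by
    intro i
    have h1 : chi ρ (wT l i) = (π ^ ∑ σ, c σ * wT l i σ)⁻¹ := by rw [← chi_zp hπ]; rfl
    rw [h1, mul_comm, hc, sum_wT, div_zp _ _ (hV.t i)]; rfl
  obtain ⟨ρ', hρ', hρe, hle, p₀, hp₀⟩ := T.nrm.slot v (some l) u ρ hD.nz hρ0 fun a ha => by
    rw [hsc a (mem_off.1 ha)]; exact hb _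
  have hagr : Agr (some l.1) (sc ρ u) (sc ρ' u) :=
    T.sc.sc_agr (some l) ρ ρ' u u hρe fun _ _ => rfl
  set û := sc ρ' u with hû
  have hy1 : ∀ a, sl a ≠ some l.1 → û a = y (.inl a) := fun a ha => (hagr a ha).trans (hsc a ha)
  have hcw : ∀ (i : D.I1) q, sl (cw i q) ≠ some l.1 := fun i q => by
    rw [T.sl.sl_cw]; exact (T.sl.ts_ne (some l) i).symm
  have hTT : ∀ i, IsT F l i û (y (.inr i)) := fun i q => by
    rw [T.pi.nx_agr hG.hom l i _ _ hagr, hagr _ (hcw i q), ← htT]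
    exact T.sc.isT hG.hom l i ρ u (t i) hρ0 (hT i) q
  obtain ⟨κ, _, _, ⟨R⟩⟩ := T.red.ex hv
  obtain ⟨r0, r1, rne, -⟩ := T.red.one R
  obtain ⟨m1, -, m3, -, -, -, m7, -⟩ := T.mp.red F R û hle
  set ū := R.r ∘ û with hū
  set tb : D.I1 → κ := fun i => R.r (y (.inr i)) with htb
  have hTb : ∀ i, IsT F l i ū (tb i) := fun i => m7 l i _ (hb _) (hTT i)
  have hfin : (ū '' (off (some l) : Finset D.Vr)).Finite := (Finset.finite_toSet _).image _
  have hrk : ∀ S : Set κ, S.Finite → ū '' off (some l) ⊆ acl S → range tb ⊆ acl S →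
      D.dm + D.k - oc o - 1 ≤ rk S := by
    intro S hS h1 h2
    refine ((T.red.ind R (finite_range y) ?_).1 hI).trans (T.rk.le hS ?_)
    · rintro _ ⟨a, rfl⟩; exact hb a
    · rintro _ ⟨_, ⟨a, rfl⟩, rfl⟩
      rcases a with a | i
      · by_cases ha : sl a = some l.1
        · have : y (.inl a) = 0 := by simp [hy, gU, ha]
          rw [this, r0]; exact zero_mem (acl S)
        · rw [← hy1 a ha]
          exact h1 ⟨a, mem_off.2 ha, rfl⟩
      · exact h2 ⟨i, rfl⟩
  have hunit : ∀ a, gW l f a = 0 → gU l u t a ≠ 0 → R.r (y a) ≠ 0 := fun a h1 h2 => by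
    refine (rne _ (hb a)).2 ?_
    simp only [h1, pow_zero, _root_.div_one]
    exact hun a h1 h2
  have hz0 : ∀ j, o = some j → ū (.inl j) = 0 := fun j hj => by
    have : û (.inl j) = 0 := (T.sc.sc_zero ρ' u _ hρ').2 ((hz j).2 hj)
    simp only [hū, Function.comp, this, r0]
  obtain ⟨d1, d2, d3⟩ := T.sl.dm_add D
  have hoc : oc o ≤ 1 := by cases o <;> simp [oc]
  have hNZ : NZ ū := by
    intro σ
    by_cases hσ : σ = some l.1
    · exact ⟨co (some l) p₀, hσ ▸ T.sl.sl_co (some l) p₀, by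
        simp only [hū, Function.comp, hp₀, r1]; exact one_ne_zero⟩
    by_contra hcon
    push Not at hcon
    have h1 := hBAD D F hG l o f hV κ ū tb hTb hz0 (fun j hj h => ?_) (fun s hs h => ?_)
      (fun i hi h => ?_) ⟨σ, hσ, hcon⟩
    · have h2 := hrk _ (hfin.union (finite_range tb))
        (subset_union_left.trans (G3.subset_acl _)) (subset_union_right.trans (G3.subset_acl _))
      omega
    · have ha : sl (.inl j : D.Vr) ≠ some l.1 := by simp [sl]
      simp only [hū, Function.comp, hy1 _ ha]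
      refine hunit _ (by simp [Dat.gW, h]) ?_
      rw [hgU _ ha]
      exact fun h' => hj ((hz j).1 h').symm
    · obtain ⟨a, ha, ha0⟩ := hD.nz (some s)
      have ha' : sl a ≠ some l.1 := fun h' => hs (Option.some.inj (ha.symm.trans h'))
      rcases a with j | ⟨s', p⟩
      · simp [sl] at ha
      obtain rfl : s' = s := Option.some.inj ha
      refine ⟨p, ?_⟩
      simp only [hū, Function.comp, hy1 _ ha']
      refine hunit _ (by simp [Dat.gW, h]) ?_
      rwa [hgU _ ha']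
    · exact hunit _ (by simp [Dat.gW, h]) (ht0 i hi)
  have hNw : Nw v û := m1.2 hNZ
  have hrk2 := hrk _ hfin (G3.subset_acl _) (by
    rintro _ ⟨i, rfl⟩
    obtain ⟨a, ha, ha0⟩ := hNZ (some i.1)
    obtain ⟨q, rfl⟩ := T.sl.cw_surj i a ha
    rw [eq_div_of_mul_eq ha0 (hTb i q)]
    refine div_mem (xp_mem _ _ (fun p q => ?_) q)
      (G3.subset_acl _ ⟨_, mem_off.2 (hcw i q), rfl⟩)
    refine T.pi.mem _ (off (some l) : Finset D.Vr) ū (NP F l i p q)
      (fun a ha => G3.subset_acl _ ⟨a, ha, rfl⟩) fun u' hu' => ?_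
    exact congrFun (congrFun
      (T.pi.nx_agr hG.hom l i ū u' fun a ha => hu' a (mem_off.2 ha)) p) q)
  have hadj : (Mx F (some l) none ū).adjugate ≠ 0 := by
    intro h0
    have h1 := hG.ck (some l) none hne.symm κ ū
      ⟨hNZ, m3 _ ((T.sc.eqs hG.hom _ ρ' u hρ').2 hD.e2)⟩ h0
    have h2 : fr ū (off (some l)) + oc o ≤ (off (some l)).card := by
      cases o with
      | none => simpa [oc] using T.rk.fr_add ū (off (some l)) ∅ (by simp) (by simp)
      | some j =>
        simpa [oc] using T.rk.fr_add ū (off (some l)) {.inl j}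
          (by simp [mem_off, sl, ts]) (by simp [hz0 j rfl])
    rw [T.sl.card_off] at h2
    omega
  obtain ⟨f1, f2, -⟩ := hF2 D F hG.hom none (some l) hne L u lam hD
  have hl := hFL1 D F hG.hom (some l) none hne.symm L κ v R u lam ρ' f1 hρ' hNw hadj
  have hnu : ∀ σ, σ ≠ some l.1 → nu v u σ = c σ * log (v π) := fun σ hσ => by
    have h1 := T.nrm.nu_sc v ρ' u hD.nz hρ' σ
    rw [T.nrm.nu_nw v _ hNw, hρe σ hσ, hρ] at h1
    simp only [map_zpow₀, log_zpow, smul_eq_mul] at h1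
    linarith
  intro s
  by_cases hs : s = l.1
  · subst hs
    have h1 : ∑ σ, gam none (some l) σ * (nu v u σ - c σ * log (v π)) =
        -(nu v u (some l.1) - f l.1 * log (v π)) := by
      rw [Finset.sum_eq_single (some l.1) (fun σ _ hσ => by rw [hnu σ hσ]; simp) (by simp)]
      simp [gam, ts, hc, wc]
    simp only [mul_sub, Finset.sum_sub_distrib, ← mul_assoc, ← Finset.sum_mul, hc, sum_gam] at h1
    rw [f2] at hl
    rw [if_pos rfl, hl]
    linarith
  · rw [if_neg hs, sub_zero, hnu _ fun h => hs (Option.some.inj h)]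
    rfl

end Pool.Agent.Lib.CI
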