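import Pool.Agent.Lib.CI.BlueA

open MvPolynomial Set Matrix WithZero Pool.Agent.Lib.MP_e39d36_ag Pool.Agent.Lib.MP_e39d36_ag.Var
  Pool.Agent.Lib.MP_cc3443_ag Pool.Agent.Lib.MV Pool.Agent.Lib.MV.End Pool.Agent.Lib.MV.Fb
  Pool.Agent.Lib.DU

set_option linter.unusedSectionVars false
set_option linter.unusedVariables false

noncomputable section

namespace Pool.Agent.Lib.CI

open Pool.Agent.Lib.CI.Dat
open Pool.Agent.Lib.MV.G3 (acl Ov)

namespace XRED

section maps

variable {A B : Type} [CommRing A] [CommRing B] (f : A →+* B)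

lemma map_xp {n : ℕ} (M : Matrix (Fin n) (Fin (n + 1)) A) (q : Fin (n + 1)) :
    f (xp M q) = xp (M.map f) q := by
  rw [xp, xp, map_mul, map_pow, map_neg, map_one, RingHom.map_det]
  rfl

lemma map_adj {n : ℕ} (M : Matrix (Fin n) (Fin n) A) (p q : Fin n) :
    f (M.adjugate p q) = (M.map f).adjugate p q :=
  congrFun (congrFun (f.map_adjugate M) p) q

lemma map_dt {ι : Type} [Fintype ι] (a b : ι → A) : f (a ⬝ᵥ b) = (f ∘ a) ⬝ᵥ (f ∘ b) := by
  simp [dotProduct]

lemma map_grad (c : Cf A) (a : Fin 3 → A) : f ∘ grad c a = grad (cmap f c) (f ∘ a) := by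
  funext i
  have e : f ∘ (Pi.single i 1 : Fin 3 → A) = Pi.single i 1 := by
    funext j
    by_cases h : j = i
    · subst h; simp
    · simp [Pi.single_eq_of_ne h]
  simp only [grad, Function.comp_apply, map_pol, e]

lemma map_tq (c : Cf A) (a b : Fin 3 → A) : f ∘ tq c a b = tq (cmap f c) (f ∘ a) (f ∘ b) := by
  have e : f ∘ tdir c a b = tdir (cmap f c) (f ∘ a) (f ∘ b) := by
    rw [tdir, tdir, map_cross, map_grad]
  funext i
  simp only [tq, ← e, Function.comp_apply, Pi.sub_apply, Pi.smul_apply, smul_eq_mul, map_sub,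
    map_mul, map_cub, map_pol]

end maps

variable {Ω κ : Type} [Field Ω] [Algebra ℂ Ω] [Field κ] [Algebra ℂ κ] {v : Valuation Ω ℤᵐ⁰}

lemma r0 (R : Red v κ) : R.r 0 = 0 := by simpa using R.const 0

lemma r1 (R : Red v κ) : R.r 1 = 1 := by simpa using R.const 1

/-- The residue map on the valuation ring. -/
def ph (R : Red v κ) : v.valuationSubring →+* κ where
  toFun a := R.r a
  map_one' := r1 R
  map_zero' := r0 R
  map_mul' a b := R.mul _ _ a.2 b.2
  map_add' a b := R.add _ _ a.2 b.2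

lemma ne_iff (R : Red v κ) {a : Ω} (h : v a ≤ 1) : R.r a ≠ 0 ↔ v a = 1 := by
  rw [Ne, R.zero a h, not_lt]
  exact ⟨fun h' => le_antisymm h h', fun h' => h'.ge⟩

lemma r_div (R : Red v κ) {a b : Ω} (ha : v a ≤ 1) (hb : v b = 1) :
    R.r (a / b) = R.r a / R.r b := by
  have h0 : b ≠ 0 := by rintro rfl; simp at hb
  have h1 : v (a / b) ≤ 1 := by rw [map_div₀, hb, _root_.div_one]; exact ha
  rw [eq_div_iff ((ne_iff R hb.le).2 hb), ← R.mul _ _ h1 hb.le, div_mul_cancel₀ _ h0]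

lemma aev (R : Red v κ) {ι : Type} (u : ι → Ω) (h : ∀ a, v (u a) ≤ 1) (P : MvPolynomial ι ℂ) :
    v (aeval u P) ≤ 1 ∧ R.r (aeval u P) = aeval (R.r ∘ u) P := by
  induction P using MvPolynomial.induction_on with
  | C a => rw [aeval_C, aeval_C]; exact ⟨R.cle a, R.const a⟩
  | add p q hp hq =>
    rw [map_add (aeval u), map_add (aeval (R.r ∘ u)), R.add _ _ hp.1 hq.1, hp.2, hq.2]
    exact ⟨v.map_add_le hp.1 hq.1, rfl⟩
  | mul_X p t hp =>
    rw [map_mul (aeval u), map_mul (aeval (R.r ∘ u)), aeval_X, aeval_X, R.mul _ _ hp.1 (h t), hp.2,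
      map_mul v]
    exact ⟨mul_le_one' hp.1 (h t), rfl⟩

lemma ind (h : St_RK) (R : Red v κ) {S : Set Ω} {e : ℕ} (hS : S.Finite) (h1 : ∀ z ∈ S, v z ≤ 1) :
    IndV v S e ↔ e ≤ rk (R.r '' S) := by
  rw [h.le_iff (hS.image _)]
  constructor
  · rintro ⟨a, ha, hP⟩
    refine ⟨R.r ∘ a, fun i => ⟨a i, ha i, rfl⟩, algebraicIndependent_iff.2 fun P h0 => ?_⟩
    by_contra hne
    obtain ⟨k1, k2⟩ := aev R a (fun i => h1 _ (ha i)) P
    exact (ne_iff R k1).2 (hP P hne) (k2.trans h0)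
  · rintro ⟨a, ha, hI⟩
    choose b hb hab using ha
    obtain rfl : a = R.r ∘ b := funext fun i => (hab i).symm
    refine ⟨b, hb, fun P hne => ?_⟩
    obtain ⟨k1, k2⟩ := aev R b (fun i => h1 _ (hb i)) P
    exact (ne_iff R k1).1 fun h0 => hne (algebraicIndependent_iff.1 hI P (k2.symm.trans h0))

lemma indep {e : ℕ} {a : Fin e → Ω} (hP : ∀ P : MvPolynomial (Fin e) ℂ, P ≠ 0 → v (aeval a P) = 1) :
    AlgebraicIndependent ℂ a := algebraicIndependent_iff.2 fun P h0 => by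
  by_contra hne
  have := hP P hne
  rw [h0, map_zero] at this
  exact zero_ne_one this

lemma alg_le {A : Subalgebra ℂ Ω} (hA : ∀ c : A, c ≠ 0 → v c = 1) {g : Ω} (hg : IsAlgebraic A g) :
    v g ≤ 1 := by
  obtain ⟨p, hp, h0⟩ := hg
  by_contra hlt
  rw [not_le] at hlt
  have hle : ∀ c : A, v c ≤ 1 := fun c => by
    by_cases hc : c = 0
    · simp [hc]
    · exact (hA c hc).le
  rw [Polynomial.aeval_eq_sum_range, Finset.sum_range_succ, add_eq_zero_iff_eq_neg] at h0
  have h1 : v (∑ i ∈ Finset.range p.natDegree, p.coeff i • g ^ i) < v g ^ p.natDegree := by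
    refine v.map_sum_lt (pow_ne_zero _ (zero_lt_one.trans hlt).ne') fun i hi => ?_
    rw [Subalgebra.smul_def, smul_eq_mul, map_mul, map_pow]
    exact (mul_le_of_le_one_left' (hle _)).trans_lt (pow_lt_pow_right₀ hlt (Finset.mem_range.1 hi))
  rw [h0, Valuation.map_neg, Subalgebra.smul_def, smul_eq_mul, map_mul, map_pow,
    hA (p.coeff p.natDegree) (Polynomial.leadingCoeff_ne_zero.2 hp), one_mul] at h1
  exact lt_irrefl _ h1

lemma abh (h : St_RK) (R : Red v κ) {S : Set Ω} (hS : S.Finite) (h1 : ∀ z ∈ S, v z ≤ 1)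
    (h2 : rk S ≤ rk (R.r '' S)) (g : Ω) (hg : g ∈ acl S) (h0 : g ≠ 0) : v g = 1 := by
  obtain ⟨a, ha, hP⟩ := (ind h R hS h1).2 h2
  have hsub : S ⊆ acl (range a) := h.acl_of (finite_range a) hS (by
    rw [union_eq_self_of_subset_left (range_subset_iff.2 ha)]
    exact (h.le_iff (finite_range a)).2 ⟨a, fun i => mem_range_self i, indep hP⟩)
  have hA : ∀ c : Algebra.adjoin ℂ (range a), c ≠ 0 → v c = 1 := by
    rintro ⟨c, hc⟩ hne
    have hc' := hc
    rw [Algebra.adjoin_range_eq_range_aeval] at hc'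
    obtain ⟨P, rfl⟩ := hc'
    exact hP P fun hP0 => hne (Subtype.ext (by simp [hP0]))
  have key : ∀ z ∈ acl S, v z ≤ 1 := fun z hz => alg_le hA
    ((mem_algebraicClosure_iff.trans IntermediateField.isAlgebraic_adjoin_iff).1
      (G3.acl_le hsub hz))
  refine le_antisymm (key g hg) ?_
  have h3 := key g⁻¹ (inv_mem hg)
  rw [map_inv₀] at h3
  exact (inv_le_one₀ (zero_lt_iff.2 ((Valuation.ne_zero_iff v).2 h0))).1 h3

lemma ex (hv : Cv v) : ∃ (κ : Type) (_ : Field κ) (_ : Algebra ℂ κ), Nonempty (Red v κ) := by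
  classical
  let ψ : ℂ →+* v.valuationSubring := (algebraMap ℂ Ω).codRestrict v.valuationSubring hv
  let ρ := IsLocalRing.residue v.valuationSubring
  have hr : ∀ a : v.valuationSubring,
      (if h : v (a : Ω) ≤ 1 then ρ ⟨a, h⟩ else 0) = ρ a := fun a => dif_pos a.2
  refine ⟨IsLocalRing.ResidueField v.valuationSubring, inferInstance, (ρ.comp ψ).toAlgebra,
    ⟨@Red.mk Ω _ _ v _ _ (ρ.comp ψ).toAlgebra (fun a => if h : v a ≤ 1 then ρ ⟨a, h⟩ else 0) hv
      (fun a b ha hb => ?_) (fun a b ha hb => ?_) (fun c => hr (ψ c)) (fun a ha => ?_)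
      fun b => ?_⟩⟩
  · rw [dif_pos ha, dif_pos hb]
    exact (hr (⟨a, ha⟩ + ⟨b, hb⟩)).trans (map_add ρ _ _)
  · rw [dif_pos ha, dif_pos hb]
    exact (hr (⟨a, ha⟩ * ⟨b, hb⟩)).trans (map_mul ρ _ _)
  · rw [dif_pos ha, IsLocalRing.residue_eq_zero_iff]
    exact Valuation.mem_maximalIdeal_iff Ω v
  · obtain ⟨a, rfl⟩ := IsLocalRing.residue_surjective b
    exact ⟨a, a.2, hr a⟩

lemma tv_le (a : Ω) : tv Ω a ≤ 1 := by
  classical
  exact Valuation.one_apply_le_one a

/-- The residue map of the trivial valuation. -/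
def idR : Red (tv Ω) Ω where
  r := id
  cle _ := tv_le _
  add _ _ _ _ := rfl
  mul _ _ _ _ := rfl
  const _ := rfl
  zero a _ := by
    classical
    exact Valuation.one_apply_lt_one_iff.symm
  surj b := ⟨b, tv_le b, rfl⟩

end XRED

open XRED

theorem st_RED (h : St_RK) : St_RED where
  ex hv := XRED.ex hv
  triv Ω _ _ := ⟨fun _ => tv_le _, tv_le, fun a ha => (ne_iff idR (tv_le a)).1 ha, ⟨idR, rfl⟩,
    fun S e hS => (XRED.ind h idR hS fun z _ => tv_le z).trans (by
      rw [show (idR (Ω := Ω)).r '' S = S from image_id S])⟩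
  hom R := ⟨ph R, fun _ => rfl⟩
  one R := ⟨r0 R, r1 R, fun a ha => ne_iff R ha, fun a ha => map_neg (ph R) ⟨a, ha⟩,
    fun a b ha hb => map_sub (ph R) ⟨a, ha⟩ ⟨b, hb⟩, fun a b ha hb => r_div R ha hb⟩
  aev R u hu P := XRED.aev R u hu P
  adj := by
    intro Ω κ _ _ _ _ v R n M hM p q
    let M' : Matrix (Fin n) (Fin n) v.valuationSubring := fun p q => ⟨M p q, hM p q⟩
    have e : ((M'.adjugate p q : v.valuationSubring) : Ω) = M.adjugate p q :=
      map_adj v.valuationSubring.subtype M' p q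
    rw [← e]
    exact ⟨(M'.adjugate p q).2, map_adj (ph R) M' p q⟩
  xp := by
    intro Ω κ _ _ _ _ v R n M hM q
    let M' : Matrix (Fin n) (Fin (n + 1)) v.valuationSubring := fun p q => ⟨M p q, hM p q⟩
    have e : ((xp M' q : v.valuationSubring) : Ω) = xp M q :=
      map_xp v.valuationSubring.subtype M' q
    rw [← e]
    exact ⟨(xp M' q).2, map_xp (ph R) M' q⟩
  dot := by
    intro Ω κ ι _ _ _ _ _ v R a b ha hb
    let a' : ι → v.valuationSubring := fun i => ⟨a i, ha i⟩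
    let b' : ι → v.valuationSubring := fun i => ⟨b i, hb i⟩
    have e : ((a' ⬝ᵥ b' : v.valuationSubring) : Ω) = a ⬝ᵥ b :=
      map_dt v.valuationSubring.subtype a' b'
    rw [← e]
    exact ⟨(a' ⬝ᵥ b').2, map_dt (ph R) a' b'⟩
  cub := by
    intro Ω κ _ _ _ _ v R c a b hc ha hb
    let c' : Cf v.valuationSubring := fun i j l => ⟨c i j l, hc i j l⟩
    let a' : Fin 3 → v.valuationSubring := fun i => ⟨a i, ha i⟩
    let b' : Fin 3 → v.valuationSubring := fun i => ⟨b i, hb i⟩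
    let s := v.valuationSubring.subtype
    have e1 : s (cub c' a') = cub c a := map_cub s
    have e2 : s (pol c' a' b') = pol c a b := map_pol s
    have e3 : s ∘ (a' ⨯₃ b') = a ⨯₃ b := map_cross s
    have e4 : s ∘ grad c' a' = grad c a := map_grad s c' a'
    have e5 : s ∘ thd c' a' b' = thd c a b := map_thd s
    have e6 : s ∘ tq c' a' b' = tq c a b := map_tq s c' a' b'
    rw [← e1, ← e2, ← e3, ← e4, ← e5, ← e6]
    exact ⟨map_cub (ph R) (c := c') (x := a'), map_pol (ph R) (c := c') (x := a') (y := b'),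
      map_cross (ph R) (x := a') (y := b'), map_grad (ph R) c' a',
      map_thd (ph R) (c := c') (P := a') (x := b'), map_tq (ph R) c' a' b'⟩
  nm := by
    intro Ω κ ι _ _ _ _ _ v R a ha
    rw [Function.ne_iff]
    constructor
    · rintro ⟨i, hi⟩
      exact le_antisymm (nm_le.2 ha) (((ne_iff R (ha i)).1 hi).ge.trans (le_nm a i))
    · intro h1
      rcases isEmpty_or_nonempty ι with hι | hι
      · simp [MV.nm] at h1
      · obtain ⟨l, hl⟩ := exists_nm (v := v) a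
        exact ⟨l, (ne_iff R (ha l)).2 (hl.symm.trans h1)⟩
  ind R _ _ hS h1 := XRED.ind h R hS h1
  rk_le R S hS h1 := by
    obtain ⟨a, ha, hP⟩ := (XRED.ind h R hS h1).2 le_rfl
    exact (h.le_iff hS).2 ⟨a, ha, indep hP⟩
  abh R _ hS h1 h2 := XRED.abh h R hS h1 h2

end Pool.Agent.Lib.CI
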