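import Pool.Agent.Lib.CI.LDefs

open Set Submodule

set_option linter.unusedSectionVars false
set_option linter.unusedVariables false

noncomputable section

namespace Pool.Agent.Lib.CI.RED2

open Dat

variable {D : Dat}

/-- Weights of the coordinates. -/
def mu (j : Fin D.m) (s : Fin D.k) : ℤ := if D.n s + 1 = D.m then 1 else D.d j s

/-- Weighted sum over the coordinates different from `l`. -/
def Q (l : D.I0) (j : Fin D.m) (f : D.Λ) : ℤ := ∑ s ∈ Finset.univ.erase l.1, f s * mu j s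

lemma mu_pos (j : Fin D.m) (s : Fin D.k) : 1 ≤ mu j s := by
  unfold mu
  split_ifs
  · exact le_rfl
  · exact_mod_cast D.d_pos j s

lemma cover (hm : D.m = 2) {j j' : Fin D.m} (h : j ≠ j') (a : Fin D.m) : a = j ∨ a = j' := by
  have h1 := j.2
  have h2 := j'.2
  have h3 := a.2
  have h4 : j.1 ≠ j'.1 := fun e => h (Fin.ext e)
  rw [Fin.ext_iff, Fin.ext_iff]
  omega

lemma other (hm : D.m = 2) (j : Fin D.m) : ∃ j', j' ≠ j := by
  by_cases h : j.1 = 0
  · exact ⟨⟨1, by omega⟩, fun e => by have := congrArg Fin.val e; simp at this; omega⟩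
  · exact ⟨⟨0, by omega⟩, fun e => by have := congrArg Fin.val e; simp at this; omega⟩

lemma sum_aa (hm : D.m = 2) {j j' : Fin D.m} (h : j ≠ j') : ∑ a, (aa a : D.Λ) = aa j + aa j' := by
  rw [← Finset.sum_pair (f := fun a => (aa a : D.Λ)) h]
  refine (Finset.sum_subset (Finset.subset_univ _) fun a _ ha => ?_).symm
  exfalso
  apply ha
  rcases cover hm h a with e | e <;> simp [e]

lemma dot_Q (l : D.I0) (j : Fin D.m) (f : D.Λ) : f ⬝ᵥ aa j + f ⬝ᵥ hs {l.1} = Q l j f := by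
  rw [← dotProduct_add, dotProduct, ← Finset.add_sum_erase _ _ (Finset.mem_univ l.1)]
  have h0 : (aa j + hs {l.1} : D.Λ) l.1 = 0 := by simp [aa, hs, aW, l.2]
  rw [h0, mul_zero, zero_add]
  refine Finset.sum_congr rfl fun s hs' => ?_
  have hne : s ≠ l.1 := Finset.ne_of_mem_erase hs'
  by_cases h : D.n s + 1 = D.m <;> simp [aa, hs, aW, mu, h, hne]

lemma dot_Lam (hm : D.m = 2) (l : D.I0) {j j' : Fin D.m} (h : j ≠ j') (f : D.Λ) :
    f ⬝ᵥ Lam l j = Q l j' f - f l.1 := by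
  have h2 : (D.m : ℤ) - 1 = 1 := by rw [hm]; norm_num
  rw [← dot_Q, Lam, zeta, sum_aa hm h, h2, one_smul]
  simp only [dotProduct_sub, dotProduct_add, dotProduct_single, mul_one]
  ring

lemma dot_t (hm : D.m = 2) (l : D.I0) {j j' : Fin D.m} (h : j ≠ j') (f : D.Λ) (i : D.I1) :
    f ⬝ᵥ tcl l i = 2 * (Q l j f + Q l j' f - f l.1) - 3 * f i.1 := by
  have h2 : (D.m : ℤ) = 2 := by rw [hm]; norm_num
  rw [← dot_Q, ← dot_Q, tcl, zeta, sum_aa hm h, h2]
  simp only [dotProduct_sub, dotProduct_add, dotProduct_smul, dotProduct_single, mul_one,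
    smul_eq_mul]
  ring

lemma dot_om (hm : D.m = 2) (l : D.I0) (i : D.I1) {j' : Fin D.m} (h : jj i ≠ j') (f : D.Λ) :
    f ⬝ᵥ om l i = Q l (jj i) f + 2 * Q l j' f - f l.1 - 3 * f i.1 := by
  rw [om, dotProduct_add, dot_Lam hm l h, ← dot_Q, ← dot_Q, kap, sum_aa hm h]
  simp only [dotProduct_sub, dotProduct_add, dotProduct_smul, dotProduct_single, mul_one,
    smul_eq_mul]
  ring

lemma i_ne (l : D.I0) (i : D.I1) : i.1 ≠ l.1 := fun e => by
  have h1 := l.2
  have h2 := i.2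
  rw [e] at h2
  omega

lemma mu_jj (i : D.I1) : mu (jj i) i.1 = 2 := by
  have h2 := i.2
  have : ¬ D.n i.1 + 1 = D.m := by omega
  simp [mu, this, d_jj]

lemma mu_ne (i : D.I1) {j : Fin D.m} (h : j ≠ jj i) : mu j i.1 = 1 := by
  have h2 := i.2
  have : ¬ D.n i.1 + 1 = D.m := by omega
  simp [mu, this, d_ne_jj i h]

lemma Q_ge (l : D.I0) (j : Fin D.m) {f : D.Λ} (hf : ∀ s, s ≠ l.1 → 0 ≤ f s) (A : Finset (Fin D.k))
    (hA : l.1 ∉ A) : ∑ s ∈ A, f s * mu j s ≤ Q l j f := by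
  refine Finset.sum_le_sum_of_subset_of_nonneg (fun s hs' => ?_) fun s hs' _ => ?_
  · exact Finset.mem_erase.2 ⟨fun e => hA (e ▸ hs'), Finset.mem_univ _⟩
  · exact mul_nonneg (hf s (Finset.ne_of_mem_erase hs')) (by linarith [mu_pos j s])

lemma Q_one (l : D.I0) (j : Fin D.m) {f : D.Λ} (hf : ∀ s, s ≠ l.1 → 0 ≤ f s) {s : Fin D.k}
    (hs' : s ≠ l.1) : f s * mu j s ≤ Q l j f := by
  simpa using Q_ge l j hf {s} (by simpa using hs'.symm)

lemma Q_two (l : D.I0) (j : Fin D.m) {f : D.Λ} (hf : ∀ s, s ≠ l.1 → 0 ≤ f s) {s t : Fin D.k}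
    (hs' : s ≠ l.1) (ht : t ≠ l.1) (hst : s ≠ t) : f s + f t ≤ Q l j f := by
  have h := Q_ge l j hf {s, t} (by simp [hs'.symm, ht.symm])
  rw [Finset.sum_pair hst] at h
  nlinarith [mu_pos j s, mu_pos j t, hf s hs', hf t ht]

lemma Q_update (l : D.I0) (j : Fin D.m) (g : D.Λ) (v : ℤ) :
    Q l j (Function.update g l.1 v) = Q l j g :=
  Finset.sum_congr rfl fun s hs' => by rw [Function.update_of_ne (Finset.ne_of_mem_erase hs')]

lemma Q_lin (l : D.I0) (j : Fin D.m) (f w : D.Λ) (N P : ℤ) :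
    Q l j (N • f - P • w) = N * Q l j f - P * Q l j w := by
  simp only [Q, Finset.mul_sum, ← Finset.sum_sub_distrib]
  refine Finset.sum_congr rfl fun s _ => ?_
  simp only [Pi.sub_apply, Pi.smul_apply, smul_eq_mul]
  ring

/-- The comparison of a functional with a lowered one. -/
lemma key (hm : D.m = 2) {l : D.I0} {x : D.V} (hx : EndL l x) (f w : D.Λ) (N P v : ℤ) (hN : 0 < N)
    (hP : 0 ≤ P) (hw : ∀ s, s ≠ l.1 → 0 ≤ w s) (hw0 : ∀ s, D.m < D.n s → w s = 0)
    (hv : N * f l.1 - v ≤ P * ∑ s ∈ Finset.univ.erase l.1, w s)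
    (hg : 0 ≤ pr (Function.update (N • f - P • w) l.1 v) x) : 0 ≤ pr f x := by
  have h2 : (D.m : ℝ) - 1 = 1 := by rw [hm]; norm_num
  have hb : ∀ s, s ≠ l.1 → 0 ≤ (w s : ℝ) * (x s + x l.1) := fun s hs' => by
    rcases Nat.lt_trichotomy D.m (D.n s) with h | h | h
    · simp [hw0 s h]
    · have := hx.b ⟨s, h.symm⟩
      rw [h2, one_mul] at this
      exact mul_nonneg (by exact_mod_cast hw s hs') this
    · have h3 := D.m_le s
      have := hx.c' ⟨s, by omega⟩ (fun e => hs' (congrArg Subtype.val e))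
      rw [h2, one_mul] at this
      exact mul_nonneg (by exact_mod_cast hw s hs') this
  have hsum : 0 ≤ ∑ s ∈ Finset.univ.erase l.1, (w s : ℝ) * (x s + x l.1) :=
    Finset.sum_nonneg fun s hs' => hb s (Finset.ne_of_mem_erase hs')
  have e1 : pr (Function.update (N • f - P • w) l.1 v) x = v * x l.1 +
      (N * ∑ s ∈ Finset.univ.erase l.1, (f s : ℝ) * x s -
        P * ∑ s ∈ Finset.univ.erase l.1, (w s : ℝ) * x s) := by
    rw [pr, ← Finset.add_sum_erase _ _ (Finset.mem_univ l.1), Function.update_self,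
      Finset.mul_sum, Finset.mul_sum, ← Finset.sum_sub_distrib]
    refine congrArg _ (Finset.sum_congr rfl fun s hs' => ?_)
    rw [Function.update_of_ne (Finset.ne_of_mem_erase hs')]
    simp only [Pi.sub_apply, Pi.smul_apply, smul_eq_mul]
    push_cast
    ring
  have e2 : pr f x = f l.1 * x l.1 + ∑ s ∈ Finset.univ.erase l.1, (f s : ℝ) * x s := by
    rw [pr, ← Finset.add_sum_erase _ _ (Finset.mem_univ l.1)]
  have e3 : ∑ s ∈ Finset.univ.erase l.1, (w s : ℝ) * (x s + x l.1) =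
      ∑ s ∈ Finset.univ.erase l.1, (w s : ℝ) * x s +
        (∑ s ∈ Finset.univ.erase l.1, (w s : ℝ)) * x l.1 := by
    rw [Finset.sum_mul, ← Finset.sum_add_distrib]
    exact Finset.sum_congr rfl fun s _ => by ring
  have hv' : (N : ℝ) * f l.1 - v ≤ P * ∑ s ∈ Finset.univ.erase l.1, (w s : ℝ) := by
    exact_mod_cast hv
  have hN' : (0 : ℝ) < N := by exact_mod_cast hN
  have hP' : (0 : ℝ) ≤ P := by exact_mod_cast hP
  have h5 := mul_nonneg hP' hsum
  have h6 := mul_nonneg (sub_nonneg.2 hv') (neg_nonneg.2 hx.c)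
  have h7 : 0 ≤ (N : ℝ) * pr f x := by
    rw [e2]
    rw [e1] at hg
    rw [e3] at h5
    nlinarith
  exact nonneg_of_mul_nonneg_right h7 hN' |> fun h => h

/-- The part of `f` on the small factors. -/
def c0 (f : D.Λ) : D.Λ := fun s => if D.n s + 1 = D.m then f s else 0

open Classical in
/-- The part of `f` on the factors of dimension `m` with `jj = j`. -/
def c1 (j : Fin D.m) (f : D.Λ) : D.Λ := fun s =>
  if ∃ h : D.n s = D.m, jj ⟨s, h⟩ = j then f s else 0

lemma Q_add (l : D.I0) (j : Fin D.m) (f w : D.Λ) (N P : ℤ) :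
    Q l j (N • f + P • w) = N * Q l j f + P * Q l j w := by
  simp only [Q, Finset.mul_sum, ← Finset.sum_add_distrib]
  refine Finset.sum_congr rfl fun s _ => ?_
  simp only [Pi.add_apply, Pi.smul_apply, smul_eq_mul]
  ring

lemma Q_c0 (l : D.I0) (j : Fin D.m) (f : D.Λ) :
    Q l j (c0 f) = ∑ s ∈ Finset.univ.erase l.1, c0 f s := by
  refine Finset.sum_congr rfl fun s _ => ?_
  by_cases h : D.n s + 1 = D.m <;> simp [c0, mu, h]

lemma Q_c1 (l : D.I0) {j j' : Fin D.m} (h : j ≠ j') (f : D.Λ) :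
    Q l j' (c1 j f) = ∑ s ∈ Finset.univ.erase l.1, c1 j f s := by
  refine Finset.sum_congr rfl fun s _ => ?_
  unfold c1
  split_ifs with h1
  · obtain ⟨h1, h2⟩ := h1
    have := mu_ne ⟨s, h1⟩ (j := j') (by rw [h2]; exact h.symm)
    simp only at this
    rw [this, mul_one]
  · simp

lemma Q_c1' (l : D.I0) (j : Fin D.m) (f : D.Λ) :
    Q l j (c1 j f) = 2 * ∑ s ∈ Finset.univ.erase l.1, c1 j f s := by
  rw [Finset.mul_sum]
  refine Finset.sum_congr rfl fun s _ => ?_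
  unfold c1
  split_ifs with h1
  · obtain ⟨h1, h2⟩ := h1
    have := mu_jj ⟨s, h1⟩
    simp only [h2] at this
    rw [this, mul_comm]
  · simp

lemma low (hm : D.m = 2) {l : D.I0} {x : D.V} (hx : EndL l x) {f : D.Λ}
    (hf : ∀ s, s ≠ l.1 → 0 ≤ f s) {j j' : Fin D.m} (h : j ≠ j') (hL : f l.1 ≤ Q l j' f) :
    ∃ H S : ℤ, 0 ≤ H ∧ 0 ≤ S ∧ ∀ N a b : ℤ, 0 < N → 0 ≤ a → a ≤ N → 0 ≤ b → b ≤ N →
      ∃ g : D.Λ, (0 ≤ pr g x → 0 ≤ pr f x) ∧ (∀ s, s ≠ l.1 → 0 ≤ g s) ∧ g l.1 = Q l j' g ∧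
        Q l j' g = N * Q l j' f - a * H - b * S ∧ Q l j g = N * Q l j f - a * H - 2 * b * S ∧
        (∀ l' : D.I0, l' ≠ l → g l'.1 = (N - a) * f l'.1) ∧
        (∀ i : D.I1, jj i = j → g i.1 = (N - b) * f i.1) ∧
        ∀ i : D.I1, jj i ≠ j → g i.1 = N * f i.1 := by
  have h0 : ∀ s, s ≠ l.1 → 0 ≤ c0 f s := fun s hs' => by
    unfold c0
    split_ifs
    exacts [hf s hs', le_rfl]
  have h1 : ∀ s, s ≠ l.1 → 0 ≤ c1 j f s := fun s hs' => by
    unfold c1
    split_ifs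
    exacts [hf s hs', le_rfl]
  refine ⟨∑ s ∈ Finset.univ.erase l.1, c0 f s, ∑ s ∈ Finset.univ.erase l.1, c1 j f s,
    Finset.sum_nonneg fun s hs' => h0 s (Finset.ne_of_mem_erase hs'),
    Finset.sum_nonneg fun s hs' => h1 s (Finset.ne_of_mem_erase hs'), fun N a b hN ha haN hb hbN =>
    ⟨Function.update (N • f - (1 : ℤ) • (a • c0 f + b • c1 j f)) l.1
      (Q l j' (N • f - (1 : ℤ) • (a • c0 f + b • c1 j f))), fun hg => ?_, fun s hs' => ?_, ?_, ?_,
      ?_, fun l' hl' => ?_, fun i hi => ?_, fun i hi => ?_⟩⟩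
  · refine key hm hx f _ N 1 _ hN zero_le_one (fun s hs' => ?_) (fun s hs' => ?_) ?_ hg
    · simp only [Pi.add_apply, Pi.smul_apply, smul_eq_mul]
      exact add_nonneg (mul_nonneg ha (h0 s hs')) (mul_nonneg hb (h1 s hs'))
    · have e0 : c0 f s = 0 := if_neg (by omega)
      have e1 : c1 j f s = 0 := if_neg (by rintro ⟨h1, -⟩; omega)
      simp [e0, e1]
    · rw [Q_lin, Q_add, Q_c0, Q_c1 l h]
      simp only [Pi.add_apply, Pi.smul_apply, smul_eq_mul, Finset.sum_add_distrib,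
        ← Finset.mul_sum]
      nlinarith
  · rw [Function.update_of_ne hs']
    have := hf s hs'
    simp only [Pi.sub_apply, Pi.add_apply, Pi.smul_apply, smul_eq_mul, one_mul, c0, c1]
    split_ifs with h2 h3 h3
    · obtain ⟨h3, -⟩ := h3
      omega
    all_goals nlinarith
  · rw [Function.update_self, Q_update]
  · rw [Q_update, Q_lin, Q_add, Q_c0, Q_c1 l h]
    ring
  · rw [Q_update, Q_lin, Q_add, Q_c0, Q_c1']
    ring
  · rw [Function.update_of_ne fun e => hl' (Subtype.ext e)]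
    have e0 : c0 f l'.1 = f l'.1 := if_pos l'.2
    have e1 : c1 j f l'.1 = 0 := if_neg (by rintro ⟨h1, -⟩; have := l'.2; omega)
    simp only [Pi.sub_apply, Pi.add_apply, Pi.smul_apply, smul_eq_mul, e0, e1]
    ring
  · rw [Function.update_of_ne (i_ne l i)]
    have e0 : c0 f i.1 = 0 := if_neg (by have := i.2; omega)
    have e1 : c1 j f i.1 = f i.1 := if_pos ⟨i.2, hi⟩
    simp only [Pi.sub_apply, Pi.add_apply, Pi.smul_apply, smul_eq_mul, e0, e1]
    ring
  · rw [Function.update_of_ne (i_ne l i)]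
    have e0 : c0 f i.1 = 0 := if_neg (by have := i.2; omega)
    have e1 : c1 j f i.1 = 0 := if_neg (by rintro ⟨h1, h2⟩; exact hi h2)
    simp only [Pi.sub_apply, Pi.add_apply, Pi.smul_apply, smul_eq_mul, e0, e1]
    ring

lemma Q_jj (l : D.I0) {g : D.Λ} (hg : ∀ s, s ≠ l.1 → 0 ≤ g s) (i : D.I1) :
    2 * g i.1 ≤ Q l (jj i) g := by
  have := Q_one l (jj i) hg (i_ne l i)
  rw [mu_jj] at this
  linarith

lemma valid_none (hm : D.m = 2) {l : D.I0} {g : D.Λ} (hg : ∀ s, s ≠ l.1 → 0 ≤ g s)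
    {j j' : Fin D.m} (h : j ≠ j') (hl : g l.1 = Q l j' g) (hQ : Q l j' g ≤ Q l j g)
    (h0 : ∀ l' : D.I0, l' ≠ l → g l'.1 = 0)
    (h1 : Q l j' g = Q l j g ∨ ∀ i : D.I1, jj i = j → g i.1 = 0) : Valid l none g := by
  have e1 : g ⬝ᵥ Lam l j = 0 := by rw [dot_Lam hm l h, hl, sub_self]
  refine ⟨fun a _ => ?_, hg, fun i => ?_, Or.inl ⟨h0, ⟨j, by simp, e1⟩, fun i hi => Or.inl ?_⟩⟩
  · rcases cover hm h a with rfl | rfl
    · exact e1.ge
    · rw [dot_Lam hm l h.symm]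
      linarith
  · rw [dot_t hm l h]
    have h2 := Q_jj l hg i
    have h3 := hg _ (i_ne l i)
    rcases cover hm h (jj i) with e | e <;> rw [e] at h2 <;> linarith
  · by_cases e : jj i = j
    · rcases h1 with h1 | h1
      · refine ⟨j', by simp, by rw [e]; exact h.symm, ?_⟩
        rw [dot_Lam hm l h.symm]
        linarith
      · exact absurd (h1 i e) hi
    · exact ⟨j, by simp, fun e' => e e'.symm, e1⟩

lemma red_none (hm : D.m = 2) {l : D.I0} {x : D.V} (hx : EndL l x)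
    (hV : ∀ f, Valid l none f → 0 ≤ pr f x) {f : D.Λ} (hf : ∀ s, s ≠ l.1 → 0 ≤ f s)
    {j j' : Fin D.m} (h : j ≠ j') (hL : f l.1 ≤ Q l j' f) (hQ : Q l j' f ≤ Q l j f) :
    0 ≤ pr f x := by
  obtain ⟨H, S, hH, hS, hlow⟩ := low hm hx hf h hL
  by_cases hc : S ≤ Q l j f - Q l j' f
  · obtain ⟨g, g0, g1, g2, g3, g4, g5, g6, g7⟩ :=
      hlow 1 1 1 one_pos zero_le_one le_rfl zero_le_one le_rfl
    refine g0 (hV g (valid_none hm g1 h g2 (by linarith) (fun l' hl' => ?_) (Or.inr fun i hi => ?_)))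
    · rw [g5 l' hl', sub_self, zero_mul]
    · rw [g6 i hi, sub_self, zero_mul]
  · obtain ⟨g, g0, g1, g2, g3, g4, g5, g6, g7⟩ :=
      hlow S S (Q l j f - Q l j' f) (by linarith) hS le_rfl (by linarith) (by linarith)
    have e : Q l j' g = Q l j g := by
      rw [g3, g4]
      ring
    refine g0 (hV g (valid_none hm g1 h g2 e.le (fun l' hl' => ?_) (Or.inl e)))
    rw [g5 l' hl', sub_self, zero_mul]

lemma valid_two (hm : D.m = 2) {l : D.I0} {g : D.Λ} (hg : ∀ s, s ≠ l.1 → 0 ≤ g s)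
    {j j' : Fin D.m} (h : j ≠ j') (hl : g l.1 = Q l j' g) (i : D.I1) (hi : jj i = j')
    (ht : 2 * Q l j g = 3 * g i.1) : Valid l (some j') g := by
  have e1 : g ⬝ᵥ Lam l j = 0 := by rw [dot_Lam hm l h, hl, sub_self]
  refine ⟨fun a ha => ?_, hg, fun i' => ?_,
    Or.inr ⟨i, by rw [hi], ?_, Or.inr ⟨j, by rw [hi]; exact h, e1⟩⟩⟩
  · rcases cover hm h a with rfl | rfl
    · exact e1.ge
    · exact absurd rfl ha
  · rw [dot_t hm l h]
    by_cases e : i = i'
    · rw [← e]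
      linarith
    · have h2 := Q_two l j hg (i_ne l i) (i_ne l i') fun e' => e (Subtype.ext e')
      have h3 := hg _ (i_ne l i')
      linarith
  · rw [dot_t hm l h]
    linarith

lemma red_some (hm : D.m = 2) {l : D.I0} {x : D.V} (hx : EndL l x) {j j' : Fin D.m} (h : j ≠ j')
    (hV : ∀ f, Valid l (some j') f → 0 ≤ pr f x) {f : D.Λ} (hf : ∀ s, s ≠ l.1 → 0 ≤ f s)
    (hL : f l.1 ≤ Q l j' f)
    (ho : ∀ i : D.I1, jj i = j' → 0 ≤ Q l j' f + 2 * Q l j f - f l.1 - 3 * f i.1) :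
    0 ≤ pr f x := by
  by_cases h1 : ∃ i : D.I1, jj i = j' ∧ 2 * Q l j f - 3 * f i.1 < 0
  · obtain ⟨i, hi, hu⟩ := h1
    have hil := i_ne l i
    have hQ : ∀ a, Q l a (Pi.single i.1 1) = mu a i.1 := fun a => by
      unfold Q
      rw [Finset.sum_eq_single i.1 (fun s _ hs' => by simp [hs']) (by simp [hil])]
      simp
    have m1 : mu j i.1 = 1 := mu_ne i (by rw [hi]; exact h)
    have m2 : mu j' i.1 = 2 := by rw [← hi, mu_jj]
    have h2 := Q_one l j hf hil
    rw [m1] at h2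
    have h3 := ho i hi
    refine key hm hx f (Pi.single i.1 1) 1 (3 * f i.1 - 2 * Q l j f)
      (Q l j' ((1 : ℤ) • f - (3 * f i.1 - 2 * Q l j f) • Pi.single i.1 1)) one_pos (by linarith)
      (fun s _ => ?_) (fun s hs' => ?_) ?_ (hV _ (valid_two hm (fun s hs' => ?_) h ?_ i hi ?_))
    · by_cases e : s = i.1 <;> simp [e]
    · have : s ≠ i.1 := fun e => by
        have := i.2
        rw [e] at hs'
        omega
      simp [this]
    · rw [Q_lin, hQ, m2, Finset.sum_eq_single i.1 (fun s _ hs' => by simp [hs']) (by simp [hil])]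
      simp only [Pi.single_eq_same]
      linarith
    · rw [Function.update_of_ne hs']
      have := hf s hs'
      by_cases e : s = i.1
      · simp only [e, Pi.sub_apply, Pi.smul_apply, smul_eq_mul, Pi.single_eq_same]
        linarith
      · simpa [e] using this
    · rw [Function.update_self, Q_update]
    · rw [Q_update, Q_lin, hQ, m1, Function.update_of_ne hil]
      simp only [Pi.sub_apply, Pi.smul_apply, smul_eq_mul, Pi.single_eq_same]
      ring
  · obtain ⟨H, S, hH, hS, hlow⟩ := low hm hx hf h hL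
    by_cases h2 : ∃ i : D.I1, jj i = j' ∧ 2 * Q l j f - 3 * f i.1 < 2 * H + 4 * S
    · obtain ⟨i, hi, hu⟩ := h2
      have hu' : 0 ≤ 2 * Q l j f - 3 * f i.1 := not_lt.1 fun e => h1 ⟨i, hi, e⟩
      obtain ⟨g, g0, g1, g2, g3, g4, g5, g6, g7⟩ :=
        hlow (2 * H + 4 * S) _ _ (by linarith) hu' hu.le hu' hu.le
      refine g0 (hV g (valid_two hm g1 h g2 i hi ?_))
      rw [g4, g7 i (by rw [hi]; exact h.symm)]
      ring
    · obtain ⟨g, g0, g1, g2, g3, g4, g5, g6, g7⟩ :=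
        hlow 1 1 1 one_pos zero_le_one le_rfl zero_le_one le_rfl
      have e1 : g ⬝ᵥ Lam l j = 0 := by rw [dot_Lam hm l h, g2, sub_self]
      refine g0 (hV g ⟨fun a ha => ?_, g1, fun i => ?_, Or.inl ⟨fun l' hl' => ?_,
        ⟨j, by simpa using h, e1⟩, fun i hi => Or.inl ⟨j, by simpa using h, fun e => hi ?_, e1⟩⟩⟩)
      · rcases cover hm h a with rfl | rfl
        · exact e1.ge
        · exact absurd rfl ha
      · rw [dot_t hm l h]
        rcases cover hm h (jj i) with e | e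
        · have h3 := Q_jj l g1 i
          have h4 := g1 _ (i_ne l i)
          rw [e] at h3
          linarith
        · have h3 : 2 * H + 4 * S ≤ 2 * Q l j f - 3 * f i.1 := not_lt.1 fun e' => h2 ⟨i, e, e'⟩
          have h4 := g7 i (by rw [e]; exact h.symm)
          linarith
      · rw [g5 l' hl', sub_self, zero_mul]
      · rw [g6 i e.symm, sub_self, zero_mul]

end Pool.Agent.Lib.CI.RED2

namespace Pool.Agent.Lib.CI

open Dat RED2

theorem st_RED2 : St_RED2 := by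
  intro D hm l o x hx hV f hG
  have hf : ∀ s, s ≠ l.1 → 0 ≤ f s := fun s hs' => by
    simpa using hG _ (Or.inr (Or.inl ⟨s, hs', rfl⟩))
  have hL : ∀ j j', j ≠ j' → some j ≠ o → f l.1 ≤ Q l j' f := fun j j' h hj => by
    have := hG _ (Or.inl ⟨j, hj, rfl⟩)
    rw [dot_Lam hm l h] at this
    linarith
  rcases o with _ | j'
  · obtain ⟨j, h⟩ := other hm ⟨0, by omega⟩
    rcases le_total (Q l ⟨0, by omega⟩ f) (Q l j f) with hQ | hQ
    · exact red_none hm hx hV hf h (hL _ _ h (by simp)) hQ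
    · exact red_none hm hx hV hf h.symm (hL _ _ h.symm (by simp)) hQ
  · obtain ⟨j, h⟩ := other hm j'
    refine red_some hm hx h hV hf (hL _ _ h (by simpa using h)) fun i hi => ?_
    have := hG _ (Or.inr (Or.inr ⟨i, by rw [hi], rfl⟩))
    rw [if_pos hm, dotProduct_smul, dot_om hm l i (j' := j) (by rw [hi]; exact h.symm), hi,
      smul_eq_mul] at this
    linarith

end Pool.Agent.Lib.CI
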