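import Pool.Agent.Lib.CI.LDefs

/-! Reduction of a functional to a valid one, at least three equations. -/

open Set Submodule

set_option linter.unusedSectionVars false
set_option linter.unusedVariables false

noncomputable section

namespace Pool.Agent.Lib.CI

open Dat

namespace RED3

/-- First hitting time along a segment, with integers. -/
lemma hit {α : Type} {S : Set α} (hS : S.Finite) (a b : α → ℤ) (ha : ∀ γ ∈ S, 0 ≤ a γ) :
    ∃ p q : ℤ, 0 < q ∧ 0 ≤ p ∧ (∀ γ ∈ S, 0 ≤ q * a γ - p * b γ) ∧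
      (p = q ∨ ∃ γ ∈ S, q * a γ - p * b γ = 0 ∧ 0 < b γ) := by
  by_cases h : {γ ∈ S | a γ < b γ}.Nonempty
  · obtain ⟨γ₀, ⟨h0, h1⟩, hm⟩ := Set.exists_min_image {γ ∈ S | a γ < b γ}
      (fun γ => (a γ : ℚ) / b γ) (hS.subset fun _ h => h.1) h
    have h2 := ha γ₀ h0
    refine ⟨a γ₀, b γ₀, by omega, h2, fun γ hγ => ?_, Or.inr ⟨γ₀, h0, by ring, by omega⟩⟩
    have h3 := ha γ hγ
    by_cases h4 : a γ < b γ
    · have h5 := hm γ ⟨hγ, h4⟩
      have h6 : (0 : ℚ) < b γ₀ := by exact_mod_cast (by omega : 0 < b γ₀)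
      have h7 : (0 : ℚ) < b γ := by exact_mod_cast (by omega : 0 < b γ)
      rw [div_le_div_iff₀ h6 h7] at h5
      have h8 : a γ₀ * b γ ≤ a γ * b γ₀ := by exact_mod_cast h5
      linarith
    · nlinarith
  · refine ⟨1, 1, one_pos, zero_le_one, fun γ hγ => ?_, Or.inl rfl⟩
    have : ¬a γ < b γ := fun h' => h ⟨γ, hγ, h'⟩
    omega

variable {D : Dat}

lemma GG_fin (l : D.I0) (o : Option (Fin D.m)) : (GG l o).Finite := by
  refine (((finite_range (Lam l)).union (finite_range fun s => (Pi.single s 1 : D.Λ))).union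
    (finite_range fun i => if D.m = 2 then (8 : ℤ) • om l i else tcl l i)).subset ?_
  rintro γ (⟨j, -, rfl⟩ | ⟨s, -, rfl⟩ | ⟨i, -, rfl⟩)
  · exact Or.inl (Or.inl ⟨j, rfl⟩)
  · exact Or.inl (Or.inr ⟨s, rfl⟩)
  · exact Or.inr ⟨i, rfl⟩

lemma pr_comb (f g : D.Λ) (p q : ℤ) (x : D.V) :
    pr (q • f - p • g) x = q * pr f x - p * pr g x := by
  simp only [pr, Finset.mul_sum, ← Finset.sum_sub_distrib]
  refine Finset.sum_congr rfl fun s _ => ?_
  simp only [Pi.sub_apply, Pi.smul_apply, smul_eq_mul]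
  push_cast
  ring

lemma dot_comb (f g γ : D.Λ) (p q : ℤ) :
    (q • f - p • g) ⬝ᵥ γ = q * (f ⬝ᵥ γ) - p * (g ⬝ᵥ γ) := by
  rw [sub_dotProduct, smul_dotProduct, smul_dotProduct, smul_eq_mul, smul_eq_mul]

/-- One move. -/
lemma step {l : D.I0} {o : Option (Fin D.m)} {x : D.V} {f : D.Λ} (g : D.Λ)
    (hf : ∀ γ ∈ GG l o, 0 ≤ f ⬝ᵥ γ) (hg : 0 ≤ pr g x)
    (H : ∀ p q : ℤ, 0 < q → (∀ γ ∈ GG l o, 0 ≤ (q • f - p • g) ⬝ᵥ γ) →
      (p = q ∨ ∃ γ ∈ GG l o, (q • f - p • g) ⬝ᵥ γ = 0 ∧ 0 < g ⬝ᵥ γ) →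
        0 ≤ pr (q • f - p • g) x) : 0 ≤ pr f x := by
  obtain ⟨p, q, hq, hp, h1, h2⟩ := hit (GG_fin l o) (fun γ => f ⬝ᵥ γ) (fun γ => g ⬝ᵥ γ) hf
  have h3 := H p q hq (fun γ hγ => by rw [dot_comb]; exact h1 γ hγ)
    (h2.imp id fun ⟨γ, hγ, e, e'⟩ => ⟨γ, hγ, by rw [dot_comb]; exact e, e'⟩)
  rw [pr_comb] at h3
  have hq' : (0 : ℝ) < q := by exact_mod_cast hq
  have hp' : (0 : ℝ) ≤ p := by exact_mod_cast hp
  have h4 := mul_nonneg hp' hg
  exact le_of_mul_le_mul_left (by linarith) hq'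

lemma Lam_l (l : D.I0) (j : Fin D.m) : Lam l j l.1 = -1 := by
  simp [Lam, zeta, aa, aW, hs, l.2, Finset.sum_apply]

lemma Lam_I0 (l : D.I0) (j : Fin D.m) {s : Fin D.k} (h : D.n s + 1 = D.m) (h' : s ≠ l.1) :
    Lam l j s = (D.m : ℤ) - 1 := by
  simp [Lam, zeta, aa, aW, hs, h, h', Finset.sum_apply]

lemma Lam_I1 (l : D.I0) (j : Fin D.m) {s : Fin D.k} (h : D.n s = D.m) :
    Lam l j s = (D.m : ℤ) + 1 - D.d j s := by
  have h1 : ¬D.n s + 1 = D.m := by omega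
  have h2 : s ≠ l.1 := fun e => h1 (e ▸ l.2)
  have h3 : ∑ j, (D.d j s : ℤ) = (D.m : ℤ) + 1 := by
    have := D.cy s
    rw [h] at this
    exact_mod_cast this
  simp [Lam, zeta, aa, aW, hs, h1, h2, Finset.sum_apply, h3]

/-- The combination of the functionals that are nonnegative on an end state. -/
def gw (l : D.I0) (w : D.Λ) : D.Λ := w + (((D.m : ℤ) - 1) * ∑ s, w s) • Pi.single l.1 1

lemma gw_ne (l : D.I0) (w : D.Λ) {s : Fin D.k} (h : s ≠ l.1) : gw l w s = w s := by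
  simp [gw, h]

lemma gw_Lam (l : D.I0) (w : D.Λ) (j : Fin D.m) :
    gw l w ⬝ᵥ Lam l j = ∑ s, w s * (Lam l j s - ((D.m : ℤ) - 1)) := by
  rw [gw, add_dotProduct, smul_dotProduct, single_dotProduct, Lam_l, dotProduct, Finset.mul_sum,
    smul_eq_mul, Finset.sum_mul, ← Finset.sum_add_distrib]
  exact Finset.sum_congr rfl fun s _ => by ring

lemma gw_pr {l : D.I0} {x : D.V} (hx : EndL l x) (w : D.Λ)
    (hw : ∀ s, w s = 0 ∨ 0 ≤ w s ∧ (D.n s + 1 = D.m ∧ s ≠ l.1 ∨ D.n s = D.m)) :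
    0 ≤ pr (gw l w) x := by
  have e : pr (gw l w) x = ∑ s, (w s : ℝ) * (x s + ((D.m : ℝ) - 1) * x l.1) := by
    simp only [pr, gw, Pi.add_apply, Pi.smul_apply, smul_eq_mul, Pi.single_apply, Int.cast_add,
      add_mul, Finset.sum_add_distrib, mul_add]
    congr 1
    rw [Finset.sum_eq_single l.1 (fun b _ hb => by simp [hb]) (by simp), ← Finset.sum_mul]
    push_cast
    simp only [if_true]
    ring
  rw [e]
  refine Finset.sum_nonneg fun s _ => ?_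
  rcases hw s with h | ⟨h, ⟨h1, h2⟩ | h1⟩
  · simp [h]
  · exact mul_nonneg (by exact_mod_cast h) (hx.c' ⟨s, h1⟩ fun e => h2 (congrArg Subtype.val e))
  · exact mul_nonneg (by exact_mod_cast h) (hx.b ⟨s, h1⟩)

section
variable {l : D.I0} {o : Option (Fin D.m)} {f : D.Λ} (hm : 3 ≤ D.m)
  (hf : ∀ γ ∈ GG l o, 0 ≤ f ⬝ᵥ γ)
include hf

lemma hz (j : Fin D.m) (hj : some j ≠ o) : 0 ≤ f ⬝ᵥ Lam l j := hf _ (Or.inl ⟨j, hj, rfl⟩)

lemma hh (s : Fin D.k) (hs : s ≠ l.1) : 0 ≤ f s := by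
  simpa using hf _ (Or.inr (Or.inl ⟨s, hs, rfl⟩))

include hm

lemma ht (i : D.I1) : 0 ≤ f ⬝ᵥ tcl l i := by
  by_cases h : o = some (jj i)
  · exact hf _ (Or.inr (Or.inr ⟨i, h, (if_neg (by omega)).symm⟩))
  have h1 := hz hf (jj i) fun e => h e.symm
  have hi : ¬D.n i.1 + 1 = D.m := by have := i.2; omega
  have hil : i.1 ≠ l.1 := fun e => hi (e ▸ l.2)
  have h2 : 2 * f i.1 ≤ f ⬝ᵥ aa (jj i) := by
    have := Finset.single_le_sum (f := fun s => f s * aa (jj i) s) (s := Finset.univ)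
      (fun s _ => by
        by_cases e : s = l.1
        · simp [e, aa, aW, l.2]
        · exact mul_nonneg (hh hf s e) (by simp [aa])) (Finset.mem_univ i.1)
    have e : aa (jj i) i.1 = 2 := by simp [aa, aW, hi, d_jj]
    simp only [e] at this
    rw [dotProduct]
    linarith
  have h3 : 0 ≤ f ⬝ᵥ hs {l.1} := Finset.sum_nonneg fun s _ => by
    by_cases e : s = l.1
    · simp [e, hs]
    · refine mul_nonneg (hh hf s e) ?_
      unfold hs
      split_ifs <;> norm_num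
  have h4 := hh hf i.1 hil
  rw [Lam, dotProduct_sub] at h1
  rw [tcl, dotProduct_sub, dotProduct_smul, dotProduct_smul, dotProduct_add, dotProduct_single,
    smul_eq_mul, smul_eq_mul]
  have h5 : (3 : ℤ) ≤ D.m := by exact_mod_cast hm
  nlinarith

lemma validB {i : D.I1} (hi : o = some (jj i))
    (h : f ⬝ᵥ (if D.m = 2 then (8 : ℤ) • om l i else tcl l i) = 0) : Valid l o f := by
  rw [if_neg (by omega)] at h
  exact ⟨hz hf, hh hf, ht hm hf, Or.inr ⟨i, hi, h, Or.inl hm⟩⟩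

end

lemma eq_of_tight {p q a : ℤ} (h : q * a - p * a = 0) (ha : 0 < a) : p = q := by
  have : (q - p) * a = 0 := by linarith
  rcases mul_eq_zero.1 this with h | h <;> omega

variable {l : D.I0} {o : Option (Fin D.m)} {x : D.V}

lemma third (hm : 3 ≤ D.m) (hx : EndL l x) (hV : ∀ f, Valid l o f → 0 ≤ pr f x) {f : D.Λ}
    (hf : ∀ γ ∈ GG l o, 0 ≤ f ⬝ᵥ γ) (h0 : ∀ l' : D.I0, l' ≠ l → f l'.1 = 0) {j : Fin D.m}
    (hj : some j ≠ o) (ht0 : f ⬝ᵥ Lam l j = 0) : 0 ≤ pr f x := by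
  let w : D.Λ := fun s => if D.n s = D.m ∧ D.d j s = 2 then f s else 0
  have hL : gw l w ⬝ᵥ Lam l j = 0 := by
    rw [gw_Lam]
    refine Finset.sum_eq_zero fun s _ => ?_
    by_cases h : D.n s = D.m ∧ D.d j s = 2
    · rw [Lam_I1 l j h.1, h.2]
      push_cast
      ring
    · simp only [w, if_neg h, zero_mul]
  refine step (gw l w) hf (gw_pr hx w fun s => ?_) fun p q hq hf' H => hV _ ?_
  · by_cases h : D.n s = D.m ∧ D.d j s = 2
    · refine Or.inr ⟨?_, Or.inr h.1⟩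
      simp only [w, if_pos h]
      exact hh hf s fun e => by have := l.2; rw [← e] at this; omega
    · exact Or.inl (if_neg h)
  have h1 : ∀ l' : D.I0, l' ≠ l → (q • f - p • gw l w) l'.1 = 0 := fun l' h => by
    have h2 : ¬(D.n l'.1 = D.m ∧ D.d j l'.1 = 2) := fun e => by have := l'.2; omega
    simp [gw_ne l w fun e => h (Subtype.ext e), h0 l' h, w, h2]
  have h2 : (q • f - p • gw l w) ⬝ᵥ Lam l j = 0 := by rw [dot_comb, ht0, hL]; ring
  have h3 : p = q → Valid l o (q • f - p • gw l w) := fun e =>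
    ⟨hz hf', hh hf', ht hm hf', Or.inl ⟨h1, ⟨j, hj, h2⟩, fun i hi => Or.inl ⟨j, hj, fun e' => hi (by
      have hil : i.1 ≠ l.1 := fun e => by have := l.2; have := i.2; rw [← e] at *; omega
      have h4 : w i.1 = f i.1 := if_pos ⟨i.2, e' ▸ d_jj i⟩
      simp [gw_ne l w hil, h4, e]), h2⟩⟩⟩
  rcases H with e | ⟨γ, ⟨j', hj', rfl⟩ | ⟨s, hs, rfl⟩ | ⟨i, hi, rfl⟩, e, e'⟩
  · exact h3 e
  · have hne : j' ≠ j := fun h => by rw [h, hL] at e'; omega
    refine ⟨hz hf', hh hf', ht hm hf', Or.inl ⟨h1, ⟨j, hj, h2⟩, fun i _ => Or.inl ?_⟩⟩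
    by_cases h : j = jj i
    · exact ⟨j', hj', h ▸ hne, e⟩
    · exact ⟨j, hj, h, h2⟩
  · rw [dot_comb] at e
    simp only [dotProduct_single, mul_one, gw_ne l w hs] at e e'
    by_cases h : D.n s = D.m ∧ D.d j s = 2
    · simp only [w, if_pos h] at e e'
      exact h3 (eq_of_tight e e')
    · simp [w, if_neg h] at e'
  · exact validB hm hf' hi e

lemma second (hm : 3 ≤ D.m) (hx : EndL l x) (hV : ∀ f, Valid l o f → 0 ≤ pr f x) {f : D.Λ}
    (hf : ∀ γ ∈ GG l o, 0 ≤ f ⬝ᵥ γ) (h0 : ∀ l' : D.I0, l' ≠ l → f l'.1 = 0) : 0 ≤ pr f x := by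
  obtain ⟨j, hj⟩ : ∃ j : Fin D.m, some j ≠ o := by
    by_cases h : some (⟨0, by omega⟩ : Fin D.m) = o
    · exact ⟨⟨1, by omega⟩, by rw [← h]; simp⟩
    · exact ⟨_, h⟩
  have hZ := hz hf j hj
  refine step (Pi.single l.1 (-(f ⬝ᵥ Lam l j + 1))) hf ?_ fun p q hq hf' H => ?_
  · rw [pr, Finset.sum_eq_single l.1 (fun b _ hb => by simp [hb]) (by simp), Pi.single_eq_same]
    have : (0 : ℝ) ≤ ((f ⬝ᵥ Lam l j : ℤ) : ℝ) := by exact_mod_cast hZ
    push_cast at this ⊢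
    nlinarith [hx.c]
  rcases H with e | ⟨γ, ⟨j', hj', rfl⟩ | ⟨s, hs, rfl⟩ | ⟨i, hi, rfl⟩, e, e'⟩
  · have := hz hf' j hj
    rw [dot_comb, single_dotProduct, Lam_l, e] at this
    nlinarith
  · refine third hm hx hV hf' (fun l' h => ?_) hj' e
    have : l'.1 ≠ l.1 := fun e => h (Subtype.ext e)
    simp [this, h0 l' h]
  · simp [hs] at e'
  · exact hV _ (validB hm hf' hi e)

end RED3

open RED3 in
theorem st_RED3 : St_RED3 := by
  intro D hm l o x hx hV f hf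
  let w : D.Λ := fun s => if D.n s + 1 = D.m ∧ s ≠ l.1 then f s else 0
  refine step (gw l w) hf (gw_pr hx w fun s => ?_) fun p q hq hf' H => ?_
  · by_cases h : D.n s + 1 = D.m ∧ s ≠ l.1
    · refine Or.inr ⟨?_, Or.inl h⟩
      simp only [w, if_pos h]
      exact hh hf s h.2
    · exact Or.inl (if_neg h)
  have h3 : p = q → 0 ≤ pr (q • f - p • gw l w) x := fun e =>
    second hm hx hV hf' fun l' h => by
      have : l'.1 ≠ l.1 := fun e => h (Subtype.ext e)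
      simp [gw_ne l w this, w, l'.2, this, e]
  rcases H with e | ⟨γ, ⟨j', hj', rfl⟩ | ⟨s, hs, rfl⟩ | ⟨i, hi, rfl⟩, e, e'⟩
  · exact h3 e
  · exfalso
    rw [gw_Lam, Finset.sum_eq_zero fun s _ => ?_] at e'
    · omega
    by_cases h : D.n s + 1 = D.m ∧ s ≠ l.1
    · rw [Lam_I0 l j' h.1 h.2]
      ring
    · simp only [w, if_neg h, zero_mul]
  · rw [dot_comb] at e
    simp only [dotProduct_single, mul_one, gw_ne l w hs] at e e'
    by_cases h : D.n s + 1 = D.m ∧ s ≠ l.1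
    · simp only [w, if_pos h] at e e'
      exact h3 (eq_of_tight e e')
    · simp [w, if_neg h] at e'
  · exact hV _ (validB hm hf' hi e)

end Pool.Agent.Lib.CI
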