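import Pool.Agent.Lib.CI.BlueB

open MvPolynomial Set Matrix WithZero Pool.Agent.Lib.MP_e39d36_ag Pool.Agent.Lib.MP_e39d36_ag.Var
  Pool.Agent.Lib.MP_cc3443_ag Pool.Agent.Lib.MV Pool.Agent.Lib.MV.End Pool.Agent.Lib.MV.Fb
  Pool.Agent.Lib.DU

set_option linter.unusedSectionVars false
set_option linter.unusedVariables false

noncomputable section

namespace Pool.Agent.Lib.CI

open Pool.Agent.Lib.CI.Dat
open Pool.Agent.Lib.MV.G3 (acl Ov)

namespace RES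

lemma lt_one_iff {x : ℤᵐ⁰} (hx : x ≠ 0) : x < 1 ↔ log x < 0 := by
  conv_lhs => rw [← exp_log hx, ← exp_zero]
  exact exp_lt_exp

lemma core (T : Tools) (hRESG : St_RESG) (hFLV : St_FLV) {D : Dat} {F : D.Fm} (hG : Gen F)
    {K : Type} [Field K] [Algebra ℂ K] (M : Mod F K) (l : D.I0) (u : D.Vr → K) (lam : K)
    (hL : M.Lv l u lam) (o : Option (Fin D.m)) (z : M.X.Pt) (v : Valuation K ℤᵐ⁰) (hv : Cv v)
    (hO : ∀ a, a ∈ M.X.O z ↔ v a ≤ 1) (hB : Big none v M.u (D.dm - 1)) (e : ℕ)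
    (hR : Big (some l) v u e) (he : D.dm ≤ e + oc o)
    (hz : ∀ ρ : D.Sl → K, (∀ σ, ρ σ ≠ 0) → Nm v (sc ρ u) → ∀ j,
      (v (sc ρ u (.inl j)) < 1 ↔ o = some j)) :
    ∃ (κ : Type) (_ : Field κ) (_ : Algebra ℂ κ) (u' : D.Vr → κ) (lam' : κ) (t : D.I1 → κ)
      (τ : D.Ch), Pt0 F l o u' lam' t ∧ (D.B M.x τ).toSubring ≤ M.X.O z ∧
        (∀ s, u' (.inr ⟨s, τ s⟩) = 1) ∧ ∀ P : MvPolynomial D.Hx ℂ,
          Un (M.X.O z) (aeval (D.rat M.x τ) P) → aeval (u' ∘ .inr) P ≠ 0 := by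
  obtain ⟨ρ, hρ, hN⟩ := T.nrm.ex v u hL.2.nz
  obtain ⟨κ, _, _, ⟨R⟩⟩ := T.red.ex hv
  have hτ : ∀ s, ∃ p : Fin (D.n s + 1), sc ρ u (.inr ⟨s, p⟩) = 1 := by
    intro s
    obtain ⟨a, h1, h2⟩ := hN.2 (some s)
    rcases a with j | ⟨t, p⟩
    · simp [sl] at h1
    · obtain rfl : t = s := by simpa [sl] using h1
      exact ⟨p, h2⟩
  choose τ hτ using hτ
  have hrat : ∀ a, sc ρ u (.inr a) = D.rat M.x τ a := by
    intro a
    have h1 := hτ a.1
    rw [T.sc.sc_inr, hL.1] at h1 ⊢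
    rw [rat, eq_div_iff (T.ch.ne M _)]
    simp only at h1
    linear_combination M.x a * h1
  have hle : ∀ a, v (D.rat M.x τ a) ≤ 1 := fun a => hrat a ▸ hN.1 _
  have hBτ : (D.B M.x τ).toSubring ≤ M.X.O z := by
    intro b hb
    obtain ⟨P, rfl⟩ := (T.ch.mem_iff M.x τ b).1 hb
    exact (hO _).2 (T.red.aev R _ hle P).1
  have hBu : Big none v u (D.dm - 1) := by
    refine T.nrm.big_agr none M.u u _ ?_ hL.2.nz hB
    rintro (j | a) h
    · exact absurd rfl h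
    · exact hL.1 a
  have hD := (hFLV D F hG none (some l) (by simp) K v hv u lam hL.2 hBu).2.2 κ R ρ hρ hN
  have hN1 : N1 (R.r ∘ sc ρ u) := (T.mp.red F R _ hN.1).2.1 hN.2
  have hrk : D.dm ≤ rk ((R.r ∘ sc ρ u) '' off (some l)) + oc o := by
    have h1 := (T.nrm.big_iff hv (some l) u ρ e hρ hN).1 hR
    rw [T.red.ind R ((off (some l)).finite_toSet.image _)
      (by rintro _ ⟨a, -, rfl⟩; exact hN.1 a), ← image_comp] at h1
    omega
  have hz' : ∀ j, (R.r ∘ sc ρ u) (.inl j) = 0 ↔ o = some j := fun j =>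
    (R.zero _ (hN.1 _)).trans (hz ρ hρ hN j)
  have ht : ∀ i, ∃ t, IsT F l i (R.r ∘ sc ρ u) t := by
    intro i
    refine T.la.xp_eq (Nx F l i (R.r ∘ sc ρ u)) ((R.r ∘ sc ρ u) ∘ cw i) ?_ ?_
    · obtain ⟨a, h1, h2⟩ := hN1 (some i.1)
      obtain ⟨p, rfl⟩ := T.sl.cw_surj i a h1
      intro h
      have h3 : (R.r ∘ sc ρ u) (cw i p) = 0 := congrFun h p
      exact one_ne_zero (h2.symm.trans h3)
    · rw [T.pi.nx_mul hG.hom]
      exact funext hD.e2
  choose t ht using ht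
  have hcomp : (R.r ∘ sc ρ u) ∘ Sum.inr = R.r ∘ D.rat M.x τ := funext fun a => congrArg R.r (hrat a)
  refine ⟨κ, inferInstance, inferInstance, R.r ∘ sc ρ u, _, t, τ,
    ⟨hD, hN1, ?_, hrk, hz', ht, ?_⟩, hBτ, ?_, ?_⟩
  · refine top_le_iff.1 ((hRESG D F K M z v hO κ R τ hBτ).ge.trans
      (IntermediateField.adjoin.mono _ _ _ ?_))
    rw [← hcomp]
    exact range_comp_subset_range _ _
  · intro i ho h0
    have h1 : xp (Nx F l i (R.r ∘ sc ρ u)) = 0 := funext fun q => by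
      rw [← ht i q, h0, zero_mul]; rfl
    have h2 := hG.tl l i κ _ ⟨hD.nz, hD.e2⟩ ((hz' _).2 ho) h1
    have h3 := T.sl.fr_off (some l) (R.r ∘ sc ρ u) {.inl (jj i)} hN1
      (by simp [off, sl, ts]) (by
        intro a ha
        rw [Finset.mem_singleton.1 ha]
        exact (hz' _).2 ho)
    rw [Finset.card_singleton] at h3
    rw [ho] at hrk
    simp only [oc, Option.elim] at hrk
    omega
  · intro s
    show R.r (sc ρ u (.inr ⟨s, τ s⟩)) = 1
    rw [hτ s]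
    exact (T.red.one R).2.1
  · intro P hP
    obtain ⟨h1, h2⟩ := T.red.aev R _ hle P
    rw [hcomp, ← h2]
    refine ((T.red.one R).2.2.1 _ h1).2 (le_antisymm h1 ?_)
    have h3 := (hO _).1 hP.2.2
    rwa [map_inv₀, inv_le_one₀ (zero_lt_iff.2 (v.ne_zero_iff.2 hP.1))] at h3

end RES

theorem st_RES (T : Tools) (hLEV : St_LEV) (hSEC : St_SEC) (hPD : St_PD) (hRESG : St_RESG)
    (hFLV : St_FLV) (hF2 : St_F2) (hTD : St_TD) : St_RES := by
  intro D F hG K _ _ M l u lam hL o z h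
  have hl := (hLEV D F hG K M l).2 u lam hL
  have hs := hSEC D F hG K M l u lam hL
  rcases h with ⟨rfl, hz⟩ | ⟨j, E, rfl, rfl, hE⟩
  · obtain ⟨h1, h2, h3, -⟩ := T.red.triv K
    refine RES.core T hRESG hFLV hG M l u lam hL none z (tv K) h1 (fun a => ?_)
      (T.nrm.big_mono _ _ _ _ (Nat.sub_le _ _) (hTD D F hG K M).2.2.1) D.dm hl.1
      (Nat.le_add_right _ _) fun ρ hρ hN j => ?_
    · rw [hz]
      exact iff_of_true trivial (h2 a)
    · rw [h3 _ fun h => hs.1 j ((T.sc.sc_zero ρ u _ hρ).1 h)]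
      simp
  · obtain ⟨h1, h2⟩ := (hPD D F hG K M).1 E
    refine RES.core T hRESG hFLV hG M l u lam hL (some j) E.1 (val E) h1 (isV E).2 h2 (D.dm - 1)
      ((hl.2.2.1 _ h1).1 h2) (by simp only [oc, Option.elim]; omega) fun ρ hρ hN j' => ?_
    have h3 := hs.2.2.2.2 E j' ρ hρ hN
    rw [RES.lt_one_iff ((val E).ne_zero_iff.2 fun h => hs.1 j' ((T.sc.sc_zero ρ u _ hρ).1 h))]
    constructor
    · intro h
      by_contra hj
      rcases hs.2.2.1 E j j' (fun h' => hj (congrArg some h')) with h4 | h4 <;> omega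
    · intro h
      obtain rfl : j = j' := Option.some.inj h
      omega

end Pool.Agent.Lib.CI
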