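import Pool.Agent.Lib.CI.BlueB

open MvPolynomial Set Matrix WithZero Pool.Agent.Lib.MP_e39d36_ag Pool.Agent.Lib.MP_e39d36_ag.Var
  Pool.Agent.Lib.MP_cc3443_ag Pool.Agent.Lib.MV Pool.Agent.Lib.MV.End Pool.Agent.Lib.MV.Fb
  Pool.Agent.Lib.DU

noncomputable section

namespace Pool.Agent.Lib.CI

open Pool.Agent.Lib.CI.Dat

theorem st_RESG (T : Tools) : St_RESG := by
  intro D F K _ _ M z v hv κ _ _ R τ hτ
  have h0 : ∀ a, v (D.rat M.x τ a) ≤ 1 := fun a =>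
    (hv _).1 (hτ (Algebra.subset_adjoin (mem_range_self a)))
  have h1 : ∀ p ∈ D.B M.x τ, R.r p ∈ IntermediateField.adjoin ℂ (range (R.r ∘ D.rat M.x τ)) :=
    fun p hp => by
      obtain ⟨P, rfl⟩ := (T.ch.mem_iff _ _ _).1 hp
      rw [(T.red.aev R _ h0 P).2]
      refine IntermediateField.algebra_adjoin_le_adjoin _ _ ?_
      rw [Algebra.adjoin_range_eq_range_aeval]
      exact ⟨P, rfl⟩
  refine eq_top_iff.2 fun b _ => ?_
  obtain ⟨a, ha, rfl⟩ := R.surj b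
  obtain ⟨q, hq, hu, hp⟩ := (T.ch.locOf M τ z hτ).2 a ((hv a).2 ha)
  have h2 := (hv _).1 (hτ hq)
  have h3 := (hv _).1 hu.2.2
  have h4 : v q = 1 := le_antisymm h2 (by
    rwa [map_inv₀, inv_le_one₀ ((Valuation.pos_iff v).2 hu.1)] at h3)
  rw [← mul_div_cancel_left₀ a hu.1, (T.red.one R).2.2.2.2.2 _ _ ((hv _).1 (hτ hp)) h4]
  exact div_mem (h1 _ hp) (h1 _ hq)

end Pool.Agent.Lib.CI
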