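import Pool.Agent.Lib.CI.BlueA

open MvPolynomial Set Pool.Agent.Lib.MV
open Pool.Agent.Lib.MV.G3 (acl Ov coe_acl subset_acl acl_mono mem_acl_of_alg)

noncomputable section

namespace Pool.Agent.Lib.CI

namespace RK

variable {Ω Ω' : Type} [Field Ω] [Algebra ℂ Ω] [Field Ω'] [Algebra ℂ Ω'] {S T U : Set Ω}

lemma ne_top (h : S.Finite) : (AlgebraicIndependent.matroid ℂ Ω).eRk S ≠ ⊤ :=
  ne_top_of_le_ne_top h.encard_lt_top.ne (Matroid.eRk_le_encard _ _)

lemma cast (h : S.Finite) : ((rk S : ℕ) : ℕ∞) = (AlgebraicIndependent.matroid ℂ Ω).eRk S :=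
  ENat.natCast_toNat (ne_top h)

lemma le (h : T.Finite) (h1 : S ⊆ acl T) : rk S ≤ rk T := by
  refine ENat.toNat_le_toNat ?_ (ne_top h)
  rw [coe_acl] at h1
  exact (Matroid.eRk_mono _ h1).trans_eq (Matroid.eRk_closure_eq _ _)

lemma mono (h : T.Finite) (h1 : S ⊆ T) : rk S ≤ rk T := le h (h1.trans (subset_acl T))

lemma union (h : S.Finite) (h' : T.Finite) : rk (S ∪ T) ≤ rk S + rk T := by
  have := Matroid.eRk_union_le_eRk_add_eRk (AlgebraicIndependent.matroid ℂ Ω) S T
  rw [← cast h, ← cast h', ← cast (h.union h')] at this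
  exact_mod_cast this

lemma sub (h : S.Finite) (h' : T.Finite) (h'' : U.Finite) :
    rk (S ∪ T ∪ U) + rk S ≤ rk (S ∪ T) + rk (S ∪ U) := by
  have := Matroid.eRk_inter_add_eRk_union_le (AlgebraicIndependent.matroid ℂ Ω) (S ∪ T) (S ∪ U)
  have e1 : S ∪ T ∪ (S ∪ U) = S ∪ T ∪ U := by
    ext x; simp only [mem_union]; tauto
  have f1 : ((S ∪ T) ∩ (S ∪ U)).Finite := (h.union h').inter_of_left _
  have h1 : rk S ≤ rk ((S ∪ T) ∩ (S ∪ U)) :=
    mono f1 (subset_inter subset_union_left subset_union_left)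
  rw [e1, ← cast f1, ← cast (h.union h'), ← cast (h.union h''),
    ← cast ((h.union h').union h'')] at this
  have h2 : rk ((S ∪ T) ∩ (S ∪ U)) + rk (S ∪ T ∪ U) ≤ rk (S ∪ T) + rk (S ∪ U) := by
    exact_mod_cast this
  omega

lemma fin_le (V : Finset Ω) : rk (V : Set Ω) ≤ V.card := by
  have := Matroid.eRk_le_encard (AlgebraicIndependent.matroid ℂ Ω) (V : Set Ω)
  rw [← cast V.finite_toSet, encard_coe_eq_coe_finsetCard] at this
  exact_mod_cast this

lemma card {ι : Type} (u : ι → Ω) (A : Finset ι) : rk (u '' A) ≤ A.card := by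
  classical
  rw [← Finset.coe_image]
  exact (fin_le _).trans Finset.card_image_le

lemma le_fr {ι : Type} (u : ι → Ω) (A : Finset ι) : rk (u '' A) ≤ fr u A := by
  classical
  refine le_trans (le ((Finset.finite_toSet _).image u) ?_) (card u _)
  rintro _ ⟨a, ha, rfl⟩
  by_cases h0 : u a = 0
  · rw [h0]; exact (acl _).zero_mem
  by_cases h1 : u a = 1
  · rw [h1]; exact (acl _).one_mem
  exact subset_acl _ ⟨a, Finset.mem_coe.2 (Finset.mem_filter.2 ⟨ha, h0, h1⟩), rfl⟩

lemma fr_add {ι : Type} (u : ι → Ω) (A Z : Finset ι) (h : Z ⊆ A)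
    (hZ : ∀ a ∈ Z, u a = 0 ∨ u a = 1) : fr u A + Z.card ≤ A.card := by
  classical
  unfold fr
  rw [← Finset.card_union_of_disjoint]
  · exact Finset.card_le_card (Finset.union_subset (Finset.filter_subset _ _) h)
  · refine Finset.disjoint_left.2 fun a h1 h2 => ?_
    have := (Finset.mem_filter.1 h1).2
    rcases hZ a h2 with h3 | h3
    · exact this.1 h3
    · exact this.2 h3

lemma fr_sum {ι ι' : Type} [Fintype ι] [Fintype ι'] (u : ι → Ω) (u' : ι' → Ω) :
    fr (Sum.elim u u') Finset.univ = fr u Finset.univ + fr u' Finset.univ := by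
  classical
  unfold fr
  rw [Finset.card_filter, Finset.card_filter, Finset.card_filter, Fintype.sum_sum_type]
  rfl

lemma fr_le {ι : Type} (u u' : ι → Ω) (A B : Finset ι)
    (h : ∀ a ∈ A, u a ≠ 0 → u a ≠ 1 → a ∈ B ∧ u' a ≠ 0 ∧ u' a ≠ 1) : fr u A ≤ fr u' B := by
  classical
  refine Finset.card_le_card fun a ha => ?_
  have := Finset.mem_filter.1 ha
  exact Finset.mem_filter.2 (h a this.1 this.2.1 this.2.2)

lemma ov {n : ℕ} (h : S.Finite) (h1 : Ov S T n) : rk (S ∪ T) ≤ rk S + n := by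
  obtain ⟨V, a, b⟩ := h1
  refine (le (h.union V.finite_toSet)
    (union_subset (subset_union_left.trans (subset_acl _)) b)).trans ?_
  exact (union h V.finite_toSet).trans (Nat.add_le_add_left ((fin_le V).trans a) _)

lemma rk_range {ι : Type} [Fintype ι] {a : ι → Ω} (ha : AlgebraicIndependent ℂ a) :
    rk (range a) = Fintype.card ι := by
  have h1 : (AlgebraicIndependent.matroid ℂ Ω).Indep (range a) := ha.to_subtype_range
  unfold rk
  rw [h1.eRk_eq_encard, ← image_univ, ha.injective.encard_image, encard_univ,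
    ENat.card_eq_coe_fintype_card, ENat.toNat_natCast]

lemma basis (h : S.Finite) :
    ∃ a : Fin (rk S) → Ω, (∀ i, a i ∈ S) ∧ AlgebraicIndependent ℂ a ∧ S ⊆ acl (range a) := by
  obtain ⟨I, hI⟩ := (AlgebraicIndependent.matroid ℂ Ω).exists_isBasis S (subset_univ _)
  have hf : I.Finite := h.subset hI.subset
  have h1 : I.ncard = rk S := by
    unfold rk; rw [hI.eRk_eq_encard]; rfl
  have := hf.to_subtype
  have e : I ≃ Fin (rk S) := Finite.equivFinOfCardEq (by rw [Nat.card_coe_set_eq, h1])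
  have h2 : AlgebraicIndependent ℂ (Subtype.val : I → Ω) := hI.indep
  refine ⟨fun i => e.symm i, fun i => hI.subset (e.symm i).2, h2.comp _ e.symm.injective, ?_⟩
  have h3 : range (fun i => (e.symm i : Ω)) = I := by
    ext x
    exact ⟨fun ⟨i, hi⟩ => hi ▸ (e.symm i).2, fun hx => ⟨e ⟨x, hx⟩, by simp⟩⟩
  rw [h3, coe_acl]
  exact hI.subset_closure

lemma le_iff {e : ℕ} (h : S.Finite) :
    e ≤ rk S ↔ ∃ a : Fin e → Ω, (∀ i, a i ∈ S) ∧ AlgebraicIndependent ℂ a := by
  constructor
  · intro he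
    obtain ⟨a, h1, h2, -⟩ := basis h
    exact ⟨fun i => a (Fin.castLE he i), fun i => h1 _, h2.comp _ (Fin.castLE_injective he)⟩
  · rintro ⟨a, h1, h2⟩
    have := mono h (range_subset_iff.2 h1)
    rwa [rk_range h2, Fintype.card_fin] at this

lemma mem_iff {z : Ω} : z ∈ acl S ↔ IsAlgebraic (Algebra.adjoin ℂ S) z :=
  mem_algebraicClosure_iff.trans IntermediateField.isAlgebraic_adjoin_iff

lemma map_acl (j : Ω →ₐ[ℂ] Ω') (S : Set Ω) (z : Ω) : j z ∈ acl (j '' S) ↔ z ∈ acl S := by
  rw [mem_iff, mem_iff, ← AlgHom.map_adjoin]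
  exact isAlgebraic_ringHom_iff_of_comp_eq
    ((Algebra.adjoin ℂ S).equivMapOfInjective j j.injective) j j.injective (by ext; rfl)

lemma map (j : Ω →ₐ[ℂ] Ω') (S : Set Ω) : rk (j '' S) = rk S := by
  obtain ⟨I, hI⟩ := (AlgebraicIndependent.matroid ℂ Ω).exists_isBasis S (subset_univ _)
  have h2 : AlgebraicIndependent ℂ (Subtype.val : I → Ω) := hI.indep
  have h3 : (AlgebraicIndependent.matroid ℂ Ω').Indep (j '' I) := by
    have := (h2.map' (f := j) j.injective).to_subtype_range
    rwa [range_comp, Subtype.range_coe] at this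
  have h4 : j '' S ⊆ (AlgebraicIndependent.matroid ℂ Ω').closure (j '' I) := by
    rintro _ ⟨x, hx, rfl⟩
    rw [← coe_acl]
    refine (map_acl j I x).2 ?_
    have := hI.subset_closure hx
    rwa [← coe_acl] at this
  have h5 := h3.isBasis_of_subset_of_subset_closure (image_mono hI.subset) h4
  unfold rk
  rw [h5.eRk_eq_encard, hI.eRk_eq_encard,
    (show Function.Injective j from j.injective).encard_image]

lemma ins {z : Ω} (h : S.Finite) (hz : z ∉ acl S) : rk (insert z S) = rk S + 1 := by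
  have h1 : z ∉ (AlgebraicIndependent.matroid ℂ Ω).closure S := by rwa [← coe_acl]
  have := Matroid.eRk_insert_eq_add_one (M := AlgebraicIndependent.matroid ℂ Ω) ⟨mem_univ z, h1⟩
  rw [← cast h, ← cast (h.insert z)] at this
  exact_mod_cast this

lemma acl_of (h : S.Finite) (h' : T.Finite) (h1 : rk (S ∪ T) ≤ rk S) : T ⊆ acl S := by
  intro z hz
  by_contra h2
  have h3 := mono (h.union h') (insert_subset (Or.inr hz) subset_union_left)
  rw [ins h h2] at h3
  omega

lemma root {z a b c : Ω} (ha : a ∈ acl S) (hb : b ∈ acl S) (hc : c ∈ acl S) (h0 : a ≠ 0)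
    (h : a * z ^ 2 + b * z + c = 0) : z ∈ acl S := by
  refine mem_acl_of_alg ⟨Polynomial.C ⟨a, ha⟩ * Polynomial.X ^ 2 +
    Polynomial.C ⟨b, hb⟩ * Polynomial.X + Polynomial.C ⟨c, hc⟩, fun h1 => h0 ?_, ?_⟩
  · have := congrArg (fun p => Polynomial.coeff p 2) h1
    simp only [Polynomial.coeff_add, Polynomial.coeff_C_mul, Polynomial.coeff_X_pow,
      Polynomial.coeff_X, Polynomial.coeff_C, Polynomial.coeff_zero] at this
    simpa using congrArg Subtype.val this
  · simp only [map_add, map_mul, map_pow, Polynomial.aeval_C, Polynomial.aeval_X]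
    exact h

lemma indet {V : Type} (S : Set Ω) (A : Finset V) (h : S.Finite) :
    rk (algebraMap Ω (FractionRing (MvPolynomial V Ω)) '' S ∪ (fun a => algebraMap
      (MvPolynomial V Ω) (FractionRing (MvPolynomial V Ω)) (X a)) '' A) = rk S + A.card := by
  let j := IsScalarTower.toAlgHom ℂ Ω (FractionRing (MvPolynomial V Ω))
  have f1 : (algebraMap Ω (FractionRing (MvPolynomial V Ω)) '' S).Finite := h.image _
  have f2 : ((fun a => algebraMap (MvPolynomial V Ω) (FractionRing (MvPolynomial V Ω)) (X a)) ''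
    (A : Set V)).Finite := A.finite_toSet.image _
  refine le_antisymm ((union f1 f2).trans (add_le_add (map j S).le (card _ A))) ?_
  obtain ⟨a, h1, h2, -⟩ := basis h
  have h3 : AlgebraicIndependent Ω fun i : A => algebraMap (MvPolynomial V Ω)
      (FractionRing (MvPolynomial V Ω)) (X i.1) :=
    ((MvPolynomial.algebraicIndependent_X V Ω).map'
      (f := IsScalarTower.toAlgHom Ω (MvPolynomial V Ω) (FractionRing (MvPolynomial V Ω)))
      (IsFractionRing.injective _ _)).comp _ Subtype.val_injective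
  have h4 := rk_range (h2.sumElim_comp h3)
  rw [Fintype.card_sum, Fintype.card_coe, Fintype.card_fin, add_comm] at h4
  rw [← h4]
  refine mono (f1.union f2) ?_
  rintro _ ⟨i | i, rfl⟩
  · exact Or.inr ⟨i.1, i.2, rfl⟩
  · exact Or.inl ⟨a i, h1 i, rfl⟩

end RK

theorem st_RK : St_RK where
  le := RK.le
  mono := RK.mono
  union := RK.union
  sub := RK.sub
  card := RK.card
  le_fr := RK.le_fr
  fr_add := RK.fr_add
  fr_sum := RK.fr_sum
  fr_le := RK.fr_le
  ov := RK.ov
  le_iff := RK.le_iff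
  basis := RK.basis
  map := RK.map
  map_acl := RK.map_acl
  ins := RK.ins
  acl_of := RK.acl_of
  adj := fun S => IntermediateField.adjoin_le_iff.2 (subset_acl S)
  root := RK.root
  pow := fun hn h => mem_acl_of_alg (IsAlgebraic.of_pow (Nat.pos_of_ne_zero hn)
    (isAlgebraic_algebraMap (⟨_, h⟩ : acl _)))
  indet := RK.indet

end Pool.Agent.Lib.CI
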