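import Pool.Agent.Lib.CI.BlueA

open MvPolynomial Set Matrix WithZero

set_option linter.unusedSectionVars false
set_option linter.unusedVariables false

noncomputable section

namespace Pool.Agent.Lib.CI

open Pool.Agent.Lib.CI.Dat

namespace SC

variable {D : Dat}

section chi

variable {Ω : Type} [Field Ω] {ρ : D.Sl → Ω}

lemma chi_add (hρ : ∀ σ, ρ σ ≠ 0) (w w' : D.Sl → ℤ) : chi ρ (w + w') = chi ρ w * chi ρ w' := by
  simp only [chi, Pi.add_apply, zpow_add₀ (hρ _), Finset.prod_mul_distrib]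

lemma chi_ne (hρ : ∀ σ, ρ σ ≠ 0) (w : D.Sl → ℤ) : chi ρ w ≠ 0 :=
  Finset.prod_ne_zero_iff.2 fun σ _ => zpow_ne_zero _ (hρ σ)

lemma chi_zero : chi ρ (0 : D.Sl → ℤ) = 1 := by simp [chi]

lemma chi_sum (hρ : ∀ σ, ρ σ ≠ 0) {ι : Type} (s : Finset ι) (w : ι → D.Sl → ℤ) :
    chi ρ (∑ a ∈ s, w a) = ∏ a ∈ s, chi ρ (w a) := by
  classical
  induction s using Finset.induction_on with
  | empty => simp [chi_zero]
  | insert a s ha ih => rw [Finset.sum_insert ha, Finset.prod_insert ha, chi_add hρ, ih]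

lemma chi_nsmul (hρ : ∀ σ, ρ σ ≠ 0) (n : ℕ) (w : D.Sl → ℤ) : chi ρ (n • w) = chi ρ w ^ n := by
  induction n with
  | zero => simp [chi_zero]
  | succ n ih => rw [succ_nsmul, chi_add hρ, ih, pow_succ]

lemma sc_eq (u : D.Vr → Ω) (a : D.Vr) : sc ρ u a = chi ρ (wt a) * u a := mul_comm _ _

lemma ev [Algebra ℂ Ω] (hρ : ∀ σ, ρ σ ≠ 0) (u : D.Vr → Ω) {P : MvPolynomial D.Vr ℂ}
    {w : D.Sl → ℤ} (h : P.IsWeightedHomogeneous wt w) :
    aeval (sc ρ u) P = chi ρ w * aeval u P := by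
  rw [P.as_sum, map_sum, map_sum, Finset.mul_sum]
  refine Finset.sum_congr rfl fun μ hμ => ?_
  rw [aeval_monomial, aeval_monomial, ← h (mem_support_iff.1 hμ), Finsupp.weight_apply,
    Finsupp.sum, chi_sum hρ, Finsupp.prod, Finsupp.prod, mul_left_comm, ← Finset.prod_mul_distrib]
  congr 1
  refine Finset.prod_congr rfl fun a _ => ?_
  rw [sc_eq, mul_pow, chi_nsmul hρ]

end chi

/-- The weight of the sum of the equations. -/
def wF (D : Dat) : D.Sl → ℤ := wc 1 (hs ∅)

lemma der {P : MvPolynomial D.Vr ℂ} {w : D.Sl → ℤ} (h : P.IsWeightedHomogeneous wt w)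
    (a : D.Vr) : (pderiv a P).IsWeightedHomogeneous wt (w - wt a) :=
  h.pderiv (sub_add_cancel _ _)

lemma hF {F : D.Fm} (hF : D.Hom F) (j : Fin D.m) :
    (rename Sum.inr (F j) : MvPolynomial D.Vr ℂ).IsWeightedHomogeneous wt (wc 0 (dd j)) := by
  intro μ hμ
  obtain ⟨ν, rfl, hν⟩ := coeff_rename_ne_zero _ _ _ hμ
  have h := hF j ν hν
  rw [Finsupp.weight_apply, Finsupp.sum_mapDomain_index (by simp) (by simp [add_smul]),
    Finsupp.sum_fintype _ _ (by simp)]
  funext σ
  cases σ with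
  | none => simp [wt, wc, Finset.sum_apply]
  | some s =>
    simp only [wc, Finset.sum_apply, Option.elim_some, dd, ← h, md, Fintype.sum_sigma]
    rw [Finset.sum_eq_single s (fun t _ ht => by simp [wt, Ne.symm ht]) (by simp)]
    simp [wt]

lemma wt_F (j : Fin D.m) : wt (D := D) (.inl j) + wc 0 (dd j) = wF D := by
  funext σ
  cases σ with
  | none => simp [wt, wc, wF]
  | some s =>
    by_cases h : D.n s + 1 = D.m
    · simp [wt, wc, wF, hs, dd, aW, h, d_I0 ⟨s, h⟩ j]
    · simp [wt, wc, wF, hs, dd, aW, h]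

lemma hG {F : D.Fm} (h : D.Hom F) (j : Fin D.m) :
    (X (.inl j) * rename Sum.inr (F j) : MvPolynomial D.Vr ℂ).IsWeightedHomogeneous wt (wF D) :=
  wt_F j ▸ (isWeightedHomogeneous_X ℂ wt _).mul (hF h j)

lemma hFF {F : D.Fm} (h : D.Hom F) : (FF F).IsWeightedHomogeneous wt (wF D) :=
  IsWeightedHomogeneous.sum _ _ _ fun j _ => hG h j

lemma sum_aW (s : Fin D.k) :
    ∑ j, (D.aW j s : ℤ) = if D.n s + 1 = D.m then 0 else (D.n s : ℤ) + 1 := by
  by_cases h : D.n s + 1 = D.m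
  · simp [aW, h]
  · have := D.cy s
    simp only [aW, h, if_false]
    exact_mod_cast this

lemma sum_co (τ : D.Ty) (σ : D.Sl) : ∑ p, wt (co τ p) σ = if σ = ts τ then (D.m : ℤ) else
    if τ = none then σ.elim 0 fun s => if D.n s + 1 = D.m then 0 else -((D.n s : ℤ) + 1) else 0 := by
  cases τ with
  | none =>
    cases σ with
    | none => simp [co, wt, ts]
    | some s =>
      simp only [co, wt, ts, Finset.sum_neg_distrib, sum_aW, Option.map_none, reduceCtorEq,
        if_false, if_true, Option.elim_some]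
      split_ifs <;> simp
  | some l => by_cases h : σ = some l.1 <;> simp [co, wt, ts, h]

lemma gam_eq {τ τ' : D.Ty} (h : τ ≠ τ') :
    gam τ τ' + wF D = ∑ p, (wF D - wt (co τ p)) + ∑ q, -wt (co τ' q) := by
  funext σ
  simp only [Pi.add_apply, Finset.sum_apply, Pi.sub_apply, Pi.neg_apply, Finset.sum_sub_distrib,
    Finset.sum_neg_distrib, sum_co, Finset.sum_const, Finset.card_univ, Fintype.card_fin,
    nsmul_eq_mul, gam, wF]
  rcases τ with _ | ⟨l, hl⟩ <;> rcases τ' with _ | ⟨l', hl'⟩ <;> rcases σ with _ | s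
  · exact absurd rfl h
  · exact absurd rfl h
  · simp [wc, ts]
  · by_cases e : s = l'
    · simp [wc, hs, ts, e, hl']
    · by_cases e' : D.n s + 1 = D.m <;> simp [wc, hs, ts, e, e']
  · simp [wc, ts]
  · by_cases e : s = l
    · simp [wc, hs, ts, e, hl]
    · by_cases e' : D.n s + 1 = D.m <;> simp [wc, hs, ts, e, e']
  · simp [wc, ts]
  · have hne : l ≠ l' := fun e => h (by subst e; rfl)
    by_cases e : s = l
    · simp [wc, hs, ts, e, hl, hne]
    · by_cases e2 : s = l'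
      · simp [wc, hs, ts, e2, hl', hne.symm]
      · by_cases e' : D.n s + 1 = D.m <;> simp [wc, hs, ts, e, e2, e']

lemma wt_co (l : D.I0) (p : Fin D.m) : wt (co (some l) p) = wc 0 (Pi.single l.1 1) := by
  funext σ
  cases σ <;> simp [co, wt, wc, Pi.single_apply]

lemma wt_cw (i : D.I1) (p : Fin (D.m + 1)) : wt (cw i p) = wc 0 (Pi.single i.1 1) := by
  funext σ
  cases σ <;> simp [cw, wt, wc, Pi.single_apply]

lemma hs_eq (l : D.I0) : hs (D := D) ∅ - Pi.single l.1 1 = hs {l.1} := by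
  funext s
  by_cases e : s = l.1
  · simp [hs, e, l.2]
  · simp [hs, e]

lemma wc_add (c c' : ℤ) (γ γ' : D.Λ) : wc c γ + wc c' γ' = wc (c + c') (γ + γ') := by
  funext σ
  cases σ <;> rfl

lemma wc_sub (c c' : ℤ) (γ γ' : D.Λ) : wc c γ - wc c' γ' = wc (c - c') (γ - γ') := by
  funext σ
  cases σ <;> rfl

section pt

variable {F : D.Fm} (h : D.Hom F) {Ω : Type} [Field Ω] [Algebra ℂ Ω] {ρ : D.Sl → Ω}
  (hρ : ∀ σ, ρ σ ≠ 0) (u : D.Vr → Ω)

include hρ in
lemma sc_zero (a : D.Vr) : sc ρ u a = 0 ↔ u a = 0 := by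
  rw [sc_eq, mul_eq_zero, or_iff_right (chi_ne hρ _)]

include h hρ

lemma eqs (τ : D.Ty) : Eqs F τ (sc ρ u) ↔ Eqs F τ u :=
  forall_congr' fun p => by
    rw [ev hρ u (der (hFF h) _), mul_eq_zero, or_iff_right (chi_ne hρ _)]

lemma adj (hLA : St_LA) {τ τ' : D.Ty} (hτ : τ ≠ τ') (p q : Fin D.m) :
    (Mx F τ τ' (sc ρ u)).adjugate q p = chi ρ (gam τ τ' + wt (co τ' q) + wt (co τ p)) *
      (Mx F τ τ' u).adjugate q p := by
  have e : Mx F τ τ' (sc ρ u) = Matrix.of fun p q =>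
      chi ρ (wF D - wt (co τ p)) * chi ρ (-wt (co τ' q)) * Mx F τ τ' u p q := by
    ext p q
    simp only [Mx, Matrix.of_apply]
    rw [ev hρ u (der (der (hFF h) _) _), ← chi_add hρ]
    congr 2
    abel
  have e2 := hLA.adj_sm (Mx F τ τ' u) (fun p => chi ρ (wF D - wt (co τ p)))
    (fun q => chi ρ (-wt (co τ' q))) p q
  rw [← e, ← chi_sum hρ, ← chi_sum hρ, ← chi_add hρ, ← chi_add hρ, ← gam_eq hτ] at e2
  apply mul_right_cancel₀ (chi_ne hρ (wF D - wt (co τ p) + -wt (co τ' q)))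
  rw [e2, mul_right_comm, ← chi_add hρ]
  congr 2
  abel

lemma isT (hLA : St_LA) (l : D.I0) (i : D.I1) (t : Ω) (ht : IsT F l i u t) :
    IsT F l i (sc ρ u) (chi ρ (wT l i) * t) := by
  intro q
  have e : Nx F l i (sc ρ u) = Matrix.of fun p q =>
      chi ρ (wc 1 (hs {l.1} - Pi.single i.1 1)) * Nx F l i u p q := by
    ext p q
    simp only [Nx, Matrix.of_apply, NP, map_sum, map_smul, Finset.mul_sum, mul_smul_comm]
    refine Finset.sum_congr rfl fun j _ => ?_
    rw [ev hρ u (der (der (hG h j) _) _), wt_co, wt_cw, wF, wc_sub, wc_sub, ← hs_eq l,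
      sub_zero, sub_zero, sub_right_comm]
  rw [e, hLA.xp_sm, Pi.smul_apply, ← ht q, sc_eq, ← chi_sum hρ, smul_eq_mul, mul_mul_mul_comm,
    ← chi_add hρ, wt_cw, wT, wc_add]
  congr 2
  funext σ
  cases σ with
  | none => simp [wc]
  | some s =>
    simp only [wc, Option.elim_some, Finset.sum_apply, Pi.add_apply, Pi.sub_apply, Pi.smul_apply,
      smul_eq_mul, Finset.sum_const, Finset.card_univ, Fintype.card_fin, nsmul_eq_mul]
    ring

lemma sx (hLA : St_LA) (i : D.I1) (p p' : Fin (D.m + 1)) :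
    Sx F i (sc ρ u) p p' = chi ρ (wS i) * Sx F i u p p' := by
  let w : Fin D.m → D.Sl → ℤ := fun j => if j = jj i then 0 else wc 0 (dd j - Pi.single i.1 1)
  have e : ∀ r, us F i (sc ρ u) r = chi ρ (∑ j, w j) • us F i u r := fun r => by
    rw [us, us, chi_sum hρ, ← hLA.xp_sm]
    congr 1
    ext j q
    by_cases hj : j = jj i
    · simp [w, hj, chi_zero]
    · simp only [w, hj, if_false, Matrix.of_apply, Matrix.updateRow_ne hj, Lm]
      rw [ev hρ u (der (hF h j) _), wt_cw, wc_sub, sub_zero]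
  have e2 : Hs F i (sc ρ u) =
      chi ρ (wc 0 (dd (jj i) - Pi.single i.1 1 - Pi.single i.1 1)) • Hs F i u := by
    ext q q'
    simp only [Hs, Matrix.of_apply, Matrix.smul_apply, smul_eq_mul]
    rw [ev hρ u (der (der (hF h _) _) _), wt_cw, wt_cw, wc_sub, wc_sub, sub_zero, sub_zero]
  rw [Sx, Sx, e, e, e2, Matrix.mulVec_smul, Matrix.smul_mulVec, smul_dotProduct, dotProduct_smul,
    dotProduct_smul, smul_eq_mul, smul_eq_mul, smul_eq_mul, ← mul_assoc, ← mul_assoc,
    ← chi_add hρ, ← chi_add hρ]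
  congr 2
  funext σ
  cases σ with
  | none =>
    have : ∀ j, w j none = 0 := fun j => by by_cases hj : j = jj i <;> simp [w, hj, wc]
    simp [wc, wS, Finset.sum_apply, this]
  | some s =>
    have h1 : ∑ j, w j (some s) = ∑ j, ((D.d j s : ℤ) - Pi.single (M := fun _ => ℤ) i.1 1 s) -
        ((D.d (jj i) s : ℤ) - Pi.single (M := fun _ => ℤ) i.1 1 s) := by
      rw [← Finset.sum_erase_eq_sub (Finset.mem_univ _),
        ← Finset.sum_erase Finset.univ (a := jj i) (by simp [w])]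
      exact Finset.sum_congr rfl fun j hj => by simp [w, Finset.ne_of_mem_erase hj, wc, dd]
    have h2 : ∑ j, (D.d j s : ℤ) = D.n s + 1 := by exact_mod_cast D.cy s
    simp only [Pi.add_apply, Finset.sum_apply, h1, Finset.sum_sub_distrib, h2, wS, wc, scol,
      Option.elim_some, Pi.sub_apply, dd, if_true, Finset.sum_const, Finset.card_univ,
      Fintype.card_fin, nsmul_eq_mul]
    by_cases e : s = i.1
    · simp [e, d_jj, i.2]
    · simp [e]
      ring

lemma ab (hm : D.m = 2) (l : D.I0) (i : D.I1) :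
    AA F hm l i (sc ρ u) = chi ρ (wc 0 (alp l i)) • AA F hm l i u ∧
      CC F hm l i (sc ρ u) = chi ρ (wc 0 (kap l i)) • CC F hm l i u := by
  have h0 : ∀ j, dd (D := D) j = aa j + hs ∅ := fun j => funext fun s => by
    by_cases e : D.n s + 1 = D.m
    · simp [dd, aa, aW, hs, e, d_I0 ⟨s, e⟩ j]
    · simp [dd, aa, aW, hs, e]
  have eA : AA F hm l i (sc ρ u) = chi ρ (wc 0 (alp l i)) • AA F hm l i u := by
    funext s e
    simp only [AA, map_sum, Pi.smul_apply, smul_eq_mul, Finset.mul_sum]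
    refine Finset.sum_congr rfl fun j hj => ?_
    have hj' := Finset.ne_of_mem_erase hj
    have hu : (Finset.univ : Finset (Fin D.m)) = {j, jj i} :=
      (Finset.eq_of_subset_of_card_le (Finset.subset_univ _)
        (by rw [Finset.card_pair hj', Finset.card_univ, Fintype.card_fin, hm])).symm
    rw [ev hρ u (der (der (hF h j) _) _), wt_co, c3, wt_cw, wc_sub, wc_sub, sub_zero, sub_zero,
      alp, hu, Finset.sum_pair hj', h0, ← hs_eq l]
    congr 3
    abel
  have eB : BB F hm l i (sc ρ u) =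
      chi ρ (wc 0 (aa (jj i) + hs {l.1} - (2 : ℤ) • Pi.single i.1 1)) • BB F hm l i u := by
    funext s e e'
    simp only [BB, Pi.smul_apply, smul_eq_mul, mul_smul_comm]
    rw [ev hρ u (der (der (der (hF h _) _) _) _), wt_co, c3, c3, wt_cw, wt_cw, wc_sub, wc_sub,
      wc_sub, sub_zero, sub_zero, sub_zero, h0, ← hs_eq l]
    congr 4
    abel
  refine ⟨eA, ?_⟩
  have e : wc 0 (kap l i) = wc 0 (alp l i) +
      wc 0 (aa (jj i) + hs {l.1} - (2 : ℤ) • Pi.single i.1 1) := by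
    rw [wc_add, add_zero, kap, alp]
    congr 1
    abel
  funext a b c
  simp only [CC, cAB, eA, eB, e, chi_add hρ, Pi.smul_apply, smul_eq_mul]
  ring

end pt

end SC

theorem st_SC (hSL : St_SL) (hPI : St_PI) (hLA : St_LA) : St_SC where
  sc_sc ρ ρ' u hρ hρ' := funext fun a => by
    simp only [sc, Pi.mul_apply, mul_zpow, Finset.prod_mul_distrib]
    ring
  sc_one u := funext fun a => by simp [sc]
  sc_inr ρ u a := by
    rw [sc, mul_comm, Finset.prod_eq_single (some a.1) (fun σ _ h => by simp [wt, h]) (by simp)]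
    simp [wt]
  sc_inl ρ u j := by
    simp only [sc, Fintype.prod_option, wt, zpow_one, _root_.zpow_neg, zpow_natCast,
      Finset.prod_inv_distrib, div_eq_mul_inv]
    ring
  sc_zero ρ u a hρ := by
    rw [SC.sc_eq, mul_eq_zero, or_iff_right (SC.chi_ne hρ _)]
  sc_agr τ ρ ρ' u u' hρ hu a ha := by
    rw [sc, sc, hu a ha]
    congr 1
    refine Finset.prod_congr rfl fun σ _ => ?_
    by_cases e : σ = ts τ
    · have : wt a σ = 0 := by
        subst e
        rcases a with j | b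
        · rcases τ with _ | l
          · exact absurd rfl ha
          · simp [ts, wt, aW, l.2]
        · exact if_neg (Ne.symm ha)
      rw [this, zpow_zero, zpow_zero]
    · rw [hρ σ e]
  chi_add ρ w w' hρ := ⟨SC.chi_add hρ w w', SC.chi_ne hρ w⟩
  log_chi {D Ω _} v ρ w hρ := by
    have : ∀ s : Finset D.Sl, log (v (∏ σ ∈ s, ρ σ ^ w σ)) = ∑ σ ∈ s, w σ * log (v (ρ σ)) := by
      intro s
      induction s using Finset.induction_on with
      | empty => simp
      | insert a s ha ih =>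
        rw [Finset.prod_insert ha, Finset.sum_insert ha, map_mul, log_mul, ih, map_zpow₀,
          log_zpow, smul_eq_mul]
        · exact (v.ne_zero_iff).2 (zpow_ne_zero _ (hρ a))
        · exact (v.ne_zero_iff).2 (Finset.prod_ne_zero_iff.2 fun σ _ => zpow_ne_zero _ (hρ σ))
    exact this _
  nz ρ u hρ := forall_congr' fun σ => exists_congr fun a => and_congr_right fun _ => by
    rw [Ne, SC.sc_eq, mul_eq_zero, or_iff_right (SC.chi_ne hρ _)]
  eqs h _ _ _ τ ρ u hρ := SC.eqs h hρ u τ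
  adj h _ _ _ τ τ' ρ u hτ hρ := SC.adj h hρ u hLA hτ
  dbl h _ _ _ τ τ' ρ u lam hτ hρ hd :=
    { nz := fun σ => (hd.nz σ).imp fun a ha => ⟨ha.1, mt (SC.sc_zero hρ u a).1 ha.2⟩
      e1 := (SC.eqs h hρ u τ).2 hd.e1
      e2 := (SC.eqs h hρ u τ').2 hd.e2
      ne := mul_ne_zero (SC.chi_ne hρ _) hd.ne
      adj := fun p q => by
        rw [SC.adj h hρ u hLA hτ, hd.adj, SC.chi_add hρ, SC.chi_add hρ, SC.sc_eq, SC.sc_eq]
        ring }
  isT h _ _ _ l i ρ u t hρ ht := SC.isT h hρ u hLA l i t ht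
  sx h _ _ _ i ρ u hρ := SC.sx h hρ u hLA i
  ab h _ _ _ hm l i ρ u hρ := SC.ab h hρ u hm l i

end Pool.Agent.Lib.CI
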