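import Pool.Agent.Lib.CI.BlueB

open MvPolynomial Set Matrix WithZero Pool.Agent.Lib.MP_e39d36_ag Pool.Agent.Lib.MP_e39d36_ag.Var
  Pool.Agent.Lib.MP_cc3443_ag Pool.Agent.Lib.MV Pool.Agent.Lib.MV.End Pool.Agent.Lib.MV.Fb
  Pool.Agent.Lib.DU

set_option linter.unusedSectionVars false
set_option linter.unusedVariables false

noncomputable section

namespace Pool.Agent.Lib.CI

open Pool.Agent.Lib.CI.Dat
open Pool.Agent.Lib.MV.G3 (acl Ov)

namespace SEC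

variable {D : Dat} {F : D.Fm} {K : Type} [Field K] [Algebra ℂ K] {v : Valuation K ℤᵐ⁰}
  {u : D.Vr → K} {ρ : D.Sl → K}

theorem cnt (T : Tools) (hG : Gen F) (hv : Cv v) {τ : D.Ty} (hu : Cfg F τ u) (hρ : ∀ σ, ρ σ ≠ 0)
    (hN : Nm v (sc ρ u)) {e : ℕ} (hB : Big τ v u e) (Z : Finset D.Vr) (hZ : Z ⊆ off τ)
    (hZ' : ∀ a ∈ Z, v (sc ρ u a) < 1) : e + Z.card ≤ D.dm := by
  obtain ⟨κ, _, _, ⟨R⟩⟩ := T.red.ex hv
  have h1 := (T.red.ind R ((off τ).finite_toSet.image _) (by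
    rintro _ ⟨a, -, rfl⟩; exact hN.1 a)).mp ((T.nrm.big_iff hv τ u ρ e hρ hN).mp hB)
  rw [← image_comp] at h1
  obtain ⟨r1, r2, r3, -⟩ := T.mp.red F R (sc ρ u) hN.1
  have h2 := hG.cnt τ κ _ ⟨r1.mp (T.nrm.nw hN), r3 τ ((T.sc.eqs hG.hom τ ρ u hρ).mpr hu.2)⟩
  have h3 := T.sl.fr_off τ _ Z (r2 hN.2) hZ fun a ha => (R.zero _ (hN.1 a)).mpr (hZ' a ha)
  omega

theorem log_prod {ι : Type} (S : Finset ι) (f : ι → K) (n : ι → ℕ) (hf : ∀ i, f i ≠ 0) :
    log (v (∏ i ∈ S, f i ^ n i)) = ∑ i ∈ S, (n i : ℤ) * log (v (f i)) := by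
  classical
  induction S using Finset.induction_on with
  | empty => simp
  | insert a S ha ih =>
    rw [Finset.prod_insert ha, Finset.sum_insert ha, map_mul, log_mul, ih, map_pow, log_pow,
      nsmul_eq_mul]
    · exact (map_ne_zero v).mpr (pow_ne_zero _ (hf a))
    · exact (map_ne_zero v).mpr (Finset.prod_ne_zero_iff.mpr fun i _ => pow_ne_zero _ (hf i))

theorem ld_eq (T : Tools) (hu : NZ u) (hρ : ∀ σ, ρ σ ≠ 0) (hN : Nm v (sc ρ u)) {j : Fin D.m}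
    (hj : u (.inl j) ≠ 0) : ld v u j = -log (v (sc ρ u (.inl j))) := by
  have h1 : ∀ σ, nu v u σ = -log (v (ρ σ)) := fun σ => by
    have h2 := T.nrm.nu_sc v ρ u hu hρ σ
    rw [T.nrm.nu_nw v _ (T.nrm.nw hN)] at h2
    omega
  rw [T.sc.sc_inl, map_div₀, log_div, map_mul, log_mul, log_prod _ _ _ fun s => hρ (some s), ld]
  · simp only [h1, mul_neg, Finset.sum_neg_distrib]
    ring
  · exact (map_ne_zero v).mpr (hρ _)
  · exact (map_ne_zero v).mpr hj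
  · exact (map_ne_zero v).mpr (mul_ne_zero (hρ _) hj)
  · exact (map_ne_zero v).mpr (Finset.prod_ne_zero_iff.mpr fun s _ => pow_ne_zero _ (hρ _))

theorem mem_off (l : D.I0) (j : Fin D.m) : (.inl j : D.Vr) ∈ off (some l) :=
  Finset.mem_filter.mpr ⟨Finset.mem_univ _, fun h => Option.some_ne_none _ h.symm⟩

end SEC

theorem st_SEC (T : Tools) (hLEV : St_LEV) (hPD : St_PD) : St_SEC := by
  intro D F hG K _ _ M l u lam hL
  obtain ⟨b1, -, b2, b3, b4⟩ := (hLEV D F hG K M l).2 u lam hL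
  have hu : Cfg F (some l) u := ⟨hL.2.nz, hL.2.e2⟩
  have h1 : ∀ j, u (.inl j) ≠ 0 := fun j hj => by
    obtain ⟨ρ, hρ, hN⟩ := T.nrm.ex (tv K) u hu.1
    have h2 := SEC.cnt T hG (T.red.triv K).1 hu hρ hN b1 {.inl j}
      (Finset.singleton_subset_iff.mpr (SEC.mem_off l j)) fun a ha => by
        rw [Finset.mem_singleton.mp ha, (T.sc.sc_zero ρ u _ hρ).mpr hj, map_zero]
        exact zero_lt_one
    rw [Finset.card_singleton] at h2
    omega
  have h2 : ∀ E j, M.LD u j E = ld (val E) u j := fun E j => by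
    have h3 : ∀ s, M.st s E = nu (val E) u (some s) := fun s => by rw [← b3 s]; rfl
    simp only [Mod.LD, Mod.std, Finsupp.add_apply, Finsupp.sub_apply, Finsupp.finsetSum_apply,
      Finsupp.smul_apply, h3, div_apply, ord_log, smul_eq_mul]
    rfl
  have h3 : ∀ (E : M.X.PD) j (ρ : D.Sl → K), (∀ σ, ρ σ ≠ 0) → Nm (val E) (sc ρ u) →
      M.LD u j E = -log (val E (sc ρ u (.inl j))) := fun E j ρ hρ hN => by
    rw [h2, SEC.ld_eq T hu.1 hρ hN (h1 j)]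
  have h4 : ∀ (E : M.X.PD) j (ρ : D.Sl → K), (∀ σ, ρ σ ≠ 0) → val E (sc ρ u (.inl j)) ≠ 0 :=
    fun E j ρ hρ => (map_ne_zero _).mpr fun h => h1 j ((T.sc.sc_zero ρ u _ hρ).mp h)
  refine ⟨h1, fun j => ⟨fun E => ?_, ?_⟩, fun E j j' hj => ?_, h2, h3⟩
  · obtain ⟨ρ, hρ, hN⟩ := T.nrm.ex (val E) u hu.1
    have h5 := (log_le_log (h4 E j ρ hρ) one_ne_zero).mpr (hN.1 (.inl j))
    rw [log_one] at h5
    rw [h3 E j ρ hρ hN]
    exact neg_nonneg.mpr h5
  · rw [Lam, (T.ch.std M).2.1]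
    exact LE.trans ⟨_, h1 j, rfl⟩ (b4.sub (LE.refl _))
  · by_contra h5
    rw [not_or] at h5
    obtain ⟨ρ, hρ, hN⟩ := T.nrm.ex (val E) u hu.1
    obtain ⟨c1, c2⟩ := (hPD D F hG K M).1 E
    have h6 : ∀ i, M.LD u i E ≠ 0 → val E (sc ρ u (.inl i)) < 1 := fun i hi =>
      lt_of_le_of_ne (hN.1 _) fun e => hi (by rw [h3 E i ρ hρ hN, e, log_one, neg_zero])
    classical
    have h7 := SEC.cnt T hG c1 hu hρ hN ((b2 _ c1).mp c2) {.inl j, .inl j'}
      (Finset.insert_subset (SEC.mem_off l j) (Finset.singleton_subset_iff.mpr (SEC.mem_off l j')))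
      fun a ha => by
        rcases Finset.mem_insert.mp ha with e | e
        · rw [e]; exact h6 j h5.1
        · rw [Finset.mem_singleton.mp e]; exact h6 j' h5.2
    rw [Finset.card_pair fun e => hj (Sum.inl.inj e)] at h7
    have := (T.sl.dm_add D).2.1
    omega

end Pool.Agent.Lib.CI
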