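import Pool.Agent.Lib.CI.BlueB
import Pool.Agent.Lib.CI.MP

/-! Symmetry, scaling and rationality for the two points of a fibre. -/

open MvPolynomial Set Matrix WithZero Pool.Agent.Lib.MP_e39d36_ag Pool.Agent.Lib.MP_e39d36_ag.Var
  Pool.Agent.Lib.MP_cc3443_ag Pool.Agent.Lib.MV Pool.Agent.Lib.MV.End Pool.Agent.Lib.MV.Fb
  Pool.Agent.Lib.DU

set_option linter.unusedSectionVars false
set_option linter.unusedVariables false

noncomputable section

namespace Pool.Agent.Lib.CI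

open Pool.Agent.Lib.CI.Dat
open Pool.Agent.Lib.MV.G3 (acl Ov)

namespace SIG2

variable {D : Dat} {F : D.Fm} {i : D.I1} {Ω : Type} [Field Ω] [Algebra ℂ Ω] {u u' : D.Vr → Ω}
  {lam : Ω}

theorem two_ne : (2 : Ω) ≠ 0 := by
  have := charZero_of_injective_algebraMap (algebraMap ℂ Ω).injective
  exact two_ne_zero

theorem alg {J : Type} (k : IntermediateField ℂ Ω) {w w' : J → Ω} {lam : Ω} (hl : lam ≠ 0)
    (hS : ∀ p q, lam * (w p * w' q + w q * w' p) ∈ k) (hw : ∀ q, w' q ∈ k) {p r : J}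
    (hp : w' p ≠ 0) (hr : w r = 1) (q : J) : w q ∈ k := by
  have h2 : (2 : Ω) ≠ 0 := two_ne
  have h1 : lam * w p ∈ k := by
    have h := div_mem (hS p p) (add_mem (hw p) (hw p))
    rwa [← mul_add, ← mul_assoc, mul_div_cancel_right₀ _
      (by rw [← two_mul]; exact mul_ne_zero h2 hp)] at h
  have h3 : ∀ q, lam * w q ∈ k := fun q => by
    have h := div_mem (sub_mem (hS p q) (mul_mem h1 (hw q))) (hw p)
    rwa [mul_add, ← mul_assoc, add_sub_cancel_left, ← mul_assoc,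
      mul_div_cancel_right₀ _ hp] at h
  have h := div_mem (h3 q) (h3 r)
  rwa [hr, mul_one, mul_div_cancel_left₀ _ hl] at h

theorem sx_mem (T : Tools) (hF : D.Hom F) (k : IntermediateField ℂ Ω)
    (h : ∀ a, sl a ≠ none → sl a ≠ some i.1 → u a ∈ k) (p p' : Fin (D.m + 1)) :
    Sx F i u p p' ∈ k := by
  obtain ⟨P, hP⟩ := MP.SxP F i p p'
  rw [hP]
  exact T.pi.mem k {a | sl a ≠ none ∧ sl a ≠ some i.1} u P (fun a ha => h a ha.1 ha.2)
    fun v hv => by rw [← hP, ← hP, (T.pi.lm_agr hF i u v fun a h1 h2 => hv a ⟨h1, h2⟩).2.2.2]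

theorem symm (T : Tools) (hF : D.Hom F) (h : Sig F i u u' lam) : Sig F i u' u lam :=
  ⟨h.c2, h.c1, fun a ha => (h.eq a ha).symm, h.ne, fun p p' => by
    rw [(T.pi.lm_agr hF i u u' fun a _ h2 => h.eq a h2).2.2.2, h.sym]
    ring⟩

theorem ex_ne (T : Tools) (h : NZ u) : ∃ q, u (cw i q) ≠ 0 := by
  obtain ⟨a, h1, h2⟩ := h (some i.1)
  obtain ⟨q, rfl⟩ := T.sl.cw_surj i a h1
  exact ⟨q, h2⟩

theorem upd_ne {ρ : D.Sl → Ω} {c : Ω} (hρ : ∀ σ, ρ σ ≠ 0) (hc : c ≠ 0) (σ : D.Sl) :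
    Function.update ρ (some i.1) c σ ≠ 0 := by
  rw [Function.update_apply]
  split_ifs
  exacts [hc, hρ σ]

theorem scale (T : Tools) (hF : D.Hom F) (h : Sig F i u u' lam) {ρ : D.Sl → Ω} {c : Ω}
    (hρ : ∀ σ, ρ σ ≠ 0) (hc : c ≠ 0) : ∃ u'', (∀ q, u'' (cw i q) = c * u' (cw i q)) ∧
      Sig F i (sc ρ u) u'' (chi ρ (wS i) * lam / (ρ (some i.1) * c)) ∧
      Agr none u'' (sc (Function.update ρ (some i.1) c) u') := by
  obtain ⟨v, h1, h2⟩ := T.sl.put_cw i (sc ρ u) fun q => c * u' (cw i q)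
  have h3 : Agr none v (sc (Function.update ρ (some i.1) c) u') := by
    rintro (j | b) ha
    · exact absurd rfl ha
    rw [T.sc.sc_inr]
    by_cases e : sl (.inr b) = some i.1
    · obtain ⟨q, e'⟩ := T.sl.cw_surj i _ e
      rw [show some b.1 = some i.1 from e, Function.update_self, e', h2]
    · rw [Function.update_of_ne (show some b.1 ≠ some i.1 from e), h1 _ e, T.sc.sc_inr, h.eq _ e]
  have h4 := (T.sc.nz ρ u hρ).mpr h.c1.1
  refine ⟨v, h2, ⟨⟨h4, (T.sc.eqs hF none ρ u hρ).mpr h.c1.2⟩, ⟨fun σ => ?_, fun p => ?_⟩, h1,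
    div_ne_zero (mul_ne_zero (T.sc.chi_add ρ _ 0 hρ).2 h.ne) (mul_ne_zero (hρ _) hc),
    fun p p' => ?_⟩, h3⟩
  · by_cases e : σ = some i.1
    · obtain ⟨q, hq⟩ := ex_ne (i := i) T h.c2.1
      exact ⟨cw i q, (T.sl.sl_cw i q).trans e.symm, by rw [h2]; exact mul_ne_zero hc hq⟩
    · obtain ⟨a, h5, h6⟩ := h4 σ
      exact ⟨a, h5, by rwa [h1 a (h5 ▸ e)]⟩
  · rw [← T.pi.eqs_agr hF none v _ h3 p]
    exact (T.sc.eqs hF none _ u' (upd_ne hρ hc)).mpr h.c2.2 p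
  · have h5 : ∀ q, sc ρ u (cw i q) = ρ (some i.1) * u (cw i q) := fun q => T.sc.sc_inr ρ u _
    have h6 := hρ (some i.1)
    rw [T.sc.sx hF i ρ u hρ, h.sym, h2, h2, h5, h5]
    field_simp

theorem ratl (T : Tools) (hF : D.Hom F) (h : Sig F i u u' lam) {r : Fin (D.m + 1)}
    (hr : u (cw i r) = 1) (k : IntermediateField ℂ Ω) (hk : ∀ a, u' (.inr a) ∈ k)
    (q : Fin (D.m + 1)) : u (cw i q) ∈ k := by
  obtain ⟨p, hp⟩ := ex_ne (i := i) T h.c2.1
  refine alg (w := fun q => u (cw i q)) (w' := fun q => u' (cw i q)) k h.ne (fun p q => ?_)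
    (fun q => hk _) hp hr q
  rw [← h.sym]
  refine sx_mem T hF k ?_ p q
  rintro (j | b) h1 h2
  · exact absurd rfl h1
  · exact h.eq _ h2 ▸ hk b

theorem algc (T : Tools) (hF : D.Hom F) (h : Sig F i u u' lam) {r : Fin (D.m + 1)}
    (hr : u (cw i r) = 1) (q : Fin (D.m + 1)) :
    u (cw i q) ∈ acl (u '' {a | sl a ≠ none ∧ sl a ≠ some i.1}) := by
  have hS := sx_mem (i := i) (u := u) T hF (acl (u '' {a | sl a ≠ none ∧ sl a ≠ some i.1}))
    fun a h1 h2 => G3.subset_acl _ ⟨a, ⟨h1, h2⟩, rfl⟩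
  by_cases e : u' (cw i r) = 0
  · obtain ⟨p, hp⟩ := ex_ne (i := i) T h.c2.1
    refine alg (w := fun q => u (cw i q)) (w' := fun q => lam * u' (cw i q)) _ one_ne_zero
      (fun p q => ?_) (fun q => ?_) (mul_ne_zero h.ne hp) hr q
    · have h1 := hS p q
      rwa [h.sym, mul_add, mul_left_comm, mul_left_comm lam, ← one_mul (_ + _)] at h1
    · have h1 := hS r q
      rwa [h.sym, hr, e, mul_zero, add_zero, one_mul] at h1
  · refine T.rk.root (hS r r) (neg_mem (add_mem (hS r q) (hS r q))) (hS q q) ?_ ?_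
    · rw [h.sym, hr, one_mul, ← two_mul]
      exact mul_ne_zero h.ne (mul_ne_zero two_ne e)
    · rw [h.sym, h.sym, h.sym, hr]
      ring

theorem gt (T : Tools) (hF : D.Hom F) (h : Sig F i u u' lam) (hg : Gt none u) : Gt none u' := by
  obtain ⟨ρ, hρ, h1, h2⟩ := hg
  obtain ⟨q, hq⟩ := ex_ne (i := i) T h.c2.1
  obtain ⟨v, h3, h4, h5⟩ := scale T hF h hρ (inv_ne_zero hq)
  obtain ⟨a, h6, h7⟩ := h1 (some i.1)
  obtain ⟨r, rfl⟩ := T.sl.cw_surj i a h6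
  have h8 : ∀ b, v (.inr b) ∈ IntermediateField.adjoin ℂ (v '' off (D := D) none) := fun b =>
    IntermediateField.subset_adjoin _ _ ⟨.inr b, Finset.mem_filter.mpr
      ⟨Finset.mem_univ _, Option.some_ne_none b.1⟩, rfl⟩
  have h9 : Gt none v := by
    refine ⟨1, fun _ => one_ne_zero, ?_⟩
    rw [T.sc.sc_one]
    refine ⟨fun σ => ?_, top_unique (h2 ▸ IntermediateField.adjoin_le_iff.mpr ?_)⟩
    · by_cases e : σ = some i.1
      · exact ⟨cw i q, (T.sl.sl_cw i q).trans e.symm, by rw [h3, inv_mul_cancel₀ hq]⟩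
      · obtain ⟨a, h9, h10⟩ := h1 σ
        exact ⟨a, h9, by rwa [h4.eq a (h9 ▸ e)]⟩
    · rintro _ ⟨a, ha, rfl⟩
      by_cases e : sl a = some i.1
      · obtain ⟨p, rfl⟩ := T.sl.cw_surj i a e
        exact ratl T hF h4 h7 _ h8 p
      · rw [← h4.eq a e]
        exact IntermediateField.subset_adjoin _ _ ⟨a, ha, rfl⟩
  have hu := upd_ne (i := i) hρ (inv_ne_zero hq)
  obtain ⟨ρ', h10, h11⟩ := T.nrm.gt_agr none v _ h5 ((T.sc.nz _ u' hu).mpr h.c2.1) h9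
  rw [T.sc.sc_sc _ _ _ h10 hu] at h11
  exact ⟨_, fun σ => mul_ne_zero (h10 σ) (hu σ), h11⟩

end SIG2

theorem st_SIG2 (T : Tools) : St_SIG2 := fun D F hF i Ω _ _ u u' lam h =>
  ⟨SIG2.symm T hF h, fun ρ c hρ hc => (SIG2.scale T hF h hρ hc).imp fun _ h => ⟨h.1, h.2.1⟩,
    fun ⟨_, hr⟩ => ⟨SIG2.ratl T hF h hr, SIG2.algc T hF h hr⟩, SIG2.gt T hF h⟩

end Pool.Agent.Lib.CI
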