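import Pool.Agent.Lib.CI.BlueB

open MvPolynomial Set Matrix WithZero Pool.Agent.Lib.MP_e39d36_ag Pool.Agent.Lib.MP_e39d36_ag.Var
  Pool.Agent.Lib.MP_cc3443_ag Pool.Agent.Lib.MV Pool.Agent.Lib.MV.End Pool.Agent.Lib.MV.Fb
  Pool.Agent.Lib.DU

set_option linter.unusedSectionVars false
set_option linter.unusedVariables false

noncomputable section

namespace Pool.Agent.Lib.CI

open Pool.Agent.Lib.CI.Dat
open Pool.Agent.Lib.MV.G3 (acl Ov)

namespace SIGX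

lemma alg {κ ι : Type} [Field κ] [CharZero κ] [Fintype ι] (H : Matrix ι ι κ) (hH : Hᵀ = H)
    (w b : ι → κ) (hw : w ⬝ᵥ H *ᵥ w = 0) : ∃ s t : κ,
      (s • w + t • b) ⬝ᵥ H *ᵥ (s • w + t • b) = 0 ∧ ∀ (μ : κ) p p',
        (μ • (w p • b - b p • w)) ⬝ᵥ H *ᵥ (μ • (w p' • b - b p' • w)) =
          μ ^ 2 * (w p * (s • w + t • b) p' + w p' * (s • w + t • b) p) := by
  have h : b ⬝ᵥ H *ᵥ w = w ⬝ᵥ H *ᵥ b := by
    rw [dotProduct_mulVec, ← mulVec_transpose, hH, dotProduct_comm]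
  refine ⟨b ⬝ᵥ H *ᵥ b / 2, -(w ⬝ᵥ H *ᵥ b), ?_, fun μ p p' => ?_⟩
  · simp only [mulVec_add, mulVec_smul, add_dotProduct, dotProduct_add, smul_dotProduct,
      dotProduct_smul, smul_eq_mul, hw, h]
    ring
  · simp only [mulVec_sub, mulVec_smul, sub_dotProduct, dotProduct_sub, smul_dotProduct,
      dotProduct_smul, smul_eq_mul, hw, h, Pi.add_apply, Pi.smul_apply]
    ring

end SIGX

theorem st_SIGX (T : Tools) : St_SIGX := by
  rintro D F hF i Ω _ _ u hc ⟨ρ, hρ, hN, hI⟩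
  have : CharZero Ω := charZero_of_injective_algebraMap (algebraMap ℂ Ω).injective
  have hS : Sx F i u ≠ 0 := fun h => by
    have h1 := hF.sg i Ω (sc ρ u) ⟨(T.sc.nz ρ u hρ).2 hc.1, (T.sc.eqs hF.hom none ρ u hρ).2 hc.2⟩
      (funext fun p => funext fun p' => by rw [T.sc.sx hF.hom i ρ u hρ, h]; simp)
    have h2 := T.sl.fr_off none (sc ρ u) ∅ hN.2 (by simp) (by simp)
    have h3 := ((T.red.triv Ω).2.2.2.2 _ _ ((Finset.finite_toSet _).image _)).1 hI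
    have h4 := (T.sl.dm_add D).2.1
    rw [Finset.card_empty] at h2
    omega
  have hE : ∀ j, aeval (u ∘ .inr) (F j) = 0 := fun j => T.pi.d_inl F u j ▸ hc.2 j
  obtain ⟨a, ha, hr⟩ := hc.1 (some i.1)
  obtain ⟨r, rfl⟩ := T.sl.cw_surj i a ha
  obtain ⟨b, hb, hb0, hb1⟩ := T.la.line (Lm F i u) (jj i) r
  have hw : ∀ j, Lm F i u j ⬝ᵥ (u ∘ cw i) = 0 := fun j => by
    rw [T.pi.lm_mul hF.hom, hE, mul_zero]
  obtain ⟨μ, hμ⟩ := T.la.xp2 (Lm F i u) (jj i) (u ∘ cw i) b r hr hb0 hb fun j hj => ⟨hw j, hb1 j hj⟩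
  obtain ⟨hH, hq⟩ := T.pi.hs_mul hF.hom i u
  obtain ⟨s, t, h1, h2⟩ := SIGX.alg _ hH (u ∘ cw i) b (by rw [hq, hE, mul_zero])
  obtain ⟨u', hA, hu⟩ := T.sl.put_cw i u (s • (u ∘ cw i) + t • b)
  have hu' : u' ∘ cw i = s • (u ∘ cw i) + t • b := funext hu
  have hs : ∀ p p', Sx F i u p p' =
      μ ^ 2 * (u (cw i p) * u' (cw i p') + u (cw i p') * u' (cw i p)) := fun p p' => by
    rw [Sx, us, us, hμ, hμ, h2, hu, hu]
    rfl
  obtain ⟨l1, l2, -⟩ := T.pi.lm_agr hF.hom i u u' fun a _ => hA a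
  refine ⟨u', μ ^ 2, hc, ⟨fun σ => ?_, fun j => (T.pi.d_inl F u' j).trans ?_⟩, hA,
    fun h => hS (funext fun p => funext fun p' => by rw [hs, h, zero_mul]; rfl), hs⟩
  · by_cases hσ : σ = some i.1
    · by_contra! h
      refine hS (funext fun p => funext fun p' => ?_)
      rw [hs, h _ (hσ ▸ T.sl.sl_cw i p), h _ (hσ ▸ T.sl.sl_cw i p')]
      simp
    · obtain ⟨a, ha, h⟩ := hc.1 σ
      exact ⟨a, ha, by rwa [hA a (ha ▸ hσ)]⟩
  · by_cases hj : j = jj i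
    · have h3 := (T.pi.hs_mul hF.hom i u').2
      rw [l2, hu', h1] at h3
      rw [hj]
      exact (mul_eq_zero.1 h3.symm).resolve_left two_ne_zero
    · have h3 := T.pi.lm_mul hF.hom i u' j
      rw [l1 j hj, hu', dotProduct_add, dotProduct_smul, dotProduct_smul, hw, hb1 j hj,
        d_ne_jj i hj] at h3
      simpa using h3.symm

end Pool.Agent.Lib.CI
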