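import Pool.Agent.Lib.CI.BlueA

open MvPolynomial Set Matrix WithZero Pool.Agent.Lib.MP_e39d36_ag Pool.Agent.Lib.MP_e39d36_ag.Var
  Pool.Agent.Lib.MP_cc3443_ag Pool.Agent.Lib.MV Pool.Agent.Lib.MV.End Pool.Agent.Lib.MV.Fb
  Pool.Agent.Lib.DU

set_option linter.unusedSectionVars false
set_option linter.unusedVariables false

noncomputable section

namespace Pool.Agent.Lib.CI

open Pool.Agent.Lib.CI.Dat

namespace SL

variable {D : Dat}

lemma sl_co (τ : D.Ty) (p : Fin D.m) : sl (co τ p) = ts τ := by cases τ <;> rfl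

lemma co_inj (τ : D.Ty) : Function.Injective (co τ) := fun p q h => by
  cases τ with
  | none => exact Sum.inl_injective h
  | some l =>
    exact Fin.cast_injective _
      (sigma_mk_injective (β := fun s => Fin (D.n s + 1)) (i := l.1) (Sum.inr_injective h))

lemma co_surj (τ : D.Ty) (a : D.Vr) (h : sl a = ts τ) : ∃ p, a = co τ p := by
  rcases τ with _ | l <;> rcases a with j | ⟨s, p⟩
  · exact ⟨j, rfl⟩
  · exact absurd h (Option.some_ne_none _)
  · exact absurd h.symm (Option.some_ne_none _)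
  · obtain rfl : s = l.1 := Option.some.inj h
    exact ⟨p.cast l.2, rfl⟩

lemma cw_inj (i : D.I1) : Function.Injective (cw i) := fun p q h =>
  Fin.cast_injective _
    (sigma_mk_injective (β := fun s => Fin (D.n s + 1)) (i := i.1) (Sum.inr_injective h))

lemma cw_surj (i : D.I1) (a : D.Vr) (h : sl a = some i.1) : ∃ p, a = cw i p := by
  rcases a with j | ⟨s, p⟩
  · exact absurd h.symm (Option.some_ne_none _)
  · obtain rfl : s = i.1 := Option.some.inj h
    exact ⟨p.cast (congrArg (· + 1) i.2), rfl⟩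

lemma li_ne (l : D.I0) (i : D.I1) : l.1 ≠ i.1 := fun h => by
  have h1 := l.2
  have h2 := i.2
  rw [h] at h1
  omega

lemma ts_ne (τ : D.Ty) (i : D.I1) : ts τ ≠ some i.1 := by
  rcases τ with _ | l
  · exact (Option.some_ne_none _).symm
  · exact fun h => li_ne l i (Option.some.inj h)

lemma put {Ω J : Type} {f : J → D.Vr} (hf : Function.Injective f) {σ : D.Sl}
    (h : ∀ p, sl (f p) = σ) (u : D.Vr → Ω) (w : J → Ω) :
    ∃ u', Agr σ u u' ∧ ∀ p, u' (f p) = w p :=
  ⟨Function.extend f w u, fun a ha => Function.extend_apply' _ _ _ fun ⟨p, e⟩ => ha (e ▸ h p),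
    fun p => hf.extend_apply _ _ p⟩

lemma dm_add (D : Dat) : D.dm + D.m = ∑ s, D.n s ∧ 3 ≤ D.dm ∧
    ∑ s, (D.n s + 1) = D.dm + D.m + D.k := by
  have := D.dim
  unfold dm
  refine ⟨by omega, by omega, ?_⟩
  rw [Finset.sum_add_distrib]
  simp only [Finset.sum_const, Finset.card_univ, Fintype.card_fin, smul_eq_mul, mul_one]
  omega

/-- The length of a slot. -/
def len (σ : D.Sl) : ℕ := σ.elim D.m fun s => D.n s + 1

lemma len_ts (τ : D.Ty) : len (ts τ) = D.m := by
  rcases τ with _ | l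
  · rfl
  · exact l.2

lemma cnt (S : Finset D.Sl) : (Finset.univ.filter fun a : D.Vr => sl a ∈ S).card =
    ∑ σ ∈ S, len σ := by
  rw [Finset.card_filter, Fintype.sum_sum_type, Fintype.sum_sigma, ← Finset.univ_inter S,
    ← Finset.sum_ite_mem, Fintype.sum_option, Finset.univ_inter]
  refine congrArg₂ _ ?_ (Finset.sum_congr rfl fun s _ => ?_)
  · by_cases h : none ∈ S <;> simp [sl, len, h]
  · by_cases h : some s ∈ S <;> simp [sl, len, h]

lemma cnt' (S : Finset D.Sl) {A : Finset D.Vr} (hA : ∀ a, a ∈ A ↔ sl a ∉ S) :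
    A.card + ∑ σ ∈ S, len σ = D.m + ∑ s, (D.n s + 1) := by
  have h : A = Finset.univ.filter fun a : D.Vr => sl a ∈ Sᶜ := by ext a; simp [hA]
  rw [h, cnt, Finset.sum_compl_add_sum, Fintype.sum_option]
  rfl

lemma fr_le {Ω : Type} [Field Ω] [Algebra ℂ Ω] (S : Finset D.Sl) {A : Finset D.Vr}
    (hA : ∀ a, a ∈ A ↔ sl a ∉ S) {u : D.Vr → Ω} (hu : N1 u) {Z : Finset D.Vr} (hZ : Z ⊆ A)
    (h0 : ∀ a ∈ Z, u a = 0) : fr u A + Z.card + (D.k + 1) ≤ A.card + S.card := by
  classical
  choose g h1 h2 using hu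
  have hg : Function.Injective g := fun σ σ' e => by rw [← h1 σ, e, h1]
  have h3 : (Sᶜ.image g).card + S.card = D.k + 1 := by
    rw [Finset.card_image_of_injective _ hg, Finset.card_compl_add_card]
    simp
  have h4 : Disjoint Z (Sᶜ.image g) := Finset.disjoint_left.mpr fun a ha hb => by
    obtain ⟨σ, -, rfl⟩ := Finset.mem_image.mp hb
    exact zero_ne_one ((h0 _ ha).symm.trans (h2 σ))
  have h5 : Disjoint (A.filter fun a => u a ≠ 0 ∧ u a ≠ 1) (Z ∪ Sᶜ.image g) :=
    Finset.disjoint_left.mpr fun a ha hb => by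
      rcases Finset.mem_union.mp hb with h | h
      · exact (Finset.mem_filter.mp ha).2.1 (h0 a h)
      · obtain ⟨σ, -, rfl⟩ := Finset.mem_image.mp h
        exact (Finset.mem_filter.mp ha).2.2 (h2 σ)
  have h6 : (A.filter fun a => u a ≠ 0 ∧ u a ≠ 1) ∪ (Z ∪ Sᶜ.image g) ⊆ A :=
    Finset.union_subset (Finset.filter_subset _ _) (Finset.union_subset hZ fun a ha => by
      obtain ⟨σ, hσ, rfl⟩ := Finset.mem_image.mp ha
      rw [hA, h1]
      exact Finset.mem_compl.mp hσ)
  have h7 := Finset.card_le_card h6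
  rw [Finset.card_union_of_disjoint h5, Finset.card_union_of_disjoint h4] at h7
  unfold fr
  omega

lemma mem_off (τ : D.Ty) (a : D.Vr) : a ∈ off τ ↔ sl a ∉ ({ts τ} : Finset D.Sl) := by simp [off]

lemma mem_bs (l : D.I0) (i : D.I1) (a : D.Vr) :
    a ∈ bs l i ↔ sl a ∉ ({none, some l.1, some i.1} : Finset D.Sl) := by simp [bs]

lemma card_off (τ : D.Ty) : (off τ).card = ∑ s, (D.n s + 1) := by
  have := cnt' _ (mem_off τ)
  rw [Finset.sum_singleton, len_ts] at this
  omega

lemma card_bs (l : D.I0) (i : D.I1) : (bs l i).card + 2 * D.m + 1 = ∑ s, (D.n s + 1) := by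
  have := cnt' _ (mem_bs l i)
  rw [Finset.sum_insert (by simp), Finset.sum_pair (by simpa using li_ne l i)] at this
  simp only [len, Option.elim, l.2, i.2] at this
  omega

lemma wt_md (μ : D.Hx →₀ ℕ) :
    Finsupp.weight (fun a : D.Hx => (Pi.single a.1 1 : Fin D.k → ℕ)) μ = D.md μ := by
  funext s
  rw [Finsupp.weight_eq_sum, Finset.sum_apply, Fintype.sum_sigma, Finset.sum_eq_single s]
  · simp [md]
  · intro t _ h
    simp [h.symm]
  · simp

lemma homK {κ : Type} [Field κ] (j : Fin D.m) (G : ∀ s, MvPolynomial (Fin (D.n s + 1)) κ)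
    (hG : ∀ s, (G s).IsHomogeneous (D.d j s)) :
    HomK (Pi.single j (∏ s, rename (Sigma.mk s) (G s)) : Fin D.m → MvPolynomial D.Hx κ) := by
  intro j' μ h
  by_cases e : j' = j
  · subst e
    rw [Pi.single_eq_same] at h
    rw [← wt_md, ← Finset.univ_sum_single (D.d j')]
    refine IsWeightedHomogeneous.prod _ _ _ (fun t _ ν hν => ?_) h
    obtain ⟨x, rfl, hx⟩ := coeff_rename_ne_zero _ _ _ hν
    rw [wt_md]
    funext s
    by_cases e : s = t
    · subst e
      rw [Pi.single_eq_same, ← hG s hx, Finsupp.weight_eq_sum]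
      simp [md, Finsupp.mapDomain_apply sigma_mk_injective]
    · rw [Pi.single_eq_of_ne e]
      exact Finset.sum_eq_zero fun p _ => Finsupp.mapDomain_of_notMem_range _ _
        fun ⟨q, hq⟩ => e (congrArg Sigma.fst hq).symm
  · rw [Pi.single_eq_of_ne e] at h
    exact absurd rfl h

end SL

theorem st_SL : St_SL where
  sl_co := SL.sl_co
  co_inj := SL.co_inj
  co_surj := SL.co_surj
  ts_inj := @fun _ _ _ h => Option.map_injective Subtype.val_injective h
  sl_cw _ _ := rfl
  cw_inj := SL.cw_inj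
  cw_surj := SL.cw_surj
  ts_ne := SL.ts_ne
  c3_surj hm i a h := by
    obtain ⟨p, rfl⟩ := SL.cw_surj i a h
    exact ⟨p.cast (congrArg (· + 1) hm), rfl⟩
  put_co τ := SL.put (SL.co_inj τ) (SL.sl_co τ)
  put_cw i := SL.put (SL.cw_inj i) fun _ => rfl
  dm_add := SL.dm_add
  card_sl σ := by simpa [SL.len] using SL.cnt {σ}
  card_off := SL.card_off
  card_of2 l i := by
    have := SL.cnt' {some l.1, some i.1} (A := of2 l i) fun a => by simp [of2]
    rw [Finset.sum_pair (by simpa using SL.li_ne l i)] at this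
    simp only [SL.len, Option.elim, l.2, i.2] at this
    omega
  card_bs := SL.card_bs
  fr_off {D} _ _ _ τ u Z hu hZ h0 := by
    have := SL.fr_le _ (SL.mem_off τ) hu hZ h0
    rw [SL.card_off, Finset.card_singleton, (SL.dm_add D).2.2] at this
    omega
  fr_bs {D} _ _ _ l i u hu := by
    have h1 := SL.fr_le _ (SL.mem_bs l i) hu (Finset.empty_subset _) (by simp)
    have h2 := SL.card_bs l i
    have h3 : ({none, some l.1, some i.1} : Finset D.Sl).card ≤ 3 := Finset.card_le_three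
    rw [(SL.dm_add D).2.2] at h2
    omega
  homK := SL.homK
  gn_mono h h' := h.imp fun _ h => ⟨h.1, fun F hF hQ => h' F hF (h.2 F hF hQ)⟩
  gn_all {D} ι _ p h := by
    have := Fintype.ofFinite ι
    choose Q h1 h2 using h
    refine ⟨∏ i, Q i, Finset.prod_ne_zero_iff.2 fun i _ => h1 i, fun F hF ha i => h2 i F hF ?_⟩
    rw [map_prod] at ha
    exact Finset.prod_ne_zero_iff.1 ha i (Finset.mem_univ i)
  gn_and h h' := by
    obtain ⟨Q, h1, h2⟩ := h
    obtain ⟨Q', h3, h4⟩ := h'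
    refine ⟨Q * Q', mul_ne_zero h1 h3, fun F hF ha => ?_⟩
    rw [map_mul] at ha
    exact ⟨h2 F hF (left_ne_zero_of_mul ha), h4 F hF (right_ne_zero_of_mul ha)⟩

end Pool.Agent.Lib.CI
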