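import Pool.Agent.Lib.CI.BlueB

open MvPolynomial Set Matrix WithZero Pool.Agent.Lib.MP_e39d36_ag Pool.Agent.Lib.MP_e39d36_ag.Var
  Pool.Agent.Lib.MP_cc3443_ag Pool.Agent.Lib.MV Pool.Agent.Lib.MV.End Pool.Agent.Lib.MV.Fb
  Pool.Agent.Lib.DU

set_option linter.unusedSectionVars false
set_option linter.unusedVariables false

noncomputable section

namespace Pool.Agent.Lib.CI

open Pool.Agent.Lib.CI.Dat

/-- The covering involutions act on the classes by the columns `scol`. -/
theorem st_SMOV (T : Tools) (hTD : St_TD) (hPD : St_PD) (hX : St_SIGX) (h2 : St_SIG2)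
    (hV : St_SIGV) (hA : St_ACT) : St_SMOV := by
  intro D F hF K _ _ M i
  obtain ⟨-, -, hB, hG, -⟩ := hTD D F hF K M
  have hc := (T.ch.cfg hF.hom M).2.1
  have hB1 := T.nrm.big_mono none M.u _ _ (Nat.sub_le D.dm 1) hB
  obtain ⟨u, lam, hS⟩ := hX D F hF i K M.u hc hB1
  have hS' := h2 D F hF.hom i K M.u u lam hS
  have hB' : Big none (tv K) u D.dm :=
    (hV D F hF i K (tv K) (T.red.triv K).1 M.u u lam hS hB1).1 _ hB
  obtain ⟨φ, μ, e, hμ, hu, hps, hle⟩ := hA D F hF K M u hS.c2 hB' (hS'.2.2.2 hG) fun v hv =>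
    ⟨fun h => (hV D F hF i K v hv M.u u lam hS h).1 _ h,
      fun h => (hV D F hF i K v hv u M.u lam hS'.1 h).1 _ h⟩
  have hst : ∀ (E : M.X.PD) s, nu (val E) M.u (some s) = M.st s E := by
    intro E s
    unfold Dat.nu
    rw [T.nrm.nu_some]
    rfl
  refine ⟨u, lam, φ, μ, e, hS, hμ, hu, hps, fun s => (hle s).trans ?_⟩
  by_cases hs : s = i.1
  · subst hs
    refine ⟨lam, hS.ne, ?_⟩
    ext E
    have hE := (hPD D F hF K M).1 E
    have h := (hV D F hF i K (val E) hE.1 M.u u lam hS hE.2).2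
    have h1 : M.SD u (some i.1) E = nu (val E) u (some i.1) := rfl
    have h3 : ∑ σ, wS i σ * nu (val E) M.u σ = M.std (scol i i.1) E + M.st i.1 E := by
      rw [← (T.ch.std M).2.2.2.1, ← Finsupp.add_apply, ← (T.ch.std M).1, Fintype.sum_option]
      simp only [wS, wc, Option.elim, zero_mul, zero_add, hst, Mod.std, Finsupp.coe_finsetSum,
        Finset.sum_apply, Finsupp.smul_apply, smul_eq_mul]
    rw [h3, hst] at h
    rw [h1, Finsupp.add_apply, div_apply, ord_log]
    omega
  · refine LE.of_eq ?_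
    have h4 : scol i s = Pi.single s 1 := if_neg hs
    rw [h4, (T.ch.std M).2.2.2.1]
    ext E
    rw [← hst]
    have h5 : sv u (some s) = sv M.u (some s) := by
      funext c
      exact hS.eq (.inr ⟨s, c.2 s⟩) fun h => hs (Option.some.inj h)
    show log (nm (val E) (sv u (some s))) = _
    rw [h5]
    rfl

end Pool.Agent.Lib.CI
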