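import Pool.Agent.Lib.CI.BlueB

open MvPolynomial Set Matrix WithZero Pool.Agent.Lib.MP_e39d36_ag Pool.Agent.Lib.MP_e39d36_ag.Var
  Pool.Agent.Lib.MP_cc3443_ag Pool.Agent.Lib.MV Pool.Agent.Lib.MV.End Pool.Agent.Lib.MV.Fb
  Pool.Agent.Lib.DU

set_option linter.unusedSectionVars false
set_option linter.unusedVariables false

noncomputable section

namespace Pool.Agent.Lib.CI

open Pool.Agent.Lib.CI.Dat
open Pool.Agent.Lib.MV.G3 (acl Ov)

namespace TD

variable {K : Type} [Field K] [Algebra ℂ K]

/-- The constants of a derivation. -/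
def cstF (θ : Derivation ℂ K K) : IntermediateField ℂ K where
  carrier := {z | θ z = 0}
  mul_mem' := fun {a b} (ha : θ a = 0) (hb : θ b = 0) => by
    show θ (a * b) = 0
    rw [Derivation.leibniz, ha, hb, smul_zero, smul_zero, add_zero]
  add_mem' := fun {a b} (ha : θ a = 0) (hb : θ b = 0) => by
    show θ (a + b) = 0
    rw [map_add, ha, hb, add_zero]
  algebraMap_mem' := fun c => θ.map_algebraMap c
  inv_mem' := fun a (ha : θ a = 0) => by
    show θ a⁻¹ = 0
    rw [Derivation.leibniz_inv, ha, smul_zero]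

theorem der_aeval (θ : Derivation ℂ K K) (k : IntermediateField ℂ K) (hk : ∀ c ∈ k, θ c = 0)
    (z : K) (p : Polynomial k) :
    θ (Polynomial.aeval z p) = Polynomial.aeval z (Polynomial.derivative p) * θ z := by
  induction p using Polynomial.induction_on' with
  | add p q hp hq => rw [map_add, map_add, hp, hq, map_add, map_add, add_mul]
  | monomial n a =>
    have h0 : θ (algebraMap k K a) = 0 := hk _ a.2
    rw [Polynomial.derivative_monomial, Polynomial.aeval_monomial, Polynomial.aeval_monomial,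
      Derivation.leibniz, h0, smul_zero, add_zero, Derivation.leibniz_pow, map_mul, map_natCast]
    simp only [smul_eq_mul, nsmul_eq_mul]
    ring

theorem kill (θ : Derivation ℂ K K) {S : Set K} (h : ∀ s ∈ S, θ s = 0) {z : K} (hz : z ∈ acl S) :
    θ z = 0 := by
  have : CharZero K := charZero_of_injective_algebraMap (algebraMap ℂ K).injective
  have h1 : IntermediateField.adjoin ℂ S ≤ cstF θ := IntermediateField.adjoin_le_iff.2 h
  have h2 : IsIntegral (IntermediateField.adjoin ℂ S) z := mem_algebraicClosure_iff'.1 hz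
  have h3 := der_aeval θ _ (fun c hc => h1 hc) z (minpoly _ z)
  rw [minpoly.aeval, map_zero] at h3
  refine (mul_eq_zero.1 h3.symm).resolve_left ?_
  exact (minpoly.irreducible h2).separable.aeval_derivative_ne_zero (minpoly.aeval _ z)

variable {D : Dat} {F : D.Fm}

theorem img (M : Mod F K) : M.u '' off (D := D) none = range M.x := by
  ext z
  constructor
  · rintro ⟨a | a, ha, rfl⟩
    · exact absurd rfl (Finset.mem_filter.1 ha).2
    · exact ⟨a, rfl⟩
  · rintro ⟨a, rfl⟩
    exact ⟨.inr a, Finset.mem_filter.2 ⟨Finset.mem_univ _, by simp [sl, ts]⟩, rfl⟩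

theorem top (T : Tools) (M : Mod F K) : IntermediateField.adjoin ℂ (range M.x) = ⊤ := by
  have h := T.ch.top M fun _ => 0
  have e : D.rat M.x (fun _ => 0) = M.x := by
    funext a
    rw [Dat.rat, M.one, _root_.div_one]
  rwa [e] at h

theorem lower (T : Tools) (hL : St_LDER) (M : Mod F K) : D.dm ≤ rk (range M.x) := by
  classical
  obtain ⟨a, ha, -, hs⟩ := T.rk.basis (finite_range M.x)
  choose ix hix using ha
  let Φ : (D.Hx → K) →ₗ[K] (Fin D.k → K) × (Fin D.m → K) × (Fin (rk (range M.x)) → K) :=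
    (LinearMap.funLeft K K fun s => (⟨s, 0⟩ : D.Hx)).prod
      ((Matrix.mulVecLin (Matrix.of fun j b => aeval M.x (pderiv b (F j)))).prod
        (LinearMap.funLeft K K ix))
  have hinj : Function.Injective Φ := by
    refine (injective_iff_map_eq_zero Φ).2 fun δ hδ => ?_
    have h1 := congrArg Prod.fst hδ
    have h2 := congrArg (fun w => w.2.1) hδ
    have h3 := congrArg (fun w => w.2.2) hδ
    obtain ⟨θ, hθ⟩ := hL D F K M δ (fun s => congrFun h1 s) fun j => congrFun h2 j
    funext b
    rw [← hθ]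
    refine kill θ ?_ (hs ⟨b, rfl⟩)
    rintro _ ⟨i, rfl⟩
    rw [← hix, hθ]
    exact congrFun h3 i
  have h := LinearMap.finrank_le_finrank_of_injective hinj
  simp only [Module.finrank_prod, Module.finrank_fintype_fun_eq_card, Fintype.card_fin,
    Fintype.card_sigma] at h
  have h' := (T.sl.dm_add D).2.2
  omega

end TD

theorem st_TD (T : Tools) (hL : St_LDER) : St_TD := by
  intro D F G K _ _ M
  obtain ⟨-, hc, hN⟩ := T.ch.cfg G.hom M
  have h1 := G.cnt none K M.u hc
  have h2 := T.sl.fr_off none M.u ∅ hN (Finset.empty_subset _) (by simp)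
  rw [TD.img] at h1
  have h3 := TD.lower T hL M
  have hr : rk (range M.x) = D.dm := by
    rw [Finset.card_empty] at h2
    omega
  have hacl : ∀ z, z ∈ acl (range M.x) := fun z =>
    T.rk.adj _ (by rw [TD.top T M]; exact IntermediateField.mem_top)
  obtain ⟨-, t1, -, -, t2⟩ := T.red.triv K
  refine ⟨hr, hacl, ⟨1, fun _ => one_ne_zero, ?_, ?_⟩, ⟨1, fun _ => one_ne_zero, ?_, ?_⟩, ?_⟩
  · rw [T.sc.sc_one]
    exact ⟨fun a => t1 _, hN⟩
  · rw [T.sc.sc_one, TD.img, t2 _ _ (finite_range _), hr]
  · rwa [T.sc.sc_one]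
  · rw [T.sc.sc_one, TD.img, TD.top T M]
  · rintro ⟨a, -, ha⟩
    have hi : AlgebraicIndependent ℂ a := by
      refine algebraicIndependent_iff.2 fun P hP => by_contra fun h0 => ?_
      have := ha P h0
      rw [hP] at this
      exact this.1 rfl
    have h4 : D.dm + 1 ≤ rk (range a) :=
      (T.rk.le_iff (finite_range a)).2 ⟨a, fun i => ⟨i, rfl⟩, hi⟩
    have h5 := T.rk.le (S := range a) (finite_range M.x) fun z _ => hacl z
    omega

end Pool.Agent.Lib.CI
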