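import Pool.Agent.Lib.CI.BlueB

open MvPolynomial Set Matrix WithZero Pool.Agent.Lib.MP_e39d36_ag Pool.Agent.Lib.MP_e39d36_ag.Var
  Pool.Agent.Lib.MP_cc3443_ag Pool.Agent.Lib.MV Pool.Agent.Lib.MV.End Pool.Agent.Lib.MV.Fb
  Pool.Agent.Lib.DU

set_option linter.unusedSectionVars false
set_option linter.unusedVariables false

noncomputable section

namespace Pool.Agent.Lib.CI

namespace TQ

variable {κ : Type} [Field κ]

lemma indep (c : Cf κ) (p m m' : Fin 3 → κ) (hp : cub c p = 0) (hm : m ⬝ᵥ p = 1)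
    (hm' : m' ⬝ᵥ p = 1) : tq c p m = tq c p m' := by
  have p0 : p ≠ 0 := fun e => by simp [e] at hm
  have h : (tdir c p m - tdir c p m') ⨯₃ p = 0 := by
    rw [← cross_anticomm, map_sub, cross_tdir hp hm, cross_tdir hp hm', sub_self, neg_zero]
  obtain ⟨t, ht⟩ := eq_smul_of_cross p0 h
  have e : tdir c p m = t • p + (1 : κ) • tdir c p m' := by rw [← ht]; module
  rw [tq, tq, e, cub_comb, pol_comb_self, hp, pol_tdir]
  module

lemma scale (c : Cf κ) (p m : Fin 3 → κ) (g s : κ) (hs : s ≠ 0) :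
    tq (g • c) (s • p) (s⁻¹ • m) = (g ^ 4 * s ^ 4) • tq c p m := by
  have e : tdir c (s • p) (s⁻¹ • m) = s • tdir c p m := by
    simp only [tdir, grad_smul, map_smul, LinearMap.smul_apply, smul_smul]
    congr 1
    field_simp
  rw [tq_csmul, tq, tq, e, cub_smul, pol_smul]
  module

variable (A : Fin 2 → Fin 3 → κ) (B : Fin 2 → Fin 3 → Fin 3 → κ)

lemma cub_eq (w : Fin 3 → κ) :
    cub (cAB A B) w = A 0 ⬝ᵥ w * qd (B 1) w - A 1 ⬝ᵥ w * qd (B 0) w := by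
  simp only [cub, tri, cAB, qd, dotProduct, Fin.sum_univ_three]; ring

lemma pol_eq (w b : Fin 3 → κ) (h0 : A 0 ⬝ᵥ w = 0) (h1 : A 1 ⬝ᵥ w = 0) :
    pol (cAB A B) w b = qd (B 1) w * A 0 ⬝ᵥ b - qd (B 0) w * A 1 ⬝ᵥ b := by
  have e : pol (cAB A B) w b = qd (B 1) w * A 0 ⬝ᵥ b - qd (B 0) w * A 1 ⬝ᵥ b
      + (qd (B 1) (w + b) - qd (B 1) w - qd (B 1) b) * A 0 ⬝ᵥ w
      - (qd (B 0) (w + b) - qd (B 0) w - qd (B 0) b) * A 1 ⬝ᵥ w := by
    simp only [pol, tri, cAB, qd, dotProduct, Fin.sum_univ_three, Pi.add_apply]; ring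
  rw [e, h0, h1]; ring

lemma perp (h : Fin 3 → κ) : ∃ a b : Fin 3 → κ, a ⨯₃ b ≠ 0 ∧ h ⬝ᵥ a = 0 ∧ h ⬝ᵥ b = 0 := by
  by_cases h0 : h 0 = 0
  · by_cases h1 : h 1 = 0
    · refine ⟨![1, 0, 0], ![0, 1, 0], fun e => ?_, ?_, ?_⟩
      · simpa [cross_apply] using congrFun e 2
      all_goals simp [dotProduct, Fin.sum_univ_three, h0, h1]
    · refine ⟨![1, 0, 0], ![0, -h 2, h 1], fun e => h1 ?_, ?_, ?_⟩
      · simpa [cross_apply] using congrFun e 1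
      · simp [dotProduct, Fin.sum_univ_three, h0]
      · simp [dotProduct, Fin.sum_univ_three]; ring
  · refine ⟨![-h 1, h 0, 0], ![-h 2, 0, h 0], fun e => h0 ?_, ?_, ?_⟩
    · simpa [cross_apply] using congrFun e 0
    all_goals simp [dotProduct, Fin.sum_univ_three]; ring

lemma line (h : A 0 ⨯₃ A 1 = 0) : ∃ a b, Ln (cAB A B) a b := by
  have : ∃ a b : Fin 3 → κ, a ⨯₃ b ≠ 0 ∧ (A 0 ⬝ᵥ a = 0 ∧ A 1 ⬝ᵥ a = 0) ∧
      A 0 ⬝ᵥ b = 0 ∧ A 1 ⬝ᵥ b = 0 := by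
    by_cases e : A 1 = 0
    · obtain ⟨a, b, h1, h2, h3⟩ := perp (A 0)
      exact ⟨a, b, h1, ⟨h2, by simp [e]⟩, h3, by simp [e]⟩
    · obtain ⟨a, b, h1, h2, h3⟩ := perp (A 1)
      obtain ⟨t, ht⟩ := eq_smul_of_cross e h
      exact ⟨a, b, h1, ⟨by simp [ht, h2], h2⟩, by simp [ht, h3], h3⟩
  obtain ⟨a, b, h1, ⟨h2, h3⟩, h4, h5⟩ := this
  refine ⟨a, b, h1, ?_, ?_, ?_, ?_⟩
  · rw [cub_eq, h2, h3]; ring
  · rw [pol_eq A B a b h2 h3, h4, h5]; ring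
  · rw [pol_eq A B b a h4 h5, h2, h3]; ring
  · rw [cub_eq, h4, h5]; ring

end TQ

theorem st_TQ (T : Tools) : St_TQ := by
  intro κ _ _
  refine ⟨TQ.indep, TQ.scale, fun A B => ⟨TQ.cub_eq A B, ?_, funext fun i => ?_, TQ.line A B⟩⟩
  · rw [TQ.cub_eq, dot_self_cross, dot_cross_self]; ring
  · rw [grad, TQ.pol_eq A B _ _ (dot_self_cross _ _) (dot_cross_self _ _)]
    simp

end Pool.Agent.Lib.CI
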