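import Pool.Agent.Lib.CI.BlueB

/-! Generic points give automorphisms of the function field. -/

open MvPolynomial Set Matrix WithZero Pool.Agent.Lib.MP_e39d36_ag Pool.Agent.Lib.MP_e39d36_ag.Var
  Pool.Agent.Lib.MP_cc3443_ag Pool.Agent.Lib.MV Pool.Agent.Lib.MV.End Pool.Agent.Lib.MV.Fb
  Pool.Agent.Lib.DU

set_option linter.unusedSectionVars false
set_option linter.unusedVariables false

noncomputable section

namespace Pool.Agent.Lib.CI

open Pool.Agent.Lib.CI.Dat
open Pool.Agent.Lib.MV.G3 (acl Ov)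

namespace UNIQ

/-- A specialisation that keeps the transcendence degree is injective. -/
theorem ker_le (hR : St_RK) {K H : Type} [Field K] [Algebra ℂ K] [Fintype H] (x y : H → K)
    (h : ∀ P : MvPolynomial H ℂ, aeval x P = 0 → aeval y P = 0)
    (hr : rk (range x) ≤ rk (range y)) :
    ∃ ψ : (aeval x : MvPolynomial H ℂ →ₐ[ℂ] K).range →ₐ[ℂ] K, Function.Injective ψ ∧
      ∀ P, ψ ((aeval x : MvPolynomial H ℂ →ₐ[ℂ] K).rangeRestrict P) = aeval y P := by
  let f : MvPolynomial H ℂ →ₐ[ℂ] K := aeval x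
  let ψ : f.range →ₐ[ℂ] K := AlgHom.liftOfSurjective f.rangeRestrict f.rangeRestrict_surjective
    (aeval y) fun P hP => h P (congrArg Subtype.val hP)
  have hψ : ∀ P, ψ (f.rangeRestrict P) = aeval y P := fun P =>
    AlgHom.liftOfSurjective_apply _ _ _ _ P
  refine ⟨ψ, ?_, hψ⟩
  obtain ⟨a, ha, hi⟩ := (hR.le_iff (finite_range y)).1 hr
  choose b hb using ha
  have hy : ∀ Q : MvPolynomial (Fin (rk (range x))) ℂ, aeval y (rename b Q) = 0 → Q = 0 := by
    intro Q hQ
    rw [aeval_rename, show y ∘ b = a from funext hb] at hQ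
    exact algebraicIndependent_iff.1 hi Q hQ
  have hx : AlgebraicIndependent ℂ (x ∘ b) :=
    algebraicIndependent_iff.2 fun Q hQ => hy Q (h _ (by rw [aeval_rename]; exact hQ))
  have hsub : range (x ∘ b) ⊆ range x := range_comp_subset_range b x
  have hacl : range x ⊆ acl (range (x ∘ b)) := by
    refine hR.acl_of (finite_range _) (finite_range _) ?_
    rw [union_eq_right.2 hsub]
    exact (hR.le_iff (finite_range _)).2 ⟨x ∘ b, fun i => mem_range_self i, hx⟩
  let R : Subalgebra ℂ K := Algebra.adjoin ℂ (range (x ∘ b))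
  have hle : R ≤ f.range := by
    refine Algebra.adjoin_le ?_
    rintro _ ⟨i, rfl⟩
    exact ⟨X (b i), aeval_X _ _⟩
  let _ : Algebra R f.range := (Subalgebra.inclusion hle).toAlgebra
  have : IsScalarTower R f.range K := IsScalarTower.of_algebraMap_eq fun _ => rfl
  rw [injective_iff_map_eq_zero]
  intro z hz
  by_contra hne
  have hza : IsAlgebraic R (algebraMap f.range K z) := by
    obtain ⟨P, rfl⟩ := f.rangeRestrict_surjective z
    have : aeval x P ∈ acl (range (x ∘ b)) :=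
      G3.aeval_mem (fun l => hacl (mem_range_self l)) P
    exact IntermediateField.isAlgebraic_adjoin_iff.1 (mem_algebraicClosure_iff.1 this)
  have hz' : IsAlgebraic R z := (isAlgebraic_algebraMap_iff Subtype.val_injective).1 hza
  refine Ideal.comap_ne_bot_of_algebraic_mem (I := RingHom.ker ψ) hne hz hz' ?_
  rw [eq_bot_iff]
  intro r hr0
  have hm : (r : K) ∈ (aeval (x ∘ b) : MvPolynomial _ ℂ →ₐ[ℂ] K).range := by
    rw [← Algebra.adjoin_range_eq_range_aeval]; exact r.2
  obtain ⟨Q, hQ⟩ := hm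
  have hQ' : aeval (x ∘ b) Q = (r : K) := hQ
  have e : algebraMap R f.range r = f.rangeRestrict (rename b Q) :=
    Subtype.ext (hQ'.symm.trans (aeval_rename _ _ _).symm)
  have h0 : ψ (algebraMap R f.range r) = 0 := hr0
  rw [e, hψ] at h0
  rw [hy Q h0, map_zero] at hQ'
  exact Subtype.ext hQ'.symm

/-- Two generating families with the same relations differ by an automorphism. -/
theorem aut (hR : St_RK) {K H : Type} [Field K] [Algebra ℂ K] [Fintype H] (x y : H → K)
    (h : ∀ P : MvPolynomial H ℂ, aeval x P = 0 → aeval y P = 0)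
    (hr : rk (range x) ≤ rk (range y)) (hx : IntermediateField.adjoin ℂ (range x) = ⊤)
    (hy : IntermediateField.adjoin ℂ (range y) = ⊤) : ∃ φ : K ≃ₐ[ℂ] K, ∀ a, φ (x a) = y a := by
  obtain ⟨ψ, hi, hψ⟩ := ker_le hR x y h hr
  have : IsFractionRing (aeval x : MvPolynomial H ℂ →ₐ[ℂ] K).range K := by
    refine IsFractionRing.of_field _ _ fun z => ?_
    have : z ∈ IntermediateField.adjoin ℂ (range x) := hx ▸ IntermediateField.mem_top
    obtain ⟨r, s, e⟩ := (IntermediateField.mem_adjoin_range_iff ℂ x z).1 this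
    exact ⟨⟨_, r, rfl⟩, ⟨_, s, rfl⟩, e⟩
  let φ : K →ₐ[ℂ] K := IsFractionRing.liftAlgHom (g := ψ) hi
  have hφ : ∀ a, φ (x a) = y a := fun a => by
    have := IsFractionRing.lift_algebraMap (K := K) (g := ψ.toRingHom) hi
      ((aeval x : MvPolynomial H ℂ →ₐ[ℂ] K).rangeRestrict (X a))
    have e : algebraMap (aeval x : MvPolynomial H ℂ →ₐ[ℂ] K).range K
      ((aeval x : MvPolynomial H ℂ →ₐ[ℂ] K).rangeRestrict (X a)) = x a := aeval_X _ _
    rw [e] at this
    exact this.trans ((hψ _).trans (aeval_X _ _))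
  have hs : Function.Surjective φ := by
    intro z
    have : IntermediateField.adjoin ℂ (range y) ≤ φ.fieldRange := by
      refine IntermediateField.adjoin_le_iff.2 ?_
      rintro _ ⟨a, rfl⟩
      exact ⟨x a, hφ a⟩
    exact this (hy ▸ IntermediateField.mem_top)
  exact ⟨AlgEquiv.ofBijective φ ⟨φ.injective, hs⟩, hφ⟩

end UNIQ

theorem st_UNIQ (T : Tools) (hTD : St_TD) : St_UNIQ := by
  intro D F hG K _ _ M u hc hB hg
  obtain ⟨ρ, hρ, hN, htop⟩ := hg
  have hτ : ∀ s, ∃ p, sc ρ u (.inr ⟨s, p⟩) = 1 := fun s => by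
    obtain ⟨a, ha, h1⟩ := hN (some s)
    rcases a with j | ⟨t, p⟩
    · cases ha
    · obtain rfl : t = s := Option.some.inj ha
      exact ⟨p, h1⟩
  choose τ hτ using hτ
  have him : sc ρ u '' off (D := D) none = range (sc ρ u ∘ .inr) := by
    ext z
    constructor
    · rintro ⟨a, ha, rfl⟩
      rcases a with j | a
      · exact absurd rfl (Finset.mem_filter.1 ha).2
      · exact ⟨a, rfl⟩
    · rintro ⟨a, rfl⟩
      exact ⟨.inr a, Finset.mem_filter.2 ⟨Finset.mem_univ _, Option.some_ne_none _⟩, rfl⟩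
  obtain ⟨hcv, hle, -, -, hind⟩ := T.red.triv K
  have hI := (T.nrm.big_iff hcv none u ρ D.dm hρ ⟨fun a => hle _, hN⟩).1 hB
  rw [him] at hI htop
  have hdm := (hind _ _ (finite_range _)).1 hI
  obtain ⟨h1, h2, -⟩ := hTD D F hG K M
  have hE := (T.sc.eqs hG.hom none ρ u hρ).2 hc.2
  obtain ⟨φ, hφ⟩ := UNIQ.aut T.rk (D.rat M.x τ) (sc ρ u ∘ .inr) (fun P hP => by
      have hs : Ideal.span (range F ∪ range fun s => X ⟨s, τ s⟩ - 1) ≤
          RingHom.ker (aeval (sc ρ u ∘ .inr) : MvPolynomial D.Hx ℂ →ₐ[ℂ] K) := by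
        rw [Ideal.span_le]
        rintro _ (⟨j, rfl⟩ | ⟨s, rfl⟩)
        · exact (T.pi.d_inl F _ j).symm.trans (hE j)
        · show aeval _ _ = _
          rw [map_sub, aeval_X, map_one]
          exact sub_eq_zero.2 (hτ s)
      exact hs ((M.hyp.2.2 τ P).1 hP))
    (((T.rk.le (finite_range _) fun z _ => h2 z).trans h1.le).trans hdm) (T.ch.top M τ) htop
  have hne : ∀ a, φ (M.x a) ≠ 0 := fun a => (map_ne_zero φ).2 (T.ch.ne M a)
  refine ⟨φ, fun s => (ρ (some s) * φ (M.x ⟨s, τ s⟩))⁻¹,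
    fun s => inv_ne_zero (mul_ne_zero (hρ _) (hne _)), fun a => ?_⟩
  have := hφ a
  rw [Dat.rat, map_div₀, Function.comp_apply, T.sc.sc_inr, div_eq_iff (hne _)] at this
  have h3 := hρ (some a.1)
  have h4 := hne ⟨a.1, τ a.1⟩
  rw [this]
  field_simp

end Pool.Agent.Lib.CI
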