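import Pool.Agent.Lib.CI.BlueB
import Pool.Agent.Lib.CI.H86T

open MvPolynomial Set Matrix WithZero Pool.Agent.Lib.MP_e39d36_ag Pool.Agent.Lib.MP_e39d36_ag.Var
  Pool.Agent.Lib.MP_cc3443_ag Pool.Agent.Lib.MV Pool.Agent.Lib.MV.End Pool.Agent.Lib.MV.Fb
  Pool.Agent.Lib.DU

set_option linter.unusedSectionVars false
set_option linter.unusedVariables false

noncomputable section

namespace Pool.Agent.Lib.CI

open Pool.Agent.Lib.CI.Dat
open Pool.Agent.Lib.MV.G3 (acl Ov)

namespace WG3

open Cardinal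

/-- A function without poles is constant. -/
lemma const {K : Type} [Field K] [Algebra ℂ K] {z : K} (h : ∀ P : Place K, z ∈ P.O) :
    ∃ a : ℂ, z = algebraMap ℂ K a := by
  have h1 : IsIntegral (algebraMap ℂ K).range z := isIntegral_of_val fun V hV => by
    by_cases e : V = ⊤
    · exact e ▸ ValuationSubring.mem_top z
    · exact h ⟨V, e, fun a => hV ⟨a, rfl⟩⟩
  let _ : Algebra ℂ (algebraMap ℂ K).range := (algebraMap ℂ K).rangeRestrict.toAlgebra
  have : IsScalarTower ℂ (algebraMap ℂ K).range K := IsScalarTower.of_algebraMap_eq fun _ => rfl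
  have : Algebra.IsIntegral ℂ (algebraMap ℂ K).range :=
    Algebra.isIntegral_of_surjective (algebraMap ℂ K).rangeRestrict_surjective
  have h2 : IsIntegral ℂ z := isIntegral_trans z h1
  obtain ⟨a, ha⟩ := minpoly.mem_range_of_degree_eq_one ℂ z
    (IsAlgClosed.degree_eq_one_of_irreducible ℂ (minpoly.irreducible h2))
  exact ⟨a, ha.symm⟩

variable {k L : Type} [Field k] [Field L] [Algebra ℂ k] [Algebra k L] [Algebra ℂ L]
  [IsScalarTower ℂ k L]

/-- The curve of a function field over a large field. -/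
lemma crv [IsAlgClosed k] (hk : #k ≤ 𝔠) (h : H86.FF k L) : ∃ C : Crv L,
    (∀ P (a : k), a ≠ 0 → C.v P (algebraMap k L a) = 1) ∧
    (∀ z, (∀ P, C.v P z ≤ 1) → ∃ a : k, z = algebraMap k L a) ∧
    (∀ z, {P | ¬C.v P z ≤ 1}.Finite) ∧
    ∀ P z, C.v P z ≤ 1 → ∃ a : k, C.v P (z - algebraMap k L a) < 1 := by
  obtain ⟨θ, -⟩ := H86.aut k hk ∅ finite_empty
  have := h.isFF θ
  refine ⟨⟨Place (H86.Tw θ L), fun P => P.val, fun P a => ?_, fun S => ?_⟩, fun P a ha => ?_,
    fun z hz => ?_, fun z => ?_, fun P z hz => ?_⟩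
  · rw [IsScalarTower.algebraMap_apply ℂ k L]
    exact P.mem_iff.1 (H86.Tw.const P _)
  · obtain ⟨θ', h1⟩ := H86.aut k hk S S.finite_toSet
    have := h.isFF θ'
    refine ⟨H86.Tw θ' L, inferInstance, inferInstance, this, RingEquiv.refl L, H86.Tw.pl θ' θ,
      fun s hs => ?_, fun P f => by rw [H86.Tw.pl_val]; rfl⟩
    rw [H86.Tw.alg, h1 s hs, IsScalarTower.algebraMap_apply ℂ k L]
    rfl
  · obtain ⟨a, rfl⟩ := θ.surjective a
    exact Place.val_const P (c := a) fun e => ha (by rw [e, map_zero])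
  · obtain ⟨a, ha⟩ := const (K := H86.Tw θ L) (z := z) fun P => P.mem_iff.2 (hz P)
    exact ⟨θ a, ha⟩
  · exact (finite_poles (K := H86.Tw θ L) z).subset fun P hP h1 => hP (P.mem_iff.1 h1)
  · obtain ⟨a, ha⟩ := Place.exists_res (K := H86.Tw θ L) P (z := z) (P.mem_iff.2 hz)
    exact ⟨θ a, ha⟩

/-- The residue map onto the constants. -/
lemma red (v : Valuation L ℤᵐ⁰) (h1 : ∀ a : k, a ≠ 0 → v (algebraMap k L a) = 1)
    (h2 : ∀ z, v z ≤ 1 → ∃ a : k, v (z - algebraMap k L a) < 1) :
    ∃ R : Red v k, ∀ a, R.r (algebraMap k L a) = a := by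
  choose! r hr using h2
  have hc : ∀ a : k, v (algebraMap k L a) ≤ 1 := fun a => by
    by_cases e : a = 0
    · simp [e]
    · exact (h1 a e).le
  have hu : ∀ z a, v z ≤ 1 → v (z - algebraMap k L a) < 1 → r z = a := fun z a hz h => by
    by_contra e
    have := v.map_sub_lt h (hr z hz)
    rw [sub_sub_sub_cancel_left, ← map_sub, h1 _ (sub_ne_zero.2 e)] at this
    exact this.false
  have hk : ∀ a, r (algebraMap k L a) = a := fun a => hu _ _ (hc a) (by simp)
  refine ⟨⟨r, fun c => ?_, fun a b ha hb => hu _ _ (v.map_add_le ha hb) ?_,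
    fun a b ha hb => hu _ _ (by rw [map_mul]; exact mul_le_one' ha hb) ?_, fun c => ?_,
    fun a ha => ⟨fun h => ?_, fun h => hu _ _ ha (by simpa using h)⟩,
    fun b => ⟨_, hc b, hk b⟩⟩, hk⟩
  · rw [IsScalarTower.algebraMap_apply ℂ k L]; exact hc _
  · rw [map_add, add_sub_add_comm]; exact v.map_add_lt (hr a ha) (hr b hb)
  · rw [show a * b - algebraMap k L (r a * r b) = (a - algebraMap k L (r a)) * b +
      (b - algebraMap k L (r b)) * algebraMap k L (r a) by rw [map_mul]; ring]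
    refine v.map_add_lt ?_ ?_ <;> rw [map_mul]
    exacts [mul_lt_one_of_lt_of_le (hr a ha) hb, mul_lt_one_of_lt_of_le (hr b hb) (hc _)]
  · rw [IsScalarTower.algebraMap_apply ℂ k L]; exact hk _
  · simpa [h] using hr a ha

end WG3

theorem st_WG3 (T : Tools) : St_WG3 := by
  intro Ω V _ _ _ y b S g hS hb hbS hlt hg hz
  classical
  have fin : (S ∪ range y).Finite := hS.union (finite_range y)
  obtain ⟨E, _, _, f, k, L, h1, h2, h3, h4, h5, h6, h7, ⟨u, hu⟩, h8⟩ := H86.wgc S g y b hS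
    g.finite_toSet hb (fun z _ => hz z) fun h => by
      rw [insert_eq_of_mem hbS] at h
      exact (T.rk.le hS (union_subset (G3.subset_acl _) h)).not_gt hlt
  have hL : ∀ z, f z ∈ L := fun z =>
    (IntermediateField.adjoin_le_iff.2 h7 : _ ≤ (L.restrictScalars ℂ).comap f)
      (hg ▸ IntermediateField.mem_top)
  let j : Ω →ₐ[ℂ] L := ⟨f.toRingHom.codRestrict L hL, fun a => Subtype.ext (f.commutes a)⟩
  obtain ⟨C, c1, c2, c3, c4⟩ := WG3.crv h2 h3
  have hk : ∀ z ∈ acl S, f z ∈ k := fun z hz => by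
    have e := H86.map_acl f hz
    have e1 : IsAlgebraic k (f z) := (mem_algebraicClosure_iff.1 e).ringHom_of_comp_eq
      (IntermediateField.inclusion (IntermediateField.adjoin_le_iff.2
        (image_subset_iff.2 h4))).toRingHom (RingHom.id E) (RingHom.injective _) rfl
    obtain ⟨a, ha⟩ := minpoly.mem_range_of_degree_eq_one k _
      (IsAlgClosed.degree_eq_one_of_irreducible k (minpoly.irreducible e1.isIntegral))
    exact ha ▸ a.2
  have hv : ∀ P, ∀ z ∈ acl S, z ≠ 0 → C.v P (j z) = 1 := fun P z hz h0 =>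
    c1 P ⟨f z, hk z hz⟩ fun e => h0 ((map_eq_zero f).1 (congrArg Subtype.val e))
  have h0 : ∀ P, C.v P (j (y b)) = 1 := fun P => hv P _ (G3.subset_acl _ hbS) hb
  have hn : ∀ P, 1 ≤ nm (C.v P) (j ∘ y) := fun P => h0 P ▸ le_nm (j ∘ y) b
  refine ⟨L, inferInstance, inferInstance, j, C, finsum_pos (fun P => ?_) ?_ ?_,
    fun P => ⟨hv P, fun w hw => ?_⟩⟩
  · simpa using (log_le_log one_ne_zero (one_pos.trans_le (hn P)).ne').2 (hn P)
  · by_contra! h
    obtain ⟨a, ha⟩ := c2 (j (y u)) fun P => (le_nm (j ∘ y) u).trans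
      ((log_le_log (one_pos.trans_le (hn P)).ne' one_ne_zero).1 (by simpa using h P))
    exact hu ((show f (y u) = a from congrArg Subtype.val ha).symm ▸ a.2)
  · refine (finite_iUnion fun u => c3 (j (y u))).subset fun P hP => ?_
    by_contra h
    simp only [mem_iUnion, mem_ofPred_eq, not_exists, not_not] at h
    exact hP (congrArg log (le_antisymm (nm_le.2 h) (hn P)))
  obtain ⟨R, hR⟩ := WG3.red (C.v P) (c1 P) (c4 P)
  have hw0 : j (y w) ≠ 0 := fun e => by simpa [← hw, e] using hn P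
  have hy : ∀ v, C.v P (j (y v) * j (y b) / j (y w)) ≤ 1 := fun v => by
    rw [map_div₀, map_mul, h0, mul_one, hw]
    exact div_le_one_of_le₀ (le_nm (j ∘ y) v) zero_le
  have hS' : ∀ z (h : z ∈ S), j z = algebraMap k L ⟨f z, h4 z h⟩ := fun z _ => rfl
  rw [T.red.ind R ((hS.image _).union (finite_range _)) (by
    rintro _ (⟨z, hz, rfl⟩ | ⟨v, rfl⟩)
    · by_cases e : z = 0
      · simp [e]
      · exact (hv P z (G3.subset_acl _ hz) e).le
    · exact hy v), ← T.rk.map k.val]
  have e1 := h8 (fun v => R.r (j (y v) * j (y b) / j (y w))) w (by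
    rw [mul_div_cancel_left₀ _ hw0, hS' _ hbS, hR]) fun l hl h => by
      have e2 := (T.red.dot R (fun u => algebraMap k L ⟨l u, hl u⟩)
        (fun v => j (y v) * j (y b) / j (y w)) (fun u => by
          by_cases e : (⟨l u, hl u⟩ : k) = 0
          · simp [e]
          · exact (c1 P _ e).le) hy).2
      have e3 : ∑ u, algebraMap k L ⟨l u, hl u⟩ * j (y u) = 0 := Subtype.ext (by
        rw [IntermediateField.coe_sum]; exact h)
      simp only [dotProduct, mul_div_assoc, ← mul_assoc, ← Finset.sum_mul, e3, zero_mul,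
        (T.red.one R).1, Function.comp_apply, hR] at e2
      simpa [mul_div_assoc] using congrArg Subtype.val e2.symm
  have e2 : f '' S ∪ range (fun v => (R.r (j (y v) * j (y b) / j (y w)) : E)) =
      k.val '' (R.r '' (j '' S ∪ range fun v => j (y v) * j (y b) / j (y w))) := by
    rw [image_union, image_union, ← range_comp, ← range_comp, image_image, image_image]
    exact congrArg₂ _ (image_congr fun z hz => by rw [hS' z hz, hR]; rfl) rfl
  rw [← e2, tsub_le_iff_right]
  have e4 := H86.rk_ne_top ((hS.image f).union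
    (finite_range fun v => (R.r (j (y v) * j (y b) / j (y w)) : E)))
  exact (ENat.toNat_le_toNat e1 (by simp [e4])).trans_eq (ENat.toNat_add e4 ENat.one_ne_top)

end Pool.Agent.Lib.CI
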