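import Pool.Agent.Lib.CI.BlueB

open MvPolynomial Set Matrix WithZero Pool.Agent.Lib.MP_e39d36_ag Pool.Agent.Lib.MP_e39d36_ag.Var
  Pool.Agent.Lib.MP_cc3443_ag Pool.Agent.Lib.MV Pool.Agent.Lib.MV.End Pool.Agent.Lib.MV.Fb
  Pool.Agent.Lib.DU

set_option linter.unusedSectionVars false
set_option linter.unusedVariables false

noncomputable section

namespace Pool.Agent.Lib.CI

open Pool.Agent.Lib.CI.Dat
open Pool.Agent.Lib.MV.G3 (acl subset_acl acl_le)

namespace WGC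

/-- Adjoining roots. -/
lemma roots {Ω V : Type} [Field Ω] [Algebra ℂ Ω] [Fintype V] (u : V → Ω) (w : V → ℕ)
    (hw : ∀ a, w a ≠ 0) (g : Finset Ω) (hg : IntermediateField.adjoin ℂ (g : Set Ω) = ⊤) :
    ∃ (Ω' : Type) (_ : Field Ω') (_ : Algebra ℂ Ω') (ι : Ω →ₐ[ℂ] Ω') (y : V → Ω') (g' : Finset Ω'),
      (∀ a, y a ^ w a = ι (u a)) ∧ IntermediateField.adjoin ℂ (g' : Set Ω') = ⊤ ∧
        (g' : Set Ω') ⊆ range ι ∪ range y := by
  classical
  let ι₀ : Ω →ₐ[ℂ] AlgebraicClosure Ω := IsScalarTower.toAlgHom ℂ Ω (AlgebraicClosure Ω)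
  choose Y hY using fun a => IsAlgClosed.exists_pow_nat_eq (ι₀ (u a)) (Nat.pos_of_ne_zero (hw a))
  let E := IntermediateField.adjoin ℂ (ι₀ '' g ∪ range Y)
  have h1 : ∀ z, ι₀ z ∈ E := fun z => by
    refine IntermediateField.adjoin.mono ℂ _ _ subset_union_left ?_
    rw [← IntermediateField.adjoin_map, hg]
    exact ⟨z, trivial, rfl⟩
  have h2 : ∀ a, Y a ∈ E := fun a => IntermediateField.subset_adjoin ℂ _ (Or.inr ⟨a, rfl⟩)
  let ι : Ω →ₐ[ℂ] E := ι₀.codRestrict E.toSubalgebra h1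
  refine ⟨E, inferInstance, inferInstance, ι, fun a => ⟨Y a, h2 a⟩,
    g.image ι ∪ Finset.univ.image fun a => ⟨Y a, h2 a⟩, fun a => Subtype.ext (hY a), ?_, ?_⟩
  · refine IntermediateField.map_injective E.val ?_
    rw [IntermediateField.adjoin_map, ← AlgHom.fieldRange_eq_map, IntermediateField.fieldRange_val,
      Finset.coe_union, Finset.coe_image, Finset.coe_image, Finset.coe_univ, image_union,
      image_image, image_image, image_univ]
    rfl
  · rw [Finset.coe_union, Finset.coe_image, Finset.coe_image, Finset.coe_univ, image_univ]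
    exact union_subset_union_left _ (image_subset_range _ _)

/-- Powers of elements with independent residues. -/
lemma indV_pow {L : Type} [Field L] [Algebra ℂ L] {v : Valuation L ℤᵐ⁰} {S S' : Set L} {e : ℕ}
    (h : IndV v S e) (k : ∀ z ∈ S, ∃ n, n ≠ 0 ∧ z ^ n ∈ S') : IndV v S' e := by
  obtain ⟨b, h1, h2⟩ := h
  choose n h3 h4 using fun i => k _ (h1 i)
  refine ⟨fun i => b i ^ n i, h4, fun P hP => ?_⟩
  have h5 := (MvPolynomial.algebraicIndependent_X (Fin e) ℂ).polynomial_aeval_of_transcendental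
    (f := fun i => Polynomial.X ^ n i)
    fun i => (Polynomial.transcendental_X ℂ).pow (Nat.pos_of_ne_zero (h3 i))
  have h6 := h2 _ fun h0 => hP (h5.eq_zero_of_aeval_eq_zero P h0)
  rw [comp_aeval_apply] at h6
  simpa using h6

end WGC

theorem st_WGC (T : Tools) (hWG3 : St_WG3) (hCRV : St_CRV) : St_WGC := by
  intro Ω U _ _ _ u w a₀ g hw hu hrk hg hacl
  classical
  obtain ⟨Ω', _, _, ι, y, g', hy, hg', hs⟩ :=
    WGC.roots (V := {a // w a ≠ 0}) (fun a => u a) (fun a => w a) (fun a => a.2) g hg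
  let v₀ : {a // w a ≠ 0} := ⟨a₀, hw⟩
  have : Nonempty {a // w a ≠ 0} := ⟨v₀⟩
  set S : Set Ω' := insert (y v₀) (ι '' (u '' {a | w a = 0})) with hS
  have f0 : (u '' {a | w a = 0}).Finite := toFinite _
  have fS : S.Finite := (f0.image ι).insert _
  have y0 : y v₀ ≠ 0 := fun h => by
    have := hy v₀
    rw [h, zero_pow hw] at this
    exact hu ((map_eq_zero ι).1 this.symm)
  have c1 : ι '' range u ⊆ acl (S ∪ range y) := by
    rintro _ ⟨_, ⟨a, rfl⟩, rfl⟩
    by_cases h : w a = 0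
    · exact subset_acl _ (Or.inl (Or.inr ⟨_, ⟨a, h, rfl⟩, rfl⟩))
    · rw [← hy ⟨a, h⟩]
      exact (acl (S ∪ range y)).toSubalgebra.pow_mem (subset_acl _ (Or.inr ⟨⟨a, h⟩, rfl⟩)) _
  have c2 : range y ⊆ acl (ι '' range u) := by
    rintro _ ⟨a, rfl⟩
    exact T.rk.pow a.2 (by rw [hy a]; exact subset_acl _ ⟨_, ⟨a, rfl⟩, rfl⟩)
  have c3 : S ∪ range y ⊆ acl (ι '' range u) :=
    union_subset (insert_subset (c2 ⟨_, rfl⟩)
      ((image_mono (image_subset_range _ _)).trans (subset_acl _))) c2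
  have r1 : rk (S ∪ range y) = rk (range u) := by
    rw [← T.rk.map ι]
    exact le_antisymm (T.rk.le ((finite_range u).image ι) c3)
      (T.rk.le (fS.union (finite_range y)) c1)
  have c4 : S ⊆ acl (ι '' insert (u a₀) (u '' {a | w a = 0})) :=
    insert_subset (T.rk.pow hw (by
      rw [show y v₀ ^ w a₀ = ι (u a₀) from hy v₀]; exact subset_acl _ ⟨_, Or.inl rfl, rfl⟩))
      ((image_mono (subset_insert _ _)).trans (subset_acl _))
  have c5 : ι '' insert (u a₀) (u '' {a | w a = 0}) ⊆ acl S := by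
    rw [image_insert_eq, ← show y v₀ ^ w a₀ = ι (u a₀) from hy v₀]
    exact insert_subset ((acl S).toSubalgebra.pow_mem (subset_acl S (Or.inl rfl)) _)
      ((subset_insert _ _).trans (subset_acl _))
  have r2 : rk S < rk (S ∪ range y) := by
    rw [r1]
    exact ((T.rk.le ((f0.insert _).image ι) c4).trans_eq (T.rk.map ι _)).trans_lt hrk
  have c6 : ∀ z, z ∈ acl (S ∪ range y) := fun z => by
    have : IntermediateField.adjoin ℂ (g' : Set Ω') ≤ acl (S ∪ range y) :=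
      IntermediateField.adjoin_le_iff.2 (hs.trans (union_subset
        (by rintro _ ⟨x, rfl⟩; exact acl_le c1 ((T.rk.map_acl ι _ x).2 (hacl x)))
        (subset_union_right.trans (subset_acl _))))
    exact this (by rw [hg']; trivial)
  obtain ⟨L, _, _, j, C, hd, hP⟩ := hWG3 Ω' _ y v₀ S g' fS y0 (Or.inl rfl) r2 hg' c6
  choose v₁ hv using fun P => exists_nm (v := C.v P) (j ∘ y)
  have u0 : ∀ P, C.v P (j (y v₀)) = 1 := fun P => (hP P).1 _ (subset_acl _ (Or.inl rfl)) y0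
  have j0 : j (y v₀) ≠ 0 := (map_ne_zero j).2 y0
  have le1 : ∀ P a, C.v P (j (y a)) ≤ C.v P (j (y (v₁ P))) := fun P a =>
    (le_nm (v := C.v P) (j ∘ y) a).trans_eq (hv P)
  have n1 : ∀ P, C.v P (j (y (v₁ P))) ≠ 0 := fun P h => by
    have := le1 P v₀
    rw [u0, h] at this
    exact not_lt.2 this zero_lt_one
  have j1 : ∀ P, j (y (v₁ P)) ≠ 0 := fun P h => n1 P (by rw [h, map_zero])
  have e1 : ∀ P (a : {a // w a ≠ 0}), j (ι (u a)) / (j (y (v₁ P)) / j (y v₀)) ^ w a =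
      (j (y a) * j (y v₀) / j (y (v₁ P))) ^ w a := fun P a => by
    rw [← hy a, map_pow, ← div_pow, div_div_eq_mul_div]
  have e2 : ∀ P, j (ι (u (v₁ P))) / (j (y (v₁ P)) / j (y v₀)) ^ w (v₁ P) = j (y v₀) ^ w (v₁ P) :=
    fun P => by rw [e1, mul_div_cancel_left₀ _ (j1 P)]
  have un : ∀ P, ∀ z ∈ acl (insert (u a₀) (u '' {a | w a = 0})), z ≠ 0 → C.v P (j (ι z)) = 1 :=
    fun P z hz h0 => (hP P).1 _ (acl_le c5 ((T.rk.map_acl ι _ z).2 hz)) ((map_ne_zero ι).2 h0)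
  refine ⟨L, _, _, j.comp ι, C, fun P => j (y (v₁ P)) / j (y v₀), ?_, fun P =>
    ⟨div_ne_zero (j1 P) j0, fun a => ?_, un P, ⟨v₁ P, (v₁ P).2, ?_⟩, ?_⟩⟩
  · refine hd.trans_eq (finsum_congr fun P => ?_)
    rw [map_div₀, u0, _root_.div_one, hv P]
    rfl
  · rw [AlgHom.comp_apply]
    by_cases h : w a = 0
    · rw [h, pow_zero, _root_.div_one]
      by_cases h0 : u a = 0
      · simp [h0]
      · exact (un P _ (subset_acl _ (Or.inr ⟨a, h, rfl⟩)) h0).le
    · rw [e1 P ⟨a, h⟩, map_pow, map_div₀, map_mul, u0, mul_one]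
      exact pow_le_one₀ zero_le (div_le_one_of_le₀ (le1 P _) zero_le)
  · rw [AlgHom.comp_apply, AlgHom.comp_apply, e2, ← show y v₀ ^ w a₀ = ι (u a₀) from hy v₀, map_pow,
      pow_right_comm]
  · rw [← r1]
    refine WGC.indV_pow ((hP P).2 (v₁ P) (hv P).symm) ?_
    rintro _ (⟨_, rfl | ⟨_, ⟨a, ha, rfl⟩, rfl⟩, rfl⟩ | ⟨a, rfl⟩)
    · exact ⟨_, (v₁ P).2, v₁ P, e2 P⟩
    · refine ⟨1, one_ne_zero, a, ?_⟩
      show j (ι (u a)) / _ ^ w a = _
      rw [show w a = 0 from ha, pow_zero, _root_.div_one, pow_one]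
    · exact ⟨_, a.2, a, e1 P a⟩

end Pool.Agent.Lib.CI
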