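import Pool.Agent.Lib.CI.Asm
import Pool.Agent.Lib.CI.ACT
import Pool.Agent.Lib.CI.BAD
import Pool.Agent.Lib.CI.BAS
import Pool.Agent.Lib.CI.CH
import Pool.Agent.Lib.CI.CONE
import Pool.Agent.Lib.CI.CRD
import Pool.Agent.Lib.CI.CRV
import Pool.Agent.Lib.CI.END
import Pool.Agent.Lib.CI.ENDA
import Pool.Agent.Lib.CI.F2
import Pool.Agent.Lib.CI.FARK
import Pool.Agent.Lib.CI.FC
import Pool.Agent.Lib.CI.FG
import Pool.Agent.Lib.CI.FL1
import Pool.Agent.Lib.CI.FLD
import Pool.Agent.Lib.CI.FLV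
import Pool.Agent.Lib.CI.FLX
import Pool.Agent.Lib.CI.GCK
import Pool.Agent.Lib.CI.GCL
import Pool.Agent.Lib.CI.GCNT
import Pool.Agent.Lib.CI.GENM
import Pool.Agent.Lib.CI.GEV
import Pool.Agent.Lib.CI.GIO1
import Pool.Agent.Lib.CI.GIO2
import Pool.Agent.Lib.CI.GJAC
import Pool.Agent.Lib.CI.GMOV
import Pool.Agent.Lib.CI.GRD
import Pool.Agent.Lib.CI.GSG
import Pool.Agent.Lib.CI.GTL
import Pool.Agent.Lib.CI.H63C
import Pool.Agent.Lib.CI.H63T
import Pool.Agent.Lib.CI.H86E
import Pool.Agent.Lib.CI.HC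
import Pool.Agent.Lib.CI.HC1
import Pool.Agent.Lib.CI.HCG
import Pool.Agent.Lib.CI.HT1
import Pool.Agent.Lib.CI.HT2
import Pool.Agent.Lib.CI.IMOV
import Pool.Agent.Lib.CI.INEQ
import Pool.Agent.Lib.CI.INJ0
import Pool.Agent.Lib.CI.IOG1
import Pool.Agent.Lib.CI.IOG2
import Pool.Agent.Lib.CI.IOX
import Pool.Agent.Lib.CI.IVAL
import Pool.Agent.Lib.CI.IVN
import Pool.Agent.Lib.CI.LA
import Pool.Agent.Lib.CI.LAT
import Pool.Agent.Lib.CI.LDER
import Pool.Agent.Lib.CI.LEV
import Pool.Agent.Lib.CI.LFRM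
import Pool.Agent.Lib.CI.LGLUE
import Pool.Agent.Lib.CI.LIM
import Pool.Agent.Lib.CI.LL
import Pool.Agent.Lib.CI.LMON
import Pool.Agent.Lib.CI.LNA
import Pool.Agent.Lib.CI.LNY
import Pool.Agent.Lib.CI.LNZ
import Pool.Agent.Lib.CI.LNZ0
import Pool.Agent.Lib.CI.LPSI
import Pool.Agent.Lib.CI.LREL
import Pool.Agent.Lib.CI.LSA
import Pool.Agent.Lib.CI.LSAT
import Pool.Agent.Lib.CI.LTH
import Pool.Agent.Lib.CI.LTOW
import Pool.Agent.Lib.CI.LVAN
import Pool.Agent.Lib.CI.MIN
import Pool.Agent.Lib.CI.MP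
import Pool.Agent.Lib.CI.NRM
import Pool.Agent.Lib.CI.OM
import Pool.Agent.Lib.CI.PAIR
import Pool.Agent.Lib.CI.PD
import Pool.Agent.Lib.CI.PERM
import Pool.Agent.Lib.CI.PI
import Pool.Agent.Lib.CI.PLC
import Pool.Agent.Lib.CI.RED
import Pool.Agent.Lib.CI.RED2
import Pool.Agent.Lib.CI.RED3
import Pool.Agent.Lib.CI.RES
import Pool.Agent.Lib.CI.RESG
import Pool.Agent.Lib.CI.RK
import Pool.Agent.Lib.CI.SC
import Pool.Agent.Lib.CI.SEC
import Pool.Agent.Lib.CI.SIG2
import Pool.Agent.Lib.CI.SIGV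
import Pool.Agent.Lib.CI.SIGX
import Pool.Agent.Lib.CI.SL
import Pool.Agent.Lib.CI.SMOV
import Pool.Agent.Lib.CI.TD
import Pool.Agent.Lib.CI.TQ
import Pool.Agent.Lib.CI.UNIQ
import Pool.Agent.Lib.CI.H63G
import Pool.Agent.Lib.CI.WGC

open AlgebraicGeometry CategoryTheory Pool.Agent.Lib.MP_e39d36_ag

namespace Pool.Agent.Lib.CI.M2

theorem all_RK : St_RK := st_RK

theorem all_RED : St_RED := st_RED all_RK

theorem all_LA : St_LA := st_LA

theorem all_SL : St_SL := st_SL

theorem all_PI : St_PI := st_PI all_SL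

theorem all_SC : St_SC := st_SC all_SL all_PI all_LA

theorem all_MP : St_MP := st_MP all_RED

theorem all_NRM : St_NRM := st_NRM all_RK all_RED all_SL all_SC

theorem all_CH : St_CH := st_CH all_PI

theorem all_T : Tools :=
  ⟨all_RK, all_RED, all_LA, all_SL, all_PI, all_SC, all_MP, all_NRM, all_CH⟩

theorem all_GENM : St_GENM := st_GENM all_T

theorem all_GEV : St_GEV := st_GEV all_T all_GENM

theorem all_GCNT : St_GCNT := st_GCNT all_T all_GEV

theorem all_GJAC : St_GJAC := st_GJAC all_T all_GEV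

theorem all_GCK : St_GCK := st_GCK all_T all_GEV

theorem all_GRD : St_GRD := st_GRD all_T all_GEV

theorem all_GTL : St_GTL := st_GTL all_T all_GEV

theorem all_GSG : St_GSG := st_GSG all_T all_GEV

theorem all_GIO1 : St_GIO1 := st_GIO1 all_T all_GEV

theorem all_GIO2 : St_GIO2 := st_GIO2 all_T all_GEV

theorem all_LDER : St_LDER := st_LDER all_T

theorem all_LREL : St_LREL := st_LREL all_T all_LDER

theorem all_LSAT : St_LSAT := st_LSAT all_T

theorem all_LMON : St_LMON := st_LMON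

theorem all_LNZ0 : St_LNZ0 := st_LNZ0

theorem all_LTH : St_LTH := st_LTH

theorem all_LNZ : St_LNZ := st_LNZ all_T all_LNZ0 all_LTH

theorem all_LSA : St_LSA := st_LSA all_T all_LNZ

theorem all_LTOW : St_LTOW := st_LTOW all_T all_LMON all_LNZ all_LSA

theorem all_LPSI : St_LPSI := st_LPSI all_T

theorem all_LVAN : St_LVAN := st_LVAN all_T all_LTOW all_LPSI

theorem all_LNY : St_LNY := st_LNY all_T all_LREL all_LSAT all_LVAN

theorem all_LFRM : St_LFRM := st_LFRM all_T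

theorem all_LGLUE : St_LGLUE := st_LGLUE

theorem all_LL : St_LL := st_LL all_T all_LNY all_LFRM all_LGLUE

theorem all_TD : St_TD := st_TD all_T all_LDER

theorem all_WG3 : St_WG3 := H63.st_WG3 all_T

theorem all_CRV : St_CRV := st_CRV all_T

theorem all_WGC : St_WGC := st_WGC all_T all_WG3 all_CRV

theorem all_HC1 : St_HC1 := st_HC1 all_T

theorem all_HC : St_HC := st_HC all_T all_HC1

theorem all_HCG : St_HCG := st_HCG all_T all_HC

theorem all_FC : St_FC := st_FC all_T all_TD all_WGC all_HCG all_CRV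

theorem all_SIG2 : St_SIG2 := st_SIG2 all_T

theorem all_SIGV : St_SIGV := st_SIGV all_T all_SIG2

theorem all_RESG : St_RESG := st_RESG all_T

theorem all_PD : St_PD := st_PD all_T all_TD all_RESG

theorem all_SIGX : St_SIGX := st_SIGX all_T

theorem all_UNIQ : St_UNIQ := st_UNIQ all_T all_TD

theorem all_PERM : St_PERM := st_PERM all_T all_PD

theorem all_ACT : St_ACT := st_ACT all_T all_UNIQ all_PERM

theorem all_SMOV : St_SMOV := st_SMOV all_T all_TD all_PD all_SIGX all_SIG2 all_SIGV all_ACT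

theorem all_PAIR : St_PAIR :=
  st_PAIR all_T all_TD all_WGC all_HCG all_CRV all_SIG2 all_SIGV all_SMOV

theorem all_FLX : St_FLX := st_FLX all_T

theorem all_F2 : St_F2 := st_F2 all_T

theorem all_FL1 : St_FL1 := st_FL1 all_T

theorem all_FLV : St_FLV := st_FLV all_T all_F2 all_FL1

theorem all_FLD : St_FLD := st_FLD all_T all_FLV all_PD

theorem all_GCL : St_GCL := st_GCL all_T

theorem all_LEV : St_LEV := st_LEV all_T all_TD all_FLX all_F2 all_FLV all_FLD all_GCL all_PD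

theorem all_SEC : St_SEC := st_SEC all_T all_LEV all_PD

theorem all_RES : St_RES := st_RES all_T all_LEV all_SEC all_PD all_RESG all_FLV all_F2 all_TD

theorem all_CONE : St_CONE := st_CONE all_T all_F2

theorem all_BAD : St_BAD := st_BAD all_T

theorem all_LIM : St_LIM := st_LIM all_T all_BAD

theorem all_PLC : St_PLC := st_PLC all_T all_BAD all_F2 all_FL1

theorem all_CURV : St_CURV := H63.st_CURV all_T all_CONE all_LIM all_PLC all_WGC all_CRV

theorem all_INEQ : St_INEQ := st_INEQ all_T all_RES all_CURV all_HC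

theorem all_TSEC : St_TSEC := H63.st_TSEC all_T all_LEV all_SEC all_PD all_GCL

theorem all_TQ : St_TQ := st_TQ all_T

theorem all_LNA : St_LNA := st_LNA all_T

theorem all_IOG1 : St_IOG1 := st_IOG1 all_T all_TQ all_LNA

theorem all_IOG2 : St_IOG2 := st_IOG2 all_T all_IOG1 all_TQ

theorem all_IVN : St_IVN := st_IVN all_T all_IOG1 all_IOG2 all_TQ all_LNA all_FLX all_F2

theorem all_IVAL : St_IVAL := st_IVAL all_T all_IVN all_TQ

theorem all_IOX : St_IOX := st_IOX all_T all_LEV all_IOG1 all_IOG2 all_TQ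

theorem all_IMOV : St_IMOV :=
  st_IMOV all_T all_PD all_PERM all_F2 all_FLX all_FLV all_FLD all_LEV all_SEC all_IVAL all_IOX all_GCL

theorem all_OM : St_OM := st_OM all_T all_SEC all_IMOV all_GCL

theorem all_GMOV : St_GMOV :=
  st_GMOV all_T all_PD all_FLX all_F2 all_FLV all_FLD all_LEV all_ACT all_GCL

theorem all_BAS : St_BAS := st_BAS

theorem all_INJ0 : St_INJ0 := st_INJ0 all_BAS

theorem all_ENDA : St_ENDA := st_ENDA all_T all_INJ0

theorem all_ENDP : St_ENDP := H86.st_ENDP all_T all_ENDA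

theorem all_FARK : St_FARK := st_FARK

theorem all_FG : St_FG := st_FG

theorem all_RED3 : St_RED3 := st_RED3

theorem all_RED2 : St_RED2 := st_RED2

theorem all_MIN : St_MIN := st_MIN

theorem all_CRD : St_CRD := st_CRD

theorem all_HT2 : St_HT2 := st_HT2 all_MIN all_BAS all_CRD

theorem all_HT1 : St_HT1 := st_HT1 all_MIN all_BAS all_CRD

theorem all_LAT : St_LAT := st_LAT all_FARK all_FG all_RED3 all_RED2 all_HT2 all_HT1

theorem all_END : St_END := st_END all_T all_ENDA all_ENDP all_LAT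

theorem main (D : Dat) :
    ∃ Q : MvPolynomial D.Co ℂ, Q ≠ 0 ∧ ∀ F : Fin D.m → MvPolynomial D.Hx ℂ, D.Hom F →
      MvPolynomial.eval (fun c : D.Co => MvPolynomial.coeff c.1.2 (F c.1.1)) Q ≠ 0 →
      ∀ (Y : Scheme.{0}) [IsIntegral Y] [IsLocallyNoetherian Y] (s : Y ⟶ Spec (.of ℂ)) [Smooth s],
        IsProjective s → ∀ x : D.Hx → Y.functionField,
        @Dat.IsCI D Y.functionField _ (algK s) x F Y OX →
        ∃ S : Set (CDiv Y), S.Finite ∧ Covers s (cone S) ∧ ∀ φ L, IsPull s φ L → L ≠ 1 →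
          interior (cone S) ∩ L '' interior (cone S) = ∅ :=
  all_T.sl.gn_mono (asm_gen all_T all_GCNT all_GJAC all_GCK all_GRD all_GTL all_GSG all_GIO1
    all_GIO2 D) fun F _ h _ _ _ s _ hY x hx => asm_sch s D F (fun K _ _ M => all_END D F K M
      (asm_inp all_LL all_FC all_PAIR all_INEQ all_LEV all_SEC all_TSEC all_OM all_GMOV all_SMOV
        all_IMOV D F h K M)) hY x hx

end Pool.Agent.Lib.CI.M2
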