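import Pool.Agent.Lib.CI.BlueA

open MvPolynomial Set Matrix

set_option linter.unusedSectionVars false
set_option linter.unusedVariables false

noncomputable section

namespace Pool.Agent.Lib.CI.PI

variable {σ S : Type} [DecidableEq S] {f : σ → S} {s : S} {n : ℕ} {a : σ}
  {P Q : MvPolynomial σ ℂ} {Ω : Type} [Field Ω] [Algebra ℂ Ω]

/-- The indicator of a slot. -/
def wI (f : σ → S) (s : S) (a : σ) : ℕ := if f a = s then 1 else 0

/-- Homogeneous of degree `n` in the slot `s`. -/
def H (f : σ → S) (s : S) (P : MvPolynomial σ ℂ) (n : ℕ) : Prop :=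
  P.IsWeightedHomogeneous (wI f s) n

lemma H.d1 (ha : f a = s) (h : H f s P (n + 1)) : H f s (pderiv a P) n :=
  IsWeightedHomogeneous.pderiv h (by rw [wI, if_pos ha])

lemma H.d0 (ha : f a ≠ s) (h : H f s P n) : H f s (pderiv a P) n :=
  IsWeightedHomogeneous.pderiv h (by rw [wI, if_neg ha, add_zero])

lemma H.x1 (ha : f a = s) (h : H f s P n) : H f s (X a * P) (n + 1) := by
  have := (isWeightedHomogeneous_X ℂ (wI f s) a).mul h
  rwa [wI, if_pos ha, add_comm] at this

lemma H.x0 (ha : f a ≠ s) (h : H f s P n) : H f s (X a * P) n := by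
  have := (isWeightedHomogeneous_X ℂ (wI f s) a).mul h
  rwa [wI, if_neg ha, zero_add] at this

lemma H.sum {ι : Type} (A : Finset ι) (φ : ι → MvPolynomial σ ℂ) (h : ∀ i ∈ A, H f s (φ i) n) :
    H f s (∑ i ∈ A, φ i) n := IsWeightedHomogeneous.sum A φ n h

lemma H.nv (h : H f s P 0) (ha : a ∈ P.vars) : f a ≠ s := fun e => by
  obtain ⟨d, hd, h1⟩ := (mem_vars_iff_mem_support a).mp ha
  have h2 := h (mem_support_iff.mp hd)
  rw [Finsupp.weight_apply, Finsupp.sum, Finset.sum_eq_zero_iff] at h2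
  have h3 := h2 a h1
  rw [wI, if_pos e, smul_eq_mul, mul_one] at h3
  exact Finsupp.mem_support_iff.mp h1 h3

lemma agr {u u' : σ → Ω} (h : ∀ a ∈ P.vars, u' a = u a) : aeval u' P = aeval u P :=
  eval₂Hom_congr' rfl (fun a ha _ => h a ha) rfl

lemma rename_hom {τ : Type} {g : σ → τ} {w : τ → ℕ} (h : P.IsWeightedHomogeneous (w ∘ g) n) :
    (rename g P).IsWeightedHomogeneous w n := by
  intro d hd
  obtain ⟨u, rfl, hu⟩ := coeff_rename_ne_zero g P d hd
  rw [← h hu, Finsupp.weight_apply, Finsupp.weight_apply]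
  exact Finsupp.sum_mapDomain_index (h := fun i (c : ℕ) => c • w i) (fun _ => zero_smul _ _)
    fun _ _ _ => add_smul _ _ _

lemma pd_comm (a b : σ) (P : MvPolynomial σ ℂ) :
    pderiv a (pderiv b P) = pderiv b (pderiv a P) := by
  rcases eq_or_ne a b with rfl | h
  · rfl
  ext m
  simp only [coeff_pderiv, Finsupp.add_apply, Finsupp.single_eq_of_ne h,
    Finsupp.single_eq_of_ne h.symm, add_zero]
  rw [add_right_comm m]
  ring

lemma pd_X {b : σ} (h : b ≠ a) (P : MvPolynomial σ ℂ) :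
    pderiv a (X b * P) = X b * pderiv a P := by
  rw [pderiv_mul, pderiv_X_of_ne h, zero_mul, zero_add]

variable [Fintype σ]

lemma H.euler (h : H f s P n) {ι : Type} [Fintype ι] {c : ι → σ} (hc : Function.Injective c)
    (h1 : ∀ p, f (c p) = s) (h2 : ∀ a, f a = s → ∃ p, a = c p) (u : σ → Ω) :
    ∑ p, u (c p) * aeval u (pderiv (c p) P) = n * aeval u P := by
  classical
  have h3 := congrArg (aeval u) (IsWeightedHomogeneous.sum_weight_X_mul_pderiv h)
  rw [map_sum, map_nsmul, nsmul_eq_mul] at h3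
  rw [← h3]
  refine Fintype.sum_of_injective c hc _ _ (fun a ha => ?_) fun p => ?_
  · rw [wI, if_neg fun e => ha (by obtain ⟨p, hp⟩ := h2 a e; exact ⟨p, hp.symm⟩), zero_smul,
      map_zero]
  · rw [wI, if_pos (h1 p), one_smul, map_mul, aeval_X]

lemma scal [Fintype S] {m : S → ℕ} (h : ∀ s, H f s P (m s)) (y : σ → Ω) (μ : S → Ω) :
    aeval (fun a => μ (f a) * y a) P = (∏ s, μ s ^ m s) * aeval y P := by
  rw [aeval_def, aeval_def, eval₂_eq', eval₂_eq', Finset.mul_sum]
  refine Finset.sum_congr rfl fun d hd => ?_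
  have h1 : ∏ a, μ (f a) ^ d a = ∏ s, μ s ^ m s := by
    rw [← Finset.prod_fiberwise Finset.univ f]
    refine Finset.prod_congr rfl fun s _ => ?_
    rw [← h s (mem_support_iff.mp hd), Finsupp.weight_eq_sum, ← Finset.prod_pow_eq_pow_sum,
      Finset.prod_filter]
    refine Finset.prod_congr rfl fun a _ => ?_
    unfold wI
    split_ifs with e
    · rw [e, smul_eq_mul, mul_one]
    · rw [smul_zero, pow_zero]
  simp only [mul_pow, Finset.prod_mul_distrib, h1]
  ring

lemma mem {σ : Type} (k : IntermediateField ℂ Ω) (u : σ → Ω) (h : ∀ a, u a ∈ k)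
    (P : MvPolynomial σ ℂ) : aeval u P ∈ k := by
  induction P using MvPolynomial.induction_on with
  | C c => rw [aeval_C]; exact k.algebraMap_mem c
  | add p q hp hq => rw [map_add]; exact k.add_mem hp hq
  | mul_X p a hp => rw [map_mul, aeval_X]; exact k.mul_mem hp (h a)

end Pool.Agent.Lib.CI.PI
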