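import Pool.Agent.Lib.MP_e39d36_ag.Sch2

open MvPolynomial Set Pool.Agent.Lib.MP_e39d36_ag

noncomputable section

namespace Pool.Agent.Lib.CI

/-- A product of `k` projective spaces `P^(n s)` and the degrees `d j s` of `m` ample forms whose
sum is anticanonical. -/
structure Dat where
  k : ℕ
  n : Fin k → ℕ
  m : ℕ
  d : Fin m → Fin k → ℕ
  n_pos : ∀ s, 1 ≤ n s
  d_pos : ∀ j s, 1 ≤ d j s
  cy : ∀ s, ∑ j, d j s = n s + 1
  dim : m + 3 ≤ ∑ s, n s
  small : ∃ s, n s + 1 = m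
  large : ∃ s, m ≤ n s

namespace Dat

variable (D : Dat)

/-- Homogeneous coordinates. -/
abbrev Hx : Type := Σ s, Fin (D.n s + 1)

/-- The multidegree of a monomial. -/
def md (μ : D.Hx →₀ ℕ) (s : Fin D.k) : ℕ := ∑ p, μ ⟨s, p⟩

/-- The coefficients of the forms. -/
abbrev Co : Type := {c : Fin D.m × (D.Hx →₀ ℕ) // D.md c.2 = D.d c.1}

/-- The form `F j` has multidegree `d j`. -/
def Hom (F : Fin D.m → MvPolynomial D.Hx ℂ) : Prop :=
  ∀ j μ, coeff μ (F j) ≠ 0 → D.md μ = D.d j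

variable {K : Type} [Field K] [Algebra ℂ K] (x : D.Hx → K)

/-- Affine coordinates in a standard chart. -/
def rat (τ : ∀ s, Fin (D.n s + 1)) (a : D.Hx) : K := x a / x ⟨a.1, τ a.1⟩

/-- The coordinate ring of a standard chart. -/
def B (τ : ∀ s, Fin (D.n s + 1)) : Subalgebra ℂ K := Algebra.adjoin ℂ (range (D.rat x τ))

/-- The local rings `O` are those of the complete intersection of the forms `F`. -/
def IsCI (F : Fin D.m → MvPolynomial D.Hx ℂ) {Pt : Type} (O : Pt → Subring K) : Prop :=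
  (∀ a, x a ≠ 0) ∧ (∀ z, ∃ τ, LocOf (D.B x τ).toSubring (O z)) ∧
    ∀ τ P, aeval (D.rat x τ) P = 0 ↔
      P ∈ Ideal.span (range F ∪ range fun s => X ⟨s, τ s⟩ - 1)

end Dat

end Pool.Agent.Lib.CI
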