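import Pool.Agent.Lib.CI.BlueB

open MvPolynomial Set Matrix WithZero Pool.Agent.Lib.MP_e39d36_ag Pool.Agent.Lib.MP_e39d36_ag.Var
  Pool.Agent.Lib.MP_cc3443_ag Pool.Agent.Lib.MV Pool.Agent.Lib.MV.End Pool.Agent.Lib.MV.Fb
  Pool.Agent.Lib.DU

set_option linter.unusedSectionVars false
set_option linter.unusedVariables false

noncomputable section

namespace Pool.Agent.Lib.CI

open Pool.Agent.Lib.CI.Dat
open Pool.Agent.Lib.MV.G3 (acl Ov)

namespace SIGV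

lemma nz_of {D : Dat} {κ : Type} [Field κ] {u : D.Vr → κ} (h : N1 u) : NZ u := fun σ => by
  obtain ⟨a, ha, h1⟩ := h σ
  exact ⟨a, ha, by rw [h1]; exact one_ne_zero⟩

lemma mem_off {D : Dat} {a : D.Vr} : a ∈ off (D := D) none ↔ sl a ≠ none := by
  simp only [off, Finset.mem_filter, Finset.mem_univ, true_and]
  rfl

lemma key (T : Tools) (h2 : St_SIG2) {D : Dat} {F : D.Fm} (hG : Gen F) (i : D.I1) {Ω : Type}
    [Field Ω] [Algebra ℂ Ω] {v : Valuation Ω ℤᵐ⁰} (hv : Cv v) {w w' : D.Vr → Ω} {μ : Ω}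
    (hS : Sig F i w w' μ) (hw : Nm v w) (hw' : Nm v w')
    (hI : IndV v (w '' off (D := D) none) (D.dm - 1)) :
    v μ = 1 ∧ ∀ e, IndV v (w '' off (D := D) none) e → IndV v (w' '' off (D := D) none) e := by
  obtain ⟨κ, _, _, ⟨R⟩⟩ := T.red.ex hv
  have : CharZero κ := charZero_of_injective_algebraMap (algebraMap ℂ κ).injective
  obtain ⟨-, a2, a3, -, -, -, -, -, a9, -⟩ := T.mp.red F R w hw.1
  obtain ⟨-, b2, b3, -⟩ := T.mp.red F R w' hw'.1
  obtain ⟨r0, r1, r2, -⟩ := T.red.one R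
  have ind : ∀ u : D.Vr → Ω, (∀ a, v (u a) ≤ 1) → ∀ e, (IndV v (u '' off (D := D) none) e ↔
      e ≤ rk ((R.r ∘ u) '' off (D := D) none)) := fun u hu e => by
    rw [Set.image_comp]
    exact T.red.ind R ((Finset.finite_toSet _).image _) (by rintro _ ⟨a, -, rfl⟩; exact hu a)
  have c1 : Cfg F none (R.r ∘ w) := ⟨nz_of (a2 hw.2), a3 _ hS.c1.2⟩
  have c2 : Cfg F none (R.r ∘ w') := ⟨nz_of (b2 hw'.2), b3 _ hS.c2.2⟩
  have hsy : ∀ p p', v (w (cw i p) * w' (cw i p') + w (cw i p') * w' (cw i p)) ≤ 1 ∧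
      R.r (w (cw i p) * w' (cw i p') + w (cw i p') * w' (cw i p)) =
        R.r (w (cw i p)) * R.r (w' (cw i p')) + R.r (w (cw i p')) * R.r (w' (cw i p)) := by
    intro p p'
    have m : ∀ q q', v (w (cw i q) * w' (cw i q')) ≤ 1 := fun q q' => by
      rw [map_mul]; exact mul_le_one' (hw.1 _) (hw'.1 _)
    exact ⟨v.map_add_le (m _ _) (m _ _), by
      rw [R.add _ _ (m _ _) (m _ _), R.mul _ _ (hw.1 _) (hw'.1 _), R.mul _ _ (hw.1 _) (hw'.1 _)]⟩
  obtain ⟨a, ha, ha1⟩ := hw.2 (some i.1)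
  obtain ⟨r, rfl⟩ := T.sl.cw_surj i a ha
  obtain ⟨b, hb, hb1⟩ := hw'.2 (some i.1)
  obtain ⟨t, rfl⟩ := T.sl.cw_surj i b hb
  have hle : v μ ≤ 1 := by
    have : ∃ p p', R.r (w (cw i p) * w' (cw i p') + w (cw i p') * w' (cw i p)) ≠ 0 := by
      by_cases h : R.r (w' (cw i r)) = 0
      · exact ⟨r, t, by rw [(hsy r t).2, ha1, hb1, h, r1]; simp⟩
      · refine ⟨r, r, ?_⟩
        rw [(hsy r r).2, ha1, r1, one_mul, ← two_mul]
        exact mul_ne_zero two_ne_zero h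
    obtain ⟨p, p', h⟩ := this
    have h1 := (r2 _ (hsy p p').1).1 h
    have h3 := (a9 i p p').1
    rwa [hS.sym, map_mul, h1, mul_one] at h3
  have hne : Sx F i (R.r ∘ w) ≠ 0 := fun h0 => by
    have h1 := hG.sg i κ _ c1 h0
    have h3 := T.sl.fr_off none (R.r ∘ w) ∅ (a2 hw.2) (Finset.empty_subset _) (by simp)
    have h4 := (ind w hw.1 _).1 hI
    have h5 := (T.sl.dm_add D).2.1
    simp only [Finset.card_empty] at h3
    omega
  have hμ : v μ = 1 := by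
    obtain ⟨p, hp⟩ := Function.ne_iff.1 hne
    obtain ⟨p', hp'⟩ := Function.ne_iff.1 hp
    have h1 : v (Sx F i w p p') = 1 := (r2 _ (a9 i p p').1).1 (by rw [(a9 i p p').2]; exact hp')
    rw [hS.sym, map_mul] at h1
    refine le_antisymm hle ?_
    calc (1 : ℤᵐ⁰) = _ := h1.symm
      _ ≤ v μ * 1 := mul_le_mul_right (hsy p p').1 _
      _ = v μ := mul_one _
  have hS' : Sig F i (R.r ∘ w) (R.r ∘ w') (R.r μ) :=
    ⟨c1, c2, fun a ha => congrArg R.r (hS.eq a ha), (r2 _ hle).2 hμ, fun p p' => by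
      rw [← (a9 i p p').2, hS.sym, R.mul _ _ hle (hsy p p').1, (hsy p p').2]; rfl⟩
  have sub : ∀ a ∈ off (D := D) none, (R.r ∘ w') a ∈ acl ((R.r ∘ w') '' off (D := D) none) :=
    fun a ha => T.rk.adj _ (IntermediateField.subset_adjoin _ _ ⟨a, ha, rfl⟩)
  have h3 := ((h2 D F hG.hom i κ _ _ _ hS').2.2.1 ⟨r, by simp only [Function.comp, ha1, r1]⟩).1
    (acl ((R.r ∘ w') '' off (D := D) none)) fun a => sub _ (mem_off.2 (by simp [sl]))
  refine ⟨hμ, fun e he => (ind w' hw'.1 e).2 (((ind w hw.1 e).1 he).trans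
    (T.rk.le ((Finset.finite_toSet _).image _) ?_))⟩
  rintro _ ⟨a, ha, rfl⟩
  by_cases h : sl a = some i.1
  · obtain ⟨q, rfl⟩ := T.sl.cw_surj i a h
    exact h3 q
  · rw [← hS'.eq a h]
    exact sub a ha

end SIGV

open SIGV in
theorem st_SIGV (T : Tools) (h2 : St_SIG2) : St_SIGV := by
  intro D F hG i Ω _ _ v hv u u' lam hS hB
  obtain ⟨ρ, hρ, hN, hI⟩ := hB
  obtain ⟨ρ', hρ', hN', e1, -⟩ := T.nrm.ex' v u u' ρ hS.c2.1 hρ hN
  obtain ⟨w, hw, hS'⟩ := (h2 D F hG.hom i Ω u u' lam hS).2.1 ρ (ρ' (some i.1)) hρ (hρ' _)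
  have agr : ∀ a, sl a ≠ none → w a = sc ρ' u' a := by
    intro a ha
    by_cases h : sl a = some i.1
    · obtain ⟨q, rfl⟩ := T.sl.cw_surj i a h
      rw [hw]
      exact (T.sc.sc_inr ρ' u' ⟨i.1, _⟩).symm
    · rw [hS'.eq a h]
      rcases a with j | b
      · exact absurd rfl ha
      · rw [T.sc.sc_inr, T.sc.sc_inr, hS.eq _ h, e1 b.1 fun p => hS.eq _ h]
  have agn : ∀ a, sl a = none → w a = sc ρ u a := fun a ha =>
    hS'.eq a (by rw [ha]; exact (Option.some_ne_none _).symm)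
  have hW : Nm v w := by
    refine ⟨fun a => ?_, fun σ => ?_⟩
    · by_cases h : sl a = none
      · rw [agn a h]; exact hN.1 a
      · rw [agr a h]; exact hN'.1 a
    · rcases σ with _ | s
      · obtain ⟨a, ha, h1⟩ := hN.2 none
        exact ⟨a, ha, by rw [agn a ha, h1]⟩
      · obtain ⟨a, ha, h1⟩ := hN'.2 (some s)
        exact ⟨a, ha, by rw [agr a (by rw [ha]; exact Option.some_ne_none _), h1]⟩
  obtain ⟨k1, k2⟩ := key T h2 hG i hv hS' hN hW hI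
  refine ⟨fun e he => ⟨ρ', hρ', hN', ?_⟩, ?_⟩
  · have := k2 e ((T.nrm.big_iff hv none u ρ e hρ hN).1 he)
    rwa [Set.image_congr fun a ha => agr a (mem_off.1 ha)] at this
  · have n1 : ∀ σ, nu v u σ = -log (v (ρ σ)) := fun σ => by
      have h1 := T.nrm.nu_sc v ρ u hS.c1.1 hρ σ
      rw [T.nrm.nu_nw v _ (T.nrm.nw hN)] at h1
      omega
    have n2 : nu v u' (some i.1) = -log (v (ρ' (some i.1))) := by
      have h1 := T.nrm.nu_sc v ρ' u' hS.c2.1 hρ' (some i.1)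
      rw [T.nrm.nu_nw v _ (T.nrm.nw hN')] at h1
      omega
    have z : ∀ {x : Ω}, x ≠ 0 → v x ≠ 0 := fun h => (Valuation.ne_zero_iff v).2 h
    have c0 := (T.sc.chi_add ρ (wS i) 0 hρ).2
    have h3 := congrArg log k1
    rw [map_div₀, map_mul, map_mul, log_div (mul_ne_zero (z c0) (z hS.ne))
      (mul_ne_zero (z (hρ _)) (z (hρ' _))), log_mul (z c0) (z hS.ne),
      log_mul (z (hρ _)) (z (hρ' _)), log_one, T.sc.log_chi v ρ _ hρ] at h3
    simp only [n1, n2, mul_neg, Finset.sum_neg_distrib]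
    omega

end Pool.Agent.Lib.CI
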