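import Pool.Agent.Lib.CI.BlueB

open MvPolynomial Set Matrix WithZero Pool.Agent.Lib.MP_e39d36_ag Pool.Agent.Lib.MP_e39d36_ag.Var
  Pool.Agent.Lib.MP_cc3443_ag Pool.Agent.Lib.MV Pool.Agent.Lib.MV.End Pool.Agent.Lib.MV.Fb
  Pool.Agent.Lib.DU

noncomputable section

namespace Pool.Agent.Lib.CI

open Pool.Agent.Lib.CI.Dat
open Pool.Agent.Lib.MV.G3 (acl Ov)

theorem st_TSEC (T : Tools) (LEV : St_LEV) (SEC : St_SEC) (PD : St_PD) (GCL : St_GCL) :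
    St_TSEC := by
  intro D F hF K _ _ M l u lam hL i E hE
  obtain ⟨-, -, b3, b4, b5⟩ := (LEV D F hF K M l).2 u lam hL
  obtain ⟨-, -, -, -, s5⟩ := SEC D F hF K M l u lam hL
  have nz : NZ u := hL.2.nz
  have hw : u ∘ cw i ≠ 0 := by
    obtain ⟨a, ha, h0⟩ := nz (some i.1)
    obtain ⟨p, rfl⟩ := T.sl.cw_surj i a ha
    exact fun h => h0 (congrFun h p)
  obtain ⟨t, ht⟩ : ∃ t, IsT F l i u t :=
    T.la.xp_eq (Nx F l i u) _ hw ((T.pi.nx_mul hF.hom l i u).trans (funext hL.2.e2))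
  have key : ∀ ρ : D.Sl → K, (∀ σ, ρ σ ≠ 0) → Nm (val E) (sc ρ u) →
      val E (chi ρ (wT l i) * t) = 1 := by
    intro ρ h0 hN
    obtain ⟨cv, bg⟩ := (PD D F hF K M).1 E
    obtain ⟨κ, _, _, ⟨R⟩⟩ := T.red.ex cv
    have t1 := T.sc.isT hF.hom l i ρ u t h0 ht
    obtain ⟨r1, r2, r3, -, -, -, r7, r8, -⟩ := T.mp.red F R (sc ρ u) hN.1
    have nw := T.nrm.nw hN
    have v1 := r8 l i _ nw t1
    by_contra hne
    have t0 : R.r (chi ρ (wT l i) * t) = 0 := by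
      by_contra h
      exact hne (((T.red.one R).2.2.1 _ v1).1 h)
    have t2 := r7 l i _ v1 t1
    have z0 : R.r (sc ρ u (.inl (jj i))) = 0 := by
      refine (R.zero _ (hN.1 _)).2 (lt_of_le_of_ne (hN.1 _) fun h => ?_)
      rw [s5 E _ ρ h0 hN, h] at hE
      simp at hE
    have c1 := hF.tl l i κ (R.r ∘ sc ρ u)
      ⟨r1.1 nw, r3 _ ((T.sc.eqs hF.hom _ ρ u h0).2 hL.2.e2)⟩ z0
      (funext fun q => by rw [← t2 q, t0, zero_mul]; rfl)
    have c2 := T.sl.fr_off (some l) (R.r ∘ sc ρ u) {.inl (jj i)} (r2 hN.2)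
      (Finset.singleton_subset_iff.2 (Finset.mem_filter.2 ⟨Finset.mem_univ _, fun h => nomatch h⟩))
      (by simpa using z0)
    have c3 := (T.red.ind R ((off (some l)).finite_toSet.image _)
      (by rintro _ ⟨a, -, rfl⟩; exact hN.1 a)).1
      ((T.nrm.big_iff cv (some l) u ρ _ h0 hN).1 ((b3 _ cv).1 bg))
    rw [← Set.image_comp] at c3
    rw [Finset.card_singleton] at c2
    omega
  have t0 : t ≠ 0 := by
    obtain ⟨ρ, h0, hN⟩ := T.nrm.ex (val E) u nz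
    intro h
    have := key ρ h0 hN
    rw [h, mul_zero, map_zero] at this
    exact zero_ne_one this
  have ev : ∀ (E' : M.X.PD) (ρ : D.Sl → K), (∀ σ, ρ σ ≠ 0) → Nm (val E') (sc ρ u) →
      (∑ σ, wT l i σ • M.SD u σ + M.X.div t) E' = -log (val E' (chi ρ (wT l i) * t)) := by
    intro E' ρ h0 hN
    have e1 : ∀ σ, M.SD u σ E' = -log (val E' (ρ σ)) := fun σ => by
      have := T.nrm.nu_sc (val E') ρ u nz h0 σ
      rw [T.nrm.nu_nw _ _ (T.nrm.nw hN)] at this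
      exact eq_neg_of_add_eq_zero_left this.symm
    rw [Finsupp.add_apply, Finsupp.finsetSum_apply, div_apply, ord_log, map_mul,
      log_mul ((val E').ne_zero_iff.2 (T.sc.chi_add ρ _ 0 h0).2) ((val E').ne_zero_iff.2 t0),
      T.sc.log_chi _ _ _ h0, neg_add, ← Finset.sum_neg_distrib]
    simp only [Finsupp.smul_apply, e1, smul_eq_mul, mul_neg]
  refine ⟨∑ σ, wT l i σ • M.SD u σ + M.X.div t, ?_, fun E' => ?_, ?_⟩
  · obtain ⟨s1, -, s3, s4, -⟩ := T.ch.std M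
    have sm : ∀ (A : Finset D.Sl) (γ : D.Sl → D.Λ), M.std (∑ σ ∈ A, γ σ) = ∑ σ ∈ A, M.std (γ σ) :=
      fun A γ => map_sum (AddMonoidHom.mk' M.std s1) γ A
    refine LE.trans ⟨t, t0, rfl⟩ ?_
    rw [← (GCL D l).2.2.2 i, sm]
    refine LE.sum fun σ _ => ?_
    rw [s3]
    refine LE.zsmul ?_ _
    rcases σ with _ | s
    · exact b5
    · exact LE.of_eq ((b4 s).trans (s4 s).symm)
  · obtain ⟨ρ, h0, hN⟩ := T.nrm.ex (val E') u nz
    obtain ⟨κ, _, _, ⟨R⟩⟩ := T.red.ex ((PD D F hF K M).1 E').1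
    have v1 := (T.mp.red F R (sc ρ u) hN.1).2.2.2.2.2.2.2.1 l i _ (T.nrm.nw hN)
      (T.sc.isT hF.hom l i ρ u t h0 ht)
    rw [ev E' ρ h0 hN, Finsupp.coe_zero, Pi.zero_apply, neg_nonneg,
      log_le_iff_le_exp ((val E').ne_zero_iff.2 (mul_ne_zero (T.sc.chi_add ρ _ 0 h0).2 t0))]
    exact v1
  · obtain ⟨ρ, h0, hN⟩ := T.nrm.ex (val E) u nz
    rw [ev E ρ h0 hN, key ρ h0 hN, log_one, neg_zero]

end Pool.Agent.Lib.CI
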